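import Pool.Agent.GSP.Defs
import Pool.Agent.GPC.K7
import Pool.Agent.SLR.M4

set_option autoImplicit false

open PowerSeries Finset MeasureTheory

namespace Pool.Agent.GSP

open Pool.Agent.OHG Pool.Agent.GPC Pool.Agent.SLR

variable {V : Type} [Fintype V] [DecidableEq V]

private theorem B2_norm (w : ℂ) : ‖(w ^ (-(1 / 2) : ℂ)) ^ 3‖ = ‖w‖ ^ (-(3 / 2) : ℝ) := by
  have h0 : (-(1 / 2) : ℂ) = ((-(1 / 2) : ℝ) : ℂ) := by push_cast; ring
  rw [norm_pow, h0, Complex.norm_cpow_real, ← Real.rpow_natCast, ← Real.rpow_mul (norm_nonneg _)]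
  congr 1
  norm_num

omit [Fintype V] [DecidableEq V] in
private theorem B2_one (L : Matrix V V ℝ) : Am L (fun _ => 1) = L := by
  ext v w
  simp [Am]

theorem kernel_gauss_norm (L : Matrix V V ℝ) (hL : L.IsHermitian) (hd : L.det ≠ 0) :
    ∃ c : ℂ, ‖c‖ = Real.pi ^ ((3 / 2 : ℝ) * Fintype.card V) * |L.det| ^ (3 / 2 : ℝ) ∧
    ∀ (t : ℝ) (u : V → ℝ), 0 < t → (∀ v, 0 < u v) →
      ∫ X : V × Fin 3 → ℝ, Complex.exp (-((∑ v, u v * ∑ i, X (v, i) ^ 2 : ℝ) : ℂ) +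
        Complex.I * t * ((qf L⁻¹ X : ℝ) : ℂ)) =
      c * ((t ^ (-(3 / 2 : ℝ) * Fintype.card V) : ℝ) : ℂ) * Kf L (Complex.I / (4 * t)) u := by
  obtain ⟨c, -, hc⟩ := kernel_gauss L hL hd
  refine ⟨c, ?_, hc⟩
  have h1 := hc 1 (fun _ => 1) one_pos (fun _ => one_pos)
  rw [gauss_inv L hL hd 1 (fun _ => 1) (fun _ => one_pos)] at h1
  have hA := Am_herm hL (fun _ : V => (1 : ℝ))
  have hdet : ∏ i, hA.eigenvalues i = L.det := by
    have h2 := hA.det_eq_prod_eigenvalues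
    have h3 : (Am L fun _ => 1).det = L.det := by rw [B2_one]
    rw [← h3, h2]
    simp
  have hne : ∀ i, hA.eigenvalues i ≠ 0 := by
    intro i h
    rw [prod_eq_zero (mem_univ i) h] at hdet
    exact hd hdet.symm
  have hK : ‖Kf L (Complex.I / (4 * ((1 : ℝ) : ℂ))) (fun _ => 1)‖ =
      ∏ i, ‖(1 + Complex.I * (hA.eigenvalues i : ℂ))‖ ^ (-(3 / 2) : ℝ) := by
    unfold Kf
    rw [dif_pos hA, norm_prod]
    refine prod_congr rfl fun i _ => ?_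
    rw [B2_norm]
    congr 2
    push_cast
    ring
  have hn := congrArg norm h1
  rw [norm_mul, norm_mul, norm_mul, norm_mul, hK, norm_prod] at hn
  have e1 : ‖((Real.pi ^ ((3 / 2 : ℝ) * Fintype.card V) : ℝ) : ℂ)‖ =
      Real.pi ^ ((3 / 2 : ℝ) * Fintype.card V) := by
    rw [Complex.norm_real, Real.norm_eq_abs, abs_of_pos (Real.rpow_pos_of_pos Real.pi_pos _)]
  have e2 : ‖((∏ _v : V, (1 : ℝ) ^ (-(3 / 2) : ℝ) : ℝ) : ℂ)‖ = 1 := by
    simp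
  have e3 : ‖(((1 : ℝ) ^ (-(3 / 2 : ℝ) * Fintype.card V) : ℝ) : ℂ)‖ = 1 := by
    rw [Real.one_rpow]
    simp
  have e4 : ∀ i, ‖((1 - Complex.I * ((1 : ℝ) : ℂ) / (hA.eigenvalues i : ℂ)) ^ (-(1 / 2) : ℂ)) ^ 3‖ =
      ‖(1 + Complex.I * (hA.eigenvalues i : ℂ))‖ ^ (-(3 / 2) : ℝ) * |hA.eigenvalues i| ^ (3 / 2 : ℝ) := by
    intro i
    have hi : (hA.eigenvalues i : ℂ) ≠ 0 := by exact_mod_cast hne i
    have hi' : 0 < |hA.eigenvalues i| := abs_pos.2 (hne i)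
    rw [B2_norm]
    have h2 : (1 + Complex.I * (hA.eigenvalues i : ℂ)) = (Complex.I * (hA.eigenvalues i : ℂ)) *
        (1 - Complex.I * ((1 : ℝ) : ℂ) / (hA.eigenvalues i : ℂ)) := by
      field_simp
      push_cast
      linear_combination (1 : ℂ) * Complex.I_sq
    have h3 : ‖(1 + Complex.I * (hA.eigenvalues i : ℂ))‖ = |hA.eigenvalues i| *
        ‖(1 - Complex.I * ((1 : ℝ) : ℂ) / (hA.eigenvalues i : ℂ))‖ := by
      rw [h2, norm_mul, norm_mul, Complex.norm_I, one_mul, Complex.norm_real, Real.norm_eq_abs]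
    rw [h3, Real.mul_rpow hi'.le (norm_nonneg _)]
    have h4 : |hA.eigenvalues i| ^ (-(3 / 2) : ℝ) * |hA.eigenvalues i| ^ (3 / 2 : ℝ) = 1 := by
      rw [← Real.rpow_add hi']
      norm_num
    linear_combination (-‖(1 - Complex.I * ((1 : ℝ) : ℂ) / (hA.eigenvalues i : ℂ))‖ ^ (-(3 / 2) : ℝ)) * h4
  rw [e1, e2, e3, mul_one, mul_one, prod_congr rfl fun i _ => e4 i, prod_mul_distrib] at hn
  have e5 : ∏ i, |hA.eigenvalues i| ^ (3 / 2 : ℝ) = |L.det| ^ (3 / 2 : ℝ) := by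
    rw [Real.finsetProd_rpow _ _ fun i _ => abs_nonneg _, ← abs_prod, hdet]
  rw [e5] at hn
  have hpos : 0 < ∏ i, ‖(1 + Complex.I * (hA.eigenvalues i : ℂ))‖ ^ (-(3 / 2) : ℝ) := by
    refine prod_pos fun i _ => Real.rpow_pos_of_pos (norm_pos_iff.2 ?_) _
    intro h
    have := congrArg Complex.re h
    simp at this
  have h5 : ‖c‖ * ∏ i, ‖(1 + Complex.I * (hA.eigenvalues i : ℂ))‖ ^ (-(3 / 2) : ℝ) =
      (Real.pi ^ ((3 / 2 : ℝ) * Fintype.card V) * |L.det| ^ (3 / 2 : ℝ)) *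
        ∏ i, ‖(1 + Complex.I * (hA.eigenvalues i : ℂ))‖ ^ (-(3 / 2) : ℝ) := by
    linear_combination -hn
  exact mul_right_cancel₀ hpos.ne' h5

end Pool.Agent.GSP
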