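import Pool.Agent.GSP.Defs

set_option autoImplicit false

open Finset MeasureTheory

namespace Pool.Agent.GSP

open MeasureTheory.Measure Set in
/-- product formula in polar coordinates -/
private theorem B3_prod (F : ℝ → ℝ) (g : EuclideanSpace ℝ (Fin 3) → ℝ) (c : ℕ)
    (hg : ∀ (r : ℝ) x, 0 < r → g (r • x) = r ^ c * g x) :
    ∫ x : EuclideanSpace ℝ (Fin 3), F ‖x‖ * g x =
      (∫ u : Metric.sphere (0 : EuclideanSpace ℝ (Fin 3)) 1, g u.1 ∂(volume : Measure (EuclideanSpace ℝ (Fin 3))).toSphere) *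
      (∫ r : Ioi (0 : ℝ), F r.1 * r.1 ^ c ∂(volumeIoiPow (Module.finrank ℝ (EuclideanSpace ℝ (Fin 3)) - 1))) := by
  rw [← integral_prod_mul]
  calc ∫ x : EuclideanSpace ℝ (Fin 3), F ‖x‖ * g x
      = ∫ x : ({(0 : EuclideanSpace ℝ (Fin 3))}ᶜ : Set (EuclideanSpace ℝ (Fin 3))), F ‖x.1‖ * g x.1 ∂((volume : Measure (EuclideanSpace ℝ (Fin 3))).comap (↑)) := by
        rw [integral_subtype_comap (measurableSet_singleton _).compl fun x : EuclideanSpace ℝ (Fin 3) ↦ F ‖x‖ * g x,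
          restrict_compl_singleton]
    _ = _ := by
        rw [← (volume : Measure (EuclideanSpace ℝ (Fin 3))).measurePreserving_homeomorphUnitSphereProd.integral_comp
          (Homeomorph.measurableEmbedding _)]
        apply integral_congr_ae
        refine Filter.Eventually.of_forall fun x => ?_
        have h0 : x.1 ≠ 0 := x.2
        have h1 : 0 < ‖x.1‖ := norm_pos_iff.2 h0
        have e1 : ((homeomorphUnitSphereProd (EuclideanSpace ℝ (Fin 3)) x).1 : EuclideanSpace ℝ (Fin 3)) = ‖x.1‖⁻¹ • x.1 := by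
          simp
        have e2 : ((homeomorphUnitSphereProd (EuclideanSpace ℝ (Fin 3)) x).2 : ℝ) = ‖x.1‖ := by
          simp
        beta_reduce
        rw [e1, e2]
        have e3 : g x.1 = ‖x.1‖ ^ c * g (‖x.1‖⁻¹ • x.1) := by
          rw [← hg ‖x.1‖ _ h1, smul_smul, mul_inv_cancel₀ h1.ne', one_smul]
        rw [e3]
        ring

private theorem B3_transfer (G : (Fin 3 → ℝ) → ℝ) :
    ∫ x : Fin 3 → ℝ, G x = ∫ x : EuclideanSpace ℝ (Fin 3), G (WithLp.ofLp x) := by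
  exact ((PiLp.volume_preserving_ofLp (Fin 3)).integral_comp
    (MeasurableEquiv.toLp 2 (Fin 3 → ℝ)).symm.measurableEmbedding G).symm

private theorem B3_norm (x : EuclideanSpace ℝ (Fin 3)) : ∑ i, (WithLp.ofLp x) i ^ 2 = ‖x‖ ^ 2 := by
  rw [EuclideanSpace.real_norm_sq_eq]

open MeasureTheory.Measure Set in
private theorem B3_polar (F : ℝ → ℝ) : ∫ x : EuclideanSpace ℝ (Fin 3), F ‖x‖ =
    4 * Real.pi * ∫ r in Set.Ioi (0 : ℝ), r ^ 2 * F r := by
  rw [integral_fun_norm_addHaar]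
  have h1 : (volume : Measure (EuclideanSpace ℝ (Fin 3))).real (Metric.ball 0 1) = Real.pi * 4 / 3 := by
    rw [Measure.real, EuclideanSpace.volume_ball_fin_three]
    have : (0 : ℝ) ≤ Real.pi * 4 / 3 := by positivity
    simp [ENNReal.toReal_ofReal this]
  rw [h1]
  simp only [finrank_euclideanSpace, Fintype.card_fin, nsmul_eq_mul, smul_eq_mul]
  norm_num
  ring

/-- polar coordinates -/
theorem polar3 (F : ℝ → ℝ) : ∫ x : Fin 3 → ℝ, F (∑ i, x i ^ 2) =
    4 * Real.pi * ∫ r in Set.Ioi (0 : ℝ), r ^ 2 * F (r ^ 2) := by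
  rw [B3_transfer, ← B3_polar (fun r => F (r ^ 2))]
  simp only [B3_norm]

private theorem B3_gauss_line (c : ℕ) (hc : Even c) :
    ∫ t : ℝ, Real.exp (-t ^ 2) * t ^ c = Real.Gamma ((c + 1) / 2) := by
  have h1 : ∀ t : ℝ, Real.exp (-t ^ 2) * t ^ c = (fun s : ℝ => Real.exp (-s ^ 2) * s ^ c) |t| := by
    intro t
    simp only [sq_abs, hc.pow_abs]
  rw [integral_congr_ae (Filter.Eventually.of_forall h1)]
  rw [integral_comp_abs (f := fun s : ℝ => Real.exp (-s ^ 2) * s ^ c)]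
  have h2 := integral_rpow_mul_exp_neg_rpow (p := 2) (q := c) (by norm_num) (by have : (0 : ℝ) ≤ c := Nat.cast_nonneg c; linarith)
  have h3 : ∫ x in Set.Ioi (0 : ℝ), Real.exp (-x ^ 2) * x ^ c = ∫ x in Set.Ioi (0 : ℝ), x ^ (c : ℝ) * Real.exp (-x ^ (2 : ℝ)) := by
    refine setIntegral_congr_fun measurableSet_Ioi fun x hx => ?_
    have e : x ^ (2 : ℝ) = x ^ 2 := by exact_mod_cast Real.rpow_natCast x 2
    simp only [Real.rpow_natCast, e]
    ring
  rw [h3, h2]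
  ring

private theorem B3_gauss_half (c : ℕ) :
    ∫ r in Set.Ioi (0 : ℝ), r ^ 2 * (Real.exp (-r ^ 2) * r ^ c) = (c + 1) / 4 * Real.Gamma ((c + 1) / 2) := by
  have hc0 : (0 : ℝ) ≤ c := Nat.cast_nonneg c
  have h2 := integral_rpow_mul_exp_neg_rpow (p := 2) (q := c + 2) (by norm_num) (by linarith)
  have h3 : ∫ r in Set.Ioi (0 : ℝ), r ^ 2 * (Real.exp (-r ^ 2) * r ^ c) = ∫ x in Set.Ioi (0 : ℝ), x ^ ((c : ℝ) + 2) * Real.exp (-x ^ (2 : ℝ)) := by
    refine setIntegral_congr_fun measurableSet_Ioi fun x hx => ?_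
    have e : x ^ (2 : ℝ) = x ^ 2 := by exact_mod_cast Real.rpow_natCast x 2
    have e' : x ^ ((c : ℝ) + 2) = x ^ (c + 2) := by exact_mod_cast Real.rpow_natCast x (c + 2)
    simp only [e, e']
    ring
  rw [h3, h2]
  have e : ((c : ℝ) + 2 + 1) / 2 = (c + 1) / 2 + 1 := by ring
  rw [e, Real.Gamma_add_one (by positivity)]
  ring

private theorem B3_gauss_coord (c : ℕ) (hc : Even c) :
    ∫ x : EuclideanSpace ℝ (Fin 3), Real.exp (-‖x‖ ^ 2) * (WithLp.ofLp x) 0 ^ c = Real.pi * Real.Gamma ((c + 1) / 2) := by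
  have h0 : ∫ x : EuclideanSpace ℝ (Fin 3), Real.exp (-‖x‖ ^ 2) * (WithLp.ofLp x) 0 ^ c =
      ∫ x : Fin 3 → ℝ, Real.exp (-∑ i, x i ^ 2) * x 0 ^ c := by
    rw [B3_transfer (fun x => Real.exp (-∑ i, x i ^ 2) * x 0 ^ c)]
    simp only [B3_norm]
  rw [h0]
  have h1 : ∀ x : Fin 3 → ℝ, Real.exp (-∑ i, x i ^ 2) * x 0 ^ c =
      ∏ i : Fin 3, (fun (i : Fin 3) (t : ℝ) => Real.exp (-t ^ 2) * t ^ (if i = 0 then c else 0)) i (x i) := by
    intro x
    simp only [Fin.sum_univ_three, Fin.prod_univ_three]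
    have e1 : Real.exp (-(x 0 ^ 2 + x 1 ^ 2 + x 2 ^ 2)) = Real.exp (-x 0 ^ 2) * Real.exp (-x 1 ^ 2) * Real.exp (-x 2 ^ 2) := by
      rw [← Real.exp_add, ← Real.exp_add]
      ring_nf
    rw [e1]
    simp
    ring
  simp_rw [h1]
  rw [integral_fintype_prod_volume_eq_prod (fun (i : Fin 3) (t : ℝ) => Real.exp (-t ^ 2) * t ^ (if i = 0 then c else 0))]
  rw [Fin.prod_univ_three]
  have e0 : ∫ t : ℝ, Real.exp (-t ^ 2) * t ^ (if (0 : Fin 3) = 0 then c else 0) = Real.Gamma ((c + 1) / 2) := by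
    simp only [if_true]
    exact B3_gauss_line c hc
  have e1 : ∫ t : ℝ, Real.exp (-t ^ 2) * t ^ (if (1 : Fin 3) = 0 then c else 0) = Real.sqrt Real.pi := by
    have := B3_gauss_line 0 (by decide)
    simp only [Nat.cast_zero, zero_add, Real.Gamma_one_half_eq] at this
    simpa using this
  have e2 : ∫ t : ℝ, Real.exp (-t ^ 2) * t ^ (if (2 : Fin 3) = 0 then c else 0) = Real.sqrt Real.pi := by
    have := B3_gauss_line 0 (by decide)
    simp only [Nat.cast_zero, zero_add, Real.Gamma_one_half_eq] at this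
    simpa using this
  rw [e0, e1, e2, mul_assoc, Real.mul_self_sqrt Real.pi_pos.le, mul_comm]

private theorem B3_coord (F : ℝ → ℝ) (c : ℕ) (hc : Even c) :
    (c + 1) * ∫ x : EuclideanSpace ℝ (Fin 3), F ‖x‖ * (WithLp.ofLp x) 0 ^ c =
      ∫ x : EuclideanSpace ℝ (Fin 3), F ‖x‖ * ‖x‖ ^ c := by
  have hA : ∀ F : ℝ → ℝ, _ := fun F => B3_prod F (fun x => (WithLp.ofLp x) 0 ^ c) c (by
    intro r x hr
    simp [mul_pow])
  have hB : ∀ F : ℝ → ℝ, _ := fun F => B3_prod F (fun x => ‖x‖ ^ c) c (by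
    intro r x hr
    rw [norm_smul, mul_pow, Real.norm_eq_abs, abs_of_pos hr])
  have h1 := B3_gauss_coord c hc
  have h2 : ∫ x : EuclideanSpace ℝ (Fin 3), Real.exp (-‖x‖ ^ 2) * ‖x‖ ^ c = (c + 1) * (Real.pi * Real.Gamma ((c + 1) / 2)) := by
    have := B3_polar (fun r => Real.exp (-r ^ 2) * r ^ c)
    rw [B3_gauss_half] at this
    rw [this]
    ring
  have h3 := hA (fun r => Real.exp (-r ^ 2))
  have h4 := hB (fun r => Real.exp (-r ^ 2))
  simp only at h3 h4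
  rw [h1] at h3
  rw [h2] at h4
  have hpos : 0 < Real.pi * Real.Gamma ((c + 1) / 2) := mul_pos Real.pi_pos (Real.Gamma_pos_of_pos (by positivity))
  rw [hA F, hB F]
  rw [h3, ← mul_assoc] at h4
  have hR : (∫ r : Set.Ioi (0 : ℝ), Real.exp (-r.1 ^ 2) * r.1 ^ c ∂(MeasureTheory.Measure.volumeIoiPow (Module.finrank ℝ (EuclideanSpace ℝ (Fin 3)) - 1))) ≠ 0 := by
    intro h
    rw [h, mul_zero] at h3
    exact hpos.ne' h3
  have h5 := mul_right_cancel₀ hR h4
  rw [← h5]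
  ring

private theorem B3_rot (F : ℝ → ℝ) (c : ℕ) (y : EuclideanSpace ℝ (Fin 3)) :
    ∫ x : EuclideanSpace ℝ (Fin 3), F ‖x‖ * (∑ i, (WithLp.ofLp x) i * (WithLp.ofLp y) i) ^ c =
      ‖y‖ ^ c * ∫ x : EuclideanSpace ℝ (Fin 3), F ‖x‖ * (WithLp.ofLp x) 0 ^ c := by
  set w : EuclideanSpace ℝ (Fin 3) := ‖y‖ • EuclideanSpace.single 0 (1 : ℝ) with hw
  have hn : ‖y‖ = ‖w‖ := by
    rw [hw, norm_smul]
    simp
  set R := (ℝ ∙ (y - w))ᗮ.reflection with hR
  have hRy : R y = w := Submodule.reflection_sub hn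
  have hin : ∀ x z : EuclideanSpace ℝ (Fin 3), ∑ i, (WithLp.ofLp x) i * (WithLp.ofLp z) i = inner ℝ x z := by
    intro x z
    rw [PiLp.inner_apply]
    apply Finset.sum_congr rfl
    intro i _
    simp [mul_comm]
  have h1 : ∀ x : EuclideanSpace ℝ (Fin 3), F ‖x‖ * (∑ i, (WithLp.ofLp x) i * (WithLp.ofLp y) i) ^ c =
      (fun z : EuclideanSpace ℝ (Fin 3) => F ‖z‖ * (inner ℝ z w) ^ c) (R x) := by
    intro x
    simp only
    rw [R.norm_map, hin, ← hRy, R.inner_map_map]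
  simp_rw [h1]
  rw [R.measurePreserving.integral_comp R.toMeasurableEquiv.measurableEmbedding
    (fun z : EuclideanSpace ℝ (Fin 3) => F ‖z‖ * (inner ℝ z w) ^ c), ← integral_const_mul]
  congr 1
  funext x
  have h2 : inner ℝ x w = ‖y‖ * (WithLp.ofLp x) 0 := by
    rw [hw, inner_smul_right, EuclideanSpace.inner_single_right]
    simp
  rw [h2, mul_pow]
  ring

/-- the average of `(x · y) ^ c` over the spheres -/
theorem sphere_average (F : ℝ → ℝ) (c : ℕ) (y : Fin 3 → ℝ) :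
    ∫ x : Fin 3 → ℝ, F (∑ i, x i ^ 2) * (∑ i, x i * y i) ^ c =
      if Even c then (∑ i, y i ^ 2) ^ (c / 2) / (c + 1) *
        ∫ x : Fin 3 → ℝ, F (∑ i, x i ^ 2) * (∑ i, x i ^ 2) ^ (c / 2) else 0 := by
  split_ifs with hc
  · rw [B3_transfer, B3_transfer (fun x => F (∑ i, x i ^ 2) * (∑ i, x i ^ 2) ^ (c / 2))]
    simp only [B3_norm]
    have h1 := B3_rot (fun r => F (r ^ 2)) c (WithLp.toLp 2 y)
    have h2 := B3_coord (fun r => F (r ^ 2)) c hc
    have h4 : ∀ t : ℝ, (t ^ 2) ^ (c / 2) = t ^ c := by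
      intro t
      rw [← pow_mul, Nat.mul_div_cancel' hc.two_dvd]
    simp only at h1 h2
    rw [h1]
    simp only [h4]
    rw [← h2]
    have hpos : (c : ℝ) + 1 ≠ 0 := by positivity
    field_simp
  · have hodd : Odd c := Nat.not_even_iff_odd.1 hc
    have h1 := integral_neg_eq_self (fun x : Fin 3 → ℝ => F (∑ i, x i ^ 2) * (∑ i, x i * y i) ^ c) volume
    have h2 : ∀ x : Fin 3 → ℝ, F (∑ i, (-x) i ^ 2) * (∑ i, (-x) i * y i) ^ c = -(F (∑ i, x i ^ 2) * (∑ i, x i * y i) ^ c) := by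
      intro x
      have e1 : ∑ i, (-x) i ^ 2 = ∑ i, x i ^ 2 := by simp
      have e2 : ∑ i, (-x) i * y i = -∑ i, x i * y i := by simp
      rw [e1, e2, hodd.neg_pow]
      ring
    simp only [h2] at h1
    rw [integral_neg] at h1
    linarith

end Pool.Agent.GSP
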