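import Pool.Agent.GSP.Defs
import Pool.Agent.GSP.B3

set_option autoImplicit false

open Finset MeasureTheory

namespace Pool.Agent.GSP

variable {V : Type} [Fintype V] [DecidableEq V]

/-- the scalar product of the vectors at the ends of an edge -/
def dt (X : V × Fin 3 → ℝ) (e : Sym2 V) : ℝ :=
  Sym2.lift ⟨fun u v => ∑ i, X (u, i) * X (v, i),
    fun u v => Finset.sum_congr rfl fun i _ => mul_comm _ _⟩ e

/-- the radial functions of rapid decay -/
def Rad (F : ℝ → ℝ) : Prop :=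
  ∀ n : ℕ, Integrable (fun x : Fin 3 → ℝ => F (∑ i, x i ^ 2) * (∑ i, x i ^ 2) ^ n)

private theorem B3d_curry :
    MeasurePreserving (MeasurableEquiv.curry V (Fin 3) ℝ) volume volume := by
  refine MeasurePreserving.symm (MeasurableEquiv.curry V (Fin 3) ℝ).symm ?_
  refine ⟨(MeasurableEquiv.curry V (Fin 3) ℝ).symm.measurable,
    (Measure.pi_eq fun s _ => ?_).symm⟩
  rw [MeasurableEquiv.map_apply]
  have h : (MeasurableEquiv.curry V (Fin 3) ℝ).symm ⁻¹' Set.pi Set.univ s =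
      Set.pi Set.univ (fun v => Set.pi Set.univ fun j => s (v, j)) := by
    ext x
    simp [MeasurableEquiv.coe_curry_symm, Function.uncurry, Prod.forall]
  rw [h, volume_pi, Measure.pi_pi]
  simp_rw [volume_pi, Measure.pi_pi]
  rw [Fintype.prod_prod_type]

private theorem B3d_Rad {F : ℝ → ℝ} (hF : Rad F) (n : ℕ) :
    Integrable (fun x : Fin 3 → ℝ => |F (∑ i, x i ^ 2)| * (1 + ∑ i, x i ^ 2) ^ n) := by
  have h1 : ∀ k : ℕ, Integrable (fun x : Fin 3 → ℝ => |F (∑ i, x i ^ 2)| * (∑ i, x i ^ 2) ^ k) := by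
    intro k
    refine (hF k).abs.congr (Filter.Eventually.of_forall fun x => ?_)
    show |F (∑ i, x i ^ 2) * (∑ i, x i ^ 2) ^ k| = |F (∑ i, x i ^ 2)| * (∑ i, x i ^ 2) ^ k
    rw [abs_mul, abs_of_nonneg (pow_nonneg (Finset.sum_nonneg fun i _ => sq_nonneg (x i)) k)]
  have h2 : (fun x : Fin 3 → ℝ => |F (∑ i, x i ^ 2)| * (1 + ∑ i, x i ^ 2) ^ n) =
      fun x => ∑ k ∈ Finset.range (n + 1), ((n.choose k : ℕ) : ℝ) *
        (|F (∑ i, x i ^ 2)| * (∑ i, x i ^ 2) ^ k) := by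
    funext x
    rw [add_comm 1, add_pow, Finset.mul_sum]
    refine Finset.sum_congr rfl fun k _ => ?_
    rw [one_pow]
    ring
  rw [h2]
  exact integrable_finsetSum _ fun k _ => (h1 k).const_mul _

private theorem B3d_prod_integrable {φ : V → (Fin 3 → ℝ) → ℝ} (h : ∀ v, Integrable (φ v)) :
    Integrable (fun X : V × Fin 3 → ℝ => ∏ v, φ v (fun i => X (v, i))) := by
  have h1 : Integrable (fun Y : V → Fin 3 → ℝ => ∏ v, φ v (Y v)) := Integrable.fintype_prod h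
  exact (B3d_curry.integrable_comp_emb (MeasurableEquiv.measurableEmbedding _)).2 h1

private theorem B3d_prod_integral (φ : V → (Fin 3 → ℝ) → ℝ) :
    ∫ X : V × Fin 3 → ℝ, ∏ v, φ v (fun i => X (v, i)) = ∏ v, ∫ x, φ v x := by
  rw [← integral_fintype_prod_volume_eq_prod]
  exact B3d_curry.integral_comp' (g := fun Y : V → Fin 3 → ℝ => ∏ v, φ v (Y v))

/-- products of polynomials of the single vectors and radial functions are integrable -/
theorem rad_integrable {F : V → ℝ → ℝ} (hF : ∀ v, Rad (F v)) {g : (V × Fin 3 → ℝ) → ℝ}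
    (hg : Continuous g) (hb : ∃ (C : ℝ) (n : ℕ), ∀ X, |g X| ≤ C * ∏ v, (1 + ∑ i, X (v, i) ^ 2) ^ n) :
    Integrable (fun X : V × Fin 3 → ℝ => (∏ v, F v (∑ i, X (v, i) ^ 2)) * g X) := by
  obtain ⟨C, n, hC⟩ := hb
  have h0 : Integrable (fun X : V × Fin 3 → ℝ => ∏ v, F v (∑ i, X (v, i) ^ 2)) := by
    refine B3d_prod_integrable (φ := fun v x => F v (∑ i, x i ^ 2)) fun v => ?_
    simpa using hF v 0
  have h1 : Integrable (fun X : V × Fin 3 → ℝ =>
      ∏ v, (|F v (∑ i, X (v, i) ^ 2)| * (1 + ∑ i, X (v, i) ^ 2) ^ n)) :=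
    B3d_prod_integrable (φ := fun v x => |F v (∑ i, x i ^ 2)| * (1 + ∑ i, x i ^ 2) ^ n)
      fun v => B3d_Rad (hF v) n
  refine (h1.const_mul C).mono' (h0.aestronglyMeasurable.mul hg.aestronglyMeasurable)
    (Filter.Eventually.of_forall fun X => ?_)
  rw [Real.norm_eq_abs, abs_mul, Finset.abs_prod, Finset.prod_mul_distrib]
  calc (∏ v, |F v (∑ i, X (v, i) ^ 2)|) * |g X|
      ≤ (∏ v, |F v (∑ i, X (v, i) ^ 2)|) * (C * ∏ v, (1 + ∑ i, X (v, i) ^ 2) ^ n) :=
        mul_le_mul_of_nonneg_left (hC X) (Finset.prod_nonneg fun v _ => abs_nonneg _)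
    _ = C * ((∏ v, |F v (∑ i, X (v, i) ^ 2)|) * ∏ v, (1 + ∑ i, X (v, i) ^ 2) ^ n) := by ring

/-! ### splitting off the vector of one vertex -/

/-- replace the vector at `v` by `x` -/
private def B3d_upd (v : V) (x : Fin 3 → ℝ) (X : V × Fin 3 → ℝ) : V × Fin 3 → ℝ :=
  fun p => if p.1 = v then x p.2 else X p

private def B3d_e (v : V) : Fin 3 ≃ {p : V × Fin 3 // p.1 = v} where
  toFun j := ⟨(v, j), rfl⟩
  invFun p := p.1.2
  left_inv j := rfl
  right_inv p := by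
    obtain ⟨⟨w, j⟩, h⟩ := p
    have h' : w = v := h
    subst h'
    rfl

private theorem B3d_split (v : V) {h : (V × Fin 3 → ℝ) → ℝ} (H : Integrable h) :
    ∫ X, h X = ∫ b : ({p : V × Fin 3 // ¬ p.1 = v} → ℝ), ∫ x : Fin 3 → ℝ,
      h (B3d_upd v x (fun p => if hp : p.1 = v then 0 else b ⟨p, hp⟩)) := by
  have mps := (volume_preserving_piEquivPiSubtypeProd (fun _ : V × Fin 3 => ℝ)
    (fun p => p.1 = v)).symm
  have hint := (mps.integrable_comp_emb (MeasurableEquiv.measurableEmbedding _) (g := h)).2 H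
  rw [← mps.integral_comp' (g := h)]
  have hint' : Integrable (fun z => h ((MeasurableEquiv.piEquivPiSubtypeProd
      (fun _ : V × Fin 3 => ℝ) (fun p => p.1 = v)).symm z)) (volume.prod volume) := hint
  refine (integral_prod_symm _ hint').trans ?_
  congr 1
  funext b
  rw [← (volume_measurePreserving_piCongrLeft
    (fun _ : {p : V × Fin 3 // p.1 = v} => ℝ) (B3d_e v)).integral_comp']
  congr 1
  funext x
  congr 1
  funext p
  by_cases hp : p.1 = v
  · have h1 : (MeasurableEquiv.piEquivPiSubtypeProd (fun _ : V × Fin 3 => ℝ)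
        (fun p => p.1 = v)).symm ((MeasurableEquiv.piCongrLeft
          (fun _ : {p : V × Fin 3 // p.1 = v} => ℝ) (B3d_e v)) x, b) p =
        (MeasurableEquiv.piCongrLeft
          (fun _ : {p : V × Fin 3 // p.1 = v} => ℝ) (B3d_e v)) x ⟨p, hp⟩ := by
      simp [MeasurableEquiv.piEquivPiSubtypeProd, Equiv.piEquivPiSubtypeProd, hp]
    rw [h1]
    have h2 : (⟨p, hp⟩ : {p : V × Fin 3 // p.1 = v}) = B3d_e v p.2 := by
      apply Subtype.ext
      show p = (v, p.2)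
      rw [← hp]
    rw [h2, MeasurableEquiv.piCongrLeft_apply_apply]
    simp [B3d_upd, hp]
  · have h1 : (MeasurableEquiv.piEquivPiSubtypeProd (fun _ : V × Fin 3 => ℝ)
        (fun p => p.1 = v)).symm ((MeasurableEquiv.piCongrLeft
          (fun _ : {p : V × Fin 3 // p.1 = v} => ℝ) (B3d_e v)) x, b) p = b ⟨p, hp⟩ := by
      simp [MeasurableEquiv.piEquivPiSubtypeProd, Equiv.piEquivPiSubtypeProd, hp]
    rw [h1]
    simp [B3d_upd, hp]

private theorem B3d_fub (v : V) {h1 h2 : (V × Fin 3 → ℝ) → ℝ} (H1 : Integrable h1)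
    (H2 : Integrable h2)
    (h : ∀ Z, ∫ x : Fin 3 → ℝ, h1 (B3d_upd v x Z) = ∫ x : Fin 3 → ℝ, h2 (B3d_upd v x Z)) :
    ∫ X, h1 X = ∫ X, h2 X := by
  rw [B3d_split v H1, B3d_split v H2]
  congr 1
  funext b
  exact h _

/-! ### leaves of forests -/

private theorem B3d_leaf {G : SimpleGraph V} (hG : G.IsAcyclic) {a b : V} (hab : G.Adj a b) :
    ∃ v u : V, G.Adj v u ∧ ∀ w, G.Adj v w → w = u := by
  classical
  let S : Set ℕ := {n | ∃ (x y : V) (p : G.Walk x y), p.IsPath ∧ p.length = n}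
  have hS1 : (1 : ℕ) ∈ S := by
    refine ⟨a, b, SimpleGraph.Walk.cons hab SimpleGraph.Walk.nil, ?_, rfl⟩
    rw [SimpleGraph.Walk.cons_isPath_iff]
    refine ⟨SimpleGraph.Walk.IsPath.nil, ?_⟩
    simp only [SimpleGraph.Walk.support_nil, List.mem_singleton]
    exact hab.ne
  have hbdd : ∀ n ∈ S, n ≤ Fintype.card V := by
    rintro n ⟨x, y, p, hp, rfl⟩
    exact hp.length_lt.le
  obtain ⟨n, hnS, hmax⟩ : ∃ n ∈ S, ∀ m ∈ S, m ≤ n := by
    have hfin : S.Finite := (Set.finite_Iic (Fintype.card V)).subset hbdd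
    obtain ⟨n, hn, hn'⟩ := Set.exists_max_image S id hfin ⟨1, hS1⟩
    exact ⟨n, hn, fun m hm => hn' m hm⟩
  obtain ⟨x, y, p, hp, hlen⟩ := hnS
  have hn1 : 1 ≤ n := hmax 1 hS1
  have hnil : ¬ p.Nil := by
    intro h
    have := SimpleGraph.Walk.length_eq_zero_iff.2 h
    omega
  refine ⟨x, p.snd, p.adj_snd hnil, fun w hw => ?_⟩
  by_cases hws : w ∈ p.support
  · exact hG.eq_snd_of_adj_start hp hw hws
  · exfalso
    have h2 : n + 1 ∈ S :=
      ⟨w, y, SimpleGraph.Walk.cons hw.symm p, (SimpleGraph.Walk.cons_isPath_iff _ _).2 ⟨hp, hws⟩,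
        by rw [SimpleGraph.Walk.length_cons, hlen]⟩
    have := hmax _ h2
    omega

/-! ### the integrand -/

private theorem B3d_dt_mk (X : V × Fin 3 → ℝ) (u v : V) :
    dt X s(u, v) = ∑ i, X (u, i) * X (v, i) := rfl

private theorem B3d_dt_cont (e : Sym2 V) : Continuous fun X : V × Fin 3 → ℝ => dt X e := by
  induction e using Sym2.ind with
  | _ u v =>
    simp only [B3d_dt_mk]
    fun_prop

private theorem B3d_one_le (X : V × Fin 3 → ℝ) (v : V) :
    1 + ∑ i, X (v, i) ^ 2 ≤ ∏ w, (1 + ∑ i, X (w, i) ^ 2) := by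
  have h : ∀ w, 1 ≤ 1 + ∑ i, X (w, i) ^ 2 := fun w => by
    have : 0 ≤ ∑ i, X (w, i) ^ 2 := Finset.sum_nonneg fun i _ => sq_nonneg _
    linarith
  rw [← Finset.mul_prod_erase Finset.univ _ (Finset.mem_univ v)]
  have h1 : ∏ w ∈ Finset.univ.erase v, (1 : ℝ) ≤
      ∏ w ∈ Finset.univ.erase v, (1 + ∑ i, X (w, i) ^ 2) :=
    Finset.prod_le_prod (fun _ _ => zero_le_one) fun w _ => h w
  rw [Finset.prod_const_one] at h1
  exact le_mul_of_one_le_right (by linarith [h v]) h1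

private theorem B3d_dt_le (X : V × Fin 3 → ℝ) (e : Sym2 V) :
    |dt X e| ≤ ∏ w, (1 + ∑ i, X (w, i) ^ 2) := by
  induction e using Sym2.ind with
  | _ u v =>
    rw [B3d_dt_mk]
    have h1 := B3d_one_le X u
    have h2 := B3d_one_le X v
    have h3 : |∑ i, X (u, i) * X (v, i)| ≤ ∑ i, (X (u, i) ^ 2 + X (v, i) ^ 2) / 2 := by
      refine (Finset.abs_sum_le_sum_abs _ _).trans (Finset.sum_le_sum fun i _ => ?_)
      rw [abs_le]
      constructor
      · nlinarith [sq_nonneg (X (u, i) + X (v, i))]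
      · nlinarith [sq_nonneg (X (u, i) - X (v, i))]
    rw [← Finset.sum_div, Finset.sum_add_distrib] at h3
    linarith

/-- the integrand -/
private noncomputable def B3d_J (F : V → ℝ → ℝ) (E : Finset (Sym2 V)) (i : V → ℕ) (c : Sym2 V → ℕ)
    (X : V × Fin 3 → ℝ) : ℝ :=
  (∏ v, F v (∑ i, X (v, i) ^ 2)) *
      ((∏ v, (∑ j, X (v, j) ^ 2) ^ i v) * ∏ e ∈ E, dt X e ^ c e)

private theorem B3d_J_int {F : V → ℝ → ℝ} (hF : ∀ v, Rad (F v)) (E : Finset (Sym2 V)) (i : V → ℕ)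
    (c : Sym2 V → ℕ) : Integrable (B3d_J F E i c) := by
  refine rad_integrable hF (g := fun X => (∏ v, (∑ j, X (v, j) ^ 2) ^ i v) *
    ∏ e ∈ E, dt X e ^ c e) ?_ ?_
  · refine Continuous.mul ?_ ?_
    · fun_prop
    · exact continuous_finsetProd _ fun e _ => (B3d_dt_cont e).pow _
  · refine ⟨1, ∑ v, i v + ∑ e ∈ E, c e, fun X => ?_⟩
    set P := ∏ w, (1 + ∑ i, X (w, i) ^ 2) with hP
    have hP1 : ∀ v, |∑ j, X (v, j) ^ 2| ≤ P := fun v => by
      have h0 : 0 ≤ ∑ i, X (v, i) ^ 2 := Finset.sum_nonneg fun i _ => sq_nonneg _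
      rw [abs_of_nonneg h0]
      linarith [B3d_one_le X v]
    rw [one_mul, Finset.prod_pow, ← hP, abs_mul, Finset.abs_prod, Finset.abs_prod, pow_add]
    refine mul_le_mul ?_ ?_ (Finset.prod_nonneg fun _ _ => abs_nonneg _) (pow_nonneg ?_ _)
    · rw [← Finset.prod_pow_eq_pow_sum]
      refine Finset.prod_le_prod (fun _ _ => abs_nonneg _) fun v _ => ?_
      rw [abs_pow]
      exact pow_le_pow_left₀ (abs_nonneg _) (hP1 v) _
    · rw [← Finset.prod_pow_eq_pow_sum]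
      refine Finset.prod_le_prod (fun _ _ => abs_nonneg _) fun e _ => ?_
      rw [abs_pow]
      exact pow_le_pow_left₀ (abs_nonneg _) (B3d_dt_le X e) _
    · exact Finset.prod_nonneg fun w _ => by
        have : 0 ≤ ∑ i, X (w, i) ^ 2 := Finset.sum_nonneg fun i _ => sq_nonneg _
        linarith

private theorem B3d_upd_self (v : V) (x : Fin 3 → ℝ) (Z : V × Fin 3 → ℝ) (j : Fin 3) :
    B3d_upd v x Z (v, j) = x j := by
  simp [B3d_upd]

private theorem B3d_upd_ne {v w : V} (h : w ≠ v) (x : Fin 3 → ℝ) (Z : V × Fin 3 → ℝ) (j : Fin 3) :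
    B3d_upd v x Z (w, j) = Z (w, j) := by
  simp [B3d_upd, h]

private theorem B3d_dt_upd {v : V} {e : Sym2 V} (he : v ∉ e) (x : Fin 3 → ℝ) (Z : V × Fin 3 → ℝ) :
    dt (B3d_upd v x Z) e = dt Z e := by
  induction e using Sym2.ind with
  | _ a b =>
    rw [Sym2.mem_iff, not_or] at he
    rw [B3d_dt_mk, B3d_dt_mk]
    simp only [B3d_upd_ne (Ne.symm he.1), B3d_upd_ne (Ne.symm he.2)]

/-- the part of the integrand which does not depend on the vector at `v` -/
private noncomputable def B3d_A (F : V → ℝ → ℝ) (E : Finset (Sym2 V)) (i : V → ℕ)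
    (c : Sym2 V → ℕ) (v : V) (Z : V × Fin 3 → ℝ) : ℝ :=
  (∏ w ∈ Finset.univ.erase v, F w (∑ i, Z (w, i) ^ 2)) *
      ((∏ w ∈ Finset.univ.erase v, (∑ j, Z (w, j) ^ 2) ^ i w) * ∏ e ∈ E, dt Z e ^ c e)

private theorem B3d_J_upd (F : V → ℝ → ℝ) (E : Finset (Sym2 V)) (i : V → ℕ)
    (c : Sym2 V → ℕ) (v : V) (hE : ∀ e ∈ E, v ∉ e) (x : Fin 3 → ℝ) (Z : V × Fin 3 → ℝ) :
    B3d_J F E i c (B3d_upd v x Z) =
      F v (∑ j, x j ^ 2) * (∑ j, x j ^ 2) ^ i v * B3d_A F E i c v Z := by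
  unfold B3d_J B3d_A
  rw [← Finset.mul_prod_erase Finset.univ _ (Finset.mem_univ v),
    ← Finset.mul_prod_erase Finset.univ (fun w => (∑ j, B3d_upd v x Z (w, j) ^ 2) ^ i w)
      (Finset.mem_univ v)]
  simp only [B3d_upd_self]
  have h1 : ∏ w ∈ Finset.univ.erase v, F w (∑ i, B3d_upd v x Z (w, i) ^ 2) =
      ∏ w ∈ Finset.univ.erase v, F w (∑ i, Z (w, i) ^ 2) :=
    Finset.prod_congr rfl fun w hw => by simp only [B3d_upd_ne (Finset.ne_of_mem_erase hw)]
  have h2 : ∏ w ∈ Finset.univ.erase v, (∑ j, B3d_upd v x Z (w, j) ^ 2) ^ i w =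
      ∏ w ∈ Finset.univ.erase v, (∑ j, Z (w, j) ^ 2) ^ i w :=
    Finset.prod_congr rfl fun w hw => by simp only [B3d_upd_ne (Finset.ne_of_mem_erase hw)]
  have h3 : ∏ e ∈ E, dt (B3d_upd v x Z) e ^ c e = ∏ e ∈ E, dt Z e ^ c e :=
    Finset.prod_congr rfl fun e he => by rw [B3d_dt_upd (hE e he)]
  rw [h1, h2, h3]
  ring

private theorem B3d_A_congr (F : V → ℝ → ℝ) (E : Finset (Sym2 V)) (i : V → ℕ)
    (c : Sym2 V → ℕ) (v u : V) (huv : u ≠ v) (m : ℕ) (i' : V → ℕ) (hu : i' u = i u + m)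
    (hw : ∀ w, w ≠ v → w ≠ u → i' w = i w) (Z : V × Fin 3 → ℝ) :
    B3d_A F E i' c v Z = (∑ j, Z (u, j) ^ 2) ^ m * B3d_A F E i c v Z := by
  unfold B3d_A
  have hmem : u ∈ Finset.univ.erase v := Finset.mem_erase.2 ⟨huv, Finset.mem_univ u⟩
  have h1 : ∏ w ∈ Finset.univ.erase v, (∑ j, Z (w, j) ^ 2) ^ i' w =
      (∑ j, Z (u, j) ^ 2) ^ m * ∏ w ∈ Finset.univ.erase v, (∑ j, Z (w, j) ^ 2) ^ i w := by
    rw [← Finset.mul_prod_erase _ _ hmem, ← Finset.mul_prod_erase _ (fun w =>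
      (∑ j, Z (w, j) ^ 2) ^ i w) hmem, hu, pow_add]
    have h2 : ∏ w ∈ (Finset.univ.erase v).erase u, (∑ j, Z (w, j) ^ 2) ^ i' w =
        ∏ w ∈ (Finset.univ.erase v).erase u, (∑ j, Z (w, j) ^ 2) ^ i w := by
      refine Finset.prod_congr rfl fun w h => ?_
      rw [hw w (Finset.ne_of_mem_erase (Finset.mem_of_mem_erase h)) (Finset.ne_of_mem_erase h)]
    rw [h2]
    ring
  rw [h1]
  ring

private theorem B3d_step {F : V → ℝ → ℝ} (hF : ∀ v, Rad (F v)) (E : Finset (Sym2 V)) (i : V → ℕ)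
    (c : Sym2 V → ℕ) {v u : V} (huv : u ≠ v) (hE : ∀ e ∈ E, v ∉ e) (i' : V → ℕ)
    (hi' : ∀ w, i' w = i w + if w ∈ s(v, u) then c s(v, u) / 2 else 0) :
    ∫ X, B3d_J F (insert s(v, u) E) i c X =
      (if Even (c s(v, u)) then 1 / ((c s(v, u) : ℝ) + 1) else 0) * ∫ X, B3d_J F E i' c X := by
  rw [← integral_const_mul]
  refine B3d_fub v (B3d_J_int hF _ _ _) ((B3d_J_int hF _ _ _).const_mul _) fun Z => ?_
  have hnot : s(v, u) ∉ E := fun h => hE _ h (Sym2.mem_mk_left v u)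
  set k := c s(v, u) with hk
  have h1 : ∀ x : Fin 3 → ℝ, B3d_J F (insert s(v, u) E) i c (B3d_upd v x Z) =
      (F v (∑ j, x j ^ 2) * (∑ j, x j ^ 2) ^ i v) * (∑ j, x j * Z (u, j)) ^ k *
        B3d_A F E i c v Z := by
    intro x
    have h2 := B3d_J_upd F E i c v hE x Z
    have h3 : B3d_J F (insert s(v, u) E) i c (B3d_upd v x Z) =
        dt (B3d_upd v x Z) s(v, u) ^ k * B3d_J F E i c (B3d_upd v x Z) := by
      unfold B3d_J
      rw [Finset.prod_insert hnot]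
      ring
    rw [h3, h2, B3d_dt_mk]
    simp only [B3d_upd_self, B3d_upd_ne huv]
    ring
  have h4 : ∀ x : Fin 3 → ℝ, (if Even k then 1 / ((k : ℝ) + 1) else 0) *
      B3d_J F E i' c (B3d_upd v x Z) = (if Even k then 1 / ((k : ℝ) + 1) else 0) *
        ((∑ j, Z (u, j) ^ 2) ^ (k / 2) * B3d_A F E i c v Z) *
        ((F v (∑ j, x j ^ 2) * (∑ j, x j ^ 2) ^ i v) * (∑ j, x j ^ 2) ^ (k / 2)) := by
    intro x
    rw [B3d_J_upd F E i' c v hE x Z, B3d_A_congr F E i c v u huv (k / 2) i'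
      (by rw [hi', if_pos (Sym2.mem_mk_right v u)])
      (fun w h1 h2 => by
        rw [hi', if_neg, add_zero]
        rw [Sym2.mem_iff]
        exact not_or.2 ⟨h1, h2⟩),
      hi' v, if_pos (Sym2.mem_mk_left v u), pow_add]
    ring
  simp_rw [h1, h4]
  rw [integral_mul_const, integral_const_mul,
    sphere_average (fun s => F v s * s ^ i v) k (fun j => Z (u, j))]
  split_ifs with hev
  · ring
  · ring

private theorem B3d_base {F : V → ℝ → ℝ} (i : V → ℕ) (c : Sym2 V → ℕ) :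
    ∫ X, B3d_J F ∅ i c X = ∏ v, ∫ x : Fin 3 → ℝ, F v (∑ j, x j ^ 2) * (∑ j, x j ^ 2) ^ i v := by
  rw [← B3d_prod_integral (fun v x => F v (∑ j, x j ^ 2) * (∑ j, x j ^ 2) ^ i v)]
  congr 1
  funext X
  unfold B3d_J
  rw [Finset.prod_empty, mul_one, ← Finset.prod_mul_distrib]

private theorem B3d_mem_eds {G : SimpleGraph V} {e : Sym2 V} : e ∈ eds G ↔ e ∈ G.edgeSet := by
  unfold eds
  rw [Set.Finite.mem_toFinset]

private theorem B3d_main {F : V → ℝ → ℝ} (hF : ∀ v, Rad (F v)) (c : Sym2 V → ℕ) (n : ℕ) :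
    ∀ (G : SimpleGraph V), G.IsAcyclic → (eds G).card = n → ∀ i : V → ℕ,
    ∫ X, B3d_J F (eds G) i c X =
      (∏ e ∈ eds G, if Even (c e) then 1 / ((c e : ℝ) + 1) else 0) *
      ∏ v, ∫ x : Fin 3 → ℝ, F v (∑ j, x j ^ 2) *
        (∑ j, x j ^ 2) ^ (i v + ∑ e ∈ (eds G).filter (v ∈ ·), c e / 2) := by
  induction n with
  | zero =>
    intro G hG hn i
    rw [Finset.card_eq_zero] at hn
    rw [hn, B3d_base]
    simp
  | succ n ih =>
    intro G hG hn i
    have hne : (eds G).Nonempty := by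
      rw [← Finset.card_pos]
      omega
    obtain ⟨e, he⟩ := hne
    induction e using Sym2.ind with
    | _ a b =>
    rw [B3d_mem_eds, SimpleGraph.mem_edgeSet] at he
    obtain ⟨v, u, hvu, hleaf⟩ := B3d_leaf hG he
    set G' := G.deleteEdges {s(v, u)} with hG'
    have hacy : G'.IsAcyclic := hG.anti (SimpleGraph.deleteEdges_le _)
    have heds : ∀ e, e ∈ eds G' ↔ e ∈ eds G ∧ e ≠ s(v, u) := by
      intro e
      rw [B3d_mem_eds, B3d_mem_eds, hG', SimpleGraph.edgeSet_deleteEdges]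
      simp
    have hnot : s(v, u) ∉ eds G' := fun h => ((heds _).1 h).2 rfl
    have hin : s(v, u) ∈ eds G := B3d_mem_eds.2 hvu
    have hins : insert s(v, u) (eds G') = eds G := by
      ext e
      rw [Finset.mem_insert, heds]
      constructor
      · rintro (rfl | h)
        · exact hin
        · exact h.1
      · intro h
        by_cases h2 : e = s(v, u)
        · exact Or.inl h2
        · exact Or.inr ⟨h, h2⟩
    have hcard : (eds G').card = n := by
      have := Finset.card_insert_of_notMem hnot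
      rw [hins, hn] at this
      omega
    have hE : ∀ e ∈ eds G', v ∉ e := by
      intro e he' hv
      obtain ⟨h1, h2⟩ := (heds e).1 he'
      obtain ⟨w, rfl⟩ := hv
      rw [B3d_mem_eds, SimpleGraph.mem_edgeSet] at h1
      exact h2 (by rw [hleaf w h1])
    have hstep := B3d_step hF (eds G') i c hvu.ne.symm hE
      (fun w => i w + if w ∈ s(v, u) then c s(v, u) / 2 else 0) (fun w => rfl)
    rw [hins] at hstep
    rw [hstep, ih G' hacy hcard, ← mul_assoc, ← hins, Finset.prod_insert hnot]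
    congr 1
    refine Finset.prod_congr rfl fun w _ => ?_
    have hexp : i w + (if w ∈ s(v, u) then c s(v, u) / 2 else 0) +
        ∑ e ∈ (eds G').filter (w ∈ ·), c e / 2 =
        i w + ∑ e ∈ (insert s(v, u) (eds G')).filter (w ∈ ·), c e / 2 := by
      rw [Finset.filter_insert]
      split_ifs with hw
      · rw [Finset.sum_insert (fun h => hnot (Finset.mem_of_mem_filter _ h))]
        ring
      · ring
    rw [hexp]

/-- the integrals of the products of scalar products along the edges of a forest -/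
theorem forest_integral {F : V → ℝ → ℝ} (hF : ∀ v, Rad (F v)) {G : SimpleGraph V}
    (hG : G.IsAcyclic) (i : V → ℕ) (c : Sym2 V → ℕ) :
    ∫ X : V × Fin 3 → ℝ, (∏ v, F v (∑ i, X (v, i) ^ 2)) *
      ((∏ v, (∑ j, X (v, j) ^ 2) ^ i v) * ∏ e ∈ eds G, dt X e ^ c e) =
    (∏ e ∈ eds G, if Even (c e) then 1 / ((c e : ℝ) + 1) else 0) *
      ∏ v, ∫ x : Fin 3 → ℝ, F v (∑ j, x j ^ 2) *
        (∑ j, x j ^ 2) ^ (i v + ∑ e ∈ (eds G).filter (v ∈ ·), c e / 2) :=
  B3d_main hF c _ G hG rfl i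

end Pool.Agent.GSP
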