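import Pool.Agent.GSP.Defs
import Pool.Agent.GSP.B3d

set_option autoImplicit false

open Finset MeasureTheory

namespace Pool.Agent.GSP

open Pool.Agent.OHG Pool.Agent.GPC

variable {V : Type} [Fintype V] [DecidableEq V]

private theorem B3e_one_le {ι : Type} (s : Finset ι) (f : ι → ℝ) (h : ∀ i ∈ s, 1 ≤ f i) :
    1 ≤ ∏ i ∈ s, f i := by
  have h1 : ∏ _i ∈ s, (1 : ℝ) ≤ ∏ i ∈ s, f i := Finset.prod_le_prod (fun _ _ => zero_le_one) h
  rwa [Finset.prod_const_one] at h1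

private theorem B3e_dt_continuous (e : Sym2 V) : Continuous fun X : V × Fin 3 → ℝ => dt X e := by
  induction e using Sym2.ind with
  | _ u v =>
    show Continuous fun X : V × Fin 3 → ℝ => ∑ i, X (u, i) * X (v, i)
    fun_prop

private theorem B3e_one_le_prod (X : V × Fin 3 → ℝ) : 1 ≤ ∏ v, (1 + ∑ i, X (v, i) ^ 2) := by
  refine B3e_one_le _ _ fun v _ => ?_
  have : 0 ≤ ∑ i, X (v, i) ^ 2 := Finset.sum_nonneg fun i _ => sq_nonneg _
  linarith

private theorem B3e_sq_le_prod (X : V × Fin 3 → ℝ) (v : V) :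
    ∑ i, X (v, i) ^ 2 ≤ ∏ v, (1 + ∑ i, X (v, i) ^ 2) := by
  have h0 : ∀ w : V, 0 ≤ ∑ i, X (w, i) ^ 2 := fun w => Finset.sum_nonneg fun i _ => sq_nonneg _
  rw [← Finset.mul_prod_erase univ _ (Finset.mem_univ v)]
  have h1 : 1 ≤ ∏ w ∈ univ.erase v, (1 + ∑ i, X (w, i) ^ 2) :=
    B3e_one_le _ _ fun w _ => by have := h0 w; linarith
  have h2 := h0 v
  nlinarith

private theorem B3e_inner_le (X : V × Fin 3 → ℝ) (u v : V) :
    |∑ i, X (u, i) * X (v, i)| ≤ ∏ v, (1 + ∑ i, X (v, i) ^ 2) := by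
  have h1 : |∑ i, X (u, i) * X (v, i)| ≤ ∑ i, (X (u, i) ^ 2 + X (v, i) ^ 2) / 2 := by
    refine (Finset.abs_sum_le_sum_abs _ _).trans (Finset.sum_le_sum fun i _ => ?_)
    rw [abs_le]
    constructor <;> nlinarith [sq_nonneg (X (u, i) + X (v, i)), sq_nonneg (X (u, i) - X (v, i))]
  have h2 : ∑ i, (X (u, i) ^ 2 + X (v, i) ^ 2) / 2 =
      ((∑ i, X (u, i) ^ 2) + ∑ i, X (v, i) ^ 2) / 2 := by
    rw [← Finset.sum_div, Finset.sum_add_distrib]
  have h3 := B3e_sq_le_prod X u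
  have h4 := B3e_sq_le_prod X v
  linarith

private theorem B3e_dt_le (X : V × Fin 3 → ℝ) (e : Sym2 V) :
    |dt X e| ≤ ∏ v, (1 + ∑ i, X (v, i) ^ 2) := by
  induction e using Sym2.ind with
  | _ u v => exact B3e_inner_le X u v

private theorem B3e_qf_le (Q : Matrix V V ℝ) (X : V × Fin 3 → ℝ) :
    |qf Q X| ≤ (∑ v, ∑ w, |Q v w|) * ∏ v, (1 + ∑ i, X (v, i) ^ 2) := by
  unfold qf
  refine (Finset.abs_sum_le_sum_abs _ _).trans ?_
  rw [Finset.sum_mul]
  refine Finset.sum_le_sum fun v _ => ?_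
  refine (Finset.abs_sum_le_sum_abs _ _).trans ?_
  rw [Finset.sum_mul]
  refine Finset.sum_le_sum fun w _ => ?_
  rw [abs_mul]
  exact mul_le_mul_of_nonneg_left (B3e_inner_le X v w) (abs_nonneg _)

private theorem B3e_qf_continuous (Q : Matrix V V ℝ) :
    Continuous fun X : V × Fin 3 → ℝ => qf Q X := by
  unfold qf
  fun_prop

theorem qf_integrable {F : V → ℝ → ℝ} (hF : ∀ v, Rad (F v)) (Q : Matrix V V ℝ) (k : ℕ) :
    Integrable (fun X : V × Fin 3 → ℝ => (∏ v, F v (∑ i, X (v, i) ^ 2)) * qf Q X ^ k) := by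
  refine rad_integrable hF (g := fun X => qf Q X ^ k) ((B3e_qf_continuous Q).pow k)
    ⟨(∑ v, ∑ w, |Q v w|) ^ k, k, fun X => ?_⟩
  rw [abs_pow, Finset.prod_pow, ← mul_pow]
  exact pow_le_pow_left₀ (abs_nonneg _) (B3e_qf_le Q X) k

/-- the sum over the ordered pairs of neighbours -/
private theorem B3e_sum_edges {G : SimpleGraph V} (g : Sym2 V → ℝ)
    (f : V → V → ℝ) (hfg : ∀ u v, f u v = g s(u, v)) (h0 : ∀ v w, v ≠ w → ¬ G.Adj v w → f v w = 0) :
    ∑ v, ∑ w, f v w = (∑ v, f v v) + ∑ e ∈ eds G, 2 * g e := by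
  classical
  have hmem : ∀ e, e ∈ eds G ↔ e ∈ G.edgeSet := fun e => by
    unfold eds
    rw [Set.Finite.mem_toFinset]
  have h1 : ∀ v, ∑ w, f v w = f v v + ∑ w ∈ univ.filter (fun w => G.Adj v w), f v w := by
    intro v
    rw [Finset.sum_filter]
    rw [← Finset.add_sum_erase univ (fun w => f v w) (Finset.mem_univ v)]
    congr 1
    rw [← Finset.add_sum_erase univ (fun w => if G.Adj v w then f v w else 0) (Finset.mem_univ v)]
    rw [if_neg (G.irrefl (v := v)), zero_add]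
    refine Finset.sum_congr rfl fun w hw => ?_
    split_ifs with h2
    · rfl
    · exact h0 v w (Finset.ne_of_mem_erase hw).symm h2
  rw [Finset.sum_congr rfl fun v _ => h1 v, Finset.sum_add_distrib]
  congr 1
  have h2 : ∑ v, ∑ w ∈ univ.filter (fun w => G.Adj v w), f v w =
      ∑ p ∈ (univ : Finset (V × V)).filter (fun p => G.Adj p.1 p.2), f p.1 p.2 := by
    rw [Finset.sum_filter, ← Finset.univ_product_univ, Finset.sum_product]
    refine Finset.sum_congr rfl fun v _ => ?_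
    rw [Finset.sum_filter]
  rw [h2]
  have h3 : ∀ p ∈ (univ : Finset (V × V)).filter (fun p => G.Adj p.1 p.2), s(p.1, p.2) ∈ eds G := by
    intro p hp
    rw [hmem]
    exact (Finset.mem_filter.mp hp).2
  rw [← Finset.sum_fiberwise_of_maps_to h3]
  refine Finset.sum_congr rfl fun e he => ?_
  rw [hmem] at he
  induction e using Sym2.ind with
  | _ a b =>
    have hab : G.Adj a b := he
    have h4 : ((univ : Finset (V × V)).filter (fun p => G.Adj p.1 p.2)).filter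
        (fun p => s(p.1, p.2) = s(a, b)) = {(a, b), (b, a)} := by
      ext p
      rw [Finset.mem_filter, Finset.mem_filter, Finset.mem_insert, Finset.mem_singleton, Sym2.eq_iff]
      constructor
      · rintro ⟨_, ⟨h5, h6⟩ | ⟨h5, h6⟩⟩
        · exact Or.inl (Prod.ext h5 h6)
        · exact Or.inr (Prod.ext h5 h6)
      · rintro (rfl | rfl)
        · exact ⟨⟨Finset.mem_univ _, hab⟩, Or.inl ⟨rfl, rfl⟩⟩
        · exact ⟨⟨Finset.mem_univ _, hab.symm⟩, Or.inr ⟨rfl, rfl⟩⟩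
    rw [h4, Finset.sum_pair (by
      intro h5
      exact hab.ne (congrArg Prod.fst h5))]
    show f a b + f b a = 2 * g s(a, b)
    rw [hfg a b, hfg b a, Sym2.eq_swap]
    ring

private theorem B3e_split {G : SimpleGraph V} (Q : Matrix V V ℝ) (q : Sym2 V → ℝ)
    (hq : ∀ u v, q s(u, v) = Q u v) (h0 : ∀ v w, v ≠ w → ¬ G.Adj v w → Q v w = 0)
    (X : V × Fin 3 → ℝ) :
    qf Q X = (∑ v, Q v v * ∑ i, X (v, i) ^ 2) + ∑ e ∈ eds G, 2 * q e * dt X e := by
  have h1 := B3e_sum_edges (G := G) (fun e => q e * dt X e)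
    (fun v w => Q v w * ∑ i, X (v, i) * X (w, i)) (fun u v => by
      show Q u v * ∑ i, X (u, i) * X (v, i) = q s(u, v) * ∑ i, X (u, i) * X (v, i)
      rw [hq]) (fun v w h2 h3 => by
      show Q v w * ∑ i, X (v, i) * X (w, i) = 0
      rw [h0 v w h2 h3, zero_mul])
  unfold qf
  rw [h1]
  congr 1
  · refine Finset.sum_congr rfl fun v _ => ?_
    congr 1
    exact Finset.sum_congr rfl fun i _ => (pow_two _).symm
  · refine Finset.sum_congr rfl fun e _ => ?_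
    ring

private theorem B3e_exp_prod {ι : Type} (s : Finset ι) (a : ι → ℝ) :
    ∏ i ∈ s, PowerSeries.rescale (a i) (PowerSeries.exp ℝ) =
      PowerSeries.rescale (∑ i ∈ s, a i) (PowerSeries.exp ℝ) := by
  classical
  induction s using Finset.induction_on with
  | empty => simp
  | insert i s hi ih =>
    rw [Finset.prod_insert hi, Finset.sum_insert hi, ih, PowerSeries.exp_mul_exp_eq_exp_add]

private theorem B3e_coeff_exp (a : ℝ) (n : ℕ) :
    PowerSeries.coeff n (PowerSeries.rescale a (PowerSeries.exp ℝ)) = a ^ n / n.factorial := by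
  rw [PowerSeries.coeff_rescale, PowerSeries.coeff_exp]
  simp [div_eq_mul_inv]

/-- the index set of the expansions -/
private noncomputable def B3e_idx (G : SimpleGraph V) (k : ℕ) :
    Finset (Σ _ : ℕ × ℕ, (V →₀ ℕ) × (Sym2 V →₀ ℕ)) :=
  (Finset.HasAntidiagonal.antidiagonal k).sigma fun p =>
    (Finset.finsuppAntidiag univ p.1) ×ˢ (Finset.finsuppAntidiag (eds G) p.2)

private theorem B3e_coeff_prod {R : Type} [CommRing R] (G : SimpleGraph V) (k : ℕ)
    (f : V → PowerSeries R) (g : Sym2 V → PowerSeries R) :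
    PowerSeries.coeff k ((∏ v, f v) * ∏ e ∈ eds G, g e) =
      ∑ t ∈ B3e_idx G k, (∏ v, PowerSeries.coeff (t.2.1 v) (f v)) *
        ∏ e ∈ eds G, PowerSeries.coeff (t.2.2 e) (g e) := by
  unfold B3e_idx
  rw [PowerSeries.coeff_mul, Finset.sum_sigma]
  refine Finset.sum_congr rfl fun p _ => ?_
  rw [PowerSeries.coeff_prod, PowerSeries.coeff_prod, Finset.sum_mul_sum, Finset.sum_product]

private theorem B3e_pow {G : SimpleGraph V} (Q : Matrix V V ℝ) (q : Sym2 V → ℝ)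
    (hq : ∀ u v, q s(u, v) = Q u v) (h0 : ∀ v w, v ≠ w → ¬ G.Adj v w → Q v w = 0)
    (X : V × Fin 3 → ℝ) (k : ℕ) :
    qf Q X ^ k = ∑ t ∈ B3e_idx G k, (k.factorial * ((∏ v, Q v v ^ t.2.1 v / (t.2.1 v).factorial) *
      ∏ e ∈ eds G, (2 * q e) ^ t.2.2 e / (t.2.2 e).factorial)) *
      ((∏ v, (∑ i, X (v, i) ^ 2) ^ t.2.1 v) * ∏ e ∈ eds G, dt X e ^ t.2.2 e) := by
  have h1 := B3e_coeff_prod G k
    (fun v => PowerSeries.rescale (Q v v * ∑ i, X (v, i) ^ 2) (PowerSeries.exp ℝ))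
    (fun e => PowerSeries.rescale (2 * q e * dt X e) (PowerSeries.exp ℝ))
  rw [B3e_exp_prod, B3e_exp_prod, PowerSeries.exp_mul_exp_eq_exp_add,
    ← B3e_split Q q hq h0 X, B3e_coeff_exp] at h1
  have hk : (k.factorial : ℝ) ≠ 0 := by exact_mod_cast k.factorial_ne_zero
  rw [div_eq_iff hk] at h1
  rw [h1, Finset.sum_mul]
  refine Finset.sum_congr rfl fun t _ => ?_
  have h2 : ∏ v, PowerSeries.coeff (t.2.1 v)
      (PowerSeries.rescale (Q v v * ∑ i, X (v, i) ^ 2) (PowerSeries.exp ℝ)) =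
      (∏ v, Q v v ^ t.2.1 v / (t.2.1 v).factorial) * ∏ v, (∑ i, X (v, i) ^ 2) ^ t.2.1 v := by
    rw [← Finset.prod_mul_distrib]
    refine Finset.prod_congr rfl fun v _ => ?_
    rw [B3e_coeff_exp, mul_pow]
    ring
  have h3 : ∏ e ∈ eds G, PowerSeries.coeff (t.2.2 e)
      (PowerSeries.rescale (2 * q e * dt X e) (PowerSeries.exp ℝ)) =
      (∏ e ∈ eds G, (2 * q e) ^ t.2.2 e / (t.2.2 e).factorial) * ∏ e ∈ eds G, dt X e ^ t.2.2 e := by
    rw [← Finset.prod_mul_distrib]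
    refine Finset.prod_congr rfl fun e _ => ?_
    rw [B3e_coeff_exp, mul_pow (2 * q e)]
    ring
  rw [h2, h3]
  ring

private theorem B3e_term_integrable {F : V → ℝ → ℝ} (hF : ∀ v, Rad (F v)) (G : SimpleGraph V)
    (i : V → ℕ) (c : Sym2 V → ℕ) :
    Integrable (fun X : V × Fin 3 → ℝ => (∏ v, F v (∑ i, X (v, i) ^ 2)) *
      ((∏ v, (∑ j, X (v, j) ^ 2) ^ i v) * ∏ e ∈ eds G, dt X e ^ c e)) := by
  refine rad_integrable hF (g := fun X => (∏ v, (∑ j, X (v, j) ^ 2) ^ i v) *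
    ∏ e ∈ eds G, dt X e ^ c e) ?_ ⟨1, (∑ v, i v) + ∑ e ∈ eds G, c e, fun X => ?_⟩
  · refine Continuous.mul ?_ ?_
    · fun_prop
    · exact continuous_finsetProd _ fun e _ => (B3e_dt_continuous e).pow _
  · have hP := B3e_one_le_prod X
    have hP0 : 0 ≤ ∏ v, (1 + ∑ i, X (v, i) ^ 2) := by linarith
    rw [one_mul, Finset.prod_pow, pow_add, abs_mul, Finset.abs_prod, Finset.abs_prod]
    refine mul_le_mul ?_ ?_ (Finset.prod_nonneg fun _ _ => abs_nonneg _) (pow_nonneg hP0 _)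
    · rw [← Finset.prod_pow_eq_pow_sum]
      refine Finset.prod_le_prod (fun _ _ => abs_nonneg _) fun v _ => ?_
      rw [abs_pow, abs_of_nonneg (Finset.sum_nonneg fun i _ => sq_nonneg _)]
      exact pow_le_pow_left₀ (Finset.sum_nonneg fun i _ => sq_nonneg _) (B3e_sq_le_prod X v) _
    · rw [← Finset.prod_pow_eq_pow_sum]
      refine Finset.prod_le_prod (fun _ _ => abs_nonneg _) fun e _ => ?_
      rw [abs_pow]
      exact pow_le_pow_left₀ (abs_nonneg _) (B3e_dt_le X e) _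

private theorem B3e_umb (m : V → ℕ → ℝ) (K : ℝ) (n : V → ℕ) :
    umb m (MvPolynomial.C K * ∏ v, MvPolynomial.X v ^ n v) = K * ∏ v, m v (n v) := by
  have h1 : MvPolynomial.C K * ∏ v, (MvPolynomial.X v : MvPolynomial V ℝ) ^ n v =
      K • (MvPolynomial.basisMonomials V ℝ) (Finsupp.equivFunOnFinite.symm n) := by
    rw [MvPolynomial.coe_basisMonomials]
    show MvPolynomial.C K * ∏ v, (MvPolynomial.X v : MvPolynomial V ℝ) ^ n v =
      K • MvPolynomial.monomial (Finsupp.equivFunOnFinite.symm n) 1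
    rw [MvPolynomial.smul_monomial, smul_eq_mul, mul_one, MvPolynomial.monomial_eq,
      Finsupp.prod_fintype _ _ fun v => pow_zero _]
    rfl
  rw [h1, map_smul, smul_eq_mul]
  unfold umb
  rw [Module.Basis.constr_basis]
  rfl

private theorem B3e_mon {G : SimpleGraph V} (i : V → ℕ) (b : Sym2 V → ℕ) :
    (∏ v, (MvPolynomial.X v : MvPolynomial V ℝ) ^ i v) *
      ∏ e ∈ eds G, (∏ x ∈ e.toFinset, (MvPolynomial.X x : MvPolynomial V ℝ)) ^ b e =
    ∏ v, (MvPolynomial.X v : MvPolynomial V ℝ) ^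
      (i v + ∑ e ∈ (eds G).filter (v ∈ ·), b e) := by
  have h1 : ∀ e : Sym2 V, (∏ x ∈ e.toFinset, (MvPolynomial.X x : MvPolynomial V ℝ)) ^ b e =
      ∏ v, if v ∈ e then (MvPolynomial.X v : MvPolynomial V ℝ) ^ b e else 1 := by
    intro e
    rw [← Finset.prod_pow, ← Finset.prod_filter]
    refine Finset.prod_congr ?_ fun _ _ => rfl
    ext v
    rw [Sym2.mem_toFinset, Finset.mem_filter]
    simp
  rw [Finset.prod_congr rfl fun e _ => h1 e, Finset.prod_comm, ← Finset.prod_mul_distrib]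
  refine Finset.prod_congr rfl fun v _ => ?_
  rw [pow_add, ← Finset.prod_pow_eq_pow_sum, Finset.prod_filter]

/-- the moments of the quadratic form -/
theorem qf_moment {F : V → ℝ → ℝ} (hF : ∀ v, Rad (F v)) {G : SimpleGraph V}
    (hG : G.IsAcyclic) (Q : Matrix V V ℝ) (hQ : Q.IsSymm) (h0 : ∀ v w, v ≠ w → ¬ G.Adj v w → Q v w = 0)
    (m : V → ℕ → ℝ) (c : V → ℝ)
    (hm : ∀ v j, ∫ x : Fin 3 → ℝ, F v (∑ i, x i ^ 2) * (∑ i, x i ^ 2) ^ j = c v * m v j) (k : ℕ) :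
    ∫ X : V × Fin 3 → ℝ, (∏ v, F v (∑ i, X (v, i) ^ 2)) * qf Q X ^ k =
      (∏ v, c v) * (k.factorial * PowerSeries.coeff k
        (ZZ (eds G) (fun v => Q v v)
          (fun e => Sym2.lift ⟨fun u v => Q u v * Q v u, fun _ _ => mul_comm _ _⟩ e) m)) := by
  obtain ⟨q, hq⟩ : ∃ q : Sym2 V → ℝ, ∀ u v, q s(u, v) = Q u v :=
    ⟨fun e => Sym2.lift ⟨fun u v => Q u v, fun u v => hQ.apply v u⟩ e, fun u v => rfl⟩
  have hw : (fun e => Sym2.lift ⟨fun u v => Q u v * Q v u, fun _ _ => mul_comm _ _⟩ e) =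
      fun e => q e ^ 2 := by
    funext e
    induction e using Sym2.ind with
    | _ u v =>
      show Q u v * Q v u = q s(u, v) ^ 2
      have h1 : Q v u = Q u v := hQ.apply u v
      rw [hq, h1, pow_two]
  rw [hw]
  -- the left hand side
  have hL : ∫ X : V × Fin 3 → ℝ, (∏ v, F v (∑ i, X (v, i) ^ 2)) * qf Q X ^ k =
      ∑ t ∈ B3e_idx G k, (k.factorial * ((∏ v, Q v v ^ t.2.1 v / (t.2.1 v).factorial) *
        ∏ e ∈ eds G, (2 * q e) ^ t.2.2 e / (t.2.2 e).factorial)) *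
        ∫ X : V × Fin 3 → ℝ, (∏ v, F v (∑ i, X (v, i) ^ 2)) *
          ((∏ v, (∑ i, X (v, i) ^ 2) ^ t.2.1 v) * ∏ e ∈ eds G, dt X e ^ t.2.2 e) := by
    have h1 : (fun X : V × Fin 3 → ℝ => (∏ v, F v (∑ i, X (v, i) ^ 2)) * qf Q X ^ k) =
        fun X => ∑ t ∈ B3e_idx G k,
          (k.factorial * ((∏ v, Q v v ^ t.2.1 v / (t.2.1 v).factorial) *
          ∏ e ∈ eds G, (2 * q e) ^ t.2.2 e / (t.2.2 e).factorial)) *
          ((∏ v, F v (∑ i, X (v, i) ^ 2)) *
            ((∏ v, (∑ i, X (v, i) ^ 2) ^ t.2.1 v) * ∏ e ∈ eds G, dt X e ^ t.2.2 e)) := by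
      funext X
      rw [B3e_pow Q q hq h0 X k, Finset.mul_sum]
      refine Finset.sum_congr rfl fun t _ => ?_
      ring
    rw [h1, integral_finsetSum _ fun t _ => (B3e_term_integrable hF G t.2.1 t.2.2).const_mul _]
    refine Finset.sum_congr rfl fun t _ => ?_
    rw [integral_const_mul]
  -- the right hand side
  have hR : PowerSeries.coeff k (ZZ (eds G) (fun v => Q v v) (fun e => q e ^ 2) m) =
      ∑ t ∈ B3e_idx G k, umb m ((∏ v, PowerSeries.coeff (t.2.1 v) (nodeW (Q v v) v)) *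
        ∏ e ∈ eds G, PowerSeries.coeff (t.2.2 e) (edgeW (q e ^ 2) e)) := by
    unfold ZZ ZI WW
    rw [PowerSeries.coeff_mk, one_mul, B3e_coeff_prod G k, map_sum]
  rw [hL, hR, Finset.mul_sum, Finset.mul_sum]
  refine Finset.sum_congr rfl fun t _ => ?_
  rw [forest_integral hF hG]
  by_cases hodd : ∃ e ∈ eds G, ¬ Even (t.2.2 e)
  · obtain ⟨e, he, hne⟩ := hodd
    have h1 : (∏ e ∈ eds G, if Even (t.2.2 e) then 1 / ((t.2.2 e : ℝ) + 1) else 0) = 0 :=
      Finset.prod_eq_zero he (if_neg hne)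
    have h2 : ∏ e ∈ eds G, PowerSeries.coeff (t.2.2 e) (edgeW (q e ^ 2) e) = 0 := by
      refine Finset.prod_eq_zero he ?_
      unfold edgeW
      rw [PowerSeries.coeff_mk, if_neg hne]
    rw [h1, h2, zero_mul, mul_zero, mul_zero, map_zero, mul_zero, mul_zero]
  · push Not at hodd
    have h1 : (∏ e ∈ eds G, if Even (t.2.2 e) then 1 / ((t.2.2 e : ℝ) + 1) else 0) =
        ∏ e ∈ eds G, 1 / ((t.2.2 e : ℝ) + 1) :=
      Finset.prod_congr rfl fun e he => if_pos (hodd e he)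
    have h2 : ∏ e ∈ eds G, PowerSeries.coeff (t.2.2 e) (edgeW (q e ^ 2) e) =
        MvPolynomial.C (∏ e ∈ eds G, (4 * q e ^ 2) ^ (t.2.2 e / 2) / (t.2.2 e + 1).factorial) *
          ∏ e ∈ eds G, (∏ x ∈ e.toFinset, (MvPolynomial.X x : MvPolynomial V ℝ)) ^ (t.2.2 e / 2) := by
      rw [map_prod, ← Finset.prod_mul_distrib]
      refine Finset.prod_congr rfl fun e he => ?_
      unfold edgeW
      rw [PowerSeries.coeff_mk, if_pos (hodd e he)]
    have h3 : ∏ v, PowerSeries.coeff (t.2.1 v) (nodeW (Q v v) v) =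
        MvPolynomial.C (∏ v, Q v v ^ t.2.1 v / (t.2.1 v).factorial) *
          ∏ v, (MvPolynomial.X v : MvPolynomial V ℝ) ^ t.2.1 v := by
      rw [map_prod, ← Finset.prod_mul_distrib]
      refine Finset.prod_congr rfl fun v _ => ?_
      unfold nodeW
      rw [PowerSeries.coeff_mk]
    have h4 : (∏ v, PowerSeries.coeff (t.2.1 v) (nodeW (Q v v) v)) *
        ∏ e ∈ eds G, PowerSeries.coeff (t.2.2 e) (edgeW (q e ^ 2) e) =
        MvPolynomial.C ((∏ v, Q v v ^ t.2.1 v / (t.2.1 v).factorial) *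
          ∏ e ∈ eds G, (4 * q e ^ 2) ^ (t.2.2 e / 2) / (t.2.2 e + 1).factorial) *
          ∏ v, (MvPolynomial.X v : MvPolynomial V ℝ) ^
            (t.2.1 v + ∑ e ∈ (eds G).filter (v ∈ ·), t.2.2 e / 2) := by
      rw [h2, h3, ← B3e_mon, map_mul]
      ring
    have h5 : ∏ v, ∫ x : Fin 3 → ℝ, F v (∑ j, x j ^ 2) *
        (∑ j, x j ^ 2) ^ (t.2.1 v + ∑ e ∈ (eds G).filter (v ∈ ·), t.2.2 e / 2) =
        (∏ v, c v) * ∏ v, m v (t.2.1 v + ∑ e ∈ (eds G).filter (v ∈ ·), t.2.2 e / 2) := by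
      rw [← Finset.prod_mul_distrib]
      exact Finset.prod_congr rfl fun v _ => hm v _
    have h6 : (∏ e ∈ eds G, (2 * q e) ^ t.2.2 e / (t.2.2 e).factorial) *
        ∏ e ∈ eds G, 1 / ((t.2.2 e : ℝ) + 1) =
        ∏ e ∈ eds G, (4 * q e ^ 2) ^ (t.2.2 e / 2) / (t.2.2 e + 1).factorial := by
      rw [← Finset.prod_mul_distrib]
      refine Finset.prod_congr rfl fun e he => ?_
      obtain ⟨a, ha⟩ := hodd e he
      have h7 : t.2.2 e / 2 = a := by omega
      have h8 : (2 * q e) ^ t.2.2 e = (4 * q e ^ 2) ^ a := by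
        rw [ha, ← two_mul, pow_mul]
        congr 1
        ring
      have h9 : ((t.2.2 e).factorial : ℝ) ≠ 0 := by exact_mod_cast (t.2.2 e).factorial_ne_zero
      have h10 : (t.2.2 e : ℝ) + 1 ≠ 0 := by positivity
      rw [h7, h8, Nat.factorial_succ]
      push_cast
      field_simp
    rw [h1, h4, B3e_umb, h5, ← h6]
    ring

end Pool.Agent.GSP
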