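import Pool.Agent.GSP.Defs

set_option autoImplicit false

open Finset

namespace Pool.Agent.GSP

private theorem A3_comp : ∀ r : ℕ, (cotP r).comp (-Polynomial.X) = (-1) ^ r * cotP r
  | 0 => by simp [cotP]
  | 1 => by simp [cotP]
  | (r + 2) => by
    have ih := A3_comp (r + 1)
    have h1 := congrArg Polynomial.derivative ih
    rw [Polynomial.derivative_comp] at h1
    have h2 : Polynomial.derivative ((-1 : Polynomial ℚ) ^ (r + 1) * cotP (r + 1)) =
        (-1) ^ (r + 1) * Polynomial.derivative (cotP (r + 1)) := by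
      have h3 : ((-1 : Polynomial ℚ) ^ (r + 1)) = Polynomial.C ((-1 : ℚ) ^ (r + 1)) := by
        simp
      rw [h3, Polynomial.derivative_C_mul]
    rw [h2] at h1
    have h3 : (Polynomial.derivative (cotP (r + 1))).comp (-Polynomial.X) =
        (-1) ^ (r + 2) * Polynomial.derivative (cotP (r + 1)) := by
      have h4 : Polynomial.derivative (-Polynomial.X : Polynomial ℚ) = -1 := by simp
      rw [h4] at h1
      have h5 : (Polynomial.derivative (cotP (r + 1))).comp (-Polynomial.X) =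
          -(-1 * (Polynomial.derivative (cotP (r + 1))).comp (-Polynomial.X)) := by ring
      rw [h5, h1]
      ring
    show (Polynomial.C (1 / (r + 1 : ℚ)) * (1 + Polynomial.X ^ 2) *
      Polynomial.derivative (cotP (r + 1))).comp (-Polynomial.X) = (-1) ^ (r + 2) *
        (Polynomial.C (1 / (r + 1 : ℚ)) * (1 + Polynomial.X ^ 2) *
          Polynomial.derivative (cotP (r + 1)))
    rw [Polynomial.mul_comp, Polynomial.mul_comp, h3, Polynomial.C_comp, Polynomial.add_comp,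
      Polynomial.pow_comp, Polynomial.X_comp, Polynomial.one_comp]
    ring

private theorem A3_neg {K : Type} [Field K] [Algebra ℚ K] (r : ℕ) (c : K) :
    ((cotP r).map (algebraMap ℚ K)).eval (-c) =
      (-1) ^ r * ((cotP r).map (algebraMap ℚ K)).eval c := by
  have h := congrArg (fun p => (Polynomial.map (algebraMap ℚ K) p).eval c) (A3_comp r)
  simp only [Polynomial.map_comp, Polynomial.eval_comp, Polynomial.map_neg, Polynomial.map_X,
    Polynomial.eval_neg, Polynomial.eval_X, Polynomial.map_mul, Polynomial.map_pow,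
    Polynomial.map_one, Polynomial.eval_mul, Polynomial.eval_pow, Polynomial.eval_one] at h
  exact h

theorem cotP_neg (r : ℕ) (c : ℝ) :
    ((cotP r).map (algebraMap ℚ ℝ)).eval (-c) =
      (-1) ^ r * ((cotP r).map (algebraMap ℚ ℝ)).eval c := A3_neg r c

theorem cotP_negC (r : ℕ) (c : ℂ) :
    ((cotP r).map (algebraMap ℚ ℂ)).eval (-c) =
      (-1) ^ r * ((cotP r).map (algebraMap ℚ ℂ)).eval c := A3_neg r c

private theorem A3_near {z : ℝ} (hz : ∀ n : ℤ, z ≠ n) : ∃ a b : ℝ, a < z ∧ z < b ∧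
    ∀ (n : ℤ) (y : ℝ), a < y → y < b → (n : ℝ) + y ≠ 0 ∧ ∀ s : ℕ,
      1 / |(n : ℝ) + y| ^ s ≤ 1 / |(n : ℝ) + a| ^ s + 1 / |(n : ℝ) + b| ^ s := by
  have h1 : (⌊z⌋ : ℝ) < z := lt_of_le_of_ne (Int.floor_le z) (fun h => hz _ h.symm)
  have h2 : z < ⌊z⌋ + 1 := Int.lt_floor_add_one z
  refine ⟨(⌊z⌋ + z) / 2, (z + ⌊z⌋ + 1) / 2, by linarith, by linarith, ?_⟩
  intro n y hy1 hy2
  set a : ℝ := (⌊z⌋ + z) / 2 with ha
  set b : ℝ := (z + ⌊z⌋ + 1) / 2 with hb
  have ha1 : (⌊z⌋ : ℝ) < a := by rw [ha]; linarith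
  have hb1 : b < ⌊z⌋ + 1 := by rw [hb]; linarith
  rcases le_or_gt 0 (n + ⌊z⌋) with h | h
  · have h3 : (0 : ℝ) ≤ n + ⌊z⌋ := by exact_mod_cast h
    have h4 : 0 < (n : ℝ) + a := by linarith
    have h5 : (n : ℝ) + a < n + y := by linarith
    refine ⟨by linarith, fun s => ?_⟩
    have h6 : 1 / |(n : ℝ) + y| ^ s ≤ 1 / |(n : ℝ) + a| ^ s := by
      rw [abs_of_pos h4, abs_of_pos (h4.trans h5)]
      exact one_div_le_one_div_of_le (pow_pos h4 s) (pow_le_pow_left₀ h4.le h5.le s)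
    have h7 : 0 ≤ 1 / |(n : ℝ) + b| ^ s := by positivity
    linarith
  · have h3 : (n : ℝ) + ⌊z⌋ + 1 ≤ 0 := by
      have : n + ⌊z⌋ + 1 ≤ 0 := by omega
      exact_mod_cast this
    have h4 : (n : ℝ) + b < 0 := by linarith
    have h5 : (n : ℝ) + y < n + b := by linarith
    refine ⟨by linarith, fun s => ?_⟩
    have h6 : 1 / |(n : ℝ) + y| ^ s ≤ 1 / |(n : ℝ) + b| ^ s := by
      rw [abs_of_neg h4, abs_of_neg (h5.trans h4)]
      have h8 : 0 < -((n : ℝ) + b) := by linarith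
      exact one_div_le_one_div_of_le (pow_pos h8 s) (pow_le_pow_left₀ h8.le (by linarith) s)
    have h7 : 0 ≤ 1 / |(n : ℝ) + a| ^ s := by positivity
    linarith

private theorem A3_summ (a : ℝ) {s : ℕ} (hs : 2 ≤ s) :
    Summable fun n : ℤ => 1 / |(n : ℝ) + a| ^ s := by
  have h := (Real.summable_one_div_int_add_rpow a (s : ℝ)).2 (by
    have : (2 : ℝ) ≤ s := by exact_mod_cast hs
    linarith)
  simpa only [Real.rpow_natCast] using h

private theorem A3_summ' (a : ℝ) {s : ℕ} (hs : 2 ≤ s) :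
    Summable fun n : ℤ => 1 / ((n : ℝ) + a) ^ s := by
  refine Summable.of_norm ?_
  have h := A3_summ a hs
  refine h.congr fun n => ?_
  rw [norm_div, norm_one, norm_pow, Real.norm_eq_abs]

private theorem A3_ct {z : ℝ} (hz : ∀ n : ℤ, z ≠ n) :
    HasDerivAt ct (-(Real.pi * (1 + ct z ^ 2))) z := by
  have hs : Real.sin (Real.pi * z) ≠ 0 := by
    rw [Ne, Real.sin_eq_zero_iff]
    rintro ⟨n, hn⟩
    apply hz n
    have := Real.pi_pos
    have h3 : Real.pi * z = Real.pi * n := by rw [← hn]; ring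
    exact mul_left_cancel₀ this.ne' h3
  have h1 : HasDerivAt (fun x : ℝ => Real.pi * x) Real.pi z := by
    simpa using (hasDerivAt_id z).const_mul Real.pi
  have h2 := (h1.cos).div (h1.sin) hs
  unfold ct
  refine h2.congr_deriv ?_
  field_simp
  ring


/-- the real form of the cotangent series -/
private theorem A3_series {z : ℝ} (hz : ∀ n : ℤ, z ≠ n) :
    HasSum (fun n : ℕ => 1 / (z - ((n : ℝ) + 1)) + 1 / (z + ((n : ℝ) + 1)))
      (Real.pi * ct z - 1 / z) := by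
  have hc : (z : ℂ) ∈ Complex.integerComplement := by
    rw [Complex.integerComplement]
    rintro ⟨n, hn⟩
    apply hz n
    have h : ((n : ℝ) : ℂ) = (z : ℂ) := by simpa using hn
    exact (Complex.ofReal_injective h).symm
  have h1 := (summable_cotTerm hc).hasSum
  have h2 := cot_series_rep' hc
  rw [← Complex.hasSum_ofReal]
  have h3 : (((Real.pi * ct z - 1 / z : ℝ)) : ℂ) = ∑' n : ℕ, cotTerm (z : ℂ) n := by
    rw [show (∑' n : ℕ, cotTerm (z : ℂ) n) =
      ∑' n : ℕ, (1 / ((z : ℂ) - (n + 1)) + 1 / ((z : ℂ) + (n + 1))) from rfl, ← h2]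
    unfold ct
    rw [Complex.cot]
    push_cast
    rfl
  rw [h3]
  refine h1.congr_fun ?_ |> id
  intro n
  simp only [cotTerm]
  push_cast
  rfl


private theorem A3_ne {a b : ℝ}
    (hab : ∀ (n : ℤ) (y : ℝ), a < y → y < b → (n : ℝ) + y ≠ 0 ∧ ∀ s : ℕ,
      1 / |(n : ℝ) + y| ^ s ≤ 1 / |(n : ℝ) + a| ^ s + 1 / |(n : ℝ) + b| ^ s)
    {y : ℝ} (hy : y ∈ Set.Ioo a b) (n : ℤ) : y ≠ n := by
  intro h
  have h1 := (hab (-n) y hy.1 hy.2).1
  apply h1
  rw [h]
  push_cast
  ring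

private theorem A3_two {z : ℝ} (hz : ∀ n : ℤ, z ≠ n) :
    HasSum (fun n : ℤ => 1 / ((n : ℝ) + z) ^ 2) (Real.pi ^ 2 * (1 + ct z ^ 2)) := by
  obtain ⟨a, b, haz, hzb, hab⟩ := A3_near hz
  have hzt : z ∈ Set.Ioo a b := ⟨haz, hzb⟩
  have hsum := A3_summ' z (le_refl 2)
  have hinj1 : Function.Injective (fun n : ℕ => ((n : ℤ) + 1)) := fun m n h => by
    have : (m : ℤ) + 1 = n + 1 := h
    omega
  have hinj2 : Function.Injective (fun n : ℕ => (-((n : ℤ) + 1))) := fun m n h => by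
    have : -((m : ℤ) + 1) = -((n : ℤ) + 1) := h
    omega
  have hA := A3_summ a (le_refl 2)
  have hB := A3_summ b (le_refl 2)
  have hA1 := hA.comp_injective hinj1
  have hB1 := hB.comp_injective hinj1
  have hA2 := hA.comp_injective hinj2
  have hB2 := hB.comp_injective hinj2
  have hu := (hA1.add hB1).add (hA2.add hB2)
  have hD := hasDerivAt_tsum_of_isPreconnected (𝕜 := ℝ)
    (g := fun (n : ℕ) (y : ℝ) => 1 / (y - ((n : ℝ) + 1)) + 1 / (y + ((n : ℝ) + 1)))
    (g' := fun (n : ℕ) (y : ℝ) => -(1 / ((((n : ℤ) + 1 : ℤ) : ℝ) + y) ^ 2 +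
      1 / (((-((n : ℤ) + 1) : ℤ) : ℝ) + y) ^ 2))
    hu isOpen_Ioo (isPreconnected_Ioo (a := a) (b := b)) (by
      intro n y hy
      have h1 := (hab ((n : ℤ) + 1) y hy.1 hy.2).1
      have h2 := (hab (-((n : ℤ) + 1)) y hy.1 hy.2).1
      push_cast at h1 h2
      have h3 : y - ((n : ℝ) + 1) ≠ 0 := by
        intro h
        apply h2
        linarith
      have h4 : y + ((n : ℝ) + 1) ≠ 0 := by
        intro h
        apply h1
        linarith
      have h5 : HasDerivAt (fun y : ℝ => y - ((n : ℝ) + 1)) 1 y := (hasDerivAt_id y).sub_const _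
      have h6 : HasDerivAt (fun y : ℝ => y + ((n : ℝ) + 1)) 1 y := (hasDerivAt_id y).add_const _
      have h7 := (h5.inv h3).add (h6.inv h4)
      simp only [one_div]
      refine HasDerivAt.congr_deriv (f := fun y : ℝ => (y - ((n : ℝ) + 1))⁻¹ + (y + ((n : ℝ) + 1))⁻¹) h7 ?_
      push_cast
      have h8 : -((n : ℝ) + 1) + y = y - (n + 1) := by ring
      have h9 : (n : ℝ) + 1 + y = y + (n + 1) := by ring
      rw [h8, h9]
      field_simp
      ring) (by
      intro n y hy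
      have h1 := (hab ((n : ℤ) + 1) y hy.1 hy.2).2 2
      have h2 := (hab (-((n : ℤ) + 1)) y hy.1 hy.2).2 2
      rw [norm_neg]
      refine (norm_add_le _ _).trans ?_
      simp only [norm_div, norm_one, norm_pow, Real.norm_eq_abs, Function.comp]
      linarith) hzt (A3_series hz).summable hzt
  have hE : (fun y : ℝ => ∑' n : ℕ, (1 / (y - ((n : ℝ) + 1)) + 1 / (y + ((n : ℝ) + 1)))) =ᶠ[nhds z]
      fun y => Real.pi * ct y - 1 / y := by
    filter_upwards [isOpen_Ioo.mem_nhds hzt] with y hy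
    exact (A3_series (A3_ne hab hy)).tsum_eq
  have hD2 := hD.congr_of_eventuallyEq hE.symm
  have hz0 : z ≠ 0 := by simpa using hz 0
  have hD3 : HasDerivAt (fun y : ℝ => Real.pi * ct y - 1 / y)
      (Real.pi * -(Real.pi * (1 + ct z ^ 2)) - -(z ^ 2)⁻¹) z := by
    have h1 := (A3_ct hz).const_mul Real.pi
    have h2 := hasDerivAt_inv hz0
    have h3 := h1.sub h2
    simp only [one_div]
    exact h3
  have hu1 := hD3.unique hD2
  have hs1 := hsum.comp_injective hinj1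
  have hs2 := hsum.comp_injective hinj2
  have h4 := HasSum.of_add_one_of_neg_add_one (f := fun n : ℤ => 1 / ((n : ℝ) + z) ^ 2)
    hs1.hasSum hs2.hasSum
  have h5 : (∑' n : ℕ, -(1 / ((((n : ℤ) + 1 : ℤ) : ℝ) + z) ^ 2 +
      1 / (((-((n : ℤ) + 1) : ℤ) : ℝ) + z) ^ 2)) =
      -((∑' n : ℕ, 1 / ((((n : ℤ) + 1 : ℤ) : ℝ) + z) ^ 2) +
        ∑' n : ℕ, 1 / (((-((n : ℤ) + 1) : ℤ) : ℝ) + z) ^ 2) := by
    rw [tsum_neg]
    congr 1
    exact hs1.tsum_add hs2
  rw [h5] at hu1
  simp only [Function.comp_def] at h4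
  have h6 : 1 / (((0 : ℤ) : ℝ) + z) ^ 2 = (z ^ 2)⁻¹ := by
    push_cast
    rw [zero_add, one_div]
  rw [h6] at h4
  have h7 : Real.pi ^ 2 * (1 + ct z ^ 2) =
      (∑' n : ℕ, 1 / ((((n : ℤ) + 1 : ℤ) : ℝ) + z) ^ 2) + (z ^ 2)⁻¹ +
        ∑' n : ℕ, 1 / (((-((n : ℤ) + 1) : ℤ) : ℝ) + z) ^ 2 := by
    linarith
  rw [h7]
  exact h4

private theorem A3_step {r : ℕ} (hr : 2 ≤ r)
    (ih : ∀ z : ℝ, (∀ n : ℤ, z ≠ n) → HasSum (fun n : ℤ => 1 / ((n : ℝ) + z) ^ r)
      (Real.pi ^ r * ((cotP r).map (algebraMap ℚ ℝ)).eval (ct z)))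
    {z : ℝ} (hz : ∀ n : ℤ, z ≠ n) :
    HasSum (fun n : ℤ => 1 / ((n : ℝ) + z) ^ (r + 1))
      (Real.pi ^ (r + 1) * ((cotP (r + 1)).map (algebraMap ℚ ℝ)).eval (ct z)) := by
  obtain ⟨a, b, haz, hzb, hab⟩ := A3_near hz
  have hzt : z ∈ Set.Ioo a b := ⟨haz, hzb⟩
  have hA := A3_summ a (show 2 ≤ r + 1 by omega)
  have hB := A3_summ b (show 2 ≤ r + 1 by omega)
  have hu := (hA.add hB).mul_left (r : ℝ)
  have hr0 : (r : ℝ) ≠ 0 := by
    have : r ≠ 0 := by omega
    exact_mod_cast this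
  have hD := hasDerivAt_tsum_of_isPreconnected (𝕜 := ℝ)
    (g := fun (n : ℤ) (y : ℝ) => 1 / ((n : ℝ) + y) ^ r)
    (g' := fun (n : ℤ) (y : ℝ) => -(r * (1 / ((n : ℝ) + y) ^ (r + 1))))
    hu isOpen_Ioo (isPreconnected_Ioo (a := a) (b := b)) (by
      intro n y hy
      have h1 := (hab n y hy.1 hy.2).1
      have h5 : HasDerivAt (fun y : ℝ => (n : ℝ) + y) 1 y := (hasDerivAt_id y).const_add _
      have h6 := (h5.pow r).inv (pow_ne_zero r h1)
      simp only [one_div]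
      refine HasDerivAt.congr_deriv (f := fun y : ℝ => (((n : ℝ) + y) ^ r)⁻¹) h6 ?_
      obtain ⟨s, rfl⟩ : ∃ s, r = s + 1 := ⟨r - 1, by omega⟩
      rw [Nat.add_sub_cancel]
      simp only [Pi.pow_apply]
      field_simp
      ring) (by
      intro n y hy
      have h1 := (hab n y hy.1 hy.2).2 (r + 1)
      rw [norm_neg, norm_mul, norm_div, norm_one, norm_pow, Real.norm_eq_abs, Real.norm_eq_abs,
        abs_of_nonneg (Nat.cast_nonneg r)]
      exact mul_le_mul_of_nonneg_left h1 (Nat.cast_nonneg r)) hzt (ih z hz).summable hzt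
  have hE : (fun y : ℝ => ∑' n : ℤ, 1 / ((n : ℝ) + y) ^ r) =ᶠ[nhds z]
      fun y => Real.pi ^ r * ((cotP r).map (algebraMap ℚ ℝ)).eval (ct y) := by
    filter_upwards [isOpen_Ioo.mem_nhds hzt] with y hy
    exact (ih y (A3_ne hab hy)).tsum_eq
  have hD2 := hD.congr_of_eventuallyEq hE.symm
  have hD3 : HasDerivAt (fun y => Real.pi ^ r * ((cotP r).map (algebraMap ℚ ℝ)).eval (ct y))
      (Real.pi ^ r * (((cotP r).map (algebraMap ℚ ℝ)).derivative.eval (ct z) *
        -(Real.pi * (1 + ct z ^ 2)))) z :=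
    ((((cotP r).map (algebraMap ℚ ℝ)).hasDerivAt (ct z)).comp z (A3_ct hz)).const_mul _
  have hu1 := hD3.unique hD2
  have hs := A3_summ' z (show 2 ≤ r + 1 by omega)
  have h5 : (∑' n : ℤ, -(r * (1 / ((n : ℝ) + z) ^ (r + 1)))) =
      -(r * ∑' n : ℤ, 1 / ((n : ℝ) + z) ^ (r + 1)) := by
    rw [tsum_neg, tsum_mul_left]
  rw [h5] at hu1
  obtain ⟨s, rfl⟩ : ∃ s, r = s + 1 := ⟨r - 1, by omega⟩
  have h6 : ((cotP (s + 1 + 1)).map (algebraMap ℚ ℝ)).eval (ct z) =
      1 / ((s : ℝ) + 1) * (1 + ct z ^ 2) *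
        ((cotP (s + 1)).map (algebraMap ℚ ℝ)).derivative.eval (ct z) := by
    rw [show s + 1 + 1 = s + 2 from rfl, cotP]
    simp only [Polynomial.map_mul, Polynomial.map_C, Polynomial.map_add, Polynomial.map_one,
      Polynomial.map_pow, Polynomial.map_X, Polynomial.eval_mul, Polynomial.eval_C,
      Polynomial.eval_add, Polynomial.eval_one, Polynomial.eval_pow, Polynomial.eval_X,
      Polynomial.derivative_map]
    congr 2
    simp
  have h7 : Real.pi ^ (s + 1 + 1) * ((cotP (s + 1 + 1)).map (algebraMap ℚ ℝ)).eval (ct z) =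
      ∑' n : ℤ, 1 / ((n : ℝ) + z) ^ (s + 1 + 1) := by
    rw [h6]
    push_cast at hu1 hr0
    have h8 : ((s : ℝ) + 1) * (∑' n : ℤ, 1 / ((n : ℝ) + z) ^ (s + 1 + 1)) =
        Real.pi ^ (s + 1) * (((cotP (s + 1)).map (algebraMap ℚ ℝ)).derivative.eval (ct z) *
          (Real.pi * (1 + ct z ^ 2))) := by
      linarith
    have h9 : (∑' n : ℤ, 1 / ((n : ℝ) + z) ^ (s + 1 + 1)) =
        (Real.pi ^ (s + 1) * (((cotP (s + 1)).map (algebraMap ℚ ℝ)).derivative.eval (ct z) *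
          (Real.pi * (1 + ct z ^ 2)))) / ((s : ℝ) + 1) := by
      rw [eq_div_iff hr0, mul_comm]
      exact h8
    rw [h9]
    generalize ((cotP (s + 1)).map (algebraMap ℚ ℝ)).derivative.eval (ct z) = D
    generalize ct z = c
    field_simp
    ring
  rw [h7]
  exact hs.hasSum

theorem cot_tsum {r : ℕ} (hr : 2 ≤ r) {z : ℝ} (hz : ∀ n : ℤ, z ≠ n) :
    HasSum (fun n : ℤ => 1 / ((n : ℝ) + z) ^ r)
      (Real.pi ^ r * ((cotP r).map (algebraMap ℚ ℝ)).eval (ct z)) := by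
  induction r, hr using Nat.le_induction generalizing z with
  | base =>
    have h := A3_two hz
    have h2 : ((cotP 2).map (algebraMap ℚ ℝ)).eval (ct z) = 1 + ct z ^ 2 := by
      simp [cotP]
    rw [h2]
    exact h
  | succ n hn ih => exact A3_step hn (fun z hz => ih hz) hz


private theorem A3_sgodd {k : ℕ} (hk : Odd k) {r : ℕ} (hr : 2 ≤ r) :
    HasSum (fun n : ℤ => if (n : ℝ) + k / 2 = 0 then 0 else 1 / ((n : ℝ) + k / 2) ^ r)
      (Real.pi ^ r * (sg k r : ℝ)) := by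
  obtain ⟨m, hm⟩ := hk
  have hz : ∀ n : ℤ, (k : ℝ) / 2 ≠ n := by
    intro n h
    have h1 : (k : ℝ) = 2 * n := by linarith
    have h2 : (k : ℤ) = 2 * n := by exact_mod_cast h1
    omega
  have h := cot_tsum hr hz
  have hct : ct ((k : ℝ) / 2) = 0 := by
    unfold ct
    have h1 : Real.cos (Real.pi * (k / 2)) = 0 := by
      rw [Real.cos_eq_zero_iff]
      refine ⟨m, ?_⟩
      rw [hm]
      push_cast
      ring
    rw [h1, zero_div]
  have h2 : ((cotP r).map (algebraMap ℚ ℝ)).eval (0 : ℝ) = (sg k r : ℝ) := by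
    unfold sg
    rw [if_pos ⟨m, hm⟩]
    have h3 := Polynomial.eval_map_algebraMap (cotP r) (0 : ℝ)
    have h4 : ((cotP r).map (algebraMap ℚ ℝ)).eval (algebraMap ℚ ℝ 0) =
        algebraMap ℚ ℝ ((cotP r).eval 0) := Polynomial.eval_map_apply _ _
    rw [map_zero] at h4
    exact h4
  rw [hct, h2] at h
  refine h.congr_fun ?_ |> id
  intro n
  rw [if_neg]
  intro h5
  apply hz (-n)
  push_cast
  linarith

private theorem A3_sgeven {k : ℕ} (hk : ¬ Odd k) {r : ℕ} (hr : 2 ≤ r) (he : Even r) :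
    HasSum (fun n : ℤ => if (n : ℝ) + k / 2 = 0 then 0 else 1 / ((n : ℝ) + k / 2) ^ r)
      (Real.pi ^ r * (sg k r : ℝ)) := by
  obtain ⟨m, hm⟩ := Nat.not_odd_iff_even.1 hk
  obtain ⟨t, ht⟩ := he
  have ht2 : r = 2 * t := by omega
  have ht0 : t ≠ 0 := by omega
  have hz := hasSum_zeta_nat ht0
  have hz0 : (fun n : ℕ => 1 / (n : ℝ) ^ (2 * t)) 0 = 0 := by
    simp [ht0]
  have hz1 : HasSum (fun n : ℕ => 1 / ((n : ℝ) + 1) ^ (2 * t))
      ((-1) ^ (t + 1) * 2 ^ (2 * t - 1) * Real.pi ^ (2 * t) * (bernoulli (2 * t)) / (2 * t).factorial) := by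
    have h1 := (hasSum_nat_add_iff' (f := fun n : ℕ => 1 / (n : ℝ) ^ (2 * t)) 1).2 hz
    simp only [Finset.sum_range_one, Nat.cast_zero] at h1
    rw [zero_pow (by omega), div_zero, sub_zero] at h1
    simpa using h1
  set Z : ℝ := (-1) ^ (t + 1) * 2 ^ (2 * t - 1) * Real.pi ^ (2 * t) * (bernoulli (2 * t)) /
    (2 * t).factorial with hZ
  have hZ2 : HasSum (fun n : ℤ => if (n : ℝ) = 0 then 0 else 1 / (n : ℝ) ^ r) (Z + 0 + Z) := by
    have h0 : (fun n : ℤ => if (n : ℝ) = 0 then (0 : ℝ) else 1 / (n : ℝ) ^ r) 0 = 0 := by simp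
    have hmain : HasSum (fun n : ℤ => if (n : ℝ) = 0 then (0 : ℝ) else 1 / (n : ℝ) ^ r)
        (Z + (fun n : ℤ => if (n : ℝ) = 0 then (0 : ℝ) else 1 / (n : ℝ) ^ r) 0 + Z) := by
      apply HasSum.of_add_one_of_neg_add_one
      · refine hz1.congr_fun ?_ |> id
        intro n
        have h1 : (((n : ℤ) + 1 : ℤ) : ℝ) ≠ 0 := by
          push_cast
          positivity
        rw [if_neg h1, ht2]
        push_cast
        rfl
      · refine hz1.congr_fun ?_ |> id
        intro n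
        have h1 : ((-((n : ℤ) + 1) : ℤ) : ℝ) ≠ 0 := by
          push_cast
          have : (0 : ℝ) < n + 1 := by positivity
          linarith
        rw [if_neg h1, ht2]
        push_cast
        rw [Even.neg_pow ⟨t, by ring⟩]
    rw [h0] at hmain
    exact hmain
  have hval : Real.pi ^ r * (sg k r : ℝ) = Z + 0 + Z := by
    unfold sg
    rw [if_neg hk, hZ, ht2, Nat.mul_div_cancel_left t (by norm_num)]
    push_cast
    obtain ⟨u, rfl⟩ : ∃ u, t = u + 1 := ⟨t - 1, by omega⟩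
    have h1 : 2 * (u + 1) - 1 = 2 * u + 1 := by omega
    rw [h1]
    ring
  rw [hval]
  have h3 := (Equiv.hasSum_iff (Equiv.addRight (m : ℤ))).2 hZ2
  refine h3.congr_fun ?_ |> id
  intro n
  simp only [Function.comp, Equiv.coe_addRight]
  have h4 : (n : ℝ) + (k : ℝ) / 2 = ((n + (m : ℤ) : ℤ) : ℝ) := by
    rw [hm]
    push_cast
    ring
  rw [h4]
  all_goals rfl

/-- the sums over the non-zero elements of `ℤ + k / 2` -/
theorem sg_tsum (k : ℕ) {r : ℕ} (hr : 2 ≤ r) (he : Even r) :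
    HasSum (fun n : ℤ => if (n : ℝ) + k / 2 = 0 then 0 else 1 / ((n : ℝ) + k / 2) ^ r)
      (Real.pi ^ r * (sg k r : ℝ)) := by
  by_cases hk : Odd k
  · exact A3_sgodd hk hr
  · exact A3_sgeven hk hr he

open Polynomial in
private theorem A3_c4 : cotP 4 = C (1 / 3) + C (4 / 3) * X ^ 2 + X ^ 4 := by
  have h1 : cotP 1 = X := rfl
  have h2 : cotP 2 = 1 + X ^ 2 := by
    rw [cotP, h1]
    simp
  have h3 : cotP 3 = X + X ^ 3 := by
    rw [cotP, h2]
    refine Polynomial.funext fun x => ?_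
    simp
    ring
  rw [cotP, h3]
  refine Polynomial.funext fun x => ?_
  simp
  ring

open Polynomial in
private theorem A3_c6 : cotP 6 = C (2 / 15) + C (17 / 15) * X ^ 2 + C 2 * X ^ 4 + X ^ 6 := by
  have h5 : cotP 5 = C (2 / 3) * X + C (5 / 3) * X ^ 3 + X ^ 5 := by
    rw [cotP, A3_c4]
    refine Polynomial.funext fun x => ?_
    simp
    ring
  rw [cotP, h5]
  refine Polynomial.funext fun x => ?_
  simp
  ring

open Polynomial in
private theorem A3_c8 : cotP 8 = C (17 / 315) + C (248 / 315) * X ^ 2 + C (12 / 5) * X ^ 4 +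
    C (8 / 3) * X ^ 6 + X ^ 8 := by
  have h7 : cotP 7 = C (17 / 45) * X + C (77 / 45) * X ^ 3 + C (7 / 3) * X ^ 5 + X ^ 7 := by
    rw [cotP, A3_c6]
    refine Polynomial.funext fun x => ?_
    simp
    ring
  rw [cotP, h7]
  refine Polynomial.funext fun x => ?_
  simp
  ring

open Polynomial in
private theorem A3_c10 : (cotP 10).eval 0 = 62 / 2835 := by
  have h9 : cotP 9 = C (62 / 315) * X + C (88 / 63) * X ^ 3 + C (16 / 5) * X ^ 5 + C 3 * X ^ 7 +
      X ^ 9 := by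
    rw [cotP, A3_c8]
    refine Polynomial.funext fun x => ?_
    simp
    ring
  rw [cotP, h9]
  simp
  norm_num

private theorem A3_b3 : bernoulli' 3 = 0 := bernoulli'_eq_zero_of_odd (by decide) (by norm_num)
private theorem A3_b5 : bernoulli' 5 = 0 := bernoulli'_eq_zero_of_odd (by decide) (by norm_num)
private theorem A3_b7 : bernoulli' 7 = 0 := bernoulli'_eq_zero_of_odd (by decide) (by norm_num)
private theorem A3_b9 : bernoulli' 9 = 0 := bernoulli'_eq_zero_of_odd (by decide) (by norm_num)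

private theorem A3_b6 : bernoulli' 6 = 1 / 42 := by
  rw [bernoulli'_def]
  simp only [Finset.sum_range_succ, Finset.sum_range_zero, bernoulli'_zero, bernoulli'_one,
    bernoulli'_two, A3_b3, bernoulli'_four, A3_b5]
  norm_num [Nat.choose]

private theorem A3_b8 : bernoulli' 8 = -1 / 30 := by
  rw [bernoulli'_def]
  simp only [Finset.sum_range_succ, Finset.sum_range_zero, bernoulli'_zero, bernoulli'_one,
    bernoulli'_two, A3_b3, bernoulli'_four, A3_b5, A3_b6, A3_b7]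
  norm_num [Nat.choose]

private theorem A3_b10 : bernoulli' 10 = 5 / 66 := by
  rw [bernoulli'_def]
  simp only [Finset.sum_range_succ, Finset.sum_range_zero, bernoulli'_zero, bernoulli'_one,
    bernoulli'_two, A3_b3, bernoulli'_four, A3_b5, A3_b6, A3_b7, A3_b8, A3_b9]
  norm_num [Nat.choose]

/-- the values which we need -/
theorem sg_val (k : ℕ) : sg k 4 = (if Odd k then 1 / 3 else 1 / 45) ∧
    sg k 6 = (if Odd k then 2 / 15 else 2 / 945) ∧
    sg k 8 = (if Odd k then 17 / 315 else 1 / 4725) ∧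
    sg k 10 = (if Odd k then 62 / 2835 else 2 / 93555) := by
  unfold sg
  by_cases hk : Odd k
  · simp only [if_pos hk]
    refine ⟨?_, ?_, ?_, A3_c10⟩
    · rw [A3_c4]
      simp
    · rw [A3_c6]
      simp
    · rw [A3_c8]
      simp
  · simp only [if_neg hk]
    rw [bernoulli_eq_bernoulli'_of_ne_one (by norm_num), bernoulli_eq_bernoulli'_of_ne_one (by norm_num),
      bernoulli_eq_bernoulli'_of_ne_one (by norm_num), bernoulli_eq_bernoulli'_of_ne_one (by norm_num),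
      bernoulli'_four, A3_b6, A3_b8, A3_b10]
    norm_num [Nat.factorial]

end Pool.Agent.GSP
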