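import Pool.Agent.GSP.Defs
import Pool.Agent.GSP.A3

set_option autoImplicit false

open Finset MeasureTheory

namespace Pool.Agent.GSP

private theorem A4_int (m : ℕ) {b : ℝ} (hb : 0 < b) :
    IntegrableOn (fun r : ℝ => r ^ m * Real.exp (-(b * r))) (Set.Ioi 0) ∧
    ∫ r in Set.Ioi (0 : ℝ), r ^ m * Real.exp (-(b * r)) = m.factorial / b ^ (m + 1) := by
  have key := Real.integral_rpow_mul_exp_neg_mul_Ioi (a := (m : ℝ) + 1) (r := b) (by positivity) hb
  have e : ∀ r : ℝ, r ^ ((m : ℝ) + 1 - 1) = r ^ m := fun r => by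
    rw [add_sub_cancel_right, Real.rpow_natCast]
  simp only [e] at key
  have hv : (1 / b) ^ ((m : ℝ) + 1) * Real.Gamma ((m : ℝ) + 1) = m.factorial / b ^ (m + 1) := by
    have h1 : (1 / b) ^ ((m : ℝ) + 1) = (1 / b) ^ (m + 1) := by
      rw [← Real.rpow_natCast]
      push_cast
      rfl
    rw [h1, Real.Gamma_nat_eq_factorial, one_div, inv_pow]
    ring
  rw [hv] at key
  exact ⟨.of_integral_ne_zero (by rw [key]; positivity), key⟩

private noncomputable def A4_G (m k : ℕ) (a r : ℝ) : ℝ :=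
  r ^ m * Real.exp (a * r) / (2 * Real.sinh (r / 2)) ^ k

private theorem A4_sinh_pos {r : ℝ} (hr : 0 < r) : 0 < 2 * Real.sinh (r / 2) :=
  mul_pos two_pos (Real.sinh_pos_iff.2 (by linarith))

private theorem A4_sinh_bound (r : ℝ) :
    r * Real.exp (r / 2) ≤ (1 + r) * (2 * Real.sinh (r / 2)) := by
  rw [Real.sinh_eq]
  have h1 : 1 + r ≤ Real.exp r := by linarith [Real.add_one_le_exp r]
  have h2 : (1 + r) * Real.exp (-(r / 2)) ≤ Real.exp (r / 2) := by
    calc (1 + r) * Real.exp (-(r / 2)) ≤ Real.exp r * Real.exp (-(r / 2)) :=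
          mul_le_mul_of_nonneg_right h1 (Real.exp_pos _).le
      _ = Real.exp (r / 2) := by
          rw [← Real.exp_add]
          congr 1
          ring
  have h3 : (1 + r) * (2 * ((Real.exp (r / 2) - Real.exp (-(r / 2))) / 2)) =
      Real.exp (r / 2) + r * Real.exp (r / 2) - (1 + r) * Real.exp (-(r / 2)) := by ring
  linarith

private theorem A4_sinh_eq (r : ℝ) :
    2 * Real.sinh (r / 2) = Real.exp (r / 2) * (1 - Real.exp (-r)) := by
  rw [Real.sinh_eq, mul_sub, mul_one, ← Real.exp_add]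
  have : r / 2 + -r = -(r / 2) := by ring
  rw [this]
  ring

private theorem A4_G_nonneg (m k : ℕ) (a : ℝ) {r : ℝ} (hr : 0 < r) : 0 ≤ A4_G m k a r := by
  have := A4_sinh_pos hr
  unfold A4_G
  positivity

private theorem A4_G_le {m k : ℕ} (hkm : k ≤ m) (a : ℝ) {r : ℝ} (hr : 0 < r) :
    A4_G m k a r ≤ ∑ i ∈ range (k + 1), (k.choose i : ℝ) *
      (r ^ (m - k + i) * Real.exp (-(((k : ℝ) / 2 - a) * r))) := by
  have hs := A4_sinh_pos hr
  have hsum : ∑ i ∈ range (k + 1), (k.choose i : ℝ) *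
      (r ^ (m - k + i) * Real.exp (-(((k : ℝ) / 2 - a) * r))) =
      r ^ (m - k) * Real.exp (-(((k : ℝ) / 2 - a) * r)) * (r + 1) ^ k := by
    rw [add_pow, Finset.mul_sum]
    refine Finset.sum_congr rfl fun i _ => ?_
    rw [pow_add, one_pow]
    ring
  rw [hsum, A4_G, div_le_iff₀ (pow_pos hs k)]
  have h1 : (r * Real.exp (r / 2)) ^ k ≤ ((1 + r) * (2 * Real.sinh (r / 2))) ^ k :=
    pow_le_pow_left₀ (by positivity) (A4_sinh_bound r) k
  have h2 : r ^ m * Real.exp (a * r) =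
      r ^ (m - k) * Real.exp (-(((k : ℝ) / 2 - a) * r)) * (r * Real.exp (r / 2)) ^ k := by
    have e1 : r ^ m = r ^ (m - k) * r ^ k := by
      rw [← pow_add, Nat.sub_add_cancel hkm]
    have e2 : Real.exp (a * r) =
        Real.exp (-(((k : ℝ) / 2 - a) * r)) * Real.exp (r / 2) ^ k := by
      rw [← Real.exp_nat_mul, ← Real.exp_add]
      congr 1
      ring
    rw [e1, e2, mul_pow]
    ring
  rw [h2]
  calc r ^ (m - k) * Real.exp (-(((k : ℝ) / 2 - a) * r)) * (r * Real.exp (r / 2)) ^ k ≤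
        r ^ (m - k) * Real.exp (-(((k : ℝ) / 2 - a) * r)) *
          ((1 + r) * (2 * Real.sinh (r / 2))) ^ k :=
        mul_le_mul_of_nonneg_left h1 (by positivity)
    _ = r ^ (m - k) * Real.exp (-(((k : ℝ) / 2 - a) * r)) * (r + 1) ^ k *
          (2 * Real.sinh (r / 2)) ^ k := by
        rw [mul_pow, add_comm 1 r]
        ring

private theorem A4_G_int {m k : ℕ} (hkm : k ≤ m) {a : ℝ} (ha : a < (k : ℝ) / 2) :
    IntegrableOn (A4_G m k a) (Set.Ioi 0) := by
  have hb : IntegrableOn (fun r : ℝ => ∑ i ∈ range (k + 1), (k.choose i : ℝ) *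
      (r ^ (m - k + i) * Real.exp (-(((k : ℝ) / 2 - a) * r)))) (Set.Ioi 0) := by
    refine integrable_finsetSum _ fun i _ => ?_
    exact (A4_int (m - k + i) (sub_pos.2 ha)).1.const_mul _
  refine Integrable.mono' hb ?_ ?_
  · have hc : ContinuousOn (A4_G m k a) (Set.Ioi 0) := by
      unfold A4_G
      refine ContinuousOn.div (by fun_prop) ?_ fun r hr => (pow_pos (A4_sinh_pos hr) k).ne'
      refine Continuous.continuousOn ?_
      exact (continuous_const.mul (Real.continuous_sinh.comp (continuous_id.div_const 2))).pow k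
    exact hc.aestronglyMeasurable measurableSet_Ioi
  · filter_upwards [self_mem_ae_restrict measurableSet_Ioi] with r hr
    rw [Real.norm_of_nonneg (A4_G_nonneg m k a hr)]
    exact A4_G_le hkm a hr

private theorem A4_hasSum (m k : ℕ) (a : ℝ) {r : ℝ} (hr : 0 < r) :
    HasSum (fun n : ℕ => ((n + k).choose k : ℝ) *
      (r ^ m * Real.exp (-(((n : ℝ) + ((k + 1 : ℕ) : ℝ) / 2 - a) * r)))) (A4_G m (k + 1) a r) := by
  have hx : ‖Real.exp (-r)‖ < 1 := by
    rw [Real.norm_of_nonneg (Real.exp_pos _).le]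
    exact Real.exp_lt_one_iff.2 (by linarith)
  have h := (hasSum_choose_mul_geometric_of_norm_lt_one k hx).mul_left
    (r ^ m * Real.exp (a * r) * Real.exp (-(((k + 1 : ℕ) : ℝ) / 2 * r)))
  have e1 : r ^ m * Real.exp (a * r) * Real.exp (-(((k + 1 : ℕ) : ℝ) / 2 * r)) *
      (1 / (1 - Real.exp (-r)) ^ (k + 1)) = A4_G m (k + 1) a r := by
    rw [A4_G, A4_sinh_eq, mul_pow, ← Real.exp_nat_mul, Real.exp_neg (((k + 1 : ℕ) : ℝ) / 2 * r)]
    have e : ((k + 1 : ℕ) : ℝ) * (r / 2) = ((k + 1 : ℕ) : ℝ) / 2 * r := by ring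
    rw [e]
    have h1 : (1 - Real.exp (-r)) ^ (k + 1) ≠ 0 := by
      refine pow_ne_zero _ (sub_ne_zero.2 ?_)
      exact (Real.exp_lt_one_iff.2 (by linarith)).ne'
    have h2 := Real.exp_ne_zero (((k + 1 : ℕ) : ℝ) / 2 * r)
    field_simp
  rw [e1] at h
  have hfun : (fun n : ℕ => ((n + k).choose k : ℝ) *
      (r ^ m * Real.exp (-(((n : ℝ) + ((k + 1 : ℕ) : ℝ) / 2 - a) * r)))) = fun n : ℕ =>
      r ^ m * Real.exp (a * r) * Real.exp (-(((k + 1 : ℕ) : ℝ) / 2 * r)) *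
        (((n + k).choose k : ℝ) * Real.exp (-r) ^ n) := by
    funext n
    have e2 : Real.exp (-(((n : ℝ) + ((k + 1 : ℕ) : ℝ) / 2 - a) * r)) =
        Real.exp (a * r) * Real.exp (-(((k + 1 : ℕ) : ℝ) / 2 * r)) * Real.exp (-r) ^ n := by
      rw [← Real.exp_nat_mul, ← Real.exp_add, ← Real.exp_add]
      congr 1
      ring
    rw [e2]
    ring
  rw [hfun]
  exact h

private theorem A4_summable {m k : ℕ} (hkm : k + 1 ≤ m) {a : ℝ} (ha : a ≤ 5 / 12) :
    Summable fun n : ℕ => ((n + k).choose k : ℝ) *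
      ((m.factorial : ℝ) / ((n : ℝ) + ((k + 1 : ℕ) : ℝ) / 2 - a) ^ (m + 1)) := by
  have hs : Summable fun n : ℕ => (((k + 1 : ℝ) ^ k * m.factorial * 12 ^ (m + 1)) : ℝ) *
      (1 / ((n + 1 : ℕ) : ℝ) ^ 2) := by
    refine Summable.mul_left _ ?_
    exact (summable_nat_add_iff (f := fun n : ℕ => 1 / (n : ℝ) ^ 2) 1).2
      (Real.summable_one_div_nat_pow.2 one_lt_two)
  have hk0 : (0 : ℝ) ≤ k := Nat.cast_nonneg k
  have hden : ∀ n : ℕ, ((n : ℝ) + 1) / 12 ≤ (n : ℝ) + ((k + 1 : ℕ) : ℝ) / 2 - a := by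
    intro n
    have hn : (0 : ℝ) ≤ n := Nat.cast_nonneg n
    push_cast
    linarith
  refine Summable.of_nonneg_of_le (fun n => ?_) (fun n => ?_) hs
  · have h1 := hden n
    have hn : (0 : ℝ) ≤ n := Nat.cast_nonneg n
    have h2 : 0 ≤ (n : ℝ) + ((k + 1 : ℕ) : ℝ) / 2 - a := le_trans (by positivity) h1
    positivity
  · have hn : (0 : ℝ) ≤ n := Nat.cast_nonneg n
    have hn1 : (0 : ℝ) < (n : ℝ) + 1 := by linarith
    have h1 : ((n + k).choose k : ℝ) ≤ ((k + 1 : ℝ) * (n + 1)) ^ k := by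
      have h2 : (n + k).choose k ≤ (n + k) ^ k := Nat.choose_le_pow _ _
      have h3 : ((n + k).choose k : ℝ) ≤ ((n : ℝ) + k) ^ k := by exact_mod_cast h2
      refine h3.trans (pow_le_pow_left₀ (by positivity) ?_ k)
      nlinarith
    have h4 : (((n : ℝ) + 1) / 12) ^ (m + 1) ≤
        ((n : ℝ) + ((k + 1 : ℕ) : ℝ) / 2 - a) ^ (m + 1) :=
      pow_le_pow_left₀ (by positivity) (hden n) _
    have h5 : (m.factorial : ℝ) / ((n : ℝ) + ((k + 1 : ℕ) : ℝ) / 2 - a) ^ (m + 1) ≤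
        (m.factorial : ℝ) / (((n : ℝ) + 1) / 12) ^ (m + 1) :=
      div_le_div_of_nonneg_left (by positivity) (by positivity) h4
    have h6 : (m.factorial : ℝ) / (((n : ℝ) + 1) / 12) ^ (m + 1) ≤
        m.factorial * 12 ^ (m + 1) / ((n : ℝ) + 1) ^ (k + 2) := by
      rw [div_pow, div_div_eq_mul_div]
      refine div_le_div_of_nonneg_left (by positivity) (by positivity) ?_
      exact pow_le_pow_right₀ (by linarith) (by omega)
    calc ((n + k).choose k : ℝ) *
          ((m.factorial : ℝ) / ((n : ℝ) + ((k + 1 : ℕ) : ℝ) / 2 - a) ^ (m + 1)) ≤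
          ((k + 1 : ℝ) * (n + 1)) ^ k * (m.factorial * 12 ^ (m + 1) / ((n : ℝ) + 1) ^ (k + 2)) := by
          refine mul_le_mul h1 (h5.trans h6) ?_ (by positivity)
          have h7 : 0 ≤ (n : ℝ) + ((k + 1 : ℕ) : ℝ) / 2 - a := le_trans (by positivity) (hden n)
          positivity
      _ = ((k + 1 : ℝ) ^ k * m.factorial * 12 ^ (m + 1)) * (1 / ((n + 1 : ℕ) : ℝ) ^ 2) := by
          push_cast
          rw [mul_pow, pow_add]
          field_simp
          ring

private theorem A4_integral {m k : ℕ} (hkm : k + 1 ≤ m) {a : ℝ} (ha : a ≤ 5 / 12) :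
    ∫ r in Set.Ioi (0 : ℝ), A4_G m (k + 1) a r = ∑' n : ℕ, ((n + k).choose k : ℝ) *
      ((m.factorial : ℝ) / ((n : ℝ) + ((k + 1 : ℕ) : ℝ) / 2 - a) ^ (m + 1)) := by
  have hb : ∀ n : ℕ, 0 < (n : ℝ) + ((k + 1 : ℕ) : ℝ) / 2 - a := by
    intro n
    have hn : (0 : ℝ) ≤ n := Nat.cast_nonneg n
    have hk0 : (0 : ℝ) ≤ k := Nat.cast_nonneg k
    push_cast
    linarith
  have hval : ∀ n : ℕ, ∫ r in Set.Ioi (0 : ℝ), ((n + k).choose k : ℝ) *
      (r ^ m * Real.exp (-(((n : ℝ) + ((k + 1 : ℕ) : ℝ) / 2 - a) * r))) =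
      ((n + k).choose k : ℝ) *
        ((m.factorial : ℝ) / ((n : ℝ) + ((k + 1 : ℕ) : ℝ) / 2 - a) ^ (m + 1)) := by
    intro n
    rw [integral_const_mul, (A4_int m (hb n)).2]
  have hI : ∀ n : ℕ, Integrable (fun r : ℝ => ((n + k).choose k : ℝ) *
      (r ^ m * Real.exp (-(((n : ℝ) + ((k + 1 : ℕ) : ℝ) / 2 - a) * r))))
      (volume.restrict (Set.Ioi 0)) := fun n => (A4_int m (hb n)).1.const_mul _
  have hnorm : ∀ n : ℕ, ∫ r in Set.Ioi (0 : ℝ), ‖((n + k).choose k : ℝ) *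
      (r ^ m * Real.exp (-(((n : ℝ) + ((k + 1 : ℕ) : ℝ) / 2 - a) * r)))‖ =
      ((n + k).choose k : ℝ) *
        ((m.factorial : ℝ) / ((n : ℝ) + ((k + 1 : ℕ) : ℝ) / 2 - a) ^ (m + 1)) := by
    intro n
    rw [← hval n]
    refine setIntegral_congr_fun measurableSet_Ioi fun r hr => ?_
    have hr' : (0 : ℝ) < r := hr
    exact Real.norm_of_nonneg (by positivity)
  have key := hasSum_integral_of_summable_integral_norm hI (by
    simp only [hnorm]
    exact A4_summable hkm ha)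
  have h1 : ∫ r in Set.Ioi (0 : ℝ), A4_G m (k + 1) a r =
      ∫ r in Set.Ioi (0 : ℝ), ∑' n : ℕ, ((n + k).choose k : ℝ) *
        (r ^ m * Real.exp (-(((n : ℝ) + ((k + 1 : ℕ) : ℝ) / 2 - a) * r))) :=
    setIntegral_congr_fun measurableSet_Ioi fun r hr => (A4_hasSum m k a hr).tsum_eq.symm
  rw [h1, ← key.tsum_eq]
  exact tsum_congr hval

private theorem A4_sum_le {S : Finset ℕ} (hS : IsLeaf S) : ∑ p ∈ S, (1 : ℚ) / p ≤ 5 / 6 := by
  have h2 := hS.two_le
  have hinv : ∀ p : ℕ, ∀ c : ℕ, 0 < c → c ≤ p → (1 : ℚ) / p ≤ 1 / c := by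
    intro p c hc hcp
    exact one_div_le_one_div_of_le (by exact_mod_cast hc) (by exact_mod_cast hcp)
  have hc := hS.card_le
  rcases Nat.lt_or_ge S.card 1 with h | h
  · have : S = ∅ := Finset.card_eq_zero.1 (by omega)
    rw [this]
    norm_num
  · rcases Nat.lt_or_ge S.card 2 with h' | h'
    · obtain ⟨p, rfl⟩ := Finset.card_eq_one.1 (by omega : S.card = 1)
      rw [Finset.sum_singleton]
      have := hinv p 2 two_pos (h2 p (Finset.mem_singleton_self p))
      norm_num at this ⊢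
      linarith
    · obtain ⟨p, q, hpq, rfl⟩ := Finset.card_eq_two.1 (by omega : S.card = 2)
      rw [Finset.sum_pair hpq]
      have hp := h2 p (by simp)
      have hq := h2 q (by simp)
      rcases lt_or_gt_of_ne hpq with hlt | hlt
      · have e1 := hinv p 2 two_pos hp
        have e2 := hinv q 3 (by norm_num) (by omega)
        push_cast at e1 e2
        linarith
      · have e1 := hinv p 3 (by norm_num) (by omega)
        have e2 := hinv q 2 two_pos hq
        push_cast at e1 e2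
        linarith

private theorem A4_al_le {S T : Finset ℕ} (hS : IsLeaf S) (hT : T ∈ S.powerset) :
    (al S T : ℝ) ≤ 5 / 12 := by
  have h1 : al S T ≤ 5 / 12 := by
    have h2 : ∑ p ∈ T, (1 : ℚ) / p ≤ ∑ p ∈ S, (1 : ℚ) / p :=
      Finset.sum_le_sum_of_subset_of_nonneg (Finset.mem_powerset.1 hT) fun p _ _ => by positivity
    have h3 : 0 ≤ ∑ p ∈ S \ T, (1 : ℚ) / p := Finset.sum_nonneg fun p _ => by positivity
    have h4 := A4_sum_le hS
    unfold al
    linarith
  calc (al S T : ℝ) ≤ ((5 / 12 : ℚ) : ℝ) := by exact_mod_cast h1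
    _ = 5 / 12 := by norm_num

private theorem A4_prod (S : Finset ℕ) (r : ℝ) : ∏ p ∈ S, (2 * Real.sinh (r / (2 * p))) =
    ∑ T ∈ S.powerset, (-1) ^ (S \ T).card * Real.exp ((al S T : ℝ) * r) := by
  have h1 : ∀ p ∈ S, 2 * Real.sinh (r / (2 * p)) =
      Real.exp (r / (2 * p)) + -Real.exp (-(r / (2 * p))) := by
    intro p _
    rw [Real.sinh_eq]
    ring
  rw [Finset.prod_congr rfl h1, Finset.prod_add]
  refine Finset.sum_congr rfl fun T _ => ?_
  rw [Finset.prod_neg, ← Real.exp_sum, ← Real.exp_sum]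
  have h2 : (al S T : ℝ) * r = ∑ p ∈ T, r / (2 * (p : ℝ)) + ∑ p ∈ S \ T, -(r / (2 * (p : ℝ))) := by
    unfold al
    push_cast
    rw [Finset.sum_neg_distrib, sub_div, sub_mul, Finset.sum_div, Finset.sum_div, Finset.sum_mul,
      Finset.sum_mul, sub_eq_add_neg]
    congr 1
    · exact Finset.sum_congr rfl fun p _ => by
        rw [div_div, one_div_mul_eq_div, mul_comm (p : ℝ) 2]
    · congr 1
      exact Finset.sum_congr rfl fun p _ => by
        rw [div_div, one_div_mul_eq_div, mul_comm (p : ℝ) 2]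
  rw [h2, Real.exp_add]
  ring

private theorem A4_node {S : Finset ℕ} (hS : IsLeaf S) (k j : ℕ) {r : ℝ} (hr : 0 < r) :
    r ^ (2 + 2 * j) * nodeR S k r = (∏ p ∈ S, (p : ℝ)) *
      ∑ T ∈ S.powerset, (-1) ^ (S \ T).card * A4_G (ex S k j) k (al S T : ℝ) r := by
  have hp0 : ∀ p ∈ S, (p : ℝ) ≠ 0 := fun p hp => by
    have := hS.two_le p hp
    have : 0 < p := by omega
    exact_mod_cast this.ne'
  have hr' := hr.ne'
  have h1 : ∏ p ∈ S, Real.sinh (r / (2 * p)) / (r / (2 * p)) =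
      (∏ p ∈ S, (2 * Real.sinh (r / (2 * p)))) * (∏ p ∈ S, (p : ℝ)) / r ^ S.card := by
    rw [← Finset.prod_const, ← Finset.prod_mul_distrib, ← Finset.prod_div_distrib]
    refine Finset.prod_congr rfl fun p hp => ?_
    have := hp0 p hp
    field_simp
  have h2 : ((r / 2) / Real.sinh (r / 2)) ^ k = r ^ k / (2 * Real.sinh (r / 2)) ^ k := by
    rw [← div_pow]
    congr 1
    rw [div_div]
  have hex : r ^ (2 + 2 * j) * r ^ k = r ^ (ex S k j) * r ^ S.card := by
    rw [← pow_add, ← pow_add]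
    congr 1
    have := hS.card_le
    unfold ex
    omega
  have h3 : ∑ T ∈ S.powerset, (-1) ^ (S \ T).card * A4_G (ex S k j) k (al S T : ℝ) r =
      r ^ (ex S k j) / (2 * Real.sinh (r / 2)) ^ k *
        ∑ T ∈ S.powerset, (-1) ^ (S \ T).card * Real.exp ((al S T : ℝ) * r) := by
    rw [Finset.mul_sum]
    refine Finset.sum_congr rfl fun T _ => ?_
    rw [A4_G]
    ring
  rw [nodeR, h1, h2, h3, ← A4_prod]
  generalize ∏ p ∈ S, (2 * Real.sinh (r / (2 * p))) = A
  generalize ∏ p ∈ S, (p : ℝ) = B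
  have hrc : r ^ S.card ≠ 0 := pow_ne_zero _ hr'
  calc r ^ (2 + 2 * j) * (A * B / r ^ S.card * (r ^ k / (2 * Real.sinh (r / 2)) ^ k)) =
        (r ^ (2 + 2 * j) * r ^ k) / r ^ S.card * (A * B / (2 * Real.sinh (r / 2)) ^ k) := by ring
    _ = r ^ (ex S k j) * (A * B / (2 * Real.sinh (r / 2)) ^ k) := by
        rw [hex, mul_div_cancel_right₀ _ hrc]
    _ = B * (r ^ (ex S k j) / (2 * Real.sinh (r / 2)) ^ k * A) := by ring

private theorem A4_ex {S : Finset ℕ} (hS : IsLeaf S) (k j : ℕ) : k ≤ ex S k j := by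
  have := hS.card_le
  unfold ex
  omega

private theorem A4_GI {S : Finset ℕ} (hS : IsLeaf S) {k : ℕ} (hk : 1 ≤ k) (j : ℕ) {T : Finset ℕ}
    (hT : T ∈ S.powerset) :
    IntegrableOn (A4_G (ex S k j) k (al S T : ℝ)) (Set.Ioi 0) := by
  refine A4_G_int (A4_ex hS k j) ?_
  have h1 := A4_al_le hS hT
  have h2 : (1 : ℝ) ≤ k := by exact_mod_cast hk
  linarith

theorem mu_integrable {S : Finset ℕ} (hS : IsLeaf S) {k : ℕ} (hk : 1 ≤ k) (j : ℕ) :
    IntegrableOn (fun r : ℝ => r ^ (2 + 2 * j) * nodeR S k r) (Set.Ioi 0) := by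
  have h1 : IntegrableOn (fun r : ℝ => (∏ p ∈ S, (p : ℝ)) *
      ∑ T ∈ S.powerset, (-1) ^ (S \ T).card * A4_G (ex S k j) k (al S T : ℝ) r) (Set.Ioi 0) := by
    refine Integrable.const_mul ?_ _
    refine integrable_finsetSum _ fun T hT => ?_
    exact (A4_GI hS hk j hT).const_mul _
  exact h1.congr_fun (fun r hr => (A4_node hS k j hr).symm) measurableSet_Ioi

theorem mu_pos {S : Finset ℕ} (hS : IsLeaf S) {k : ℕ} (hk : 1 ≤ k) (j : ℕ) : 0 < mu S k j := by
  have hpos : ∀ r : ℝ, 0 < r → 0 < r ^ (2 + 2 * j) * nodeR S k r := by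
    intro r hr
    refine mul_pos (pow_pos hr _) (mul_pos (Finset.prod_pos fun p hp => ?_) (pow_pos ?_ k))
    · have := hS.two_le p hp
      have hp0 : (0 : ℝ) < p := by
        have : 0 < p := by omega
        exact_mod_cast this
      have h1 : 0 < r / (2 * p) := by positivity
      exact div_pos (Real.sinh_pos_iff.2 h1) h1
    · exact div_pos (by linarith) (Real.sinh_pos_iff.2 (by linarith))
  unfold mu
  rw [setIntegral_pos_iff_support_of_nonneg_ae]
  · have hsub : Set.Ioi (0 : ℝ) ⊆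
        Function.support (fun r : ℝ => r ^ (2 + 2 * j) * nodeR S k r) ∩ Set.Ioi 0 := by
      intro r hr
      exact ⟨(hpos r hr).ne', hr⟩
    refine lt_of_lt_of_le ?_ (measure_mono hsub)
    rw [Real.volume_Ioi]
    exact ENNReal.zero_lt_top
  · filter_upwards [self_mem_ae_restrict measurableSet_Ioi] with r hr
    exact (hpos r hr).le
  · exact mu_integrable hS hk j

private theorem A4_binP (k n : ℕ) :
    ((binP (k + 1)).map (algebraMap ℚ ℝ)).eval ((n : ℝ) + ((k + 1 : ℕ) : ℝ) / 2) =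
      ((n + k).choose k : ℝ) := by
  have h1 : ((binP (k + 1)).map (algebraMap ℚ ℝ)).eval ((n : ℝ) + ((k + 1 : ℕ) : ℝ) / 2) =
      1 / (k.factorial : ℝ) * ∏ i ∈ range k, (((n + k - i : ℕ)) : ℝ) := by
    unfold binP
    rw [Nat.add_sub_cancel, Polynomial.map_mul, Polynomial.map_prod, Polynomial.eval_mul,
      Polynomial.eval_prod]
    congr 1
    · simp
    · refine Finset.prod_congr rfl fun i hi => ?_
      have hi' := Finset.mem_range.1 hi
      rw [Nat.cast_sub (by omega)]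
      simp
      ring
  rw [h1, ← Nat.cast_prod, ← Nat.descFactorial_eq_prod_range,
    Nat.descFactorial_eq_factorial_mul_choose]
  push_cast
  have : (k.factorial : ℝ) ≠ 0 := by positivity
  field_simp

/-- the moments as sums -/
theorem mu_eq_tsum {S : Finset ℕ} (hS : IsLeaf S) {k : ℕ} (hk : 1 ≤ k) (j : ℕ) :
    mu S k j = (∏ p ∈ S, (p : ℝ)) * ((ex S k j).factorial : ℝ) *
      ∑ T ∈ S.powerset, (-1) ^ (S \ T).card * ∑' n : ℕ,
        ((binP k).map (algebraMap ℚ ℝ)).eval ((n : ℝ) + k / 2) /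
          ((n : ℝ) + k / 2 - (al S T : ℝ)) ^ (ex S k j + 1) := by
  obtain ⟨k, rfl⟩ : ∃ k', k = k' + 1 := ⟨k - 1, by omega⟩
  unfold mu
  rw [setIntegral_congr_fun measurableSet_Ioi fun r hr => A4_node hS (k + 1) j hr,
    integral_const_mul, integral_finsetSum _ fun T hT => (A4_GI hS hk j hT).const_mul _, mul_assoc]
  congr 1
  rw [Finset.mul_sum]
  refine Finset.sum_congr rfl fun T hT => ?_
  rw [integral_const_mul, A4_integral (A4_ex hS (k + 1) j) (A4_al_le hS hT),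
    mul_left_comm ((ex S (k + 1) j).factorial : ℝ)]
  refine congrArg (fun x : ℝ => (-1) ^ (S \ T).card * x) ?_
  rw [← tsum_mul_left]
  refine tsum_congr fun n => ?_
  rw [A4_binP]
  ring

end Pool.Agent.GSP
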