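import Mathlib

set_option autoImplicit false

open Finset

namespace Pool.Agent.GSP

open Polynomial in
private theorem A1_powerset_map {α β : Type*} (f : α → β) (s : Multiset α) :
    (s.map f).powerset = s.powerset.map (Multiset.map f) := by
  induction s using Multiset.induction_on with
  | empty => simp
  | cons a s ih =>
    rw [Multiset.map_cons, Multiset.powerset_cons, ih, Multiset.powerset_cons, Multiset.map_add,
      Multiset.map_map, Multiset.map_map]
    congr 1
    refine Multiset.map_congr rfl fun t _ => by simp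

private theorem A1_expand {α : Type*} (f : α → ℂ) (s : Multiset α) :
    (s.map fun a => f a + 1).prod = (s.powerset.map fun t => (t.map f).prod).sum := by
  induction s using Multiset.induction_on with
  | empty => simp
  | cons a s ih =>
    rw [Multiset.map_cons, Multiset.prod_cons, ih, Multiset.powerset_cons, Multiset.map_add,
      Multiset.sum_add, Multiset.map_map]
    have : (Multiset.map ((fun t => (Multiset.map f t).prod) ∘ Multiset.cons a) s.powerset) =
        (s.powerset.map fun t => f a * (t.map f).prod) :=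
      Multiset.map_congr rfl fun t _ => by simp
    rw [this, Multiset.sum_map_mul_left]
    ring

open Polynomial in
private theorem A1_fix {E : Type*} [Field E] [Algebra ℚ E] [IsGalois ℚ E] {S : Multiset E}
    (hS : ∀ σ : E ≃ₐ[ℚ] E, S.map σ = S) :
    ∃ g : ℚ[X], g.map (algebraMap ℚ E) = (S.map fun s => X - C s).prod := by
  have h1 : ∀ σ : E ≃ₐ[ℚ] E, ((S.map fun s => X - C s).prod).map (σ : E →+* E) =
      (S.map fun s => X - C s).prod := by
    intro σ
    rw [Polynomial.map_multiset_prod, Multiset.map_map]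
    conv_rhs => rw [← hS σ, Multiset.map_map]
    congr 1
    refine Multiset.map_congr rfl fun s _ => by simp
  have h2 : (S.map fun s => X - C s).prod ∈ Polynomial.lifts (algebraMap ℚ E) := by
    rw [Polynomial.lifts_iff_coeff_lifts]
    intro n
    rw [InfiniteGalois.mem_range_algebraMap_iff_fixed]
    intro σ
    have := congrArg (fun q => coeff q n) (h1 σ)
    simpa [coeff_map] using this
  exact (Polynomial.mem_lifts _).1 h2

open Polynomial in
private theorem A1_int {E : Type*} [Field E] [Algebra ℚ E] {a : ℤ} {s : E}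
    (hs : IsIntegral ℤ ((a : E) * s)) (gp : ℤ[X]) {m : ℕ} (hm : gp.natDegree ≤ m) :
    IsIntegral ℤ ((a : E) ^ m * aeval s gp) := by
  rw [aeval_eq_sum_range, mul_sum]
  refine IsIntegral.sum _ fun i hi => ?_
  have hi' : i ≤ m := by
    rw [mem_range] at hi
    omega
  have e : (a : E) ^ m * gp.coeff i • s ^ i =
      ((gp.coeff i * a ^ (m - i) : ℤ) : E) * ((a : E) * s) ^ i := by
    rw [zsmul_eq_mul]
    push_cast
    have : (a : E) ^ m = (a : E) ^ (m - i) * (a : E) ^ i := by
      rw [← pow_add, Nat.sub_add_cancel hi']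
    rw [this]
    ring
  rw [e]
  refine IsIntegral.mul ?_ (hs.pow _)
  exact isIntegral_algebraMap (R := ℤ) (A := E) (x := gp.coeff i * a ^ (m - i))

open Polynomial in
private theorem A1_sumInt {E : Type*} [Field E] [Algebra ℚ E] [IsGalois ℚ E] {S : Multiset E}
    (hS : ∀ σ : E ≃ₐ[ℚ] E, S.map σ = S) {a : ℤ} (ha : ∀ s ∈ S, IsIntegral ℤ ((a : E) * s))
    (gp : ℤ[X]) {m : ℕ} (hm : gp.natDegree ≤ m) :
    ∃ z : ℤ, (z : E) = (a : E) ^ m * (S.map fun s => aeval s gp).sum := by
  have h1 : IsIntegral ℤ ((a : E) ^ m * (S.map fun s => aeval s gp).sum) := by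
    rw [← Multiset.sum_map_mul_left]
    refine IsIntegral.multiset_sum fun x hx => ?_
    obtain ⟨s, hs, rfl⟩ := Multiset.mem_map.1 hx
    exact A1_int (ha s hs) gp hm
  have h2 : ((a : E) ^ m * (S.map fun s => aeval s gp).sum) ∈ Set.range (algebraMap ℚ E) := by
    rw [InfiniteGalois.mem_range_algebraMap_iff_fixed]
    intro σ
    rw [map_mul, map_pow, map_intCast, map_multiset_sum, Multiset.map_map]
    congr 2
    conv_rhs => rw [← hS σ, Multiset.map_map]
    refine Multiset.map_congr rfl fun s _ => ?_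
    simp only [Function.comp_apply]
    exact (Polynomial.aeval_algHom_apply ((σ : E →ₐ[ℚ] E).restrictScalars ℤ) s gp).symm
  obtain ⟨y, hy⟩ := h2
  rw [← hy] at h1 ⊢
  have h3 : IsIntegral ℤ y := (isIntegral_algebraMap_iff (algebraMap ℚ E).injective).1 h1
  obtain ⟨z, hz⟩ := IsIntegrallyClosed.isIntegral_iff.1 h3
  refine ⟨z, ?_⟩
  rw [← hz]
  simp

open Polynomial in
private theorem A1_core {E : Type*} [Field E] [Algebra ℚ E] [IsGalois ℚ E] (ι : E →+* ℂ)
    {S : Multiset E} (hS : ∀ σ : E ≃ₐ[ℚ] E, S.map σ = S) (h0 : (0 : E) ∉ S) {k : ℕ} (hk : k ≠ 0)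
    (hsum : (k : ℂ) + (S.map fun s => Complex.exp (ι s)).sum = 0) : False := by
  obtain ⟨g₀, hg₀⟩ := A1_fix hS
  obtain ⟨b, hb, hg⟩ := IsLocalization.integerNormalization_spec (nonZeroDivisors ℤ) g₀
  set g : ℤ[X] := IsLocalization.integerNormalization (nonZeroDivisors ℤ) g₀ with hgdef
  have hb0 : b ≠ 0 := nonZeroDivisors.ne_zero hb
  have hbE : (b : E) ≠ 0 := by
    have : CharZero E := algebraRat.charZero E
    exact_mod_cast hb0
  have hgE : g.map (algebraMap ℤ E) = C (b : E) * (S.map fun s => X - C s).prod := by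
    rw [← hg₀, IsScalarTower.algebraMap_eq ℤ ℚ E, ← Polynomial.map_map, hg]
    rw [zsmul_eq_mul, Polynomial.map_mul]
    simp
  have hroot : ∀ s ∈ S, aeval s g = 0 := by
    intro s hs
    rw [aeval_def, eval₂_eq_eval_map, hgE, eval_mul, eval_multiset_prod, Multiset.map_map]
    have : (0 : E) ∈ S.map (eval s ∘ fun s => X - C s) :=
      Multiset.mem_map.2 ⟨s, hs, by simp⟩
    rw [Multiset.prod_eq_zero this, mul_zero]
  have hg0 : g.eval 0 ≠ 0 := by
    intro h
    have h1 : (g.map (algebraMap ℤ E)).eval 0 = 0 := by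
      rw [eval_map, ← aeval_def, ← coeff_zero_eq_aeval_zero', coeff_zero_eq_eval_zero, h]
      simp
    rw [hgE, eval_mul, eval_multiset_prod, Multiset.map_map, eval_C] at h1
    rcases mul_eq_zero.1 h1 with h2 | h2
    · exact hbE h2
    · rw [Multiset.prod_eq_zero_iff, Multiset.mem_map] at h2
      obtain ⟨s, hs, h3⟩ := h2
      simp at h3
      rw [h3] at hs
      exact h0 hs
  have hgne : g ≠ 0 := by
    rintro h
    rw [h] at hg0
    simp at hg0
  obtain ⟨c, hc⟩ := LindemannWeierstrass.exp_polynomial_approx g hg0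
  set a : ℤ := g.leadingCoeff with ha
  have ha0 : a ≠ 0 := leadingCoeff_ne_zero.2 hgne
  have haint : ∀ s ∈ S, IsIntegral ℤ ((a : E) * s) := by
    intro s hs
    have := isIntegral_leadingCoeff_smul g s (hroot s hs)
    rwa [zsmul_eq_mul] at this
  have har : ∀ s ∈ S, ι s ∈ g.aroots ℂ := by
    intro s hs
    rw [mem_aroots]
    refine ⟨hgne, ?_⟩
    have := congrArg ι (hroot s hs)
    rw [map_zero] at this
    rw [← this]
    have h2 := Polynomial.aeval_algHom_apply (ι.toIntAlgHom) s g
    exact h2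
  -- the limit
  set d : ℕ := g.natDegree with hd
  set D : ℝ := ((S.card : ℕ) : ℝ) with hD
  set A : ℝ := |(a : ℝ)| ^ d * |c| with hA
  have hlim : Filter.Tendsto (fun n : ℕ => D * A * (A ^ n / n.factorial)) Filter.atTop
      (nhds 0) := by
    have := (FloorSemiring.tendsto_pow_div_factorial_atTop A).const_mul (D * A)
    rwa [mul_zero] at this
  obtain ⟨N, hN⟩ := Filter.eventually_atTop.1 (hlim.eventually (gt_mem_nhds one_pos))
  obtain ⟨p, hpN, hp⟩ := Nat.exists_infinite_primes
    (N + 1 + (eval 0 g).natAbs + a.natAbs + k + 1)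
  obtain ⟨n, hn, gp, hgp, happ⟩ := hc p (by omega) hp
  obtain ⟨z, hz⟩ := A1_sumInt hS haint gp (m := p * d) (hgp.trans (Nat.sub_le _ _))
  have hzC : (z : ℂ) = (a : ℂ) ^ (p * d) * (S.map fun s => aeval (ι s) gp).sum := by
    have := congrArg ι hz
    rw [map_intCast, map_mul, map_pow, map_intCast, map_multiset_sum, Multiset.map_map] at this
    rw [this]
    congr 2
    refine Multiset.map_congr rfl fun s _ => ?_
    simp only [Function.comp_apply]
    exact (Polynomial.aeval_algHom_apply (ι.toIntAlgHom) s gp).symm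
  have hsmall : ‖(S.map fun s => (n • Complex.exp (ι s) - p • aeval (ι s) gp)).sum‖ ≤
      D * (|c| ^ p / (p - 1).factorial) := by
    refine (norm_multiset_sum_le _).trans ?_
    rw [Multiset.map_map]
    have h1 := Multiset.sum_le_card_nsmul
      (S.map ((fun x => ‖x‖) ∘ fun s => (n • Complex.exp (ι s) - p • aeval (ι s) gp)))
      (|c| ^ p / (p - 1).factorial) (by
        intro x hx
        obtain ⟨s, hs, rfl⟩ := Multiset.mem_map.1 hx
        refine (happ (har s hs)).trans ?_
        refine div_le_div_of_nonneg_right ?_ (by positivity)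
        rw [← abs_pow]
        exact le_abs_self _)
    rw [Multiset.card_map, nsmul_eq_mul] at h1
    exact h1
  have hkey : ((a ^ (p * d) * (n * k) + p * z : ℤ) : ℂ) =
      -((a : ℂ) ^ (p * d) * (S.map fun s => (n • Complex.exp (ι s) - p • aeval (ι s) gp)).sum) := by
    have h1 : (S.map fun s => (n • Complex.exp (ι s) - p • aeval (ι s) gp)).sum =
        n * (S.map fun s => Complex.exp (ι s)).sum - p * (S.map fun s => aeval (ι s) gp).sum := by
      rw [← Multiset.sum_map_mul_left, ← Multiset.sum_map_mul_left, ← Multiset.sum_map_sub]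
      congr 1
      refine Multiset.map_congr rfl fun s _ => ?_
      rw [zsmul_eq_mul, nsmul_eq_mul]
    rw [h1]
    push_cast
    rw [hzC]
    have h2 : (S.map fun s => Complex.exp (ι s)).sum = -(k : ℂ) := by
      linear_combination hsum
    rw [h2]
    ring
  have hlt : |((a ^ (p * d) * (n * k) + p * z : ℤ) : ℝ)| < 1 := by
    have h1 : |((a ^ (p * d) * (n * k) + p * z : ℤ) : ℝ)| =
        ‖((a ^ (p * d) * (n * k) + p * z : ℤ) : ℂ)‖ := by
      rw [Complex.norm_intCast]
    rw [h1, hkey, norm_neg, norm_mul, norm_pow, Complex.norm_intCast]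
    have hp1 : p - 1 + 1 = p := Nat.sub_add_cancel hp.one_le
    calc |(a : ℝ)| ^ (p * d) *
          ‖(S.map fun s => (n • Complex.exp (ι s) - p • aeval (ι s) gp)).sum‖ ≤
        |(a : ℝ)| ^ (p * d) * (D * (|c| ^ p / (p - 1).factorial)) :=
          mul_le_mul_of_nonneg_left hsmall (by positivity)
      _ = D * (A ^ p / (p - 1).factorial) := by
          rw [hA, mul_pow, ← pow_mul, mul_comm d p]
          ring
      _ = D * A * (A ^ (p - 1) / (p - 1).factorial) := by
          have : A ^ p = A ^ (p - 1) * A := by rw [← pow_succ, hp1]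
          rw [this]
          ring
      _ < 1 := hN (p - 1) (by omega)
  have hzero : a ^ (p * d) * (n * k) + p * z = 0 := by
    have h1 : |a ^ (p * d) * (n * k) + p * z| < 1 := by exact_mod_cast hlt
    exact Int.abs_lt_one_iff.1 h1
  have hdvd : (p : ℤ) ∣ a ^ (p * d) * (n * k) := ⟨-z, by linear_combination hzero⟩
  have hpI : Prime (p : ℤ) := Nat.prime_iff_prime_int.1 hp
  rcases hpI.dvd_or_dvd hdvd with h1 | h1
  · have h2 := hpI.dvd_of_dvd_pow h1
    have h3 := Int.le_of_dvd (Int.natAbs_pos.2 ha0 |> fun h => by exact_mod_cast h)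
      ((Int.dvd_natAbs).2 h2)
    omega
  · rcases hpI.dvd_or_dvd h1 with h2 | h2
    · exact hn h2
    · have h3 := Nat.le_of_dvd (Nat.pos_of_ne_zero hk) (by exact_mod_cast h2)
      omega

open Polynomial in
private theorem A1_main {E : Type} [Field E] [Algebra ℚ E] [IsAlgClosure ℚ E] {q : ℚ[X]}
    (hq : q ≠ 0) (hπ : aeval ((Real.pi : ℂ) * Complex.I) q = 0) : False := by
  classical
  have hAC : IsAlgClosed E := IsAlgClosure.isAlgClosed ℚ
  have hAlg : Algebra.IsAlgebraic ℚ E := IsAlgClosure.isAlgebraic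
  let ι : E →ₐ[ℚ] ℂ := IsAlgClosed.lift
  have hspl : (q.map (algebraMap ℚ E)).Splits := IsAlgClosed.splits _
  set B : Multiset E := q.aroots E with hB
  have hBC : q.aroots ℂ = B.map ι := by
    have h1 := hspl.roots_map (ι : E →+* ℂ)
    rw [Polynomial.map_map] at h1
    have h2 : (ι : E →+* ℂ).comp (algebraMap ℚ E) = algebraMap ℚ ℂ := ι.comp_algebraMap
    rw [h2] at h1
    exact h1
  have hmem : (Real.pi : ℂ) * Complex.I ∈ B.map ι := by
    rw [← hBC, mem_aroots]
    exact ⟨hq, hπ⟩
  obtain ⟨b₀, hb₀, hb₀'⟩ := Multiset.mem_map.1 hmem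
  have hBinv : ∀ σ : E ≃ₐ[ℚ] E, B.map σ = B := by
    intro σ
    have h1 := hspl.roots_map (σ : E →+* E)
    rw [Polynomial.map_map] at h1
    have h2 : (σ : E →+* E).comp (algebraMap ℚ E) = algebraMap ℚ E :=
      (σ : E →ₐ[ℚ] E).comp_algebraMap
    rw [h2] at h1
    exact h1.symm
  have hprod : (B.map fun b => Complex.exp (ι b) + 1).prod = 0 := by
    refine Multiset.prod_eq_zero (Multiset.mem_map.2 ⟨b₀, hb₀, ?_⟩)
    rw [hb₀', Complex.exp_pi_mul_I]
    ring
  set S0 : Multiset E := B.powerset.map Multiset.sum with hS0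
  have hsum0 : (S0.map fun s => Complex.exp (ι s)).sum = 0 := by
    rw [A1_expand] at hprod
    rw [← hprod, hS0, Multiset.map_map]
    congr 1
    refine Multiset.map_congr rfl fun t _ => ?_
    simp only [Function.comp_apply]
    rw [map_multiset_sum, Complex.exp_multiset_sum, Multiset.map_map]
    rfl
  have hS0inv : ∀ σ : E ≃ₐ[ℚ] E, S0.map σ = S0 := by
    intro σ
    rw [hS0, Multiset.map_map]
    conv_rhs => rw [← hBinv σ, A1_powerset_map, Multiset.map_map]
    refine Multiset.map_congr rfl fun t _ => ?_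
    simp only [Function.comp_apply]
    rw [map_multiset_sum]
  have hsplit : (S0.map fun s => Complex.exp (ι s)).sum =
      ((S0.filter fun s => s = 0).card : ℂ) +
        ((S0.filter fun s => ¬ s = 0).map fun s => Complex.exp (ι s)).sum := by
    conv_lhs => rw [← Multiset.filter_add_not (fun s => s = 0) S0]
    rw [Multiset.map_add, Multiset.sum_add]
    congr 1
    have : ((S0.filter fun s => s = 0).map fun s => Complex.exp (ι s)) =
        (S0.filter fun s => s = 0).map fun _ => (1 : ℂ) := by
      refine Multiset.map_congr rfl fun s hs => ?_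
      rw [(Multiset.mem_filter.1 hs).2, map_zero, Complex.exp_zero]
    rw [this]
    simp
  rw [hsum0] at hsplit
  refine A1_core (E := E) (ι : E →+* ℂ) (S := S0.filter fun s => ¬ s = 0)
    (k := (S0.filter fun s => s = 0).card) ?_ ?_ ?_ hsplit.symm
  · intro σ
    conv_rhs => rw [← hS0inv σ, Multiset.filter_map]
    congr 1
    refine Multiset.filter_congr fun s _ => ?_
    simp
  · intro h
    exact (Multiset.mem_filter.1 h).2 rfl
  · have : (0 : E) ∈ S0.filter fun s => s = 0 := by
      rw [Multiset.mem_filter, hS0, Multiset.mem_map]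
      exact ⟨⟨0, Multiset.mem_powerset.2 (Multiset.zero_le _), by simp⟩, rfl⟩
    exact (Multiset.card_pos_iff_exists_mem.2 ⟨_, this⟩).ne'

private theorem A1_exists (k : Type) [Field k] :
    ∃ (E : Type) (_ : Field E) (_ : Algebra k E), IsAlgClosure k E :=
  ⟨AlgebraicClosure k, inferInstance, inferInstance, inferInstance⟩

/-- `π` is transcendental. -/
theorem pi_transcendental (p : Polynomial ℚ) (h : Polynomial.aeval (Real.pi : ℂ) p = 0) :
    p = 0 := by
  by_contra hp
  have h1 : IsAlgebraic ℚ (Real.pi : ℂ) := ⟨p, hp, h⟩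
  have h2 : IsAlgebraic ℚ Complex.I := by
    refine ⟨Polynomial.X ^ 2 + 1, ?_, ?_⟩
    · exact (Polynomial.monic_X_pow_add_C (1 : ℚ) two_ne_zero).ne_zero
    · simp
  obtain ⟨q, hq, hq'⟩ := h1.mul h2
  obtain ⟨E, i1, i2, i3⟩ := A1_exists ℚ
  exact A1_main (E := E) hq hq'

end Pool.Agent.GSP
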