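import Pool.Agent.GSP.Defs
import Pool.Agent.GSP.A1

set_option autoImplicit false

open Finset

namespace Pool.Agent.GSP

variable {N : ℕ} {s : ℤ}

/-- the value of the inner polynomial -/
private noncomputable def A2_ph (z : ℂ) : Polynomial ℚ →+* ℂ :=
  Polynomial.eval₂RingHom (algebraMap ℚ ℂ) z

private theorem A2_alg {z : ℂ} (hz : IsAlgebraic ℚ z) (P : Polynomial (Polynomial ℚ)) :
    Polynomial.eval₂ (A2_ph z) (Real.pi : ℂ) P = 0 ↔ ∀ i, A2_ph z (P.coeff i) = 0 := by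
  constructor
  · intro h
    have hzS : z ∈ algebraicClosure ℚ ℂ := by
      rw [mem_algebraicClosure_iff]
      exact hz
    obtain ⟨ψ, hψ⟩ : ∃ ψ : Polynomial ℚ →+* (algebraicClosure ℚ ℂ),
        (algebraMap (algebraicClosure ℚ ℂ) ℂ).comp ψ = A2_ph z := by
      refine ⟨Polynomial.eval₂RingHom (algebraMap ℚ (algebraicClosure ℚ ℂ)) ⟨z, hzS⟩, ?_⟩
      refine Polynomial.ringHom_ext (fun a => ?_) ?_
      · show (algebraMap (algebraicClosure ℚ ℂ) ℂ) (Polynomial.eval₂
          (algebraMap ℚ (algebraicClosure ℚ ℂ)) ⟨z, hzS⟩ (Polynomial.C a)) =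
          Polynomial.eval₂ (algebraMap ℚ ℂ) z (Polynomial.C a)
        rw [Polynomial.eval₂_C, Polynomial.eval₂_C]
        rfl
      · show (algebraMap (algebraicClosure ℚ ℂ) ℂ) (Polynomial.eval₂
          (algebraMap ℚ (algebraicClosure ℚ ℂ)) ⟨z, hzS⟩ Polynomial.X) =
          Polynomial.eval₂ (algebraMap ℚ ℂ) z Polynomial.X
        rw [Polynomial.eval₂_X, Polynomial.eval₂_X]
        rfl
    have h1 : Polynomial.aeval (Real.pi : ℂ) (P.map ψ) = 0 := by
      rw [Polynomial.aeval_def, Polynomial.eval₂_map, hψ]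
      exact h
    have h2 : P.map ψ = 0 := by
      by_contra hne
      have h3 : IsAlgebraic (algebraicClosure ℚ ℂ) (Real.pi : ℂ) := ⟨P.map ψ, hne, h1⟩
      have : Algebra.IsAlgebraic ℚ (algebraicClosure ℚ ℂ) := algebraicClosure.isAlgebraic ℚ ℂ
      have h4 : IsAlgebraic ℚ (Real.pi : ℂ) := h3.restrictScalars ℚ
      obtain ⟨q, hq, hq'⟩ := h4
      exact hq (pi_transcendental q hq')
    intro i
    have h3 : ψ (P.coeff i) = 0 := by
      have := congrArg (fun q => Polynomial.coeff q i) h2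
      simpa using this
    rw [← hψ, RingHom.comp_apply, h3, map_zero]
  · intro h
    rw [Polynomial.eval₂_eq_sum]
    unfold Polynomial.sum
    refine sum_eq_zero fun i _ => ?_
    show A2_ph z (P.coeff i) * _ = 0
    rw [h i, zero_mul]

private theorem A2_zt_eq (N : ℕ) (s : ℤ) :
    zt N s = Complex.exp (2 * Real.pi * Complex.I * (s / N)) := by
  unfold zt
  congr 1
  ring

private theorem A2_prim (hN : 0 < N) (hs : IsCoprime s (N : ℤ)) : IsPrimitiveRoot (zt N s) N := by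
  rw [A2_zt_eq]
  exact Complex.isPrimitiveRoot_exp_of_isCoprime s N hN.ne' hs

private theorem A2_root (hN : 0 < N) (hs : IsCoprime s (N : ℤ)) (p : Polynomial ℚ) :
    A2_ph (zt N 1) p = 0 ↔ A2_ph (zt N s) p = 0 := by
  have h1 := A2_prim hN (s := 1) isCoprime_one_left
  have h2 := A2_prim hN hs
  have e1 : A2_ph (zt N 1) p = Polynomial.aeval (zt N 1) p := rfl
  have e2 : A2_ph (zt N s) p = Polynomial.aeval (zt N s) p := rfl
  rw [e1, e2, ← minpoly.dvd_iff, ← minpoly.dvd_iff,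
    ← Polynomial.cyclotomic_eq_minpoly_rat h1 hN, ← Polynomial.cyclotomic_eq_minpoly_rat h2 hN]

private theorem A2_zt_ne (N : ℕ) (s : ℤ) : zt N s ≠ 0 := Complex.exp_ne_zero _

private theorem A2_chi (s : ℤ) : chi s ≠ 0 := div_ne_zero (A2_zt_ne 4 s) Complex.I_ne_zero

private theorem A2_gn (N : ℕ) (s : ℤ) (P : Polynomial (Polynomial ℚ)) :
    gn N s P = algebraMap (Polynomial ℂ) (RatFunc ℂ)
      ((P.map (A2_ph (zt N s))).comp (Polynomial.C (chi s) * Polynomial.X)) := by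
  have h : gn N s = (algebraMap (Polynomial ℂ) (RatFunc ℂ)).comp
      (Polynomial.eval₂RingHom (Polynomial.C.comp (A2_ph (zt N s)))
        (Polynomial.C (chi s) * Polynomial.X)) := by
    refine Polynomial.ringHom_ext' ?_ ?_
    · refine Polynomial.ringHom_ext' ?_ ?_
      · exact RingHom.ext_rat _ _
      · show Polynomial.eval₂ (Polynomial.eval₂RingHom (algebraMap ℚ (RatFunc ℂ))
          (RatFunc.C (zt N s))) (RatFunc.C (chi s) * RatFunc.X) (Polynomial.C Polynomial.X) =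
          algebraMap (Polynomial ℂ) (RatFunc ℂ) (Polynomial.eval₂
            (Polynomial.C.comp (A2_ph (zt N s))) (Polynomial.C (chi s) * Polynomial.X)
            (Polynomial.C Polynomial.X))
        rw [Polynomial.eval₂_C, Polynomial.eval₂_C]
        show Polynomial.eval₂ (algebraMap ℚ (RatFunc ℂ)) (RatFunc.C (zt N s)) Polynomial.X =
          algebraMap (Polynomial ℂ) (RatFunc ℂ) (Polynomial.C
            (Polynomial.eval₂ (algebraMap ℚ ℂ) (zt N s) Polynomial.X))
        rw [Polynomial.eval₂_X, Polynomial.eval₂_X, RatFunc.algebraMap_C]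
    · show Polynomial.eval₂ (Polynomial.eval₂RingHom (algebraMap ℚ (RatFunc ℂ))
          (RatFunc.C (zt N s))) (RatFunc.C (chi s) * RatFunc.X) Polynomial.X =
          algebraMap (Polynomial ℂ) (RatFunc ℂ) (Polynomial.eval₂
            (Polynomial.C.comp (A2_ph (zt N s))) (Polynomial.C (chi s) * Polynomial.X)
            Polynomial.X)
      rw [Polynomial.eval₂_X, Polynomial.eval₂_X, map_mul, RatFunc.algebraMap_C,
        RatFunc.algebraMap_X]
  rw [h]
  show algebraMap (Polynomial ℂ) (RatFunc ℂ) (Polynomial.eval₂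
    (Polynomial.C.comp (A2_ph (zt N s))) (Polynomial.C (chi s) * Polynomial.X) P) = _
  congr 1
  rw [Polynomial.comp, Polynomial.eval₂_map]

theorem ev_gn (hN : 0 < N) (hs : IsCoprime s (N : ℤ)) (P : Polynomial (Polynomial ℚ)) :
    ev N P = 0 ↔ gn N s P = 0 := by
  have h1 := A2_prim hN (s := 1) isCoprime_one_left
  have hz : IsAlgebraic ℚ (zt N 1) := ((h1.isIntegral hN).tower_top (A := ℚ)).isAlgebraic
  have e1 : ev N P = Polynomial.eval₂ (A2_ph (zt N 1)) (Real.pi : ℂ) P := rfl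
  rw [e1, A2_alg hz, A2_gn]
  rw [map_eq_zero_iff _ (RatFunc.algebraMap_injective ℂ)]
  constructor
  · intro h
    ext i
    rw [Polynomial.comp_C_mul_X_coeff, Polynomial.coeff_map,
      (A2_root hN hs (P.coeff i)).1 (h i), zero_mul, Polynomial.coeff_zero]
  · intro h i
    have h2 := congrArg (fun q => Polynomial.coeff q i) h
    rw [Polynomial.comp_C_mul_X_coeff, Polynomial.coeff_map, Polynomial.coeff_zero] at h2
    rcases mul_eq_zero.1 h2 with h3 | h3
    · exact (A2_root hN hs (P.coeff i)).2 h3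
    · exact absurd h3 (pow_ne_zero _ (A2_chi s))

theorem Gal.unique (hN : 0 < N) (hs : IsCoprime s (N : ℤ)) {x : ℂ} {y z : RatFunc ℂ}
    (h : Gal N s x y) (h' : Gal N s x z) : y = z := by
  obtain ⟨A, B, hB, h1, h2⟩ := h
  obtain ⟨A', B', hB', h1', h2'⟩ := h'
  have h3 : ev N (A * B' - A' * B) = 0 := by
    rw [map_sub, map_mul, map_mul, ← h1, ← h1']
    ring
  have h4 := (ev_gn hN hs _).1 h3
  rw [map_sub, map_mul, map_mul, ← h2, ← h2'] at h4
  have h5 : (y - z) * (gn N s B * gn N s B') = 0 := by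
    rw [← h4]
    ring
  rcases mul_eq_zero.1 h5 with h6 | h6
  · exact sub_eq_zero.1 h6
  · exact absurd h6 (mul_ne_zero hB hB')

/-- injectivity -/
theorem Gal.inj (hN : 0 < N) (hs : IsCoprime s (N : ℤ)) {x z : ℂ} {y : RatFunc ℂ}
    (h : Gal N s x y) (h' : Gal N s z y) : x = z := by
  obtain ⟨A, B, hB, h1, h2⟩ := h
  obtain ⟨A', B', hB', h1', h2'⟩ := h'
  have h3 : gn N s (A * B' - A' * B) = 0 := by
    rw [map_sub, map_mul, map_mul, ← h2, ← h2']
    ring
  have h4 := (ev_gn hN hs _).2 h3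
  rw [map_sub, map_mul, map_mul, ← h1, ← h1'] at h4
  have h5 : (x - z) * (ev N B * ev N B') = 0 := by
    rw [← h4]
    ring
  rcases mul_eq_zero.1 h5 with h6 | h6
  · exact sub_eq_zero.1 h6
  · exact absurd h6 (mul_ne_zero (fun h7 => hB ((ev_gn hN hs _).1 h7))
      (fun h7 => hB' ((ev_gn hN hs _).1 h7)))

private theorem A2_rat (N : ℕ) (s : ℤ) (a : ℚ) : Gal N s (a : ℂ) (a : RatFunc ℂ) := by
  refine ⟨Polynomial.C (Polynomial.C a), 1, ?_, ?_, ?_⟩
  · rw [map_one]
    exact one_ne_zero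
  · rw [map_one, mul_one]
    show (a : ℂ) = Polynomial.eval₂ (Polynomial.eval₂RingHom (algebraMap ℚ ℂ) (zt N 1))
      (Real.pi : ℂ) (Polynomial.C (Polynomial.C a))
    rw [Polynomial.eval₂_C]
    show (a : ℂ) = Polynomial.eval₂ (algebraMap ℚ ℂ) (zt N 1) (Polynomial.C a)
    rw [Polynomial.eval₂_C, eq_ratCast]
  · rw [map_one, mul_one]
    show (a : RatFunc ℂ) = Polynomial.eval₂ (Polynomial.eval₂RingHom (algebraMap ℚ (RatFunc ℂ))
      (RatFunc.C (zt N s))) (RatFunc.C (chi s) * RatFunc.X) (Polynomial.C (Polynomial.C a))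
    rw [Polynomial.eval₂_C]
    show (a : RatFunc ℂ) = Polynomial.eval₂ (algebraMap ℚ (RatFunc ℂ)) (RatFunc.C (zt N s))
      (Polynomial.C a)
    rw [Polynomial.eval₂_C, eq_ratCast]

theorem Gal.rat (hN : 0 < N) (hs : IsCoprime s (N : ℤ)) (a : ℚ) :
    Gal N s (a : ℂ) (a : RatFunc ℂ) :=
  A2_rat N s a

theorem Gal.of_ev (hN : 0 < N) (hs : IsCoprime s (N : ℤ)) (P : Polynomial (Polynomial ℚ)) :
    Gal N s (ev N P) (gn N s P) :=
  ⟨P, 1, by rw [map_one]; exact one_ne_zero, by rw [map_one, mul_one], by rw [map_one, mul_one]⟩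

theorem Gal.add (hN : 0 < N) (hs : IsCoprime s (N : ℤ)) {x x' : ℂ} {y y' : RatFunc ℂ}
    (h : Gal N s x y) (h' : Gal N s x' y') : Gal N s (x + x') (y + y') := by
  obtain ⟨A, B, hB, h1, h2⟩ := h
  obtain ⟨A', B', hB', h1', h2'⟩ := h'
  refine ⟨A * B' + A' * B, B * B', ?_, ?_, ?_⟩
  · rw [map_mul]
    exact mul_ne_zero hB hB'
  · rw [map_add, map_mul, map_mul, map_mul, ← h1, ← h1']
    ring
  · rw [map_add, map_mul, map_mul, map_mul, ← h2, ← h2']
    ring

theorem Gal.neg (hN : 0 < N) (hs : IsCoprime s (N : ℤ)) {x : ℂ} {y : RatFunc ℂ}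
    (h : Gal N s x y) : Gal N s (-x) (-y) := by
  obtain ⟨A, B, hB, h1, h2⟩ := h
  refine ⟨-A, B, hB, ?_, ?_⟩
  · rw [map_neg, ← h1]
    ring
  · rw [map_neg, ← h2]
    ring

theorem Gal.sub (hN : 0 < N) (hs : IsCoprime s (N : ℤ)) {x x' : ℂ} {y y' : RatFunc ℂ}
    (h : Gal N s x y) (h' : Gal N s x' y') : Gal N s (x - x') (y - y') := by
  rw [sub_eq_add_neg, sub_eq_add_neg]
  exact Gal.add hN hs h (Gal.neg hN hs h')

theorem Gal.mul (hN : 0 < N) (hs : IsCoprime s (N : ℤ)) {x x' : ℂ} {y y' : RatFunc ℂ}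
    (h : Gal N s x y) (h' : Gal N s x' y') : Gal N s (x * x') (y * y') := by
  obtain ⟨A, B, hB, h1, h2⟩ := h
  obtain ⟨A', B', hB', h1', h2'⟩ := h'
  refine ⟨A * A', B * B', ?_, ?_, ?_⟩
  · rw [map_mul]
    exact mul_ne_zero hB hB'
  · rw [map_mul, map_mul, ← h1, ← h1']
    ring
  · rw [map_mul, map_mul, ← h2, ← h2']
    ring

private theorem A2_one (N : ℕ) (s : ℤ) : Gal N s 1 1 := by
  have h := A2_rat N s 1
  rwa [Rat.cast_one, Rat.cast_one] at h

private theorem A2_zero (N : ℕ) (s : ℤ) : Gal N s 0 0 := by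
  have h := A2_rat N s 0
  rwa [Rat.cast_zero, Rat.cast_zero] at h

theorem Gal.pow (hN : 0 < N) (hs : IsCoprime s (N : ℤ)) {x : ℂ} {y : RatFunc ℂ}
    (h : Gal N s x y) (n : ℕ) : Gal N s (x ^ n) (y ^ n) := by
  induction n with
  | zero =>
    rw [pow_zero, pow_zero]
    exact A2_one N s
  | succ n ih =>
    rw [pow_succ, pow_succ]
    exact Gal.mul hN hs ih h

theorem Gal.inv (hN : 0 < N) (hs : IsCoprime s (N : ℤ)) {x : ℂ} {y : RatFunc ℂ}
    (h : Gal N s x y) : Gal N s x⁻¹ y⁻¹ := by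
  obtain ⟨A, B, hB, h1, h2⟩ := h
  have hB' : ev N B ≠ 0 := fun h7 => hB ((ev_gn hN hs _).1 h7)
  by_cases hA : gn N s A = 0
  · have hA' : ev N A = 0 := (ev_gn hN hs _).2 hA
    have hx : x = 0 := by
      rw [hA'] at h1
      rcases mul_eq_zero.1 h1 with h3 | h3
      · exact h3
      · exact absurd h3 hB'
    have hy : y = 0 := by
      rw [hA] at h2
      rcases mul_eq_zero.1 h2 with h3 | h3
      · exact h3
      · exact absurd h3 hB
    rw [hx, hy, inv_zero, inv_zero]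
    exact A2_zero N s
  · have hA' : ev N A ≠ 0 := fun h7 => hA ((ev_gn hN hs _).1 h7)
    have hx : x ≠ 0 := by
      rintro rfl
      rw [zero_mul] at h1
      exact hA' h1.symm
    have hy : y ≠ 0 := by
      rintro rfl
      rw [zero_mul] at h2
      exact hA h2.symm
    refine ⟨B, A, hA, ?_, ?_⟩
    · rw [← h1, inv_mul_cancel_left₀ hx]
    · rw [← h2, inv_mul_cancel_left₀ hy]

theorem Gal.div (hN : 0 < N) (hs : IsCoprime s (N : ℤ)) {x x' : ℂ} {y y' : RatFunc ℂ}
    (h : Gal N s x y) (h' : Gal N s x' y') : Gal N s (x / x') (y / y') := by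
  rw [div_eq_mul_inv, div_eq_mul_inv]
  exact Gal.mul hN hs h (Gal.inv hN hs h')

theorem Gal.sum (hN : 0 < N) (hs : IsCoprime s (N : ℤ)) {α : Type} (A : Finset α) {x : α → ℂ}
    {y : α → RatFunc ℂ} (h : ∀ i ∈ A, Gal N s (x i) (y i)) :
    Gal N s (∑ i ∈ A, x i) (∑ i ∈ A, y i) := by
  classical
  induction A using Finset.induction_on with
  | empty =>
    rw [sum_empty, sum_empty]
    exact A2_zero N s
  | insert a A ha ih =>
    rw [sum_insert ha, sum_insert ha]
    exact Gal.add hN hs (h a (mem_insert_self a A)) (ih fun i hi => h i (mem_insert_of_mem hi))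

theorem Gal.prod (hN : 0 < N) (hs : IsCoprime s (N : ℤ)) {α : Type} (A : Finset α) {x : α → ℂ}
    {y : α → RatFunc ℂ} (h : ∀ i ∈ A, Gal N s (x i) (y i)) :
    Gal N s (∏ i ∈ A, x i) (∏ i ∈ A, y i) := by
  classical
  induction A using Finset.induction_on with
  | empty =>
    rw [prod_empty, prod_empty]
    exact A2_one N s
  | insert a A ha ih =>
    rw [prod_insert ha, prod_insert ha]
    exact Gal.mul hN hs (h a (mem_insert_self a A)) (ih fun i hi => h i (mem_insert_of_mem hi))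

end Pool.Agent.GSP
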