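import Pool.Agent.GSP.Defs
import Pool.Agent.GSP.A2

set_option autoImplicit false

open Finset

namespace Pool.Agent.GSP

variable {V R : Type} [Fintype V] [DecidableEq V] [Field R]

private theorem C1_mon (m : V → ℕ → R) (j : V →₀ ℕ) (a : R) :
    umb m (MvPolynomial.monomial j a) = a * ∏ v, m v (j v) := by
  have h1 : MvPolynomial.monomial j a = a • (MvPolynomial.basisMonomials V R) j := by
    rw [MvPolynomial.coe_basisMonomials, MvPolynomial.smul_monomial, smul_eq_mul, mul_one]
  rw [h1, map_smul, smul_eq_mul]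
  congr 1
  unfold umb
  rw [Module.Basis.constr_basis]

theorem umb_eq (m : V → ℕ → R) (f : MvPolynomial V R) :
    umb m f = ∑ j ∈ f.support, f.coeff j * ∏ v, m v (j v) := by
  conv_lhs => rw [MvPolynomial.as_sum f]
  rw [map_sum]
  exact Finset.sum_congr rfl fun j _ => C1_mon m j _

theorem umb_mul_disj {A B : Finset V} (hAB : Disjoint A B) {m mA mB : V → ℕ → R}
    {f g : MvPolynomial V R} (hf : f.vars ⊆ A) (hg : g.vars ⊆ B) (h1 : ∀ v ∈ A, m v = mA v)
    (h2 : ∀ v ∈ B, m v = mB v) (hA : ∀ v, v ∉ A → mA v 0 = 1) (hB : ∀ v, v ∉ B → mB v 0 = 1)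
    (h0 : ∀ v, v ∉ A → v ∉ B → m v 0 = 1) : umb m (f * g) = umb mA f * umb mB g := by
  have hfs : ∀ i ∈ f.support, ∀ v, v ∉ A → i v = 0 := by
    intro i hi v hv
    by_contra hne
    exact hv (hf (MvPolynomial.mem_vars v |>.2 ⟨i, hi, Finsupp.mem_support_iff.2 hne⟩))
  have hgs : ∀ i ∈ g.support, ∀ v, v ∉ B → i v = 0 := by
    intro i hi v hv
    by_contra hne
    exact hv (hg (MvPolynomial.mem_vars v |>.2 ⟨i, hi, Finsupp.mem_support_iff.2 hne⟩))
  rw [umb_eq mA f, umb_eq mB g, Finset.sum_mul_sum]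
  conv_lhs => rw [MvPolynomial.as_sum f, MvPolynomial.as_sum g, Finset.sum_mul_sum]
  rw [map_sum]
  refine Finset.sum_congr rfl fun i hi => ?_
  rw [map_sum]
  refine Finset.sum_congr rfl fun j hj => ?_
  rw [MvPolynomial.monomial_mul, C1_mon]
  have hprod : ∏ v, m v ((i + j) v) = (∏ v, mA v (i v)) * ∏ v, mB v (j v) := by
    rw [← Finset.prod_mul_distrib]
    refine Finset.prod_congr rfl fun v _ => ?_
    rw [Finsupp.add_apply]
    by_cases hvA : v ∈ A
    · have hvB : v ∉ B := Finset.disjoint_left.1 hAB hvA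
      rw [hgs j hj v hvB, hB v hvB, add_zero, mul_one, h1 v hvA]
    · rw [hfs i hi v hvA, hA v hvA, zero_add, one_mul]
      by_cases hvB : v ∈ B
      · rw [h2 v hvB]
      · rw [hgs j hj v hvB, hB v hvB, h0 v hvA hvB]
  rw [hprod]
  ring

theorem umb_shift (m : V → ℕ → R) (v : V) (b : ℕ) (f : MvPolynomial V R) :
    umb m (MvPolynomial.X v ^ b * f) = umb (Function.update m v fun j => m v (j + b)) f := by
  rw [umb_eq (Function.update m v fun j => m v (j + b)) f]
  conv_lhs => rw [MvPolynomial.as_sum f, Finset.mul_sum]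
  rw [map_sum]
  refine Finset.sum_congr rfl fun j _ => ?_
  rw [MvPolynomial.X_pow_eq_monomial, MvPolynomial.monomial_mul, C1_mon, one_mul]
  congr 1
  refine Finset.prod_congr rfl fun x _ => ?_
  rw [Finsupp.add_apply]
  by_cases hx : x = v
  · subst hx
    rw [Function.update_self, Finsupp.single_eq_same, add_comm]
  · rw [Function.update_of_ne hx, Finsupp.single_eq_of_ne hx, zero_add]

theorem umb_map {R' : Type} [Field R'] (φ : R →+* R') (m : V → ℕ → R) (f : MvPolynomial V R) :
    φ (umb m f) = umb (fun v j => φ (m v j)) (MvPolynomial.map φ f) := by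
  rw [umb_eq, map_sum]
  conv_rhs => rw [MvPolynomial.as_sum f, map_sum, map_sum]
  refine Finset.sum_congr rfl fun j _ => ?_
  rw [MvPolynomial.map_monomial, C1_mon, map_mul, map_prod]

private theorem C1_umb_map {R' : Type} [Field R'] (φ : R →+* R') (m : V → ℕ → R')
    (f : MvPolynomial V R) :
    umb m (MvPolynomial.map φ f) = ∑ j ∈ f.support, φ (f.coeff j) * ∏ v, m v (j v) := by
  conv_lhs => rw [MvPolynomial.as_sum f, map_sum, map_sum]
  refine Finset.sum_congr rfl fun j _ => ?_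
  rw [MvPolynomial.map_monomial, C1_mon]

private theorem C1_nodeW {R' : Type} [Field R'] (φ : R →+* R') (q : R) (v : V) :
    PowerSeries.map (MvPolynomial.map φ) (nodeW q v) = nodeW (φ q) v := by
  ext1 n
  unfold nodeW
  rw [PowerSeries.coeff_map, PowerSeries.coeff_mk, PowerSeries.coeff_mk, map_mul,
    MvPolynomial.map_C, map_pow, MvPolynomial.map_X, map_div₀, map_pow, map_natCast]

private theorem C1_edgeW {R' : Type} [Field R'] (φ : R →+* R') (w : R) (e : Sym2 V) :
    PowerSeries.map (MvPolynomial.map φ) (edgeW w e) = edgeW (φ w) e := by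
  ext1 n
  unfold edgeW
  rw [PowerSeries.coeff_map, PowerSeries.coeff_mk, PowerSeries.coeff_mk]
  split_ifs with hn
  · rw [map_mul, MvPolynomial.map_C, map_pow, map_prod, map_div₀, map_pow, map_natCast, map_mul,
      map_ofNat]
    congr 2
    exact Finset.prod_congr rfl fun x _ => MvPolynomial.map_X φ x
  · exact map_zero _

private theorem C1_WW {R' : Type} [Field R'] (φ : R →+* R') (A : Finset V) (E : Finset (Sym2 V))
    (q : V → R) (w : Sym2 V → R) :
    PowerSeries.map (MvPolynomial.map φ) (WW A E q w) =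
      WW A E (fun v => φ (q v)) (fun e => φ (w e)) := by
  unfold WW
  rw [map_mul, map_prod, map_prod]
  congr 1
  · exact Finset.prod_congr rfl fun v _ => C1_nodeW φ _ _
  · exact Finset.prod_congr rfl fun e _ => C1_edgeW φ _ _

/-- change of the field -/
theorem ZZ_map {R' : Type} [Field R'] (φ : R →+* R') (E : Finset (Sym2 V)) (q : V → R)
    (w : Sym2 V → R) (m : V → ℕ → R) :
    PowerSeries.map φ (ZZ E q w m) =
      ZZ E (fun v => φ (q v)) (fun e => φ (w e)) fun v j => φ (m v j) := by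
  ext1 n
  unfold ZZ ZI
  rw [PowerSeries.coeff_map, PowerSeries.coeff_mk, PowerSeries.coeff_mk, umb_map, one_mul, one_mul,
    ← C1_WW φ, PowerSeries.coeff_map]

private theorem C1_coeff {R' : Type} [Field R'] (φ : ℚ →+* R') (D : Dat V) (m : V → ℕ → R')
    (n : ℕ) :
    PowerSeries.coeff n (D.Z m) =
      ∑ j ∈ (PowerSeries.coeff n (WW univ (eds D.G) D.q D.w)).support,
        (((PowerSeries.coeff n (WW univ (eds D.G) D.q D.w)).coeff j : ℚ) : R') *
          ∏ v, m v (j v) := by
  have h1 : (fun v => ((D.q v : ℚ) : R')) = fun v => φ (D.q v) :=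
    funext fun v => (eq_ratCast φ _).symm
  have h2 : (fun e => ((D.w e : ℚ) : R')) = fun e => φ (D.w e) :=
    funext fun e => (eq_ratCast φ _).symm
  unfold Dat.Z ZZ ZI
  rw [PowerSeries.coeff_mk, one_mul, h1, h2, ← C1_WW φ, PowerSeries.coeff_map, C1_umb_map]
  refine Finset.sum_congr rfl fun j _ => ?_
  rw [eq_ratCast φ]

/-- conjugation -/
theorem ZZ_gal {N : ℕ} (hN : 0 < N) {s : ℤ} (hs : IsCoprime s (N : ℤ)) (D : Dat V)
    {m : V → ℕ → ℂ} {m' : V → ℕ → RatFunc ℂ} (hm : ∀ v j, Gal N s (m v j) (m' v j)) (n : ℕ) :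
    Gal N s (PowerSeries.coeff n (D.Z m)) (PowerSeries.coeff n (D.Z m')) := by
  rw [C1_coeff (algebraMap ℚ ℂ) D m n, C1_coeff (algebraMap ℚ (RatFunc ℂ)) D m' n]
  refine Gal.sum hN hs _ fun j _ => ?_
  exact Gal.mul hN hs (Gal.rat hN hs _) (Gal.prod hN hs _ fun v _ => hm v _)

private theorem C1_c0 {A : Type} [CommRing A] (f g : PowerSeries A) :
    PowerSeries.coeff 0 (f * g) = PowerSeries.coeff 0 f * PowerSeries.coeff 0 g := by
  rw [PowerSeries.coeff_zero_eq_constantCoeff_apply, PowerSeries.coeff_zero_eq_constantCoeff_apply,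
    PowerSeries.coeff_zero_eq_constantCoeff_apply, map_mul]

private theorem C1_prod {α A : Type} [CommRing A] (S : Finset α) (f : α → PowerSeries A)
    (hf : ∀ i ∈ S, PowerSeries.coeff 0 (f i) = 1) :
    PowerSeries.coeff 0 (∏ i ∈ S, f i) = 1 ∧
      PowerSeries.coeff 1 (∏ i ∈ S, f i) = ∑ i ∈ S, PowerSeries.coeff 1 (f i) := by
  classical
  induction S using Finset.induction_on with
  | empty => simp
  | insert a S ha ih =>
    obtain ⟨h0, h1⟩ := ih fun i hi => hf i (Finset.mem_insert_of_mem hi)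
    have ha0 := hf a (Finset.mem_insert_self a S)
    rw [Finset.prod_insert ha, Finset.sum_insert ha]
    constructor
    · rw [C1_c0, ha0, h0, one_mul]
    · rw [PowerSeries.coeff_one_mul, h1, ← PowerSeries.coeff_zero_eq_constantCoeff_apply,
        ← PowerSeries.coeff_zero_eq_constantCoeff_apply, ha0, h0]
      ring

private theorem C1_node0 (q : R) (v : V) : PowerSeries.coeff 0 (nodeW q v) = 1 := by
  unfold nodeW
  rw [PowerSeries.coeff_mk]
  simp

private theorem C1_node1 (q : R) (v : V) :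
    PowerSeries.coeff 1 (nodeW q v) = MvPolynomial.C q * MvPolynomial.X v := by
  unfold nodeW
  rw [PowerSeries.coeff_mk]
  simp

private theorem C1_edge0 (w : R) (e : Sym2 V) : PowerSeries.coeff 0 (edgeW w e) = 1 := by
  unfold edgeW
  rw [PowerSeries.coeff_mk]
  simp

private theorem C1_edge1 (w : R) (e : Sym2 V) : PowerSeries.coeff 1 (edgeW w e) = 0 := by
  unfold edgeW
  rw [PowerSeries.coeff_mk]
  simp

private theorem C1_WW0 (E : Finset (Sym2 V)) (q : V → R) (w : Sym2 V → R) :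
    PowerSeries.coeff 0 (WW univ E q w) = 1 := by
  unfold WW
  rw [C1_c0, (C1_prod univ _ fun v _ => C1_node0 _ _).1,
    (C1_prod E _ fun e _ => C1_edge0 _ _).1, one_mul]

private theorem C1_WW1 (E : Finset (Sym2 V)) (q : V → R) (w : Sym2 V → R) :
    PowerSeries.coeff 1 (WW univ E q w) = ∑ v, MvPolynomial.C (q v) * MvPolynomial.X v := by
  have h1 := C1_prod univ (fun v => nodeW (q v) v) fun v _ => C1_node0 _ _
  have h2 := C1_prod E (fun e => edgeW (w e) e) fun e _ => C1_edge0 _ _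
  unfold WW
  rw [PowerSeries.coeff_one_mul, ← PowerSeries.coeff_zero_eq_constantCoeff_apply,
    ← PowerSeries.coeff_zero_eq_constantCoeff_apply, h1.1, h1.2, h2.1, h2.2, mul_one]
  rw [Finset.sum_congr rfl fun v _ => C1_node1 (q v) v,
    Finset.sum_congr rfl fun e _ => C1_edge1 (w e) e]
  simp

theorem ZZ_zero (E : Finset (Sym2 V)) (q : V → R) (w : Sym2 V → R) {m : V → ℕ → R}
    (hm : ∀ v, m v 0 = 1) : PowerSeries.coeff 0 (ZZ E q w m) = 1 := by
  unfold ZZ ZI
  rw [PowerSeries.coeff_mk, C1_WW0, one_mul]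
  have h1 : (1 : MvPolynomial V R) = MvPolynomial.monomial 0 1 := rfl
  rw [h1, C1_mon, one_mul]
  exact Finset.prod_eq_one fun v _ => hm v

theorem ZZ_one (E : Finset (Sym2 V)) (q : V → R) (w : Sym2 V → R) {m : V → ℕ → R}
    (hm : ∀ v, m v 0 = 1) : PowerSeries.coeff 1 (ZZ E q w m) = ∑ v, q v * m v 1 := by
  unfold ZZ ZI
  rw [PowerSeries.coeff_mk, C1_WW1, one_mul, map_sum]
  refine Finset.sum_congr rfl fun v _ => ?_
  rw [MvPolynomial.C_mul_X_eq_monomial, C1_mon]
  congr 1
  rw [Finset.prod_eq_single v, Finsupp.single_eq_same]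
  · intro x _ hx
    rw [Finsupp.single_eq_of_ne hx]
    exact hm x
  · intro h
    exact absurd (Finset.mem_univ v) h

end Pool.Agent.GSP
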