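import Pool.Agent.GSP.Defs
import Pool.Agent.GSP.C1

set_option autoImplicit false

open Finset

namespace Pool.Agent.GSP

open Pool.Agent.OHG Pool.Agent.GPC

private theorem C1b_umb_monomial {V R : Type} [Fintype V] [DecidableEq V] [Field R]
    (m : V → ℕ → R) (j : V →₀ ℕ) (c : R) :
    umb m (MvPolynomial.monomial j c) = c * ∏ v, m v (j v) := by
  have h1 : MvPolynomial.monomial j c = c • MvPolynomial.basisMonomials V R j := by
    rw [MvPolynomial.coe_basisMonomials, MvPolynomial.smul_monomial, smul_eq_mul, mul_one]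
  rw [h1, map_smul]
  unfold umb
  rw [Module.Basis.constr_basis, smul_eq_mul]

private theorem C1b_sum_single {ι : Type} [Fintype ι] [DecidableEq ι] (W : ι → Type)
    (g : ∀ i, W i →₀ ℕ) (i : ι) (v : W i) :
    (∑ i', Finsupp.mapDomain (Sigma.mk i') (g i')) (⟨i, v⟩ : Σ i, W i) = g i v := by
  rw [Finsupp.finsetSum_apply, Finset.sum_eq_single i]
  · exact Finsupp.mapDomain_apply sigma_mk_injective _ _
  · intro i' _ hne
    apply Finsupp.mapDomain_of_notMem_range
    rintro ⟨w, hw⟩
    rw [Sigma.mk.injEq] at hw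
    exact hne hw.1
  · intro h
    exact absurd (Finset.mem_univ i) h

private theorem C1b_umb_prod {ι : Type} [Fintype ι] [DecidableEq ι] (W : ι → Type)
    [∀ i, Fintype (W i)] [∀ i, DecidableEq (W i)] {R : Type} [Field R]
    (m : (Σ i, W i) → ℕ → R) (f : ∀ i, MvPolynomial (W i) R) :
    umb m (∏ i, MvPolynomial.rename (Sigma.mk i) (f i)) = ∏ i, umb (fun v j => m ⟨i, v⟩ j) (f i) := by
  have h1 : ∀ i, MvPolynomial.rename (Sigma.mk i) (f i) =
      ∑ j ∈ (f i).support, MvPolynomial.monomial (Finsupp.mapDomain (Sigma.mk i) j : (Σ i, W i) →₀ ℕ)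
        ((f i).coeff j) := by
    intro i
    conv_lhs => rw [(f i).as_sum]
    rw [map_sum]
    refine Finset.sum_congr rfl fun j _ => ?_
    rw [MvPolynomial.rename_monomial]
  have h2 : ∀ i, umb (fun v j => m ⟨i, v⟩ j) (f i) =
      ∑ j ∈ (f i).support, (f i).coeff j * ∏ v, m ⟨i, v⟩ (j v) := by
    intro i
    conv_lhs => rw [(f i).as_sum]
    rw [map_sum]
    refine Finset.sum_congr rfl fun j _ => ?_
    rw [C1b_umb_monomial]
  simp only [h1, h2]
  rw [Finset.prod_univ_sum, Finset.prod_univ_sum, map_sum]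
  refine Finset.sum_congr rfl fun g _ => ?_
  have h3 : ∏ i, MvPolynomial.monomial (Finsupp.mapDomain (Sigma.mk i) (g i) : (Σ i, W i) →₀ ℕ)
      ((f i).coeff (g i)) =
      MvPolynomial.monomial (∑ i, Finsupp.mapDomain (Sigma.mk i) (g i)) (∏ i, (f i).coeff (g i)) := by
    rw [MvPolynomial.monomial_sum_prod]
  rw [h3, C1b_umb_monomial, Fintype.prod_sigma, Finset.prod_mul_distrib]
  congr 1
  refine Finset.prod_congr rfl fun i _ => Finset.prod_congr rfl fun v _ => ?_
  rw [C1b_sum_single]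

private theorem C1b_nodeW {ι : Type} (W : ι → Type)
    [∀ i, Fintype (W i)] [∀ i, DecidableEq (W i)] [Fintype (Σ i, W i)] [DecidableEq (Σ i, W i)]
    {R : Type} [Field R] (q : R) (i : ι) (v : W i) :
    (nodeW q (⟨i, v⟩ : Σ i, W i) : PowerSeries (MvPolynomial (Σ i, W i) R)) =
      PowerSeries.map (MvPolynomial.rename (Sigma.mk i)).toRingHom (nodeW q v) := by
  ext1 n
  unfold nodeW
  simp

private theorem C1b_edgeW {ι : Type} (W : ι → Type)
    [∀ i, Fintype (W i)] [∀ i, DecidableEq (W i)] [Fintype (Σ i, W i)] [DecidableEq (Σ i, W i)]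
    {R : Type} [Field R] (w : R) (i : ι) (e : Sym2 (W i)) :
    (edgeW w (Sym2.map (Sigma.mk i) e : Sym2 (Σ i, W i)) :
        PowerSeries (MvPolynomial (Σ i, W i) R)) =
      PowerSeries.map (MvPolynomial.rename (Sigma.mk i)).toRingHom (edgeW w e) := by
  have h1 : (Sym2.map (Sigma.mk i) e : Sym2 (Σ i, W i)).toFinset =
      e.toFinset.image (Sigma.mk i) := by
    ext x
    rw [Sym2.mem_toFinset, Sym2.mem_map, Finset.mem_image]
    simp only [Sym2.mem_toFinset]
  ext1 n
  unfold edgeW
  rw [PowerSeries.coeff_map, PowerSeries.coeff_mk, PowerSeries.coeff_mk, h1,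
    Finset.prod_image (fun x _ y _ h => sigma_mk_injective h)]
  split_ifs
  · simp
  · simp

private theorem C1b_eds {ι : Type} [Fintype ι] [DecidableEq ι] (W : ι → Type)
    [∀ i, Fintype (W i)] [∀ i, DecidableEq (W i)] (G : ∀ i, SimpleGraph (W i)) :
    eds (sigG G) = (Finset.univ : Finset ι).biUnion
      (fun i => (eds (G i)).image (Sym2.map (Sigma.mk i : W i → Σ i, W i))) := by
  ext e
  unfold eds
  rw [Set.Finite.mem_toFinset, Finset.mem_biUnion]
  simp only [Finset.mem_univ, true_and, Finset.mem_image, Set.Finite.mem_toFinset]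
  constructor
  · intro h
    induction e using Sym2.ind with
    | _ x y =>
      rw [SimpleGraph.mem_edgeSet] at h
      obtain ⟨i, a, b, rfl, rfl, h3⟩ := h
      exact ⟨i, s(a, b), h3, rfl⟩
  · rintro ⟨i, e', h1, rfl⟩
    induction e' using Sym2.ind with
    | _ x y =>
      rw [SimpleGraph.mem_edgeSet] at h1
      exact ⟨i, x, y, rfl, rfl, h1⟩

private theorem C1b_WW {ι : Type} [Fintype ι] [DecidableEq ι] (W : ι → Type)
    [∀ i, Fintype (W i)] [∀ i, DecidableEq (W i)] (G : ∀ i, SimpleGraph (W i))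
    {R : Type} [Field R] (q : (Σ i, W i) → R) (w : Sym2 (Σ i, W i) → R) :
    WW univ (eds (sigG G)) q w = ∏ i, PowerSeries.map
      (MvPolynomial.rename (Sigma.mk i : W i → Σ i, W i)).toRingHom
      (WW univ (eds (G i)) (fun v => q ⟨i, v⟩) (fun e => w (Sym2.map (Sigma.mk i) e))) := by
  unfold WW
  simp only [map_mul, map_prod]
  rw [Finset.prod_mul_distrib]
  congr 1
  · rw [Fintype.prod_sigma]
    refine Finset.prod_congr rfl fun i _ => Finset.prod_congr rfl fun v _ => ?_
    exact C1b_nodeW W (q ⟨i, v⟩) i v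
  · rw [C1b_eds, Finset.prod_biUnion]
    · refine Finset.prod_congr rfl fun i _ => ?_
      rw [Finset.prod_image]
      · refine Finset.prod_congr rfl fun e _ => ?_
        exact C1b_edgeW W (w (Sym2.map (Sigma.mk i) e)) i e
      · intro e _ e' _ h
        exact Sym2.map.injective sigma_mk_injective h
    · intro i _ i' _ hne
      rw [Function.onFun, Finset.disjoint_left]
      intro e h1 h2
      rw [Finset.mem_image] at h1 h2
      obtain ⟨e1, -, rfl⟩ := h1
      obtain ⟨e2, -, h3⟩ := h2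
      induction e1 using Sym2.ind with
      | _ x y =>
        have h4 : (⟨i, x⟩ : Σ i, W i) ∈ Sym2.map (Sigma.mk i') e2 := by
          rw [h3, Sym2.map_mk]
          exact Sym2.mem_mk_left _ _
        rw [Sym2.mem_map] at h4
        obtain ⟨z, -, h5⟩ := h4
        rw [Sigma.mk.injEq] at h5
        exact hne h5.1.symm

private theorem C1b_ZZ {ι : Type} [Fintype ι] [DecidableEq ι] (W : ι → Type)
    [∀ i, Fintype (W i)] [∀ i, DecidableEq (W i)] (G : ∀ i, SimpleGraph (W i))
    {R : Type} [Field R] (q : (Σ i, W i) → R) (w : Sym2 (Σ i, W i) → R) (m : (Σ i, W i) → ℕ → R) :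
    ZZ (eds (sigG G)) q w m = ∏ i, ZZ (eds (G i)) (fun v => q ⟨i, v⟩)
      (fun e => w (Sym2.map (Sigma.mk i) e)) (fun v j => m ⟨i, v⟩ j) := by
  ext1 n
  rw [PowerSeries.coeff_prod]
  unfold ZZ ZI
  rw [PowerSeries.coeff_mk, one_mul, C1b_WW, PowerSeries.coeff_prod, map_sum]
  refine Finset.sum_congr rfl fun l _ => ?_
  simp only [PowerSeries.coeff_mk, one_mul, PowerSeries.coeff_map]
  exact C1b_umb_prod W m _

/-- the formal integral of a disjoint union -/
theorem Z_fam {ι : Type} [Fintype ι] [DecidableEq ι] (P : ι → Prime) {R : Type} [Field R]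
    [CharZero R] (m : (Σ i, Fin ((P i).n + 1)) → ℕ → R) (hm : ∀ v, m v 0 = 1) :
    (famOf P).Z m = ∏ i, (datOf (P i)).Z fun v j => m ⟨i, v⟩ j := by
  unfold Dat.Z
  have h := C1b_ZZ (fun i => Fin ((P i).n + 1)) (fun i => (P i).D.graph)
    (fun v => ((famOf P).q v : R)) (fun e => ((famOf P).w e : R)) m
  refine h.trans (Finset.prod_congr rfl fun i _ => ?_)
  congr 1
  funext e
  induction e using Sym2.ind with
  | _ x y =>
    rw [Sym2.map_mk]
    unfold famOf datOf sqw
    simp only [Sym2.lift_mk, Matrix.blockDiagonal'_apply_eq]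

theorem k_fam {ι : Type} [DecidableEq ι] (P : ι → Prime) (i : ι) (v : Fin ((P i).n + 1)) :
    (famOf P).k ⟨i, v⟩ = (datOf (P i)).k v := by
  unfold Dat.k
  have h : dg (famOf P).G ⟨i, v⟩ = dg (datOf (P i)).G v := by
    unfold dg
    have h1 : (famOf P).G.neighborSet ⟨i, v⟩ = Sigma.mk i '' (datOf (P i)).G.neighborSet v := by
      ext x
      rw [SimpleGraph.mem_neighborSet, Set.mem_image]
      constructor
      · rintro ⟨i', a, b, h1, h2, h3⟩
        rw [Sigma.mk.injEq] at h1
        obtain ⟨rfl, h1⟩ := h1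
        rw [heq_eq_eq] at h1
        subst h1
        exact ⟨b, h3, h2.symm⟩
      · rintro ⟨b, h1, rfl⟩
        exact ⟨i, v, b, rfl, rfl, h1⟩
    rw [h1]
    exact Set.ncard_image_of_injective _ sigma_mk_injective
  rw [h]
  rfl

theorem k_eq (P : Prime) (v : Fin (P.n + 1)) : (datOf P).k v = P.D.val v - 2 := by
  unfold Dat.k Data.val
  have h : dg (datOf P).G v = (P.D.nbr v).card := by
    unfold dg
    rw [← Set.ncard_coe_finset]
    congr 1
    ext x
    unfold Data.nbr
    simp [datOf]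
  rw [h]
  rfl

end Pool.Agent.GSP
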