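import Pool.Agent.GSP.Defs
import Pool.Agent.GPC.K6d

set_option autoImplicit false

open Finset

namespace Pool.Agent.GSP

open Pool.Agent.OHG Pool.Agent.GPC

variable {V : Type} [Fintype V] [DecidableEq V]

omit [DecidableEq V] in
private theorem h1_on_self {D : Data V} (h : D.IsGraph) (v u : V) : D.On v v u ↔ u = v := by
  unfold Data.On
  rw [SimpleGraph.dist_self]
  constructor
  · intro h0
    have h1 : D.graph.dist v u = 0 := by omega
    exact ((h.tree.connected.dist_eq_zero_iff).mp h1).symm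
  · rintro rfl
    simp

private theorem h1_step {D : Data V} (h : D.IsGraph) {w x y : V} (hx : x ∈ D.nbr w)
    (hy : D.On w y x) (u : V) : D.On w y u ↔ u = w ∨ D.On x y u := by
  have hc := h.tree.connected
  have hwx : D.graph.dist w x = 1 := SimpleGraph.dist_eq_one_iff_adj.mpr (mem_nbr.mp hx)
  have hxy : D.graph.dist w y = 1 + D.graph.dist x y := by
    have := hy
    unfold Data.On at this
    omega
  constructor
  · intro hu
    by_cases huw : u = w
    · exact Or.inl huw
    · right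
      obtain ⟨p, hp1, hp2⟩ := hc.exists_path_of_dist x y
      obtain ⟨q, hq1, hq2⟩ := hc.exists_path_of_dist w u
      obtain ⟨r, hr1, hr2⟩ := hc.exists_path_of_dist u y
      have hlen : (q.append r).length = D.graph.dist w y := by
        rw [SimpleGraph.Walk.length_append, hq2, hr2]
        exact hu
      have hP : (q.append r).IsPath := SimpleGraph.Walk.isPath_of_length_eq_dist _ hlen
      have hlen2 : (SimpleGraph.Walk.cons (mem_nbr.mp hx) p).length = D.graph.dist w y := by
        rw [SimpleGraph.Walk.length_cons, hp2]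
        omega
      have hQ : (SimpleGraph.Walk.cons (mem_nbr.mp hx) p).IsPath :=
        SimpleGraph.Walk.isPath_of_length_eq_dist _ hlen2
      have hEq : q.append r = SimpleGraph.Walk.cons (mem_nbr.mp hx) p := by
        have := (h.tree.isAcyclic.subsingleton_path w y).elim ⟨_, hP⟩ ⟨_, hQ⟩
        exact congrArg Subtype.val this
      have hmem : u ∈ (q.append r).support := by
        rw [SimpleGraph.Walk.mem_support_append_iff]
        exact Or.inl q.end_mem_support
      rw [hEq, SimpleGraph.Walk.support_cons, List.mem_cons] at hmem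
      rcases hmem with hmem | hmem
      · exact absurd hmem huw
      · unfold Data.On
        have h1 := congrArg SimpleGraph.Walk.length (p.take_spec hmem)
        rw [SimpleGraph.Walk.length_append, hp2] at h1
        have h2 := SimpleGraph.dist_le (p.takeUntil u hmem)
        have h3 := SimpleGraph.dist_le (p.dropUntil u hmem)
        have h4 : D.graph.dist x y ≤ D.graph.dist x u + D.graph.dist u y := hc.dist_triangle
        omega
  · rintro (rfl | hu)
    · unfold Data.On
      simp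
    · unfold Data.On at hu ⊢
      have h1 : D.graph.dist w u ≤ D.graph.dist w x + D.graph.dist x u := hc.dist_triangle
      have h2 : D.graph.dist w y ≤ D.graph.dist w u + D.graph.dist u y := hc.dist_triangle
      omega

private theorem h1_adj {D : Data V} (h : D.IsGraph) {w x y : V} (hx : x ∈ D.nbr w)
    (hy : D.On w y x) {u : V} (hu : D.On x y u) (huw : D.graph.Adj u w) : u = x := by
  have hc := h.tree.connected
  have hwx : D.graph.dist w x = 1 := SimpleGraph.dist_eq_one_iff_adj.mpr (mem_nbr.mp hx)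
  have hwu : D.graph.dist w u = 1 := SimpleGraph.dist_eq_one_iff_adj.mpr huw.symm
  unfold Data.On at hy hu
  have h2 : D.graph.dist w y ≤ D.graph.dist w u + D.graph.dist u y := hc.dist_triangle
  have h3 : D.graph.dist x u = 0 := by omega
  exact ((hc.dist_eq_zero_iff).mp h3).symm

private theorem h1_not {D : Data V} {w x y : V} (hx : x ∈ D.nbr w)
    (hy : D.On w y x) : ¬ D.On x y w := by
  have hwx : D.graph.dist w x = 1 := SimpleGraph.dist_eq_one_iff_adj.mpr (mem_nbr.mp hx)
  unfold Data.On at hy ⊢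
  rw [SimpleGraph.dist_comm (u := x) (v := w)]
  omega

private theorem h1_mu_side {D : Data V} (h : D.IsGraph) {v w x : V} (hx : x ∈ D.nbr w) {y : V}
    (hy : D.On w y x) : GPC.mu D w v y = (D.sgn w * (∏ k ∈ D.leaf w, (k : ℤ)) *
    ∏ z ∈ D.nbr w with z ≠ x ∧ z ≠ v, D.wt w z) * GPC.mu D x w y := by
  unfold GPC.mu
  have hS : (univ.filter fun u => D.On w y u) = insert w (univ.filter fun u => D.On x y u) := by
    ext u
    simp only [mem_filter, mem_univ, true_and, mem_insert]
    exact h1_step h hx hy u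
  have hnot : w ∉ (univ.filter fun u => D.On x y u) := by
    simp only [mem_filter, mem_univ, true_and]
    exact h1_not hx hy
  rw [hS, prod_insert hnot]
  congr 1
  · congr 1
    refine prod_congr ?_ fun _ _ => rfl
    ext z
    simp only [mem_filter]
    constructor
    · rintro ⟨a, b, c⟩
      refine ⟨a, ?_, fun hz => c ⟨trivial, hz⟩⟩
      rintro rfl
      exact b hy
    · rintro ⟨a, b, c⟩
      refine ⟨a, ?_, fun hz => c hz.2⟩
      rw [h1_step h hx hy z]
      rintro (hz | hz)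
      · exact (mem_nbr.mp a).ne' hz
      · exact b (h1_adj h hx hy hz (mem_nbr.mp a).symm)
  · refine prod_congr rfl fun u hu => ?_
    simp only [mem_filter, mem_univ, true_and] at hu
    have huw : u ≠ w := fun e => h1_not hx hy (e ▸ hu)
    congr 1
    refine prod_congr ?_ fun _ _ => rfl
    ext z
    simp only [mem_filter]
    constructor
    · rintro ⟨a, b, c⟩
      rw [h1_step h hx hy z, not_or] at b
      exact ⟨a, b.2, fun hz => b.1 hz.2⟩
    · rintro ⟨a, b, c⟩
      refine ⟨a, ?_, fun hz => huw hz.1⟩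
      rw [h1_step h hx hy z]
      rintro (hz | hz)
      · refine c ⟨?_, hz⟩
        have hadj : D.graph.Adj u w := hz ▸ mem_nbr.mp a
        exact h1_adj h hx hy hu hadj
      · exact b hz

/-- The part of the row sum of the side of `v` of the edge `vw`. -/
private noncomputable def h1_S0 (D : Data V) (x : V → ℚ) (v w : V) : ℚ :=
  ∑ y with D.On w y v, (GPC.mu D v w y : ℚ) * x y

private theorem h1_row {D : Data V} (h : D.IsGraph) {v w : V} (hw : w ∈ D.nbr v) (x : V → ℚ) :
    ∑ y, (D.lk v y : ℚ) * x y =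
      (D.wt v w : ℚ) * h1_S0 D x v w + (GPC.oth D v w : ℚ) * h1_S0 D x w v := by
  have hv : v ∈ D.nbr w := by
    rw [mem_nbr] at hw ⊢
    exact hw.symm
  have hf : (univ.filter fun y => ¬ D.On w y v) = univ.filter fun y => D.On v y w := by
    ext y
    simp only [mem_filter, mem_univ, true_and]
    rcases edge_side h hw y with ⟨h1, h2⟩ | ⟨h1, h2⟩
    · exact ⟨fun h3 => absurd h1 h3, fun h3 => absurd h3 h2⟩
    · exact ⟨fun _ => h1, fun _ => h2⟩
  rw [← Finset.sum_filter_add_sum_filter_not univ (fun y => D.On w y v), hf]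
  unfold h1_S0
  rw [Finset.mul_sum, Finset.mul_sum]
  congr 1
  · refine Finset.sum_congr rfl fun y hy => ?_
    rw [mem_filter] at hy
    rw [(lk_side h hw hy.2).1]
    push_cast
    ring
  · refine Finset.sum_congr rfl fun y hy => ?_
    rw [mem_filter] at hy
    rw [(lk_side h hv hy.2).2]
    push_cast
    ring

private theorem h1_not_on {D : Data V} (h : D.IsGraph) {w z : V} (hz : z ∈ D.nbr w) :
    ¬ D.On w w z := by
  intro h1
  unfold Data.On at h1
  rw [SimpleGraph.dist_self] at h1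
  have h2 : D.graph.dist w z = 0 := by omega
  have h3 := (h.tree.connected.dist_eq_zero_iff).mp h2
  exact (mem_nbr.mp hz).ne h3

private theorem h1_split {D : Data V} (h : D.IsGraph) {v w : V} (hv : v ∈ D.nbr w) :
    (univ.filter fun y => D.On v y w) =
      insert w (((D.nbr w).erase v).biUnion fun z => univ.filter fun y => D.On w y z) := by
  have hw : w ∈ D.nbr v := by
    rw [mem_nbr] at hv ⊢
    exact hv.symm
  ext y
  simp only [mem_filter, mem_univ, true_and, mem_insert, mem_biUnion, mem_erase]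
  constructor
  · intro h1
    by_cases hy : y = w
    · exact Or.inl hy
    · right
      obtain ⟨z, ⟨hz1, hz2⟩, _⟩ := tree_side h hy
      refine ⟨z, ⟨?_, hz1⟩, hz2⟩
      rintro rfl
      rcases edge_side h hv y with ⟨_, h3⟩ | ⟨_, h3⟩
      · exact h3 hz2
      · exact h3 h1
  · rintro (rfl | ⟨z, ⟨hz1, hz2⟩, hz3⟩)
    · unfold Data.On
      rw [SimpleGraph.dist_self]
      omega
    · have hy : y ≠ w := by
        rintro rfl
        exact h1_not_on h hz2 hz3
      obtain ⟨z', ⟨_, _⟩, hu⟩ := tree_side h hy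
      have h4 := hu z ⟨hz2, hz3⟩
      rcases edge_side h hv y with ⟨h5, _⟩ | ⟨h5, _⟩
      · exact h5
      · exact absurd ((hu v ⟨hv, h5⟩).trans h4.symm) (Ne.symm hz1)

private theorem h1_leaf {D : Data V} (h : D.IsGraph) (w : V) :
    D.sgn w * (∏ k ∈ D.leaf w, (k : ℤ)) ≠ 0 := by
  refine mul_ne_zero ?_ ?_
  · rcases h.sign w with h1 | h1 <;> rw [h1] <;> norm_num
  · refine Finset.prod_ne_zero_iff.mpr fun k hk => ?_
    have := h.two_le w k hk
    exact_mod_cast (by omega : k ≠ 0)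

private theorem h1_zero {D : Data V} (h : D.IsGraph) {w v : V} (h0 : GPC.oth D w v = 0) :
    ∃ z ∈ D.nbr w, z ≠ v ∧ D.wt w z = 0 := by
  unfold GPC.oth at h0
  have h1 := (mul_eq_zero.mp h0).resolve_left (h1_leaf h w)
  rw [Finset.prod_eq_zero_iff] at h1
  obtain ⟨z, hz, hz0⟩ := h1
  rw [mem_erase] at hz
  exact ⟨z, hz.2, hz.1, hz0⟩


private theorem h1_S {D : Data V} (h : D.IsGraph) (x : V → ℚ) {v w : V} (hw : w ∈ D.nbr v) :
    ((D.wt v w * D.wt w v - D.lk v w : ℤ) : ℚ) * h1_S0 D x v w =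
      D.wt w v * (∑ y, (D.lk v y : ℚ) * x y) - GPC.oth D v w * (∑ y, (D.lk w y : ℚ) * x y) := by
  have hv : v ∈ D.nbr w := by
    rw [mem_nbr] at hw ⊢
    exact hw.symm
  have h1 := h1_row h hw x
  have h2 := h1_row h hv x
  have h5 : D.lk v w = GPC.oth D v w * GPC.oth D w v := lk_adj h hw
  rw [h1, h2, h5]
  push_cast
  ring

private theorem h1_oth {D : Data V} (h : D.IsGraph) (x : V → ℚ) {v w : V} (hv : v ∈ D.nbr w) :
    (GPC.oth D w v : ℚ) * x w = h1_S0 D x w v - ∑ z ∈ (D.nbr w).erase v,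
      ((D.sgn w * (∏ k ∈ D.leaf w, (k : ℤ)) *
        ∏ u ∈ D.nbr w with u ≠ z ∧ u ≠ v, D.wt w u : ℤ) : ℚ) * h1_S0 D x z w := by
  have h0 : h1_S0 D x w v = ∑ y with D.On v y w, (GPC.mu D w v y : ℚ) * x y := rfl
  rw [h1_split h hv, Finset.sum_insert] at h0
  · rw [Finset.sum_biUnion] at h0
    · have h1 : ∑ z ∈ (D.nbr w).erase v, ∑ y with D.On w y z, (GPC.mu D w v y : ℚ) * x y =
          ∑ z ∈ (D.nbr w).erase v, ((D.sgn w * (∏ k ∈ D.leaf w, (k : ℤ)) *
        ∏ u ∈ D.nbr w with u ≠ z ∧ u ≠ v, D.wt w u : ℤ) : ℚ) * h1_S0 D x z w := by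
        refine Finset.sum_congr rfl fun z hz => ?_
        rw [mem_erase] at hz
        unfold h1_S0
        rw [Finset.mul_sum]
        refine Finset.sum_congr rfl fun y hy => ?_
        rw [mem_filter] at hy
        rw [h1_mu_side h hz.2 hy.2]
        push_cast
        ring
      rw [h1, mu_self h hv] at h0
      rw [h0]
      ring
    · intro z hz z' hz' hne
      rw [Function.onFun, Finset.disjoint_left]
      intro y hy hy'
      rw [mem_filter] at hy hy'
      rw [mem_coe, mem_erase] at hz hz'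
      have hyw : y ≠ w := by
        rintro rfl
        exact h1_not_on h hz.2 hy.2
      obtain ⟨u, _, hu⟩ := tree_side h hyw
      exact hne ((hu z ⟨hz.2, hy.2⟩).trans (hu z' ⟨hz'.2, hy'.2⟩).symm)
  · rw [mem_biUnion]
    rintro ⟨z, hz, hy⟩
    rw [mem_erase] at hz
    rw [mem_filter] at hy
    exact h1_not_on h hz.2 hy.2

private theorem h1_det {D : Data V} (h : D.IsGraph) {v w : V} (hw : w ∈ D.nbr v) :
    ((D.wt v w * D.wt w v - D.lk v w : ℤ) : ℚ) ≠ 0 := by
  have h1 := h.edge_det v w hw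
  intro h2
  rw [Int.cast_eq_zero] at h2
  exact h1 (by omega)

private theorem h1_symm {D : Data V} {v w : V} (hw : w ∈ D.nbr v) : v ∈ D.nbr w := by
  rw [mem_nbr] at hw ⊢
  exact hw.symm

/-- the two kinds of the values of the sums of the sides, for a column of the inverse -/
private theorem h1_S1 {D : Data V} (h : D.IsGraph) {x : V → ℚ} {w : V}
    (hx : ∀ v, ∑ y, (D.lk v y : ℚ) * x y = if v = w then 1 else 0) {y v : V} (hv : v ∈ D.nbr y)
    (hy : y ≠ w) : h1_S0 D x y v =
      if v = w then -(GPC.oth D y v : ℚ) / ((D.wt y v * D.wt v y - D.lk y v : ℤ) : ℚ) else 0 := by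
  have h1 := h1_S h x hv
  have h2 := h1_det h hv
  rw [hx, hx, if_neg hy] at h1
  split_ifs with h3
  · rw [if_pos h3] at h1
    rw [eq_div_iff h2]
    linarith
  · rw [if_neg h3] at h1
    have h4 : ((D.wt y v * D.wt v y - D.lk y v : ℤ) : ℚ) * h1_S0 D x y v = 0 := by
      rw [h1]
      ring
    exact (mul_eq_zero.1 h4).resolve_left h2

private theorem h1_S2 {D : Data V} (h : D.IsGraph) {x : V → ℚ} {w : V}
    (hx : ∀ v, ∑ y, (D.lk v y : ℚ) * x y = if v = w then 1 else 0) {y z : V} (hz : z ∈ D.nbr y)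
    (hy : y ≠ w) : h1_S0 D x z y =
      if z = w then (D.wt y z : ℚ) / ((D.wt y z * D.wt z y - D.lk y z : ℤ) : ℚ) else 0 := by
  have h1 := h1_S h x (h1_symm hz)
  have h2 := h1_det h hz
  rw [hx, hx, if_neg hy] at h1
  have hc : D.lk z y = D.lk y z := lk_comm D z y
  rw [hc, mul_comm (D.wt z y)] at h1
  split_ifs with h3
  · rw [if_pos h3] at h1
    rw [eq_div_iff h2]
    linarith
  · rw [if_neg h3] at h1
    have h4 : ((D.wt y z * D.wt z y - D.lk y z : ℤ) : ℚ) * h1_S0 D x z y = 0 := by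
      rw [h1]
      ring
    exact (mul_eq_zero.1 h4).resolve_left h2

private theorem h1_exists {D : Data V} (h : D.IsGraph) {y : V} (hn : (D.nbr y).Nonempty) :
    ∃ v ∈ D.nbr y, GPC.oth D y v ≠ 0 := by
  by_contra hcon
  push Not at hcon
  obtain ⟨v, hv⟩ := hn
  obtain ⟨z, hz, _, hz0⟩ := h1_zero h (hcon v hv)
  obtain ⟨z', hz', hne, hz'0⟩ := h1_zero h (hcon z hz)
  have h1 := h.coprime_edge y z hz z' hz' hne.symm
  rw [hz0, hz'0] at h1
  obtain ⟨a, b, hab⟩ := h1
  simp at hab

private theorem h1_col {D : Data V} (h : D.IsGraph) {x : V → ℚ} {w : V}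
    (hx : ∀ v, ∑ y, (D.lk v y : ℚ) * x y = if v = w then 1 else 0) {y : V} (hy : y ≠ w) :
    x y = if w ∈ D.nbr y then -1 / ((D.wt y w * D.wt w y - D.lk y w : ℤ) : ℚ) else 0 := by
  obtain ⟨x0, ⟨hx0, _⟩, _⟩ := tree_side h hy.symm
  obtain ⟨v, hv, hv0⟩ := h1_exists h ⟨x0, hx0⟩
  have hv1 : (GPC.oth D y v : ℚ) ≠ 0 := by exact_mod_cast hv0
  have h1 := h1_oth h x hv
  rw [h1_S1 h hx hv hy] at h1
  have h2 : ∑ z ∈ (D.nbr y).erase v,
      ((D.sgn y * (∏ k ∈ D.leaf y, (k : ℤ)) *
        ∏ u ∈ D.nbr y with u ≠ z ∧ u ≠ v, D.wt y u : ℤ) : ℚ) * h1_S0 D x z y =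
      if w ∈ (D.nbr y).erase v then ((D.sgn y * (∏ k ∈ D.leaf y, (k : ℤ)) *
        ∏ u ∈ D.nbr y with u ≠ w ∧ u ≠ v, D.wt y u : ℤ) : ℚ) *
        ((D.wt y w : ℚ) / ((D.wt y w * D.wt w y - D.lk y w : ℤ) : ℚ)) else 0 := by
    rw [← Finset.sum_ite_eq' ((D.nbr y).erase v) w (fun z => ((D.sgn y *
      (∏ k ∈ D.leaf y, (k : ℤ)) * ∏ u ∈ D.nbr y with u ≠ z ∧ u ≠ v, D.wt y u : ℤ) : ℚ) *
        ((D.wt y z : ℚ) / ((D.wt y z * D.wt z y - D.lk y z : ℤ) : ℚ)))]
    refine Finset.sum_congr rfl fun z hz => ?_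
    rw [h1_S2 h hx (mem_erase.1 hz).2 hy]
    split_ifs with h3
    · rfl
    · rw [mul_zero]
  rw [h2] at h1
  refine mul_left_cancel₀ hv1 (h1.trans ?_)
  by_cases hwy : w ∈ D.nbr y
  · rw [if_pos hwy]
    by_cases hvw : v = w
    · subst hvw
      rw [if_pos rfl, if_neg (by simp)]
      ring
    · rw [if_neg hvw, if_pos (mem_erase.2 ⟨Ne.symm hvw, hwy⟩)]
      have h4 : GPC.oth D y v = D.sgn y * (∏ k ∈ D.leaf y, (k : ℤ)) *
          (∏ u ∈ D.nbr y with u ≠ w ∧ u ≠ v, D.wt y u) * D.wt y w := by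
        unfold GPC.oth
        rw [← Finset.prod_erase_mul _ _ (mem_erase.2 ⟨Ne.symm hvw, hwy⟩ : w ∈ (D.nbr y).erase v)]
        have h5 : ((D.nbr y).erase v).erase w = (D.nbr y).filter fun u => u ≠ w ∧ u ≠ v := by
          ext u
          simp only [mem_erase, mem_filter]
          tauto
        rw [h5]
        ring
      rw [h4]
      push_cast
      ring
  · rw [if_neg hwy, if_neg (fun h3 => hwy (mem_erase.1 h3).2)]
    rw [if_neg (fun h3 : v = w => hwy (h3 ▸ hv))]
    ring

theorem lkq_det {D : Data V} (h : D.IsGraph) : (lkq D).det ≠ 0 := by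
  intro h0
  apply lkm_det h
  have h1 : lkm D = (algebraMap ℚ ℝ).mapMatrix (lkq D) := by
    ext v w
    simp [lkm, lkq]
  rw [h1, ← RingHom.map_det, h0, map_zero]

private theorem h1_mul {D : Data V} (h : D.IsGraph) (w v : V) :
    ∑ y, (D.lk v y : ℚ) * (lkq D)⁻¹ y w = if v = w then 1 else 0 := by
  have h1 := Matrix.mul_nonsing_inv (lkq D) (Ne.isUnit (lkq_det h))
  have h2 := congrFun (congrFun h1 v) w
  rw [Matrix.mul_apply, Matrix.one_apply] at h2
  rw [← h2]
  rfl

/-- the inverse of the matrix of the linking numbers -/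
theorem inv_off {D : Data V} (h : D.IsGraph) {v w : V} (hvw : v ≠ w) (ha : ¬ D.graph.Adj v w) :
    (lkq D)⁻¹ v w = 0 := by
  rw [h1_col (x := fun y => (lkq D)⁻¹ y w) h (h1_mul h w) hvw, if_neg (fun h1 => ha (mem_nbr.1 h1))]

theorem inv_adj {D : Data V} (h : D.IsGraph) {v w : V} (ha : D.graph.Adj v w) :
    (lkq D)⁻¹ v w = -1 / ((D.wt v w * D.wt w v - D.lk v w : ℤ) : ℚ) := by
  rw [h1_col (x := fun y => (lkq D)⁻¹ y w) h (h1_mul h w) ha.ne, if_pos (mem_nbr.2 ha)]

/-- the same for the real matrix -/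
theorem lkm_inv {D : Data V} (h : D.IsGraph) (v w : V) :
    (lkm D)⁻¹ v w = (((lkq D)⁻¹ v w : ℚ) : ℝ) := by
  have h1 : lkm D = (algebraMap ℚ ℝ).mapMatrix (lkq D) := by
    ext v w
    simp [lkm, lkq]
  have h2 : lkm D * (algebraMap ℚ ℝ).mapMatrix (lkq D)⁻¹ = 1 := by
    rw [h1, ← map_mul, Matrix.mul_nonsing_inv (lkq D) (Ne.isUnit (lkq_det h)), map_one]
  rw [Matrix.inv_eq_right_inv h2]
  rfl

end Pool.Agent.GSP
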