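import Pool.Agent.GSP.Defs
import Pool.Agent.GSP.A4
import Pool.Agent.GSP.B1
import Pool.Agent.GSP.B2
import Pool.Agent.GSP.B3e
import Pool.Agent.GSP.C1
import Pool.Agent.GSP.C1b
import Pool.Agent.GSP.H1
import Pool.Agent.SLR.All
import Pool.Agent.GPC.All

set_option autoImplicit false

open PowerSeries Finset MeasureTheory

namespace Pool.Agent.GSP

open Pool.Agent.OHG Pool.Agent.GPC Pool.Agent.SLR

/-- The law of `X ^ T Q X` for the family `P i`, `i ∈ A`. -/
structure LawM {ι : Type} (P : ι → Prime) (A : Finset ι) (F : ℂ → ℂ) (μ : Measure ℝ) : Prop where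
  hg : HG F (∏ i ∈ A, part (P i).D)
  fin : IsFiniteMeasure μ
  char : ∃ c : ℂ, ‖c‖ = Real.pi ^ ((3 / 2 : ℝ) * (∑ i ∈ A, ((P i).n + 1) : ℕ)) *
      (∏ i ∈ A, |(lkm (P i).D).det|) ^ (3 / 2 : ℝ) ∧ ∀ t : ℝ, 0 < t →
    charFun μ t = c * ((t ^ (-(3 / 2 : ℝ) * (∑ i ∈ A, ((P i).n + 1) : ℕ)) : ℝ) : ℂ) *
      F (Complex.I / (4 * t))
  int : ∀ n : ℕ, Integrable (fun y => y ^ n) μ
  mom : ∀ n : ℕ, ∫ y, y ^ n ∂μ =
    (∏ i ∈ A, ∏ v, 4 * Real.pi * mu ((P i).D.leaf v) ((datOf (P i)).k v) 0) *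
      (n.factorial * coeff n (∏ i ∈ A,
        (datOf (P i)).Z fun v j => nm ((P i).D.leaf v) ((datOf (P i)).k v) j))

private theorem B4_rad {F : ℝ → ℝ}
    (h : ∀ n : ℕ, IntegrableOn (fun r : ℝ => r ^ 2 * (F (r ^ 2) * (r ^ 2) ^ n)) (Set.Ioi 0)) :
    Rad F := by
  intro n
  have hp := EuclideanSpace.volume_preserving_symm_measurableEquiv_toLp (Fin 3)
  rw [← hp.integrable_comp_emb (MeasurableEquiv.measurableEmbedding _)]
  have e : ((fun x : Fin 3 → ℝ => F (∑ i, x i ^ 2) * (∑ i, x i ^ 2) ^ n) ∘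
      ⇑(MeasurableEquiv.toLp 2 (Fin 3 → ℝ)).symm) =
      fun y : EuclideanSpace ℝ (Fin 3) => (fun r : ℝ => F (r ^ 2) * (r ^ 2) ^ n) ‖y‖ := by
    funext y
    show F (∑ i, y i ^ 2) * (∑ i, y i ^ 2) ^ n = F (‖y‖ ^ 2) * (‖y‖ ^ 2) ^ n
    rw [EuclideanSpace.real_norm_sq_eq]
  rw [e]
  refine (integrable_fun_norm_addHaar (volume : Measure (EuclideanSpace ℝ (Fin 3)))
    (f := fun r : ℝ => F (r ^ 2) * (r ^ 2) ^ n)).2 ?_
  rw [finrank_euclideanSpace_fin]
  exact h n

private theorem B4_herm {V : Type} [Fintype V] [DecidableEq V] {D : Data V} (_h : D.IsGraph) :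
    (lkm D).IsHermitian := by
  ext v w
  rw [Matrix.conjTranspose_apply, star_trivial]
  unfold lkm
  rw [Matrix.of_apply, Matrix.of_apply, lk_comm]

private theorem B4_symm {V : Type} [Fintype V] [DecidableEq V] (D : Data V) :
    ((lkm D)⁻¹).IsSymm := by
  have h : (lkm D).IsSymm := by
    ext v w
    rw [Matrix.transpose_apply]
    unfold lkm
    rw [Matrix.of_apply, Matrix.of_apply, lk_comm]
  unfold Matrix.IsSymm
  rw [Matrix.transpose_nonsing_inv, h.eq]

private theorem B4_cont {V : Type} [Fintype V] [DecidableEq V] (A : Matrix V V ℝ) :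
    Continuous (qf A) := by
  unfold qf
  fun_prop

private theorem B4_leaf {P : Prime} (hP : ∀ v, (P.D.leaf v).card ≤ 2) (v : Fin (P.n + 1)) :
    IsLeaf (P.D.leaf v) where
  two_le := P.isGraph.two_le v
  coprime := P.isGraph.coprime_leaf v
  card_le := hP v

private theorem B4_k (P : Prime) (v : Fin (P.n + 1)) : 1 ≤ (datOf P).k v := by
  rw [k_eq]
  have := P.isGraph.three_le v
  omega

theorem law_one {P : Prime} (hP : ∀ v, (P.D.leaf v).card ≤ 2) :
    ∃ (F : ℂ → ℂ) (μ : Measure ℝ), LawM (fun _ : Unit => P) univ F μ := by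
  have hB : ¬ Bad P := by
    rintro ⟨_, h⟩
    have h1 := hP 0
    rw [h] at h1
    revert h1
    decide
  choose θ hθ hpos hnode using fun v => theta_node hB v
  have hG := P.isGraph
  have hI := dens_integrable hθ
  have hd0 : ∀ X, 0 < dens θ X := by
    intro X
    unfold SLR.dens
    exact Finset.prod_pos fun v _ => hpos v _ (Finset.sum_nonneg fun i _ => sq_nonneg _)
  have hc := B4_cont (lkm P.D)⁻¹
  have hmeas : AEMeasurable (fun X : Fin (P.n + 1) × Fin 3 → ℝ => ENNReal.ofReal (dens θ X))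
      volume :=
    hI.aestronglyMeasurable.aemeasurable.ennreal_ofReal
  have hfin : IsFiniteMeasure ((volume : Measure (Fin (P.n + 1) × Fin 3 → ℝ)).withDensity
      fun X => ENNReal.ofReal (dens θ X)) := isFiniteMeasure_withDensity_ofReal hI.2
  have hrad : ∀ v, Rad (lapl (θ v)) := by
    intro v
    refine B4_rad fun n => ?_
    refine (mu_integrable (B4_leaf hP v) (B4_k P v) n).congr_fun ?_ measurableSet_Ioi
    intro r hr
    have hr' : (0 : ℝ) < r := hr
    show r ^ (2 + 2 * n) * nodeR (P.D.leaf v) ((datOf P).k v) r =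
      r ^ 2 * (lapl (θ v) (r ^ 2) * (r ^ 2) ^ n)
    rw [hnode v r hr', k_eq, pow_add, pow_mul]
    ring
  have hm : ∀ v j, ∫ x : Fin 3 → ℝ, lapl (θ v) (∑ i, x i ^ 2) * (∑ i, x i ^ 2) ^ j =
      (4 * Real.pi * mu (P.D.leaf v) ((datOf P).k v) 0) *
        nm (P.D.leaf v) ((datOf P).k v) j := by
    intro v j
    rw [polar3 (fun y => lapl (θ v) y * y ^ j)]
    have e1 : ∫ r in Set.Ioi (0 : ℝ), r ^ 2 * (lapl (θ v) (r ^ 2) * (r ^ 2) ^ j) =
        mu (P.D.leaf v) ((datOf P).k v) j := by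
      unfold mu
      refine setIntegral_congr_fun measurableSet_Ioi fun r hr => ?_
      have hr' : (0 : ℝ) < r := hr
      show r ^ 2 * (lapl (θ v) (r ^ 2) * (r ^ 2) ^ j) =
        r ^ (2 + 2 * j) * nodeR (P.D.leaf v) ((datOf P).k v) r
      rw [hnode v r hr', k_eq, pow_add, pow_mul]
      ring
    have h0 := mu_pos (B4_leaf hP v) (B4_k P v) 0
    rw [e1]
    unfold nm
    rw [mul_assoc (4 * Real.pi), mul_div_cancel₀ _ h0.ne']
  have hoff : ∀ v w, v ≠ w → ¬ P.D.graph.Adj v w → (lkm P.D)⁻¹ v w = 0 := by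
    intro v w hvw ha
    rw [lkm_inv hG, inv_off hG hvw ha, Rat.cast_zero]
  have hsum : ∑ i ∈ (univ : Finset Unit), (((fun _ : Unit => P) i).n + 1) = P.n + 1 := by simp
  refine ⟨fun h => ∫ u in {u : Fin (P.n + 1) → ℝ | ∀ v, 0 < u v},
    ((∏ v, θ v (u v) : ℝ) : ℂ) * Kf (lkm P.D) h u,
    ((volume : Measure (Fin (P.n + 1) × Fin 3 → ℝ)).withDensity
      fun X => ENNReal.ofReal (dens θ X)).map (qf (lkm P.D)⁻¹), ?_⟩
  refine ⟨?_, ?_, ?_, ?_, ?_⟩
  · have e : ∏ i ∈ (univ : Finset Unit), part (((fun _ : Unit => P) i).D) = part P.D := by simp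
    rw [e]
    exact hg_F (isKer hG) hθ
  · infer_instance
  · obtain ⟨c, hc0, hk⟩ := kernel_gauss_norm (lkm P.D) (B4_herm hG) (lkm_det hG)
    rw [Fintype.card_fin] at hc0
    refine ⟨c, ?_, ?_⟩
    · rw [hsum]
      have e : ∏ i ∈ (univ : Finset Unit), |(lkm ((fun _ : Unit => P) i).D).det| =
          |(lkm P.D).det| := by simp
      rw [e]
      exact hc0
    intro t ht
    rw [hsum]
    rw [charFun_apply_real, integral_map hc.aemeasurable (by
      refine Continuous.aestronglyMeasurable ?_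
      fun_prop), integral_withDensity_eq_integral_toReal_smul₀ hmeas (by simp)]
    have e1 : ∀ X : Fin (P.n + 1) × Fin 3 → ℝ, (ENNReal.ofReal (dens θ X)).toReal •
        Complex.exp (t * (qf (lkm P.D)⁻¹ X : ℝ) * Complex.I) =
        ((dens θ X : ℝ) : ℂ) * Complex.exp (Complex.I * ((t * qf (lkm P.D)⁻¹ X : ℝ) : ℂ)) := by
      intro X
      rw [ENNReal.toReal_ofReal (hd0 X).le, Complex.real_smul]
      push_cast
      congr 2
      ring
    simp only [e1]
    rw [← dens_fubini hθ (fun X => t * qf (lkm P.D)⁻¹ X) (by fun_prop)]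
    have hms : MeasurableSet {u : Fin (P.n + 1) → ℝ | ∀ v, 0 < u v} := by
      have : {u : Fin (P.n + 1) → ℝ | ∀ v, 0 < u v} = ⋂ v, {u | 0 < u v} := by
        ext u
        simp
      rw [this]
      exact MeasurableSet.iInter fun v => measurableSet_lt measurable_const (measurable_pi_apply v)
    rw [← integral_const_mul]
    refine setIntegral_congr_fun hms fun u hu => ?_
    have h1 := hk t u ht hu
    have e2 : ∀ X : Fin (P.n + 1) × Fin 3 → ℝ,
        Complex.exp (-((∑ v, u v * ∑ i, X (v, i) ^ 2 : ℝ) : ℂ) +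
          Complex.I * ((t * qf (lkm P.D)⁻¹ X : ℝ) : ℂ)) =
        Complex.exp (-((∑ v, u v * ∑ i, X (v, i) ^ 2 : ℝ) : ℂ) +
          Complex.I * t * ((qf (lkm P.D)⁻¹ X : ℝ) : ℂ)) := by
      intro X
      congr 2
      push_cast
      ring
    simp only [e2, h1, Fintype.card_fin]
    push_cast
    ring
  · intro n
    rw [integrable_map_measure (by
      refine Continuous.aestronglyMeasurable ?_
      fun_prop) hc.aemeasurable]
    rw [integrable_withDensity_iff_integrable_smul₀' hmeas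
      (Filter.Eventually.of_forall fun X => ENNReal.ofReal_lt_top)]
    refine (qf_integrable hrad (lkm P.D)⁻¹ n).congr (Filter.Eventually.of_forall fun X => ?_)
    show (∏ v, lapl (θ v) (∑ i, X (v, i) ^ 2)) * qf (lkm P.D)⁻¹ X ^ n =
      (ENNReal.ofReal (dens θ X)).toReal • (qf (lkm P.D)⁻¹ X ^ n)
    rw [ENNReal.toReal_ofReal (hd0 X).le, smul_eq_mul]
    rfl
  · intro n
    rw [integral_map hc.aemeasurable (by
      refine Continuous.aestronglyMeasurable ?_
      fun_prop), integral_withDensity_eq_integral_toReal_smul₀ hmeas (by simp)]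
    have e1 : ∀ X : Fin (P.n + 1) × Fin 3 → ℝ, (ENNReal.ofReal (dens θ X)).toReal •
        (qf (lkm P.D)⁻¹ X ^ n) =
        (∏ v, lapl (θ v) (∑ i, X (v, i) ^ 2)) * qf (lkm P.D)⁻¹ X ^ n := by
      intro X
      rw [ENNReal.toReal_ofReal (hd0 X).le, smul_eq_mul]
      rfl
    simp only [e1]
    rw [qf_moment hrad hG.tree.isAcyclic (lkm P.D)⁻¹ (B4_symm P.D) hoff _ _ hm n]
    have hZ : ZZ (eds P.D.graph) (fun v => (lkm P.D)⁻¹ v v)
        (fun e => Sym2.lift ⟨fun u v => (lkm P.D)⁻¹ u v * (lkm P.D)⁻¹ v u,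
          fun _ _ => mul_comm _ _⟩ e)
        (fun v j => nm (P.D.leaf v) ((datOf P).k v) j) =
        (datOf P).Z fun v j => nm (P.D.leaf v) ((datOf P).k v) j := by
      have a1 : (fun v => (lkm P.D)⁻¹ v v) = fun v => (((datOf P).q v : ℚ) : ℝ) :=
        funext fun v => lkm_inv hG v v
      have a2 : (fun e => Sym2.lift ⟨fun u v => (lkm P.D)⁻¹ u v * (lkm P.D)⁻¹ v u,
          fun _ _ => mul_comm _ _⟩ e) = fun e => (((datOf P).w e : ℚ) : ℝ) := by
        funext e
        induction e using Sym2.ind with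
        | _ u v =>
          show (lkm P.D)⁻¹ u v * (lkm P.D)⁻¹ v u =
            ((((lkq P.D)⁻¹ u v * (lkq P.D)⁻¹ v u : ℚ)) : ℝ)
          rw [lkm_inv hG, lkm_inv hG, Rat.cast_mul]
      rw [a1, a2]
      rfl
    rw [hZ]
    have e3 : ∏ i ∈ (univ : Finset Unit), ∏ v, 4 * Real.pi *
        mu (((fun _ : Unit => P) i).D.leaf v) ((datOf ((fun _ : Unit => P) i)).k v) 0 =
        ∏ v, 4 * Real.pi * mu (P.D.leaf v) ((datOf P).k v) 0 := by simp
    have e4 : ∏ i ∈ (univ : Finset Unit), ((datOf ((fun _ : Unit => P) i)).Z fun v j =>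
        nm (((fun _ : Unit => P) i).D.leaf v) ((datOf ((fun _ : Unit => P) i)).k v) j) =
        (datOf P).Z fun v j => nm (P.D.leaf v) ((datOf P).k v) j := by simp
    rw [e3, e4]

end Pool.Agent.GSP
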