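import Pool.Agent.GSP.Defs
import Pool.Agent.GSP.A3
import Pool.Agent.GSP.A4

set_option autoImplicit false

open Finset MeasureTheory

namespace Pool.Agent.GSP

private theorem A4b_eval (k : ℕ) (x : ℝ) :
    ((binP k).map (algebraMap ℚ ℝ)).eval x =
      1 / ((k - 1).factorial : ℝ) * ∏ i ∈ range (k - 1), (x + ((k : ℝ) / 2 - (i + 1))) := by
  unfold binP
  rw [Polynomial.map_mul, Polynomial.eval_mul, Polynomial.map_C, Polynomial.eval_C,
    Polynomial.map_prod, Polynomial.eval_prod]
  congr 1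
  · simp
  · refine prod_congr rfl fun i _ => ?_
    simp

private theorem A4b_neg (k : ℕ) (x : ℝ) :
    ((binP k).map (algebraMap ℚ ℝ)).eval (-x) =
      (-1) ^ (k - 1) * ((binP k).map (algebraMap ℚ ℝ)).eval x := by
  rw [A4b_eval, A4b_eval, ← prod_range_reflect]
  have h : ∀ j ∈ range (k - 1), (-x + ((k : ℝ) / 2 - (((k - 1 - 1 - j : ℕ) : ℝ) + 1))) =
      (-1) * (x + ((k : ℝ) / 2 - (j + 1))) := by
    intro j hj
    have hj' := mem_range.mp hj
    have e : ((k - 1 - 1 - j : ℕ) : ℝ) = (k : ℝ) - 2 - j := by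
      have : k - 1 - 1 - j + (2 + j) = k := by omega
      have h2 : ((k - 1 - 1 - j : ℕ) : ℝ) + (2 + j) = k := by exact_mod_cast this
      linarith
    rw [e]
    ring
  rw [prod_congr rfl h, prod_mul_distrib, prod_const, card_range]
  ring

private theorem A4b_zero {k : ℕ} {n : ℤ} (h1 : -(k : ℤ) < n) (h2 : n < 0) :
    ((binP k).map (algebraMap ℚ ℝ)).eval ((n : ℝ) + k / 2) = 0 := by
  rw [A4b_eval]
  have hm : (n + k - 1).toNat ∈ range (k - 1) := by
    rw [mem_range]
    omega
  rw [prod_eq_zero hm, mul_zero]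
  have e : (((n + k - 1).toNat : ℕ) : ℝ) = (n : ℝ) + k - 1 := by
    have : (((n + k - 1).toNat : ℕ) : ℤ) = n + k - 1 := by omega
    exact_mod_cast congrArg (Int.cast (R := ℝ)) this
  rw [e]
  ring

private theorem A4b_deg {k : ℕ} (hk : 1 ≤ k) : (binP k).natDegree < k := by
  have h1 : (binP k).natDegree ≤ k - 1 := by
    unfold binP
    refine (Polynomial.natDegree_C_mul_le _ _).trans ?_
    refine (Polynomial.natDegree_prod_le _ _).trans ?_
    calc ∑ i ∈ range (k - 1), (Polynomial.X + Polynomial.C ((k : ℚ) / 2 - (i + 1))).natDegree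
        = ∑ i ∈ range (k - 1), 1 := by
          refine sum_congr rfl fun i _ => ?_
          exact Polynomial.natDegree_X_add_C _
      _ = k - 1 := by simp
      _ ≤ k - 1 := le_refl _
  omega

private theorem A4b_parity {k : ℕ} (i : ℕ) (h : Odd (i + (k - 1))) : (binP k).coeff i = 0 := by
  have h1 : ((binP k).map (algebraMap ℚ ℝ)).comp (Polynomial.C (-1) * Polynomial.X) =
      Polynomial.C ((-1) ^ (k - 1)) * (binP k).map (algebraMap ℚ ℝ) := by
    apply Polynomial.funext
    intro x
    rw [Polynomial.eval_comp, Polynomial.eval_mul, Polynomial.eval_mul, Polynomial.eval_C,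
      Polynomial.eval_C, Polynomial.eval_X, neg_one_mul, A4b_neg]
  have h2 := congrArg (fun P => Polynomial.coeff P i) h1
  simp only [Polynomial.comp_C_mul_X_coeff, Polynomial.coeff_C_mul, Polynomial.coeff_map] at h2
  have h3 : ((-1 : ℝ)) ^ i = -((-1) ^ (k - 1)) := by
    have h4 : ((-1 : ℝ)) ^ (i + (k - 1)) = -1 := h.neg_one_pow
    have h5 : ((-1 : ℝ)) ^ (k - 1) * (-1) ^ (k - 1) = 1 := by
      rw [← pow_add, ← two_mul, pow_mul]
      simp
    rw [pow_add] at h4
    calc ((-1 : ℝ)) ^ i = (-1) ^ i * ((-1) ^ (k - 1) * (-1) ^ (k - 1)) := by rw [h5, mul_one]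
      _ = ((-1) ^ i * (-1) ^ (k - 1)) * (-1) ^ (k - 1) := by ring
      _ = -((-1) ^ (k - 1)) := by rw [h4]; ring
  rw [h3] at h2
  have h6 : ((-1 : ℝ)) ^ (k - 1) ≠ 0 := pow_ne_zero _ (by norm_num)
  have h7 : (algebraMap ℚ ℝ) ((binP k).coeff i) = 0 := by
    have : ((-1 : ℝ)) ^ (k - 1) * (algebraMap ℚ ℝ) ((binP k).coeff i) = 0 := by linarith
    exact (mul_eq_zero.mp this).resolve_left h6
  exact (map_eq_zero _).mp h7

private theorem A4b_sum_taylor {k : ℕ} (hk : 1 ≤ k) (a : ℚ) (x : ℝ) :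
    ((binP k).map (algebraMap ℚ ℝ)).eval x =
      ∑ i ∈ range k, (((Polynomial.taylor a (binP k)).coeff i : ℚ) : ℝ) * (x - a) ^ i := by
  have h1 : ((Polynomial.taylor a (binP k)).map (algebraMap ℚ ℝ)).eval (x - a) =
      ((binP k).map (algebraMap ℚ ℝ)).eval x := by
    rw [Polynomial.taylor_apply, Polynomial.map_comp, Polynomial.eval_comp]
    simp
  rw [← h1, Polynomial.eval_eq_sum_range' (n := k)]
  · refine sum_congr rfl fun i _ => ?_
    rw [Polynomial.coeff_map]
    rfl
  · refine lt_of_le_of_lt Polynomial.natDegree_map_le ?_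
    rw [Polynomial.natDegree_taylor]
    exact A4b_deg hk

private theorem A4b_split {f : ℤ → ℝ} {k : ℕ} (hk : 1 ≤ k) (hf : Summable f)
    (h0 : ∀ n : ℤ, -(k : ℤ) < n → n < 0 → f n = 0) :
    ∑' n : ℤ, f n = ∑' n : ℕ, f n + ∑' n : ℕ, f (-(n : ℤ) - k) := by
  have h1 : Summable fun n : ℕ => f (n : ℤ) := hf.comp_injective Nat.cast_injective
  have h2 : Summable fun n : ℕ => f (-((n : ℤ) + 1)) := by
    apply hf.comp_injective (i := fun n : ℕ => -((n : ℤ) + 1))
    intro a b hab
    simp only at hab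
    omega
  rw [tsum_of_nat_of_neg_add_one h1 h2]
  congr 1
  rw [← h2.sum_add_tsum_nat_add (k - 1)]
  have h3 : ∑ i ∈ range (k - 1), f (-((i : ℤ) + 1)) = 0 := by
    refine sum_eq_zero fun i hi => ?_
    have := mem_range.mp hi
    exact h0 _ (by omega) (by omega)
  rw [h3, zero_add]
  refine tsum_congr fun n => ?_
  congr 1
  have : ((n + (k - 1) : ℕ) : ℤ) = n + k - 1 := by omega
  rw [this]
  ring

private theorem A4b_al_compl {S T : Finset ℕ} (hT : T ⊆ S) : al S (S \ T) = -al S T := by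
  unfold al
  rw [Finset.sdiff_sdiff_eq_self hT]
  ring

private theorem A4b_main {S : Finset ℕ} (hS : IsLeaf S) {k : ℕ} (hk : 1 ≤ k) (j : ℕ)
    (V : Finset ℕ → ℝ) (hV : ∀ T ∈ S.powerset, HasSum (fun n : ℤ =>
      ((binP k).map (algebraMap ℚ ℝ)).eval ((n : ℝ) + k / 2) /
        ((n : ℝ) + k / 2 - (al S T : ℝ)) ^ (ex S k j + 1)) (V T)) :
    mu S k j = (∏ p ∈ S, (p : ℝ)) * ((ex S k j).factorial : ℝ) / 2 *
      ∑ T ∈ S.powerset, (-1) ^ (S \ T).card * V T := by
  have hcard := hS.card_le
  set g : Finset ℕ → ℤ → ℝ := fun T n => ((binP k).map (algebraMap ℚ ℝ)).eval ((n : ℝ) + k / 2) /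
        ((n : ℝ) + k / 2 - (al S T : ℝ)) ^ (ex S k j + 1) with hg
  set A : Finset ℕ → ℝ := fun T => ∑' n : ℕ, g T n with hA
  have hmu : mu S k j = (∏ p ∈ S, (p : ℝ)) * ((ex S k j).factorial : ℝ) *
      ∑ T ∈ S.powerset, (-1) ^ (S \ T).card * A T := by
    rw [mu_eq_tsum hS hk j]
    simp only [hA, hg, Int.cast_natCast]
  have hVT : ∀ T ∈ S.powerset, V T = A T + (-1) ^ S.card * A (S \ T) := by
    intro T hT
    have hTS := mem_powerset.mp hT
    rw [← (hV T hT).tsum_eq, A4b_split hk (hV T hT).summable]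
    · congr 1
      simp only [hA]
      rw [← tsum_mul_left]
      refine tsum_congr fun n => ?_
      simp only [hg]
      have e1 : (((-(n : ℤ) - k : ℤ)) : ℝ) + k / 2 = -((n : ℝ) + k / 2) := by
        push_cast
        ring
      rw [e1, A4b_neg, A4b_al_compl hTS]
      have e2 : -((n : ℝ) + k / 2) - (al S T : ℝ) = -(((n : ℝ) + k / 2) - ((-al S T : ℚ) : ℝ)) := by
        push_cast
        ring
      rw [e2, Int.cast_natCast]
      have e3 : ((-1 : ℝ)) ^ S.card * (-1) ^ (ex S k j + 1) = (-1) ^ (k - 1) := by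
        rw [← pow_add]
        have h4 : S.card + (ex S k j + 1) = (k - 1) + 2 * (j + 2) := by
          unfold ex
          omega
        rw [h4, pow_add, pow_mul]
        simp
      have e5 : (-(((n : ℝ) + k / 2) - ((-al S T : ℚ) : ℝ))) ^ (ex S k j + 1) =
          (-1) ^ (ex S k j + 1) * (((n : ℝ) + k / 2) - ((-al S T : ℚ) : ℝ)) ^ (ex S k j + 1) :=
        neg_pow _ _
      have hu : ((-1 : ℝ)) ^ (ex S k j + 1) ≠ 0 := pow_ne_zero _ (by norm_num)
      rw [e5, ← e3, mul_assoc, mul_div_assoc, mul_div_mul_left _ _ hu]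
    · intro n h1 h2
      rw [A4b_zero h1 h2, zero_div]
  have hsum : ∑ T ∈ S.powerset, (-1) ^ (S \ T).card * V T =
      2 * ∑ T ∈ S.powerset, (-1) ^ (S \ T).card * A T := by
    have h1 : ∑ T ∈ S.powerset, (-1 : ℝ) ^ (S \ T).card * V T =
        ∑ T ∈ S.powerset, (-1) ^ (S \ T).card * A T +
          ∑ T ∈ S.powerset, (-1) ^ (S \ T).card * ((-1) ^ S.card * A (S \ T)) := by
      rw [← sum_add_distrib]
      refine sum_congr rfl fun T hT => ?_
      rw [hVT T hT]
      ring
    have h2 : ∑ T ∈ S.powerset, (-1 : ℝ) ^ (S \ T).card * ((-1) ^ S.card * A (S \ T)) =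
        ∑ T ∈ S.powerset, (-1) ^ (S \ T).card * A T := by
      refine sum_nbij' (fun T => S \ T) (fun T => S \ T) ?_ ?_ ?_ ?_ ?_
      · intro T _
        exact mem_powerset.mpr sdiff_subset
      · intro T _
        exact mem_powerset.mpr sdiff_subset
      · intro T hT
        exact Finset.sdiff_sdiff_eq_self (mem_powerset.mp hT)
      · intro T hT
        exact Finset.sdiff_sdiff_eq_self (mem_powerset.mp hT)
      · intro T hT
        have hTS := mem_powerset.mp hT
        rw [Finset.sdiff_sdiff_eq_self hTS]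
        have h3 : (S \ T).card + T.card = S.card := card_sdiff_add_card_eq_card hTS
        have h4 : ((-1 : ℝ)) ^ (S \ T).card * (-1) ^ S.card = (-1) ^ T.card := by
          rw [← h3, ← pow_add]
          have : (S \ T).card + ((S \ T).card + T.card) = 2 * (S \ T).card + T.card := by ring
          rw [this, pow_add, pow_mul]
          simp
        rw [← mul_assoc, h4]
    rw [h1, h2]
    ring
  rw [hmu, hsum]
  ring

private theorem A4b_al_lt {S : Finset ℕ} (hS : IsLeaf S) (hne : S ≠ ∅) {T : Finset ℕ}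
    (hT : T ⊆ S) : 2 * al S T ≠ 0 ∧ |2 * al S T| < 1 := by
  have h0 : 2 * al S T = ∑ p ∈ S, (if p ∈ T then (1 : ℚ) / p else -((1 : ℚ) / p)) := by
    unfold al
    rw [sum_ite, filter_mem_eq_inter, inter_eq_right.mpr hT, sum_neg_distrib]
    have : S.filter (fun p => p ∉ T) = S \ T := by
      ext x
      simp
    rw [this]
    ring
  have hc := hS.card_le
  have hc1 : 1 ≤ S.card := Nat.one_le_iff_ne_zero.mpr fun h => hne (card_eq_zero.mp h)
  have hb : ∀ p ∈ S, 0 < (1 : ℚ) / p ∧ (1 : ℚ) / p ≤ 1 / 2 := by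
    intro p hp
    have h2 : (2 : ℚ) ≤ p := by exact_mod_cast hS.two_le p hp
    refine ⟨by positivity, ?_⟩
    exact one_div_le_one_div_of_le (by norm_num) h2
  rcases Nat.lt_or_ge S.card 2 with h | h
  · obtain ⟨p, hp⟩ := card_eq_one.mp (by omega : S.card = 1)
    obtain ⟨h1, h2⟩ := hb p (by rw [hp]; exact mem_singleton_self p)
    rw [h0, hp, sum_singleton]
    split_ifs
    · exact ⟨h1.ne', by rw [abs_of_pos h1]; linarith⟩
    · refine ⟨by linarith, ?_⟩
      rw [abs_neg, abs_of_pos h1]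
      linarith
  · obtain ⟨p, q, hpq, hp⟩ := card_eq_two.mp (by omega : S.card = 2)
    obtain ⟨h1, h2⟩ := hb p (by rw [hp]; simp)
    obtain ⟨h3, h4⟩ := hb q (by rw [hp]; simp)
    have hp0 : (p : ℚ) ≠ 0 := by
      have := hS.two_le p (by rw [hp]; simp)
      exact_mod_cast (by omega : p ≠ 0)
    have hq0 : (q : ℚ) ≠ 0 := by
      have := hS.two_le q (by rw [hp]; simp)
      exact_mod_cast (by omega : q ≠ 0)
    have h5 : (1 : ℚ) / p ≠ 1 / q := by
      intro h6
      rw [div_eq_div_iff hp0 hq0, one_mul, one_mul] at h6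
      exact hpq (by exact_mod_cast h6.symm)
    rw [h0, hp, sum_pair hpq]
    have h6 : (1 : ℚ) / p + 1 / q < 1 := by
      rcases lt_or_gt_of_ne h5 with h | h <;> linarith
    split_ifs
    · refine ⟨by linarith, ?_⟩
      rw [abs_lt]
      constructor <;> linarith
    · refine ⟨fun h7 => h5 (by linarith), ?_⟩
      rw [abs_lt]
      constructor <;> linarith
    · refine ⟨fun h7 => h5 (by linarith), ?_⟩
      rw [abs_lt]
      constructor <;> linarith
    · refine ⟨by linarith, ?_⟩
      rw [abs_lt]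
      constructor <;> linarith

private theorem A4b_nonint {S : Finset ℕ} (hS : IsLeaf S) (hne : S ≠ ∅) {T : Finset ℕ}
    (hT : T ⊆ S) (k : ℕ) (n : ℤ) : (k : ℝ) / 2 - (al S T : ℝ) ≠ n := by
  intro h
  obtain ⟨h1, h2⟩ := A4b_al_lt hS hne hT
  have h3 : (2 * al S T : ℚ) = ((k : ℤ) - 2 * n : ℤ) := by
    have h4 : (2 : ℝ) * (al S T : ℝ) = (k : ℝ) - 2 * n := by linarith
    exact_mod_cast h4
  rw [h3] at h1 h2
  have h5 : |((k : ℤ) - 2 * n)| < 1 := by exact_mod_cast h2
  have h6 : ((k : ℤ) - 2 * n) ≠ 0 := by exact_mod_cast h1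
  exact h6 (Int.abs_lt_one_iff.mp h5)

private theorem A4b_ct_neg (x : ℝ) : ct (-x) = -ct x := by
  unfold ct
  rw [mul_neg, Real.cos_neg, Real.sin_neg, div_neg]

/-- the moments as polynomials in `π` -/
theorem mu_eq_YY {S : Finset ℕ} (hS : IsLeaf S) {k : ℕ} (hk : 1 ≤ k) (j : ℕ) :
    mu S k j = (YY S k j 1).eval Real.pi := by
  by_cases hne : S = ∅
  · subst hne
    have hterm : ∀ i ∈ range k, HasSum (fun n : ℤ => ((binP k).coeff i : ℝ) *
        (if (n : ℝ) + k / 2 = 0 then 0 else 1 / ((n : ℝ) + k / 2) ^ (k + 3 + 2 * j - i)))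
        (((binP k).coeff i : ℝ) * (Real.pi ^ (k + 3 + 2 * j - i) *
          (sg k (k + 3 + 2 * j - i) : ℝ))) := by
      intro i hi
      have hi' := mem_range.mp hi
      rcases Nat.even_or_odd (k + 3 + 2 * j - i) with he | ho
      · exact (sg_tsum k (by omega) he).mul_left _
      · have h0 : (binP k).coeff i = 0 := by
          apply A4b_parity
          rw [Nat.odd_iff] at ho ⊢
          omega
        rw [h0]
        simp only [Rat.cast_zero, zero_mul]
        exact hasSum_zero
    have hV := A4b_main hS hk j (fun _ => ∑ i ∈ range k, ((binP k).coeff i : ℝ) *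
      (Real.pi ^ (k + 3 + 2 * j - i) * (sg k (k + 3 + 2 * j - i) : ℝ))) (by
      intro T hT
      have hT0 : T = ∅ := subset_empty.mp (mem_powerset.mp hT)
      subst hT0
      have hs := hasSum_sum hterm
      have hfun : (fun n : ℤ => ((binP k).map (algebraMap ℚ ℝ)).eval ((n : ℝ) + k / 2) /
          ((n : ℝ) + k / 2 - (al ∅ ∅ : ℝ)) ^ (ex ∅ k j + 1)) =
          fun n : ℤ => ∑ i ∈ range k, ((binP k).coeff i : ℝ) *
            (if (n : ℝ) + k / 2 = 0 then 0 else
              1 / ((n : ℝ) + k / 2) ^ (k + 3 + 2 * j - i)) := by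
        funext n
        have ha : (al ∅ ∅ : ℝ) = 0 := by simp [al]
        rw [ha, sub_zero]
        by_cases hx : (n : ℝ) + k / 2 = 0
        · rw [hx, zero_pow (Nat.succ_ne_zero _), div_zero]
          simp
        · simp only [if_neg hx]
          have hB := A4b_sum_taylor hk 0 ((n : ℝ) + k / 2)
          rw [Polynomial.taylor_zero] at hB
          rw [hB, sum_div]
          refine sum_congr rfl fun i hi => ?_
          have hi' := mem_range.mp hi
          have he : ex ∅ k j + 1 = (k + 3 + 2 * j - i) + i := by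
            unfold ex
            rw [card_empty]
            omega
          rw [he, pow_add, Rat.cast_zero, sub_zero, mul_one_div,
            mul_div_mul_right _ _ (pow_ne_zero i hx)]
      rw [hfun]
      exact hs)
    rw [hV]
    unfold YY
    rw [if_pos rfl]
    simp only [powerset_empty, sum_singleton, prod_empty, card_empty, sdiff_self, bot_eq_empty,
      pow_zero, one_mul, Polynomial.eval_mul, Polynomial.eval_C, Polynomial.eval_finsetSum,
      Polynomial.eval_pow, Polynomial.eval_X, ex, Nat.sub_zero]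
    congr 1
    refine sum_congr rfl fun i _ => ?_
    push_cast
    ring
  · have hV := A4b_main hS hk j (fun T => ∑ i ∈ range k,
      (((Polynomial.taylor (al S T) (binP k)).coeff i : ℚ) : ℝ) *
        (Real.pi ^ (ex S k j + 1 - i) * ((cotP (ex S k j + 1 - i)).map (algebraMap ℚ ℝ)).eval
          (ct ((k : ℝ) / 2 - (al S T : ℝ))))) (by
      intro T hT
      have hTS := mem_powerset.mp hT
      have hz := A4b_nonint hS hne hTS k
      have hc := hS.card_le
      have hterm : ∀ i ∈ range k, HasSum (fun n : ℤ =>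
          (((Polynomial.taylor (al S T) (binP k)).coeff i : ℚ) : ℝ) *
            (1 / ((n : ℝ) + ((k : ℝ) / 2 - (al S T : ℝ))) ^ (ex S k j + 1 - i)))
          ((((Polynomial.taylor (al S T) (binP k)).coeff i : ℚ) : ℝ) *
            (Real.pi ^ (ex S k j + 1 - i) *
              ((cotP (ex S k j + 1 - i)).map (algebraMap ℚ ℝ)).eval
                (ct ((k : ℝ) / 2 - (al S T : ℝ))))) := by
        intro i hi
        have hi' := mem_range.mp hi
        refine (cot_tsum ?_ hz).mul_left _
        unfold ex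
        omega
      have hs := hasSum_sum hterm
      have hfun : (fun n : ℤ => ((binP k).map (algebraMap ℚ ℝ)).eval ((n : ℝ) + k / 2) /
          ((n : ℝ) + k / 2 - (al S T : ℝ)) ^ (ex S k j + 1)) =
          fun n : ℤ => ∑ i ∈ range k,
            (((Polynomial.taylor (al S T) (binP k)).coeff i : ℚ) : ℝ) *
            (1 / ((n : ℝ) + ((k : ℝ) / 2 - (al S T : ℝ))) ^ (ex S k j + 1 - i)) := by
        funext n
        have hx : (n : ℝ) + k / 2 - (al S T : ℝ) ≠ 0 := by
          intro h
          apply hz (-n)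
          push_cast
          linarith
        have hx' : (n : ℝ) + ((k : ℝ) / 2 - (al S T : ℝ)) = (n : ℝ) + k / 2 - (al S T : ℝ) := by
          ring
        rw [hx', A4b_sum_taylor hk (al S T) ((n : ℝ) + k / 2), sum_div]
        refine sum_congr rfl fun i hi => ?_
        have hi' := mem_range.mp hi
        have he : ex S k j + 1 = (ex S k j + 1 - i) + i := by
          unfold ex
          omega
        rw [mul_one_div]
        conv_lhs => rw [he, pow_add]
        rw [mul_div_mul_right _ _ (pow_ne_zero i hx)]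
      rw [hfun]
      exact hs)
    rw [hV]
    unfold YY
    rw [if_neg hne]
    simp only [Polynomial.eval_mul, Polynomial.eval_C, Polynomial.eval_finsetSum,
      Polynomial.eval_pow, Polynomial.eval_X, Polynomial.eval_neg, Polynomial.eval_one]
    congr 1
    refine sum_congr rfl fun T _ => ?_
    congr 1
    refine sum_congr rfl fun i _ => ?_
    have h1 : ((1 : ℤ) : ℝ) * (al S T : ℝ) - (k : ℝ) / 2 = -((k : ℝ) / 2 - (al S T : ℝ)) := by
      push_cast
      ring
    rw [h1, A4b_ct_neg, cotP_neg, ← mul_assoc ((-1 : ℝ) ^ (ex S k j + 1 - i)),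
      ← pow_add, ← two_mul, pow_mul]
    norm_num
    ring

end Pool.Agent.GSP
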