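import Pool.Agent.GSP.Defs
import Pool.Agent.GSP.A2
import Pool.Agent.GSP.A3
import Pool.Agent.GSP.A4b

set_option autoImplicit false

open Finset MeasureTheory

namespace Pool.Agent.GSP

private theorem A5_zt_add (N : ℕ) (a b : ℤ) : zt N (a + b) = zt N a * zt N b := by
  unfold zt
  rw [← Complex.exp_add]
  congr 1
  push_cast
  ring

private theorem A5_zt_pow (N : ℕ) (a : ℤ) (n : ℕ) : zt N a ^ n = zt N (a * n) := by
  unfold zt
  rw [← Complex.exp_nat_mul]
  congr 1
  push_cast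
  ring

private theorem A5_zt_mul_N {N : ℕ} (hN : 0 < N) (a : ℤ) : zt N (N * a) = 1 := by
  unfold zt
  have h : (2 * Real.pi * Complex.I * ((N * a : ℤ) : ℂ) / N : ℂ) =
      a * (2 * Real.pi * Complex.I) := by
    have hN' : (N : ℂ) ≠ 0 := by exact_mod_cast hN.ne'
    push_cast
    field_simp
  rw [h, Complex.exp_int_mul_two_pi_mul_I]

private theorem A5_gal_zt {N : ℕ} (hN : 0 < N) {s : ℤ} (hs : IsCoprime s (N : ℤ)) (a : ℤ) :
    Gal N s (zt N a) (RatFunc.C (zt N (s * a))) := by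
  obtain ⟨m, hm⟩ : ∃ m : ℕ, ∃ b : ℤ, a = m + N * b := by
    refine ⟨(a % N).toNat, a / N, ?_⟩
    have h1 : 0 ≤ a % (N : ℤ) := Int.emod_nonneg _ (by exact_mod_cast hN.ne')
    have h2 := Int.emod_add_mul_ediv a N
    omega
  obtain ⟨b, hb⟩ := hm
  have h := Gal.of_ev hN hs (Polynomial.C ((Polynomial.X : Polynomial ℚ) ^ m))
  have h1 : ev N (Polynomial.C ((Polynomial.X : Polynomial ℚ) ^ m)) = zt N a := by
    unfold ev
    rw [Polynomial.coe_eval₂RingHom, Polynomial.eval₂_C, Polynomial.coe_eval₂RingHom,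
      Polynomial.eval₂_X_pow, A5_zt_pow, hb, A5_zt_add, A5_zt_mul_N hN, mul_one, one_mul]
  have h2 : gn N s (Polynomial.C ((Polynomial.X : Polynomial ℚ) ^ m)) =
      RatFunc.C (zt N (s * a)) := by
    unfold gn
    rw [Polynomial.coe_eval₂RingHom, Polynomial.eval₂_C, Polynomial.coe_eval₂RingHom,
      Polynomial.eval₂_X_pow, ← map_pow, A5_zt_pow, hb, mul_add, A5_zt_add,
      show s * (N * b) = N * (s * b) by ring, A5_zt_mul_N hN, mul_one]
  rw [h1, h2] at h
  exact h

private theorem A5_gal_pi {N : ℕ} (hN : 0 < N) {s : ℤ} (hs : IsCoprime s (N : ℤ)) :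
    Gal N s ((Real.pi : ℝ) : ℂ) (RatFunc.C (chi s) * RatFunc.X) := by
  have h := Gal.of_ev hN hs (Polynomial.X : Polynomial (Polynomial ℚ))
  have h1 : ev N (Polynomial.X : Polynomial (Polynomial ℚ)) = ((Real.pi : ℝ) : ℂ) := by
    unfold ev
    rw [Polynomial.coe_eval₂RingHom, Polynomial.eval₂_X]
  have h2 : gn N s (Polynomial.X : Polynomial (Polynomial ℚ)) =
      RatFunc.C (chi s) * RatFunc.X := by
    unfold gn
    rw [Polynomial.coe_eval₂RingHom, Polynomial.eval₂_X]
  rw [h1, h2] at h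
  exact h

private theorem A5_gal_poly {N : ℕ} (hN : 0 < N) {s : ℤ} (hs : IsCoprime s (N : ℤ))
    (P : Polynomial ℚ) {x : ℂ} {y : RatFunc ℂ} (h : Gal N s x y) :
    Gal N s ((P.map (algebraMap ℚ ℂ)).eval x) ((P.map (algebraMap ℚ (RatFunc ℂ))).eval y) := by
  rw [Polynomial.eval_map, Polynomial.eval_map, Polynomial.eval₂_eq_sum_range,
    Polynomial.eval₂_eq_sum_range]
  refine Gal.sum hN hs _ fun i _ => ?_
  exact Gal.mul hN hs (Gal.rat hN hs (P.coeff i)) (Gal.pow hN hs h i)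

private theorem A5_cast_eval (P : Polynomial ℚ) (x : ℝ) :
    (((P.map (algebraMap ℚ ℝ)).eval x : ℝ) : ℂ) = (P.map (algebraMap ℚ ℂ)).eval (x : ℂ) := by
  rw [Polynomial.eval_map, Polynomial.eval_map]
  have h := Polynomial.hom_eval₂ P (algebraMap ℚ ℝ) (algebraMap ℝ ℂ) x
  rw [Complex.coe_algebraMap] at h
  rw [h]
  congr 1

private theorem A5_C_eval (P : Polynomial ℚ) (x : ℂ) :
    (P.map (algebraMap ℚ (RatFunc ℂ))).eval (RatFunc.C x) =
      RatFunc.C ((P.map (algebraMap ℚ ℂ)).eval x) := by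
  rw [Polynomial.eval_map, Polynomial.eval_map]
  have h := Polynomial.hom_eval₂ P (algebraMap ℚ ℂ) (RatFunc.C : ℂ →+* RatFunc ℂ) x
  rw [h]
  congr 1
  exact Subsingleton.elim _ _

private theorem A5_chi {s : ℤ} (hs : Odd s) : chi s = 1 ∨ chi s = -1 := by
  have h1 : zt 4 s ^ 2 = -1 := by
    rw [A5_zt_pow]
    obtain ⟨m, hm⟩ := hs
    have h2 : s * ((2 : ℕ) : ℤ) = 4 * m + 2 := by
      rw [hm]
      push_cast
      ring
    rw [h2, A5_zt_add]
    have h3 : zt 4 (4 * m) = 1 := A5_zt_mul_N (N := 4) (by norm_num) m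
    rw [h3, one_mul]
    unfold zt
    have h4 : (2 * Real.pi * Complex.I * ((2 : ℤ) : ℂ) / ((4 : ℕ) : ℂ) : ℂ) =
        Real.pi * Complex.I := by
      push_cast
      ring
    rw [h4, Complex.exp_pi_mul_I]
  have h2 : chi s ^ 2 = 1 := by
    unfold chi
    rw [div_pow, h1, Complex.I_sq]
    norm_num
  exact sq_eq_one_iff.mp h2

private theorem A5_odd {N : ℕ} (h4 : 4 ∣ N) {s : ℤ} (hs : IsCoprime s (N : ℤ)) : Odd s := by
  by_contra h
  rw [Int.not_odd_iff_even] at h
  have h1 : (2 : ℤ) ∣ s := h.two_dvd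
  have h2 : (2 : ℤ) ∣ (N : ℤ) := by
    obtain ⟨c, hc⟩ := h4
    exact ⟨2 * c, by rw [hc]; push_cast; ring⟩
  have h3 := hs.isUnit_of_dvd' h1 h2
  rw [Int.isUnit_iff] at h3
  omega

/-- `cot (π z) = i (w + 1) / (w - 1)` -/
private theorem A5_cot (z : ℝ) (hz : ∀ a : ℤ, z ≠ a) :
    Complex.exp (2 * Real.pi * Complex.I * z) ≠ 1 ∧
    ((ct z : ℝ) : ℂ) = Complex.I * (Complex.exp (2 * Real.pi * Complex.I * z) + 1) /
      (Complex.exp (2 * Real.pi * Complex.I * z) - 1) := by
  have h1 : Complex.exp (2 * Real.pi * Complex.I * z) ≠ 1 := by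
    intro h
    rw [Complex.exp_eq_one_iff] at h
    obtain ⟨n, hn⟩ := h
    have h2 : (2 * Real.pi * Complex.I : ℂ) ≠ 0 := Complex.two_pi_I_ne_zero
    have h3 : (z : ℂ) = n := by
      have h4 : (2 * Real.pi * Complex.I : ℂ) * z = (2 * Real.pi * Complex.I) * n := by
        rw [hn]
        ring
      exact mul_left_cancel₀ h2 h4
    exact hz n (by exact_mod_cast h3)
  refine ⟨h1, ?_⟩
  have h5 : Complex.exp (2 * Real.pi * Complex.I * z) - 1 ≠ 0 := sub_ne_zero.mpr h1
  set u : ℂ := Complex.exp (Real.pi * z * Complex.I) with hu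
  have hu0 : u ≠ 0 := Complex.exp_ne_zero _
  have h6 : Complex.exp (2 * Real.pi * Complex.I * z) = u ^ 2 := by
    rw [hu, ← Complex.exp_nat_mul]
    congr 1
    push_cast
    ring
  have h7 : Complex.exp (-(Real.pi * z) * Complex.I) = u⁻¹ := by
    rw [hu, ← Complex.exp_neg]
    congr 1
    ring
  unfold ct
  rw [Complex.ofReal_div, Complex.ofReal_cos, Complex.ofReal_sin, Complex.ofReal_mul,
    Complex.cos, Complex.sin, h7, ← hu, h6]
  rw [h6] at h5
  have h8 : u⁻¹ - u ≠ 0 := by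
    intro h
    apply h5
    field_simp at h
    linear_combination -h
  rw [div_eq_div_iff (by
    refine div_ne_zero (mul_ne_zero h8 Complex.I_ne_zero) two_ne_zero) h5]
  have h9 : Complex.I * Complex.I = -1 := Complex.I_mul_I
  field_simp
  linear_combination (u ^ 4 - 1) * h9

private theorem A5_toC_rat (q : ℚ) : toC (Polynomial.C ((q : ℚ) : ℝ)) = ((q : ℚ) : RatFunc ℂ) := by
  have h := map_ratCast (toC.comp (Polynomial.C : ℝ →+* Polynomial ℝ)) q
  rw [RingHom.comp_apply] at h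
  exact h

private theorem A5_toC_X : toC (Polynomial.X : Polynomial ℝ) = RatFunc.X := by
  unfold toC
  rw [RingHom.comp_apply, Polynomial.coe_mapRingHom, Polynomial.map_X, RatFunc.algebraMap_X]

private theorem A5_toC_C (x : ℝ) : toC (Polynomial.C x) = RatFunc.C (x : ℂ) := by
  unfold toC
  rw [RingHom.comp_apply, Polynomial.coe_mapRingHom, Polynomial.map_C, RatFunc.algebraMap_C]
  rfl

private theorem A5_eval (k : ℕ) (x : ℝ) :
    ((binP k).map (algebraMap ℚ ℝ)).eval x =
      1 / ((k - 1).factorial : ℝ) * ∏ i ∈ range (k - 1), (x + ((k : ℝ) / 2 - (i + 1))) := by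
  unfold binP
  rw [Polynomial.map_mul, Polynomial.eval_mul, Polynomial.map_C, Polynomial.eval_C,
    Polynomial.map_prod, Polynomial.eval_prod]
  congr 1
  · simp
  · refine prod_congr rfl fun i _ => ?_
    simp

private theorem A5_neg (k : ℕ) (x : ℝ) :
    ((binP k).map (algebraMap ℚ ℝ)).eval (-x) =
      (-1) ^ (k - 1) * ((binP k).map (algebraMap ℚ ℝ)).eval x := by
  rw [A5_eval, A5_eval, ← prod_range_reflect]
  have h : ∀ j ∈ range (k - 1), (-x + ((k : ℝ) / 2 - (((k - 1 - 1 - j : ℕ) : ℝ) + 1))) =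
      (-1) * (x + ((k : ℝ) / 2 - (j + 1))) := by
    intro j hj
    have hj' := mem_range.mp hj
    have e : ((k - 1 - 1 - j : ℕ) : ℝ) = (k : ℝ) - 2 - j := by
      have : k - 1 - 1 - j + (2 + j) = k := by omega
      have h2 : ((k - 1 - 1 - j : ℕ) : ℝ) + (2 + j) = k := by exact_mod_cast this
      linarith
    rw [e]
    ring
  rw [prod_congr rfl h, prod_mul_distrib, prod_const, card_range]
  ring

private theorem A5_parity {k : ℕ} (i : ℕ) (h : Odd (i + (k - 1))) : (binP k).coeff i = 0 := by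
  have h1 : ((binP k).map (algebraMap ℚ ℝ)).comp (Polynomial.C (-1) * Polynomial.X) =
      Polynomial.C ((-1) ^ (k - 1)) * (binP k).map (algebraMap ℚ ℝ) := by
    apply Polynomial.funext
    intro x
    rw [Polynomial.eval_comp, Polynomial.eval_mul, Polynomial.eval_mul, Polynomial.eval_C,
      Polynomial.eval_C, Polynomial.eval_X, neg_one_mul, A5_neg]
  have h2 := congrArg (fun P => Polynomial.coeff P i) h1
  simp only [Polynomial.comp_C_mul_X_coeff, Polynomial.coeff_C_mul, Polynomial.coeff_map] at h2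
  have h3 : ((-1 : ℝ)) ^ i = -((-1) ^ (k - 1)) := by
    have h4 : ((-1 : ℝ)) ^ (i + (k - 1)) = -1 := h.neg_one_pow
    have h5 : ((-1 : ℝ)) ^ (k - 1) * (-1) ^ (k - 1) = 1 := by
      rw [← pow_add, ← two_mul, pow_mul]
      simp
    rw [pow_add] at h4
    calc ((-1 : ℝ)) ^ i = (-1) ^ i * ((-1) ^ (k - 1) * (-1) ^ (k - 1)) := by rw [h5, mul_one]
      _ = ((-1) ^ i * (-1) ^ (k - 1)) * (-1) ^ (k - 1) := by ring
      _ = -((-1) ^ (k - 1)) := by rw [h4]; ring
  rw [h3] at h2
  have h6 : ((-1 : ℝ)) ^ (k - 1) ≠ 0 := pow_ne_zero _ (by norm_num)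
  have h7 : (algebraMap ℚ ℝ) ((binP k).coeff i) = 0 := by
    have : ((-1 : ℝ)) ^ (k - 1) * (algebraMap ℚ ℝ) ((binP k).coeff i) = 0 := by linarith
    exact (mul_eq_zero.mp this).resolve_left h6
  exact (map_eq_zero _).mp h7

private theorem A5_al_lt {S : Finset ℕ} (hS : IsLeaf S) (hne : S ≠ ∅) {T : Finset ℕ}
    (hT : T ⊆ S) : 2 * al S T ≠ 0 ∧ |2 * al S T| < 1 := by
  have h0 : 2 * al S T = ∑ p ∈ S, (if p ∈ T then (1 : ℚ) / p else -((1 : ℚ) / p)) := by
    unfold al
    rw [sum_ite, filter_mem_eq_inter, inter_eq_right.mpr hT, sum_neg_distrib]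
    have : S.filter (fun p => p ∉ T) = S \ T := by
      ext x
      simp
    rw [this]
    ring
  have hc := hS.card_le
  have hc1 : 1 ≤ S.card := Nat.one_le_iff_ne_zero.mpr fun h => hne (card_eq_zero.mp h)
  have hb : ∀ p ∈ S, 0 < (1 : ℚ) / p ∧ (1 : ℚ) / p ≤ 1 / 2 := by
    intro p hp
    have h2 : (2 : ℚ) ≤ p := by exact_mod_cast hS.two_le p hp
    refine ⟨by positivity, ?_⟩
    exact one_div_le_one_div_of_le (by norm_num) h2
  rcases Nat.lt_or_ge S.card 2 with h | h
  · obtain ⟨p, hp⟩ := card_eq_one.mp (by omega : S.card = 1)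
    obtain ⟨h1, h2⟩ := hb p (by rw [hp]; exact mem_singleton_self p)
    rw [h0, hp, sum_singleton]
    split_ifs
    · exact ⟨h1.ne', by rw [abs_of_pos h1]; linarith⟩
    · refine ⟨by linarith, ?_⟩
      rw [abs_neg, abs_of_pos h1]
      linarith
  · obtain ⟨p, q, hpq, hp⟩ := card_eq_two.mp (by omega : S.card = 2)
    obtain ⟨h1, h2⟩ := hb p (by rw [hp]; simp)
    obtain ⟨h3, h4⟩ := hb q (by rw [hp]; simp)
    have hp0 : (p : ℚ) ≠ 0 := by
      have := hS.two_le p (by rw [hp]; simp)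
      exact_mod_cast (by omega : p ≠ 0)
    have hq0 : (q : ℚ) ≠ 0 := by
      have := hS.two_le q (by rw [hp]; simp)
      exact_mod_cast (by omega : q ≠ 0)
    have h5 : (1 : ℚ) / p ≠ 1 / q := by
      intro h6
      rw [div_eq_div_iff hp0 hq0, one_mul, one_mul] at h6
      exact hpq (by exact_mod_cast h6.symm)
    rw [h0, hp, sum_pair hpq]
    have h6 : (1 : ℚ) / p + 1 / q < 1 := by
      rcases lt_or_gt_of_ne h5 with h | h <;> linarith
    split_ifs
    · refine ⟨by linarith, ?_⟩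
      rw [abs_lt]
      constructor <;> linarith
    · refine ⟨fun h7 => h5 (by linarith), ?_⟩
      rw [abs_lt]
      constructor <;> linarith
    · refine ⟨fun h7 => h5 (by linarith), ?_⟩
      rw [abs_lt]
      constructor <;> linarith
    · refine ⟨by linarith, ?_⟩
      rw [abs_lt]
      constructor <;> linarith

private theorem A5_nonint {S : Finset ℕ} (hS : IsLeaf S) (hne : S ≠ ∅) {T : Finset ℕ}
    (hT : T ⊆ S) (k : ℕ) (n : ℤ) : al S T - (k : ℚ) / 2 ≠ n := by
  intro h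
  obtain ⟨h1, h2⟩ := A5_al_lt hS hne hT
  have h3 : (2 * al S T : ℚ) = (2 * n + (k : ℤ) : ℤ) := by
    push_cast
    linarith
  rw [h3] at h1 h2
  have h5 : |(2 * n + (k : ℤ))| < 1 := by exact_mod_cast h2
  have h6 : (2 * n + (k : ℤ)) ≠ 0 := by exact_mod_cast h1
  exact h6 (Int.abs_lt_one_iff.mp h5)

private theorem A5_int_al {N : ℕ} {S T : Finset ℕ} (hNS : ∀ p ∈ S, 2 * p ∣ N) (hT : T ⊆ S)
    (hS : IsLeaf S) : ∃ a : ℤ, (N : ℚ) * al S T = a := by
  have h0 : al S T = ∑ p ∈ S, (if p ∈ T then (1 : ℚ) / p else -((1 : ℚ) / p)) / 2 := by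
    unfold al
    rw [← sum_div, sum_ite, filter_mem_eq_inter, inter_eq_right.mpr hT, sum_neg_distrib]
    have : S.filter (fun p => p ∉ T) = S \ T := by
      ext x
      simp
    rw [this]
    ring
  refine ⟨∑ p ∈ S, (if p ∈ T then ((N / (2 * p) : ℕ) : ℤ) else -((N / (2 * p) : ℕ) : ℤ)), ?_⟩
  rw [h0, mul_sum, Int.cast_sum]
  refine sum_congr rfl fun p hp => ?_
  obtain ⟨c, hc⟩ := hNS p hp
  have hp2 := hS.two_le p hp
  have hp0 : (p : ℚ) ≠ 0 := by exact_mod_cast (by omega : p ≠ 0)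
  have h1 : N / (2 * p) = c := by
    rw [hc]
    exact Nat.mul_div_cancel_left c (by omega)
  rw [h1, hc]
  split_ifs
  · push_cast
    field_simp
  · push_cast
    field_simp

private theorem A5_ct_int (x : ℝ) (n : ℤ) : ct (x + n) = ct x := by
  unfold ct
  have h1 : Real.pi * (x + n) = Real.pi * x + n * Real.pi := by ring
  rw [h1, Real.cos_add_int_mul_pi, Real.sin_add_int_mul_pi]
  rw [mul_div_mul_left]
  rcases Int.even_or_odd n with h | h
  · rw [h.neg_one_zpow]
    norm_num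
  · rw [h.neg_one_zpow]
    norm_num

/-- the conjugate of `π ^ r P_r (cot π z)` -/
theorem gal_cot {N : ℕ} (hN : 0 < N) (h4 : 4 ∣ N) {s : ℤ} (hs : IsCoprime s (N : ℤ)) (r : ℕ)
    {z : ℚ} (hz : ∃ a : ℤ, (N : ℚ) * z = a) (hz' : ∀ a : ℤ, z ≠ a) :
    Gal N s (((Real.pi ^ r * ((cotP r).map (algebraMap ℚ ℝ)).eval (ct z) : ℝ)) : ℂ)
      (toC (Polynomial.C (((cotP r).map (algebraMap ℚ ℝ)).eval (ct (s * z))) *
        Polynomial.X ^ r)) := by
  obtain ⟨a, ha⟩ := hz
  have hN' : (N : ℂ) ≠ 0 := by exact_mod_cast hN.ne'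
  have hodd : Odd s := A5_odd h4 hs
  have hz1 : ∀ b : ℤ, ((z : ℚ) : ℝ) ≠ b := fun b hb => hz' b (by exact_mod_cast hb)
  have hzN : ((z : ℚ) : ℂ) * N = a := by
    rw [mul_comm]
    exact_mod_cast congrArg (Rat.cast (K := ℂ)) ha
  have hw : Complex.exp (2 * Real.pi * Complex.I * ((z : ℚ) : ℝ)) = zt N a := by
    unfold zt
    congr 1
    rw [← hzN, Complex.ofReal_ratCast]
    field_simp
  have hw' : Complex.exp (2 * Real.pi * Complex.I * (((s : ℝ) * ((z : ℚ) : ℝ) : ℝ) : ℂ)) =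
      zt N (s * a) := by
    unfold zt
    congr 1
    rw [Int.cast_mul, ← hzN, Complex.ofReal_mul, Complex.ofReal_ratCast, Complex.ofReal_intCast]
    field_simp
  have hsz : ∀ b : ℤ, (s : ℝ) * ((z : ℚ) : ℝ) ≠ b := by
    intro b hb
    have h1 : (s : ℚ) * z = b := by exact_mod_cast hb
    obtain ⟨u, v, huv⟩ := hs
    apply hz' (u * b + v * a)
    have h2 : (u : ℚ) * s + v * N = 1 := by exact_mod_cast huv
    push_cast
    rw [← h1, ← ha]
    linear_combination (-z) * h2
  obtain ⟨hne1, hcot1⟩ := A5_cot _ hz1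
  obtain ⟨hne2, hcot2⟩ := A5_cot _ hsz
  rw [hw] at hne1 hcot1
  rw [hw'] at hne2 hcot2
  -- `i`
  have hI : Gal N s Complex.I (RatFunc.C (chi s * Complex.I)) := by
    obtain ⟨c, hc⟩ := h4
    have h1 := A5_gal_zt hN hs (c : ℤ)
    have h2 : zt N (c : ℤ) = Complex.I := by
      unfold zt
      have hc0 : (c : ℂ) ≠ 0 := by
        intro h
        have : c = 0 := by exact_mod_cast h
        rw [hc, this] at hN
        simp at hN
      have h3 : (2 * Real.pi * Complex.I * ((c : ℤ) : ℂ) / N : ℂ) = Real.pi / 2 * Complex.I := by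
        rw [hc]
        push_cast
        field_simp
        ring
      rw [h3, Complex.exp_pi_div_two_mul_I]
    have h4' : zt N (s * (c : ℤ)) = chi s * Complex.I := by
      unfold chi
      rw [div_mul_cancel₀ _ Complex.I_ne_zero]
      unfold zt
      congr 1
      have hc0 : (c : ℂ) ≠ 0 := by
        intro h
        have : c = 0 := by exact_mod_cast h
        rw [hc, this] at hN
        simp at hN
      rw [hc]
      push_cast
      field_simp
    rw [h2, h4'] at h1
    exact h1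
  have hgw := A5_gal_zt hN hs a
  have h1r : Gal N s (1 : ℂ) (1 : RatFunc ℂ) := by
    have := Gal.rat hN hs (1 : ℚ)
    rw [Rat.cast_one, Rat.cast_one] at this
    exact this
  have hcotG : Gal N s ((ct ((z : ℚ) : ℝ) : ℝ) : ℂ)
      (RatFunc.C (chi s * ((ct ((s : ℝ) * ((z : ℚ) : ℝ)) : ℝ) : ℂ))) := by
    have h := Gal.div hN hs (Gal.mul hN hs hI (Gal.add hN hs hgw h1r)) (Gal.sub hN hs hgw h1r)
    rw [← hcot1] at h
    have e : RatFunc.C (chi s * Complex.I) * (RatFunc.C (zt N (s * a)) + 1) /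
        (RatFunc.C (zt N (s * a)) - 1) =
        RatFunc.C (chi s * ((ct ((s : ℝ) * ((z : ℚ) : ℝ)) : ℝ) : ℂ)) := by
      rw [hcot2, ← map_one (RatFunc.C : ℂ →+* RatFunc ℂ), ← map_add, ← map_sub, ← map_mul,
        ← map_div₀]
      congr 1
      ring
    rw [e] at h
    exact h
  have hP := A5_gal_poly hN hs (cotP r) hcotG
  rw [A5_C_eval] at hP
  have hchi : chi s ^ r * chi s ^ r = 1 := by
    rw [← mul_pow]
    rcases A5_chi hodd with h | h <;> rw [h] <;> norm_num
  have hPe : ((cotP r).map (algebraMap ℚ ℂ)).eval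
      (chi s * ((ct ((s : ℝ) * ((z : ℚ) : ℝ)) : ℝ) : ℂ)) =
      chi s ^ r * ((((cotP r).map (algebraMap ℚ ℝ)).eval
        (ct ((s : ℝ) * ((z : ℚ) : ℝ))) : ℝ) : ℂ) := by
    rw [A5_cast_eval]
    rcases A5_chi hodd with h | h
    · rw [h, one_mul, one_pow, one_mul]
    · rw [h, neg_one_mul, cotP_negC]
  rw [hPe] at hP
  have hfin := Gal.mul hN hs (Gal.pow hN hs (A5_gal_pi hN hs) r) hP
  have ex : (((Real.pi ^ r * ((cotP r).map (algebraMap ℚ ℝ)).eval (ct z) : ℝ)) : ℂ) =
      ((Real.pi : ℝ) : ℂ) ^ r * ((cotP r).map (algebraMap ℚ ℂ)).eval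
        ((ct ((z : ℚ) : ℝ) : ℝ) : ℂ) := by
    rw [Complex.ofReal_mul, Complex.ofReal_pow, A5_cast_eval]
  have ey : toC (Polynomial.C (((cotP r).map (algebraMap ℚ ℝ)).eval (ct (s * z))) *
        Polynomial.X ^ r) = (RatFunc.C (chi s) * RatFunc.X) ^ r *
      RatFunc.C (chi s ^ r * ((((cotP r).map (algebraMap ℚ ℝ)).eval
        (ct ((s : ℝ) * ((z : ℚ) : ℝ))) : ℝ) : ℂ)) := by
    rw [map_mul, map_pow, A5_toC_C, A5_toC_X, mul_pow, map_mul, ← map_pow]
    calc RatFunc.C (((((cotP r).map (algebraMap ℚ ℝ)).eval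
            (ct ((s : ℝ) * ((z : ℚ) : ℝ))) : ℝ) : ℂ)) * RatFunc.X ^ r
        = RatFunc.C (chi s ^ r * chi s ^ r) * (RatFunc.C (((((cotP r).map
            (algebraMap ℚ ℝ)).eval (ct ((s : ℝ) * ((z : ℚ) : ℝ))) : ℝ) : ℂ)) *
              RatFunc.X ^ r) := by rw [hchi, map_one, one_mul]
      _ = _ := by
        rw [map_mul]
        ring
  rw [ex, ey]
  exact hfin

/-- the conjugate of the moment -/
theorem gal_mu {N : ℕ} (hN : 0 < N) (h4 : 4 ∣ N) {s : ℤ} (hs : IsCoprime s (N : ℤ))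
    {S : Finset ℕ} (hS : IsLeaf S) (hNS : ∀ p ∈ S, 2 * p ∣ N) {k : ℕ} (hk : 1 ≤ k) (j : ℕ) :
    Gal N s ((mu S k j : ℝ) : ℂ) (toC (YY S k j s)) := by
  have hodd : Odd s := A5_odd h4 hs
  rw [mu_eq_YY hS hk j]
  have hcast : ∀ q : ℚ, Gal N s (((q : ℝ) : ℂ)) (toC (Polynomial.C ((q : ℚ) : ℝ))) := by
    intro q
    rw [A5_toC_rat, Complex.ofReal_ratCast]
    exact Gal.rat hN hs q
  by_cases hne : S = ∅
  · unfold YY
    rw [if_pos hne, if_pos hne]
    rw [Polynomial.eval_mul, Polynomial.eval_C, Polynomial.eval_finsetSum, Complex.ofReal_mul,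
      Complex.ofReal_sum, map_mul, map_sum]
    refine Gal.mul hN hs ?_ (Gal.sum hN hs _ fun i hi => ?_)
    · have h := hcast (((k + 2 + 2 * j).factorial : ℚ) / 2)
      rw [Rat.cast_div, Rat.cast_natCast, Rat.cast_ofNat] at h
      exact h
    · have hi' := mem_range.mp hi
      rw [Polynomial.eval_mul, Polynomial.eval_C, Polynomial.eval_pow, Polynomial.eval_X,
        Complex.ofReal_mul, Complex.ofReal_pow, map_mul, map_pow, A5_toC_X]
      rcases Nat.even_or_odd (k + 3 + 2 * j - i) with he | ho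
      · have h1 := Gal.mul hN hs (hcast ((binP k).coeff i * sg k (k + 3 + 2 * j - i)))
          (Gal.pow hN hs (A5_gal_pi hN hs) (k + 3 + 2 * j - i))
        have h2 : (RatFunc.C (chi s) * RatFunc.X : RatFunc ℂ) ^ (k + 3 + 2 * j - i) =
            RatFunc.X ^ (k + 3 + 2 * j - i) := by
          rw [mul_pow, ← map_pow]
          rcases A5_chi hodd with h | h
          · rw [h, one_pow, map_one, one_mul]
          · rw [h, he.neg_one_pow, map_one, one_mul]
        rw [h2] at h1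
        exact h1
      · have h0 : (binP k).coeff i = 0 := by
          apply A5_parity
          rw [Nat.odd_iff] at ho ⊢
          omega
        rw [h0, zero_mul, Rat.cast_zero, Complex.ofReal_zero, zero_mul, map_zero, map_zero,
          zero_mul]
        have := Gal.rat hN hs (0 : ℚ)
        rw [Rat.cast_zero, Rat.cast_zero] at this
        exact this
  · unfold YY
    rw [if_neg hne, if_neg hne]
    rw [Polynomial.eval_mul, Polynomial.eval_C, Polynomial.eval_finsetSum, Complex.ofReal_mul,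
      Complex.ofReal_sum, map_mul, map_sum]
    refine Gal.mul hN hs ?_ (Gal.sum hN hs _ fun T hT => ?_)
    · have h := hcast ((∏ p ∈ S, (p : ℚ)) * ((ex S k j).factorial : ℚ) / 2)
      rw [Rat.cast_div, Rat.cast_mul, Rat.cast_prod, Rat.cast_natCast, Rat.cast_ofNat] at h
      simp only [Rat.cast_natCast] at h
      exact h
    · have hTS := mem_powerset.mp hT
      rw [Polynomial.eval_mul, Polynomial.eval_finsetSum, Polynomial.eval_pow,
        Polynomial.eval_neg, Polynomial.eval_one, Complex.ofReal_mul, Complex.ofReal_sum,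
        map_mul, map_sum]
      refine Gal.mul hN hs ?_ (Gal.sum hN hs _ fun i hi => ?_)
      · have h := hcast ((-1) ^ (S \ T).card)
        rw [Rat.cast_pow, Rat.cast_neg, Rat.cast_one] at h
        rw [map_pow Polynomial.C, map_neg Polynomial.C, map_one Polynomial.C, map_pow toC,
          map_neg toC, map_one toC] at h
        rw [map_pow toC, map_neg toC, map_one toC]
        exact h
      · rw [Polynomial.eval_mul, Polynomial.eval_mul, Polynomial.eval_C, Polynomial.eval_C,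
          Polynomial.eval_pow, Polynomial.eval_X]
        have hz1 : ∃ a : ℤ, (N : ℚ) * (al S T - (k : ℚ) / 2) = a := by
          obtain ⟨a, ha⟩ := A5_int_al hNS hTS hS
          obtain ⟨c, hc⟩ := h4
          refine ⟨a - 2 * c * k, ?_⟩
          rw [mul_sub, ha, hc]
          push_cast
          ring
        have hg := gal_cot hN h4 hs (ex S k j + 1 - i) hz1 (A5_nonint hS hne hTS k)
        have hq := hcast ((Polynomial.taylor (al S T) (binP k)).coeff i)
        have hm := hcast ((-1) ^ (ex S k j + 1 - i))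
        have hall := Gal.mul hN hs (Gal.mul hN hs hq hm) hg
        have e1 : ((((Polynomial.taylor (al S T) (binP k)).coeff i : ℚ) : ℝ) *
            ((-1) ^ (ex S k j + 1 - i) * ((cotP (ex S k j + 1 - i)).map
              (algebraMap ℚ ℝ)).eval (ct (((1 : ℤ) : ℝ) * (al S T : ℝ) - k / 2))) *
            Real.pi ^ (ex S k j + 1 - i) : ℝ) =
            (((Polynomial.taylor (al S T) (binP k)).coeff i : ℚ) : ℝ) *
            (((-1) ^ (ex S k j + 1 - i) : ℚ) : ℝ) * (Real.pi ^ (ex S k j + 1 - i) *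
              ((cotP (ex S k j + 1 - i)).map (algebraMap ℚ ℝ)).eval
                (ct ((al S T - (k : ℚ) / 2 : ℚ) : ℝ))) := by
          have h5 : ((1 : ℤ) : ℝ) * (al S T : ℝ) - (k : ℝ) / 2 =
              ((al S T - (k : ℚ) / 2 : ℚ) : ℝ) := by
            push_cast
            ring
          rw [h5]
          push_cast
          ring
        have e2 : toC (Polynomial.C (((Polynomial.taylor (al S T) (binP k)).coeff i : ℚ) : ℝ) *
            Polynomial.C ((-1) ^ (ex S k j + 1 - i) * Polynomial.eval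
              (ct ((s : ℝ) * (al S T : ℝ) - k / 2))
                ((cotP (ex S k j + 1 - i)).map (algebraMap ℚ ℝ))) *
            Polynomial.X ^ (ex S k j + 1 - i)) =
            toC (Polynomial.C (((Polynomial.taylor (al S T) (binP k)).coeff i : ℚ) : ℝ)) *
            toC (Polynomial.C (((-1) ^ (ex S k j + 1 - i) : ℚ) : ℝ)) *
            toC (Polynomial.C (((cotP (ex S k j + 1 - i)).map (algebraMap ℚ ℝ)).eval
              (ct ((s : ℝ) * ((al S T - (k : ℚ) / 2 : ℚ) : ℝ)))) *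
              Polynomial.X ^ (ex S k j + 1 - i)) := by
          have h6 : ct ((s : ℝ) * ((al S T - (k : ℚ) / 2 : ℚ) : ℝ)) =
              ct ((s : ℝ) * (al S T : ℝ) - k / 2) := by
            obtain ⟨m, hm⟩ := hodd
            rw [← A5_ct_int ((s : ℝ) * ((al S T - (k : ℚ) / 2 : ℚ) : ℝ)) (m * k)]
            congr 1
            rw [hm]
            push_cast
            ring
          rw [h6, ← map_mul toC, ← map_mul toC]
          congr 1
          rw [Polynomial.C_mul, Rat.cast_pow, Rat.cast_neg, Rat.cast_one]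
          ring
        rw [e1, e2, Complex.ofReal_mul, Complex.ofReal_mul]
        exact hall

end Pool.Agent.GSP
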