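import Pool.Agent.GSP.Defs
import Pool.Agent.GSP.C1

set_option autoImplicit false

open Finset

namespace Pool.Agent.GSP

/-- A chain of blocks from `x` to `y` with the edges `es` between the blocks, and the inner nodes
`zs` on the path. -/
inductive Chain {V : Type} [DecidableEq V] :
    Finset V → Finset (Sym2 V) → V → V → List (Sym2 V) → List V → Prop
  | one {A B : Finset V} {EA EB : Finset (Sym2 V)} {x y : V} (hx : x ∈ A) (hy : y ∈ B)
      (hAB : Disjoint A B) (hA : ∀ e ∈ EA, ∀ z ∈ e, z ∈ A) (hB : ∀ e ∈ EB, ∀ z ∈ e, z ∈ B) :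
      Chain (A ∪ B) (insert s(x, y) (EA ∪ EB)) x y [s(x, y)] []
  | cons {A B : Finset V} {EA EB : Finset (Sym2 V)} {x x' y : V} {es : List (Sym2 V)}
      {zs : List V} (hx : x ∈ A) (hx' : x' ∈ B) (hAB : Disjoint A B)
      (hA : ∀ e ∈ EA, ∀ z ∈ e, z ∈ A) (hB : ∀ e ∈ EB, ∀ z ∈ e, z ∈ B)
      (hc : Chain B EB x' y es zs) :
      Chain (A ∪ B) (insert s(x, x') (EA ∪ EB)) x y (s(x, x') :: es) (x' :: zs)

variable {V R : Type} [Fintype V] [DecidableEq V] [Field R]

/-- `Z(a, b) Z(a', b') - Z(a, b') Z(a', b)` for the nodes in `A` and the edges in `E`. -/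
noncomputable def MG (A : Finset V) (E : Finset (Sym2 V)) (q : V → R) (w : Sym2 V → R)
    (m : V → ℕ → R) (x y : V) (a a' b b' : ℕ → R) : PowerSeries R :=
  ZI A E q w (Function.update (Function.update m x a) y b) 1 *
      ZI A E q w (Function.update (Function.update m x a') y b') 1 -
    ZI A E q w (Function.update (Function.update m x a) y b') 1 *
      ZI A E q w (Function.update (Function.update m x a') y b) 1

omit [DecidableEq V] in
private theorem C2_umb (m : V → ℕ → R) (K : R) (n : V → ℕ) :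
    umb m (MvPolynomial.C K * ∏ v, MvPolynomial.X v ^ n v) = K * ∏ v, m v (n v) := by
  have h1 : MvPolynomial.C K * ∏ v, (MvPolynomial.X v : MvPolynomial V R) ^ n v =
      K • (MvPolynomial.basisMonomials V R) (Finsupp.equivFunOnFinite.symm n) := by
    rw [MvPolynomial.coe_basisMonomials]
    show MvPolynomial.C K * ∏ v, (MvPolynomial.X v : MvPolynomial V R) ^ n v =
      K • MvPolynomial.monomial (Finsupp.equivFunOnFinite.symm n) 1
    rw [MvPolynomial.smul_monomial, smul_eq_mul, mul_one, MvPolynomial.monomial_eq,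
      Finsupp.prod_fintype _ _ fun v => pow_zero _]
    rfl
  rw [h1, map_smul, smul_eq_mul]
  unfold umb
  rw [Module.Basis.constr_basis]
  rfl

private theorem C2_umb_one {m : V → ℕ → R} {x : V} (hm : ∀ v, v ≠ x → m v 0 = 1) (b : ℕ) :
    umb m (MvPolynomial.X x ^ b) = m x b := by
  have h1 := C2_umb m 1 (fun v => if v = x then b else 0)
  have h2 : ∏ v, (MvPolynomial.X v : MvPolynomial V R) ^ (if v = x then b else 0) =
      MvPolynomial.X x ^ b := by
    rw [Finset.prod_eq_single x]
    · rw [if_pos rfl]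
    · intro v _ hv
      rw [if_neg hv, pow_zero]
    · intro h
      exact absurd (Finset.mem_univ x) h
  have h3 : ∏ v, m v (if v = x then b else 0) = m x b := by
    rw [Finset.prod_eq_single x]
    · rw [if_pos rfl]
    · intro v _ hv
      rw [if_neg hv, hm v hv]
    · intro h
      exact absurd (Finset.mem_univ x) h
  rw [h2, h3, map_one, one_mul, one_mul] at h1
  exact h1

private theorem C2_umb_two {m : V → ℕ → R} {x u : V} (hxu : u ≠ x) (hm : ∀ v, v ≠ x → m v 0 = 1)
    (b : ℕ) : umb m (MvPolynomial.X x ^ b * MvPolynomial.X u) = m u 1 * m x b := by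
  have h1 := C2_umb m 1 (fun v => if v = x then b else if v = u then 1 else 0)
  have h2 : ∏ v, (MvPolynomial.X v : MvPolynomial V R) ^ (if v = x then b else if v = u then 1 else 0) =
      MvPolynomial.X x ^ b * MvPolynomial.X u := by
    rw [← Finset.mul_prod_erase univ _ (Finset.mem_univ x), if_pos rfl,
      ← Finset.mul_prod_erase (univ.erase x) _ (Finset.mem_erase.mpr ⟨hxu, Finset.mem_univ u⟩),
      if_neg hxu, if_pos rfl, pow_one, Finset.prod_eq_one, mul_one]
    intro v hv
    rw [Finset.mem_erase, Finset.mem_erase] at hv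
    rw [if_neg hv.2.1, if_neg hv.1, pow_zero]
  have h3 : ∏ v, m v (if v = x then b else if v = u then 1 else 0) = m u 1 * m x b := by
    rw [← Finset.mul_prod_erase univ _ (Finset.mem_univ x), if_pos rfl,
      ← Finset.mul_prod_erase (univ.erase x) _ (Finset.mem_erase.mpr ⟨hxu, Finset.mem_univ u⟩),
      if_neg hxu, if_pos rfl, Finset.prod_eq_one, mul_one, mul_comm]
    intro v hv
    rw [Finset.mem_erase, Finset.mem_erase] at hv
    rw [if_neg hv.2.1, if_neg hv.1, hm v hv.2.1]
  rw [h2, h3, map_one, one_mul, one_mul] at h1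
  exact h1

omit [Fintype V] [DecidableEq V] in
private theorem C2_supp_mul {A : Finset V} {f g : PowerSeries (MvPolynomial V R)}
    (hf : ∀ n, PowerSeries.coeff n f ∈ MvPolynomial.supported R (A : Set V))
    (hg : ∀ n, PowerSeries.coeff n g ∈ MvPolynomial.supported R (A : Set V)) (n : ℕ) :
    PowerSeries.coeff n (f * g) ∈ MvPolynomial.supported R (A : Set V) := by
  rw [PowerSeries.coeff_mul]
  exact Subalgebra.sum_mem _ fun p _ => Subalgebra.mul_mem _ (hf _) (hg _)

omit [Fintype V] [DecidableEq V] in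
private theorem C2_supp_prod {ι : Type} {A : Finset V} (s : Finset ι)
    (f : ι → PowerSeries (MvPolynomial V R))
    (hf : ∀ i ∈ s, ∀ n, PowerSeries.coeff n (f i) ∈ MvPolynomial.supported R (A : Set V)) :
    ∀ n, PowerSeries.coeff n (∏ i ∈ s, f i) ∈ MvPolynomial.supported R (A : Set V) := by
  refine Finset.prod_induction f
    (fun g => ∀ n, PowerSeries.coeff n g ∈ MvPolynomial.supported R (A : Set V))
    (fun a b ha hb n => C2_supp_mul ha hb n) (fun n => ?_) hf
  rw [PowerSeries.coeff_one]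
  split_ifs
  · exact Subalgebra.one_mem _
  · exact Subalgebra.zero_mem _

private theorem C2_supp_WW {A : Finset V} {E : Finset (Sym2 V)} (hA : ∀ e ∈ E, ∀ z ∈ e, z ∈ A)
    (q : V → R) (w : Sym2 V → R) (n : ℕ) :
    PowerSeries.coeff n (WW A E q w) ∈ MvPolynomial.supported R (A : Set V) := by
  unfold WW
  refine C2_supp_mul (C2_supp_prod A _ fun v hv n => ?_) (C2_supp_prod E _ fun e he n => ?_) n
  · unfold nodeW
    rw [PowerSeries.coeff_mk]
    refine Subalgebra.mul_mem _ (Subalgebra.algebraMap_mem _ _) (Subalgebra.pow_mem _ ?_ _)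
    exact MvPolynomial.X_mem_supported.mpr hv
  · unfold edgeW
    rw [PowerSeries.coeff_mk]
    split_ifs
    · refine Subalgebra.mul_mem _ (Subalgebra.algebraMap_mem _ _) (Subalgebra.pow_mem _ ?_ _)
      refine Subalgebra.prod_mem _ fun z hz => MvPolynomial.X_mem_supported.mpr ?_
      exact hA e he z (Sym2.mem_toFinset.mp hz)
    · exact Subalgebra.zero_mem _

omit [Fintype V] in
private theorem C2_WW_split {A B : Finset V} {EA EB : Finset (Sym2 V)} {x x' : V} (hx : x ∈ A)
    (hx' : x' ∈ B) (hAB : Disjoint A B) (hA : ∀ e ∈ EA, ∀ z ∈ e, z ∈ A)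
    (hB : ∀ e ∈ EB, ∀ z ∈ e, z ∈ B) (q : V → R) (w : Sym2 V → R) :
    WW (A ∪ B) (insert s(x, x') (EA ∪ EB)) q w =
      (WW A EA q w * WW B EB q w) * edgeW (w s(x, x')) s(x, x') := by
  have h1 : s(x, x') ∉ EA ∪ EB := by
    rw [Finset.mem_union, not_or]
    constructor
    · intro h
      have h2 := hA _ h x' (Sym2.mem_mk_right x x')
      exact Finset.disjoint_left.mp hAB h2 hx'
    · intro h
      have h2 := hB _ h x (Sym2.mem_mk_left x x')
      exact Finset.disjoint_left.mp hAB hx h2
  have h2 : Disjoint EA EB := by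
    rw [Finset.disjoint_left]
    intro e he he'
    induction e using Sym2.ind with
    | _ a b =>
      exact Finset.disjoint_left.mp hAB (hA _ he a (Sym2.mem_mk_left a b))
        (hB _ he' a (Sym2.mem_mk_left a b))
  unfold WW
  rw [Finset.prod_union hAB, Finset.prod_insert h1, Finset.prod_union h2]
  ring

/-- removal of the edge `s(x, x')` -/
theorem ZI_peel [CharZero R] {A B : Finset V} {EA EB : Finset (Sym2 V)} {x x' : V} (hx : x ∈ A)
    (hx' : x' ∈ B) (hAB : Disjoint A B) (hA : ∀ e ∈ EA, ∀ z ∈ e, z ∈ A)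
    (hB : ∀ e ∈ EB, ∀ z ∈ e, z ∈ B) (q : V → R) (w : Sym2 V → R) {m mA mB : V → ℕ → R}
    (h1 : ∀ v ∈ A, m v = mA v) (h2 : ∀ v ∈ B, m v = mB v) (hmA : ∀ v, v ∉ A → mA v 0 = 1)
    (hmB : ∀ v, v ∉ B → mB v 0 = 1) (h0 : ∀ v, v ∉ A → v ∉ B → m v 0 = 1) (n : ℕ) :
    PowerSeries.coeff n (ZI (A ∪ B) (insert s(x, x') (EA ∪ EB)) q w m 1) =
      ∑ b ∈ range (n / 2 + 1), (4 * w s(x, x')) ^ b / ((2 * b + 1).factorial : R) *
        PowerSeries.coeff (n - 2 * b) (ZI A EA q w mA (MvPolynomial.X x ^ b) *
          ZI B EB q w mB (MvPolynomial.X x' ^ b)) := by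
  have hne : x ≠ x' := by
    rintro rfl
    exact Finset.disjoint_left.mp hAB hx hx'
  have hpr : ∏ z ∈ s(x, x').toFinset, (MvPolynomial.X z : MvPolynomial V R) =
      MvPolynomial.X x * MvPolynomial.X x' := by
    rw [Sym2.toFinset_mk_eq, Finset.prod_pair hne]
  have hW : PowerSeries.coeff n (WW (A ∪ B) (insert s(x, x') (EA ∪ EB)) q w) =
      ∑ b ∈ range (n / 2 + 1), PowerSeries.coeff (n - 2 * b) (WW A EA q w * WW B EB q w) *
        (MvPolynomial.C ((4 * w s(x, x')) ^ b / ((2 * b + 1).factorial : R)) *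
          (MvPolynomial.X x * MvPolynomial.X x') ^ b) := by
    rw [C2_WW_split hx hx' hAB hA hB, PowerSeries.coeff_mul]
    rw [Finset.Nat.sum_antidiagonal_eq_sum_range_succ_mk, ← Finset.sum_range_reflect]
    have h3 : ∀ j ∈ range (n + 1),
        PowerSeries.coeff (n + 1 - 1 - j) (WW A EA q w * WW B EB q w) *
          PowerSeries.coeff (n - (n + 1 - 1 - j)) (edgeW (w s(x, x')) s(x, x')) =
        if Even j then PowerSeries.coeff (n - j) (WW A EA q w * WW B EB q w) *
          (MvPolynomial.C ((4 * w s(x, x')) ^ (j / 2) / ((j + 1).factorial : R)) *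
            (MvPolynomial.X x * MvPolynomial.X x') ^ (j / 2)) else 0 := by
      intro j hj
      rw [Finset.mem_range] at hj
      have e1 : n + 1 - 1 - j = n - j := by omega
      have e2 : n - (n - j) = j := by omega
      rw [e1, e2]
      unfold edgeW
      rw [PowerSeries.coeff_mk, hpr]
      split_ifs
      · rfl
      · rw [mul_zero]
    rw [Finset.sum_congr rfl h3, ← Finset.sum_filter]
    symm
    refine Finset.sum_bij (fun b _ => 2 * b) ?_ ?_ ?_ ?_
    · intro b hb
      rw [Finset.mem_range] at hb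
      rw [Finset.mem_filter, Finset.mem_range]
      exact ⟨by omega, even_two_mul b⟩
    · intro b _ b' _ h
      exact Nat.eq_of_mul_eq_mul_left (by norm_num) h
    · intro j hj
      rw [Finset.mem_filter, Finset.mem_range] at hj
      obtain ⟨a, ha⟩ := hj.2
      refine ⟨a, ?_, by omega⟩
      rw [Finset.mem_range]
      omega
    · intro b _
      have e3 : 2 * b / 2 = b := by omega
      rw [e3]
  unfold ZI
  rw [PowerSeries.coeff_mk, one_mul, hW, map_sum]
  refine Finset.sum_congr rfl fun b _ => ?_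
  have h4 : PowerSeries.coeff (n - 2 * b) (WW A EA q w * WW B EB q w) *
      (MvPolynomial.C ((4 * w s(x, x')) ^ b / ((2 * b + 1).factorial : R)) *
        (MvPolynomial.X x * MvPolynomial.X x') ^ b) =
      ((4 * w s(x, x')) ^ b / ((2 * b + 1).factorial : R)) •
        ∑ p ∈ Finset.HasAntidiagonal.antidiagonal (n - 2 * b),
          (MvPolynomial.X x ^ b * PowerSeries.coeff p.1 (WW A EA q w)) *
            (MvPolynomial.X x' ^ b * PowerSeries.coeff p.2 (WW B EB q w)) := by
    rw [PowerSeries.coeff_mul, MvPolynomial.smul_eq_C_mul, Finset.mul_sum, Finset.sum_mul]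
    refine Finset.sum_congr rfl fun p _ => ?_
    rw [mul_pow]
    ring
  rw [h4, map_smul, smul_eq_mul, map_sum, PowerSeries.coeff_mul]
  congr 1
  refine Finset.sum_congr rfl fun p _ => ?_
  rw [PowerSeries.coeff_mk, PowerSeries.coeff_mk]
  refine umb_mul_disj hAB ?_ ?_ h1 h2 hmA hmB h0
  · have h5 : MvPolynomial.X x ^ b * PowerSeries.coeff p.1 (WW A EA q w) ∈
        MvPolynomial.supported R (A : Set V) :=
      Subalgebra.mul_mem _ (Subalgebra.pow_mem _ (MvPolynomial.X_mem_supported.mpr hx) _)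
        (C2_supp_WW hA q w _)
    exact_mod_cast MvPolynomial.mem_supported.mp h5
  · have h5 : MvPolynomial.X x' ^ b * PowerSeries.coeff p.2 (WW B EB q w) ∈
        MvPolynomial.supported R (B : Set V) :=
      Subalgebra.mul_mem _ (Subalgebra.pow_mem _ (MvPolynomial.X_mem_supported.mpr hx') _)
        (C2_supp_WW hB q w _)
    exact_mod_cast MvPolynomial.mem_supported.mp h5

omit [Fintype V] in
private theorem C2_coeff_low {ι : Type} (s : Finset ι) (f : ι → PowerSeries (MvPolynomial V R))
    (hf : ∀ i ∈ s, PowerSeries.coeff 0 (f i) = 1) :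
    PowerSeries.coeff 0 (∏ i ∈ s, f i) = 1 ∧
      PowerSeries.coeff 1 (∏ i ∈ s, f i) = ∑ i ∈ s, PowerSeries.coeff 1 (f i) := by
  classical
  induction s using Finset.induction_on with
  | empty =>
    constructor
    · simp
    · rw [Finset.prod_empty, Finset.sum_empty, PowerSeries.coeff_one, if_neg one_ne_zero]
  | insert i s hi ih =>
    obtain ⟨h1, h2⟩ := ih fun j hj => hf j (Finset.mem_insert_of_mem hj)
    have h3 := hf i (Finset.mem_insert_self i s)
    rw [Finset.prod_insert hi, Finset.sum_insert hi]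
    constructor
    · rw [PowerSeries.coeff_mul]
      simp [h1, h3]
    · rw [PowerSeries.coeff_mul]
      simp only [Finset.Nat.antidiagonal_succ, Finset.Nat.antidiagonal_zero, Finset.map_singleton,
        Finset.sum_cons, Finset.sum_singleton, Function.Embedding.prodMap, Function.Embedding.coeFn_mk,
        Prod.map, Function.Embedding.refl_apply]
      simp only [Nat.succ_eq_add_one, zero_add]
      rw [h1, h2, h3]
      ring

omit [Fintype V] in
private theorem C2_WW_low (A : Finset V) (E : Finset (Sym2 V)) (q : V → R) (w : Sym2 V → R) :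
    PowerSeries.coeff 0 (WW A E q w) = 1 ∧
      PowerSeries.coeff 1 (WW A E q w) = ∑ u ∈ A, MvPolynomial.C (q u) * MvPolynomial.X u := by
  have hn0 : ∀ u ∈ A, PowerSeries.coeff 0 (nodeW (q u) u : PowerSeries (MvPolynomial V R)) = 1 := by
    intro u _
    unfold nodeW
    rw [PowerSeries.coeff_mk]
    simp
  have he0 : ∀ e ∈ E, PowerSeries.coeff 0 (edgeW (w e) e : PowerSeries (MvPolynomial V R)) = 1 := by
    intro e _
    unfold edgeW
    rw [PowerSeries.coeff_mk]
    simp
  obtain ⟨a1, a2⟩ := C2_coeff_low A (fun u => nodeW (q u) u) hn0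
  obtain ⟨b1, b2⟩ := C2_coeff_low E (fun e => edgeW (w e) e) he0
  have hn1 : ∀ u ∈ A, PowerSeries.coeff 1 (nodeW (q u) u : PowerSeries (MvPolynomial V R)) =
      MvPolynomial.C (q u) * MvPolynomial.X u := by
    intro u _
    unfold nodeW
    rw [PowerSeries.coeff_mk]
    simp
  have he1 : ∀ e ∈ E, PowerSeries.coeff 1 (edgeW (w e) e : PowerSeries (MvPolynomial V R)) = 0 := by
    intro e _
    unfold edgeW
    rw [PowerSeries.coeff_mk, if_neg (by decide)]
  rw [Finset.sum_congr rfl hn1] at a2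
  rw [Finset.sum_congr rfl he1, Finset.sum_const_zero] at b2
  unfold WW
  constructor
  · rw [PowerSeries.coeff_mul]
    simp [a1, b1]
  · rw [PowerSeries.coeff_mul]
    simp only [Finset.Nat.antidiagonal_succ, Finset.Nat.antidiagonal_zero, Finset.map_singleton,
      Finset.sum_cons, Finset.sum_singleton, Function.Embedding.prodMap, Function.Embedding.coeFn_mk,
      Prod.map, Function.Embedding.refl_apply]
    simp only [Nat.succ_eq_add_one, zero_add]
    rw [a1, a2, b1, b2]
    ring

/-- the first two coefficients of the integral over a block -/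
theorem ZI_low {A : Finset V} {E : Finset (Sym2 V)} (hA : ∀ e ∈ E, ∀ z ∈ e, z ∈ A) (q : V → R)
    (w : Sym2 V → R) {m : V → ℕ → R} {x : V} (hx : x ∈ A) (hm : ∀ v, v ≠ x → m v 0 = 1) (b : ℕ) :
    PowerSeries.coeff 0 (ZI A E q w m (MvPolynomial.X x ^ b)) = m x b ∧
      PowerSeries.coeff 1 (ZI A E q w m (MvPolynomial.X x ^ b)) =
        q x * m x (b + 1) + (∑ u ∈ A.erase x, q u * m u 1) * m x b := by
  obtain ⟨h1, h2⟩ := C2_WW_low A E q w
  unfold ZI
  rw [PowerSeries.coeff_mk, PowerSeries.coeff_mk, h1, h2, mul_one]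
  refine ⟨C2_umb_one hm b, ?_⟩
  rw [← Finset.add_sum_erase A _ hx, mul_add, map_add]
  congr 1
  · have h3 : (MvPolynomial.X x : MvPolynomial V R) ^ b * (MvPolynomial.C (q x) * MvPolynomial.X x) =
        q x • MvPolynomial.X x ^ (b + 1) := by
      rw [MvPolynomial.smul_eq_C_mul, pow_succ]
      ring
    rw [h3, map_smul, smul_eq_mul, C2_umb_one hm]
  · rw [Finset.mul_sum, map_sum, Finset.sum_mul]
    refine Finset.sum_congr rfl fun u hu => ?_
    have h3 : (MvPolynomial.X x : MvPolynomial V R) ^ b * (MvPolynomial.C (q u) * MvPolynomial.X u) =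
        q u • (MvPolynomial.X x ^ b * MvPolynomial.X u) := by
      rw [MvPolynomial.smul_eq_C_mul]
      ring
    rw [h3, map_smul, smul_eq_mul, C2_umb_two (Finset.ne_of_mem_erase hu) hm, mul_assoc]

end Pool.Agent.GSP
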