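import Pool.Agent.GSP.Defs
import Pool.Agent.GSP.C2

set_option autoImplicit false

open Finset

namespace Pool.Agent.GSP

variable {V R : Type} [Fintype V] [DecidableEq V] [Field R]

/-- `a₀ a₁' - a₁ a₀'` -/
def d1 (a a' : ℕ → R) : R := a 0 * a' 1 - a 1 * a' 0

/-- `a₀ a₂' - a₂ a₀'` -/
def d2 (a a' : ℕ → R) : R := a 0 * a' 2 - a 2 * a' 0

private theorem C2b_trunc {Z : PowerSeries R} {c : ℕ → R} {F : ℕ → PowerSeries R}
    (h : ∀ n, PowerSeries.coeff n Z =
      ∑ i ∈ range (n / 2 + 1), c i * PowerSeries.coeff (n - 2 * i) (F i))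
    {N n : ℕ} (hn : n < 2 * N) :
    PowerSeries.coeff n Z = PowerSeries.coeff n
      (∑ i ∈ range N, PowerSeries.C (c i) * PowerSeries.X ^ (2 * i) * F i) := by
  rw [h n, map_sum]
  have e : ∀ i ∈ range N, PowerSeries.coeff n
      (PowerSeries.C (c i) * PowerSeries.X ^ (2 * i) * F i) =
      if 2 * i ≤ n then c i * PowerSeries.coeff (n - 2 * i) (F i) else 0 := by
    intro i _
    rw [mul_assoc, PowerSeries.coeff_C_mul, PowerSeries.coeff_X_pow_mul']
    split_ifs
    · rfl
    · rw [mul_zero]
  rw [sum_congr rfl e, ← sum_filter]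
  refine sum_congr ?_ fun _ _ => rfl
  ext i
  simp only [mem_filter, mem_range]
  omega

private theorem C2b_mul {Z Z' S S' : PowerSeries R} {M : ℕ}
    (h : ∀ n < M, PowerSeries.coeff n Z = PowerSeries.coeff n S)
    (h' : ∀ n < M, PowerSeries.coeff n Z' = PowerSeries.coeff n S') :
    ∀ n < M, PowerSeries.coeff n (Z * Z') = PowerSeries.coeff n (S * S') := by
  intro n hn
  rw [PowerSeries.coeff_mul, PowerSeries.coeff_mul]
  refine sum_congr rfl fun p hp => ?_
  have := mem_antidiagonal.1 hp
  rw [h p.1 (by omega), h' p.2 (by omega)]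

private theorem C2b_van {D : PowerSeries R} {k : ℕ} (h : ∀ n < k, PowerSeries.coeff n D = 0)
    (G : PowerSeries R) {n : ℕ} (hn : n < k) : PowerSeries.coeff n (G * D) = 0 := by
  have h1 : (PowerSeries.X : PowerSeries R) ^ k ∣ D := PowerSeries.X_pow_dvd_iff.2 h
  exact PowerSeries.X_pow_dvd_iff.1 (Dvd.dvd.mul_left h1 G) n hn

private theorem C2b_low {D G : PowerSeries R} {k : ℕ} (h : ∀ n < k, PowerSeries.coeff n D = 0) :
    PowerSeries.coeff k (G * D) = PowerSeries.coeff 0 G * PowerSeries.coeff k D ∧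
    PowerSeries.coeff (k + 1) (G * D) = PowerSeries.coeff 0 G * PowerSeries.coeff (k + 1) D +
      PowerSeries.coeff 1 G * PowerSeries.coeff k D := by
  obtain ⟨D', rfl⟩ : (PowerSeries.X : PowerSeries R) ^ k ∣ D := PowerSeries.X_pow_dvd_iff.2 h
  have e1 : ∀ (j : ℕ) (F : PowerSeries R),
      PowerSeries.coeff (k + j) (PowerSeries.X ^ k * F) = PowerSeries.coeff j F := by
    intro j F
    rw [add_comm, PowerSeries.coeff_X_pow_mul]
  have e2 : G * (PowerSeries.X ^ k * D') = PowerSeries.X ^ k * (G * D') := by ring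
  have a0 := e1 0 (G * D')
  have b0 := e1 0 D'
  rw [add_zero] at a0 b0
  rw [e2, a0, b0, e1 1, e1 1]
  constructor
  · simp [PowerSeries.coeff_mul]
  · simp [PowerSeries.coeff_mul, Finset.Nat.antidiagonal_succ]

private theorem C2b_step {c : ℕ → R} {A A' B B' : ℕ → PowerSeries R} {Z1 Z2 Z3 Z4 : PowerSeries R}
    (h1 : ∀ n, PowerSeries.coeff n Z1 =
      ∑ i ∈ range (n / 2 + 1), c i * PowerSeries.coeff (n - 2 * i) (A i * B i))
    (h2 : ∀ n, PowerSeries.coeff n Z2 =
      ∑ i ∈ range (n / 2 + 1), c i * PowerSeries.coeff (n - 2 * i) (A' i * B' i))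
    (h3 : ∀ n, PowerSeries.coeff n Z3 =
      ∑ i ∈ range (n / 2 + 1), c i * PowerSeries.coeff (n - 2 * i) (A i * B' i))
    (h4 : ∀ n, PowerSeries.coeff n Z4 =
      ∑ i ∈ range (n / 2 + 1), c i * PowerSeries.coeff (n - 2 * i) (A' i * B i))
    {k : ℕ} (hk : ∀ i j, ∀ n < k, PowerSeries.coeff n (B i * B' j - B' i * B j) = 0)
    {n : ℕ} (hn : n < k + 4) :
    PowerSeries.coeff n (Z1 * Z2 - Z3 * Z4) = c 0 * c 1 * PowerSeries.coeff n
      (PowerSeries.X ^ 2 * ((A 0 * A' 1 - A 1 * A' 0) * (B 0 * B' 1 - B' 0 * B 1))) := by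
  have hN : ∀ n, n < k + 4 → n < 2 * (k + 2) := fun n hn => by omega
  rw [map_sub, C2b_mul (fun n hn => C2b_trunc h1 (hN n hn)) (fun n hn => C2b_trunc h2 (hN n hn)) n
    hn, C2b_mul (fun n hn => C2b_trunc h3 (hN n hn)) (fun n hn => C2b_trunc h4 (hN n hn)) n hn,
    ← map_sub]
  have e : (∑ i ∈ range (k + 2), PowerSeries.C (c i) * PowerSeries.X ^ (2 * i) * (A i * B i)) *
      (∑ i ∈ range (k + 2), PowerSeries.C (c i) * PowerSeries.X ^ (2 * i) * (A' i * B' i)) -
      (∑ i ∈ range (k + 2), PowerSeries.C (c i) * PowerSeries.X ^ (2 * i) * (A i * B' i)) *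
      (∑ i ∈ range (k + 2), PowerSeries.C (c i) * PowerSeries.X ^ (2 * i) * (A' i * B i)) =
      ∑ i ∈ range (k + 2), ∑ j ∈ range (k + 2), PowerSeries.C (c i * c j) *
        (PowerSeries.X ^ (2 * (i + j)) * (A i * A' j * (B i * B' j - B' i * B j))) := by
    rw [sum_mul_sum, sum_mul_sum, ← sum_sub_distrib]
    refine sum_congr rfl fun i _ => ?_
    rw [← sum_sub_distrib]
    refine sum_congr rfl fun j _ => ?_
    rw [map_mul, mul_add, pow_add]
    ring
  rw [e, map_sum]
  have hv : ∀ i j, i + j ≠ 1 → PowerSeries.coeff n (PowerSeries.C (c i * c j) *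
        (PowerSeries.X ^ (2 * (i + j)) * (A i * A' j * (B i * B' j - B' i * B j)))) = 0 := by
    intro i j hij
    rw [PowerSeries.coeff_C_mul, PowerSeries.coeff_X_pow_mul']
    rcases Nat.eq_zero_or_pos (i + j) with h0 | h0
    · have hi : i = 0 := by omega
      have hj : j = 0 := by omega
      subst hi hj
      have : B 0 * B' 0 - B' 0 * B 0 = 0 := by ring
      rw [this, mul_zero]
      simp
    · split_ifs with hc
      · rw [C2b_van (hk i j) _ (by omega), mul_zero]
      · rw [mul_zero]
  have e1 : ∀ i ∈ range (k + 2), PowerSeries.coeff n (∑ j ∈ range (k + 2),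
        PowerSeries.C (c i * c j) *
        (PowerSeries.X ^ (2 * (i + j)) * (A i * A' j * (B i * B' j - B' i * B j)))) =
      if i < 2 then PowerSeries.coeff n (PowerSeries.C (c i * c (1 - i)) *
        (PowerSeries.X ^ 2 * (A i * A' (1 - i) * (B i * B' (1 - i) - B' i * B (1 - i))))) else 0 := by
    intro i _
    rw [map_sum]
    split_ifs with hi
    · rw [sum_eq_single (1 - i)]
      · have : 2 * (i + (1 - i)) = 2 := by omega
        rw [this]
      · intro j _ hj
        exact hv i j (by omega)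
      · intro hj
        rw [mem_range] at hj
        omega
    · exact sum_eq_zero fun j _ => hv i j (by omega)
  rw [sum_congr rfl e1, ← sum_filter]
  have e2 : (range (k + 2)).filter (fun i => i < 2) = {0, 1} := by
    ext i
    simp only [mem_filter, mem_range, mem_insert, mem_singleton]
    omega
  rw [e2, sum_pair zero_ne_one, ← map_add, ← PowerSeries.coeff_C_mul]
  congr 1
  rw [Nat.sub_zero, Nat.sub_self, map_mul, map_mul]
  ring

private theorem C2b_shift (B : Finset V) (E : Finset (Sym2 V)) (q : V → R) (w : Sym2 V → R)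
    (m : V → ℕ → R) (x : V) (i : ℕ) :
    ZI B E q w m (MvPolynomial.X x ^ i) =
      ZI B E q w (Function.update m x fun j => m x (j + i)) 1 := by
  unfold ZI
  ext n
  rw [PowerSeries.coeff_mk, PowerSeries.coeff_mk, umb_shift, one_mul]

private theorem C2b_blk {A : Finset V} {E : Finset (Sym2 V)} (hA : ∀ e ∈ E, ∀ z ∈ e, z ∈ A)
    (q : V → R) (w : Sym2 V → R) {m : V → ℕ → R} {x : V} (hx : x ∈ A) (hm : ∀ v, m v 0 = 1)
    (a a' : ℕ → R) :
    PowerSeries.coeff 0 (ZI A E q w (Function.update m x a) (MvPolynomial.X x ^ 0) *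
        ZI A E q w (Function.update m x a') (MvPolynomial.X x ^ 1) -
      ZI A E q w (Function.update m x a) (MvPolynomial.X x ^ 1) *
        ZI A E q w (Function.update m x a') (MvPolynomial.X x ^ 0)) = d1 a a' ∧
    PowerSeries.coeff 1 (ZI A E q w (Function.update m x a) (MvPolynomial.X x ^ 0) *
        ZI A E q w (Function.update m x a') (MvPolynomial.X x ^ 1) -
      ZI A E q w (Function.update m x a) (MvPolynomial.X x ^ 1) *
        ZI A E q w (Function.update m x a') (MvPolynomial.X x ^ 0)) =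
      q x * d2 a a' + 2 * (∑ u ∈ A.erase x, q u * m u 1) * d1 a a' := by
  have hlow : ∀ (a : ℕ → R) (i : ℕ),
      PowerSeries.coeff 0 (ZI A E q w (Function.update m x a) (MvPolynomial.X x ^ i)) = a i ∧
      PowerSeries.coeff 1 (ZI A E q w (Function.update m x a) (MvPolynomial.X x ^ i)) =
        q x * a (i + 1) + (∑ u ∈ A.erase x, q u * m u 1) * a i := by
    intro a i
    have h := ZI_low hA q w (m := Function.update m x a) hx (fun v hv => by
      rw [Function.update_of_ne hv]
      exact hm v) i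
    rw [Function.update_self] at h
    refine ⟨h.1, h.2.trans ?_⟩
    congr 2
    refine sum_congr rfl fun u hu => ?_
    rw [Function.update_of_ne (mem_erase.1 hu).1]
  obtain ⟨a00, a01⟩ := hlow a 0
  obtain ⟨a10, a11⟩ := hlow a 1
  obtain ⟨b00, b01⟩ := hlow a' 0
  obtain ⟨b10, b11⟩ := hlow a' 1
  have c0 : ∀ F G : PowerSeries R, PowerSeries.coeff 0 (F * G) =
      PowerSeries.coeff 0 F * PowerSeries.coeff 0 G := by
    intro F G
    simp [PowerSeries.coeff_mul]
  have c1 : ∀ F G : PowerSeries R, PowerSeries.coeff 1 (F * G) =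
      PowerSeries.coeff 0 F * PowerSeries.coeff 1 G +
        PowerSeries.coeff 1 F * PowerSeries.coeff 0 G := by
    intro F G
    simp [PowerSeries.coeff_mul, Finset.Nat.antidiagonal_succ]
  constructor
  · rw [map_sub, c0, c0, a00, a10, b00, b10]
    rfl
  · rw [map_sub, c1, c1, a00, a10, b00, b10, a01, a11, b01, b11]
    unfold d1 d2
    ring

private theorem C2b_MG [CharZero R] {A B : Finset V} {EA EB : Finset (Sym2 V)} {x x' y : V}
    (hx : x ∈ A) (hx' : x' ∈ B) (hy : y ∈ B) (hAB : Disjoint A B) (hA : ∀ e ∈ EA, ∀ z ∈ e, z ∈ A)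
    (hB : ∀ e ∈ EB, ∀ z ∈ e, z ∈ B) (q : V → R) (w : Sym2 V → R) {m : V → ℕ → R}
    (hm : ∀ v, m v 0 = 1) (a a' b b' : ℕ → R) {k : ℕ}
    (hk : ∀ i j, ∀ n < k, PowerSeries.coeff n
      (ZI B EB q w (Function.update m y b) (MvPolynomial.X x' ^ i) *
        ZI B EB q w (Function.update m y b') (MvPolynomial.X x' ^ j) -
      ZI B EB q w (Function.update m y b') (MvPolynomial.X x' ^ i) *
        ZI B EB q w (Function.update m y b) (MvPolynomial.X x' ^ j)) = 0)
    {D : PowerSeries R}
    (hD : D = ZI B EB q w (Function.update m y b) (MvPolynomial.X x' ^ 0) *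
        ZI B EB q w (Function.update m y b') (MvPolynomial.X x' ^ 1) -
      ZI B EB q w (Function.update m y b') (MvPolynomial.X x' ^ 0) *
        ZI B EB q w (Function.update m y b) (MvPolynomial.X x' ^ 1)) :
    (∀ n < k + 2, PowerSeries.coeff n
      (MG (A ∪ B) (insert s(x, x') (EA ∪ EB)) q w m x y a a' b b') = 0) ∧
    PowerSeries.coeff (k + 2) (MG (A ∪ B) (insert s(x, x') (EA ∪ EB)) q w m x y a a' b b') =
      2 / 3 * w s(x, x') * (d1 a a' * PowerSeries.coeff k D) ∧
    PowerSeries.coeff (k + 3) (MG (A ∪ B) (insert s(x, x') (EA ∪ EB)) q w m x y a a' b b') =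
      2 / 3 * w s(x, x') * (d1 a a' * PowerSeries.coeff (k + 1) D +
        (q x * d2 a a' + 2 * (∑ u ∈ A.erase x, q u * m u 1) * d1 a a') *
          PowerSeries.coeff k D) := by
  have hAy : ∀ v ∈ A, v ≠ y := fun v hv h => disjoint_left.1 hAB hv (h ▸ hy)
  have hBx : ∀ v ∈ B, v ≠ x := fun v hv h => disjoint_left.1 hAB hx (h ▸ hv)
  have hxv : ∀ v, v ∉ A → v ≠ x := fun v hv h => hv (h ▸ hx)
  have hyv : ∀ v, v ∉ B → v ≠ y := fun v hv h => hv (h ▸ hy)
  have hpeel : ∀ (a b : ℕ → R) (n : ℕ), PowerSeries.coeff n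
      (ZI (A ∪ B) (insert s(x, x') (EA ∪ EB)) q w
        (Function.update (Function.update m x a) y b) 1) =
      ∑ i ∈ range (n / 2 + 1), (4 * w s(x, x')) ^ i / ((2 * i + 1).factorial : R) *
        PowerSeries.coeff (n - 2 * i)
          (ZI A EA q w (Function.update m x a) (MvPolynomial.X x ^ i) *
            ZI B EB q w (Function.update m y b) (MvPolynomial.X x' ^ i)) := by
    intro a b n
    refine ZI_peel hx hx' hAB hA hB q w ?_ ?_ ?_ ?_ ?_ n
    · intro v hv
      rw [Function.update_of_ne (hAy v hv)]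
    · intro v hv
      by_cases h : v = y
      · subst h
        rw [Function.update_self, Function.update_self]
      · rw [Function.update_of_ne h, Function.update_of_ne h, Function.update_of_ne (hBx v hv)]
    · intro v hv
      rw [Function.update_of_ne (hxv v hv)]
      exact hm v
    · intro v hv
      rw [Function.update_of_ne (hyv v hv)]
      exact hm v
    · intro v hv hv'
      rw [Function.update_of_ne (hyv v hv'), Function.update_of_ne (hxv v hv)]
      exact hm v
  have hstep := fun (n : ℕ) (hn : n < k + 4) => C2b_step (k := k)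
    (c := fun i => (4 * w s(x, x')) ^ i / ((2 * i + 1).factorial : R))
    (A := fun i => ZI A EA q w (Function.update m x a) (MvPolynomial.X x ^ i))
    (A' := fun i => ZI A EA q w (Function.update m x a') (MvPolynomial.X x ^ i))
    (B := fun i => ZI B EB q w (Function.update m y b) (MvPolynomial.X x' ^ i))
    (B' := fun i => ZI B EB q w (Function.update m y b') (MvPolynomial.X x' ^ i))
    (hpeel a b) (hpeel a' b') (hpeel a b') (hpeel a' b) hk hn
  have hc : (4 * w s(x, x')) ^ 0 / ((2 * 0 + 1).factorial : R) *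
      ((4 * w s(x, x')) ^ 1 / ((2 * 1 + 1).factorial : R)) = 2 / 3 * w s(x, x') := by
    have h6 : ((2 * 1 + 1).factorial : R) = 6 := by
      norm_num [Nat.factorial]
    rw [h6]
    norm_num
    ring
  have hD0 : ∀ n < k, PowerSeries.coeff n D = 0 := by
    rw [hD]
    exact hk 0 1
  obtain ⟨f0, f1⟩ := C2b_blk hA q w hx hm a a'
  have key : ∀ n < k + 4, PowerSeries.coeff n
      (MG (A ∪ B) (insert s(x, x') (EA ∪ EB)) q w m x y a a' b b') =
      2 / 3 * w s(x, x') * PowerSeries.coeff n (PowerSeries.X ^ 2 *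
        ((ZI A EA q w (Function.update m x a) (MvPolynomial.X x ^ 0) *
        ZI A EA q w (Function.update m x a') (MvPolynomial.X x ^ 1) -
      ZI A EA q w (Function.update m x a) (MvPolynomial.X x ^ 1) *
        ZI A EA q w (Function.update m x a') (MvPolynomial.X x ^ 0)) * D)) := by
    intro n hn
    have h := hstep n hn
    rw [hc, ← hD] at h
    exact h
  obtain ⟨g0, g1⟩ := C2b_low (G := (ZI A EA q w (Function.update m x a) (MvPolynomial.X x ^ 0) *
        ZI A EA q w (Function.update m x a') (MvPolynomial.X x ^ 1) -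
      ZI A EA q w (Function.update m x a) (MvPolynomial.X x ^ 1) *
        ZI A EA q w (Function.update m x a') (MvPolynomial.X x ^ 0))) hD0
  rw [f0] at g0 g1
  rw [f1] at g1
  refine ⟨?_, ?_, ?_⟩
  · intro n hn
    rw [key n (by omega), PowerSeries.coeff_X_pow_mul']
    split_ifs with h2
    · rw [C2b_van hD0 _ (by omega), mul_zero]
    · rw [mul_zero]
  · rw [key (k + 2) (by omega), PowerSeries.coeff_X_pow_mul, g0]
  · rw [key (k + 3) (by omega)]
    have : k + 3 = k + 1 + 2 := by omega
    rw [this, PowerSeries.coeff_X_pow_mul, g1]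

omit [Fintype V] in
private theorem C2b_facts {U : Finset V} {E : Finset (Sym2 V)} {x y : V} {es : List (Sym2 V)}
    {zs : List V} (hc : Chain U E x y es zs) :
    x ∈ U ∧ y ∈ U ∧ x ≠ y ∧ ∀ z ∈ zs, z ∈ U := by
  induction hc with
  | one hx hy hAB hA hB =>
    refine ⟨mem_union_left _ hx, mem_union_right _ hy, ?_, fun z hz => absurd hz List.not_mem_nil⟩
    rintro rfl
    exact disjoint_left.1 hAB hx hy
  | cons hx hx' hAB hA hB hc ih =>
    obtain ⟨h1, h2, h3, h4⟩ := ih
    refine ⟨mem_union_left _ hx, mem_union_right _ h2, ?_, fun z hz => ?_⟩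
    · rintro rfl
      exact disjoint_left.1 hAB hx h2
    · rcases List.mem_cons.1 hz with h | h
      · rw [h]
        exact mem_union_right _ hx'
      · exact mem_union_right _ (h4 z h)

/-- the lowest coefficients of `MG` for a chain -/
theorem MG_chain [CharZero R] {U : Finset V} {E : Finset (Sym2 V)} {x y : V}
    {es : List (Sym2 V)} {zs : List V} (hc : Chain U E x y es zs) (q : V → R) (w : Sym2 V → R)
    {m : V → ℕ → R} (hm : ∀ v, m v 0 = 1) (a a' b b' : ℕ → R) :
    (∀ n < 2 * es.length, PowerSeries.coeff n (MG U E q w m x y a a' b b') = 0) ∧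
    PowerSeries.coeff (2 * es.length) (MG U E q w m x y a a' b b') =
      (es.map fun e => 2 / 3 * w e).prod * (zs.map fun z => va (m z)).prod *
        (d1 a a' * d1 b b') ∧
    (d1 a a' ≠ 0 → d1 b b' ≠ 0 → (∀ z ∈ zs, va (m z) ≠ 0) →
      PowerSeries.coeff (2 * es.length + 1) (MG U E q w m x y a a' b b') =
        PowerSeries.coeff (2 * es.length) (MG U E q w m x y a a' b b') *
          (q x * (d2 a a' / d1 a a') + q y * (d2 b b' / d1 b b') +
            (zs.map fun z => q z * ((m z 3 - m z 1 * m z 2) / va (m z))).sum +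
            2 * ∑ u ∈ U with u ≠ x ∧ u ≠ y ∧ u ∉ zs, q u * m u 1)) := by
  induction hc generalizing a a' with
  | @one A B EA EB x y hx hy hAB hA hB =>
    have hk : ∀ i j, ∀ n < 0, PowerSeries.coeff n
      (ZI B EB q w (Function.update m y b) (MvPolynomial.X y ^ i) *
        ZI B EB q w (Function.update m y b') (MvPolynomial.X y ^ j) -
      ZI B EB q w (Function.update m y b') (MvPolynomial.X y ^ i) *
        ZI B EB q w (Function.update m y b) (MvPolynomial.X y ^ j)) = 0 := by
      intro i j n hn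
      omega
    obtain ⟨h1, h2, h3⟩ := C2b_MG hx hy hy hAB hA hB q w hm a a' b b' hk rfl
    have hsw : ZI B EB q w (Function.update m y b) (MvPolynomial.X y ^ 0) *
        ZI B EB q w (Function.update m y b') (MvPolynomial.X y ^ 1) -
      ZI B EB q w (Function.update m y b') (MvPolynomial.X y ^ 0) *
        ZI B EB q w (Function.update m y b) (MvPolynomial.X y ^ 1) =
      ZI B EB q w (Function.update m y b) (MvPolynomial.X y ^ 0) *
        ZI B EB q w (Function.update m y b') (MvPolynomial.X y ^ 1) -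
      ZI B EB q w (Function.update m y b) (MvPolynomial.X y ^ 1) *
        ZI B EB q w (Function.update m y b') (MvPolynomial.X y ^ 0) := by
      ring
    obtain ⟨g0, g1⟩ := C2b_blk hB q w hy hm b b'
    rw [hsw, zero_add, g0] at h2
    rw [hsw, zero_add, zero_add, g0, g1] at h3
    rw [zero_add] at h1
    have hlen : 2 * [s(x, y)].length = 2 := rfl
    rw [hlen]
    refine ⟨h1, ?_, ?_⟩
    · rw [h2]
      simp
    · intro ha hb _
      rw [h3, h2]
      have hsum : ∑ u ∈ A ∪ B with u ≠ x ∧ u ≠ y ∧ u ∉ ([] : List V), q u * m u 1 =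
          ∑ u ∈ A.erase x, q u * m u 1 + ∑ u ∈ B.erase y, q u * m u 1 := by
        have hdis : Disjoint (A.erase x) (B.erase y) :=
          Finset.disjoint_of_subset_left (erase_subset _ _)
            (Finset.disjoint_of_subset_right (erase_subset _ _) hAB)
        rw [← sum_union hdis]
        refine sum_congr ?_ fun _ _ => rfl
        ext u
        simp only [mem_filter, mem_union, mem_erase, List.not_mem_nil, not_false_eq_true, and_true]
        constructor
        · rintro ⟨h | h, h1, h2⟩
          · exact Or.inl ⟨h1, h⟩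
          · exact Or.inr ⟨h2, h⟩
        · rintro (⟨h1, h⟩ | ⟨h1, h⟩)
          · exact ⟨Or.inl h, h1, fun h2 => disjoint_left.1 hAB h (h2 ▸ hy)⟩
          · exact ⟨Or.inr h, fun h2 => disjoint_left.1 hAB hx (h2 ▸ h), h1⟩
      rw [hsum]
      simp only [List.map_nil, List.sum_nil]
      field_simp
      ring
  | @cons A B EA EB x x' y es zs hx hx' hAB hA hB hc ih =>
    obtain ⟨f1, f2, f3, f4⟩ := C2b_facts hc
    have hsh : ∀ (b : ℕ → R) (i : ℕ),
        ZI B EB q w (Function.update m y b) (MvPolynomial.X x' ^ i) =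
        ZI B EB q w (Function.update (Function.update m x' fun j => m x' (j + i)) y b) 1 := by
      intro b i
      rw [C2b_shift, Function.update_of_ne f3, Function.update_comm f3]
    have hDel : ∀ i j, ZI B EB q w (Function.update m y b) (MvPolynomial.X x' ^ i) *
        ZI B EB q w (Function.update m y b') (MvPolynomial.X x' ^ j) -
      ZI B EB q w (Function.update m y b') (MvPolynomial.X x' ^ i) *
        ZI B EB q w (Function.update m y b) (MvPolynomial.X x' ^ j) =
        MG B EB q w m x' y (fun l => m x' (l + i)) (fun l => m x' (l + j)) b b' := by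
      intro i j
      rw [hsh, hsh, hsh, hsh]
      rfl
    have hk : ∀ i j, ∀ n < 2 * es.length, PowerSeries.coeff n
      (ZI B EB q w (Function.update m y b) (MvPolynomial.X x' ^ i) *
        ZI B EB q w (Function.update m y b') (MvPolynomial.X x' ^ j) -
      ZI B EB q w (Function.update m y b') (MvPolynomial.X x' ^ i) *
        ZI B EB q w (Function.update m y b) (MvPolynomial.X x' ^ j)) = 0 := by
      intro i j n hn
      rw [hDel]
      exact (ih _ _).1 n hn
    obtain ⟨h1, h2, h3⟩ := C2b_MG hx hx' f2 hAB hA hB q w hm a a' b b' hk rfl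
    rw [hDel 0 1] at h2 h3
    obtain ⟨-, i2, i3⟩ := ih (fun l => m x' (l + 0)) (fun l => m x' (l + 1))
    have hd1 : d1 (fun l => m x' (l + 0)) (fun l => m x' (l + 1)) = va (m x') := by
      unfold d1 va
      simp only [hm, Nat.zero_add, Nat.add_zero]
      ring
    have hd2 : d2 (fun l => m x' (l + 0)) (fun l => m x' (l + 1)) = m x' 3 - m x' 1 * m x' 2 := by
      unfold d2
      simp only [hm, Nat.zero_add, Nat.add_zero]
      ring
    rw [hd1] at i2 i3
    rw [hd2] at i3
    have hlen : 2 * (s(x, x') :: es).length = 2 * es.length + 2 := by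
      rw [List.length_cons]
      ring
    rw [hlen]
    refine ⟨h1, ?_, ?_⟩
    · rw [h2, i2]
      simp only [List.map_cons, List.prod_cons]
      ring
    · intro ha hb hz
      have hz1 := hz x' (List.mem_cons_self ..)
      have hz2 : ∀ z ∈ zs, va (m z) ≠ 0 := fun z h => hz z (List.mem_cons_of_mem _ h)
      rw [show 2 * es.length + 2 + 1 = 2 * es.length + 3 from rfl, h3, h2, i3 hz1 hb hz2]
      have hsum : ∑ u ∈ A ∪ B with u ≠ x ∧ u ≠ y ∧ u ∉ x' :: zs, q u * m u 1 =
          ∑ u ∈ A.erase x, q u * m u 1 + ∑ u ∈ B with u ≠ x' ∧ u ≠ y ∧ u ∉ zs, q u * m u 1 := by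
        have hdis : Disjoint (A.erase x) (B.filter fun u => u ≠ x' ∧ u ≠ y ∧ u ∉ zs) :=
          Finset.disjoint_of_subset_left (erase_subset _ _)
            (Finset.disjoint_of_subset_right (filter_subset _ _) hAB)
        rw [← sum_union hdis]
        refine sum_congr ?_ fun _ _ => rfl
        ext u
        simp only [mem_filter, mem_union, mem_erase, List.mem_cons, not_or]
        constructor
        · rintro ⟨h | h, h1, h2, h3, h4⟩
          · exact Or.inl ⟨h1, h⟩
          · exact Or.inr ⟨h, h3, h2, h4⟩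
        · rintro (⟨h1, h⟩ | ⟨h, h1, h2, h3⟩)
          · exact ⟨Or.inl h, h1, fun h2 => disjoint_left.1 hAB h (h2 ▸ f2),
              fun h2 => disjoint_left.1 hAB h (h2 ▸ hx'),
              fun h2 => disjoint_left.1 hAB h (f4 u h2)⟩
          · exact ⟨Or.inr h, fun h2 => disjoint_left.1 hAB hx (h2 ▸ h), h2, h1, h3⟩
      rw [hsum]
      simp only [List.map_cons, List.sum_cons]
      field_simp
      ring

end Pool.Agent.GSP
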