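import Pool.Agent.GSP.Defs
import Pool.Agent.GSP.C2b

set_option autoImplicit false

open Finset

namespace Pool.Agent.GSP

variable {V R : Type} [Fintype V] [DecidableEq V] [Field R]

private theorem C3_aux {V : Type} [DecidableEq V] {G : SimpleGraph V} (hG : G.IsAcyclic) {x y : V}
    (p : G.Walk x y) : p.IsPath → x ≠ y → ∀ (U : Finset V) (E : Finset (Sym2 V)),
      (∀ e ∈ E, ∀ z ∈ e, z ∈ U) → (∀ e ∈ E, e ∈ G.edgeSet) → (∀ e ∈ p.edges, e ∈ E) →
      Chain U E x y p.edges p.support.tail.dropLast := by
  classical
  induction p with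
  | nil => exact fun _ h => absurd rfl h
  | @cons x x' y h p' ih =>
    intro hp hxy U E hEU hEG hpE
    have hp' : p'.IsPath := hp.of_cons
    have hxs : x ∉ p'.support := ((SimpleGraph.Walk.cons_isPath_iff h p').1 hp).2
    have he0 : s(x, x') ∈ E := hpE _ (by simp)
    let H : SimpleGraph V := SimpleGraph.fromEdgeSet (↑(E.erase s(x, x')) : Set (Sym2 V))
    have hHadj : ∀ a b, H.Adj a b ↔ s(a, b) ∈ E ∧ s(a, b) ≠ s(x, x') := by
      intro a b
      rw [SimpleGraph.fromEdgeSet_adj]
      constructor
      · rintro ⟨h1, _⟩
        rw [Finset.mem_coe, Finset.mem_erase] at h1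
        exact ⟨h1.2, h1.1⟩
      · rintro ⟨h1, h2⟩
        refine ⟨Finset.mem_coe.2 (Finset.mem_erase.2 ⟨h2, h1⟩), ?_⟩
        have h3 : G.Adj a b := hEG _ h1
        exact h3.ne
    have hbr : ¬ H.Reachable x' x := by
      intro hr
      have h1 := (SimpleGraph.isAcyclic_iff_forall_isBridge.1 hG) (e := s(x, x'))
        (G.mem_edgeSet.2 h)
      rw [SimpleGraph.isBridge_iff] at h1
      refine h1 (hr.symm.mono ?_)
      intro a b hab
      rw [hHadj] at hab
      rw [SimpleGraph.deleteEdges_adj]
      exact ⟨hEG _ hab.1, hab.2⟩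
    let B : Finset V := U.filter (fun z => H.Reachable x' z)
    let A : Finset V := U.filter (fun z => ¬ H.Reachable x' z)
    let EB : Finset (Sym2 V) := (E.erase s(x, x')).filter (fun e => ∀ z ∈ e, z ∈ B)
    let EA : Finset (Sym2 V) := (E.erase s(x, x')).filter (fun e => ∀ z ∈ e, z ∈ A)
    have hxU : x ∈ U := hEU _ he0 x (by simp)
    have hx'U : x' ∈ U := hEU _ he0 x' (by simp)
    have hxA : x ∈ A := Finset.mem_filter.2 ⟨hxU, hbr⟩
    have hx'B : x' ∈ B := Finset.mem_filter.2 ⟨hx'U, SimpleGraph.Reachable.refl _⟩
    have hAB : Disjoint A B := by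
      rw [Finset.disjoint_left]
      intro z h1 h2
      exact (Finset.mem_filter.1 h1).2 (Finset.mem_filter.1 h2).2
    have hU : A ∪ B = U := by
      rw [Finset.union_comm]
      exact Finset.filter_union_filter_not_eq _ _
    have hE : insert s(x, x') (EA ∪ EB) = E := by
      ext e
      rw [Finset.mem_insert, Finset.mem_union, Finset.mem_filter, Finset.mem_filter]
      constructor
      · rintro (rfl | ⟨h1, _⟩ | ⟨h1, _⟩)
        · exact he0
        · exact Finset.mem_of_mem_erase h1
        · exact Finset.mem_of_mem_erase h1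
      · intro he
        by_cases hne : e = s(x, x')
        · exact Or.inl hne
        · right
          have h1 : e ∈ E.erase s(x, x') := Finset.mem_erase.2 ⟨hne, he⟩
          induction e using Sym2.ind with
          | _ a b =>
            have hab : H.Adj a b := (hHadj a b).2 ⟨he, hne⟩
            have haU : a ∈ U := hEU _ he a (by simp)
            have hbU : b ∈ U := hEU _ he b (by simp)
            by_cases hr : H.Reachable x' a
            · right
              refine ⟨h1, fun z hz => ?_⟩
              rcases Sym2.mem_iff.1 hz with rfl | rfl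
              · exact Finset.mem_filter.2 ⟨haU, hr⟩
              · exact Finset.mem_filter.2 ⟨hbU, hr.trans hab.reachable⟩
            · left
              refine ⟨h1, fun z hz => ?_⟩
              rcases Sym2.mem_iff.1 hz with rfl | rfl
              · exact Finset.mem_filter.2 ⟨haU, hr⟩
              · exact Finset.mem_filter.2 ⟨hbU, fun h2 => hr (h2.trans hab.symm.reachable)⟩
    have hA : ∀ e ∈ EA, ∀ z ∈ e, z ∈ A := fun e he => (Finset.mem_filter.1 he).2
    have hB : ∀ e ∈ EB, ∀ z ∈ e, z ∈ B := fun e he => (Finset.mem_filter.1 he).2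
    -- the rest of the path
    have hp'E : ∀ e ∈ p'.edges, e ∈ E ∧ e ≠ s(x, x') := by
      intro e he
      refine ⟨hpE e (by rw [SimpleGraph.Walk.edges_cons]; exact List.mem_cons_of_mem _ he), ?_⟩
      rintro rfl
      exact hxs (SimpleGraph.Walk.fst_mem_support_of_mem_edges p' he)
    have hp'H : ∀ e ∈ p'.edges, e ∈ H.edgeSet := by
      intro e he
      induction e using Sym2.ind with
      | _ a b => exact (hHadj a b).2 (hp'E _ he)
    have hreach : ∀ z ∈ p'.support, H.Reachable x' z := by
      intro z hz
      have hz' : z ∈ (p'.transfer H hp'H).support := by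
        rw [SimpleGraph.Walk.support_transfer]
        exact hz
      exact ((p'.transfer H hp'H).takeUntil z hz').reachable
    rw [← hU, ← hE]
    by_cases hx'y : x' = y
    · subst hx'y
      have hnil : p' = SimpleGraph.Walk.nil :=
        SimpleGraph.Walk.eq_nil_iff_nil.2 (SimpleGraph.Walk.isPath_iff_nil.1 hp')
      subst hnil
      exact Chain.one hxA hx'B hAB hA hB
    · have hc := ih hp' hx'y B EB hB (fun e he => hEG e (Finset.mem_of_mem_erase
        (Finset.mem_filter.1 he).1)) (by
          intro e he
          obtain ⟨h1, h2⟩ := hp'E e he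
          refine Finset.mem_filter.2 ⟨Finset.mem_erase.2 ⟨h2, h1⟩, fun z hz => ?_⟩
          refine Finset.mem_filter.2 ⟨hEU e h1 z hz, hreach z ?_⟩
          induction e using Sym2.ind with
          | _ a b =>
            rcases Sym2.mem_iff.1 hz with rfl | rfl
            · exact SimpleGraph.Walk.fst_mem_support_of_mem_edges p' he
            · exact SimpleGraph.Walk.snd_mem_support_of_mem_edges p' he)
      have hs : (SimpleGraph.Walk.cons h p').support.tail.dropLast =
          x' :: p'.support.tail.dropLast := by
        cases p' with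
        | nil => exact absurd rfl hx'y
        | cons h2 p2 =>
          rw [SimpleGraph.Walk.support_cons, List.tail_cons, SimpleGraph.Walk.support_cons,
            List.tail_cons, List.dropLast_cons_of_ne_nil (SimpleGraph.Walk.support_ne_nil p2)]
      rw [hs, SimpleGraph.Walk.edges_cons]
      exact Chain.cons hxA hx'B hAB hA hB hc

/-- a path in a forest gives a chain -/
theorem chain_of_path {G : SimpleGraph V} (hG : G.IsAcyclic) {x y : V} (p : G.Walk x y)
    (hp : p.IsPath) (hxy : x ≠ y) :
    Chain univ (eds G) x y p.edges p.support.tail.dropLast := by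
  refine C3_aux hG p hp hxy univ (eds G) (fun e _ z _ => Finset.mem_univ z) ?_ ?_
  · intro e he
    unfold eds at he
    rwa [Set.Finite.mem_toFinset] at he
  · intro e he
    unfold eds
    rw [Set.Finite.mem_toFinset]
    exact SimpleGraph.Walk.edges_subset_edgeSet p he

end Pool.Agent.GSP
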