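import Pool.Agent.GSP.Defs
import Pool.Agent.GSP.C3

set_option autoImplicit false

open Finset

namespace Pool.Agent.GSP

variable {V R : Type} [Fintype V] [DecidableEq V] [Field R]

omit [Fintype V] [Field R] in
private theorem C4_update (m : V → ℕ → R) {x y : V} (hxy : x ≠ y) (a b : ℕ → R) :
    Function.update (Function.update m x (m x)) y (m y) = m ∧
    Function.update (Function.update m x a) y (m y) = Function.update m x a ∧
    Function.update (Function.update m x (m x)) y b = Function.update m y b := by
  refine ⟨?_, ?_, ?_⟩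
  · rw [Function.update_eq_self, Function.update_eq_self]
  · have h : m y = (Function.update m x a) y := by
      rw [Function.update_of_ne hxy.symm]
    conv_lhs => rw [h]
    rw [Function.update_eq_self]
  · rw [Function.update_eq_self]

private theorem C4_MM_eq (E : Finset (Sym2 V)) (q : V → R) (w : Sym2 V → R) (m : V → ℕ → R)
    {x y : V} (hxy : x ≠ y) (a b : ℕ → R) :
    MM E q w m x y a b = MG univ E q w m x y a (m x) b (m y) := by
  obtain ⟨h1, h2, h3⟩ := C4_update m hxy a b
  unfold MM MG ZZ
  rw [h1, h2, h3]

/-- the lowest coefficients of `MM` -/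
theorem MM_path [CharZero R] {G : SimpleGraph V} (hG : G.IsAcyclic) {x y : V} (p : G.Walk x y)
    (hp : p.IsPath) (hxy : x ≠ y) (q : V → R) (w : Sym2 V → R) {m : V → ℕ → R}
    (hm : ∀ v, m v 0 = 1) {a b : ℕ → R} (ha : a 0 = 1) (hb : b 0 = 1) :
    (∀ n < 2 * p.length, PowerSeries.coeff n (MM (eds G) q w m x y a b) = 0) ∧
    PowerSeries.coeff (2 * p.length) (MM (eds G) q w m x y a b) =
      (p.edges.map fun e => 2 / 3 * w e).prod *
        (p.support.tail.dropLast.map fun z => va (m z)).prod *
        ((a 1 - m x 1) * (b 1 - m y 1)) ∧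
    (a 1 ≠ m x 1 → b 1 ≠ m y 1 → (∀ z ∈ p.support.tail.dropLast, va (m z) ≠ 0) →
      PowerSeries.coeff (2 * p.length + 1) (MM (eds G) q w m x y a b) =
        PowerSeries.coeff (2 * p.length) (MM (eds G) q w m x y a b) *
          (q x * ((a 2 - m x 2) / (a 1 - m x 1) - 2 * m x 1) +
            q y * ((b 2 - m y 2) / (b 1 - m y 1) - 2 * m y 1) +
            (p.support.tail.dropLast.map fun z => q z * (cu (m z) / va (m z))).sum +
            2 * ∑ u, q u * m u 1)) := by
  have hm0x := hm x
  have hm0y := hm y
  have hc := chain_of_path hG p hp hxy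
  obtain ⟨c1, c2, c3⟩ := MG_chain (R := R) hc q w hm a (m x) b (m y)
  rw [← C4_MM_eq (eds G) q w m hxy a b] at c2 c3
  simp only [← C4_MM_eq (eds G) q w m hxy a b] at c1
  rw [SimpleGraph.Walk.length_edges] at c1 c2 c3
  have e1 : d1 a (m x) = -(a 1 - m x 1) := by
    unfold d1
    rw [ha, hm0x]
    ring
  have e2 : d1 b (m y) = -(b 1 - m y 1) := by
    unfold d1
    rw [hb, hm0y]
    ring
  have e3 : d2 a (m x) = -(a 2 - m x 2) := by
    unfold d2
    rw [ha, hm0x]
    ring
  have e4 : d2 b (m y) = -(b 2 - m y 2) := by
    unfold d2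
    rw [hb, hm0y]
    ring
  refine ⟨c1, ?_, ?_⟩
  · rw [c2, e1, e2]
    ring
  · intro h1 h2 h3
    have h1' : a 1 - m x 1 ≠ 0 := sub_ne_zero.2 h1
    have h2' : b 1 - m y 1 ≠ 0 := sub_ne_zero.2 h2
    rw [c3 (by rw [e1]; exact neg_ne_zero.2 h1') (by rw [e2]; exact neg_ne_zero.2 h2') h3, e1, e2,
      e3, e4, neg_div_neg_eq, neg_div_neg_eq]
    congr 1
    set zs := p.support.tail.dropLast with hzs
    have hmap : (zs.map fun z => q z * ((m z 3 - m z 1 * m z 2) / va (m z))).sum =
        (zs.map fun z => q z * (cu (m z) / va (m z))).sum +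
          2 * (zs.map fun z => q z * m z 1).sum := by
      rw [← List.sum_map_mul_left, ← List.sum_map_add]
      congr 1
      refine List.map_congr_left fun z hz => ?_
      have hz' := h3 z hz
      have e : m z 3 - m z 1 * m z 2 = cu (m z) + 2 * m z 1 * va (m z) := by
        unfold cu va
        ring
      rw [e]
      field_simp
    -- the support
    have hsup : p.support = x :: (zs ++ [y]) := by
      have h4 : p.support = x :: p.support.tail := p.cons_tail_support.symm
      have h5 : p.support.tail ≠ [] := by
        intro h6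
        have h7 := p.length_support
        rw [h4, h6] at h7
        have h8 : p.length = 0 := by
          simp only [List.length_cons, List.length_nil] at h7
          omega
        exact hxy (SimpleGraph.Walk.eq_of_length_eq_zero h8)
      have h6 : p.support.tail.getLast h5 = y := by
        have h7 : p.support.getLast p.support_ne_nil = y := p.getLast_support
        exact (List.getLast_tail h5).trans h7
      rw [h4]
      congr 1
      rw [hzs]
      conv_lhs => rw [← List.dropLast_append_getLast h5, h6]
    have hnd := hp.support_nodup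
    rw [hsup, List.nodup_cons, List.nodup_append] at hnd
    obtain ⟨hx1, hzn, -, hzy⟩ := hnd
    have hxz : x ∉ zs := fun h => hx1 (List.mem_append_left _ h)
    have hyz : y ∉ zs := fun h => hzy y h y (by simp) rfl
    have hsum : ∑ u, q u * m u 1 = q x * m x 1 + q y * m y 1 +
        (zs.map fun z => q z * m z 1).sum +
        ∑ u ∈ (univ : Finset V) with u ≠ x ∧ u ≠ y ∧ u ∉ zs, q u * m u 1 := by
      rw [← Finset.sum_filter_add_sum_filter_not univ (fun u => u ≠ x ∧ u ≠ y ∧ u ∉ zs), add_comm]
      congr 1
      have h4 : (univ : Finset V).filter (fun u => ¬ (u ≠ x ∧ u ≠ y ∧ u ∉ zs)) =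
          insert x (insert y zs.toFinset) := by
        ext u
        simp only [Finset.mem_filter, Finset.mem_univ, true_and, Finset.mem_insert,
          List.mem_toFinset]
        tauto
      rw [h4, Finset.sum_insert (by
          rw [Finset.mem_insert, List.mem_toFinset]
          tauto), Finset.sum_insert (by rwa [List.mem_toFinset]),
        List.sum_toFinset _ hzn, add_assoc]
    rw [hmap, hsum]
    ring

/-- the coefficients are in the subalgebra of the polynomials in the variables in `A` -/
private def C4_P (A : Finset V) (f : PowerSeries (MvPolynomial V R)) : Prop :=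
  ∀ n, PowerSeries.coeff n f ∈ MvPolynomial.supported R (A : Set V)

omit [Fintype V] [DecidableEq V] in
private theorem C4_mul {A : Finset V} {f g : PowerSeries (MvPolynomial V R)} (hf : C4_P A f)
    (hg : C4_P A g) : C4_P A (f * g) := by
  intro n
  rw [PowerSeries.coeff_mul]
  exact Subalgebra.sum_mem _ fun x _ => Subalgebra.mul_mem _ (hf _) (hg _)

omit [Fintype V] [DecidableEq V] in
private theorem C4_one (A : Finset V) : C4_P A (1 : PowerSeries (MvPolynomial V R)) := by
  intro n
  rw [PowerSeries.coeff_one]
  split_ifs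
  · exact Subalgebra.one_mem _
  · exact Subalgebra.zero_mem _

omit [Fintype V] [DecidableEq V] in
private theorem C4_prod {ι : Type} {A : Finset V} (T : Finset ι)
    (f : ι → PowerSeries (MvPolynomial V R)) (hf : ∀ i ∈ T, C4_P A (f i)) :
    C4_P A (∏ i ∈ T, f i) := by
  classical
  induction T using Finset.induction_on with
  | empty =>
    rw [Finset.prod_empty]
    exact C4_one A
  | insert i T hi ih =>
    rw [Finset.prod_insert hi]
    exact C4_mul (hf i (Finset.mem_insert_self ..))
      (ih fun j hj => hf j (Finset.mem_insert_of_mem hj))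

private theorem C4_WW {A : Finset V} {E : Finset (Sym2 V)} (hE : ∀ e ∈ E, ∀ z ∈ e, z ∈ A)
    (q : V → R) (w : Sym2 V → R) : C4_P A (WW A E q w) := by
  unfold WW
  refine C4_mul (C4_prod _ _ fun v hv n => ?_) (C4_prod _ _ fun e he n => ?_)
  · unfold nodeW
    rw [PowerSeries.coeff_mk]
    refine Subalgebra.mul_mem _ ?_ (Subalgebra.pow_mem _ (MvPolynomial.X_mem_supported.2 ?_) _)
    · exact Subalgebra.algebraMap_mem _ _
    · exact_mod_cast hv
  · unfold edgeW
    rw [PowerSeries.coeff_mk]
    split_ifs
    · refine Subalgebra.mul_mem _ ?_ (Subalgebra.pow_mem _ (Subalgebra.prod_mem _ fun z hz =>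
        MvPolynomial.X_mem_supported.2 ?_) _)
      · exact Subalgebra.algebraMap_mem _ _
      · rw [Sym2.mem_toFinset] at hz
        exact_mod_cast hE e he z hz
    · exact Subalgebra.zero_mem _

/-- the restriction of the moments -/
private def C4_r (A : Finset V) (m : V → ℕ → R) : V → ℕ → R :=
  fun v => if v ∈ A then m v else fun _ => 1

private theorem C4_split {A B : Finset V} {E EA EB : Finset (Sym2 V)} (hAB : Disjoint A B)
    (hU : A ∪ B = univ) (hA : ∀ e ∈ EA, ∀ z ∈ e, z ∈ A) (hB : ∀ e ∈ EB, ∀ z ∈ e, z ∈ B)
    (hE : EA ∪ EB = E) (q : V → R) (w : Sym2 V → R) (m : V → ℕ → R) :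
    ZZ E q w m = ZI A EA q w (C4_r A m) 1 * ZI B EB q w (C4_r B m) 1 := by
  have hEE : Disjoint EA EB := by
    rw [Finset.disjoint_left]
    intro e h1 h2
    induction e using Sym2.ind with
    | _ u v =>
      have h3 := hA _ h1 u (Sym2.mem_mk_left u v)
      have h4 := hB _ h2 u (Sym2.mem_mk_left u v)
      exact (Finset.disjoint_left.1 hAB) h3 h4
  have hW : WW univ E q w = WW A EA q w * WW B EB q w := by
    unfold WW
    rw [← hU, ← hE, Finset.prod_union hAB, Finset.prod_union hEE]
    ring
  ext n
  unfold ZZ ZI
  rw [PowerSeries.coeff_mk, PowerSeries.coeff_mul, hW, PowerSeries.coeff_mul, one_mul, map_sum]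
  refine Finset.sum_congr rfl fun t _ => ?_
  rw [PowerSeries.coeff_mk, PowerSeries.coeff_mk, one_mul, one_mul]
  have hin : ∀ v, v ∈ A ∨ v ∈ B := fun v => by
    rw [← Finset.mem_union, hU]
    exact Finset.mem_univ v
  refine umb_mul_disj hAB ?_ ?_ ?_ ?_ ?_ ?_ ?_
  · have := C4_WW hA q w t.1
    rw [MvPolynomial.mem_supported] at this
    exact_mod_cast this
  · have := C4_WW hB q w t.2
    rw [MvPolynomial.mem_supported] at this
    exact_mod_cast this
  · intro v hv
    unfold C4_r
    rw [if_pos hv]
  · intro v hv
    unfold C4_r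
    rw [if_pos hv]
  · intro v hv
    unfold C4_r
    rw [if_neg hv]
  · intro v hv
    unfold C4_r
    rw [if_neg hv]
  · intro v hv1 hv2
    exact absurd (hin v) (by tauto)

/-- nodes in different components -/
theorem MM_unreachable [CharZero R] {G : SimpleGraph V} {x y : V} (hxy : ¬ G.Reachable x y)
    (q : V → R) (w : Sym2 V → R) {m : V → ℕ → R} (hm : ∀ v, m v 0 = 1) {a b : ℕ → R}
    (ha : a 0 = 1) (hb : b 0 = 1) : MM (eds G) q w m x y a b = 0 := by
  classical
  set A : Finset V := univ.filter (fun v => G.Reachable x v) with hA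
  set B : Finset V := univ.filter (fun v => ¬ G.Reachable x v) with hB
  have hmA : ∀ v, v ∈ A ↔ G.Reachable x v := fun v => by
    rw [hA, Finset.mem_filter]
    exact ⟨fun h => h.2, fun h => ⟨Finset.mem_univ v, h⟩⟩
  have hmB : ∀ v, v ∈ B ↔ ¬ G.Reachable x v := fun v => by
    rw [hB, Finset.mem_filter]
    exact ⟨fun h => h.2, fun h => ⟨Finset.mem_univ v, h⟩⟩
  have hAB : Disjoint A B := by
    rw [Finset.disjoint_left]
    intro v h1 h2
    exact (hmB v).1 h2 ((hmA v).1 h1)
  have hU : A ∪ B = univ := by
    ext v
    rw [Finset.mem_union, hmA, hmB]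
    simp only [Finset.mem_univ, iff_true]
    tauto
  have hE : (eds G).filter (fun e => ∀ z ∈ e, z ∈ A) ∪ (eds G).filter (fun e => ∀ z ∈ e, z ∈ B) =
      eds G := by
    ext e
    rw [Finset.mem_union, Finset.mem_filter, Finset.mem_filter]
    constructor
    · rintro (h | h)
      · exact h.1
      · exact h.1
    · intro he
      have he' : e ∈ G.edgeSet := by
        unfold eds at he
        rwa [Set.Finite.mem_toFinset] at he
      induction e using Sym2.ind with
      | _ u v =>
        rw [SimpleGraph.mem_edgeSet] at he'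
        by_cases hu : G.Reachable x u
        · left
          refine ⟨he, fun z hz => ?_⟩
          rw [Sym2.mem_iff] at hz
          rcases hz with rfl | rfl
          · exact (hmA _).2 hu
          · exact (hmA _).2 (hu.trans he'.reachable)
        · right
          refine ⟨he, fun z hz => ?_⟩
          rw [Sym2.mem_iff] at hz
          rcases hz with rfl | rfl
          · exact (hmB _).2 hu
          · exact (hmB _).2 fun h => hu (h.trans he'.symm.reachable)
  have hsp := fun m' : V → ℕ → R => C4_split hAB hU
    (fun e he => (Finset.mem_filter.1 he).2) (fun e he => (Finset.mem_filter.1 he).2) hE q w m'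
  have hxA : x ∈ A := (hmA x).2 (SimpleGraph.Reachable.refl x)
  have hxB : x ∉ B := fun h => (hmB x).1 h (SimpleGraph.Reachable.refl x)
  have hyB : y ∈ B := (hmB y).2 hxy
  have hyA : y ∉ A := fun h => hxy ((hmA y).1 h)
  have hupd : ∀ (C : Finset V) (m' : V → ℕ → R) (z : V) (c : ℕ → R), z ∉ C →
      C4_r C (Function.update m' z c) = C4_r C m' := by
    intro C m' z c hz
    funext v
    unfold C4_r
    by_cases hv : v ∈ C
    · rw [if_pos hv, if_pos hv, Function.update_of_ne (by
        rintro rfl
        exact hz hv)]
    · rw [if_neg hv, if_neg hv]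
  have hcomm : Function.update (Function.update m x a) y b =
      Function.update (Function.update m y b) x a := by
    rw [Function.update_comm]
    rintro rfl
    exact hxy (SimpleGraph.Reachable.refl _)
  unfold MM
  rw [hsp, hsp m, hsp (Function.update m x a), hsp (Function.update m y b),
    hupd A (Function.update m x a) y b hyA, hcomm, hupd B (Function.update m y b) x a hxB,
    hupd B m x a hxB, hupd A m y b hyA]
  ring

end Pool.Agent.GSP
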