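import Pool.Agent.GSP.Defs

set_option autoImplicit false
set_option linter.unusedSectionVars false

open Finset

namespace Pool.Agent.GSP

section aux

variable {V : Type} {G : SimpleGraph V}

private theorem E1_closer (hG : G.IsAcyclic) {a z u1 u2 : V} (h1 : G.Adj z u1) (h2 : G.Adj z u2)
    (hr : G.Reachable a z) (e1 : G.dist a u1 + 1 = G.dist a z)
    (e2 : G.dist a u2 + 1 = G.dist a z) : u1 = u2 := by
  obtain ⟨p1, hp1⟩ := (hr.trans h1.reachable).exists_walk_length_eq_dist
  obtain ⟨p2, hp2⟩ := (hr.trans h2.reachable).exists_walk_length_eq_dist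
  have q1 : (p1.concat h1.symm).IsPath := SimpleGraph.Walk.isPath_of_length_eq_dist _ (by
    rw [SimpleGraph.Walk.length_concat, hp1, e1])
  have q2 : (p2.concat h2.symm).IsPath := SimpleGraph.Walk.isPath_of_length_eq_dist _ (by
    rw [SimpleGraph.Walk.length_concat, hp2, e2])
  have h3 := (hG.subsingleton_path a z).elim ⟨_, q1⟩ ⟨_, q2⟩
  have h4 : p1.concat h1.symm = p2.concat h2.symm := congrArg Subtype.val h3
  have h5 := congrArg SimpleGraph.Walk.penultimate h4
  simpa using h5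

private theorem E1_far (hG : G.IsAcyclic) {a z u1 u2 : V} (h1 : G.Adj z u1) (h2 : G.Adj z u2)
    (hne : u1 ≠ u2) (hr : G.Reachable a z) (e1 : G.dist a u1 + 1 = G.dist a z) :
    G.dist a u2 = G.dist a z + 1 := by
  rcases hG.dist_eq_dist_add_one_of_adj_of_reachable a h2 hr with h | h
  · exact absurd (E1_closer hG h1 h2 hr e1 h.symm) hne
  · exact h

private theorem E1_ext (hG : G.IsAcyclic) {a z b : V} (Q : G.Walk z b) :
    ∀ {y : V} (h : G.Adj y z), (SimpleGraph.Walk.cons h Q).IsPath → G.Reachable a y →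
      G.dist a z = G.dist a y + 1 → G.dist a b = G.dist a z + Q.length := by
  induction Q with
  | nil =>
    intro y h _ _ _
    simp
  | @cons z z2 b h' Q ih =>
    intro y h hp hr e
    have hne : y ≠ z2 := by
      have h1 := ((SimpleGraph.Walk.cons_isPath_iff h _).1 hp).2
      rintro rfl
      exact h1 (by simp)
    have h2 := E1_far hG h.symm h' hne (hr.trans h.reachable) e.symm
    have h3 := ih h' hp.of_cons (hr.trans h.reachable) h2
    rw [h3, h2, SimpleGraph.Walk.length_cons]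
    omega

private theorem E1_add (hG : G.IsAcyclic) {a z b v : V} (hv : G.Adj z v) (ha : G.Reachable a z)
    (hb : G.Reachable z b) (h1 : G.dist a v = G.dist a z + 1)
    (h2 : G.dist v b + 1 = G.dist z b) : G.dist a b = G.dist a z + G.dist z b := by
  obtain ⟨Q, hQ⟩ := (hv.symm.reachable.trans hb).exists_walk_length_eq_dist
  have hp : (SimpleGraph.Walk.cons hv Q).IsPath :=
    SimpleGraph.Walk.isPath_of_length_eq_dist _ (by rw [SimpleGraph.Walk.length_cons, hQ, h2])
  rw [E1_ext hG Q hv hp ha h1, h1, hQ]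
  omega

private theorem E1_nb {z a : V} (hr : G.Reachable z a) (hne : z ≠ a) :
    ∃ u, G.Adj z u ∧ G.dist u a + 1 = G.dist z a := by
  obtain ⟨p, hp⟩ := hr.exists_walk_length_eq_dist
  cases p with
  | nil => exact absurd rfl hne
  | @cons _ u _ h p' =>
    refine ⟨u, h, ?_⟩
    rw [SimpleGraph.Walk.length_cons] at hp
    have h1 := SimpleGraph.dist_le p'
    have h2 := SimpleGraph.Reachable.dist_triangle_left h.reachable a
    have h3 := SimpleGraph.dist_eq_one_iff_adj.2 h
    omega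

/-- `z` is between `a` and `b` -/
private def E1_btw (G : SimpleGraph V) (a z b : V) : Prop :=
  G.Reachable a z ∧ G.Reachable z b ∧ G.dist a z + G.dist z b = G.dist a b

private theorem E1_gate (hG : G.IsAcyclic) {a z b w : V} (h : E1_btw G a z b)
    (hw : G.Reachable w z) :
    G.dist w a = G.dist w z + G.dist a z ∨ G.dist w b = G.dist w z + G.dist z b := by
  obtain ⟨h1, h2, h3⟩ := h
  by_cases hza : z = a
  · subst hza
    left
    simp
  by_cases hzb : z = b
  · subst hzb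
    right
    simp
  obtain ⟨u, hu, hu'⟩ := E1_nb h1.symm hza
  obtain ⟨v, hv, hv'⟩ := E1_nb h2 hzb
  have huv : u ≠ v := by
    rintro rfl
    have h4 := SimpleGraph.Reachable.dist_triangle_left (h1.trans hu.reachable) b
    rw [SimpleGraph.dist_comm (u := a) (v := u)] at h4
    rw [SimpleGraph.dist_comm (u := a) (v := z)] at h3
    omega
  rcases hG.dist_eq_dist_add_one_of_adj_of_reachable w hu hw with e1 | e1
  · right
    exact E1_add hG hv hw h2 (E1_far hG hu hv huv hw e1.symm) hv'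
  · left
    rw [E1_add hG hu hw h1.symm e1 hu', SimpleGraph.dist_comm (u := z) (v := a)]

private theorem E1_max (hG : G.IsAcyclic) {a z b w : V} (h : E1_btw G a z b)
    (hw : G.Reachable w z) :
    G.dist w z = max (G.dist w a - G.dist a z) (G.dist w b - G.dist z b) := by
  have h1 := SimpleGraph.Reachable.dist_triangle_left hw a
  have h2 := SimpleGraph.Reachable.dist_triangle_left hw b
  rw [SimpleGraph.dist_comm (u := z) (v := a)] at h1
  rcases E1_gate hG h hw with h3 | h3 <;> omega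

private theorem E1_leaf [Fintype V] (hG : G.IsAcyclic) {W : Set V}
    (hW : ∀ v, v ∉ W → 2 ≤ dg G v) {z u : V} (hu : G.Adj z u) :
    ∃ a ∈ W, G.Reachable z a ∧ G.dist z a = G.dist u a + 1 := by
  classical
  let S : Finset V := univ.filter fun a => G.Reachable z a ∧ G.dist z a = G.dist u a + 1
  have hS : S.Nonempty := ⟨u, by
    rw [Finset.mem_filter]
    refine ⟨Finset.mem_univ _, hu.reachable, ?_⟩
    rw [SimpleGraph.dist_eq_one_iff_adj.2 hu]
    simp⟩
  obtain ⟨a, haS, hmax⟩ := Finset.exists_max_image S (fun a => G.dist z a) hS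
  obtain ⟨_, har, had⟩ := Finset.mem_filter.1 haS
  refine ⟨a, ?_, har, had⟩
  by_contra haW
  have h1 := hW a haW
  unfold dg at h1
  obtain ⟨c1, c2, hc1, hc2, hne⟩ := (Set.one_lt_ncard_iff (Set.toFinite _)).1
    (show 1 < (G.neighborSet a).ncard by omega)
  rw [SimpleGraph.mem_neighborSet] at hc1 hc2
  have h2 : ∃ c, G.Adj a c ∧ G.dist z c = G.dist z a + 1 := by
    rcases hG.dist_eq_dist_add_one_of_adj_of_reachable z hc1 har with e1 | e1
    · exact ⟨c2, hc2, E1_far hG hc1 hc2 hne har e1.symm⟩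
    · exact ⟨c1, hc1, e1⟩
  obtain ⟨c, hc, hcd⟩ := h2
  have h3 := SimpleGraph.Reachable.dist_triangle_left hu.reachable c
  have h4 := SimpleGraph.Reachable.dist_triangle_left (hu.symm.reachable.trans har) c
  rw [SimpleGraph.dist_eq_one_iff_adj.2 hu] at h3
  rw [SimpleGraph.dist_eq_one_iff_adj.2 hc] at h4
  have h5 : c ∈ S := by
    rw [Finset.mem_filter]
    exact ⟨Finset.mem_univ _, har.trans hc.reachable, by omega⟩
  have := hmax c h5
  omega

private theorem E1_exists_btw [Fintype V] (hG : G.IsAcyclic) {W : Set V}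
    (hW : ∀ v, v ∉ W → 2 ≤ dg G v) (z : V) :
    ∃ a ∈ W, ∃ b ∈ W, E1_btw G a z b := by
  by_cases hz : z ∈ W
  · exact ⟨z, hz, z, hz, SimpleGraph.Reachable.refl _, SimpleGraph.Reachable.refl _, by simp⟩
  · have h1 := hW z hz
    unfold dg at h1
    obtain ⟨u, v, hu, hv, hne⟩ := (Set.one_lt_ncard_iff (Set.toFinite _)).1
      (show 1 < (G.neighborSet z).ncard by omega)
    rw [SimpleGraph.mem_neighborSet] at hu hv
    obtain ⟨a, haW, har, had⟩ := E1_leaf hG hW hu
    obtain ⟨b, hbW, hbr, hbd⟩ := E1_leaf hG hW hv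
    refine ⟨a, haW, b, hbW, har.symm, hbr, ?_⟩
    have h2 : G.dist a u + 1 = G.dist a z := by
      rw [SimpleGraph.dist_comm (u := a) (v := u), SimpleGraph.dist_comm (u := a) (v := z)]
      exact had.symm
    exact (E1_add hG hv har.symm hbr (E1_far hG hu hv hne har.symm h2) hbd.symm).symm

private theorem E1_point {a b : V} {s t : ℕ} (h : G.Reachable a b) (hst : G.dist a b = s + t) :
    ∃ z, E1_btw G a z b ∧ G.dist a z = s ∧ G.dist z b = t := by
  obtain ⟨p, hp⟩ := h.exists_walk_length_eq_dist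
  have h1 : G.dist a (p.getVert s) ≤ s := by
    refine (SimpleGraph.dist_le (p.take s)).trans ?_
    simp
  have h2 : G.dist (p.getVert s) b ≤ t := by
    refine (SimpleGraph.dist_le (p.drop s)).trans ?_
    simp [hp, hst]
  have h0 : G.Reachable a (p.getVert s) := (p.take s).reachable
  have h3 := SimpleGraph.Reachable.dist_triangle_left h0 b
  exact ⟨p.getVert s, ⟨h0, (p.drop s).reachable, by omega⟩, by omega, by omega⟩

private theorem E1_uniq (hG : G.IsAcyclic) {a z b z2 : V} (h : E1_btw G a z b)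
    (hr : G.Reachable z2 z) (h1 : G.dist z2 a = G.dist a z) (h2 : G.dist z2 b = G.dist z b) :
    z2 = z := by
  have h3 := E1_gate hG h hr
  have h4 : G.dist z2 z = 0 := by omega
  exact hr.dist_eq_zero_iff.1 h4

end aux

section main

variable {V V' : Type} [Fintype V] [Fintype V'] {G : SimpleGraph V} {G' : SimpleGraph V'}

/-- the same distances from `W` -/
private def E1_P (G : SimpleGraph V) (G' : SimpleGraph V') {W : Set V} {W' : Set V'} (τ : W ≃ W')
    (z : V) (z' : V') : Prop :=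
  ∀ w : W, (G.Reachable w z ↔ G'.Reachable (τ w) z') ∧
    (G.Reachable w z → G.dist (w : V) z = G'.dist (τ w : V') z')

private theorem E1_exists_P (hG : G.IsAcyclic) (hG' : G'.IsAcyclic) {W : Set V} {W' : Set V'}
    (hW : ∀ v, v ∉ W → 2 ≤ dg G v) (τ : W ≃ W')
    (h1 : ∀ a b : W, G.Reachable a b ↔ G'.Reachable (τ a) (τ b))
    (h2 : ∀ a b : W, G.Reachable a b → G.dist (a : V) b = G'.dist (τ a : V') (τ b)) (z : V) :
    ∃ z', E1_P G G' τ z z' ∧ ∃ a b : W, E1_btw G a z b ∧ E1_btw G' (τ a) z' (τ b) ∧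
      G.dist (a : V) z = G'.dist (τ a : V') z' ∧ G.dist z (b : V) = G'.dist z' (τ b : V') := by
  obtain ⟨a, ha, b, hb, hbt⟩ := E1_exists_btw hG hW z
  obtain ⟨r1, r2, r3⟩ := hbt
  have e1 : G'.dist (τ ⟨a, ha⟩ : V') (τ ⟨b, hb⟩) = G.dist a z + G.dist z b := by
    rw [← h2 ⟨a, ha⟩ ⟨b, hb⟩ (r1.trans r2)]
    exact r3.symm
  obtain ⟨z', hb', d1, d2⟩ := E1_point ((h1 ⟨a, ha⟩ ⟨b, hb⟩).1 (r1.trans r2)) e1
  refine ⟨z', ?_, ⟨a, ha⟩, ⟨b, hb⟩, ⟨r1, r2, r3⟩, hb', d1.symm, d2.symm⟩
  intro w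
  have hrr : G.Reachable w z ↔ G'.Reachable (τ w) z' := by
    constructor
    · intro h
      exact ((h1 w ⟨a, ha⟩).1 (h.trans r1.symm)).trans hb'.1
    · intro h
      exact ((h1 w ⟨a, ha⟩).2 (h.trans hb'.1.symm)).trans r1
  refine ⟨hrr, fun h => ?_⟩
  rw [E1_max hG ⟨r1, r2, r3⟩ h, E1_max hG' hb' (hrr.1 h), d1, d2,
    ← h2 w ⟨a, ha⟩ (h.trans r1.symm), ← h2 w ⟨b, hb⟩ (h.trans r2)]

private theorem E1_P_inj (hG : G.IsAcyclic) {W : Set V} {W' : Set V'}
    (hW : ∀ v, v ∉ W → 2 ≤ dg G v) (τ : W ≃ W') {z1 z2 : V} {z' : V'}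
    (h1 : E1_P G G' τ z1 z') (h2 : E1_P G G' τ z2 z') : z1 = z2 := by
  obtain ⟨a, ha, b, hb, hbt⟩ := E1_exists_btw hG hW z2
  have ra : G.Reachable a z2 := hbt.1
  have rb : G.Reachable b z2 := hbt.2.1.symm
  have ra1 : G.Reachable a z1 := (h1 ⟨a, ha⟩).1.2 ((h2 ⟨a, ha⟩).1.1 ra)
  have rb1 : G.Reachable b z1 := (h1 ⟨b, hb⟩).1.2 ((h2 ⟨b, hb⟩).1.1 rb)
  refine E1_uniq hG hbt (ra1.symm.trans ra) ?_ ?_
  · rw [SimpleGraph.dist_comm]
    exact ((h1 ⟨a, ha⟩).2 ra1).trans ((h2 ⟨a, ha⟩).2 ra).symm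
  · rw [SimpleGraph.dist_comm, SimpleGraph.dist_comm (u := z2)]
    exact ((h1 ⟨b, hb⟩).2 rb1).trans ((h2 ⟨b, hb⟩).2 rb).symm

private theorem E1_P_symm {W : Set V} {W' : Set V'} {τ : W ≃ W'} {z : V} {z' : V'}
    (h : E1_P G G' τ z z') : E1_P G' G τ.symm z' z := by
  intro w'
  have h1 := h (τ.symm w')
  rw [Equiv.apply_symm_apply] at h1
  exact ⟨h1.1.symm, fun h2 => (h1.2 (h1.1.2 h2)).symm⟩

end main

/-- A forest is determined by the distances between the nodes in `W`, if all other nodes have at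
least two neighbours. -/
theorem forest_iso {V V' : Type} [Fintype V] [Fintype V'] {G : SimpleGraph V}
    {G' : SimpleGraph V'} (hG : G.IsAcyclic) (hG' : G'.IsAcyclic) {W : Set V} {W' : Set V'}
    (hW : ∀ v, v ∉ W → 2 ≤ dg G v) (hW' : ∀ v, v ∉ W' → 2 ≤ dg G' v) (τ : W ≃ W')
    (h1 : ∀ a b : W, G.Reachable a b ↔ G'.Reachable (τ a) (τ b))
    (h2 : ∀ a b : W, G.Reachable a b → G.dist (a : V) b = G'.dist (τ a : V') (τ b)) :
    ∃ σ : V ≃ V', (∀ u v, G'.Adj (σ u) (σ v) ↔ G.Adj u v) ∧ ∀ a : W, σ a = (τ a : V') := by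
  have h1' : ∀ a b : W', G'.Reachable a b ↔ G.Reachable (τ.symm a) (τ.symm b) := by
    intro a b
    have := h1 (τ.symm a) (τ.symm b)
    rw [Equiv.apply_symm_apply, Equiv.apply_symm_apply] at this
    exact this.symm
  have h2' : ∀ a b : W', G'.Reachable a b → G'.dist (a : V') b =
      G.dist (τ.symm a : V) (τ.symm b) := by
    intro a b h
    have := h2 (τ.symm a) (τ.symm b) ((h1' a b).1 h)
    rw [Equiv.apply_symm_apply, Equiv.apply_symm_apply] at this
    exact this.symm
  have hinj' : ∀ {z : V} {z1' z2' : V'}, E1_P G G' τ z z1' → E1_P G G' τ z z2' → z1' = z2' :=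
    fun {_ _ _} ha hb => E1_P_inj hG' hW' τ.symm (E1_P_symm ha) (E1_P_symm hb)
  choose σ hσ ab using E1_exists_P hG hG' hW τ h1 h2
  have hbij : Function.Bijective σ := by
    constructor
    · intro z1 z2 h
      have h3 := hσ z2
      rw [← h] at h3
      exact E1_P_inj hG hW τ (hσ z1) h3
    · intro z'
      obtain ⟨z, hz, _⟩ := E1_exists_P hG' hG hW' τ.symm h1' h2' z'
      refine ⟨z, hinj' (hσ z) ?_⟩
      have := E1_P_symm hz
      rwa [Equiv.symm_symm] at this
  refine ⟨Equiv.ofBijective σ hbij, ?_, ?_⟩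
  · intro u v
    obtain ⟨a, b, ha, hb, d1, d2⟩ := ab u
    have hr : G.Reachable v u ↔ G'.Reachable (σ v) (σ u) := by
      constructor
      · intro h
        exact (((hσ v a).1.1 (ha.1.trans h.symm)).symm).trans hb.1
      · intro h
        exact (((hσ v a).1.2 (hb.1.trans h.symm)).symm).trans ha.1
    have hd : G.Reachable v u → G.dist v u = G'.dist (σ v) (σ u) := by
      intro h
      have e1 := (hσ v a).2 (ha.1.trans h.symm)
      have e2 := (hσ v b).2 (ha.2.1.symm.trans h.symm)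
      rw [SimpleGraph.dist_comm, SimpleGraph.dist_comm (u := (τ a : V'))] at e1
      rw [SimpleGraph.dist_comm, SimpleGraph.dist_comm (u := (τ b : V'))] at e2
      rw [E1_max hG ha h, E1_max hG' hb (hr.1 h), e1, e2, d1, d2]
    show G'.Adj (σ u) (σ v) ↔ G.Adj u v
    rw [SimpleGraph.adj_comm, SimpleGraph.adj_comm G u v]
    constructor
    · intro h
      have h3 := hr.2 h.reachable
      rw [← SimpleGraph.dist_eq_one_iff_adj, hd h3]
      exact SimpleGraph.dist_eq_one_iff_adj.2 h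
    · intro h
      rw [← SimpleGraph.dist_eq_one_iff_adj, ← hd h.reachable]
      exact SimpleGraph.dist_eq_one_iff_adj.2 h
  · intro a
    show σ a = τ a
    refine hinj' (hσ a) ?_
    intro w
    exact ⟨h1 w a, h2 w a⟩

end Pool.Agent.GSP
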