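import Pool.Agent.GSP.Defs
import Pool.Agent.GSP.A3

set_option autoImplicit false

open Finset MeasureTheory

namespace Pool.Agent.GSP

/-- the units at the set `S` -/
def UU (S : Finset ℕ) (s : ℤ) : Prop := Odd s ∧ ∀ p ∈ S, IsCoprime s (p : ℤ)

/-! ### the polynomials `cotP` -/

private theorem A6_cotP2 : cotP 2 = 1 + Polynomial.X ^ 2 := by
  simp [cotP]

private theorem A6_cotP3 : cotP 3 = (1 + Polynomial.X ^ 2) * Polynomial.X := by
  have h : cotP 3 = Polynomial.C (1 / ((1 : ℕ) + 1 : ℚ)) * (1 + Polynomial.X ^ 2) *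
      Polynomial.derivative (cotP 2) := rfl
  rw [h, A6_cotP2]
  simp only [Polynomial.derivative_add, Polynomial.derivative_one, Polynomial.derivative_X_pow,
    zero_add]
  have e : (1 / ((1 : ℕ) + 1 : ℚ)) * 2 = 1 := by norm_num
  calc Polynomial.C (1 / ((1 : ℕ) + 1 : ℚ)) * (1 + Polynomial.X ^ 2) *
      (Polynomial.C ((2 : ℕ) : ℚ) * Polynomial.X ^ (2 - 1)) =
      Polynomial.C ((1 / ((1 : ℕ) + 1 : ℚ)) * 2) * ((1 + Polynomial.X ^ 2) * Polynomial.X) := by
        rw [Polynomial.C_mul]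
        push_cast
        ring
    _ = _ := by rw [e, Polynomial.C_1, one_mul]

private theorem A6_der3 : Polynomial.derivative (cotP 3) = 1 + 3 * Polynomial.X ^ 2 := by
  rw [A6_cotP3]
  have : ((1 : Polynomial ℚ) + Polynomial.X ^ 2) * Polynomial.X =
      Polynomial.X + Polynomial.X ^ 3 := by ring
  rw [this]
  simp only [Polynomial.derivative_add, Polynomial.derivative_X, Polynomial.derivative_X_pow]
  norm_num
  rfl

private theorem A6_ev2 (c : ℝ) : Polynomial.eval c ((cotP 2).map (algebraMap ℚ ℝ)) = 1 + c ^ 2 := by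
  rw [A6_cotP2]
  simp

private theorem A6_ev3 (c : ℝ) :
    Polynomial.eval c ((cotP 3).map (algebraMap ℚ ℝ)) = (1 + c ^ 2) * c := by
  rw [A6_cotP3]
  simp

private theorem A6_cotP4 : cotP 4 = Polynomial.C (1 / 3 : ℚ) * (1 + Polynomial.X ^ 2) *
      (1 + 3 * Polynomial.X ^ 2) := by
  have h : cotP 4 = Polynomial.C (1 / ((2 : ℕ) + 1 : ℚ)) * (1 + Polynomial.X ^ 2) *
      Polynomial.derivative (cotP 3) := rfl
  rw [h, A6_der3]
  norm_num

private theorem A6_ev4 (c : ℝ) :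
    Polynomial.eval c ((cotP 4).map (algebraMap ℚ ℝ)) = (1 + c ^ 2) * (1 + 3 * c ^ 2) / 3 := by
  rw [A6_cotP4]
  simp
  ring

private theorem A6_cotP5 : cotP 5 = Polynomial.C (1 / 4 : ℚ) * (1 + Polynomial.X ^ 2) *
      (Polynomial.C (1 / 3 : ℚ) * (8 * Polynomial.X + 12 * Polynomial.X ^ 3)) := by
  have h : cotP 5 = Polynomial.C (1 / ((3 : ℕ) + 1 : ℚ)) * (1 + Polynomial.X ^ 2) *
      Polynomial.derivative (cotP 4) := rfl
  have h4 : cotP 4 = Polynomial.C (1 / 3 : ℚ) * (1 + 4 * Polynomial.X ^ 2 +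
      3 * Polynomial.X ^ 4) := by
    rw [A6_cotP4]
    ring
  have h5 : Polynomial.derivative (cotP 4) =
      Polynomial.C (1 / 3 : ℚ) * (8 * Polynomial.X + 12 * Polynomial.X ^ 3) := by
    rw [h4, Polynomial.derivative_C_mul]
    congr 1
    have e4 : (4 : Polynomial ℚ) = Polynomial.C 4 := rfl
    have e3 : (3 : Polynomial ℚ) = Polynomial.C 3 := rfl
    rw [e4, e3]
    simp only [Polynomial.derivative_add, Polynomial.derivative_one, Polynomial.derivative_C_mul,
      Polynomial.derivative_X_pow]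
    norm_num
    have e2 : (Polynomial.C 2 : Polynomial ℚ) = 2 := rfl
    have e4' : (Polynomial.C 4 : Polynomial ℚ) = 4 := rfl
    have e3' : (Polynomial.C 3 : Polynomial ℚ) = 3 := rfl
    simp only [e2, e4', e3']
    ring
  rw [h, h5]
  norm_num

private theorem A6_ev5 (c : ℝ) :
    Polynomial.eval c ((cotP 5).map (algebraMap ℚ ℝ)) =
      (1 + c ^ 2) * (c * (2 + 3 * c ^ 2)) / 3 := by
  rw [A6_cotP5]
  simp
  ring

/-! ### the leading coefficient -/

private theorem A6_binP (k : ℕ) (r : ℚ) :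
    (Polynomial.taylor r (binP k)).coeff (k - 1) = 1 / ((k - 1).factorial : ℚ) := by
  set Q : Polynomial ℚ := ∏ i ∈ range (k - 1),
    (Polynomial.X + Polynomial.C ((k : ℚ) / 2 - (i + 1))) with hQ
  have hmon : Q.Monic := Polynomial.monic_prod_of_monic _ _ fun i _ => Polynomial.monic_X_add_C _
  have hdeg : Q.natDegree = k - 1 := by
    rw [hQ, Polynomial.natDegree_prod_of_monic _ _ fun i _ => Polynomial.monic_X_add_C _,
      sum_congr rfl fun i _ => Polynomial.natDegree_X_add_C _]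
    simp
  have hb : binP k = Polynomial.C (1 / ((k - 1).factorial : ℚ)) * Q := rfl
  have hne : (1 / ((k - 1).factorial : ℚ)) ≠ 0 := by positivity
  have hnd : (binP k).natDegree = k - 1 := by
    rw [hb, Polynomial.natDegree_C_mul hne, hdeg]
  have hlc : (binP k).leadingCoeff = 1 / ((k - 1).factorial : ℚ) := by
    rw [hb, Polynomial.leadingCoeff_mul, Polynomial.leadingCoeff_C, hmon.leadingCoeff, mul_one]
  have h1 : (Polynomial.taylor r (binP k)).natDegree = k - 1 := by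
    rw [Polynomial.natDegree_taylor, hnd]
  have h2 := Polynomial.leadingCoeff_taylor (f := binP k) (r := r)
  rw [Polynomial.leadingCoeff, h1, hlc] at h2
  exact h2

/-- the value at the cotangent -/
private noncomputable def A6v (S T : Finset ℕ) (k r : ℕ) (s : ℤ) : ℝ :=
  Polynomial.eval (ct (s * (al S T : ℝ) - k / 2)) ((cotP r).map (algebraMap ℚ ℝ))

private theorem A6_bb {S : Finset ℕ} (hS : S.Nonempty) (hc : S.card ≤ 2) {k : ℕ} (hk : 1 ≤ k)
    (j : ℕ) (s : ℤ) : bb S k j s = (∏ p ∈ S, (p : ℝ)) * ((ex S k j).factorial : ℝ) / 2 *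
      ∑ T ∈ S.powerset, (-1) ^ (S \ T).card * (1 / ((k - 1).factorial : ℝ) *
        ((-1) ^ (2 * j + 4 - S.card) * A6v S T k (2 * j + 4 - S.card) s)) := by
  have hex : ∀ i ∈ range k, i ≠ k - 1 → ¬ (2 * j + 4 - S.card = ex S k j + 1 - i) := by
    intro i hi hne h
    rw [mem_range] at hi
    unfold ex at h
    omega
  have hex1 : ex S k j + 1 - (k - 1) = 2 * j + 4 - S.card := by
    unfold ex
    omega
  unfold bb YY
  rw [if_neg hS.ne_empty, Polynomial.coeff_C_mul, Polynomial.finsetSum_coeff]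
  congr 1
  refine sum_congr rfl fun T _ => ?_
  have e1 : ((-1 : Polynomial ℝ) ^ (S \ T).card) = Polynomial.C ((-1) ^ (S \ T).card) := by
    rw [Polynomial.C_pow, Polynomial.C_neg, Polynomial.C_1]
  rw [e1, Polynomial.coeff_C_mul, Polynomial.finsetSum_coeff]
  congr 1
  rw [sum_eq_single (k - 1)]
  · rw [← Polynomial.C_mul, Polynomial.coeff_C_mul_X_pow, hex1, if_pos rfl, A6_binP k]
    unfold A6v
    push_cast
    ring
  · intro i hi hne
    rw [← Polynomial.C_mul, Polynomial.coeff_C_mul_X_pow, if_neg (hex i hi hne)]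
  · intro h
    exact absurd (mem_range.2 (by omega)) h

theorem YY_low (S : Finset ℕ) {k : ℕ} (hk : 1 ≤ k) (hS : S.card ≤ 2) (j : ℕ) (s : ℤ) :
    Polynomial.X ^ (2 * j + 4 - S.card) ∣ YY S k j s := by
  unfold YY
  by_cases h : S = ∅
  · rw [if_pos h]
    refine Dvd.dvd.mul_left (dvd_sum fun i hi => ?_) _
    rw [mem_range] at hi
    refine Dvd.dvd.mul_left (pow_dvd_pow _ ?_) _
    subst h
    rw [card_empty]
    omega
  · rw [if_neg h]
    refine Dvd.dvd.mul_left (dvd_sum fun T _ => Dvd.dvd.mul_left (dvd_sum fun i hi => ?_) _) _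
    rw [mem_range] at hi
    refine Dvd.dvd.mul_left (pow_dvd_pow _ ?_) _
    unfold ex
    omega

/-! ### the cotangent -/

private theorem A6_ct_int (x : ℝ) (n : ℤ) : ct (x + n) = ct x := by
  unfold ct
  have e : Real.pi * (x + n) = Real.pi * x + n * Real.pi := by ring
  rw [e, Real.cos_add_int_mul_pi, Real.sin_add_int_mul_pi]
  have h : ((-1 : ℝ) ^ n) ≠ 0 := zpow_ne_zero _ (by norm_num)
  rw [mul_div_mul_left _ _ h]

private theorem A6_ct_neg (x : ℝ) (k : ℕ) : ct (-x - k / 2) = -ct (x - k / 2) := by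
  have e1 : -x - (k : ℝ) / 2 = -(x - (k : ℝ) / 2) + ((-(k : ℤ) : ℤ) : ℝ) := by
    push_cast
    ring
  rw [e1, A6_ct_int]
  unfold ct
  rw [mul_neg, Real.cos_neg, Real.sin_neg, div_neg]

private theorem A6_csc (y : ℝ) (k : ℕ) (h : 1 - (-1) ^ k * Real.cos (2 * Real.pi * y) ≠ 0) :
    1 + ct (y - k / 2) ^ 2 = 2 / (1 - (-1) ^ k * Real.cos (2 * Real.pi * y)) := by
  have e1 : Real.cos (2 * (Real.pi * (y - k / 2))) = (-1) ^ k * Real.cos (2 * Real.pi * y) := by
    have : 2 * (Real.pi * (y - k / 2)) = 2 * Real.pi * y - k * Real.pi := by ring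
    rw [this, Real.cos_sub_nat_mul_pi]
  have e2 : 2 * Real.sin (Real.pi * (y - k / 2)) ^ 2 =
      1 - (-1) ^ k * Real.cos (2 * Real.pi * y) := by
    rw [← e1, Real.cos_two_mul, Real.cos_sq']
    ring
  have h2 : Real.sin (Real.pi * (y - k / 2)) ≠ 0 := by
    intro h0
    rw [← e2, h0] at h
    norm_num at h
  rw [← e2]
  unfold ct
  generalize Real.pi * (y - k / 2) = u at h2 ⊢
  have h3 := Real.sin_sq_add_cos_sq u
  have h4 : Real.cos u ^ 2 = 1 - Real.sin u ^ 2 := by linarith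
  rw [div_pow, h4]
  field_simp
  ring

/-! ### the sets -/

private theorem A6_cases {S : Finset ℕ} (hS : IsLeaf S) {p : ℕ} (hp : p ∈ S) :
    S = {p} ∨ ∃ q, q ≠ p ∧ S = {p, q} := by
  have h1 : (S.erase p).card ≤ 1 := by
    rw [card_erase_of_mem hp]
    have := hS.card_le
    omega
  rw [card_le_one_iff_subset_singleton] at h1
  obtain ⟨q, hq⟩ := h1
  rcases subset_singleton_iff.1 hq with h | h
  · left
    rw [← insert_erase hp, h]
    rfl
  · right
    refine ⟨q, ?_, ?_⟩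
    · have : q ∈ S.erase p := by rw [h]; exact mem_singleton_self q
      exact (mem_erase.1 this).1
    · rw [← insert_erase hp, h]

private theorem A6_sin {p : ℕ} (hp : 2 ≤ p) {s : ℤ} (hs : IsCoprime s (p : ℤ)) :
    Real.sin (Real.pi * s / p) ≠ 0 := by
  intro h
  rw [Real.sin_eq_zero_iff] at h
  obtain ⟨n, hn⟩ := h
  have hp0 : (p : ℝ) ≠ 0 := by positivity
  have h1 : (n : ℝ) * p = s := by
    have hpi := Real.pi_ne_zero
    field_simp at hn
    exact hn
  have h2 : n * (p : ℤ) = s := by exact_mod_cast h1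
  have h3 : (p : ℤ) ∣ s := ⟨n, by rw [← h2]; ring⟩
  have h4 : IsUnit (p : ℤ) := by
    have := hs.symm
    exact this.isUnit_of_dvd' dvd_rfl h3
  rw [Int.isUnit_iff] at h4
  omega

/-- `cos (π s / p) = ± cos (π s / q)` is impossible -/
private theorem A6_two {p q : ℕ} (hp : 2 ≤ p) (hq : 2 ≤ q) (hpq : Nat.Coprime p q) {s : ℤ}
    (hs : IsCoprime s (p : ℤ)) (n : ℤ) (e : ℤ)
    (h : Real.pi * s / p = n * Real.pi + e * (Real.pi * s / q)) : False := by
  have hp0 : (p : ℝ) ≠ 0 := by positivity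
  have hq0 : (q : ℝ) ≠ 0 := by positivity
  have hpi := Real.pi_ne_zero
  have h1 : (s : ℝ) * q = p * (n * q + e * s) := by
    field_simp at h
    linarith
  have h2 : s * (q : ℤ) = p * (n * q + e * s) := by exact_mod_cast h1
  have h3 : (p : ℤ) ∣ s * q := ⟨_, h2⟩
  have h4 : (p : ℤ) ∣ q := hs.symm.dvd_of_dvd_mul_left h3
  have h5 : p ∣ q := by exact_mod_cast h4
  have h6 := Nat.Coprime.eq_one_of_dvd hpq h5
  omega

theorem xi_add_eta_ne {S : Finset ℕ} (hS : IsLeaf S) {p : ℕ} (hp : p ∈ S) (k : ℕ) {s : ℤ}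
    (hs : UU S s) : xi S p k s + eta p s ≠ 0 := by
  intro h0
  rcases A6_cases hS hp with h | ⟨q, hq, h⟩
  · subst h
    have h1 : xi {p} p k s = (-1) ^ (k + 1) := by
      unfold xi
      rw [erase_singleton, prod_empty, mul_one]
    have h2 : eta p s ^ 2 = 1 := by
      have : eta p s = -(-1) ^ (k + 1) := by rw [h1] at h0; linarith
      rw [this, neg_sq, ← pow_mul, mul_comm, pow_mul]
      norm_num
    refine A6_sin (hS.two_le p hp) (hs.2 p hp) ?_
    have h3 := Real.sin_sq_add_cos_sq (Real.pi * s / p)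
    have h4 : Real.sin (Real.pi * s / p) ^ 2 = 0 := by
      unfold eta at h2
      linarith
    exact pow_eq_zero_iff (two_ne_zero) |>.1 h4
  · have hqS : q ∈ S := by rw [h]; simp
    have h1 : xi S p k s = (-1) ^ (k + 1) * Real.cos (Real.pi * s / q) := by
      unfold xi
      have : S.erase p = {q} := by
        rw [h]
        ext x
        simp only [mem_erase, mem_insert, mem_singleton]
        constructor
        · rintro ⟨h2, h3 | h3⟩
          · exact absurd h3 h2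
          · exact h3
        · intro h2
          exact ⟨h2 ▸ hq, Or.inr h2⟩
      rw [this, prod_singleton]
    have hcop := hS.coprime p hp q hqS hq.symm
    have h2 : Real.cos (Real.pi * s / p) = Real.cos (Real.pi * s / q) ∨
        Real.cos (Real.pi * s / p) = -Real.cos (Real.pi * s / q) := by
      rw [h1] at h0
      unfold eta at h0
      rcases neg_one_pow_eq_or ℝ (k + 1) with h3 | h3
      · right
        rw [h3] at h0
        linarith
      · left
        rw [h3] at h0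
        linarith
    rcases h2 with h2 | h2
    · rw [Real.cos_eq_cos_iff] at h2
      obtain ⟨n, h3 | h3⟩ := h2
      · refine A6_two (hS.two_le p hp) (hS.two_le q hqS) hcop (hs.2 p hp) (-(2 * n)) 1 ?_
        push_cast
        linarith
      · refine A6_two (hS.two_le p hp) (hS.two_le q hqS) hcop (hs.2 p hp) (2 * n) (-1) ?_
        push_cast
        linarith
    · rw [← Real.cos_pi_sub, Real.cos_eq_cos_iff] at h2
      obtain ⟨n, h3 | h3⟩ := h2
      · refine A6_two (hS.two_le p hp) (hS.two_le q hqS) hcop (hs.2 p hp) (1 - 2 * n) (-1) ?_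
        push_cast
        linarith
      · refine A6_two (hS.two_le p hp) (hS.two_le q hqS) hcop (hs.2 p hp) (2 * n - 1) 1 ?_
        push_cast
        linarith

theorem HH_pos {S : Finset ℕ} (hS : IsLeaf S) {p : ℕ} (hp : p ∈ S) (k : ℕ) {s : ℤ}
    (hs : UU S s) : 0 < HH S p k s := by
  unfold HH
  have h1 := xi_add_eta_ne hS hp k hs
  have h2 := A6_sin (hS.two_le p hp) (hs.2 p hp)
  refine div_pos (mul_pos (by positivity) (prod_pos fun q hq => ?_)) (by positivity)
  have hq' := (mem_erase.1 hq).2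
  have h3 := A6_sin (hS.two_le q hq') (hs.2 q hq')
  positivity

/-! ### the sums -/

private theorem A6_sum1 (f : Finset ℕ → ℝ) (p : ℕ) :
    ∑ T ∈ ({p} : Finset ℕ).powerset, f T = f ∅ + f {p} := by
  have h : ({p} : Finset ℕ).powerset = {∅, {p}} := by
    ext T
    rw [mem_powerset, subset_singleton_iff, mem_insert, mem_singleton]
  rw [h, sum_pair (singleton_ne_empty p).symm]

private theorem A6_sum2 (f : Finset ℕ → ℝ) {p q : ℕ} (h : q ≠ p) :
    ∑ T ∈ ({p, q} : Finset ℕ).powerset, f T = (f ∅ + f {q}) + (f {p} + f {p, q}) := by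
  rw [sum_powerset_insert (by rw [mem_singleton]; exact h.symm), A6_sum1, A6_sum1]
  rfl

private theorem A6_sd0 {p q : ℕ} : ({p, q} : Finset ℕ) \ ∅ = {p, q} := sdiff_empty

private theorem A6_sd1 {p q : ℕ} (h : q ≠ p) : ({p, q} : Finset ℕ) \ {q} = {p} := by
  ext x
  simp only [mem_sdiff, mem_insert, mem_singleton]
  constructor
  · rintro ⟨h1 | h1, h2⟩
    · exact h1
    · exact absurd h1 h2
  · intro h1
    exact ⟨Or.inl h1, fun h2 => h (h2.symm.trans h1)⟩

private theorem A6_sd2 {p q : ℕ} (h : q ≠ p) : ({p, q} : Finset ℕ) \ {p} = {q} := by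
  rw [pair_comm]
  exact A6_sd1 h.symm

private theorem A6_er {p q : ℕ} (h : q ≠ p) : ({p, q} : Finset ℕ).erase p = {q} := by
  rw [erase_eq, A6_sd2 h]

private theorem A6_fac1 (m : ℕ) (u v : ℝ) (p : ℝ) :
    p * (((m + 2).factorial : ℕ) : ℝ) / 2 * ((-1) ^ 1 * (1 / (m.factorial : ℝ) * ((-1) ^ 3 * u)) +
      (-1) ^ 0 * (1 / (m.factorial : ℝ) * ((-1) ^ 3 * v))) =
      p * (m + 1) * (m + 2) * (u - v) / 2 := by
  have h : (m.factorial : ℝ) ≠ 0 := by positivity
  rw [Nat.factorial_succ, Nat.factorial_succ]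
  push_cast
  field_simp
  ring

private theorem A6_fac2 (m : ℕ) (u v : ℝ) (p : ℝ) :
    p * (((m + 4).factorial : ℕ) : ℝ) / 2 * ((-1) ^ 1 * (1 / (m.factorial : ℝ) * ((-1) ^ 5 * u)) +
      (-1) ^ 0 * (1 / (m.factorial : ℝ) * ((-1) ^ 5 * v))) =
      p * (m + 1) * (m + 2) * (m + 3) * (m + 4) * (u - v) / 2 := by
  have h : (m.factorial : ℝ) ≠ 0 := by positivity
  rw [Nat.factorial_succ, Nat.factorial_succ, Nat.factorial_succ, Nat.factorial_succ]
  push_cast
  field_simp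
  ring

private theorem A6_alA (p : ℕ) : ((al {p} ∅ : ℚ) : ℝ) = -(1 / p / 2) := by
  unfold al
  rw [sdiff_empty, sum_empty, sum_singleton]
  push_cast
  ring

private theorem A6_alB (p : ℕ) : ((al {p} {p} : ℚ) : ℝ) = 1 / p / 2 := by
  unfold al
  rw [sdiff_self]
  simp

private theorem A6_al0 {p q : ℕ} (h : q ≠ p) :
    ((al {p, q} ∅ : ℚ) : ℝ) = -((1 / p + 1 / q) / 2) := by
  unfold al
  rw [A6_sd0, sum_empty, sum_pair h.symm]
  push_cast
  ring

private theorem A6_al1 {p q : ℕ} (h : q ≠ p) :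
    ((al {p, q} {q} : ℚ) : ℝ) = -((1 / p - 1 / q) / 2) := by
  unfold al
  rw [A6_sd1 h, sum_singleton, sum_singleton]
  push_cast
  ring

private theorem A6_al2 {p q : ℕ} (h : q ≠ p) :
    ((al {p, q} {p} : ℚ) : ℝ) = (1 / p - 1 / q) / 2 := by
  unfold al
  rw [A6_sd2 h, sum_singleton, sum_singleton]
  push_cast
  ring

private theorem A6_al3 {p q : ℕ} (h : q ≠ p) :
    ((al {p, q} {p, q} : ℚ) : ℝ) = (1 / p + 1 / q) / 2 := by
  unfold al
  rw [sdiff_self, bot_eq_empty, sum_empty, sum_pair h.symm]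
  push_cast
  ring

private theorem A6_bb1 (p : ℕ) {k : ℕ} (hk : 1 ≤ k) (s : ℤ) :
    bb {p} k 0 s = -(p * k * (k + 1) * ((1 + ct (s * (1 / p / 2) - k / 2) ^ 2) *
      ct (s * (1 / p / 2) - k / 2))) ∧
    bb {p} k 1 s = -(p * k * (k + 1) * (k + 2) * (k + 3) *
      ((1 + ct (s * (1 / p / 2) - k / 2) ^ 2) * (ct (s * (1 / p / 2) - k / 2) *
        (2 + 3 * ct (s * (1 / p / 2) - k / 2) ^ 2)) / 3)) := by
  obtain ⟨m, rfl⟩ : ∃ m, k = m + 1 := ⟨k - 1, by omega⟩
  have e1 : ct (s * ((al {p} ∅ : ℚ) : ℝ) - ((m + 1 : ℕ) : ℝ) / 2) =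
      -ct (s * (1 / p / 2) - ((m + 1 : ℕ) : ℝ) / 2) := by
    rw [A6_alA, mul_neg, A6_ct_neg]
  constructor
  · rw [A6_bb (singleton_nonempty p) (by simp) (by omega) 0 s, A6_sum1, prod_singleton]
    have e2 : 2 * 0 + 4 - ({p} : Finset ℕ).card = 3 := by rw [card_singleton]
    have e3 : ex {p} (m + 1) 0 = m + 2 := by
      unfold ex
      rw [card_singleton]
      omega
    have e4 : m + 1 - 1 = m := by omega
    rw [e2, e3, e4, sdiff_empty, sdiff_self, bot_eq_empty, card_singleton, card_empty, A6_fac1]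
    unfold A6v
    rw [e1, A6_alB, A6_ev3, A6_ev3]
    push_cast
    ring
  · rw [A6_bb (singleton_nonempty p) (by simp) (by omega) 1 s, A6_sum1, prod_singleton]
    have e2 : 2 * 1 + 4 - ({p} : Finset ℕ).card = 5 := by rw [card_singleton]
    have e3 : ex {p} (m + 1) 1 = m + 4 := by
      unfold ex
      rw [card_singleton]
      omega
    have e4 : m + 1 - 1 = m := by omega
    rw [e2, e3, e4, sdiff_empty, sdiff_self, bot_eq_empty, card_singleton, card_empty, A6_fac2]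
    unfold A6v
    rw [e1, A6_alB, A6_ev5, A6_ev5]
    push_cast
    ring

private theorem A6_fac3 (m : ℕ) (u v x y : ℝ) (p : ℝ) :
    p * (((m + 1).factorial : ℕ) : ℝ) / 2 * (((-1) ^ 2 * (1 / (m.factorial : ℝ) * ((-1) ^ 2 * u)) +
      (-1) ^ 1 * (1 / (m.factorial : ℝ) * ((-1) ^ 2 * v))) +
      ((-1) ^ 1 * (1 / (m.factorial : ℝ) * ((-1) ^ 2 * x)) +
      (-1) ^ 0 * (1 / (m.factorial : ℝ) * ((-1) ^ 2 * y)))) =
      p * (m + 1) * (u - v - x + y) / 2 := by
  have h : (m.factorial : ℝ) ≠ 0 := by positivity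
  rw [Nat.factorial_succ]
  push_cast
  field_simp
  ring

private theorem A6_fac4 (m : ℕ) (u v x y : ℝ) (p : ℝ) :
    p * (((m + 3).factorial : ℕ) : ℝ) / 2 * (((-1) ^ 2 * (1 / (m.factorial : ℝ) * ((-1) ^ 4 * u)) +
      (-1) ^ 1 * (1 / (m.factorial : ℝ) * ((-1) ^ 4 * v))) +
      ((-1) ^ 1 * (1 / (m.factorial : ℝ) * ((-1) ^ 4 * x)) +
      (-1) ^ 0 * (1 / (m.factorial : ℝ) * ((-1) ^ 4 * y)))) =
      p * (m + 1) * (m + 2) * (m + 3) * (u - v - x + y) / 2 := by
  have h : (m.factorial : ℝ) ≠ 0 := by positivity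
  rw [Nat.factorial_succ, Nat.factorial_succ, Nat.factorial_succ]
  push_cast
  field_simp
  ring

private theorem A6_bb2 {p q : ℕ} (h : q ≠ p) {k : ℕ} (hk : 1 ≤ k) (s : ℤ) :
    bb {p, q} k 0 s = p * q * k * ((1 + ct (s * ((1 / p + 1 / q) / 2) - k / 2) ^ 2) -
      (1 + ct (s * ((1 / p - 1 / q) / 2) - k / 2) ^ 2)) ∧
    bb {p, q} k 1 s = p * q * k * (k + 1) * (k + 2) *
      ((1 + ct (s * ((1 / p + 1 / q) / 2) - k / 2) ^ 2) *
        (1 + 3 * ct (s * ((1 / p + 1 / q) / 2) - k / 2) ^ 2) / 3 -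
      (1 + ct (s * ((1 / p - 1 / q) / 2) - k / 2) ^ 2) *
        (1 + 3 * ct (s * ((1 / p - 1 / q) / 2) - k / 2) ^ 2) / 3) := by
  obtain ⟨m, rfl⟩ : ∃ m, k = m + 1 := ⟨k - 1, by omega⟩
  have e0 : ct (s * ((al {p, q} ∅ : ℚ) : ℝ) - ((m + 1 : ℕ) : ℝ) / 2) =
      -ct (s * ((1 / p + 1 / q) / 2) - ((m + 1 : ℕ) : ℝ) / 2) := by
    rw [A6_al0 h, mul_neg, A6_ct_neg]
  have e1 : ct (s * ((al {p, q} {q} : ℚ) : ℝ) - ((m + 1 : ℕ) : ℝ) / 2) =
      -ct (s * ((1 / p - 1 / q) / 2) - ((m + 1 : ℕ) : ℝ) / 2) := by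
    rw [A6_al1 h, mul_neg, A6_ct_neg]
  have hcard : ({p, q} : Finset ℕ).card = 2 := card_pair h.symm
  have hne : ({p, q} : Finset ℕ).Nonempty := ⟨p, by simp⟩
  constructor
  · rw [A6_bb hne hcard.le (by omega) 0 s, A6_sum2 _ h, prod_pair h.symm]
    have e2 : 2 * 0 + 4 - ({p, q} : Finset ℕ).card = 2 := by rw [hcard]
    have e3 : ex {p, q} (m + 1) 0 = m + 1 := by
      unfold ex
      rw [hcard]
      omega
    have e4 : m + 1 - 1 = m := by omega
    rw [e2, e3, e4, A6_sd0, A6_sd1 h, A6_sd2 h, sdiff_self, bot_eq_empty, card_singleton,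
      card_singleton, card_empty, hcard, A6_fac3]
    unfold A6v
    rw [e0, e1, A6_al2 h, A6_al3 h, A6_ev2, A6_ev2, A6_ev2, A6_ev2]
    push_cast
    ring
  · rw [A6_bb hne hcard.le (by omega) 1 s, A6_sum2 _ h, prod_pair h.symm]
    have e2 : 2 * 1 + 4 - ({p, q} : Finset ℕ).card = 4 := by rw [hcard]
    have e3 : ex {p, q} (m + 1) 1 = m + 3 := by
      unfold ex
      rw [hcard]
      omega
    have e4 : m + 1 - 1 = m := by omega
    rw [e2, e3, e4, A6_sd0, A6_sd1 h, A6_sd2 h, sdiff_self, bot_eq_empty, card_singleton,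
      card_singleton, card_empty, hcard, A6_fac4]
    unfold A6v
    rw [e0, e1, A6_al2 h, A6_al3 h, A6_ev4, A6_ev4, A6_ev4, A6_ev4]
    push_cast
    ring

private theorem A6_eps (k : ℕ) : ((-1 : ℝ) ^ k) ^ 2 = 1 := by
  rw [← pow_mul, mul_comm, pow_mul]
  norm_num

private theorem A6_xi1 (p k : ℕ) (s : ℤ) : xi {p} p k s = -(-1) ^ k := by
  unfold xi
  rw [erase_singleton, prod_empty, pow_succ]
  ring

private theorem A6_xi2 {p q : ℕ} (h : q ≠ p) (k : ℕ) (s : ℤ) :
    xi {p, q} p k s = -((-1) ^ k * Real.cos (Real.pi * s / q)) := by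
  unfold xi
  rw [A6_er h, prod_singleton, pow_succ]
  ring

/-- one leaf -/
private theorem A6_leaf1 {p : ℕ} (k : ℕ) {s : ℤ} (h : xi {p} p k s + eta p s ≠ 0) :
    1 - (-1) ^ k * eta p s ≠ 0 ∧
    1 + ct (s * (1 / p / 2) - k / 2) ^ 2 = 2 / (1 - (-1) ^ k * eta p s) ∧
    (xi {p} p k s + eta p s) ^ 2 = (1 - (-1) ^ k * eta p s) ^ 2 := by
  have e := A6_eps k
  have h1 : (xi {p} p k s + eta p s) ^ 2 = (1 - (-1) ^ k * eta p s) ^ 2 := by
    rw [A6_xi1]
    linear_combination (1 - eta p s ^ 2) * e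
  have h2 : 1 - (-1) ^ k * eta p s ≠ 0 := by
    intro h0
    rw [h0] at h1
    norm_num at h1
    exact h h1
  have e2 : Real.cos (2 * Real.pi * (s * (1 / p / 2))) = eta p s := by
    unfold eta
    congr 1
    ring
  refine ⟨h2, ?_, h1⟩
  have h3 := A6_csc (s * (1 / p / 2)) k (by rw [e2]; exact h2)
  rw [e2] at h3
  exact h3

/-- two leaves -/
private theorem A6_leaf2 {p q : ℕ} (hq : q ≠ p) (k : ℕ) {s : ℤ}
    (h : xi {p, q} p k s + eta p s ≠ 0) :
    ∃ D₁ D₂ : ℝ, D₁ ≠ 0 ∧ D₂ ≠ 0 ∧ D₁ * D₂ = (xi {p, q} p k s + eta p s) ^ 2 ∧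
      (D₂ - D₁) ^ 2 = 4 * (Real.sin (Real.pi * s / p) ^ 2 * Real.sin (Real.pi * s / q) ^ 2) ∧
      D₁ + D₂ = 2 * (1 + xi {p, q} p k s * eta p s) ∧
      1 + ct (s * ((1 / p + 1 / q) / 2) - k / 2) ^ 2 = 2 / D₁ ∧
      1 + ct (s * ((1 / p - 1 / q) / 2) - k / 2) ^ 2 = 2 / D₂ := by
  have e := A6_eps k
  have hx := A6_xi2 hq k s
  set θ : ℝ := Real.pi * s / p with hθ
  set φ : ℝ := Real.pi * s / q with hφ
  have he : eta p s = Real.cos θ := rfl
  have s1 := Real.sin_sq_add_cos_sq θ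
  have s2 := Real.sin_sq_add_cos_sq φ
  have hD : (1 - (-1) ^ k * Real.cos (θ + φ)) * (1 - (-1) ^ k * Real.cos (θ - φ)) =
      (xi {p, q} p k s + eta p s) ^ 2 := by
    rw [hx, he, Real.cos_add, Real.cos_sub]
    have : (Real.cos θ * Real.cos φ - Real.sin θ * Real.sin φ) *
        (Real.cos θ * Real.cos φ + Real.sin θ * Real.sin φ) =
        Real.cos θ ^ 2 + Real.cos φ ^ 2 - 1 := by
      have a1 : Real.sin θ ^ 2 = 1 - Real.cos θ ^ 2 := by linarith
      have a2 : Real.sin φ ^ 2 = 1 - Real.cos φ ^ 2 := by linarith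
      calc (Real.cos θ * Real.cos φ - Real.sin θ * Real.sin φ) *
          (Real.cos θ * Real.cos φ + Real.sin θ * Real.sin φ) =
          Real.cos θ ^ 2 * Real.cos φ ^ 2 - Real.sin θ ^ 2 * Real.sin φ ^ 2 := by ring
        _ = _ := by rw [a1, a2]; ring
    linear_combination ((-1) ^ k) ^ 2 * this + (Real.cos θ ^ 2 - 1) * e
  have hD0 : (1 - (-1) ^ k * Real.cos (θ + φ)) * (1 - (-1) ^ k * Real.cos (θ - φ)) ≠ 0 := by
    rw [hD]
    exact pow_ne_zero 2 h
  have hD1 := left_ne_zero_of_mul hD0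
  have hD2 := right_ne_zero_of_mul hD0
  refine ⟨_, _, hD1, hD2, hD, ?_, ?_, ?_, ?_⟩
  · rw [Real.cos_add, Real.cos_sub]
    linear_combination 4 * Real.sin θ ^ 2 * Real.sin φ ^ 2 * e
  · rw [hx, he, Real.cos_add, Real.cos_sub]
    ring
  · have e2 : 2 * Real.pi * (s * ((1 / p + 1 / q) / 2)) = θ + φ := by
      rw [hθ, hφ]
      ring
    have h3 := A6_csc (s * ((1 / p + 1 / q) / 2)) k (by rw [e2]; exact hD1)
    rw [e2] at h3
    exact h3
  · have e2 : 2 * Real.pi * (s * ((1 / p - 1 / q) / 2)) = θ - φ := by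
      rw [hθ, hφ]
      ring
    have h3 := A6_csc (s * ((1 / p - 1 / q) / 2)) k (by rw [e2]; exact hD2)
    rw [e2] at h3
    exact h3

theorem bb_zero_sq {S : Finset ℕ} (hS : IsLeaf S) {p : ℕ} (hp : p ∈ S) {k : ℕ} (hk : 1 ≤ k) :
    ∃ c : ℝ, 0 < c ∧ ∀ s : ℤ, UU S s → bb S k 0 s ^ 2 = c * HH S p k s := by
  have hp2 := hS.two_le p hp
  have hp0 : (0 : ℝ) < p := by positivity
  have hk0 : (0 : ℝ) < k := by
    have : (1 : ℝ) ≤ k := by exact_mod_cast hk
    linarith
  rcases A6_cases hS hp with h | ⟨q, hq, h⟩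
  · subst h
    refine ⟨4 * (p * k * (k + 1)) ^ 2, by positivity, fun s hs => ?_⟩
    have hne := xi_add_eta_ne hS hp k hs
    obtain ⟨h1, h2, h3⟩ := A6_leaf1 k hne
    rw [(A6_bb1 p hk s).1]
    unfold HH
    have e := A6_eps k
    have h4 : (xi {p} p k s + eta p s) ^ 4 = (1 - (-1) ^ k * eta p s) ^ 4 := by
      have : (xi {p} p k s + eta p s) ^ 4 = ((xi {p} p k s + eta p s) ^ 2) ^ 2 := by ring
      rw [this, h3]
      ring
    have h5 : Real.sin (Real.pi * s / p) ^ 2 = (1 - (-1) ^ k * eta p s) *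
        (1 + (-1) ^ k * eta p s) := by
      have := Real.sin_sq_add_cos_sq (Real.pi * s / p)
      unfold eta
      linear_combination this + Real.cos (Real.pi * s / p) ^ 2 * e
    rw [erase_singleton, prod_empty, mul_one, h4, h5]
    set c := ct (s * (1 / p / 2) - k / 2) with hc
    set D := 1 - (-1) ^ k * eta p s with hD
    have h6 : 1 + (-1) ^ k * eta p s = 2 - D := by rw [hD]; ring
    have h7 : c ^ 2 = 2 / D - 1 := by linarith
    rw [h6]
    calc (-(p * k * (k + 1) * ((1 + c ^ 2) * c))) ^ 2 =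
        (p * k * (k + 1)) ^ 2 * ((1 + c ^ 2) ^ 2 * c ^ 2) := by ring
      _ = (p * k * (k + 1)) ^ 2 * ((2 / D) ^ 2 * (2 / D - 1)) := by rw [h2, h7]
      _ = _ := by field_simp; ring
  · have hqS : q ∈ S := by rw [h]; simp
    subst h
    have hq2 := hS.two_le q hqS
    have hq0 : (0 : ℝ) < q := by positivity
    refine ⟨16 * (p * q * k) ^ 2, by positivity, fun s hs => ?_⟩
    have hne := xi_add_eta_ne hS hp k hs
    obtain ⟨D₁, D₂, h1, h2, h3, h4, h5, h6, h7⟩ := A6_leaf2 hq k hne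
    rw [(A6_bb2 hq hk s).1, h6, h7]
    unfold HH
    rw [A6_er hq, prod_singleton]
    have h8 : (xi {p, q} p k s + eta p s) ^ 4 = (D₁ * D₂) ^ 2 := by
      rw [h3]
      ring
    rw [h8]
    have h9 : Real.sin (Real.pi * s / p) ^ 2 * Real.sin (Real.pi * s / q) ^ 2 =
        (D₂ - D₁) ^ 2 / 4 := by linarith
    rw [h9]
    field_simp
    ring

theorem bb_one {S : Finset ℕ} (hS : IsLeaf S) {p : ℕ} (hp : p ∈ S) {k : ℕ} (hk : 1 ≤ k) {s : ℤ}
    (hs : UU S s) : bb S k 1 s = be S k * (FF S p k s - 2 / 3) * bb S k 0 s := by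
  rcases A6_cases hS hp with h | ⟨q, hq, h⟩
  · subst h
    have hne := xi_add_eta_ne hS hp k hs
    obtain ⟨h1, h2, h3⟩ := A6_leaf1 k hne
    rw [(A6_bb1 p hk s).1, (A6_bb1 p hk s).2]
    unfold FF
    have h4 : 1 + xi {p} p k s * eta p s = 1 - (-1) ^ k * eta p s := by
      rw [A6_xi1]
      ring
    have hbe : ((be {p} k : ℚ) : ℝ) = (k + 2) * (k + 3) / 2 := by
      unfold be
      rw [card_singleton, if_neg (by norm_num)]
      push_cast
      ring
    rw [h3, h4, hbe]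
    set c := ct (s * (1 / p / 2) - k / 2) with hc
    set D := 1 - (-1) ^ k * eta p s with hD
    have h7 : 4 * D / D ^ 2 = 2 * (1 + c ^ 2) := by
      rw [h2]
      field_simp
      ring
    rw [h7]
    ring
  · have hqS : q ∈ S := by rw [h]; simp
    subst h
    have hne := xi_add_eta_ne hS hp k hs
    obtain ⟨D₁, D₂, h1, h2, h3, h4, h5, h6, h7⟩ := A6_leaf2 hq k hne
    rw [(A6_bb2 hq hk s).1, (A6_bb2 hq hk s).2]
    unfold FF
    have hbe : ((be {p, q} k : ℚ) : ℝ) = (k + 1) * (k + 2) := by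
      unfold be
      rw [card_pair hq.symm, if_pos rfl]
      push_cast
      ring
    rw [hbe, ← h3]
    have h8 : 4 * (1 + xi {p, q} p k s * eta p s) = 2 * (D₁ + D₂) := by rw [h5]; ring
    rw [h8]
    set a := ct (s * ((1 / p + 1 / q) / 2) - k / 2) with ha
    set b := ct (s * ((1 / p - 1 / q) / 2) - k / 2) with hb
    have h9 : 2 * (D₁ + D₂) / (D₁ * D₂) = (1 + a ^ 2) + (1 + b ^ 2) := by
      rw [h6, h7]
      field_simp
      ring
    rw [h9]
    ring

/-- `FF` does not depend on the choice of `p`. -/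
theorem FF_symm {S : Finset ℕ} (hS : IsLeaf S) {p p' : ℕ} (hp : p ∈ S) (hp' : p' ∈ S) (k : ℕ)
    (s : ℤ) : FF S p k s = FF S p' k s := by
  rcases A6_cases hS hp with h | ⟨q, hq, h⟩
  · rw [h, mem_singleton] at hp'
    rw [hp']
  · have h1 : p' = p ∨ p' = q := by
      rw [h, mem_insert, mem_singleton] at hp'
      exact hp'
    rcases h1 with h1 | h1
    · rw [h1]
    · subst h1
      subst h
      have e := A6_eps k
      have x1 := A6_xi2 hq k s
      have x2 : xi {p, p'} p' k s = -((-1) ^ k * Real.cos (Real.pi * s / p)) := by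
        rw [pair_comm]
        exact A6_xi2 hq.symm k s
      unfold FF
      rw [x1, x2]
      unfold eta
      congr 1
      · ring
      · linear_combination (Real.cos (Real.pi * s / p') ^ 2 - Real.cos (Real.pi * s / p) ^ 2) * e

theorem HH_symm {S : Finset ℕ} (hS : IsLeaf S) {p p' : ℕ} (hp : p ∈ S) (hp' : p' ∈ S) (k : ℕ)
    (s : ℤ) : HH S p k s = HH S p' k s := by
  rcases A6_cases hS hp with h | ⟨q, hq, h⟩
  · rw [h, mem_singleton] at hp'
    rw [hp']
  · have h1 : p' = p ∨ p' = q := by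
      rw [h, mem_insert, mem_singleton] at hp'
      exact hp'
    rcases h1 with h1 | h1
    · rw [h1]
    · subst h1
      subst h
      have e := A6_eps k
      have x1 := A6_xi2 hq k s
      have x2 : xi {p, p'} p' k s = -((-1) ^ k * Real.cos (Real.pi * s / p)) := by
        rw [pair_comm]
        exact A6_xi2 hq.symm k s
      have x3 : ({p, p'} : Finset ℕ).erase p' = {p} := by
        rw [pair_comm]
        exact A6_er hq.symm
      unfold HH
      rw [x1, x2, A6_er hq, x3, prod_singleton, prod_singleton]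
      unfold eta
      congr 1
      · ring
      · have h2 : (-((-1) ^ k * Real.cos (Real.pi * s / p')) + Real.cos (Real.pi * s / p)) ^ 2 =
            (-((-1) ^ k * Real.cos (Real.pi * s / p)) + Real.cos (Real.pi * s / p')) ^ 2 := by
          linear_combination (Real.cos (Real.pi * s / p') ^ 2 - Real.cos (Real.pi * s / p) ^ 2) * e
        calc (-((-1) ^ k * Real.cos (Real.pi * s / p')) + Real.cos (Real.pi * s / p)) ^ 4 =
            ((-((-1) ^ k * Real.cos (Real.pi * s / p')) + Real.cos (Real.pi * s / p)) ^ 2) ^ 2 := by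
              ring
          _ = _ := by
              rw [h2]
              ring

/-- periodicity -/
theorem YY_congr {S : Finset ℕ} (hS : IsLeaf S) (k j : ℕ) {s s' : ℤ}
    (h : ∀ p ∈ S, (2 * p : ℤ) ∣ s - s') : YY S k j s = YY S k j s' := by
  have key : ∀ T ∈ S.powerset, ct (s * (al S T : ℝ) - k / 2) = ct (s' * (al S T : ℝ) - k / 2) := by
    intro T hT
    rw [mem_powerset] at hT
    have hg : ∀ p ∈ S, ((s : ℝ) - s') * (1 / p) = 2 * (((s - s') / (2 * p) : ℤ) : ℝ) := by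
      intro p hp
      have hp0 : (p : ℝ) ≠ 0 := by
        have := hS.two_le p hp
        positivity
      have h1 : 2 * (p : ℤ) * ((s - s') / (2 * p)) = s - s' := Int.mul_ediv_cancel' (h p hp)
      have h2 : ((2 * (p : ℤ) * ((s - s') / (2 * p)) : ℤ) : ℝ) = ((s - s' : ℤ) : ℝ) := by rw [h1]
      rw [Int.cast_mul, Int.cast_mul, Int.cast_sub] at h2
      rw [← h2]
      push_cast
      field_simp
    have e1 : (s : ℝ) * (al S T : ℝ) - k / 2 = (s' * (al S T : ℝ) - k / 2) +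
        ((∑ p ∈ T, (s - s') / (2 * p) - ∑ p ∈ S \ T, (s - s') / (2 * p) : ℤ) : ℝ) := by
      have e2 : ((s : ℝ) - s') * (al S T : ℝ) =
          ((∑ p ∈ T, (s - s') / (2 * p) - ∑ p ∈ S \ T, (s - s') / (2 * p) : ℤ) : ℝ) := by
        have e3 : ((al S T : ℚ) : ℝ) = ((∑ p ∈ T, (1 : ℝ) / p) - ∑ p ∈ S \ T, (1 : ℝ) / p) / 2 := by
          unfold al
          push_cast
          rfl
        rw [e3, mul_div_assoc', mul_sub, mul_sum, mul_sum,
          sum_congr rfl (fun p hp => hg p (hT hp)),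
          sum_congr rfl (fun p hp => hg p (mem_sdiff.1 hp).1), ← mul_sum, ← mul_sum]
        push_cast
        ring
      linarith
    rw [e1, A6_ct_int]
  unfold YY
  by_cases h0 : S = ∅
  · rw [if_pos h0, if_pos h0]
  · rw [if_neg h0, if_neg h0]
    congr 1
    refine sum_congr rfl fun T hT => ?_
    rw [key T hT]

private theorem A6_eta {p : ℕ} (hp : 0 < p) {s s' : ℤ} (h : (2 * p : ℤ) ∣ s - s') :
    Real.cos (Real.pi * s / p) = Real.cos (Real.pi * s' / p) ∧
    Real.sin (Real.pi * s / p) = Real.sin (Real.pi * s' / p) := by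
  obtain ⟨n, hn⟩ := h
  have hp0 : (p : ℝ) ≠ 0 := by positivity
  have h1 : (s : ℝ) = s' + 2 * p * n := by
    have h2 : s = s' + 2 * p * n := by omega
    rw [h2]
    push_cast
    ring
  have h2 : Real.pi * s / p = Real.pi * s' / p + n * (2 * Real.pi) := by
    rw [h1]
    field_simp
  rw [h2, Real.cos_add_int_mul_two_pi, Real.sin_add_int_mul_two_pi]
  exact ⟨rfl, rfl⟩

private theorem A6_xi {S : Finset ℕ} (p : ℕ) (h0 : ∀ p ∈ S, 0 < p) (k : ℕ) {s s' : ℤ}
    (h : ∀ p ∈ S, (2 * p : ℤ) ∣ s - s') : xi S p k s = xi S p k s' := by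
  unfold xi
  congr 1
  refine prod_congr rfl fun q hq => ?_
  have hq' := (mem_erase.1 hq).2
  exact (A6_eta (h0 q hq') (h q hq')).1

theorem FF_congr {S : Finset ℕ} {p : ℕ} (hp : p ∈ S) (h0 : ∀ p ∈ S, 0 < p) (k : ℕ) {s s' : ℤ}
    (h : ∀ p ∈ S, (2 * p : ℤ) ∣ s - s') : FF S p k s = FF S p k s' := by
  unfold FF
  have e1 : eta p s = eta p s' := (A6_eta (h0 p hp) (h p hp)).1
  rw [A6_xi p h0 k h, e1]

theorem HH_congr {S : Finset ℕ} {p : ℕ} (hp : p ∈ S) (h0 : ∀ p ∈ S, 0 < p) (k : ℕ) {s s' : ℤ}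
    (h : ∀ p ∈ S, (2 * p : ℤ) ∣ s - s') : HH S p k s = HH S p k s' := by
  unfold HH
  have e1 : eta p s = eta p s' := (A6_eta (h0 p hp) (h p hp)).1
  have e2 : ∏ q ∈ S.erase p, Real.sin (Real.pi * s / q) ^ 2 =
      ∏ q ∈ S.erase p, Real.sin (Real.pi * s' / q) ^ 2 := by
    refine prod_congr rfl fun q hq => ?_
    have hq' := (mem_erase.1 hq).2
    rw [(A6_eta (h0 q hq') (h q hq')).2]
  rw [A6_xi p h0 k h, e1, e2, (A6_eta (h0 p hp) (h p hp)).2]

end Pool.Agent.GSP
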