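import Pool.Agent.GSP.Defs
import Pool.Agent.GSP.A3
import Pool.Agent.GSP.A6

set_option autoImplicit false

open Finset MeasureTheory

namespace Pool.Agent.GSP

theorem YY_empty (k j : ℕ) (s s' : ℤ) : YY ∅ k j s = YY ∅ k j s' := by
  simp only [YY, if_true]

private theorem A7_prod_monic (k n : ℕ) :
    (∏ i ∈ range n, (Polynomial.X + Polynomial.C ((k : ℚ) / 2 - (i + 1)))).Monic ∧
      (∏ i ∈ range n, (Polynomial.X + Polynomial.C ((k : ℚ) / 2 - (i + 1)))).natDegree = n := by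
  constructor
  · exact Polynomial.monic_prod_of_monic _ _ (fun i _ => Polynomial.monic_X_add_C _)
  · rw [Polynomial.natDegree_prod_of_monic _ _ (fun i _ => Polynomial.monic_X_add_C _)]
    simp only [Polynomial.natDegree_X_add_C]
    simp

private theorem A7_binP_coeff (k : ℕ) : (binP k).coeff (k - 1) = 1 / ((k - 1).factorial : ℚ) := by
  unfold binP
  rw [Polynomial.coeff_C_mul]
  obtain ⟨h1, h2⟩ := A7_prod_monic k (k - 1)
  have h3 : (∏ i ∈ range (k - 1), (Polynomial.X + Polynomial.C ((k : ℚ) / 2 - (i + 1)))).coeff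
      (k - 1) = 1 := by
    have h4 := h1.coeff_natDegree
    rw [h2] at h4
    exact h4
  rw [h3, mul_one]

/-- the lowest coefficients for the nodes without leaves -/
theorem bb_empty {k : ℕ} (hk : 1 ≤ k) (j : ℕ) (s : ℤ) :
    bb ∅ k j s = ((k + 2 + 2 * j).factorial : ℝ) / (2 * ((k - 1).factorial : ℝ)) *
      (sg k (2 * j + 4) : ℝ) := by
  unfold bb YY
  rw [if_pos rfl, Finset.card_empty, Nat.sub_zero, Polynomial.coeff_C_mul, Polynomial.finsetSum_coeff]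
  rw [Finset.sum_eq_single (k - 1)]
  · rw [Polynomial.coeff_C_mul, Polynomial.coeff_X_pow]
    have h1 : k + 3 + 2 * j - (k - 1) = 2 * j + 4 := by omega
    rw [h1, if_pos rfl, A7_binP_coeff]
    push_cast
    ring
  · intro i hi hne
    rw [Finset.mem_range] at hi
    rw [Polynomial.coeff_C_mul, Polynomial.coeff_X_pow, if_neg (by omega), mul_zero]
  · intro h
    exact absurd (Finset.mem_range.2 (by omega)) h

theorem bb_empty_pos {k : ℕ} (hk : 1 ≤ k) (s : ℤ) : 0 < bb ∅ k 0 s := by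
  rw [bb_empty hk 0 s]
  have h1 : (0 : ℝ) < (sg k (2 * 0 + 4) : ℝ) := by
    have h2 : 2 * 0 + 4 = 4 := rfl
    rw [h2, (sg_val k).1]
    split_ifs <;> norm_num
  have h3 : (0 : ℝ) < ((k + 2 + 2 * 0).factorial : ℝ) := by
    exact_mod_cast Nat.factorial_pos _
  have h4 : (0 : ℝ) < ((k - 1).factorial : ℝ) := by
    exact_mod_cast Nat.factorial_pos _
  positivity

private theorem A7_odd (e : ℕ) :
    (-2 * (e : ℝ) ^ 4 + 18 * (e : ℝ) ^ 3 + 7889 * (e : ℝ) ^ 2 + 42111 * (e : ℝ) + 57492) ≠ 0 := by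
  rcases Nat.lt_or_ge e 70 with h | h
  · interval_cases e <;> norm_num
  · obtain ⟨t, rfl⟩ := Nat.exists_eq_add_of_le h
    have ht : (0 : ℝ) ≤ (t : ℝ) := Nat.cast_nonneg t
    apply ne_of_lt
    push_cast
    have h2 : (0 : ℝ) ≤ (t : ℝ) ^ 2 := by positivity
    have h3 : (0 : ℝ) ≤ (t : ℝ) ^ 3 := by positivity
    have h4 : (0 : ℝ) ≤ (t : ℝ) ^ 4 := by positivity
    nlinarith

private theorem A7_even (e : ℕ) :
    (-2 * (e : ℝ) ^ 4 + 30 * (e : ℝ) ^ 3 + 2655 * (e : ℝ) ^ 2 + 13605 * (e : ℝ) + 18332) ≠ 0 := by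
  rcases Nat.lt_or_ge e 47 with h | h
  · interval_cases e <;> norm_num
  · obtain ⟨t, rfl⟩ := Nat.exists_eq_add_of_le h
    have ht : (0 : ℝ) ≤ (t : ℝ) := Nat.cast_nonneg t
    apply ne_of_lt
    push_cast
    have h2 : (0 : ℝ) ≤ (t : ℝ) ^ 2 := by positivity
    have h3 : (0 : ℝ) ≤ (t : ℝ) ^ 3 := by positivity
    have h4 : (0 : ℝ) ≤ (t : ℝ) ^ 4 := by positivity
    nlinarith

/-- the third cumulant of the lowest coefficients is not `0` -/
theorem bottom_cu {k : ℕ} (hk : 1 ≤ k) (s : ℤ) :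
    bb ∅ k 3 s * bb ∅ k 0 s ^ 2 - 3 * bb ∅ k 2 s * bb ∅ k 1 s * bb ∅ k 0 s +
      2 * bb ∅ k 1 s ^ 3 ≠ 0 := by
  rw [bb_empty hk 3 s, bb_empty hk 2 s, bb_empty hk 1 s, bb_empty hk 0 s]
  have e0 : k + 2 + 2 * 0 = k + 2 := rfl
  have e1 : k + 2 + 2 * 1 = (k + 2) + 1 + 1 := rfl
  have e2 : k + 2 + 2 * 2 = (k + 2) + 1 + 1 + 1 + 1 := rfl
  have e3 : k + 2 + 2 * 3 = (k + 2) + 1 + 1 + 1 + 1 + 1 + 1 := rfl
  have t0 : 2 * 0 + 4 = 4 := rfl
  have t1 : 2 * 1 + 4 = 6 := rfl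
  have t2 : 2 * 2 + 4 = 8 := rfl
  have t3 : 2 * 3 + 4 = 10 := rfl
  rw [e0, e1, e2, e3, t0, t1, t2, t3]
  obtain ⟨v0, v1, v2, v3⟩ := sg_val k
  rw [v0, v1, v2, v3]
  obtain ⟨e, he⟩ : ∃ e : ℕ, e = k + 2 := ⟨_, rfl⟩
  rw [← he]
  have f1 : ((e + 1 + 1).factorial : ℝ) = ((e : ℝ) + 2) * (((e : ℝ) + 1) * (e.factorial : ℝ)) := by
    rw [Nat.factorial_succ, Nat.factorial_succ]
    push_cast
    ring
  have f2 : ((e + 1 + 1 + 1 + 1).factorial : ℝ) = ((e : ℝ) + 4) * (((e : ℝ) + 3) *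
      (((e : ℝ) + 2) * (((e : ℝ) + 1) * (e.factorial : ℝ)))) := by
    rw [Nat.factorial_succ, Nat.factorial_succ, Nat.factorial_succ, Nat.factorial_succ]
    push_cast
    ring
  have f3 : ((e + 1 + 1 + 1 + 1 + 1 + 1).factorial : ℝ) = ((e : ℝ) + 6) * (((e : ℝ) + 5) *
      (((e : ℝ) + 4) * (((e : ℝ) + 3) * (((e : ℝ) + 2) * (((e : ℝ) + 1) * (e.factorial : ℝ)))))) := by
    rw [Nat.factorial_succ, Nat.factorial_succ, Nat.factorial_succ, Nat.factorial_succ,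
      Nat.factorial_succ, Nat.factorial_succ]
    push_cast
    ring
  rw [f1, f2, f3]
  have hf : (0 : ℝ) < (e.factorial : ℝ) := by exact_mod_cast Nat.factorial_pos _
  have hg : (0 : ℝ) < ((k - 1).factorial : ℝ) := by exact_mod_cast Nat.factorial_pos _
  have he0 : (0 : ℝ) ≤ (e : ℝ) := Nat.cast_nonneg e
  generalize (e.factorial : ℝ) = f at *
  generalize ((k - 1).factorial : ℝ) = g at *
  have hc : 0 < f / (2 * g) := by positivity
  by_cases hodd : Odd k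
  · rw [if_pos hodd, if_pos hodd, if_pos hodd, if_pos hodd]
    push_cast
    have key : ((e : ℝ) + 6) * (((e : ℝ) + 5) * (((e : ℝ) + 4) * (((e : ℝ) + 3) *
        (((e : ℝ) + 2) * (((e : ℝ) + 1) * f))))) / (2 * g) * (62 / 2835) *
        (f / (2 * g) * (1 / 3)) ^ 2 -
        3 * (((e : ℝ) + 4) * (((e : ℝ) + 3) * (((e : ℝ) + 2) * (((e : ℝ) + 1) * f))) / (2 * g) *
          (17 / 315)) * (((e : ℝ) + 2) * (((e : ℝ) + 1) * f) / (2 * g) * (2 / 15)) *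
          (f / (2 * g) * (1 / 3)) +
        2 * (((e : ℝ) + 2) * (((e : ℝ) + 1) * f) / (2 * g) * (2 / 15)) ^ 3 =
        (f / (2 * g)) ^ 3 * (((e : ℝ) + 1) * ((e : ℝ) + 2)) * (8 / 637875) *
          (-2 * (e : ℝ) ^ 4 + 18 * (e : ℝ) ^ 3 + 7889 * (e : ℝ) ^ 2 + 42111 * (e : ℝ) + 57492) := by
      ring
    rw [key]
    refine mul_ne_zero ?_ (A7_odd e)
    positivity
  · rw [if_neg hodd, if_neg hodd, if_neg hodd, if_neg hodd]
    push_cast
    have key : ((e : ℝ) + 6) * (((e : ℝ) + 5) * (((e : ℝ) + 4) * (((e : ℝ) + 3) *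
        (((e : ℝ) + 2) * (((e : ℝ) + 1) * f))))) / (2 * g) * (2 / 93555) *
        (f / (2 * g) * (1 / 45)) ^ 2 -
        3 * (((e : ℝ) + 4) * (((e : ℝ) + 3) * (((e : ℝ) + 2) * (((e : ℝ) + 1) * f))) / (2 * g) *
          (1 / 4725)) * (((e : ℝ) + 2) * (((e : ℝ) + 1) * f) / (2 * g) * (2 / 945)) *
          (f / (2 * g) * (1 / 45)) +
        2 * (((e : ℝ) + 2) * (((e : ℝ) + 1) * f) / (2 * g) * (2 / 945)) ^ 3 =
        (f / (2 * g)) ^ 3 * (((e : ℝ) + 1) * ((e : ℝ) + 2)) * (8 / 46414974375) *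
          (-2 * (e : ℝ) ^ 4 + 30 * (e : ℝ) ^ 3 + 2655 * (e : ℝ) ^ 2 + 13605 * (e : ℝ) + 18332) := by
      ring
    rw [key]
    refine mul_ne_zero ?_ (A7_even e)
    positivity

end Pool.Agent.GSP
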