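import Pool.Agent.GSP.Defs
import Pool.Agent.GSP.A6
import Pool.Agent.GSP.A7

set_option autoImplicit false

open Finset MeasureTheory

namespace Pool.Agent.GSP

private theorem A8_inj : Function.Injective toC := by
  unfold toC
  rw [RingHom.coe_comp]
  exact (RatFunc.algebraMap_injective ℂ).comp
    (Polynomial.map_injective _ (algebraMap ℝ ℂ).injective)

private theorem A8_dec {S : Finset ℕ} {k : ℕ} (hk : 1 ≤ k) (hS : S.card ≤ 2) (j : ℕ) (s : ℤ) :
    ∃ A : Polynomial ℝ, YY S k j s = Polynomial.X ^ (2 * j + 4 - S.card) * A ∧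
      A.coeff 0 = bb S k j s := by
  obtain ⟨A, hA⟩ := YY_low S hk hS j s
  refine ⟨A, hA, ?_⟩
  unfold bb
  have h := Polynomial.coeff_X_pow_mul A (2 * j + 4 - S.card) 0
  rw [zero_add] at h
  rw [hA, h]

private theorem A8_bb {S : Finset ℕ} (hS : IsLeaf S) {k : ℕ} (hk : 1 ≤ k) {s : ℤ}
    (hs : UU S s) : bb S k 0 s ≠ 0 := by
  rcases S.eq_empty_or_nonempty with rfl | ⟨p, hp⟩
  · exact (bb_empty_pos hk s).ne'
  · obtain ⟨c, hc, h⟩ := bb_zero_sq hS hp hk
    intro h0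
    have h1 := h s hs
    rw [h0] at h1
    have h2 : 0 < c * HH S p k s := mul_pos hc (HH_pos hS hp k hs)
    rw [← h1] at h2
    norm_num at h2

theorem YY_zero_ne {S : Finset ℕ} (hS : IsLeaf S) {k : ℕ} (hk : 1 ≤ k) {s : ℤ} (hs : UU S s) :
    toC (YY S k 0 s) ≠ 0 := by
  intro h
  have h1 : YY S k 0 s = 0 := A8_inj (by rw [h, map_zero])
  apply A8_bb hS hk hs
  unfold bb
  rw [h1, Polynomial.coeff_zero]

theorem mm_zero {S : Finset ℕ} (hS : IsLeaf S) {k : ℕ} (hk : 1 ≤ k) {s : ℤ} (hs : UU S s) :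
    mm S k 0 s = 1 := by
  unfold mm
  exact div_self (YY_zero_ne hS hk hs)

private theorem A8_empty_leaf : IsLeaf ∅ :=
  ⟨fun p hp => absurd hp (Finset.notMem_empty p), fun p hp => absurd hp (Finset.notMem_empty p),
    by simp⟩

/-- the third cumulant of a node without leaves is not `0` -/
theorem mm_cu {k : ℕ} (hk : 1 ≤ k) (s : ℤ) : cu (fun j => mm ∅ k j s) ≠ 0 := by
  have hc : (∅ : Finset ℕ).card ≤ 2 := by simp
  obtain ⟨A0, hA0, ha0⟩ := A8_dec hk hc 0 s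
  obtain ⟨A1, hA1, ha1⟩ := A8_dec hk hc 1 s
  obtain ⟨A2, hA2, ha2⟩ := A8_dec hk hc 2 s
  obtain ⟨A3, hA3, ha3⟩ := A8_dec hk hc 3 s
  rw [Finset.card_empty] at hA0 hA1 hA2 hA3
  norm_num at hA0 hA1 hA2 hA3
  have hb0 : bb ∅ k 0 s ≠ 0 := (bb_empty_pos hk s).ne'
  have hY0 : toC (YY ∅ k 0 s) ≠ 0 := by
    intro h
    have h1 : YY ∅ k 0 s = 0 := A8_inj (by rw [h, map_zero])
    apply hb0
    unfold bb
    rw [h1, Polynomial.coeff_zero]
  intro h
  unfold cu mm at h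
  have h1 : toC (YY ∅ k 3 s) * toC (YY ∅ k 0 s) ^ 2 -
      3 * toC (YY ∅ k 1 s) * toC (YY ∅ k 2 s) * toC (YY ∅ k 0 s) +
      2 * toC (YY ∅ k 1 s) ^ 3 = 0 := by
    field_simp at h
    linear_combination h
  have h2 : YY ∅ k 3 s * YY ∅ k 0 s ^ 2 - 3 * YY ∅ k 1 s * YY ∅ k 2 s * YY ∅ k 0 s +
      2 * YY ∅ k 1 s ^ 3 = 0 := by
    apply A8_inj
    rw [map_zero, ← h1]
    simp only [map_add, map_sub, map_mul, map_pow, map_ofNat]
  rw [hA0, hA1, hA2, hA3] at h2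
  have h3 : Polynomial.X ^ 18 * (A3 * A0 ^ 2 - 3 * A1 * A2 * A0 + 2 * A1 ^ 3) = 0 := by
    linear_combination h2
  have h4 : A3 * A0 ^ 2 - 3 * A1 * A2 * A0 + 2 * A1 ^ 3 = 0 := by
    rcases mul_eq_zero.mp h3 with h5 | h5
    · exact absurd h5 (pow_ne_zero _ Polynomial.X_ne_zero)
    · exact h5
  have h5 := congrArg (Polynomial.eval 0) h4
  simp only [Polynomial.eval_add, Polynomial.eval_sub, Polynomial.eval_mul, Polynomial.eval_pow,
    Polynomial.eval_ofNat, Polynomial.eval_zero, ← Polynomial.coeff_zero_eq_eval_zero] at h5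
  rw [ha0, ha1, ha2, ha3] at h5
  apply bottom_cu hk s
  linear_combination h5

/-- the lowest coefficient of the first moment -/
theorem mm_one_ne {S S' : Finset ℕ} (hS : IsLeaf S) {p : ℕ} (hp : p ∈ S) {k : ℕ} (hk : 1 ≤ k)
    {s s' : ℤ} (hs : UU S s) (hs' : UU S s') (h : FF S p k s ≠ FF S p k s') :
    mm S k 1 s ≠ mm S k 1 s' := by
  intro he
  unfold mm at he
  rw [div_eq_div_iff (YY_zero_ne hS hk hs) (YY_zero_ne hS hk hs'), ← map_mul, ← map_mul] at he
  have h1 := A8_inj he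
  obtain ⟨A0, hA0, ha0⟩ := A8_dec hk hS.card_le 0 s
  obtain ⟨A1, hA1, ha1⟩ := A8_dec hk hS.card_le 1 s
  obtain ⟨B0, hB0, hb0⟩ := A8_dec hk hS.card_le 0 s'
  obtain ⟨B1, hB1, hb1⟩ := A8_dec hk hS.card_le 1 s'
  rw [hA0, hA1, hB0, hB1] at h1
  have h2 : Polynomial.X ^ (2 * 1 + 4 - S.card) * (Polynomial.X ^ (2 * 0 + 4 - S.card) *
      (A1 * B0 - B1 * A0)) = 0 := by linear_combination h1
  have h3 : A1 * B0 - B1 * A0 = 0 := by
    rcases mul_eq_zero.mp h2 with h5 | h5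
    · exact absurd h5 (pow_ne_zero _ Polynomial.X_ne_zero)
    · rcases mul_eq_zero.mp h5 with h6 | h6
      · exact absurd h6 (pow_ne_zero _ Polynomial.X_ne_zero)
      · exact h6
  have h5 := congrArg (Polynomial.eval 0) h3
  simp only [Polynomial.eval_sub, Polynomial.eval_mul,
    Polynomial.eval_zero, ← Polynomial.coeff_zero_eq_eval_zero] at h5
  rw [ha0, ha1, hb0, hb1, bb_one hS hp hk hs, bb_one hS hp hk hs'] at h5
  have hbe : (be S k : ℝ) ≠ 0 := by
    have : 0 < be S k := by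
      unfold be
      split_ifs <;> positivity
    exact_mod_cast this.ne'
  have hn1 := A8_bb hS hk hs
  have hn2 := A8_bb hS hk hs'
  have h6 : ((be S k : ℝ) * (bb S k 0 s * bb S k 0 s')) * (FF S p k s - FF S p k s') = 0 := by
    linear_combination h5
  rcases mul_eq_zero.mp h6 with h7 | h7
  · exact (mul_ne_zero hbe (mul_ne_zero hn1 hn2)) h7
  · exact h (sub_eq_zero.mp h7)

/-- `x` is regular at `0` with the value `c` -/
private def A8_Reg (x : RatFunc ℂ) (c : ℝ) : Prop :=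
  ∃ a b : Polynomial ℝ, b.coeff 0 ≠ 0 ∧ x * toC b = toC a ∧ a.coeff 0 = c * b.coeff 0

private theorem A8_Reg_add {x y : RatFunc ℂ} {c d : ℝ} (hx : A8_Reg x c) (hy : A8_Reg y d) :
    A8_Reg (x + y) (c + d) := by
  obtain ⟨a, b, hb, h1, h2⟩ := hx
  obtain ⟨a', b', hb', h1', h2'⟩ := hy
  refine ⟨a * b' + a' * b, b * b', ?_, ?_, ?_⟩
  · rw [Polynomial.mul_coeff_zero]
    exact mul_ne_zero hb hb'
  · rw [map_add, map_mul, map_mul, map_mul, ← h1, ← h1']
    ring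
  · rw [Polynomial.coeff_add, Polynomial.mul_coeff_zero, Polynomial.mul_coeff_zero,
      Polynomial.mul_coeff_zero, h2, h2']
    ring

private theorem A8_toC_C (q : ℚ) : toC (Polynomial.C (q : ℝ)) = (q : RatFunc ℂ) := by
  unfold toC
  rw [RingHom.comp_apply, Polynomial.coe_mapRingHom, Polynomial.map_C, RatFunc.algebraMap_C]
  simp

private theorem A8_Reg_smul {x : RatFunc ℂ} {c : ℝ} (q : ℚ) (hx : A8_Reg x c) :
    A8_Reg ((q : RatFunc ℂ) * x) ((q : ℝ) * c) := by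
  obtain ⟨a, b, hb, h1, h2⟩ := hx
  refine ⟨Polynomial.C (q : ℝ) * a, b, hb, ?_, ?_⟩
  · rw [map_mul, A8_toC_C, ← h1]
    ring
  · rw [Polynomial.coeff_C_mul, h2]
    ring

private theorem A8_Reg_sum {ι : Type} (s : Finset ι) (x : ι → RatFunc ℂ) (c : ι → ℝ)
    (h : ∀ i, A8_Reg (x i) (c i)) : A8_Reg (∑ i ∈ s, x i) (∑ i ∈ s, c i) := by
  classical
  induction s using Finset.induction_on with
  | empty =>
    rw [Finset.sum_empty, Finset.sum_empty]
    refine ⟨0, 1, ?_, ?_, ?_⟩ <;> simp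
  | insert i s hi ih =>
    rw [Finset.sum_insert hi, Finset.sum_insert hi]
    exact A8_Reg_add (h i) ih

private theorem A8_Reg_unique {x : RatFunc ℂ} {c d : ℝ} (hx : A8_Reg x c) (hy : A8_Reg x d) :
    c = d := by
  obtain ⟨a, b, hb, h1, h2⟩ := hx
  obtain ⟨a', b', hb', h1', h2'⟩ := hy
  have h3 : a * b' = a' * b := by
    apply A8_inj
    rw [map_mul, map_mul, ← h1, ← h1']
    ring
  have h4 := congrArg (fun p : Polynomial ℝ => p.coeff 0) h3
  simp only [Polynomial.mul_coeff_zero] at h4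
  rw [h2, h2'] at h4
  have h5 : (c - d) * (b.coeff 0 * b'.coeff 0) = 0 := by linear_combination h4
  rcases mul_eq_zero.mp h5 with h6 | h6
  · exact sub_eq_zero.mp h6
  · exact absurd h6 (mul_ne_zero hb hb')

private theorem A8_mm {S : Finset ℕ} (hS : IsLeaf S) {k : ℕ} (hk : 1 ≤ k) {s : ℤ}
    (hs : UU S s) : ∃ y : RatFunc ℂ, mm S k 1 s = toC Polynomial.X ^ 2 * y ∧
      A8_Reg y (bb S k 1 s / bb S k 0 s) := by
  obtain ⟨A0, hA0, ha0⟩ := A8_dec hk hS.card_le 0 s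
  obtain ⟨A1, hA1, ha1⟩ := A8_dec hk hS.card_le 1 s
  have hb := A8_bb hS hk hs
  have hX : toC Polynomial.X ≠ 0 := by
    intro h
    exact Polynomial.X_ne_zero (A8_inj (by rw [h, map_zero]) : (Polynomial.X : Polynomial ℝ) = 0)
  have hA00 : toC A0 ≠ 0 := by
    intro h
    have h1 : A0 = 0 := A8_inj (by rw [h, map_zero])
    rw [h1, Polynomial.coeff_zero] at ha0
    exact hb ha0.symm
  refine ⟨toC A1 / toC A0, ?_, A1, A0, ?_, ?_, ?_⟩
  · unfold mm
    have hc := hS.card_le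
    have e : 2 * 1 + 4 - S.card = (2 * 0 + 4 - S.card) + 2 := by omega
    rw [hA0, hA1, e, map_mul, map_mul, map_pow, map_pow, pow_add]
    field_simp
  · rw [ha0]
    exact hb
  · exact div_mul_cancel₀ _ hA00
  · rw [ha0, ha1]
    field_simp

/-- linear relations between the first moments hold for the lowest coefficients -/
theorem low_sum {V V' : Type} [Fintype V] [Fintype V'] (S : V → Finset ℕ) (k : V → ℕ) (q : V → ℚ)
    (S' : V' → Finset ℕ) (k' : V' → ℕ) (q' : V' → ℚ) (hS : ∀ v, IsLeaf (S v))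
    (hk : ∀ v, 1 ≤ k v) (hS' : ∀ v, IsLeaf (S' v)) (hk' : ∀ v, 1 ≤ k' v) {s : ℤ}
    (hs : ∀ v, UU (S v) s) (hs' : ∀ v, UU (S' v) s)
    (h : ∑ v, (q v : RatFunc ℂ) * mm (S v) (k v) 1 s =
      ∑ v, (q' v : RatFunc ℂ) * mm (S' v) (k' v) 1 s) :
    ∑ v, (q v : ℝ) * (bb (S v) (k v) 1 s / bb (S v) (k v) 0 s) =
      ∑ v, (q' v : ℝ) * (bb (S' v) (k' v) 1 s / bb (S' v) (k' v) 0 s) := by
  choose y hy1 hy2 using fun v => A8_mm (hS v) (hk v) (hs v)
  choose y' hy1' hy2' using fun v => A8_mm (hS' v) (hk' v) (hs' v)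
  have hX : toC Polynomial.X ≠ 0 := by
    intro h
    exact Polynomial.X_ne_zero (A8_inj (by rw [h, map_zero]) : (Polynomial.X : Polynomial ℝ) = 0)
  have h1 : toC Polynomial.X ^ 2 * ∑ v, (q v : RatFunc ℂ) * y v =
      toC Polynomial.X ^ 2 * ∑ v, (q' v : RatFunc ℂ) * y' v := by
    rw [Finset.mul_sum, Finset.mul_sum]
    calc ∑ v, toC Polynomial.X ^ 2 * ((q v : RatFunc ℂ) * y v)
        = ∑ v, (q v : RatFunc ℂ) * mm (S v) (k v) 1 s := by
          refine Finset.sum_congr rfl fun v _ => ?_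
          rw [hy1]; ring
      _ = ∑ v, (q' v : RatFunc ℂ) * mm (S' v) (k' v) 1 s := h
      _ = ∑ v, toC Polynomial.X ^ 2 * ((q' v : RatFunc ℂ) * y' v) := by
          refine Finset.sum_congr rfl fun v _ => ?_
          rw [hy1']; ring
  have h2 := mul_left_cancel₀ (pow_ne_zero 2 hX) h1
  have r1 := A8_Reg_sum univ _ _ fun v => A8_Reg_smul (q v) (hy2 v)
  have r2 := A8_Reg_sum univ _ _ fun v => A8_Reg_smul (q' v) (hy2' v)
  rw [h2] at r1
  exact A8_Reg_unique r1 r2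

/-- products -/
theorem low_prod {V V' : Type} [Fintype V] [Fintype V'] (S : V → Finset ℕ) (k : V → ℕ)
    (S' : V' → Finset ℕ) (k' : V' → ℕ) (hS : ∀ v, IsLeaf (S v)) (hk : ∀ v, 1 ≤ k v)
    (hS' : ∀ v, IsLeaf (S' v)) (hk' : ∀ v, 1 ≤ k' v) {s : ℤ} (hs : ∀ v, UU (S v) s)
    (hs' : ∀ v, UU (S' v) s) {a b : ℚ} (ha : a ≠ 0) (hb : b ≠ 0)
    (h : (a : RatFunc ℂ) * (∏ v, toC (YY (S v) (k v) 0 s)) ^ 2 =
      (b : RatFunc ℂ) * (∏ v, toC (YY (S' v) (k' v) 0 s)) ^ 2) :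
    (a : ℝ) * (∏ v, bb (S v) (k v) 0 s) ^ 2 = (b : ℝ) * (∏ v, bb (S' v) (k' v) 0 s) ^ 2 := by
  choose A hA1 hA2 using fun v => A8_dec (hk v) (hS v).card_le 0 s
  choose B hB1 hB2 using fun v => A8_dec (hk' v) (hS' v).card_le 0 s
  have h1 : Polynomial.C (a : ℝ) * (∏ v, YY (S v) (k v) 0 s) ^ 2 =
      Polynomial.C (b : ℝ) * (∏ v, YY (S' v) (k' v) 0 s) ^ 2 := by
    apply A8_inj
    rw [map_mul, map_mul, map_pow, map_pow, map_prod, map_prod, A8_toC_C, A8_toC_C]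
    exact h
  set m := ∑ v, (2 * 0 + 4 - (S v).card) with hm
  set n := ∑ v, (2 * 0 + 4 - (S' v).card) with hn
  have e1 : ∏ v, YY (S v) (k v) 0 s = Polynomial.X ^ m * ∏ v, A v := by
    rw [Finset.prod_congr rfl fun v _ => hA1 v, Finset.prod_mul_distrib, Finset.prod_pow_eq_pow_sum]
  have e2 : ∏ v, YY (S' v) (k' v) 0 s = Polynomial.X ^ n * ∏ v, B v := by
    rw [Finset.prod_congr rfl fun v _ => hB1 v, Finset.prod_mul_distrib, Finset.prod_pow_eq_pow_sum]
  rw [e1, e2] at h1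
  set PA := ∏ v, A v with hPA
  set PB := ∏ v, B v with hPB
  have cA : PA.coeff 0 = ∏ v, bb (S v) (k v) 0 s := by
    rw [Polynomial.coeff_zero_eq_eval_zero, hPA, Polynomial.eval_prod]
    refine Finset.prod_congr rfl fun v _ => ?_
    rw [← Polynomial.coeff_zero_eq_eval_zero, hA2]
  have cB : PB.coeff 0 = ∏ v, bb (S' v) (k' v) 0 s := by
    rw [Polynomial.coeff_zero_eq_eval_zero, hPB, Polynomial.eval_prod]
    refine Finset.prod_congr rfl fun v _ => ?_
    rw [← Polynomial.coeff_zero_eq_eval_zero, hB2]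
  have nA : PA.coeff 0 ≠ 0 := by
    rw [cA]
    exact Finset.prod_ne_zero_iff.mpr fun v _ => A8_bb (hS v) (hk v) (hs v)
  have nB : PB.coeff 0 ≠ 0 := by
    rw [cB]
    exact Finset.prod_ne_zero_iff.mpr fun v _ => A8_bb (hS' v) (hk' v) (hs' v)
  have har : (a : ℝ) ≠ 0 := by exact_mod_cast ha
  have hbr : (b : ℝ) ≠ 0 := by exact_mod_cast hb
  -- the general statement
  have key : ∀ (x y : ℝ) (P Q : Polynomial ℝ) (m n : ℕ), x ≠ 0 → P.coeff 0 ≠ 0 → m ≤ n →
      Polynomial.C x * (Polynomial.X ^ m * P) ^ 2 = Polynomial.C y * (Polynomial.X ^ n * Q) ^ 2 →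
      m = n ∧ x * P.coeff 0 ^ 2 = y * Q.coeff 0 ^ 2 := by
    intro x y P Q m n hx hP hmn he
    obtain ⟨t, rfl⟩ : ∃ t, n = m + t := ⟨n - m, by omega⟩
    have h2 : Polynomial.X ^ (2 * m) * (Polynomial.C x * P ^ 2 -
        Polynomial.C y * (Polynomial.X ^ t * Q) ^ 2) = 0 := by
      have : Polynomial.X ^ (2 * m) = (Polynomial.X ^ m : Polynomial ℝ) ^ 2 := by
        rw [← pow_mul, mul_comm]
      rw [this]
      rw [pow_add] at he
      linear_combination he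
    have h3 : Polynomial.C x * P ^ 2 - Polynomial.C y * (Polynomial.X ^ t * Q) ^ 2 = 0 := by
      rcases mul_eq_zero.mp h2 with h5 | h5
      · exact absurd h5 (pow_ne_zero _ Polynomial.X_ne_zero)
      · exact h5
    have h4 := congrArg (Polynomial.eval 0) h3
    simp only [Polynomial.eval_sub, Polynomial.eval_mul, Polynomial.eval_pow, Polynomial.eval_C,
      Polynomial.eval_X, Polynomial.eval_zero, ← Polynomial.coeff_zero_eq_eval_zero] at h4
    rcases Nat.eq_zero_or_pos t with h5 | h5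
    · subst h5
      refine ⟨by omega, ?_⟩
      rw [pow_zero, one_mul] at h4
      linarith
    · exfalso
      rw [zero_pow (by omega), zero_mul, zero_pow (by norm_num), mul_zero, sub_zero] at h4
      exact (mul_ne_zero hx (pow_ne_zero 2 hP)) h4
  rcases le_total m n with hmn | hmn
  · have := (key _ _ PA PB m n har nA hmn h1).2
    rw [cA, cB] at this
    exact this
  · have := (key _ _ PB PA n m hbr nB hmn h1.symm).2
    rw [cA, cB] at this
    exact this.symm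

end Pool.Agent.GSP
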