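import Pool.Agent.GSP.Defs

set_option autoImplicit false

open Finset

namespace Pool.Agent.GSP

private lemma E2_three {V : Type} [Fintype V] {G : SimpleGraph V} {z : V} (u : V)
    (hz : 3 ≤ dg G z) : ∃ u₂ u₃, G.Adj z u₂ ∧ G.Adj z u₃ ∧ u₂ ≠ u ∧ u₃ ≠ u ∧ u₂ ≠ u₃ := by
  have h1 := Set.pred_ncard_le_ncard_sdiff_singleton (G.neighborSet z) u
  have h2 : 1 < (G.neighborSet z \ {u}).ncard := by
    unfold dg at hz
    omega
  rw [Set.one_lt_ncard_iff] at h2
  obtain ⟨a, b, ha, hb, hab⟩ := h2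
  exact ⟨a, b, ha.1, hb.1, ha.2, hb.2, hab⟩

private lemma E2_ext {V : Type} [Fintype V] {G : SimpleGraph V} (hG : G.IsAcyclic) {W : Set V}
    (hW : ∀ v, v ∉ W → 3 ≤ dg G v) {z u : V} (h : G.Adj z u) :
    ∀ (k : ℕ) (a : V) (p : G.Walk u a), (SimpleGraph.Walk.cons h p).IsPath →
      Fintype.card V ≤ p.length + k →
      ∃ a' ∈ W, ∃ p' : G.Walk u a', (SimpleGraph.Walk.cons h p').IsPath := by
  intro k
  induction k with
  | zero =>
    intro a p hp hk
    have h1 := hp.length_lt
    rw [SimpleGraph.Walk.length_cons] at h1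
    omega
  | succ k ih =>
    intro a p hp hk
    by_cases ha : a ∈ W
    · exact ⟨a, ha, p, hp⟩
    · have h3 := hW a ha
      unfold dg at h3
      obtain ⟨x, hx, hne⟩ := Set.exists_ne_of_one_lt_ncard (by omega : 1 < (G.neighborSet a).ncard)
        (SimpleGraph.Walk.cons h p).penultimate
      have hadj : G.Adj a x := hx
      have hx2 : x ∉ (SimpleGraph.Walk.cons h p).support := fun hs =>
        hne (hG.eq_penultimate_of_adj_end hp hadj hs)
      have h4 : (SimpleGraph.Walk.cons h (p.concat hadj)).IsPath := hp.concat hx2 hadj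
      refine ih x (p.concat hadj) h4 ?_
      rw [SimpleGraph.Walk.length_concat]
      omega

private lemma E2_branch {V : Type} [Fintype V] {G : SimpleGraph V} (hG : G.IsAcyclic)
    {W : Set V} (hW : ∀ v, v ∉ W → 3 ≤ dg G v) {z u : V} (h : G.Adj z u) :
    ∃ a ∈ W, ∃ p : G.Walk u a, (SimpleGraph.Walk.cons h p).IsPath := by
  refine E2_ext hG hW h (Fintype.card V) u SimpleGraph.Walk.nil ?_ (by simp)
  rw [SimpleGraph.Walk.cons_isPath_iff]
  refine ⟨SimpleGraph.Walk.IsPath.nil, ?_⟩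
  rw [SimpleGraph.Walk.support_nil, List.mem_singleton]
  exact h.ne

private lemma E2_join {V : Type} {G : SimpleGraph V} (hG : G.IsAcyclic) {z u v a b : V}
    (h₁ : G.Adj z u) (h₂ : G.Adj z v) (huv : u ≠ v) (p₁ : G.Walk u a) (p₂ : G.Walk v b)
    (hp₁ : (SimpleGraph.Walk.cons h₁ p₁).IsPath) (hp₂ : (SimpleGraph.Walk.cons h₂ p₂).IsPath) :
    ((SimpleGraph.Walk.cons h₁ p₁).reverse.append (SimpleGraph.Walk.cons h₂ p₂)).IsPath := by
  rw [hG.isPath_iff_isChain, SimpleGraph.Walk.edges_append, List.isChain_append]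
  refine ⟨(hG.isPath_iff_isChain _).1 hp₁.reverse, (hG.isPath_iff_isChain _).1 hp₂, ?_⟩
  rw [SimpleGraph.Walk.edges_reverse, SimpleGraph.Walk.edges_cons, SimpleGraph.Walk.edges_cons]
  intro x hx y hy
  rw [List.getLast?_reverse] at hx
  simp only [List.head?_cons, Option.mem_def, Option.some.injEq] at hx hy
  subst hx
  subst hy
  intro h0
  rw [Sym2.eq_iff] at h0
  rcases h0 with ⟨_, h0⟩ | ⟨h0, _⟩
  · exact huv h0
  · exact h₂.ne h0

/-- the products along the paths between the nodes in `W` determine the values of the edges -/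
theorem edge_one {V : Type} [Fintype V] {G : SimpleGraph V} (hG : G.IsAcyclic) {W : Set V}
    (hW : ∀ v, v ∉ W → 3 ≤ dg G v) {f : Sym2 V → ℝ} (hf : ∀ e ∈ G.edgeSet, 0 < f e)
    (h : ∀ a ∈ W, ∀ b ∈ W, ∀ p : G.Walk a b, p.IsPath → (p.edges.map f).prod = 1) :
    ∀ e ∈ G.edgeSet, f e = 1 := by
  have hpos : ∀ {a b : V} (p : G.Walk a b), 0 < (p.edges.map f).prod := by
    intro a b p
    refine List.prod_pos fun x hx => ?_
    obtain ⟨e, he, rfl⟩ := List.mem_map.1 hx
    exact hf e (p.edges_subset_edgeSet he)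
  have hjoin : ∀ {z u v a b : V} (h₁ : G.Adj z u) (h₂ : G.Adj z v) (_ : u ≠ v)
      (p₁ : G.Walk u a) (p₂ : G.Walk v b) (_ : a ∈ W) (_ : b ∈ W)
      (_ : (SimpleGraph.Walk.cons h₁ p₁).IsPath) (_ : (SimpleGraph.Walk.cons h₂ p₂).IsPath),
      ((SimpleGraph.Walk.cons h₁ p₁).edges.map f).prod *
        ((SimpleGraph.Walk.cons h₂ p₂).edges.map f).prod = 1 := by
    intro z u v a b h₁ h₂ huv p₁ p₂ ha hb hp₁ hp₂
    have h1 := h a ha b hb _ (E2_join hG h₁ h₂ huv p₁ p₂ hp₁ hp₂)
    rw [SimpleGraph.Walk.edges_append, List.map_append, List.prod_append,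
      SimpleGraph.Walk.edges_reverse, List.map_reverse, List.prod_reverse] at h1
    exact h1
  have hz : ∀ (z a : V), a ∈ W → ∀ q : G.Walk z a, q.IsPath → (q.edges.map f).prod = 1 := by
    intro z a ha q hq
    by_cases hzW : z ∈ W
    · exact h z hzW a ha q hq
    · cases q with
      | nil => exact absurd ha hzW
      | @cons _ u _ h₁ p₁ =>
        obtain ⟨v, w, hv, hw, hvu, hwu, hvw⟩ := E2_three u (hW z hzW)
        obtain ⟨b, hb, p₂, hp₂⟩ := E2_branch hG hW hv
        obtain ⟨c, hc, p₃, hp₃⟩ := E2_branch hG hW hw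
        have e12 := hjoin h₁ hv hvu.symm p₁ p₂ ha hb hq hp₂
        have e13 := hjoin h₁ hw hwu.symm p₁ p₃ ha hc hq hp₃
        have e23 := hjoin hv hw hvw p₂ p₃ hb hc hp₂ hp₃
        have hx1 := hpos (SimpleGraph.Walk.cons h₁ p₁)
        have hx2 := hpos (SimpleGraph.Walk.cons hv p₂)
        have hx3 := hpos (SimpleGraph.Walk.cons hw p₃)
        generalize ((SimpleGraph.Walk.cons h₁ p₁).edges.map f).prod = x1 at *
        generalize ((SimpleGraph.Walk.cons hv p₂).edges.map f).prod = x2 at *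
        generalize ((SimpleGraph.Walk.cons hw p₃).edges.map f).prod = x3 at *
        have h23 : x2 = x3 := by
          have : x1 * x2 = x1 * x3 := by rw [e12, e13]
          exact mul_left_cancel₀ hx1.ne' this
        rw [← h23] at e23
        have h2 : x2 = 1 := by nlinarith
        rw [h2, mul_one] at e12
        exact e12
  intro e
  induction e with
  | _ z u =>
    intro he
    have hadj : G.Adj z u := he
    obtain ⟨a, ha, p, hp⟩ := E2_branch hG hW hadj
    have h1 := hz z a ha _ hp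
    have h2 := hz u a ha p hp.of_cons
    rw [SimpleGraph.Walk.edges_cons, List.map_cons, List.prod_cons, h2, mul_one] at h1
    exact h1

/-- the sums along the paths between the nodes in `W` determine the values of the nodes -/
theorem vert_zero {V K : Type} [Fintype V] [Field K] [CharZero K] {G : SimpleGraph V}
    (hG : G.IsAcyclic) {W : Set V} (hW : ∀ v, v ∉ W → 3 ≤ dg G v) {y : V → K}
    (h : ∀ a ∈ W, ∀ b ∈ W, ∀ p : G.Walk a b, p.IsPath → (p.support.map y).sum = 0) :
    ∀ v, y v = 0 := by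
  have hW0 : ∀ a ∈ W, y a = 0 := by
    intro a ha
    have h1 := h a ha a ha SimpleGraph.Walk.nil SimpleGraph.Walk.IsPath.nil
    simpa using h1
  have hjoin : ∀ {z u v a b : V} (h₁ : G.Adj z u) (h₂ : G.Adj z v) (_ : u ≠ v)
      (p₁ : G.Walk u a) (p₂ : G.Walk v b) (_ : a ∈ W) (_ : b ∈ W)
      (_ : (SimpleGraph.Walk.cons h₁ p₁).IsPath) (_ : (SimpleGraph.Walk.cons h₂ p₂).IsPath),
      ((SimpleGraph.Walk.cons h₁ p₁).support.map y).sum +
        ((SimpleGraph.Walk.cons h₂ p₂).support.map y).sum = y z := by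
    intro z u v a b h₁ h₂ huv p₁ p₂ ha hb hp₁ hp₂
    have h1 := h a ha b hb _ (E2_join hG h₁ h₂ huv p₁ p₂ hp₁ hp₂)
    rw [SimpleGraph.Walk.support_append, List.map_append, List.sum_append,
      SimpleGraph.Walk.support_reverse, List.map_reverse, List.sum_reverse,
      SimpleGraph.Walk.support_cons h₂, List.tail_cons] at h1
    rw [SimpleGraph.Walk.support_cons h₂, List.map_cons, List.sum_cons, add_left_comm, h1,
      add_zero]
  have hz : ∀ (z a : V), a ∈ W → ∀ q : G.Walk z a, q.IsPath →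
      2 * (q.support.map y).sum = y z := by
    intro z a ha q hq
    by_cases hzW : z ∈ W
    · rw [h z hzW a ha q hq, hW0 z hzW, mul_zero]
    · cases q with
      | nil => exact absurd ha hzW
      | @cons _ u _ h₁ p₁ =>
        obtain ⟨v, w, hv, hw, hvu, hwu, hvw⟩ := E2_three u (hW z hzW)
        obtain ⟨b, hb, p₂, hp₂⟩ := E2_branch hG hW hv
        obtain ⟨c, hc, p₃, hp₃⟩ := E2_branch hG hW hw
        have e12 := hjoin h₁ hv hvu.symm p₁ p₂ ha hb hq hp₂
        have e13 := hjoin h₁ hw hwu.symm p₁ p₃ ha hc hq hp₃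
        have e23 := hjoin hv hw hvw p₂ p₃ hb hc hp₂ hp₃
        linear_combination e12 + e13 - e23
  have hadj : ∀ {z u : V} (_ : G.Adj z u), y z = -y u := by
    intro z u hzu
    obtain ⟨a, ha, p, hp⟩ := E2_branch hG hW hzu
    have h1 := hz z a ha _ hp
    have h2 := hz u a ha p hp.of_cons
    rw [SimpleGraph.Walk.support_cons, List.map_cons, List.sum_cons] at h1
    linear_combination h1 - h2
  have hwalk : ∀ {z a : V} (p : G.Walk z a), y a = 0 → y z = 0 := by
    intro z a p
    induction p with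
    | nil => exact id
    | cons hzu _ ih =>
      intro ha
      rw [hadj hzu, ih ha, neg_zero]
  intro z
  by_cases hzW : z ∈ W
  · exact hW0 z hzW
  · obtain ⟨v, w, hv, _⟩ := E2_three z (hW z hzW)
    obtain ⟨b, hb, p₂, _⟩ := E2_branch hG hW hv
    exact hwalk (SimpleGraph.Walk.cons hv p₂) (hW0 b hb)

end Pool.Agent.GSP
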