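import Pool.Agent.GSP.Defs
import Pool.Agent.GSP.H1

set_option autoImplicit false

open Finset

namespace Pool.Agent.GSP

open Pool.Agent.OHG Pool.Agent.GPC

variable {V V' : Type} [Fintype V] [DecidableEq V] [Fintype V'] [DecidableEq V']

private theorem H2_pot {V : Type} {G : SimpleGraph V} (hG : G.IsTree) (σ : V → V → ℤ)
    (hs : ∀ v w, σ v w = 1 ∨ σ v w = -1) (hc : ∀ v w, σ v w = σ w v) :
    ∃ ε : V → ℤ, (∀ v, ε v = 1 ∨ ε v = -1) ∧ ∀ v w, G.Adj v w → σ v w = ε v * ε w := by
  classical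
  obtain ⟨v₀⟩ := hG.connected.nonempty
  choose p hp _ using hG.existsUnique_path v₀
  have hlist : ∀ l : List G.Dart, (l.map fun d => σ d.fst d.snd).prod = 1 ∨
      (l.map fun d => σ d.fst d.snd).prod = -1 := by
    intro l
    induction l with
    | nil => left; simp
    | cons a l ih =>
      rw [List.map_cons, List.prod_cons]
      rcases hs a.fst a.snd with h1 | h1 <;> rcases ih with h2 | h2 <;> rw [h1, h2] <;> simp
  set ε : V → ℤ := fun v => ((p v).darts.map fun d => σ d.fst d.snd).prod with hε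
  have hε1 : ∀ v, ε v = 1 ∨ ε v = -1 := fun v => hlist _
  have hεsq : ∀ v, ε v * ε v = 1 := by
    intro v
    rcases hε1 v with h | h <;> rw [h] <;> norm_num
  have hstep : ∀ v w, (h : G.Adj v w) → v ∈ (p w).support → ε w = ε v * σ v w := by
    intro v w h hv
    have e := hG.isAcyclic.path_concat (hp v) (hp w) h hv
    simp only [hε]
    rw [e, SimpleGraph.Walk.darts_concat, List.concat_eq_append, List.map_append, List.prod_append]
    simp
  refine ⟨ε, hε1, fun v w h => ?_⟩
  by_cases hv : v ∈ (p w).support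
  · rw [hstep v w h hv, ← mul_assoc, hεsq, one_mul]
  · have hw := hG.isAcyclic.mem_support_of_ne_mem_support_of_adj_of_isPath (hp v) (hp w) h hv
    rw [hstep w v h.symm hw, hc v w]
    linear_combination (-σ w v) * hεsq w

private theorem H2_symm (D : Data V) (v w : V) : (lkq D)⁻¹ v w = (lkq D)⁻¹ w v := by
  have h1 : (lkq D).transpose = lkq D := by
    ext a b
    simp [lkq, lk_comm D a b]
  have h2 := Matrix.transpose_nonsing_inv (lkq D)
  rw [h1] at h2
  calc (lkq D)⁻¹ v w = (lkq D)⁻¹.transpose w v := rfl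
    _ = (lkq D)⁻¹ w v := by rw [h2]

/-- the linking numbers are equal up to the signs of the nodes -/
theorem signs {D : Data V} {D' : Data V'} (h : D.IsGraph) (h' : D'.IsGraph) (f : V ≃ V')
    (hf : ∀ v w, D'.graph.Adj (f v) (f w) ↔ D.graph.Adj v w)
    (hq : ∀ v, (lkq D')⁻¹ (f v) (f v) = (lkq D)⁻¹ v v)
    (hw : ∀ v w, D.graph.Adj v w → ((lkq D')⁻¹ (f v) (f w)) ^ 2 = ((lkq D)⁻¹ v w) ^ 2) :
    ∃ ε : V → ℤ, (∀ v, ε v = 1 ∨ ε v = -1) ∧
      (∀ v w, D'.lk (f v) (f w) = ε v * ε w * D.lk v w) ∧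
      ∀ v w, D.graph.Adj v w →
        D'.wt (f v) (f w) * D'.wt (f w) (f v) = ε v * ε w * (D.wt v w * D.wt w v) := by
  classical
  set Q := (lkq D)⁻¹ with hQ
  set Q' := (lkq D')⁻¹ with hQ'
  obtain ⟨ε, hε, hσ⟩ := H2_pot h.tree (fun v w => if Q' (f v) (f w) = Q v w then (1 : ℤ) else -1)
    (fun v w => by by_cases hc : Q' (f v) (f w) = Q v w <;> simp [hc])
    (fun v w => by
      have e1 : Q' (f v) (f w) = Q' (f w) (f v) := H2_symm D' _ _
      have e2 : Q v w = Q w v := H2_symm D _ _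
      simp only [e1, e2])
  have hsq : ∀ v, (ε v : ℚ) * ε v = 1 := by
    intro v
    rcases hε v with h1 | h1 <;> rw [h1] <;> norm_num
  have hsqz : ∀ v, ε v * ε v = 1 := by
    intro v
    rcases hε v with h1 | h1 <;> rw [h1] <;> norm_num
  -- the inverse matrices
  have hall : ∀ v w, Q' (f v) (f w) = (ε v : ℚ) * ε w * Q v w := by
    intro v w
    by_cases hvw : v = w
    · subst hvw
      rw [hq, hsq, one_mul]
    · by_cases ha : D.graph.Adj v w
      · have h1 := hσ v w ha
        have h2 := hw v w ha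
        by_cases hc : Q' (f v) (f w) = Q v w
        · simp only [hc, if_true] at h1
          have h3 : (ε v : ℚ) * ε w = 1 := by exact_mod_cast h1.symm
          rw [hc, h3, one_mul]
        · simp only [hc, if_false] at h1
          have h3 : (ε v : ℚ) * ε w = -1 := by exact_mod_cast h1.symm
          rw [h3]
          rcases sq_eq_sq_iff_eq_or_eq_neg.mp h2 with h4 | h4
          · exact absurd h4 hc
          · rw [h4]; ring
      · have h1 : Q' (f v) (f w) = 0 := inv_off h' (fun he => hvw (f.injective he))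
          (fun he => ha ((hf v w).mp he))
        have h2 : Q v w = 0 := inv_off h hvw ha
        rw [h1, h2, mul_zero]
  -- the matrices
  have hdet : IsUnit (lkq D).det := isUnit_iff_ne_zero.mpr (lkq_det h)
  have hdet' : IsUnit (lkq D').det := isUnit_iff_ne_zero.mpr (lkq_det h')
  set M : Matrix V V ℚ := (lkq D').submatrix f f with hM
  have hMinv : M⁻¹ = Q'.submatrix f f := by
    rw [hM, Matrix.inv_submatrix_equiv]
  have hMdet : IsUnit M.det := by
    rw [hM, Matrix.det_submatrix_equiv_self]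
    exact hdet'
  set B : Matrix V V ℚ := Matrix.of fun v w => (ε v : ℚ) * ε w * lkq D v w with hB
  have hBM : B * M⁻¹ = 1 := by
    ext v w
    rw [Matrix.mul_apply, hMinv]
    have e1 : ∀ u, B v u * (Q'.submatrix f f) u w = (ε v : ℚ) * ε w * (lkq D v u * Q u w) := by
      intro u
      rw [Matrix.submatrix_apply, hall u w]
      simp only [hB, Matrix.of_apply]
      linear_combination ((ε v : ℚ) * ε w * lkq D v u * Q u w) * hsq u
    rw [Finset.sum_congr rfl fun u _ => e1 u, ← Finset.mul_sum, ← Matrix.mul_apply,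
      Matrix.mul_nonsing_inv _ hdet]
    by_cases hvw : v = w
    · subst hvw
      rw [Matrix.one_apply_eq, mul_one, hsq]
    · rw [Matrix.one_apply_ne hvw, mul_zero]
  have hMB : M = B := by
    have h1 := Matrix.inv_eq_left_inv hBM
    rw [Matrix.nonsing_inv_nonsing_inv M hMdet] at h1
    exact h1
  have hlk : ∀ v w, D'.lk (f v) (f w) = ε v * ε w * D.lk v w := by
    intro v w
    have h1 : M v w = B v w := by rw [hMB]
    simp only [hM, hB, Matrix.submatrix_apply, Matrix.of_apply, lkq] at h1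
    exact_mod_cast h1
  refine ⟨ε, hε, hlk, fun v w ha => ?_⟩
  have h1 : Q v w = -1 / ((D.wt v w * D.wt w v - D.lk v w : ℤ) : ℚ) := inv_adj h ha
  have h2 : Q' (f v) (f w) =
      -1 / ((D'.wt (f v) (f w) * D'.wt (f w) (f v) - D'.lk (f v) (f w) : ℤ) : ℚ) :=
    inv_adj h' ((hf v w).mpr ha)
  have h3 := hall v w
  rw [h1, h2] at h3
  set x : ℚ := ((D.wt v w * D.wt w v - D.lk v w : ℤ) : ℚ) with hx
  set x' : ℚ := ((D'.wt (f v) (f w) * D'.wt (f w) (f v) - D'.lk (f v) (f w) : ℤ) : ℚ) with hx'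
  have hee : ((ε v : ℚ) * ε w) * ((ε v : ℚ) * ε w) = 1 := by
    linear_combination (ε w : ℚ) * ε w * hsq v + hsq w
  have h4 : x'⁻¹ = (ε v : ℚ) * ε w * x⁻¹ := by
    rw [div_eq_mul_inv, div_eq_mul_inv] at h3
    linear_combination -h3
  have h5 : x' = (ε v : ℚ) * ε w * x := by
    have h6 : x' = ((ε v : ℚ) * ε w * x⁻¹)⁻¹ := by rw [← h4, inv_inv]
    rw [h6, mul_inv, inv_inv, inv_eq_of_mul_eq_one_right hee]
  have h7 : (D'.wt (f v) (f w) * D'.wt (f w) (f v) - D'.lk (f v) (f w) : ℤ) =
      ε v * ε w * (D.wt v w * D.wt w v - D.lk v w) := by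
    rw [hx, hx'] at h5
    exact_mod_cast h5
  rw [hlk v w] at h7
  linear_combination h7

end Pool.Agent.GSP
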