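import Pool.Agent.GSP.Defs

set_option autoImplicit false

open Finset

namespace Pool.Agent.GSP

private theorem h4_reach {ι : Type} {V : ι → Type} {G : ∀ i, SimpleGraph (V i)}
    {H : SimpleGraph (Σ i, V i)} (hH : H ≤ sigG G) {x y : Σ i, V i} (h : H.Reachable x y) :
    ∃ b : V x.1, y = ⟨x.1, b⟩ ∧ (H.comap (Sigma.mk x.1)).Reachable x.2 b := by
  obtain ⟨p⟩ := h
  induction p with
  | nil => exact ⟨_, rfl, SimpleGraph.Reachable.refl _⟩
  | @cons u v w hadj p ih =>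
    obtain ⟨i, a, b, h1, h2, h3⟩ := hH hadj
    subst h1 h2
    obtain ⟨c, h4, h5⟩ := ih
    refine ⟨c, h4, ?_⟩
    exact SimpleGraph.Reachable.trans (SimpleGraph.Adj.reachable (by
      rw [SimpleGraph.comap_adj]
      exact hadj)) h5

private theorem h4_reach' {ι : Type} {V : ι → Type} {G : ∀ i, SimpleGraph (V i)}
    {i : ι} {v w : V i} (h : (G i).Reachable v w) : (sigG G).Reachable ⟨i, v⟩ ⟨i, w⟩ := by
  obtain ⟨p⟩ := h
  induction p with
  | nil => exact SimpleGraph.Reachable.refl _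
  | @cons u v w hadj p ih =>
    exact SimpleGraph.Reachable.trans (SimpleGraph.Adj.reachable ⟨i, u, v, rfl, rfl, hadj⟩) ih

private theorem h4_map {A B : Type} {G : SimpleGraph A} {G' : SimpleGraph B} {σ : A → B}
    (h : ∀ x y, G.Adj x y → G'.Adj (σ x) (σ y)) {x y : A} (hr : G.Reachable x y) :
    G'.Reachable (σ x) (σ y) := by
  obtain ⟨p⟩ := hr
  induction p with
  | nil => exact SimpleGraph.Reachable.refl _
  | cons hadj p ih => exact SimpleGraph.Reachable.trans (SimpleGraph.Adj.reachable (h _ _ hadj)) ih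

private theorem h4_fst {ι : Type} {V : ι → Type} {G : ∀ i, SimpleGraph (V i)}
    {x y : Σ i, V i} (h : (sigG G).Reachable x y) : y.1 = x.1 := by
  obtain ⟨b, h1, -⟩ := h4_reach le_rfl h
  rw [h1]

/-- an isomorphism of disjoint unions of connected graphs -/
theorem sig_iso {ι ι' : Type} {V : ι → Type} {V' : ι' → Type} {G : ∀ i, SimpleGraph (V i)}
    {G' : ∀ i, SimpleGraph (V' i)} (hG : ∀ i, (G i).Connected) (hG' : ∀ i, (G' i).Connected)
    (σ : (Σ i, V i) ≃ Σ i, V' i) (h : ∀ x y, (sigG G').Adj (σ x) (σ y) ↔ (sigG G).Adj x y) :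
    ∃ (e : ι ≃ ι') (f : ∀ i, V i ≃ V' (e i)), ∀ i v, σ ⟨i, v⟩ = ⟨e i, f i v⟩ := by
  have n1 : ∀ i, Nonempty (V i) := fun i => (hG i).nonempty
  have n2 : ∀ i, Nonempty (V' i) := fun i => (hG' i).nonempty
  have hs : ∀ x y, (sigG G').Adj x y → (sigG G).Adj (σ.symm x) (σ.symm y) := by
    intro x y hxy
    rw [← h, Equiv.apply_symm_apply, Equiv.apply_symm_apply]
    exact hxy
  have r1 : ∀ i (v w : V i), (σ ⟨i, v⟩).1 = (σ ⟨i, w⟩).1 := fun i v w =>
    h4_fst (h4_map (fun x y hxy => (h x y).2 hxy) (h4_reach' ((hG i).preconnected w v)))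
  have r2 : ∀ i (v w : V' i), (σ.symm ⟨i, v⟩).1 = (σ.symm ⟨i, w⟩).1 := fun i v w =>
    h4_fst (h4_map hs (h4_reach' ((hG' i).preconnected w v)))
  let e0 : ι → ι' := fun i => (σ ⟨i, Classical.choice (n1 i)⟩).1
  let e1 : ι' → ι := fun i => (σ.symm ⟨i, Classical.choice (n2 i)⟩).1
  have hl : ∀ i, e1 (e0 i) = i := by
    intro i
    have h1 := r2 (e0 i) (Classical.choice (n2 (e0 i))) (σ ⟨i, Classical.choice (n1 i)⟩).2
    show (σ.symm ⟨e0 i, Classical.choice (n2 (e0 i))⟩).1 = i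
    rw [h1]
    have h2 : (⟨e0 i, (σ ⟨i, Classical.choice (n1 i)⟩).2⟩ : Σ i, V' i) =
      σ ⟨i, Classical.choice (n1 i)⟩ := rfl
    rw [h2, Equiv.symm_apply_apply]
  have hr : ∀ i, e0 (e1 i) = i := by
    intro i
    have h1 := r1 (e1 i) (Classical.choice (n1 (e1 i))) (σ.symm ⟨i, Classical.choice (n2 i)⟩).2
    show (σ ⟨e1 i, Classical.choice (n1 (e1 i))⟩).1 = i
    rw [h1]
    have h2 : (⟨e1 i, (σ.symm ⟨i, Classical.choice (n2 i)⟩).2⟩ : Σ i, V i) =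
      σ.symm ⟨i, Classical.choice (n2 i)⟩ := rfl
    rw [h2, Equiv.apply_symm_apply]
  let e : ι ≃ ι' := ⟨e0, e1, hl, hr⟩
  have hf : ∀ i (v : V i), ∃ w : V' (e i), σ ⟨i, v⟩ = ⟨e i, w⟩ := by
    intro i v
    have h1 : (σ ⟨i, v⟩).1 = e i := r1 i v _
    rcases h2 : σ ⟨i, v⟩ with ⟨j, w⟩
    rw [h2] at h1
    dsimp only at h1
    subst h1
    exact ⟨w, rfl⟩
  choose f hf using hf
  refine ⟨e, fun i => Equiv.ofBijective (f i) ⟨?_, ?_⟩, fun i v => hf i v⟩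
  · intro v w hvw
    have h1 : σ ⟨i, v⟩ = σ ⟨i, w⟩ := by rw [hf, hf, hvw]
    have h2 := σ.injective h1
    rw [Sigma.mk.injEq] at h2
    exact eq_of_heq h2.2
  · intro w
    rcases h1 : σ.symm ⟨e i, w⟩ with ⟨j, v⟩
    have h2 : σ ⟨j, v⟩ = ⟨e i, w⟩ := by rw [← h1, Equiv.apply_symm_apply]
    have h3 : e j = e i := by
      have := hf j v
      rw [h2] at this
      exact (congrArg Sigma.fst this).symm
    have h4 := e.injective h3
    subst h4
    refine ⟨v, ?_⟩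
    rw [hf, Sigma.mk.injEq] at h2
    exact eq_of_heq h2.2

/-- the adjacency in one part of a disjoint union -/
theorem sigG_adj {ι : Type} {V : ι → Type} {G : ∀ i, SimpleGraph (V i)} {i : ι} {v w : V i} :
    (sigG G).Adj ⟨i, v⟩ ⟨i, w⟩ ↔ (G i).Adj v w := by
  constructor
  · rintro ⟨j, a, b, h1, h2, h3⟩
    rw [Sigma.mk.injEq] at h1 h2
    obtain ⟨rfl, h1⟩ := h1
    obtain ⟨-, h2⟩ := h2
    rw [eq_of_heq h1, eq_of_heq h2]
    exact h3
  · intro h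
    exact ⟨i, v, w, rfl, rfl, h⟩

theorem sigG_acyclic {ι : Type} {V : ι → Type} {G : ∀ i, SimpleGraph (V i)}
    (hG : ∀ i, (G i).IsAcyclic) : (sigG G).IsAcyclic := by
  rw [SimpleGraph.isAcyclic_iff_forall_adj_isBridge]
  rintro x y hxy
  obtain ⟨i, a, b, h1, h2, h3⟩ := hxy
  subst h1 h2
  rw [SimpleGraph.isBridge_iff]
  intro hr
  obtain ⟨c, h4, h5⟩ := h4_reach (G := G) (SimpleGraph.deleteEdges_le _) hr
  rw [Sigma.mk.injEq] at h4
  obtain ⟨-, h4⟩ := h4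
  rw [heq_eq_eq] at h4
  subst h4
  have h6 := SimpleGraph.isAcyclic_iff_forall_adj_isBridge.1 (hG i) h3
  rw [SimpleGraph.isBridge_iff] at h6
  apply h6
  refine h4_map (σ := fun x => x) ?_ h5
  intro u v huv
  rw [SimpleGraph.comap_adj, SimpleGraph.deleteEdges_adj] at huv
  rw [SimpleGraph.deleteEdges_adj]
  refine ⟨sigG_adj.1 huv.1, fun h8 => huv.2 ?_⟩
  rw [Set.mem_singleton_iff, Sym2.eq_iff] at h8 ⊢
  rcases h8 with ⟨rfl, rfl⟩ | ⟨rfl, rfl⟩
  · exact Or.inl ⟨rfl, rfl⟩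
  · exact Or.inr ⟨rfl, rfl⟩

end Pool.Agent.GSP
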