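import Pool.Agent.SLR.Defs
import Mathlib

/-!
# Definitions: separation of graph homology spheres with at most two leaves at each node
-/

set_option autoImplicit false

open Finset MeasureTheory

namespace Pool.Agent.GSP

open Pool.Agent.OHG Pool.Agent.GPC

/-! ### the functions of the nodes and their moments -/

/-- The function of a node with the set `S` of leaves and the valence `k + 2`, for `r > 0`. -/
noncomputable def nodeR (S : Finset ℕ) (k : ℕ) (r : ℝ) : ℝ :=
  (∏ p ∈ S, Real.sinh (r / (2 * p)) / (r / (2 * p))) * ((r / 2) / Real.sinh (r / 2)) ^ k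

/-- The moments of `nodeR` in `ℝ³`, without the factor `4 π`. -/
noncomputable def mu (S : Finset ℕ) (k j : ℕ) : ℝ :=
  ∫ r in Set.Ioi (0 : ℝ), r ^ (2 + 2 * j) * nodeR S k r

/-- The normalised moments. -/
noncomputable def nm (S : Finset ℕ) (k j : ℕ) : ℝ := mu S k j / mu S k 0

/-- The sets of leaves which we consider. -/
structure IsLeaf (S : Finset ℕ) : Prop where
  two_le : ∀ p ∈ S, 2 ≤ p
  coprime : ∀ p ∈ S, ∀ q ∈ S, p ≠ q → Nat.Coprime p q
  card_le : S.card ≤ 2

/-! ### Galois conjugation of polynomials in `π` with cyclotomic coefficients -/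

/-- `exp (2 π i s / N)`. -/
noncomputable def zt (N : ℕ) (s : ℤ) : ℂ := Complex.exp (2 * Real.pi * Complex.I * s / N)

/-- The sign `± 1` with `i ^ s = ± i`, for odd `s`. -/
noncomputable def chi (s : ℤ) : ℂ := zt 4 s / Complex.I

/-- The value at `(exp (2 π i / N), π)`; the polynomials are polynomials in the second variable with
coefficients which are polynomials in the first. -/
noncomputable def ev (N : ℕ) : Polynomial (Polynomial ℚ) →+* ℂ :=
  Polynomial.eval₂RingHom (Polynomial.eval₂RingHom (algebraMap ℚ ℂ) (zt N 1)) (Real.pi : ℂ)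

/-- The value at `(exp (2 π i s / N), χ(s) X)`. -/
noncomputable def gn (N : ℕ) (s : ℤ) : Polynomial (Polynomial ℚ) →+* RatFunc ℂ :=
  Polynomial.eval₂RingHom (Polynomial.eval₂RingHom (algebraMap ℚ (RatFunc ℂ))
    (RatFunc.C (zt N s))) (RatFunc.C (chi s) * RatFunc.X)

/-- `y` is the conjugate of `x`. -/
def Gal (N : ℕ) (s : ℤ) (x : ℂ) (y : RatFunc ℂ) : Prop :=
  ∃ A B : Polynomial (Polynomial ℚ), gn N s B ≠ 0 ∧ x * ev N B = ev N A ∧ y * gn N s B = gn N s A

/-- The embedding of the real polynomials. -/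
noncomputable def toC : Polynomial ℝ →+* RatFunc ℂ :=
  (algebraMap (Polynomial ℂ) (RatFunc ℂ)).comp (Polynomial.mapRingHom (algebraMap ℝ ℂ))

/-! ### the moments as polynomials in `π` -/

/-- `cot (π x)`. -/
noncomputable def ct (x : ℝ) : ℝ := Real.cos (Real.pi * x) / Real.sin (Real.pi * x)

/-- The polynomials with `∑ (n + z) ^ (-r) = π ^ r P_r (cot π z)` for `r ≥ 2`. -/
noncomputable def cotP : ℕ → Polynomial ℚ
  | 0 => 0
  | 1 => Polynomial.X
  | (r + 2) => Polynomial.C (1 / (r + 1 : ℚ)) * (1 + Polynomial.X ^ 2) *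
      Polynomial.derivative (cotP (r + 1))

/-- The polynomial with the value `(n + k - 1).choose (k - 1)` at `n + k / 2`. -/
noncomputable def binP (k : ℕ) : Polynomial ℚ :=
  Polynomial.C (1 / ((k - 1).factorial : ℚ)) *
    ∏ i ∈ range (k - 1), (Polynomial.X + Polynomial.C ((k : ℚ) / 2 - (i + 1)))

/-- `½ ∑ ± 1 / p`, with the sign `+` for the members of `T`. -/
def al (S T : Finset ℕ) : ℚ := ((∑ p ∈ T, (1 : ℚ) / p) - ∑ p ∈ S \ T, (1 : ℚ) / p) / 2

/-- The exponent of `r` in the integral for the moment. -/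
def ex (S : Finset ℕ) (k j : ℕ) : ℕ := k + 2 + 2 * j - S.card

/-- `π ^ (-r) ∑ x ^ (-r)` over the non-zero `x` in `ℤ + k / 2`, for even `r > 0`. -/
noncomputable def sg (k r : ℕ) : ℚ :=
  if Odd k then (cotP r).eval 0 else (-1) ^ (r / 2 + 1) * 2 ^ r * bernoulli r / r.factorial

/-- The moments as polynomials in `π`, conjugated by `s`. -/
noncomputable def YY (S : Finset ℕ) (k j : ℕ) (s : ℤ) : Polynomial ℝ :=
  if S = ∅ then
    Polynomial.C (((k + 2 + 2 * j).factorial : ℝ) / 2) * ∑ i ∈ range k,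
      Polynomial.C ((((binP k).coeff i * sg k (k + 3 + 2 * j - i) : ℚ)) : ℝ) *
        Polynomial.X ^ (k + 3 + 2 * j - i)
  else
    Polynomial.C ((∏ p ∈ S, (p : ℝ)) * ((ex S k j).factorial : ℝ) / 2) *
      ∑ T ∈ S.powerset, (-1) ^ (S \ T).card * ∑ i ∈ range k,
        Polynomial.C (((Polynomial.taylor (al S T) (binP k)).coeff i : ℚ) : ℝ) *
          Polynomial.C ((-1) ^ (ex S k j + 1 - i) *
            Polynomial.eval (ct (s * (al S T : ℝ) - k / 2))
              ((cotP (ex S k j + 1 - i)).map (algebraMap ℚ ℝ))) *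
          Polynomial.X ^ (ex S k j + 1 - i)

/-- The normalised conjugate moments. -/
noncomputable def mm (S : Finset ℕ) (k j : ℕ) (s : ℤ) : RatFunc ℂ :=
  toC (YY S k j s) / toC (YY S k 0 s)

/-! ### the lowest coefficients -/

/-- The lowest coefficient. -/
noncomputable def bb (S : Finset ℕ) (k j : ℕ) (s : ℤ) : ℝ :=
  (YY S k j s).coeff (2 * j + 4 - S.card)

noncomputable def eta (p : ℕ) (s : ℤ) : ℝ := Real.cos (Real.pi * s / p)

noncomputable def xi (S : Finset ℕ) (p k : ℕ) (s : ℤ) : ℝ :=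
  (-1) ^ (k + 1) * ∏ q ∈ S.erase p, Real.cos (Real.pi * s / q)

noncomputable def FF (S : Finset ℕ) (p k : ℕ) (s : ℤ) : ℝ :=
  4 * (1 + xi S p k s * eta p s) / (xi S p k s + eta p s) ^ 2

noncomputable def HH (S : Finset ℕ) (p k : ℕ) (s : ℤ) : ℝ :=
  Real.sin (Real.pi * s / p) ^ 2 * (∏ q ∈ S.erase p, Real.sin (Real.pi * s / q) ^ 2) /
    (xi S p k s + eta p s) ^ 4

/-- The factor of the second moment. -/
def be (S : Finset ℕ) (k : ℕ) : ℚ :=
  if S.card = 2 then (k + 1) * (k + 2) else (k + 2) * (k + 3) / 2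

/-! ### the formal integral -/

section formal

variable {V R : Type} [Fintype V] [DecidableEq V] [Field R]

/-- The linear functional with the value `∏ m_v(j_v)` at the monomial `y ^ j`. -/
noncomputable def umb (m : V → ℕ → R) : MvPolynomial V R →ₗ[R] R :=
  (MvPolynomial.basisMonomials V R).constr R fun j => ∏ v, m v (j v)

/-- `exp (q t y_v)`. -/
noncomputable def nodeW (q : R) (v : V) : PowerSeries (MvPolynomial V R) :=
  PowerSeries.mk fun n => MvPolynomial.C (q ^ n / n.factorial) * MvPolynomial.X v ^ n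

/-- `∑ 4 ^ b (t ^ 2 w y_u y_v) ^ b / (2 b + 1)!` for the edge `e = uv`. -/
noncomputable def edgeW (w : R) (e : Sym2 V) : PowerSeries (MvPolynomial V R) :=
  PowerSeries.mk fun n => if Even n then
    MvPolynomial.C ((4 * w) ^ (n / 2) / (n + 1).factorial) *
      (∏ x ∈ e.toFinset, MvPolynomial.X x) ^ (n / 2) else 0

/-- The product over the nodes in `A` and the edges in `E`. -/
noncomputable def WW (A : Finset V) (E : Finset (Sym2 V)) (q : V → R) (w : Sym2 V → R) :
    PowerSeries (MvPolynomial V R) :=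
  (∏ v ∈ A, nodeW (q v) v) * ∏ e ∈ E, edgeW (w e) e

/-- The formal integral, with the factor `f`. -/
noncomputable def ZI (A : Finset V) (E : Finset (Sym2 V)) (q : V → R) (w : Sym2 V → R)
    (m : V → ℕ → R) (f : MvPolynomial V R) : PowerSeries R :=
  PowerSeries.mk fun n => umb m (f * PowerSeries.coeff n (WW A E q w))

/-- The formal integral. -/
noncomputable def ZZ (E : Finset (Sym2 V)) (q : V → R) (w : Sym2 V → R) (m : V → ℕ → R) :
    PowerSeries R :=
  ZI univ E q w m 1

/-- The defect `Z¹¹ Z⁰⁰ - Z¹⁰ Z⁰¹` for the change of the moments of `v` to `a` and of those of `w`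
to `b`. -/
noncomputable def MM (E : Finset (Sym2 V)) (q : V → R) (w : Sym2 V → R) (m : V → ℕ → R)
    (x y : V) (a b : ℕ → R) : PowerSeries R :=
  ZZ E q w (Function.update (Function.update m x a) y b) * ZZ E q w m -
    ZZ E q w (Function.update m x a) * ZZ E q w (Function.update m y b)

/-- The variance. -/
def va (m : ℕ → R) : R := m 2 - m 1 ^ 2

/-- The third cumulant. -/
def cu (m : ℕ → R) : R := m 3 - 3 * m 1 * m 2 + 2 * m 1 ^ 3

end formal

/-! ### the data of a forest -/

/-- The number `p` is big compared to its common divisors with the members of `Q`: they divide a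
divisor `g` of `p` with `3 φ (2 g) ≤ φ (2 p)`, and `6 ≤ φ (2 p)`. -/
def Big (p : ℕ) (Q : Set ℕ) : Prop :=
  6 ≤ Nat.totient (2 * p) ∧
    ∃ g, g ∣ p ∧ 3 * Nat.totient (2 * g) ≤ Nat.totient (2 * p) ∧ ∀ q ∈ Q, Nat.gcd p q ∣ g

/-- The number of the neighbours. -/
noncomputable def dg {V : Type} (G : SimpleGraph V) (v : V) : ℕ := (G.neighborSet v).ncard

/-- The edges. -/
noncomputable def eds {V : Type} [Finite V] (G : SimpleGraph V) : Finset (Sym2 V) :=
  (Set.toFinite G.edgeSet).toFinset

/-- The forest of the nodes, the sets of leaves, the diagonal entries `q` and the squares `w` of the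
other entries of the inverse of the linking matrix. -/
structure Dat (V : Type) where
  G : SimpleGraph V
  S : V → Finset ℕ
  q : V → ℚ
  w : Sym2 V → ℚ

namespace Dat

variable {V : Type}

/-- The valence minus two. -/
noncomputable def k (D : Dat V) (v : V) : ℕ := (D.S v).card + dg D.G v - 2

structure Ok (D : Dat V) : Prop where
  acyclic : D.G.IsAcyclic
  leaf : ∀ v, IsLeaf (D.S v)
  three_le : ∀ v, 3 ≤ (D.S v).card + dg D.G v
  w_pos : ∀ e ∈ D.G.edgeSet, 0 < D.w e
  priv : ∀ v, (D.S v).Nonempty → ∃ p ∈ D.S v, Big p {q | ∃ x, x ≠ v ∧ q ∈ D.S x}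

/-- The diagonal entries at the nodes with leaves are not `0`. -/
def NZ (D : Dat V) : Prop := ∀ v, (D.S v).Nonempty → D.q v ≠ 0

/-- The formal integral of the forest. -/
noncomputable def Z [Fintype V] [DecidableEq V] (D : Dat V) {R : Type} [Field R]
    (m : V → ℕ → R) : PowerSeries R :=
  ZZ (eds D.G) (fun v => (D.q v : R)) (fun e => (D.w e : R)) m

end Dat

/-! ### diagrams -/

/-- The rational matrix of the linking numbers. -/
noncomputable def lkq {V : Type} [Fintype V] [DecidableEq V] (D : Data V) : Matrix V V ℚ :=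
  Matrix.of fun v w => (D.lk v w : ℚ)

/-- The squares of the entries of a symmetric matrix. -/
def sqw {V : Type} (Q : Matrix V V ℚ) (e : Sym2 V) : ℚ :=
  Sym2.lift ⟨fun u v => Q u v * Q v u, fun _ _ => mul_comm _ _⟩ e

/-- The disjoint union of graphs. -/
def sigG {ι : Type} {V : ι → Type} (G : ∀ i, SimpleGraph (V i)) : SimpleGraph (Σ i, V i) where
  Adj x y := ∃ i a b, x = ⟨i, a⟩ ∧ y = ⟨i, b⟩ ∧ (G i).Adj a b
  symm := ⟨fun _ _ ⟨i, a, b, h1, h2, h3⟩ => ⟨i, b, a, h2, h1, h3.symm⟩⟩
  loopless := ⟨fun x ⟨i, a, b, h1, h2, h3⟩ => by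
    subst h1
    rw [Sigma.mk.injEq] at h2
    obtain ⟨_, h2⟩ := h2
    rw [heq_eq_eq] at h2
    exact h3.ne h2⟩

/-- The data of a prime diagram. -/
noncomputable def datOf (P : Prime) : Dat (Fin (P.n + 1)) where
  G := P.D.graph
  S := P.D.leaf
  q v := (lkq P.D)⁻¹ v v
  w := sqw (lkq P.D)⁻¹

/-- The data of a family of prime diagrams. -/
noncomputable def famOf {ι : Type} [DecidableEq ι] (P : ι → Prime) :
    Dat (Σ i, Fin ((P i).n + 1)) where
  G := sigG fun i => (P i).D.graph
  S x := (P x.1).D.leaf x.2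
  q x := (lkq (P x.1).D)⁻¹ x.2 x.2
  w := sqw (Matrix.blockDiagonal' fun i => (lkq (P i).D)⁻¹)

/-- The families of diagrams which we separate: there are at most two leaves at every node, and every
node with leaves has a leaf which is big compared to its common divisors with the leaves of the other
nodes of the family. -/
structure Cls {ι : Type} (P : ι → Prime) : Prop where
  card_le : ∀ i v, ((P i).D.leaf v).card ≤ 2
  priv : ∀ i v, ((P i).D.leaf v).Nonempty → ∃ p ∈ (P i).D.leaf v,
    Big p {q | ∃ j x, (⟨j, x⟩ : Σ j, Fin ((P j).n + 1)) ≠ ⟨i, v⟩ ∧ q ∈ (P j).D.leaf x}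

/-- The diagonal entries of the inverse of the matrix of the linking numbers are not `0` at the
nodes with leaves. -/
def Reg (P : Prime) : Prop := ∀ v, (P.D.leaf v).Nonempty → (lkm P.D)⁻¹ v v ≠ 0

/-- Two diagrams are equal up to the choice of the signs: the simultaneous change of the signs of a
node and of the weight of an edge at this node does not change the manifold. -/
def Iso (P P' : Prime) : Prop :=
  ∃ (f : Fin (P.n + 1) ≃ Fin (P'.n + 1)) (η : Fin (P.n + 1) → Fin (P.n + 1) → ℤ),
    (∀ v w, P'.D.graph.Adj (f v) (f w) ↔ P.D.graph.Adj v w) ∧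
    (∀ v, P'.D.leaf (f v) = P.D.leaf v) ∧ (∀ v w, η v w = 1 ∨ η v w = -1) ∧
    (∀ v w, P'.D.wt (f v) (f w) = η v w * P.D.wt v w) ∧
    ∀ v, P'.D.sgn (f v) = P.D.sgn v * ∏ w ∈ P.D.nbr v, η v w

end Pool.Agent.GSP
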