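import Pool.Agent.GSP.Defs
import Pool.Agent.GSP.A4

set_option autoImplicit false

open PowerSeries Finset MeasureTheory

namespace Pool.Agent.GSP

theorem nm_zero {S : Finset ℕ} (hS : IsLeaf S) {k : ℕ} (hk : 1 ≤ k) : nm S k 0 = 1 := by
  exact div_self (mu_pos hS hk 0).ne'

private theorem B6_nodeR_pos {S : Finset ℕ} (hS : IsLeaf S) (k : ℕ) {r : ℝ} (hr : 0 < r) :
    0 < nodeR S k r := by
  unfold nodeR
  apply mul_pos
  · apply Finset.prod_pos
    intro p hp
    have hp2 := hS.two_le p hp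
    have hp0 : (0 : ℝ) < (p : ℝ) := by
      have : 0 < p := by omega
      exact_mod_cast this
    have hx : 0 < r / (2 * (p : ℝ)) := by positivity
    exact div_pos (Real.sinh_pos_iff.2 hx) hx
  · apply pow_pos
    have hx : 0 < r / 2 := by positivity
    exact div_pos hx (Real.sinh_pos_iff.2 hx)

/-- the variance is positive -/
theorem va_nm_pos {S : Finset ℕ} (hS : IsLeaf S) {k : ℕ} (hk : 1 ≤ k) :
    0 < va fun j => nm S k j := by
  have h0 := mu_pos hS hk 0
  obtain ⟨c, hc⟩ : ∃ c : ℝ, c = mu S k 1 / mu S k 0 := ⟨_, rfl⟩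
  have i0 := mu_integrable hS hk 0
  have i1 := mu_integrable hS hk 1
  have i2 := mu_integrable hS hk 2
  have hfun : (fun r : ℝ => (r ^ 2 - c) ^ 2 * (r ^ 2 * nodeR S k r)) =
      (fun r : ℝ => r ^ (2 + 2 * 2) * nodeR S k r - 2 * c * (r ^ (2 + 2 * 1) * nodeR S k r) +
        c ^ 2 * (r ^ (2 + 2 * 0) * nodeR S k r)) := by
    funext r
    ring
  have hint : IntegrableOn (fun r : ℝ => (r ^ 2 - c) ^ 2 * (r ^ 2 * nodeR S k r)) (Set.Ioi 0) := by
    rw [hfun]
    exact (i2.sub (i1.const_mul (2 * c))).add (i0.const_mul (c ^ 2))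
  have hval : ∫ r in Set.Ioi (0 : ℝ), (r ^ 2 - c) ^ 2 * (r ^ 2 * nodeR S k r) =
      mu S k 2 - 2 * c * mu S k 1 + c ^ 2 * mu S k 0 := by
    rw [hfun]
    unfold mu
    have j1 : IntegrableOn (fun r : ℝ => r ^ (2 + 2 * 2) * nodeR S k r -
        2 * c * (r ^ (2 + 2 * 1) * nodeR S k r)) (Set.Ioi 0) := i2.sub (i1.const_mul (2 * c))
    rw [integral_add j1 (i0.const_mul (c ^ 2)),
      integral_sub i2 (i1.const_mul (2 * c)), integral_const_mul, integral_const_mul]
  have hpos : 0 < ∫ r in Set.Ioi (0 : ℝ), (r ^ 2 - c) ^ 2 * (r ^ 2 * nodeR S k r) := by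
    rw [setIntegral_pos_iff_support_of_nonneg_ae _ hint]
    · have hsub : Set.Ioi (|c| + 1) ⊆
          Function.support (fun r : ℝ => (r ^ 2 - c) ^ 2 * (r ^ 2 * nodeR S k r)) ∩ Set.Ioi 0 := by
        intro r hr
        rw [Set.mem_Ioi] at hr
        have hc0 : 0 ≤ |c| := abs_nonneg c
        have hr1 : 1 < r := by linarith
        have hr0 : 0 < r := by linarith
        refine ⟨?_, hr0⟩
        rw [Function.mem_support]
        have h1 : c < r ^ 2 := by
          have h2 : c ≤ |c| := le_abs_self c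
          nlinarith
        have h3 : 0 < r ^ 2 - c := by linarith
        have h4 := B6_nodeR_pos hS k hr0
        positivity
      refine lt_of_lt_of_le ?_ (measure_mono hsub)
      rw [Real.volume_Ioi]
      exact ENNReal.zero_lt_top
    · rw [Filter.EventuallyLE, ae_restrict_iff' measurableSet_Ioi]
      refine Filter.Eventually.of_forall ?_
      intro r hr
      rw [Set.mem_Ioi] at hr
      have h4 := B6_nodeR_pos hS k hr
      simp only [Pi.zero_apply]
      positivity
  rw [hval] at hpos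
  unfold va
  simp only
  have h1 : nm S k 1 = c := hc.symm
  have h2 : nm S k 2 = mu S k 2 / mu S k 0 := rfl
  have h3 : mu S k 1 = c * mu S k 0 := by
    rw [hc]
    field_simp
  rw [h1, h2]
  have h4 : mu S k 2 / mu S k 0 - c ^ 2 = (mu S k 2 - 2 * c * mu S k 1 + c ^ 2 * mu S k 0) / mu S k 0 := by
    rw [h3]
    field_simp
    ring
  rw [h4]
  exact div_pos hpos h0

end Pool.Agent.GSP
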