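import Pool.Agent.GSP.Defs
import Pool.Agent.GSP.A3

set_option autoImplicit false

open Finset

namespace Pool.Agent.GSP

variable {N : ℕ} [NeZero N]

/-- `1 / sin (π x) ^ 2` -/
noncomputable def cs2 (x : ℝ) : ℝ := 1 / Real.sin (Real.pi * x) ^ 2

/-- the character sum of `f`, a function on the integers of period `N` -/
noncomputable def hat (χ : (ZMod N)ˣ →* ℂˣ) (f : ℤ → ℝ) : ℂ :=
  ∑ u : (ZMod N)ˣ, (χ u : ℂ) * ((f ((ZMod.val (u : ZMod N) : ℕ) : ℤ) : ℝ) : ℂ)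

/-- the unit `u` is the class of `s` -/
def Cg {N : ℕ} (u : (ZMod N)ˣ) (s : ℤ) : Prop := (u : ZMod N) = (s : ZMod N)

theorem exists_cg {s : ℤ} (hs : IsCoprime s (N : ℤ)) : ∃ u : (ZMod N)ˣ, Cg u s := by
  have h1 : IsUnit (s : ZMod N) := (ZMod.coe_int_isUnit_iff_isCoprime s N).mpr hs.symm
  obtain ⟨u, hu⟩ := h1
  exact ⟨u, hu⟩

private theorem D1_cg_val (u : (ZMod N)ˣ) : Cg u (((ZMod.val (u : ZMod N) : ℕ) : ℤ)) := by
  unfold Cg
  rw [Int.cast_natCast, ZMod.natCast_zmod_val]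

private theorem D1_cop (u : (ZMod N)ˣ) :
    IsCoprime ((((ZMod.val (u : ZMod N) : ℕ) : ℤ))) (N : ℤ) :=
  Nat.isCoprime_iff_coprime.mpr (ZMod.val_coe_unit_coprime u)

private theorem D1_dvd {u : (ZMod N)ˣ} {r : ℤ} (hu : Cg u r) (v : (ZMod N)ˣ) :
    (N : ℤ) ∣ ((ZMod.val ((u * v : (ZMod N)ˣ) : ZMod N) : ℕ) : ℤ) -
      r * ((ZMod.val (v : ZMod N) : ℕ) : ℤ) := by
  rw [← ZMod.intCast_zmod_eq_zero_iff_dvd]
  push_cast
  rw [ZMod.natCast_zmod_val, ZMod.natCast_zmod_val, show (u : ZMod N) = (r : ZMod N) from hu,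
    sub_self]

private theorem D1_shift (χ : (ZMod N)ˣ →* ℂˣ) {f : ℤ → ℝ}
    (hf : ∀ s t : ℤ, IsCoprime s (N : ℤ) → (N : ℤ) ∣ s - t → f s = f t) {u : (ZMod N)ˣ} {r : ℤ}
    (hu : Cg u r) : hat χ f = (χ u : ℂ) * hat χ (fun s => f (r * s)) := by
  unfold hat
  rw [← Equiv.sum_comp (Equiv.mulLeft u), Finset.mul_sum]
  refine Finset.sum_congr rfl fun v _ => ?_
  rw [Equiv.coe_mulLeft, map_mul, Units.val_mul,
    hf _ _ (D1_cop (u * v)) (D1_dvd hu v)]
  ring

/-- invariance under translation -/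
theorem hat_zero (χ : (ZMod N)ˣ →* ℂˣ) {f : ℤ → ℝ}
    (hf : ∀ s t : ℤ, IsCoprime s (N : ℤ) → (N : ℤ) ∣ s - t → f s = f t) {u : (ZMod N)ˣ} {r : ℤ}
    (hu : Cg u r) (h : ∀ s : ℤ, IsCoprime s (N : ℤ) → f (r * s) = f s) (hχ : χ u ≠ 1) :
    hat χ f = 0 := by
  have h1 := D1_shift χ hf hu
  have h2 : hat χ (fun s => f (r * s)) = hat χ f := by
    unfold hat
    refine Finset.sum_congr rfl fun v _ => ?_
    beta_reduce
    rw [h _ (D1_cop v)]
  rw [h2] at h1
  have h3 : (1 - (χ u : ℂ)) * hat χ f = 0 := by linear_combination h1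
  rcases mul_eq_zero.mp h3 with h4 | h4
  · exfalso
    apply hχ
    apply Units.ext
    rw [Units.val_one]
    linear_combination -h4
  · exact h4

theorem hat_mul (χ : (ZMod N)ˣ →* ℂˣ) {f g : ℤ → ℝ}
    (hf : ∀ s t : ℤ, IsCoprime s (N : ℤ) → (N : ℤ) ∣ s - t → f s = f t) {u : (ZMod N)ˣ} {r : ℤ}
    (hu : Cg u r) (h : ∀ s : ℤ, IsCoprime s (N : ℤ) → g s = f (r * s)) (hχ : χ u = 1) :
    hat χ g = hat χ f := by
  have h1 := D1_shift χ hf hu
  have h2 : hat χ (fun s => f (r * s)) = hat χ g := by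
    unfold hat
    refine Finset.sum_congr rfl fun v _ => ?_
    rw [h _ (D1_cop v)]
  rw [h1, h2, hχ, Units.val_one, one_mul]

/-- the sums determine a function -/
theorem hat_congr (χ : (ZMod N)ˣ →* ℂˣ) {f g : ℤ → ℝ}
    (h : ∀ s : ℤ, IsCoprime s (N : ℤ) → f s = g s) : hat χ f = hat χ g := by
  unfold hat
  refine Finset.sum_congr rfl fun v _ => ?_
  rw [h _ (D1_cop v)]

theorem hat_const {χ : (ZMod N)ˣ →* ℂˣ} (hχ : χ ≠ 1) (c : ℝ) : hat χ (fun _ => c) = 0 := by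
  obtain ⟨u, hu⟩ : ∃ u, χ u ≠ 1 := by
    by_contra hc
    push Not at hc
    exact hχ (MonoidHom.ext hc)
  exact hat_zero χ (fun _ _ _ _ => rfl) (D1_cg_val u) (fun _ _ => rfl) hu

private theorem D1_cs2_int (x : ℝ) (n : ℤ) : cs2 (x + n) = cs2 x := by
  unfold cs2
  have e : Real.pi * (x + n) = Real.pi * x + n * Real.pi := by ring
  rw [e, Real.sin_add_int_mul_pi, mul_pow, ← zpow_natCast ((-1 : ℝ) ^ n), ← zpow_mul]
  have : ((-1 : ℝ) ^ (n * ((2 : ℕ) : ℤ))) = 1 := by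
    rw [mul_comm, zpow_mul]
    norm_num
  rw [this, one_mul]

private theorem D1_cs2_neg (x : ℝ) : cs2 (-x) = cs2 x := by
  unfold cs2
  rw [mul_neg, Real.sin_neg, neg_sq]

private theorem D1_cs2_nonneg (x : ℝ) : 0 ≤ cs2 x := by
  unfold cs2
  positivity

private theorem D1_series {z : ℝ} (hz : ∀ n : ℤ, z ≠ n) :
    HasSum (fun n : ℤ => 1 / ((n : ℝ) + z) ^ 2) (Real.pi ^ 2 * cs2 z) := by
  have h1 := cot_tsum (r := 2) le_rfl hz
  have hs : Real.sin (Real.pi * z) ≠ 0 := by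
    intro h
    rw [Real.sin_eq_zero_iff] at h
    obtain ⟨n, hn⟩ := h
    apply hz n
    have hpi := Real.pi_ne_zero
    have : Real.pi * z = Real.pi * n := by rw [← hn]; ring
    exact mul_left_cancel₀ hpi this
  have h2 : ((cotP 2).map (algebraMap ℚ ℝ)).eval (ct z) = cs2 z := by
    have e : cotP 2 = Polynomial.C (1 / ((0 : ℕ) + 1 : ℚ)) * (1 + Polynomial.X ^ 2) *
      Polynomial.derivative Polynomial.X := rfl
    rw [e]
    simp only [Polynomial.derivative_X, Polynomial.map_mul, Polynomial.map_add, Polynomial.map_one,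
      Polynomial.map_pow, Polynomial.map_X, Polynomial.map_C, Polynomial.eval_mul,
      Polynomial.eval_add, Polynomial.eval_one, Polynomial.eval_pow, Polynomial.eval_X,
      Polynomial.eval_C]
    unfold ct cs2
    have hc := Real.sin_sq_add_cos_sq (Real.pi * z)
    norm_num
    field_simp
    linarith
  rw [h2] at h1
  exact h1

private theorem D1_zeta : HasSum (fun n : ℤ => 1 / (n : ℝ) ^ 2) (Real.pi ^ 2 / 3) := by
  have h1 : HasSum (fun n : ℕ => (1 : ℝ) / ((n : ℤ) : ℝ) ^ 2) (Real.pi ^ 2 / 6) := by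
    simpa using hasSum_zeta_two
  have h2 : HasSum (fun n : ℕ => (1 : ℝ) / ((-(n : ℤ) : ℤ) : ℝ) ^ 2) (Real.pi ^ 2 / 6) := by
    simpa using hasSum_zeta_two
  have h3 := HasSum.of_nat_of_neg (f := fun n : ℤ => 1 / (n : ℝ) ^ 2) h1 h2
  have e : Real.pi ^ 2 / 6 + Real.pi ^ 2 / 6 - 1 / ((0 : ℤ) : ℝ) ^ 2 = Real.pi ^ 2 / 3 := by
    norm_num
    ring
  rw [e] at h3
  exact h3

/-- the sum over the residue classes -/
private theorem D1_S (M : ℕ) [NeZero M] :
    ∑ m ∈ Ico 1 M, cs2 ((m : ℝ) / M) ≤ (M : ℝ) ^ 2 / 3 := by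
  have hM : 0 < M := Nat.pos_of_ne_zero (NeZero.ne M)
  have hM0 : (0 : ℝ) < M := by exact_mod_cast hM
  have h1 := (Int.divModEquiv M).symm.hasSum_iff.mpr D1_zeta
  have h2 := (Equiv.prodComm (Fin M) ℤ).hasSum_iff.mpr h1
  have hs := h2.summable
  have h3 := h2.prod_fiberwise (fun b => (hs.prod_factor b).hasSum)
  have h4 := hasSum_fintype (fun b : Fin M => ∑' c : ℤ,
    (((fun n : ℤ => 1 / (n : ℝ) ^ 2) ∘ (Int.divModEquiv M).symm) ∘
      (Equiv.prodComm (Fin M) ℤ)) (b, c))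
  have h5 := h3.unique h4
  -- the values of the inner sums
  have h6 : ∀ b : Fin M, b.val ≠ 0 → ∑' c : ℤ,
      (((fun n : ℤ => 1 / (n : ℝ) ^ 2) ∘ (Int.divModEquiv M).symm) ∘
        (Equiv.prodComm (Fin M) ℤ)) (b, c) = Real.pi ^ 2 / (M : ℝ) ^ 2 * cs2 ((b.val : ℝ) / M) := by
    intro b hb
    have hz : ∀ n : ℤ, (b.val : ℝ) / M ≠ n := by
      intro n hn
      rw [div_eq_iff hM0.ne'] at hn
      have h7 : ((b.val : ℤ)) = n * M := by exact_mod_cast hn
      have h8 : ((b.val : ℤ)) < M := by exact_mod_cast b.isLt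
      have h9 : (0 : ℤ) < b.val := by exact_mod_cast Nat.pos_of_ne_zero hb
      rw [h7] at h8 h9
      have hMz : (0 : ℤ) < M := by exact_mod_cast hM
      have h10 : 0 < n := by
        by_contra hn0
        push Not at hn0
        nlinarith
      nlinarith
    have h7 := (D1_series hz).mul_left (1 / (M : ℝ) ^ 2)
    have e : 1 / (M : ℝ) ^ 2 * (Real.pi ^ 2 * cs2 ((b.val : ℝ) / M)) =
        Real.pi ^ 2 / (M : ℝ) ^ 2 * cs2 ((b.val : ℝ) / M) := by ring
    rw [← e, ← h7.tsum_eq]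
    congr 1
    funext c
    have e2 : (((fun n : ℤ => 1 / (n : ℝ) ^ 2) ∘ (Int.divModEquiv M).symm) ∘
        (Equiv.prodComm (Fin M) ℤ)) (b, c) = 1 / (((c * M + (b.val : ℤ) : ℤ)) : ℝ) ^ 2 := rfl
    rw [e2]
    push_cast
    have e3 : ((c : ℝ) * M + b.val) = M * ((c : ℝ) + (b.val : ℝ) / M) := by field_simp
    rw [e3, mul_pow]
    rw [one_div_mul_one_div]
  have h7 : ∑ b : Fin M, (if b.val = 0 then (0 : ℝ) else Real.pi ^ 2 / (M : ℝ) ^ 2 *
      cs2 ((b.val : ℝ) / M)) ≤ Real.pi ^ 2 / 3 := by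
    rw [h5]
    refine Finset.sum_le_sum fun b _ => ?_
    by_cases hb : b.val = 0
    · rw [if_pos hb]
      refine tsum_nonneg fun c => ?_
      show 0 ≤ 1 / (((c * M + (b.val : ℤ) : ℤ)) : ℝ) ^ 2
      positivity
    · rw [if_neg hb, h6 b hb]
  have h8 : ∑ b : Fin M, (if b.val = 0 then (0 : ℝ) else Real.pi ^ 2 / (M : ℝ) ^ 2 *
      cs2 ((b.val : ℝ) / M)) = Real.pi ^ 2 / (M : ℝ) ^ 2 * ∑ m ∈ Ico 1 M, cs2 ((m : ℝ) / M) := by
    rw [Fin.sum_univ_eq_sum_range (fun m => if m = 0 then (0 : ℝ) else Real.pi ^ 2 / (M : ℝ) ^ 2 *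
      cs2 ((m : ℝ) / M)) M, Finset.mul_sum, Finset.range_eq_Ico, Finset.sum_eq_sum_Ico_succ_bot hM,
      if_pos rfl, zero_add]
    refine Finset.sum_congr rfl fun m hm => ?_
    rw [Finset.mem_Ico] at hm
    rw [if_neg (by omega)]
  rw [h8] at h7
  have hpi : 0 < Real.pi ^ 2 := by positivity
  rw [div_mul_eq_mul_div, div_le_iff₀ (by positivity)] at h7
  have h9 : Real.pi ^ 2 * ∑ m ∈ Ico 1 M, cs2 ((m : ℝ) / M) ≤ Real.pi ^ 2 * ((M : ℝ) ^ 2 / 3) := by
    linarith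
  exact le_of_mul_le_mul_left h9 hpi

/-- the estimate of the sum for the modulus `M` -/
private theorem D1_est {M : ℕ} [NeZero M] (hM : 2 ≤ M) (ψ : (ZMod M)ˣ →* ℂˣ) (hψ : ψ (-1) = 1) :
    ∑ w : (ZMod M)ˣ, (ψ w : ℂ) * ((cs2 ((ZMod.val (w : ZMod M) : ℝ) / M) : ℝ) : ℂ) ≠ 0 := by
  have hM0 : (0 : ℝ) < M := by positivity
  have : Fact (1 < M) := ⟨hM⟩
  have hnorm : ∀ w, ‖(ψ w : ℂ)‖ = 1 := by
    intro w
    have h1 : (ψ w : ℂ) ^ Fintype.card (ZMod M)ˣ = 1 := by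
      rw [← Units.val_pow_eq_pow_val, ← map_pow, pow_card_eq_one, map_one, Units.val_one]
    exact Complex.norm_eq_one_of_pow_eq_one h1 Fintype.card_ne_zero
  set c : (ZMod M)ˣ → ℝ := fun w => cs2 ((ZMod.val (w : ZMod M) : ℝ) / M) with hc
  have hv1 : ZMod.val ((1 : (ZMod M)ˣ) : ZMod M) = 1 := by
    rw [Units.val_one, ZMod.val_one]
  have hvn : ZMod.val ((-1 : (ZMod M)ˣ) : ZMod M) = M - 1 := by
    rw [Units.val_neg, Units.val_one, ZMod.neg_val, if_neg one_ne_zero, ZMod.val_one]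
  have hc1 : c 1 = cs2 (1 / M) := by
    simp only [hc, hv1, Nat.cast_one]
  have hcn : c (-1) = cs2 (1 / M) := by
    simp only [hc, hvn]
    rw [Nat.cast_sub (by omega), Nat.cast_one]
    have e : ((M : ℝ) - 1) / M = -(1 / M) + ((1 : ℤ) : ℝ) := by
      field_simp
      push_cast
      ring
    rw [e, D1_cs2_int, D1_cs2_neg]
  have hlow : (M : ℝ) ^ 2 / Real.pi ^ 2 ≤ cs2 (1 / M) := by
    unfold cs2
    have hx : 0 < Real.pi * (1 / M) := by positivity
    have hx2 : Real.pi * (1 / M) < Real.pi := by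
      have : (1 : ℝ) / M < 1 := by
        rw [div_lt_one hM0]
        exact_mod_cast hM
      nlinarith [Real.pi_pos]
    have hs : 0 < Real.sin (Real.pi * (1 / M)) := Real.sin_pos_of_pos_of_lt_pi hx hx2
    have hs2 : Real.sin (Real.pi * (1 / M)) ≤ Real.pi * (1 / M) := Real.sin_le hx.le
    have h1 : Real.sin (Real.pi * (1 / M)) ^ 2 ≤ (Real.pi * (1 / M)) ^ 2 :=
      pow_le_pow_left₀ hs.le hs2 2
    have e : (M : ℝ) ^ 2 / Real.pi ^ 2 = 1 / (Real.pi * (1 / M)) ^ 2 := by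
      field_simp
    rw [e]
    exact one_div_le_one_div_of_le (by positivity) h1
  have hlow0 : 0 < cs2 (1 / M) := lt_of_lt_of_le (by positivity) hlow
  by_cases h2 : M = 2
  · -- only one unit
    have huniq : ∀ w : (ZMod M)ˣ, w = 1 := by
      intro w
      apply Units.ext
      have h3 := ZMod.val_coe_unit_coprime w
      have h4 := ZMod.val_lt (w : ZMod M)
      have h5 : ZMod.val (w : ZMod M) = 1 := by
        rcases Nat.eq_zero_or_pos (ZMod.val (w : ZMod M)) with h6 | h6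
        · rw [h6, Nat.coprime_zero_left] at h3
          omega
        · omega
      have h6 := ZMod.natCast_zmod_val (w : ZMod M)
      rw [h5] at h6
      rw [← h6, Units.val_one, Nat.cast_one]
    have huniv : (univ : Finset (ZMod M)ˣ) = {1} := by
      ext w
      simp [huniq w]
    rw [huniv, sum_singleton, map_one, Units.val_one, one_mul]
    have : c 1 ≠ 0 := by rw [hc1]; exact hlow0.ne'
    exact_mod_cast this
  · have hne : (1 : (ZMod M)ˣ) ≠ -1 := by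
      intro h
      have h3 := congrArg (fun w : (ZMod M)ˣ => ZMod.val (w : ZMod M)) h
      simp only [hv1, hvn] at h3
      omega
    intro h0
    set T : Finset (ZMod M)ˣ := (univ.erase 1).erase (-1) with hT
    have hsplit : ∀ F : (ZMod M)ˣ → ℂ, ∑ w, F w = F 1 + (F (-1) + ∑ w ∈ T, F w) := by
      intro F
      rw [← Finset.add_sum_erase univ F (mem_univ 1),
        ← Finset.add_sum_erase (univ.erase 1) F (mem_erase.mpr ⟨hne.symm, mem_univ _⟩)]
    rw [hsplit, map_one, hψ, Units.val_one, one_mul, one_mul] at h0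
    have h1 : ((c 1 : ℝ) : ℂ) + (((c (-1) : ℝ) : ℂ) + ∑ w ∈ T, (ψ w : ℂ) * ((c w : ℝ) : ℂ)) = 0 := h0
    rw [hc1, hcn] at h1
    have h3 : ‖∑ w ∈ T, (ψ w : ℂ) * ((c w : ℝ) : ℂ)‖ = 2 * cs2 (1 / M) := by
      have e : ∑ w ∈ T, (ψ w : ℂ) * ((c w : ℝ) : ℂ) = -((2 * cs2 (1 / M) : ℝ) : ℂ) := by
        push_cast
        linear_combination h1
      rw [e, norm_neg, Complex.norm_real, Real.norm_eq_abs, abs_of_pos (by positivity)]
    have h4 : ‖∑ w ∈ T, (ψ w : ℂ) * ((c w : ℝ) : ℂ)‖ ≤ ∑ w ∈ T, c w := by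
      refine (norm_sum_le _ _).trans (Finset.sum_le_sum fun w _ => ?_)
      rw [norm_mul, hnorm, one_mul, Complex.norm_real, Real.norm_eq_abs,
        abs_of_nonneg (D1_cs2_nonneg _)]
    have h5 : ∑ w ∈ T, c w ≤ ∑ m ∈ ((Ico 1 M).erase 1).erase (M - 1), cs2 ((m : ℝ) / M) := by
      have hinj : Set.InjOn (fun w : (ZMod M)ˣ => ZMod.val (w : ZMod M)) (T : Set (ZMod M)ˣ) := by
        intro a _ b _ hab
        exact Units.ext (ZMod.val_injective M hab)
      have e : ∑ w ∈ T, c w = ∑ m ∈ T.image (fun w : (ZMod M)ˣ => ZMod.val (w : ZMod M)),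
          cs2 ((m : ℝ) / M) := by
        rw [Finset.sum_image hinj]
      rw [e]
      refine Finset.sum_le_sum_of_subset_of_nonneg ?_ fun m _ _ => D1_cs2_nonneg _
      intro m hm
      rw [mem_image] at hm
      obtain ⟨w, hw, rfl⟩ := hm
      rw [hT, mem_erase, mem_erase] at hw
      have hlt := ZMod.val_lt (w : ZMod M)
      have hcop := ZMod.val_coe_unit_coprime w
      have hpos : ZMod.val (w : ZMod M) ≠ 0 := by
        intro h
        rw [h, Nat.coprime_zero_left] at hcop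
        omega
      rw [mem_erase, mem_erase, mem_Ico]
      refine ⟨fun h => hw.1 ?_, fun h => hw.2.1 ?_, by omega, hlt⟩
      · apply Units.ext
        apply ZMod.val_injective M
        rw [hvn, h]
      · apply Units.ext
        apply ZMod.val_injective M
        rw [hv1, h]
    have h6 : ∑ m ∈ ((Ico 1 M).erase 1).erase (M - 1), cs2 ((m : ℝ) / M) =
        (∑ m ∈ Ico 1 M, cs2 ((m : ℝ) / M)) - 2 * cs2 (1 / M) := by
      have m1 : 1 ∈ Ico 1 M := by rw [mem_Ico]; omega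
      have m2 : M - 1 ∈ (Ico 1 M).erase 1 := by rw [mem_erase, mem_Ico]; omega
      have e1 := Finset.add_sum_erase (Ico 1 M) (fun m : ℕ => cs2 ((m : ℝ) / M)) m1
      have e2 := Finset.add_sum_erase ((Ico 1 M).erase 1) (fun m : ℕ => cs2 ((m : ℝ) / M)) m2
      have e3 : cs2 (((M - 1 : ℕ) : ℝ) / M) = cs2 (1 / M) := by
        have := hcn
        simp only [hc, hvn] at this
        exact this
      simp only [Nat.cast_one] at e1
      simp only [e3] at e2
      linarith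
    have h7 := D1_S M
    have h8 : (M : ℝ) ^ 2 / 3 < 4 * ((M : ℝ) ^ 2 / Real.pi ^ 2) := by
      have hpi := Real.pi_pos
      have hpi2 : Real.pi ^ 2 < 12 := by
        have := Real.pi_lt_d2
        nlinarith
      have e : 4 * ((M : ℝ) ^ 2 / Real.pi ^ 2) = (M : ℝ) ^ 2 * (4 / Real.pi ^ 2) := by ring
      rw [e, div_eq_mul_inv]
      refine mul_lt_mul_of_pos_left ?_ (by positivity)
      rw [inv_eq_one_div, div_lt_div_iff₀ (by norm_num) (by positivity)]
      linarith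
    linarith

/-- the sum does not vanish for the characters which are trivial at all `s ≡ ± 1` modulo the
denominator of `z` -/
theorem csc_char {z : ℚ} (hz : ∃ a : ℤ, (N : ℚ) * z = a)
    (hz' : ∀ a : ℤ, z ≠ a) (χ : (ZMod N)ˣ →* ℂˣ)
    (hχ : ∀ (u : (ZMod N)ˣ) (s a : ℤ), Cg u s → (((s : ℚ) - 1) * z = a ∨ ((s : ℚ) + 1) * z = a) →
      χ u = 1) :
    hat χ (fun s => cs2 (s * z)) ≠ 0 := by
  set M : ℕ := z.den with hMdef
  set b : ℤ := z.num with hb
  have hM0 : M ≠ 0 := z.den_ne_zero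
  have : NeZero M := ⟨hM0⟩
  have hMq : (M : ℚ) ≠ 0 := by exact_mod_cast hM0
  have hzb : z = b / M := (Rat.num_div_den z).symm
  have hM2 : 2 ≤ M := by
    by_contra hc
    have h1 : M = 1 := by omega
    apply hz' b
    rw [hzb, h1, Nat.cast_one, div_one]
  have hbM : IsCoprime b (M : ℤ) := by
    rw [Int.isCoprime_iff_gcd_eq_one]
    unfold Int.gcd
    rw [Int.natAbs_natCast]
    exact z.reduced
  have hMN : M ∣ N := by
    obtain ⟨a, ha⟩ := hz
    rw [hzb] at ha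
    have h1 : (N : ℚ) * b = a * M := by
      field_simp at ha
      linarith
    have h2 : (N : ℤ) * b = a * M := by exact_mod_cast h1
    have h3 : (M : ℤ) ∣ (N : ℤ) * b := ⟨a, by rw [h2]; ring⟩
    have h4 : (M : ℤ) ∣ (N : ℤ) := hbM.symm.dvd_of_dvd_mul_right h3
    exact_mod_cast h4
  have hsurj := ZMod.unitsMap_surjective hMN
  set π := ZMod.unitsMap hMN with hπ
  have hπval : ∀ u : (ZMod N)ˣ, ((π u : (ZMod M)ˣ) : ZMod M) =
      ((((ZMod.val (u : ZMod N) : ℕ) : ℤ)) : ZMod M) := by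
    intro u
    rw [hπ, ZMod.unitsMap_val, Int.cast_natCast, ZMod.natCast_val]
  -- the character modulo M
  have hker : π.ker ≤ χ.ker := by
    intro u hu
    rw [MonoidHom.mem_ker] at hu ⊢
    have h1 := hπval u
    rw [hu, Units.val_one] at h1
    have h2 : (M : ℤ) ∣ ((ZMod.val (u : ZMod N) : ℕ) : ℤ) - 1 := by
      rw [← ZMod.intCast_zmod_eq_zero_iff_dvd]
      push_cast
      rw [Int.cast_natCast] at h1
      rw [← h1, sub_self]
    obtain ⟨t, ht⟩ := h2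
    refine hχ u _ (t * b) (D1_cg_val u) (Or.inl ?_)
    rw [hzb]
    have h3 : ((((ZMod.val (u : ZMod N) : ℕ) : ℤ) : ℚ) - 1) = M * t := by exact_mod_cast ht
    rw [h3]
    push_cast
    field_simp
  set ψ : (ZMod M)ˣ →* ℂˣ := π.liftOfSurjective hsurj ⟨χ, hker⟩ with hψdef
  have hψ : ∀ u, ψ (π u) = χ u := fun u => by
    rw [hψdef]
    exact MonoidHom.liftOfRightInverse_comp_apply _ _ _ _ u
  have hψn : ψ (-1) = 1 := by
    have h1 : π (-1) = -1 := by
      apply Units.ext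
      rw [hπ, ZMod.unitsMap_val, Units.val_neg, Units.val_one, Units.val_neg, Units.val_one,
        ← ZMod.castHom_apply (h := hMN), map_neg, map_one]
    rw [← h1, hψ]
    refine hχ (-1) (-1) 0 ?_ (Or.inr ?_)
    · unfold Cg
      simp
    · simp
  obtain ⟨bU, hbU⟩ : ∃ bU : (ZMod M)ˣ, (bU : ZMod M) = (b : ZMod M) :=
    exists_cg hbM
  set c : (ZMod M)ˣ → ℝ := fun w => cs2 ((ZMod.val (w : ZMod M) : ℝ) / M) with hc
  have hMr : (M : ℝ) ≠ 0 := by exact_mod_cast hM0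
  have hterm : ∀ u : (ZMod N)ˣ, cs2 (((((ZMod.val (u : ZMod N) : ℕ) : ℤ)) : ℝ) * (z : ℝ)) =
      c (π u * bU) := by
    intro u
    have h1 : (M : ℤ) ∣ ((ZMod.val (u : ZMod N) : ℕ) : ℤ) * b -
        ((ZMod.val ((π u * bU : (ZMod M)ˣ) : ZMod M) : ℕ) : ℤ) := by
      rw [← ZMod.intCast_zmod_eq_zero_iff_dvd]
      push_cast
      rw [ZMod.natCast_zmod_val, hπval, hbU]
      push_cast
      ring
    obtain ⟨t, ht⟩ := h1
    have h2 : (((((ZMod.val (u : ZMod N) : ℕ) : ℤ)) : ℝ) * (z : ℝ)) =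
        ((ZMod.val ((π u * bU : (ZMod M)ˣ) : ZMod M) : ℕ) : ℝ) / M + (t : ℝ) := by
      have h3 : (z : ℝ) = (b : ℝ) / M := by
        rw [hzb]
        push_cast
        rfl
      have h4 : ((((ZMod.val (u : ZMod N) : ℕ) : ℤ)) : ℝ) * b -
          ((ZMod.val ((π u * bU : (ZMod M)ˣ) : ZMod M) : ℕ) : ℝ) = M * t := by exact_mod_cast ht
      rw [h3]
      field_simp
      linarith
    rw [h2, D1_cs2_int]
  have hhat : hat χ (fun s => cs2 (s * z)) = ∑ u : (ZMod N)ˣ, (ψ (π u) : ℂ) *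
      ((c (π u * bU) : ℝ) : ℂ) := by
    unfold hat
    refine Finset.sum_congr rfl fun u _ => ?_
    rw [hψ, ← hterm]
  -- the sum over the fibres
  have hfib : ∀ F : (ZMod M)ˣ → ℂ, ∑ u : (ZMod N)ˣ, F (π u) =
      ((univ.filter fun u => π u = 1).card : ℂ) * ∑ v, F v := by
    intro F
    rw [Finset.mul_sum, ← Finset.sum_fiberwise univ π (fun u => F (π u))]
    refine Finset.sum_congr rfl fun v _ => ?_
    rw [Finset.sum_congr rfl (g := fun _ => F v) fun u hu => by rw [(mem_filter.mp hu).2],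
      Finset.sum_const, nsmul_eq_mul]
    congr 2
    exact MonoidHom.card_fiber_eq_of_mem_range π (hsurj v) ⟨1, map_one π⟩
  rw [hhat, hfib (fun v => (ψ v : ℂ) * ((c (v * bU) : ℝ) : ℂ))]
  refine mul_ne_zero ?_ ?_
  · have h1 : (univ.filter fun u => π u = 1).card ≠ 0 := by
      rw [Finset.card_ne_zero]
      exact ⟨1, mem_filter.mpr ⟨mem_univ _, map_one π⟩⟩
    exact_mod_cast h1
  · rw [← Equiv.sum_comp (Equiv.mulRight bU⁻¹)]
    have e : ∀ w : (ZMod M)ˣ, (ψ ((Equiv.mulRight bU⁻¹) w) : ℂ) *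
        ((c ((Equiv.mulRight bU⁻¹) w * bU) : ℝ) : ℂ) =
        (ψ bU⁻¹ : ℂ) * ((ψ w : ℂ) * ((c w : ℝ) : ℂ)) := by
      intro w
      rw [Equiv.coe_mulRight, inv_mul_cancel_right, map_mul, Units.val_mul]
      ring
    rw [Finset.sum_congr rfl fun w _ => e w, ← Finset.mul_sum]
    exact mul_ne_zero (Units.ne_zero _) (D1_est hM2 ψ hψn)

end Pool.Agent.GSP
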