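import Pool.Agent.GSP.Defs
import Pool.Agent.GSP.A6
import Pool.Agent.GSP.D1

set_option autoImplicit false

open Finset

namespace Pool.Agent.GSP

variable {N : ℕ} [NeZero N]

/-- `s ≡ ± 1` modulo `2 p` for all `p ∈ S`, with independent signs -/
def KK (S : Finset ℕ) (s : ℤ) : Prop := ∀ p ∈ S, (2 * p : ℤ) ∣ s - 1 ∨ (2 * p : ℤ) ∣ s + 1

private theorem D2_cases {S : Finset ℕ} (hS : IsLeaf S) {p : ℕ} (hp : p ∈ S) :
    S.erase p = ∅ ∨ ∃ q, q ∈ S ∧ q ≠ p ∧ S.erase p = {q} := by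
  have h1 := Finset.card_erase_of_mem hp
  have h2 := hS.card_le
  rcases Nat.lt_or_ge (S.erase p).card 1 with h | h
  · left
    exact Finset.card_eq_zero.1 (by omega)
  · right
    obtain ⟨q, hq⟩ := Finset.card_eq_one.1 (by omega : (S.erase p).card = 1)
    have hqm : q ∈ S.erase p := by
      rw [hq]
      exact Finset.mem_singleton_self q
    exact ⟨q, Finset.mem_of_mem_erase hqm, Finset.ne_of_mem_erase hqm, hq⟩

private theorem D2_prod {S : Finset ℕ} (hS : IsLeaf S) {p : ℕ} (hp : p ∈ S) (s : ℤ) :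
    ∏ q ∈ S.erase p, Real.cos (Real.pi * s / q) =
      Real.cos (Real.pi * s * ∑ q ∈ S.erase p, (1 : ℝ) / q) := by
  rcases D2_cases hS hp with h | ⟨q, -, -, h⟩
  · rw [h]
    simp
  · rw [h, Finset.prod_singleton, Finset.sum_singleton, mul_one_div]

private theorem D2_cos_int (x : ℝ) (m : ℤ) :
    Real.cos (x - Real.pi * m) = (if Even m then 1 else -1) * Real.cos x := by
  have h1 : Real.pi * (m : ℝ) = m * Real.pi := mul_comm _ _
  rw [h1]
  split_ifs with h
  · obtain ⟨k, hk⟩ := h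
    have h2 : x - (m : ℝ) * Real.pi = x - k * (2 * Real.pi) := by
      rw [hk]
      push_cast
      ring
    rw [h2, Real.cos_sub_int_mul_two_pi, one_mul]
  · obtain ⟨k, hk⟩ := Int.not_even_iff_odd.1 h
    have h2 : x - (m : ℝ) * Real.pi = (x - Real.pi) - k * (2 * Real.pi) := by
      rw [hk]
      push_cast
      ring
    rw [h2, Real.cos_sub_int_mul_two_pi, Real.cos_sub_pi]
    ring

private theorem D2_eps {s : ℤ} (hs : Odd s) (k : ℕ) :
    (if Even (s * (k : ℤ)) then (1 : ℝ) else -1) = (-1) ^ k := by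
  rcases Nat.even_or_odd k with h | h
  · rw [if_pos, h.neg_one_pow]
    exact Even.mul_left (by exact_mod_cast h) s
  · rw [if_neg, h.neg_one_pow]
    rw [Int.not_even_iff_odd]
    exact hs.mul (by exact_mod_cast h)

private theorem D2_cs2 (x : ℝ) {s : ℤ} (hs : Odd s) (k : ℕ) :
    cs2 (s * (x / 2 - k / 2)) = 2 / (1 - (-1) ^ k * Real.cos (Real.pi * s * x)) := by
  have h1 : Real.sin (Real.pi * (s * (x / 2 - k / 2))) ^ 2 =
      (1 - (-1) ^ k * Real.cos (Real.pi * s * x)) / 2 := by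
    have h2 := Real.cos_sq (Real.pi * (s * (x / 2 - k / 2)))
    have h3 := Real.sin_sq_add_cos_sq (Real.pi * (s * (x / 2 - k / 2)))
    have h4 : 2 * (Real.pi * ((s : ℝ) * (x / 2 - k / 2))) =
        Real.pi * s * x - Real.pi * ((s * (k : ℤ) : ℤ) : ℝ) := by
      push_cast
      ring
    rw [h4, D2_cos_int, D2_eps hs k] at h2
    linarith
  unfold cs2
  rw [h1, one_div_div]

/-- the function `FF` is the sum of two functions `cs2` -/
theorem FF_eq {S : Finset ℕ} (hS : IsLeaf S) {p : ℕ} (hp : p ∈ S) (k : ℕ) {s : ℤ} (hs : UU S s) :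
    FF S p k s = cs2 (s * (((1 : ℝ) / p + ∑ q ∈ S.erase p, (1 : ℝ) / q) / 2 - k / 2)) +
      cs2 (s * (((1 : ℝ) / p - ∑ q ∈ S.erase p, (1 : ℝ) / q) / 2 - k / 2)) := by
  have hne := xi_add_eta_ne hS hp k hs
  have hx : xi S p k s = -((-1) ^ k *
      Real.cos (Real.pi * s * ∑ q ∈ S.erase p, (1 : ℝ) / q)) := by
    unfold xi
    rw [D2_prod hS hp, pow_succ]
    ring
  rw [FF, D2_cs2 _ hs.1, D2_cs2 _ hs.1]
  rw [hx] at hne ⊢
  set B : ℝ := Real.pi * s * ∑ q ∈ S.erase p, (1 : ℝ) / q with hB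
  have e1 : Real.pi * s * ((1 : ℝ) / p + ∑ q ∈ S.erase p, (1 : ℝ) / q) = Real.pi * s / p + B := by
    rw [hB]
    ring
  have e2 : Real.pi * s * ((1 : ℝ) / p - ∑ q ∈ S.erase p, (1 : ℝ) / q) = Real.pi * s / p - B := by
    rw [hB]
    ring
  rw [e1, e2, Real.cos_add, Real.cos_sub]
  rw [eta] at hne ⊢
  have hε : ((-1 : ℝ) ^ k) ^ 2 = 1 := by
    rw [← pow_mul, mul_comm, pow_mul]
    norm_num
  set ε : ℝ := (-1) ^ k with hεd
  set A : ℝ := Real.pi * s / p with hA
  have hsA := Real.sin_sq_add_cos_sq A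
  have hsB := Real.sin_sq_add_cos_sq B
  have huv : (1 - ε * (Real.cos A * Real.cos B - Real.sin A * Real.sin B)) *
      (1 - ε * (Real.cos A * Real.cos B + Real.sin A * Real.sin B)) =
      (-(ε * Real.cos B) + Real.cos A) ^ 2 := by
    have h1 : Real.sin A ^ 2 = 1 - Real.cos A ^ 2 := by linarith
    have h2 : Real.sin B ^ 2 = 1 - Real.cos B ^ 2 := by linarith
    have h3 : (1 - ε * (Real.cos A * Real.cos B - Real.sin A * Real.sin B)) *
      (1 - ε * (Real.cos A * Real.cos B + Real.sin A * Real.sin B)) =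
      1 - 2 * ε * (Real.cos A * Real.cos B) + ε ^ 2 * (Real.cos A ^ 2 * Real.cos B ^ 2 -
        Real.sin A ^ 2 * Real.sin B ^ 2) := by ring
    rw [h3, h1, h2, hε]
    have h4 : (-(ε * Real.cos B) + Real.cos A) ^ 2 =
        ε ^ 2 * Real.cos B ^ 2 - 2 * ε * (Real.cos A * Real.cos B) + Real.cos A ^ 2 := by ring
    rw [h4, hε]
    ring
  have huv0 := pow_ne_zero 2 hne
  rw [← huv] at huv0
  have hu := left_ne_zero_of_mul huv0
  have hv := right_ne_zero_of_mul huv0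
  rw [div_add_div _ _ hu hv, huv]
  congr 1
  ring

private theorem D2_cos {p : ℕ} (hp : 0 < p) {r : ℤ} (hr : (2 * p : ℤ) ∣ r - 1 ∨ (2 * p : ℤ) ∣ r + 1)
    (s : ℤ) : Real.cos (Real.pi * ((r * s : ℤ) : ℝ) / p) = Real.cos (Real.pi * s / p) := by
  have hp0 : (p : ℝ) ≠ 0 := by exact_mod_cast hp.ne'
  rcases hr with ⟨m, hm⟩ | ⟨m, hm⟩
  · have hr : (r : ℝ) = 1 + 2 * p * m := by
      have : r = 1 + 2 * p * m := by linarith
      exact_mod_cast this
    have e : Real.pi * ((r * s : ℤ) : ℝ) / p = Real.pi * s / p + ((m * s : ℤ) : ℝ) * (2 * Real.pi) := by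
      push_cast
      rw [hr]
      field_simp
    rw [e, Real.cos_add_int_mul_two_pi]
  · have hr : (r : ℝ) = -1 + 2 * p * m := by
      have : r = -1 + 2 * p * m := by linarith
      exact_mod_cast this
    have e : Real.pi * ((r * s : ℤ) : ℝ) / p =
        -(Real.pi * s / p) + ((m * s : ℤ) : ℝ) * (2 * Real.pi) := by
      push_cast
      rw [hr]
      field_simp
    rw [e, Real.cos_add_int_mul_two_pi, Real.cos_neg]

theorem FF_inv {S : Finset ℕ} (hS : IsLeaf S) {p : ℕ} (hp : p ∈ S) (k : ℕ) {r s : ℤ}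
    (hr : KK S r) (hs : Odd s) : FF S p k (r * s) = FF S p k s := by
  have h0 : ∀ q ∈ S, 0 < q := fun q hq => by
    have := hS.two_le q hq
    omega
  have h1 : xi S p k (r * s) = xi S p k s := by
    unfold xi
    congr 1
    refine Finset.prod_congr rfl fun q hq => ?_
    have hq' := Finset.mem_of_mem_erase hq
    exact D2_cos (h0 q hq') (hr q hq') s
  have h2 : eta p (r * s) = eta p s := D2_cos (h0 p hp) (hr p hp) s
  rw [FF, FF, h1, h2]

/-! ### elementary number theory -/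

private theorem D2_nt {p c t : ℤ} (h : 2 * p ∣ t * c) (hc : IsCoprime c p) (ht : 2 ∣ t) :
    2 * p ∣ t := by
  rcases Int.even_or_odd p with hp | hp
  · have h2 : IsCoprime c 2 := hc.of_isCoprime_of_dvd_right hp.two_dvd
    exact ((h2.mul_right hc).symm).dvd_of_dvd_mul_right h
  · have h2 : IsCoprime (2 : ℤ) p := by
      obtain ⟨m, hm⟩ := hp
      exact ⟨-m, 1, by rw [hm]; ring⟩
    have h3 : p ∣ t := hc.symm.dvd_of_dvd_mul_right (dvd_trans (dvd_mul_left p 2) h)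
    exact h2.mul_dvd ht h3

/-- the rational number `z` -/
private def D2_z (S : Finset ℕ) (p k : ℕ) : ℚ := ((1 : ℚ) / p + ∑ q ∈ S.erase p, (1 : ℚ) / q) / 2 - k / 2

/-- For every leaf there is an integer `c` prime to it, such that `2 p z` divides `c`. -/
private theorem D2_zc {S : Finset ℕ} (hS : IsLeaf S) {p : ℕ} (hp : p ∈ S) (k : ℕ) {p' : ℕ}
    (hp' : p' ∈ S) : ∃ c e : ℤ, IsCoprime c (p' : ℤ) ∧ (2 * p' * e : ℚ) * D2_z S p k = c := by
  have h0 : ∀ q ∈ S, (q : ℚ) ≠ 0 := fun q hq => by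
    have := hS.two_le q hq
    have : q ≠ 0 := by omega
    exact_mod_cast this
  rcases D2_cases hS hp with h | ⟨q, hq, hqp, h⟩
  · have hpp : p' = p := by
      by_contra hne
      have : p' ∈ S.erase p := Finset.mem_erase.2 ⟨hne, hp'⟩
      rw [h] at this
      simp at this
    subst hpp
    refine ⟨1 - k * p', 1, ⟨1, k, by ring⟩, ?_⟩
    have := h0 p' hp'
    rw [D2_z, h, Finset.sum_empty]
    push_cast
    field_simp
    ring
  · have hcop : IsCoprime (p : ℤ) (q : ℤ) :=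
      Nat.isCoprime_iff_coprime.2 (hS.coprime p hp q hq (Ne.symm hqp))
    have hp0 := h0 p hp
    have hq0 := h0 q hq
    by_cases hpp : p' = p
    · subst hpp
      refine ⟨q + p' * (1 - k * q), q, ?_, ?_⟩
      · exact hcop.symm.add_mul_left_left _
      · rw [D2_z, h, Finset.sum_singleton]
        push_cast
        field_simp
        ring
    · have hpq : p' = q := by
        have : p' ∈ S.erase p := Finset.mem_erase.2 ⟨hpp, hp'⟩
        rw [h] at this
        exact Finset.mem_singleton.1 this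
      subst hpq
      refine ⟨p + p' * (1 - k * p), p, ?_, ?_⟩
      · exact hcop.add_mul_left_left _
      · rw [D2_z, h, Finset.sum_singleton]
        push_cast
        field_simp
        ring

private theorem D2_dvd {S : Finset ℕ} (hS : IsLeaf S) {p : ℕ} (hp : p ∈ S) (k : ℕ) {p' : ℕ}
    (hp' : p' ∈ S) {t a : ℤ} (ht : 2 ∣ t) (h : (t : ℚ) * D2_z S p k = a) : (2 * p' : ℤ) ∣ t := by
  obtain ⟨c, e, hc, hz⟩ := D2_zc hS hp k hp'
  refine D2_nt (c := c) ⟨e * a, ?_⟩ hc ht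
  have h1 : (t : ℚ) * c = 2 * p' * (e * a) := by
    rw [← hz, ← h]
    ring
  exact_mod_cast h1

private theorem D2_z_ne {S : Finset ℕ} (hS : IsLeaf S) {p : ℕ} (hp : p ∈ S) (k : ℕ) (a : ℤ) :
    D2_z S p k ≠ a := by
  intro h
  obtain ⟨c, e, hc, hz⟩ := D2_zc hS hp k hp
  rw [h] at hz
  have h1 : (p : ℤ) ∣ c := by
    refine ⟨2 * e * a, ?_⟩
    have h2 : (c : ℚ) = p * (2 * e * a) := by
      rw [← hz]
      ring
    exact_mod_cast h2
  have h3 := hc.symm.isUnit_of_dvd' dvd_rfl h1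
  have h4 := Int.isUnit_iff.1 h3
  have h5 := hS.two_le p hp
  omega

omit [NeZero N] in
private theorem D2_Nz {S : Finset ℕ} (hS : IsLeaf S) (h4 : 4 ∣ N) (hNS : ∀ p ∈ S, 2 * p ∣ N) {p : ℕ}
    (hp : p ∈ S) (k : ℕ) : ∃ a : ℤ, (N : ℚ) * D2_z S p k = a := by
  have h0 : ∀ q ∈ S, (q : ℚ) ≠ 0 := fun q hq => by
    have := hS.two_le q hq
    have : q ≠ 0 := by omega
    exact_mod_cast this
  have hq : ∀ q ∈ S, ∃ a : ℤ, (N : ℚ) * ((1 : ℚ) / q / 2) = a := by
    intro q hq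
    obtain ⟨m, hm⟩ := hNS q hq
    refine ⟨m, ?_⟩
    have := h0 q hq
    rw [hm]
    push_cast
    field_simp
  have hk : ∃ a : ℤ, (N : ℚ) * ((k : ℚ) / 2) = a := by
    obtain ⟨m, hm⟩ := h4
    refine ⟨2 * m * k, ?_⟩
    rw [hm]
    push_cast
    ring
  obtain ⟨a, ha⟩ := hq p hp
  obtain ⟨b, hb⟩ := hk
  rcases D2_cases hS hp with h | ⟨q, hq', -, h⟩
  · refine ⟨a - b, ?_⟩
    rw [D2_z, h, Finset.sum_empty]
    push_cast
    rw [← ha, ← hb]
    ring
  · obtain ⟨c, hc⟩ := hq q hq'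
    refine ⟨a + c - b, ?_⟩
    rw [D2_z, h, Finset.sum_singleton]
    push_cast
    rw [← ha, ← hb, ← hc]
    ring

private theorem D2_cs2_int (x : ℝ) (m : ℤ) : cs2 (x + m) = cs2 x := by
  unfold cs2
  have h : Real.pi * (x + m) = Real.pi * x + m * Real.pi := by ring
  rw [h, Real.sin_add_int_mul_pi, mul_pow]
  have h2 : ((-1 : ℝ) ^ m) ^ 2 = 1 := by
    rw [← zpow_natCast, ← zpow_mul, mul_comm, zpow_mul]
    norm_num
  rw [h2, one_mul]

private theorem D2_hat_add (χ : (ZMod N)ˣ →* ℂˣ) (f g : ℤ → ℝ) :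
    hat χ (fun s => f s + g s) = hat χ f + hat χ g := by
  unfold hat
  rw [← Finset.sum_add_distrib]
  refine Finset.sum_congr rfl fun u _ => ?_
  push_cast
  ring

omit [NeZero N] in
private theorem D2_UU (h4 : 4 ∣ N) {S : Finset ℕ} (hNS : ∀ p ∈ S, 2 * p ∣ N) {s : ℤ}
    (hs : IsCoprime s (N : ℤ)) : UU S s := by
  constructor
  · have h2 : IsCoprime s 2 := by
      refine hs.of_isCoprime_of_dvd_right ?_
      exact_mod_cast (dvd_trans (by norm_num) h4 : 2 ∣ N)
    rw [← Int.not_even_iff_odd]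
    intro he
    have h3 := h2.isUnit_of_dvd' he.two_dvd dvd_rfl
    have := Int.isUnit_iff.1 h3
    omega
  · intro p hp
    refine hs.of_isCoprime_of_dvd_right ?_
    exact_mod_cast (dvd_trans (dvd_mul_left p 2) (hNS p hp))

omit [NeZero N] in
private theorem D2_cg {u : (ZMod N)ˣ} {s : ℤ} (h : Cg u s) : IsCoprime s (N : ℤ) := by
  have h1 : IsUnit ((s : ℤ) : ZMod N) := by
    rw [← h]
    exact u.isUnit
  exact ((ZMod.coe_int_isUnit_iff_isCoprime s N).1 h1).symm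

/-- a unit `≡ 1` modulo `2 p` and `≡ - 1` modulo `2 q` -/
private theorem D2_unit {p q : ℕ} (hcop : Nat.Coprime p q) (hp : 2 * p ∣ N) (hq : 2 * q ∣ N) :
    ∃ (u : (ZMod N)ˣ) (r : ℤ), Cg u r ∧ (2 * p : ℤ) ∣ r - 1 ∧ (2 * q : ℤ) ∣ r + 1 := by
  obtain ⟨a, b, hab⟩ := Nat.isCoprime_iff_coprime.2 hcop
  set M : ℕ := 2 * (p * q) with hM
  have hMN : M ∣ N := by
    obtain ⟨m, hm⟩ := hp
    obtain ⟨n, hn⟩ := hq
    have h1 : p * m = q * n := by
      have : 2 * (p * m) = 2 * (q * n) := by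
        rw [← mul_assoc, ← mul_assoc, ← hm, ← hn]
      omega
    have h2 : q ∣ m := hcop.symm.dvd_of_dvd_mul_left ⟨n, h1⟩
    obtain ⟨l, rfl⟩ := h2
    exact ⟨l, by rw [hm, hM]; ring⟩
  set r₀ : ℤ := 1 - 2 * a * p with hr₀
  have hr₀' : r₀ = -1 + 2 * b * q := by
    rw [hr₀]
    linear_combination (-2) * hab
  have hsq : ((r₀ : ℤ) : ZMod M) * ((r₀ : ℤ) : ZMod M) = 1 := by
    have h1 : (M : ℤ) ∣ r₀ * r₀ - 1 := by
      refine ⟨-(2 * a * b), ?_⟩
      have h2 : r₀ * r₀ - 1 = (r₀ - 1) * (r₀ + 1) := by ring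
      have h3 : r₀ - 1 = -(2 * a * p) := by rw [hr₀]; ring
      have h4 : r₀ + 1 = 2 * b * q := by rw [hr₀']; ring
      rw [h2, h3, h4, hM]
      push_cast
      ring
    have h5 := (ZMod.intCast_zmod_eq_zero_iff_dvd _ M).2 h1
    push_cast at h5
    exact sub_eq_zero.1 h5
  obtain ⟨u, hu⟩ := ZMod.unitsMap_surjective hMN
    (⟨((r₀ : ℤ) : ZMod M), ((r₀ : ℤ) : ZMod M), hsq, hsq⟩ : (ZMod M)ˣ)
  refine ⟨u, ((u : ZMod N).val : ℤ), ?_, ?_⟩
  · unfold Cg
    push_cast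
    rw [ZMod.natCast_zmod_val]
  · have h1 : (((u : ZMod N).val : ℤ) : ZMod M) = ((r₀ : ℤ) : ZMod M) := by
      have h2 := congrArg (fun v : (ZMod M)ˣ => (v : ZMod M)) hu
      have h3 : ((ZMod.unitsMap hMN u : (ZMod M)ˣ) : ZMod M) = ((u : ZMod N).cast : ZMod M) := rfl
      simp only [h3] at h2
      rw [← h2]
      push_cast
      exact ZMod.natCast_val _
    have h4 : (M : ℤ) ∣ r₀ - ((u : ZMod N).val : ℤ) :=
      (ZMod.intCast_eq_intCast_iff_dvd_sub _ _ M).1 h1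
    have h5 : (M : ℤ) = 2 * (p * q) := by
      rw [hM]
      push_cast
      ring
    obtain ⟨m, hm⟩ := h4
    rw [h5] at hm
    constructor
    · exact ⟨-a - q * m, by linear_combination hr₀ - hm⟩
    · exact ⟨b - p * m, by linear_combination hr₀' - hm⟩

/-- the support of the Fourier transform of `FF` -/
theorem FF_hat_ne (h4 : 4 ∣ N) {S : Finset ℕ} (hS : IsLeaf S)
    (hNS : ∀ p ∈ S, 2 * p ∣ N) {p : ℕ} (hp : p ∈ S) (k : ℕ) {χ : (ZMod N)ˣ →* ℂˣ}
    (hχ : ∀ (u : (ZMod N)ˣ) (s : ℤ), Cg u s → KK S s → χ u = 1) : hat χ (FF S p k) ≠ 0 := by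
  have h0 : ∀ q ∈ S, (q : ℝ) ≠ 0 := fun q hq => by
    have := hS.two_le q hq
    have : q ≠ 0 := by omega
    exact_mod_cast this
  -- the first function
  have hA : hat χ (fun s => cs2 (s * (D2_z S p k : ℝ))) ≠ 0 := by
    refine csc_char (D2_Nz hS h4 hNS hp k) (D2_z_ne hS hp k) χ fun u s a hu hsa => ?_
    have hodd := (D2_UU h4 hNS (D2_cg hu)).1
    obtain ⟨m, hm⟩ := hodd
    refine hχ u s hu fun p' hp' => ?_
    rcases hsa with h | h
    · left
      refine D2_dvd hS hp k hp' ⟨m, by rw [hm]; ring⟩ (a := a) ?_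
      push_cast
      exact h
    · right
      refine D2_dvd hS hp k hp' ⟨m + 1, by rw [hm]; ring⟩ (a := a) ?_
      push_cast
      exact h
  have hzr : (D2_z S p k : ℝ) = ((1 : ℝ) / p + ∑ q ∈ S.erase p, (1 : ℝ) / q) / 2 - k / 2 := by
    unfold D2_z
    push_cast
    rfl
  have hper : ∀ s t : ℤ, IsCoprime s (N : ℤ) → (N : ℤ) ∣ s - t →
      cs2 (s * (D2_z S p k : ℝ)) = cs2 (t * (D2_z S p k : ℝ)) := by
    intro s t _ hst
    obtain ⟨a, ha⟩ := D2_Nz hS h4 hNS hp k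
    obtain ⟨m, hm⟩ := hst
    have ha' : (N : ℝ) * (D2_z S p k : ℝ) = a := by exact_mod_cast ha
    have hs : (s : ℝ) = t + N * m := by
      have : s = t + N * m := by linarith
      exact_mod_cast this
    have e : (s : ℝ) * (D2_z S p k : ℝ) = t * (D2_z S p k : ℝ) + ((a * m : ℤ) : ℝ) := by
      rw [hs]
      push_cast
      rw [← ha']
      ring
    rw [e, D2_cs2_int]
  -- the second function has the same transform
  have hB : hat χ (fun s => cs2 (s * (((1 : ℝ) / p - ∑ q ∈ S.erase p, (1 : ℝ) / q) / 2 - k / 2))) =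
      hat χ (fun s => cs2 (s * (D2_z S p k : ℝ))) := by
    rcases D2_cases hS hp with h | ⟨q, hq, hqp, h⟩
    · rw [hzr, h, Finset.sum_empty, sub_zero, add_zero]
    · obtain ⟨u, r, hu, hr1, hr2⟩ := D2_unit (N := N) (hS.coprime p hp q hq (Ne.symm hqp))
        (hNS p hp) (hNS q hq)
      have hodd := (D2_UU h4 hNS (D2_cg hu)).1
      have hKK : KK S r := by
        intro p' hp'
        by_cases hpp : p' = p
        · left
          rw [hpp]
          exact hr1
        · right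
          have : p' ∈ S.erase p := Finset.mem_erase.2 ⟨hpp, hp'⟩
          rw [h] at this
          rw [Finset.mem_singleton.1 this]
          exact hr2
      refine hat_mul χ hper hu (fun s _ => ?_) (hχ u r hu hKK)
      rw [hzr, h, Finset.sum_singleton]
      obtain ⟨m, hm⟩ := hr1
      obtain ⟨n, hn⟩ := hr2
      obtain ⟨l, hl⟩ := hodd
      have hp0 := h0 p hp
      have hq0 := h0 q hq
      have e1 : (r : ℝ) = 1 + 2 * p * m := by
        have : r = 1 + 2 * p * m := by linarith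
        exact_mod_cast this
      have e2 : (r : ℝ) = -1 + 2 * q * n := by
        have : r = -1 + 2 * q * n := by linarith
        exact_mod_cast this
      have e3 : (r : ℝ) = 2 * l + 1 := by exact_mod_cast hl
      have e4 : (r : ℝ) / p = 1 / p + 2 * m := by
        rw [e1]
        field_simp
      have e5 : (r : ℝ) / q = -(1 / q) + 2 * n := by
        rw [e2]
        field_simp
      have e : ((r * s : ℤ) : ℝ) * (((1 : ℝ) / p + 1 / q) / 2 - k / 2) =
          s * (((1 : ℝ) / p - 1 / q) / 2 - k / 2) + ((s * (m + n) - s * l * k : ℤ) : ℝ) := by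
        have h6 : ((r * s : ℤ) : ℝ) * (((1 : ℝ) / p + 1 / q) / 2 - k / 2) =
            s * (r / p + r / q) / 2 - s * r * k / 2 := by
          push_cast
          ring
        rw [h6, e4, e5, e3]
        push_cast
        ring
      rw [e, D2_cs2_int]
  have hF : hat χ (FF S p k) = hat χ (fun s => cs2 (s * (D2_z S p k : ℝ)) +
      cs2 (s * (((1 : ℝ) / p - ∑ q ∈ S.erase p, (1 : ℝ) / q) / 2 - k / 2))) := by
    refine hat_congr χ fun s hs => ?_
    rw [hzr]
    exact FF_eq hS hp k (D2_UU h4 hNS hs)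
  rw [hF, D2_hat_add, hB, ← two_mul]
  exact mul_ne_zero two_ne_zero hA

theorem FF_hat_zero (h4 : 4 ∣ N) {S : Finset ℕ} (hS : IsLeaf S)
    (hNS : ∀ p ∈ S, 2 * p ∣ N) {p : ℕ} (hp : p ∈ S) (k : ℕ) {χ : (ZMod N)ˣ →* ℂˣ}
    {u : (ZMod N)ˣ} {s : ℤ} (hu : Cg u s) (hs : KK S s) (hχ : χ u ≠ 1) :
    hat χ (FF S p k) = 0 := by
  refine hat_zero χ (fun a b _ hab => ?_) hu (fun a ha => ?_) hχ
  · refine FF_congr hp (fun q hq => ?_) k fun q hq => ?_
    · have := hS.two_le q hq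
      omega
    · exact dvd_trans (by exact_mod_cast hNS q hq) hab
  · exact FF_inv hS hp k hs (D2_UU h4 hNS ha).1

end Pool.Agent.GSP
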