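import Mathlib


set_option autoImplicit false

namespace Pool.Agent.GSP

theorem exists_char {G : Type} [CommGroup G] [Finite G] {H : Subgroup G} {x : G} (hx : x ∉ H) :
    ∃ χ : G →* ℂˣ, (∀ y ∈ H, χ y = 1) ∧ χ x ≠ 1 := by
  have hq : (QuotientGroup.mk' H x) ≠ 1 := by
    intro h0
    exact hx ((QuotientGroup.eq_one_iff x).1 h0)
  obtain ⟨φ, hφ⟩ := CommGroup.exists_apply_ne_one_of_hasEnoughRootsOfUnity (G ⧸ H) ℂ hq
  refine ⟨φ.comp (QuotientGroup.mk' H), fun y hy => ?_, hφ⟩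
  have h1 : (QuotientGroup.mk' H y) = 1 := (QuotientGroup.eq_one_iff y).2 hy
  rw [MonoidHom.comp_apply, h1, map_one]

/-- the character is trivial on the subgroup -/
private def N1_Tr {G : Type} [CommGroup G] (H : Subgroup G) (χ : G →* ℂˣ) : Prop := ∀ x ∈ H, χ x = 1

private theorem N1_mul {G : Type} [CommGroup G] {H : Subgroup G} {u v : G →* ℂˣ} (hu : N1_Tr H u)
    (hv : N1_Tr H v) : N1_Tr H (u * v) := by
  intro x hx
  rw [MonoidHom.mul_apply, hu x hx, hv x hx, mul_one]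

private theorem N1_cr {G : Type} [CommGroup G] {H : Subgroup G} {u v : G →* ℂˣ}
    (h : N1_Tr H (u * v)) (hv : N1_Tr H v) : N1_Tr H u := by
  intro x hx
  have h1 := h x hx
  rw [MonoidHom.mul_apply, hv x hx, mul_one] at h1
  exact h1

private theorem N1_cl {G : Type} [CommGroup G] {H : Subgroup G} {u v : G →* ℂˣ}
    (h : N1_Tr H (u * v)) (hu : N1_Tr H u) : N1_Tr H v := by
  intro x hx
  have h1 := h x hx
  rw [MonoidHom.mul_apply, hu x hx, one_mul] at h1
  exact h1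

private theorem N1_dd {G : Type} [CommGroup G] {H : Subgroup G} {u v w : G →* ℂˣ}
    (h : N1_Tr H (u * v / (u * w))) : N1_Tr H (v / w) := by
  intro x hx
  have h1 := h x hx
  rw [MonoidHom.div_apply, MonoidHom.mul_apply, MonoidHom.mul_apply,
    mul_div_mul_left_eq_div] at h1
  rw [MonoidHom.div_apply]
  exact h1

private theorem N1_de {G : Type} [CommGroup G] {H : Subgroup G} {u v w : G →* ℂˣ}
    (h : N1_Tr H (u * v / w)) (hu : N1_Tr H u) : N1_Tr H (v / w) := by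
  intro x hx
  have h1 := h x hx
  rw [MonoidHom.div_apply, MonoidHom.mul_apply, hu x hx, one_mul] at h1
  rw [MonoidHom.div_apply]
  exact h1

private theorem N1_sy {G : Type} [CommGroup G] {H : Subgroup G} {v w : G →* ℂˣ}
    (h : N1_Tr H (v / w)) : N1_Tr H (w / v) := by
  intro x hx
  have h1 := h x hx
  rw [MonoidHom.div_apply, div_eq_one] at h1
  rw [MonoidHom.div_apply, div_eq_one]
  exact h1.symm

private theorem N1_pp {G : Type} [CommGroup G] {H : Subgroup G} {p : G →* ℂˣ}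
    (h : N1_Tr H (p * p / p)) : N1_Tr H p := by
  intro x hx
  have h1 := h x hx
  rw [MonoidHom.div_apply, MonoidHom.mul_apply, mul_div_cancel_right] at h1
  exact h1

private theorem N1_div {G : Type} [CommGroup G] {H : Subgroup G} {u v : G →* ℂˣ} (hu : N1_Tr H u)
    (hv : N1_Tr H v) : N1_Tr H (u / v) := by
  intro x hx
  rw [MonoidHom.div_apply, hu x hx, hv x hx, div_one]

private theorem N1_neg_one {z : ℂˣ} (h : z * z = 1) (h1 : z ≠ 1) : z = -1 := by
  have h2 : (z : ℂ) * (z : ℂ) = 1 := by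
    rw [← Units.val_mul, h, Units.val_one]
  rcases mul_self_eq_one_iff.1 h2 with h3 | h3
  · exact absurd (Units.ext h3) h1
  · apply Units.ext
    rw [h3, Units.val_neg, Units.val_one]

theorem cov {G : Type} [CommGroup G] [Finite G] {H K H' K' : Subgroup G} {a b : G} (ha : a ∈ K)
    (hb : b ∈ K) (h1 : a ∉ H) (h2 : b ∉ H) (h3 : a * b⁻¹ ∉ H)
    (h : ∀ χ : G →* ℂˣ, (∀ x ∈ H, χ x = 1) →
      (∀ x ∈ K, χ x = 1) ∨ (∀ x ∈ K', χ x = 1) ∨ ∀ x ∈ H', χ x = 1) : K' ≤ H ∨ H' ≤ H := by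
  by_contra hcon
  rw [not_or] at hcon
  obtain ⟨hK, hH⟩ := hcon
  -- `x` in none of `C`, `E`
  obtain ⟨X, hXA, hXC, hXE⟩ : ∃ X : G →* ℂˣ, N1_Tr H X ∧ ¬ N1_Tr K' X ∧ ¬ N1_Tr H' X := by
    obtain ⟨c, hc, hcH⟩ := SetLike.not_le_iff_exists.1 hK
    obtain ⟨e, he, heH⟩ := SetLike.not_le_iff_exists.1 hH
    obtain ⟨u, huA, hu⟩ := exists_char hcH
    obtain ⟨v, hvA, hv⟩ := exists_char heH
    have huC : ¬ N1_Tr K' u := fun h0 => hu (h0 c hc)
    have hvE : ¬ N1_Tr H' v := fun h0 => hv (h0 e he)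
    by_cases huE : N1_Tr H' u
    · by_cases hvC : N1_Tr K' v
      · refine ⟨u * v, N1_mul huA hvA, fun h0 => huC ?_, fun h0 => hvE ?_⟩
        · exact N1_cr h0 hvC
        · exact N1_cl h0 huE
      · exact ⟨v, hvA, hvC, hvE⟩
    · exact ⟨u, huA, huC, huE⟩
  have hcov : ∀ χ : G →* ℂˣ, N1_Tr H χ → N1_Tr K χ ∨ N1_Tr K' χ ∨ N1_Tr H' χ := h
  have hXB : N1_Tr K X := by
    rcases hcov X hXA with h0 | h0 | h0
    · exact h0
    · exact absurd h0 hXC
    · exact absurd h0 hXE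
  -- intersection of `C` and `E` in `B`
  have hint : ∀ t : G →* ℂˣ, N1_Tr H t → N1_Tr K' t → N1_Tr H' t → N1_Tr K t := by
    intro t hA hC hE
    rcases hcov (X * t) (N1_mul hXA hA) with h0 | h0 | h0
    · exact N1_cl h0 hXB
    · exfalso
      apply hXC
      exact N1_cr h0 hC
    · exfalso
      apply hXE
      exact N1_cr h0 hE
  -- multiplication by `X` exchanges `C` and `E` outside `B`
  have hsw1 : ∀ y : G →* ℂˣ, N1_Tr H y → ¬ N1_Tr K y → N1_Tr K' y → N1_Tr H' (X * y) := by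
    intro y hA hB hC
    rcases hcov (X * y) (N1_mul hXA hA) with h0 | h0 | h0
    · exfalso
      apply hB
      exact N1_cl h0 hXB
    · exfalso
      apply hXC
      exact N1_cr h0 hC
    · exact h0
  have hsw2 : ∀ y : G →* ℂˣ, N1_Tr H y → ¬ N1_Tr K y → N1_Tr H' y → N1_Tr K' (X * y) := by
    intro y hA hB hE
    rcases hcov (X * y) (N1_mul hXA hA) with h0 | h0 | h0
    · exfalso
      apply hB
      exact N1_cl h0 hXB
    · exact h0
    · exfalso
      apply hXE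
      exact N1_cr h0 hE
  have hXn : ∀ y : G →* ℂˣ, ¬ N1_Tr K y → ¬ N1_Tr K (X * y) := by
    intro y hB h0
    apply hB
    exact N1_cl h0 hXB
  -- all the elements outside `B` are in one coset
  have hCC : ∀ y z : G →* ℂˣ, N1_Tr H y → N1_Tr H z → ¬ N1_Tr K y → ¬ N1_Tr K z → N1_Tr K' y → N1_Tr K' z →
      N1_Tr K (y / z) := by
    intro y z hy hz hyB hzB hyC hzC
    refine hint _ (N1_div hy hz) (N1_div hyC hzC) ?_
    have h1 := N1_div (hsw1 y hy hyB hyC) (hsw1 z hz hzB hzC)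
    exact N1_dd h1
  have hEE : ∀ y z : G →* ℂˣ, N1_Tr H y → N1_Tr H z → ¬ N1_Tr K y → ¬ N1_Tr K z → N1_Tr H' y → N1_Tr H' z →
      N1_Tr K (y / z) := by
    intro y z hy hz hyB hzB hyE hzE
    refine hint _ (N1_div hy hz) ?_ (N1_div hyE hzE)
    have h1 := N1_div (hsw2 y hy hyB hyE) (hsw2 z hz hzB hzE)
    exact N1_dd h1
  have hCE : ∀ y z : G →* ℂˣ, N1_Tr H y → N1_Tr H z → ¬ N1_Tr K y → ¬ N1_Tr K z → N1_Tr K' y → N1_Tr H' z →
      N1_Tr K (y / z) := by
    intro y z hy hz hyB hzB hyC hzE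
    have h1 := hEE (X * y) z (N1_mul hXA hy) hz (hXn y hyB) hzB (hsw1 y hy hyB hyC) hzE
    exact N1_de h1 hXB
  have hall : ∀ y z : G →* ℂˣ, N1_Tr H y → N1_Tr H z → ¬ N1_Tr K y → ¬ N1_Tr K z → N1_Tr K (y / z) := by
    intro y z hy hz hyB hzB
    rcases hcov y hy with h0 | h0 | h0
    · exact absurd h0 hyB
    · rcases hcov z hz with h1 | h1 | h1
      · exact absurd h1 hzB
      · exact hCC y z hy hz hyB hzB h0 h1
      · exact hCE y z hy hz hyB hzB h0 h1
    · rcases hcov z hz with h1 | h1 | h1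
      · exact absurd h1 hzB
      · exact N1_sy (hCE z y hz hy hzB hyB h1 h0)
      · exact hEE y z hy hz hyB hzB h0 h1
  -- three characters
  obtain ⟨p, hpA, hp⟩ := exists_char h1
  obtain ⟨q, hqA, hq⟩ := exists_char h2
  obtain ⟨r, hrA, hr⟩ := exists_char h3
  have hpB : ¬ N1_Tr K p := fun h0 => hp (h0 a ha)
  have hqB : ¬ N1_Tr K q := fun h0 => hq (h0 b hb)
  have hrB : ¬ N1_Tr K r := fun h0 => hr (h0 _ (K.mul_mem ha (K.inv_mem hb)))
  have e1 : p b = q b := by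
    have h0 := hall p q hpA hqA hpB hqB b hb
    rw [MonoidHom.div_apply] at h0
    exact div_eq_one.1 h0
  have e2 : p (a * b⁻¹) = r (a * b⁻¹) := by
    have h0 := hall p r hpA hrA hpB hrB _ (K.mul_mem ha (K.inv_mem hb))
    rw [MonoidHom.div_apply] at h0
    exact div_eq_one.1 h0
  have n1 : p b ≠ 1 := by rw [e1]; exact hq
  have n2 : p (a * b⁻¹) ≠ 1 := by rw [e2]; exact hr
  have n3 : p a ≠ p b := by
    intro h0
    apply n2
    rw [map_mul, map_inv, h0, mul_inv_cancel]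
  by_cases hsq : N1_Tr K (p * p)
  · have s1 : p a * p a = 1 := hsq a ha
    have s2 : p b * p b = 1 := hsq b hb
    have t1 := N1_neg_one s1 hp
    have t2 := N1_neg_one s2 n1
    exact n3 (t1.trans t2.symm)
  · have h0 := hall (p * p) p (N1_mul hpA hpA) hpA hsq hpB
    exact hpB (N1_pp h0)

end Pool.Agent.GSP
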