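import Pool.Agent.GSP.Defs
import Pool.Agent.GSP.D2
import Pool.Agent.GSP.N1

set_option autoImplicit false

open Finset

namespace Pool.Agent.GSP

variable {N : ℕ} [NeZero N]

/-- There are three units modulo `N`, `≡ 1` modulo `2 q` for all `q ∈ Q`, which are different up
to the sign modulo `2 p`. -/
def Trip (N p : ℕ) (Q : Finset ℕ) : Prop :=
  ∃ g : Fin 3 → ℤ, (∀ a, IsCoprime (g a) (N : ℤ)) ∧ (∀ a, ∀ q ∈ Q, (2 * q : ℤ) ∣ g a - 1) ∧ g 0 = 1 ∧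
    ∀ a b, a ≠ b → ¬ (2 * p : ℤ) ∣ g a - g b ∧ ¬ (2 * p : ℤ) ∣ g a + g b

/-- the nodes with leaves; `Q i` contains all leaves but the leaf `p i` -/
structure Fam (N : ℕ) (I : Type) where
  S : I → Finset ℕ
  p : I → ℕ
  Q : I → Finset ℕ
  k : I → ℕ
  c : I → ℝ
  leaf : ∀ i, IsLeaf (S i)
  mem : ∀ i, p i ∈ S i
  three : ∀ i, Trip N (p i) (Q i)
  own : ∀ i, ∀ q ∈ S i, q ≠ p i → q ∈ Q i
  priv : ∀ i j, j ≠ i → ∀ q ∈ S j, q ∈ Q i
  c_ne : ∀ i, c i ≠ 0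
  dvdN : ∀ i, ∀ q ∈ S i, 2 * q ∣ N
  dvdQ : ∀ i, ∀ q ∈ Q i, 2 * q ∣ N

namespace Fam

variable {I : Type}

/-- the function of the node -/
noncomputable def f (F : Fam N I) (i : I) (s : ℤ) : ℝ := FF (F.S i) (F.p i) (F.k i) s

end Fam

variable {I I' : Type} [Fintype I] [Fintype I']

/-! ### the subgroup -/

omit [NeZero N] in
private theorem d4_congr {S : Finset ℕ} (hS : ∀ q ∈ S, 2 * q ∣ N) {s t : ℤ}
    (h : (N : ℤ) ∣ s - t) (hs : KK S s) : KK S t := by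
  intro q hq
  have h1 : (2 * q : ℤ) ∣ s - t := by
    have : ((2 * q : ℕ) : ℤ) ∣ (N : ℤ) := by exact_mod_cast hS q hq
    push_cast at this
    exact this.trans h
  rcases hs q hq with h2 | h2
  · left
    have := dvd_sub h2 h1
    have e : s - 1 - (s - t) = t - 1 := by ring
    rwa [e] at this
  · right
    have := dvd_sub h2 h1
    have e : s + 1 - (s - t) = t + 1 := by ring
    rwa [e] at this

omit [NeZero N] in
private theorem d4_cg_dvd {u : (ZMod N)ˣ} {s t : ℤ} (hs : Cg u s) (ht : Cg u t) :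
    (N : ℤ) ∣ s - t := by
  unfold Cg at hs ht
  rw [hs] at ht
  rw [← ZMod.intCast_zmod_eq_zero_iff_dvd, Int.cast_sub, ht, sub_self]

private theorem d4_cg_val (u : (ZMod N)ˣ) : Cg u ((ZMod.val (u : ZMod N) : ℕ) : ℤ) := by
  unfold Cg
  rw [Int.cast_natCast, ZMod.natCast_zmod_val]

private theorem d4_cop (u : (ZMod N)ˣ) :
    IsCoprime ((ZMod.val (u : ZMod N) : ℕ) : ℤ) (N : ℤ) := by
  rw [Nat.isCoprime_iff_coprime]
  exact ZMod.val_coe_unit_coprime u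

theorem KK.mul {S : Finset ℕ} {s t : ℤ} (hs : KK S s) (ht : KK S t) : KK S (s * t) := by
  intro q hq
  rcases hs q hq with h1 | h1 <;> rcases ht q hq with h2 | h2
  · left
    have e : s * t - 1 = (s - 1) * t + (t - 1) := by ring
    rw [e]
    exact dvd_add (h1.mul_right t) h2
  · right
    have e : s * t + 1 = (s - 1) * t + (t + 1) := by ring
    rw [e]
    exact dvd_add (h1.mul_right t) h2
  · right
    have e : s * t + 1 = (s + 1) * t - (t - 1) := by ring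
    rw [e]
    exact dvd_sub (h1.mul_right t) h2
  · left
    have e : s * t - 1 = (s + 1) * t - (t + 1) := by ring
    rw [e]
    exact dvd_sub (h1.mul_right t) h2

omit [NeZero N] in
private theorem d4_inv {S : Finset ℕ} (hS : ∀ q ∈ S, 2 * q ∣ N) {s t : ℤ}
    (h : (N : ℤ) ∣ s * t - 1) (hs : KK S s) : KK S t := by
  intro q hq
  have h1 : (2 * q : ℤ) ∣ s * t - 1 := by
    have : ((2 * q : ℕ) : ℤ) ∣ (N : ℤ) := by exact_mod_cast hS q hq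
    push_cast at this
    exact this.trans h
  rcases hs q hq with h2 | h2
  · left
    have := dvd_sub h1 (h2.mul_right t)
    have e : s * t - 1 - (s - 1) * t = t - 1 := by ring
    rwa [e] at this
  · right
    have := dvd_sub (h2.mul_right t) h1
    have e : (s + 1) * t - (s * t - 1) = t + 1 := by ring
    rwa [e] at this

/-- the subgroup of the units in `KK S` -/
def gH (S : Finset ℕ) (hS : ∀ q ∈ S, 2 * q ∣ N) : Subgroup (ZMod N)ˣ where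
  carrier := {u | KK S ((ZMod.val (u : ZMod N) : ℕ) : ℤ)}
  one_mem' := by
    have h1 : Cg (1 : (ZMod N)ˣ) 1 := by
      unfold Cg
      simp
    refine d4_congr hS (d4_cg_dvd h1 (d4_cg_val 1)) fun q _ => Or.inl ?_
    rw [sub_self]
    exact dvd_zero _
  mul_mem' := by
    intro a b ha hb
    have h1 : Cg (a * b) (((ZMod.val (a : ZMod N) : ℕ) : ℤ) * ((ZMod.val (b : ZMod N) : ℕ) : ℤ)) := by
      unfold Cg
      rw [Units.val_mul, Int.cast_mul, ← d4_cg_val a, ← d4_cg_val b]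
    exact d4_congr hS (d4_cg_dvd h1 (d4_cg_val _)) (KK.mul ha hb)
  inv_mem' := by
    intro a ha
    refine d4_inv hS ?_ ha
    rw [← ZMod.intCast_zmod_eq_zero_iff_dvd, Int.cast_sub, Int.cast_mul, ← d4_cg_val a,
      ← d4_cg_val a⁻¹]
    simp

theorem mem_gH {S : Finset ℕ} {hS : ∀ q ∈ S, 2 * q ∣ N} {u : (ZMod N)ˣ} {s : ℤ} (hu : Cg u s) :
    u ∈ gH S hS ↔ KK S s :=
  ⟨fun h => d4_congr hS (d4_cg_dvd (d4_cg_val u) hu) h,
    fun h => d4_congr hS (d4_cg_dvd hu (d4_cg_val u)) h⟩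

private theorem d4_three {p : ℕ} {Q S : Finset ℕ} (h : Trip N p Q) (hp : p ∈ S)
    (hS : ∀ q ∈ S, 2 * q ∣ N) (hQ : ∀ q ∈ Q, 2 * q ∣ N) :
    ∃ a ∈ gH Q hQ, ∃ b ∈ gH Q hQ, a ∉ gH S hS ∧ b ∉ gH S hS ∧ a * b⁻¹ ∉ gH S hS := by
  obtain ⟨g, g1, g2, g3, g4⟩ := h
  obtain ⟨a, ha⟩ := exists_cg (g1 1)
  obtain ⟨b, hb⟩ := exists_cg (g1 2)
  refine ⟨a, (mem_gH ha).2 (fun q hq => Or.inl (g2 1 q hq)), b, (mem_gH hb).2 (fun q hq => Or.inl (g2 2 q hq)), fun h => ?_, fun h => ?_, fun h => ?_⟩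
  · rcases (mem_gH ha).1 h p hp with h1 | h1
    · rw [← g3] at h1
      exact (g4 1 0 (by decide)).1 h1
    · rw [← g3] at h1
      exact (g4 1 0 (by decide)).2 h1
  · rcases (mem_gH hb).1 h p hp with h1 | h1
    · rw [← g3] at h1
      exact (g4 2 0 (by decide)).1 h1
    · rw [← g3] at h1
      exact (g4 2 0 (by decide)).2 h1
  · obtain ⟨s, hs⟩ : ∃ s : ℤ, Cg (a * b⁻¹) s := ⟨_, d4_cg_val _⟩
    have h2 : (N : ℤ) ∣ s * g 2 - g 1 := by
      refine d4_cg_dvd (u := a) ?_ ha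
      unfold Cg at hs hb ⊢
      rw [Int.cast_mul, ← hs, ← hb, ← Units.val_mul, inv_mul_cancel_right]
    have h3 : (2 * p : ℤ) ∣ s * g 2 - g 1 := by
      have : ((2 * p : ℕ) : ℤ) ∣ (N : ℤ) := by exact_mod_cast hS p hp
      push_cast at this
      exact this.trans h2
    rcases (mem_gH hs).1 h p hp with h1 | h1
    · refine (g4 1 2 (by decide)).1 ?_
      have := dvd_sub (h1.mul_right (g 2)) h3
      have e : (s - 1) * g 2 - (s * g 2 - g 1) = g 1 - g 2 := by ring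
      rwa [e] at this
    · refine (g4 1 2 (by decide)).2 ?_
      have := dvd_sub (h1.mul_right (g 2)) h3
      have e : (s + 1) * g 2 - (s * g 2 - g 1) = g 1 + g 2 := by ring
      rwa [e] at this

/-! ### the transforms of the functions of the nodes -/

omit [Fintype I] in
private theorem d4_zero (h4 : 4 ∣ N) (F : Fam N I) {χ : (ZMod N)ˣ →* ℂˣ} {i : I}
    (hχ : ¬ ∀ x ∈ gH (F.S i) (F.dvdN i), χ x = 1) : hat χ (F.f i) = 0 := by
  push Not at hχ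
  obtain ⟨u, hu, hne⟩ := hχ
  exact FF_hat_zero h4 (F.leaf i) (F.dvdN i) (F.mem i) (F.k i) (d4_cg_val u)
    ((mem_gH (d4_cg_val u)).1 hu) hne

omit [Fintype I] in
private theorem d4_ne (h4 : 4 ∣ N) (F : Fam N I) {χ : (ZMod N)ˣ →* ℂˣ} {i : I}
    (hχ : ∀ x ∈ gH (F.S i) (F.dvdN i), χ x = 1) : hat χ (F.f i) ≠ 0 :=
  FF_hat_ne h4 (F.leaf i) (F.dvdN i) (F.mem i) (F.k i) fun u _ hu hs =>
    hχ u ((mem_gH hu).2 hs)

omit [Fintype I] in
/-- the transform of the function of the node -/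
theorem hat_f_ne (h4 : 4 ∣ N) (F : Fam N I) {χ : (ZMod N)ˣ →* ℂˣ} {i : I} :
    hat χ (F.f i) ≠ 0 ↔ ∀ x ∈ gH (F.S i) (F.dvdN i), χ x = 1 :=
  ⟨fun h => by
    by_contra hc
    exact h (d4_zero h4 F hc), d4_ne h4 F⟩

private theorem d4_hat_sum (χ : (ZMod N)ˣ →* ℂˣ) (c : I → ℝ) (f : I → ℤ → ℝ) :
    hat χ (fun s => ∑ i, c i * f i s) = ∑ i, (c i : ℂ) * hat χ (f i) := by
  unfold hat
  simp_rw [Finset.mul_sum]
  rw [Finset.sum_comm]
  refine Finset.sum_congr rfl fun u _ => ?_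
  push_cast
  rw [Finset.mul_sum]
  exact Finset.sum_congr rfl fun i _ => by ring

private theorem d4_eq (F : Fam N I) (F' : Fam N I') {C : ℝ}
    (h : ∀ s : ℤ, IsCoprime s (N : ℤ) → ∑ i, F.c i * F.f i s = ∑ i, F'.c i * F'.f i s + C)
    {χ : (ZMod N)ˣ →* ℂˣ} (hχ : χ ≠ 1) :
    ∑ i, (F.c i : ℂ) * hat χ (F.f i) = ∑ i, (F'.c i : ℂ) * hat χ (F'.f i) := by
  have h3 : hat χ (fun s => ∑ i, F.c i * F.f i s) =
      hat χ (fun s => ∑ i, F'.c i * F'.f i s) + hat χ (fun _ => C) := by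
    rw [hat_congr χ (g := fun s => ∑ i, F'.c i * F'.f i s + C) h]
    unfold hat
    rw [← Finset.sum_add_distrib]
    refine Finset.sum_congr rfl fun u _ => ?_
    push_cast
    ring
  rwa [hat_const hχ, add_zero, d4_hat_sum, d4_hat_sum] at h3

omit [NeZero N] [Fintype I] in
private theorem d4_le (F : Fam N I) {i j : I} (h : j ≠ i) {s : ℤ} (hs : KK (F.Q i) s) :
    KK (F.S j) s := fun q hq => hs q (F.priv i j h q hq)

private theorem d4_single (h4 : 4 ∣ N) (F : Fam N I) {χ : (ZMod N)ˣ →* ℂˣ} {i : I}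
    {H : Subgroup (ZMod N)ˣ} (hH : ∀ j, j ≠ i → H ≤ gH (F.S j) (F.dvdN j))
    (hχ : ¬ ∀ x ∈ H, χ x = 1) :
    ∑ j, (F.c j : ℂ) * hat χ (F.f j) = (F.c i : ℂ) * hat χ (F.f i) := by
  refine Finset.sum_eq_single i (fun j _ hj => ?_) fun hi => absurd (Finset.mem_univ i) hi
  rw [d4_zero h4 F fun hc => hχ fun x hx => hc x (hH j hj hx), mul_zero]

omit [Fintype I] in
private theorem d4_hQ (F : Fam N I) (i j : I) (h : j ≠ i) :
    gH (F.Q i) (F.dvdQ i) ≤ gH (F.S j) (F.dvdN j) := fun u hu =>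
  (mem_gH (d4_cg_val u)).2 (d4_le F h ((mem_gH (d4_cg_val u)).1 hu))

private theorem d4_ne_one {H : Subgroup (ZMod N)ˣ} {χ : (ZMod N)ˣ →* ℂˣ}
    (hχ : ¬ ∀ x ∈ H, χ x = 1) : χ ≠ 1 := by
  rintro rfl
  exact hχ fun _ _ => rfl

/-- one inclusion -/
private theorem d4_incl (h4 : 4 ∣ N) (F : Fam N I) (F' : Fam N I') {C : ℝ}
    (h : ∀ s : ℤ, IsCoprime s (N : ℤ) → ∑ i, F.c i * F.f i s = ∑ i, F'.c i * F'.f i s + C)
    {i : I} {j : I'} (hij : ¬ gH (F.Q i) (F.dvdQ i) ≤ gH (F'.S j) (F'.dvdN j)) :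
    gH (F.S i) (F.dvdN i) ≤ gH (F'.S j) (F'.dvdN j) := by
  obtain ⟨a, ha, b, hb, h1, h2, h3⟩ := d4_three (F'.three j) (F'.mem j) (F'.dvdN j) (F'.dvdQ j)
  refine (cov ha hb h1 h2 h3 (K' := gH (F.Q i) (F.dvdQ i)) (H' := gH (F.S i) (F.dvdN i))
    fun χ hχ => ?_).resolve_left hij
  by_contra hc
  push Not at hc
  obtain ⟨hc1, hc2, hc3⟩ := hc
  have n1 : ¬ ∀ x ∈ gH (F'.Q j) (F'.dvdQ j), χ x = 1 := by push Not; exact hc1
  have n2 : ¬ ∀ x ∈ gH (F.Q i) (F.dvdQ i), χ x = 1 := by push Not; exact hc2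
  have n3 : ¬ ∀ x ∈ gH (F.S i) (F.dvdN i), χ x = 1 := by push Not; exact hc3
  have e := d4_eq F F' h (d4_ne_one n1)
  rw [d4_single h4 F (d4_hQ F i) n2, d4_single h4 F' (d4_hQ F' j) n1, d4_zero h4 F n3,
    mul_zero] at e
  rcases mul_eq_zero.1 e.symm with h6 | h6
  · exact F'.c_ne j (by exact_mod_cast h6)
  · exact d4_ne h4 F' hχ h6

omit [Fintype I] in
private theorem d4_not (F : Fam N I) (i : I) :
    ¬ gH (F.Q i) (F.dvdQ i) ≤ gH (F.S i) (F.dvdN i) := by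
  obtain ⟨a, ha, b, hb, h1, h2, h3⟩ := d4_three (F.three i) (F.mem i) (F.dvdN i) (F.dvdQ i)
  exact fun h => h1 (h ha)

omit [Fintype I] in
/-- a character which sees only the node `i` -/
theorem exists_chi (F : Fam N I) (i : I) : ∃ χ : (ZMod N)ˣ →* ℂˣ,
    (∀ x ∈ gH (F.S i) (F.dvdN i), χ x = 1) ∧
      ∃ (u : (ZMod N)ˣ) (s : ℤ), Cg u s ∧ KK (F.Q i) s ∧ χ u ≠ 1 := by
  obtain ⟨a, ha, b, hb, h1, h2, h3⟩ := d4_three (F.three i) (F.mem i) (F.dvdN i) (F.dvdQ i)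
  obtain ⟨χ, c1, c2⟩ := exists_char h1
  exact ⟨χ, c1, a, _, d4_cg_val a, (mem_gH (d4_cg_val a)).1 ha, c2⟩

private theorem d4_eqH (h4 : 4 ∣ N) (F : Fam N I) (F' : Fam N I') {C : ℝ}
    (h : ∀ s : ℤ, IsCoprime s (N : ℤ) → ∑ i, F.c i * F.f i s = ∑ i, F'.c i * F'.f i s + C)
    {i : I} {j : I'} (hij : ¬ gH (F.Q i) (F.dvdQ i) ≤ gH (F'.S j) (F'.dvdN j)) :
    gH (F.S i) (F.dvdN i) = gH (F'.S j) (F'.dvdN j) := by
  have h' : ∀ s : ℤ, IsCoprime s (N : ℤ) →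
      ∑ i, F'.c i * F'.f i s = ∑ i, F.c i * F.f i s + (-C) := by
    intro s hs
    rw [h s hs]
    ring
  have e1 := d4_incl h4 F F' h hij
  refine le_antisymm e1 (d4_incl h4 F' F h' fun hc => ?_)
  exact d4_not F' j (hc.trans e1)

private theorem d4_half (h4 : 4 ∣ N) (F : Fam N I) (F' : Fam N I') {C : ℝ}
    (h : ∀ s : ℤ, IsCoprime s (N : ℤ) → ∑ i, F.c i * F.f i s = ∑ i, F'.c i * F'.f i s + C)
    (i : I) : ∃! j, ¬ gH (F.Q i) (F.dvdQ i) ≤ gH (F'.S j) (F'.dvdN j) := by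
  classical
  obtain ⟨a, ha, b, hb, h1, h2, h3⟩ := d4_three (F.three i) (F.mem i) (F.dvdN i) (F.dvdQ i)
  obtain ⟨χ, c1, c2⟩ := exists_char h1
  have n1 : ¬ ∀ x ∈ gH (F.Q i) (F.dvdQ i), χ x = 1 := fun hc => c2 (hc a ha)
  have e := d4_eq F F' h (d4_ne_one n1)
  rw [d4_single h4 F (d4_hQ F i) n1] at e
  have e2 : ∑ j, (F'.c j : ℂ) * hat χ (F'.f j) ≠ 0 := by
    rw [← e]
    refine mul_ne_zero ?_ (d4_ne h4 F c1)
    exact_mod_cast F.c_ne i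
  obtain ⟨j, -, hj⟩ := Finset.exists_ne_zero_of_sum_ne_zero e2
  have hj2 : hat χ (F'.f j) ≠ 0 := right_ne_zero_of_mul hj
  have hj3 := (hat_f_ne h4 F').1 hj2
  have hj4 : ¬ gH (F.Q i) (F.dvdQ i) ≤ gH (F'.S j) (F'.dvdN j) := fun hc =>
    n1 fun x hx => hj3 x (hc hx)
  refine ⟨j, hj4, fun j2 hj5 => ?_⟩
  by_contra hne
  have e3 := d4_eqH h4 F F' h hj4
  have e4 := d4_eqH h4 F F' h hj5
  have h5 := d4_hQ F' j j2 hne
  rw [← e4, e3] at h5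
  exact d4_not F' j h5

/-- the bijection between the nodes with leaves -/
theorem fam_match (h4 : 4 ∣ N) (F : Fam N I) (F' : Fam N I') {C : ℝ}
    (h : ∀ s : ℤ, IsCoprime s (N : ℤ) → ∑ i, F.c i * F.f i s = ∑ i, F'.c i * F'.f i s + C) :
    ∃ τ : I ≃ I', ∀ i, (∀ s : ℤ, IsCoprime s (N : ℤ) → (KK (F.S i) s ↔ KK (F'.S (τ i)) s)) ∧
      (∀ j, j ≠ τ i → ∀ s : ℤ, IsCoprime s (N : ℤ) → KK (F.Q i) s → KK (F'.S j) s) ∧
      ∀ χ : (ZMod N)ˣ →* ℂˣ, (∃ (u : (ZMod N)ˣ) (s : ℤ), Cg u s ∧ KK (F.Q i) s ∧ χ u ≠ 1) →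
        (F.c i : ℂ) * hat χ (F.f i) = (F'.c (τ i) : ℂ) * hat χ (F'.f (τ i)) := by
  have h' : ∀ s : ℤ, IsCoprime s (N : ℤ) →
      ∑ i, F'.c i * F'.f i s = ∑ i, F.c i * F.f i s + (-C) := by
    intro s hs
    rw [h s hs]
    ring
  choose t ht1 ht2 using d4_half h4 F F' h
  choose t' ht1' ht2' using d4_half h4 F' F h'
  have e1 : ∀ i, t' (t i) = i := fun i => (ht2' (t i) i (by
    beta_reduce
    rw [d4_eqH h4 F F' h (ht1 i)]
    exact d4_not F' (t i))).symm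
  have e2 : ∀ j, t (t' j) = j := fun j => (ht2 (t' j) j (by
    beta_reduce
    rw [d4_eqH h4 F' F h' (ht1' j)]
    exact d4_not F (t' j))).symm
  have hle : ∀ i j, j ≠ t i → gH (F.Q i) (F.dvdQ i) ≤ gH (F'.S j) (F'.dvdN j) := by
    intro i j hj
    by_contra hc
    exact hj (ht2 i j hc)
  refine ⟨⟨t, t', e1, e2⟩, fun i => ⟨fun s hs => ?_, fun j hj s hs hK => ?_, fun χ hχ => ?_⟩⟩
  · obtain ⟨u, hu⟩ := exists_cg hs
    have e := d4_eqH h4 F F' h (ht1 i)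
    constructor
    · intro hK
      refine (mem_gH hu (hS := F'.dvdN _)).1 ?_
      show u ∈ gH (F'.S (t i)) (F'.dvdN (t i))
      rw [← e]
      exact (mem_gH hu).2 hK
    · intro hK
      refine (mem_gH hu (hS := F.dvdN _)).1 ?_
      rw [e]
      exact (mem_gH hu).2 hK
  · obtain ⟨u, hu⟩ := exists_cg hs
    exact (mem_gH hu (hS := F'.dvdN _)).1 (hle i j hj ((mem_gH hu).2 hK))
  · obtain ⟨u, s, hu, hK, hne⟩ := hχ
    have n1 : ¬ ∀ x ∈ gH (F.Q i) (F.dvdQ i), χ x = 1 := fun hc => hne (hc u ((mem_gH hu).2 hK))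
    have e := d4_eq F F' h (d4_ne_one n1)
    rwa [d4_single h4 F (d4_hQ F i) n1, d4_single h4 F' (hle i) n1] at e

end Pool.Agent.GSP
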