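import Pool.Agent.GSP.Defs
import Pool.Agent.GSP.A6
import Pool.Agent.GSP.D4

set_option autoImplicit false

open Finset

namespace Pool.Agent.GSP

variable {N : ℕ} [NeZero N]

private theorem D7_eta_ne {p : ℕ} (hp : 0 < p) {g g' s : ℤ} (hs : IsCoprime s ((2 * p : ℕ) : ℤ))
    (h1 : ¬ ((2 * p : ℕ) : ℤ) ∣ g - g') (h2 : ¬ ((2 * p : ℕ) : ℤ) ∣ g + g') :
    eta p (g * s) ≠ eta p (g' * s) := by
  intro h
  unfold eta at h
  rw [Real.cos_eq_cos_iff] at h
  have hp' : (p : ℝ) ≠ 0 := by exact_mod_cast hp.ne'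
  have hpi := Real.pi_ne_zero
  obtain ⟨k, h | h⟩ := h
  · apply h1
    have h3 : ((g' * s : ℤ) : ℝ) = ((2 * k * p + g * s : ℤ) : ℝ) := by
      have h4 : Real.pi * ((g' * s : ℤ) : ℝ) = Real.pi * ((2 * k * p + g * s : ℤ) : ℝ) := by
        have h5 : Real.pi * ((g' * s : ℤ) : ℝ) / p * p =
            (2 * k * Real.pi + Real.pi * ((g * s : ℤ) : ℝ) / p) * p := by rw [h]
        rw [div_mul_cancel₀ _ hp', add_mul, div_mul_cancel₀ _ hp'] at h5
        rw [h5]
        push_cast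
        ring
      exact mul_left_cancel₀ hpi h4
    have h4 : g' * s = 2 * k * p + g * s := by exact_mod_cast h3
    have h5 : ((2 * p : ℕ) : ℤ) ∣ (g - g') * s := ⟨-k, by push_cast; linarith⟩
    exact hs.symm.dvd_of_dvd_mul_right h5
  · apply h2
    have h3 : ((g' * s : ℤ) : ℝ) = ((2 * k * p - g * s : ℤ) : ℝ) := by
      have h4 : Real.pi * ((g' * s : ℤ) : ℝ) = Real.pi * ((2 * k * p - g * s : ℤ) : ℝ) := by
        have h5 : Real.pi * ((g' * s : ℤ) : ℝ) / p * p =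
            (2 * k * Real.pi - Real.pi * ((g * s : ℤ) : ℝ) / p) * p := by rw [h]
        rw [div_mul_cancel₀ _ hp', sub_mul, div_mul_cancel₀ _ hp'] at h5
        rw [h5]
        push_cast
        ring
      exact mul_left_cancel₀ hpi h4
    have h4 : g' * s = 2 * k * p - g * s := by exact_mod_cast h3
    have h5 : ((2 * p : ℕ) : ℤ) ∣ (g + g') * s := ⟨k, by push_cast; linarith⟩
    exact hs.symm.dvd_of_dvd_mul_right h5

private theorem D7_UU {S : Finset ℕ} (h4 : 4 ∣ N) (hN : ∀ p ∈ S, 2 * p ∣ N) {s : ℤ}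
    (hs : IsCoprime s (N : ℤ)) : UU S s := by
  constructor
  · have h1 : (2 : ℤ) ∣ (N : ℤ) := by
      have : 2 ∣ N := (by norm_num : 2 ∣ 4).trans h4
      exact_mod_cast this
    have h2 : IsCoprime s 2 := hs.of_isCoprime_of_dvd_right h1
    by_contra h
    rw [Int.not_odd_iff_even] at h
    obtain ⟨a, ha⟩ := h
    obtain ⟨u, w, huw⟩ := h2
    rw [ha] at huw
    have h3 : 2 * (u * a + w) = 1 := by linear_combination huw
    omega
  · intro p hp
    have h1 : (p : ℤ) ∣ (N : ℤ) := by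
      have : p ∣ N := (Dvd.intro_left 2 rfl).trans (hN p hp)
      exact_mod_cast this
    exact hs.of_isCoprime_of_dvd_right h1

/-- three values of `η` -/
theorem three_eta {p : ℕ} {Q : Finset ℕ} (ht : Trip N p Q) (hN : 2 * p ∣ N) {s : ℤ}
    (hs : IsCoprime s (N : ℤ)) :
    ∃ g : Fin 3 → ℤ, (∀ a, IsCoprime (g a) (N : ℤ)) ∧ (∀ a, ∀ q ∈ Q, (2 * q : ℤ) ∣ g a - 1) ∧ g 0 = 1 ∧
      ∀ a b, a ≠ b → eta p (g a * s) ≠ eta p (g b * s) := by
  obtain ⟨g, g1, g2, g3, g4⟩ := ht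
  have hp0 : 0 < p := by
    rcases Nat.eq_zero_or_pos p with h | h
    · rw [h, mul_zero, zero_dvd_iff] at hN
      exact absurd hN (NeZero.ne N)
    · exact h
  refine ⟨g, g1, g2, g3, fun a b hne => ?_⟩
  obtain ⟨k1, k2⟩ := g4 a b hne
  have h1 : ((2 * p : ℕ) : ℤ) ∣ (N : ℤ) := by exact_mod_cast hN
  refine D7_eta_ne hp0 (hs.of_isCoprime_of_dvd_right h1) ?_ ?_
  · push_cast
    exact k1
  · push_cast
    exact k2

private theorem D7_cos {q : ℕ} (hq : 0 < q) {s s' : ℤ}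
    (h : (2 * q : ℤ) ∣ s' - s ∨ (2 * q : ℤ) ∣ s' + s) :
    Real.cos (Real.pi * (s' : ℝ) / q) = Real.cos (Real.pi * s / q) ∧
      Real.sin (Real.pi * (s' : ℝ) / q) ^ 2 = Real.sin (Real.pi * s / q) ^ 2 := by
  have hq' : (q : ℝ) ≠ 0 := by exact_mod_cast hq.ne'
  rcases h with ⟨c, hc⟩ | ⟨c, hc⟩
  · have h1 : Real.pi * (s' : ℝ) / q = Real.pi * s / q + c * (2 * Real.pi) := by
      have h2 : (s' : ℝ) = s + 2 * q * c := by
        have h3 : s' = s + 2 * q * c := by linarith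
        rw [h3]
        push_cast
        ring
      rw [h2]
      field_simp
    rw [h1, Real.cos_add_int_mul_two_pi, Real.sin_add_int_mul_two_pi]
    exact ⟨rfl, rfl⟩
  · have h1 : Real.pi * (s' : ℝ) / q = -(Real.pi * s / q) + c * (2 * Real.pi) := by
      have h2 : (s' : ℝ) = -s + 2 * q * c := by
        have h3 : s' = -s + 2 * q * c := by linarith
        rw [h3]
        push_cast
        ring
      rw [h2]
      field_simp
    rw [h1, Real.cos_add_int_mul_two_pi, Real.sin_add_int_mul_two_pi, Real.cos_neg, Real.sin_neg,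
      neg_sq]
    exact ⟨rfl, rfl⟩

private theorem D7_mul {q : ℕ} {g : ℤ} (s : ℤ) (h : (2 * q : ℤ) ∣ g - 1 ∨ (2 * q : ℤ) ∣ g + 1) :
    (2 * q : ℤ) ∣ g * s - s ∨ (2 * q : ℤ) ∣ g * s + s := by
  rcases h with h | h
  · left
    have e : g * s - s = (g - 1) * s := by ring
    rw [e]
    exact h.mul_right s
  · right
    have e : g * s + s = (g + 1) * s := by ring
    rw [e]
    exact h.mul_right s

/-- the function does not change -/
theorem xi_inv {S : Finset ℕ} (hS : ∀ q ∈ S, 0 < q) {p : ℕ} {g : ℤ} (hg : KK (S.erase p) g)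
    (k : ℕ) (s : ℤ) :
    xi S p k (g * s) = xi S p k s ∧
      ∏ q ∈ S.erase p, Real.sin (Real.pi * ((g * s : ℤ) : ℝ) / q) ^ 2 =
        ∏ q ∈ S.erase p, Real.sin (Real.pi * s / q) ^ 2 := by
  constructor
  · unfold xi
    congr 1
    exact Finset.prod_congr rfl fun q hq =>
      (D7_cos (hS q (Finset.mem_of_mem_erase hq)) (D7_mul s (hg q hq))).1
  · exact Finset.prod_congr rfl fun q hq =>
      (D7_cos (hS q (Finset.mem_of_mem_erase hq)) (D7_mul s (hg q hq))).2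

theorem HH_inv {S : Finset ℕ} (hS : ∀ q ∈ S, 0 < q) {p : ℕ} (hp : p ∈ S) {g : ℤ} (hg : KK S g)
    (k : ℕ) (s : ℤ) : HH S p k (g * s) = HH S p k s := by
  obtain ⟨h1, h2⟩ := xi_inv hS (p := p) (fun q hq => hg q (Finset.mem_of_mem_erase hq)) k s
  obtain ⟨h3, h4⟩ := D7_cos (hS p hp) (D7_mul s (hg p hp))
  unfold HH
  rw [h1, h2, h4]
  unfold eta
  rw [h3]

/-- from the fourth powers to the equality -/
private theorem D7_real {ξ ξ' : ℝ} {η : Fin 3 → ℝ} (hη : ∀ a b, a ≠ b → η a ≠ η b)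
    (h1 : ∀ a, ξ + η a ≠ 0) (h2 : ∀ a, ξ' + η a ≠ 0)
    (h : ∀ a, ((ξ + η a) * (ξ' + η 0)) ^ 4 = ((ξ' + η a) * (ξ + η 0)) ^ 4) : ξ = ξ' := by
  have key : ∀ a b, a ≠ b → (ξ + η a) * (ξ' + η b) = (ξ + η b) * (ξ' + η a) → ξ = ξ' := by
    intro a b hab h3
    have h4 : (ξ - ξ') * (η b - η a) = 0 := by linear_combination h3
    rcases mul_eq_zero.mp h4 with h5 | h5
    · exact sub_eq_zero.mp h5
    · exact absurd (sub_eq_zero.mp h5) (hη b a (Ne.symm hab))
  have hs : ∀ a, (ξ + η a) * (ξ' + η 0) = (ξ' + η a) * (ξ + η 0) ∨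
      (ξ + η a) * (ξ' + η 0) = -((ξ' + η a) * (ξ + η 0)) := by
    intro a
    have h3 := h a
    have h4 : (((ξ + η a) * (ξ' + η 0)) ^ 2) ^ 2 = (((ξ' + η a) * (ξ + η 0)) ^ 2) ^ 2 := by
      rw [← pow_mul, ← pow_mul]
      exact h3
    have h5 := (pow_left_inj₀ (sq_nonneg _) (sq_nonneg _) two_ne_zero).mp h4
    exact sq_eq_sq_iff_eq_or_eq_neg.mp h5
  rcases hs 1 with h3 | h3
  · exact key 1 0 (by decide) (by linear_combination h3)
  · rcases hs 2 with h4 | h4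
    · exact key 2 0 (by decide) (by linear_combination h4)
    · refine key 1 2 (by decide) ?_
      have h5 : (ξ' + η 0) * ((ξ + η 1) * (ξ' + η 2)) = (ξ' + η 0) * ((ξ + η 2) * (ξ' + η 1)) := by
        linear_combination (ξ' + η 2) * h3 - (ξ' + η 1) * h4
      exact mul_left_cancel₀ (h2 0) h5

private theorem D7_xi_eq (h4 : 4 ∣ N) {S S' : Finset ℕ} (hS : IsLeaf S) (hS' : IsLeaf S')
    (hN : ∀ p ∈ S, 2 * p ∣ N) (hN' : ∀ p ∈ S', 2 * p ∣ N)
    {p : ℕ} (hp : p ∈ S) (hp' : p ∈ S') {Q : Finset ℕ} (ht : Trip N p Q)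
    (hQ : ∀ g : ℤ, IsCoprime g (N : ℤ) → KK Q g → KK (S.erase p) g ∧ KK (S'.erase p) g) {k k' : ℕ}
    (h : ∀ s g : ℤ, IsCoprime s (N : ℤ) → IsCoprime g (N : ℤ) →
      KK Q g →
      HH S p k (g * s) * HH S' p k' s = HH S' p k' (g * s) * HH S p k s)
    {s : ℤ} (hs : IsCoprime s (N : ℤ)) : xi S p k s = xi S' p k' s := by
  obtain ⟨g, g1, g2, g3, g4⟩ := three_eta ht (hN p hp) hs
  have hS0 : ∀ q ∈ S, 0 < q := fun q hq => by have := hS.two_le q hq; omega
  have hS0' : ∀ q ∈ S', 0 < q := fun q hq => by have := hS'.two_le q hq; omega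
  have hgs : ∀ a, IsCoprime (g a * s) (N : ℤ) := fun a => IsCoprime.mul_left (g1 a) hs
  have hx : ∀ a, xi S p k (g a * s) = xi S p k s := fun a =>
    (xi_inv hS0 (hQ _ (g1 a) fun q hq => Or.inl (g2 a q hq)).1 k s).1
  have hx' : ∀ a, xi S' p k' (g a * s) = xi S' p k' s :=
    fun a => (xi_inv hS0' (hQ _ (g1 a) fun q hq => Or.inl (g2 a q hq)).2 k' s).1
  refine D7_real (η := fun a => eta p (g a * s)) g4 (fun a => ?_) (fun a => ?_) fun a => ?_
  · have := xi_add_eta_ne hS hp k (D7_UU h4 hN (hgs a))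
    rw [hx] at this
    exact this
  · have := xi_add_eta_ne hS' hp' k' (D7_UU h4 hN' (hgs a))
    rw [hx'] at this
    exact this
  · have n1 := xi_add_eta_ne hS hp k (D7_UU h4 hN (hgs a))
    have n2 := xi_add_eta_ne hS' hp' k' (D7_UU h4 hN' (hgs a))
    have n3 := xi_add_eta_ne hS hp k (D7_UU h4 hN hs)
    have n4 := xi_add_eta_ne hS' hp' k' (D7_UU h4 hN' hs)
    have p1 := HH_pos hS hp k (D7_UU h4 hN (hgs a))
    have p2 := HH_pos hS' hp' k' (D7_UU h4 hN' hs)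
    have e := h s (g a) hs (g1 a) fun q hq => Or.inl (g2 a q hq)
    have hz : g 0 * s = s := by rw [g3, one_mul]
    show ((xi S p k s + eta p (g a * s)) * (xi S' p k' s + eta p (g 0 * s))) ^ 4 =
      ((xi S' p k' s + eta p (g a * s)) * (xi S p k s + eta p (g 0 * s))) ^ 4
    rw [hz]
    unfold HH at e p1 p2
    rw [hx, (xi_inv hS0 (hQ _ (g1 a) fun q hq => Or.inl (g2 a q hq)).1 k s).2] at e p1
    rw [hx', (xi_inv hS0' (hQ _ (g1 a) fun q hq => Or.inl (g2 a q hq)).2 k' s).2] at e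
    rw [hx] at n1
    rw [hx'] at n2
    obtain ⟨σ, hσ⟩ : ∃ σ, σ = Real.sin (Real.pi * ((g a * s : ℤ) : ℝ) / p) ^ 2 := ⟨_, rfl⟩
    obtain ⟨τ, hτ⟩ : ∃ τ, τ = Real.sin (Real.pi * (s : ℝ) / p) ^ 2 := ⟨_, rfl⟩
    obtain ⟨P, hP⟩ : ∃ P, P = ∏ q ∈ S.erase p, Real.sin (Real.pi * (s : ℝ) / q) ^ 2 := ⟨_, rfl⟩
    obtain ⟨P', hP'⟩ : ∃ P', P' = ∏ q ∈ S'.erase p, Real.sin (Real.pi * (s : ℝ) / q) ^ 2 := ⟨_, rfl⟩
    rw [← hσ, ← hτ, ← hP, ← hP'] at e
    rw [← hσ, ← hP] at p1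
    rw [← hτ, ← hP'] at p2
    have hne1 : σ * P ≠ 0 := by
      intro h0
      rw [h0, zero_div] at p1
      exact lt_irrefl _ p1
    have hne2 : τ * P' ≠ 0 := by
      intro h0
      rw [h0, zero_div] at p2
      exact lt_irrefl _ p2
    have m1 := pow_ne_zero 4 n1
    have m2 := pow_ne_zero 4 n2
    have m3 := pow_ne_zero 4 n3
    have m4 := pow_ne_zero 4 n4
    rw [div_mul_div_comm, div_mul_div_comm, div_eq_div_iff (mul_ne_zero m1 m4) (mul_ne_zero m2 m3)] at e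
    have hne : σ * P * (τ * P') ≠ 0 := mul_ne_zero hne1 hne2
    apply mul_left_cancel₀ hne
    rw [mul_pow, mul_pow]
    linear_combination -e

private theorem D7_cos_one {q : ℕ} (hq : 2 ≤ q) :
    0 ≤ Real.cos (Real.pi * ((1 : ℤ) : ℝ) / q) ∧ Real.cos (Real.pi * ((1 : ℤ) : ℝ) / q) < 1 := by
  have hq' : (2 : ℝ) ≤ q := by exact_mod_cast hq
  have hpi := Real.pi_pos
  have h1 : Real.pi * ((1 : ℤ) : ℝ) / q = Real.pi / q := by push_cast; rw [mul_one]
  rw [h1]
  have h2 : 0 < Real.pi / q := by positivity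
  have h3 : Real.pi / q ≤ Real.pi / 2 := div_le_div_of_nonneg_left hpi.le (by norm_num) hq'
  constructor
  · exact Real.cos_nonneg_of_neg_pi_div_two_le_of_le (by linarith) h3
  · have := Real.cos_lt_cos_of_nonneg_of_le_pi_div_two (x := 0) (y := Real.pi / q) le_rfl h3 h2
    rwa [Real.cos_zero] at this

private theorem D7_cos_inj {q q' : ℕ} (hq : 2 ≤ q) (hq' : 2 ≤ q')
    (h : Real.cos (Real.pi * ((1 : ℤ) : ℝ) / q) = Real.cos (Real.pi * ((1 : ℤ) : ℝ) / q')) :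
    q = q' := by
  have e : ∀ x : ℕ, Real.pi * ((1 : ℤ) : ℝ) / x = Real.pi / x := fun x => by push_cast; rw [mul_one]
  rw [e, e] at h
  have hpi := Real.pi_pos
  have hm : ∀ x : ℕ, 2 ≤ x → Real.pi / x ∈ Set.Icc 0 Real.pi := by
    intro x hx
    have hx' : (2 : ℝ) ≤ x := by exact_mod_cast hx
    constructor
    · positivity
    · rw [div_le_iff₀ (by linarith)]
      nlinarith
  have h1 := Real.injOn_cos (hm q hq) (hm q' hq') h
  have hqr : (q : ℝ) ≠ 0 := by positivity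
  have hqr' : (q' : ℝ) ≠ 0 := by positivity
  rw [div_eq_div_iff hqr hqr'] at h1
  have h2 := mul_left_cancel₀ hpi.ne' h1
  exact_mod_cast h2.symm

/-- the ratios of `HH` determine the other leaf -/
theorem set_eq (h4 : 4 ∣ N) {S S' : Finset ℕ} (hS : IsLeaf S) (hS' : IsLeaf S')
    (hN : ∀ p ∈ S, 2 * p ∣ N) (hN' : ∀ p ∈ S', 2 * p ∣ N)
    {p : ℕ} (hp : p ∈ S) (hp' : p ∈ S') {Q : Finset ℕ} (ht : Trip N p Q)
    (hQ : ∀ g : ℤ, IsCoprime g (N : ℤ) → KK Q g → KK (S.erase p) g ∧ KK (S'.erase p) g) {k k' : ℕ}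
    (h : ∀ s g : ℤ, IsCoprime s (N : ℤ) → IsCoprime g (N : ℤ) →
      KK Q g →
      HH S p k (g * s) * HH S' p k' s = HH S' p k' (g * s) * HH S p k s) :
    S = S' ∧ ∀ s : ℤ, IsCoprime s (N : ℤ) → FF S p k s = FF S' p k' s := by
  have hxi : ∀ s : ℤ, IsCoprime s (N : ℤ) → xi S p k s = xi S' p k' s :=
    fun s hs => D7_xi_eq h4 hS hS' hN hN' hp hp' ht hQ h hs
  constructor
  · have h1 := hxi 1 isCoprime_one_left
    have hprod : ∏ q ∈ S.erase p, Real.cos (Real.pi * ((1 : ℤ) : ℝ) / q) =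
        ∏ q ∈ S'.erase p, Real.cos (Real.pi * ((1 : ℤ) : ℝ) / q) := by
      unfold xi at h1
      have h2 := congrArg abs h1
      rw [abs_mul, abs_mul, abs_pow, abs_pow, abs_neg, abs_one, one_pow, one_pow, one_mul,
        one_mul] at h2
      rwa [abs_of_nonneg (Finset.prod_nonneg fun q hq =>
          (D7_cos_one (hS.two_le q (Finset.mem_of_mem_erase hq))).1),
        abs_of_nonneg (Finset.prod_nonneg fun q hq =>
          (D7_cos_one (hS'.two_le q (Finset.mem_of_mem_erase hq))).1)] at h2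
    have hc : (S.erase p).card ≤ 1 := by
      have := Finset.card_erase_add_one hp
      have := hS.card_le
      omega
    have hc' : (S'.erase p).card ≤ 1 := by
      have := Finset.card_erase_add_one hp'
      have := hS'.card_le
      omega
    have her : S.erase p = S'.erase p := by
      rcases Nat.le_one_iff_eq_zero_or_eq_one.mp hc with c | c
      · rw [Finset.card_eq_zero] at c
        rcases Nat.le_one_iff_eq_zero_or_eq_one.mp hc' with c' | c'
        · rw [Finset.card_eq_zero] at c'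
          rw [c, c']
        · obtain ⟨q, hq⟩ := Finset.card_eq_one.mp c'
          have hqS : q ∈ S' := Finset.mem_of_mem_erase (by rw [hq]; exact Finset.mem_singleton_self q)
          rw [c, hq, Finset.prod_empty, Finset.prod_singleton] at hprod
          exact absurd hprod.symm (D7_cos_one (hS'.two_le q hqS)).2.ne
      · obtain ⟨q, hq⟩ := Finset.card_eq_one.mp c
        have hqS : q ∈ S := Finset.mem_of_mem_erase (by rw [hq]; exact Finset.mem_singleton_self q)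
        rcases Nat.le_one_iff_eq_zero_or_eq_one.mp hc' with c' | c'
        · rw [Finset.card_eq_zero] at c'
          rw [c', hq, Finset.prod_empty, Finset.prod_singleton] at hprod
          exact absurd hprod (D7_cos_one (hS.two_le q hqS)).2.ne
        · obtain ⟨q', hq'⟩ := Finset.card_eq_one.mp c'
          have hqS' : q' ∈ S' :=
            Finset.mem_of_mem_erase (by rw [hq']; exact Finset.mem_singleton_self q')
          rw [hq, hq', Finset.prod_singleton, Finset.prod_singleton] at hprod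
          rw [hq, hq', D7_cos_inj (hS.two_le q hqS) (hS'.two_le q' hqS') hprod]
    rw [← Finset.insert_erase hp, her, Finset.insert_erase hp']
  · intro s hs
    unfold FF
    rw [hxi s hs]

/-- `FF` is not constant -/
theorem exists_FF_ne (h4 : 4 ∣ N) {S : Finset ℕ} (hS : IsLeaf S) (hN : ∀ p ∈ S, 2 * p ∣ N)
    {p : ℕ} (hp : p ∈ S) {Q : Finset ℕ} (ht : Trip N p Q)
    (hQ : ∀ g : ℤ, KK Q g → KK (S.erase p) g)
    (k : ℕ) : ∃ g : ℤ, IsCoprime g (N : ℤ) ∧ (∀ q ∈ Q, (2 * q : ℤ) ∣ g - 1) ∧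
      FF S p k g ≠ FF S p k 1 := by
  have hS0 : ∀ q ∈ S, 0 < q := fun q hq => by have := hS.two_le q hq; omega
  obtain ⟨g, g1, g2, g3, g4⟩ := three_eta ht (hN p hp)
    (isCoprime_one_left : IsCoprime (1 : ℤ) (N : ℤ))
  have hx : ∀ a, xi S p k (g a * 1) = xi S p k 1 := fun a =>
    (xi_inv hS0 (hQ _ fun q hq => Or.inl (g2 a q hq)) k 1).1
  simp only [mul_one] at g4 hx
  by_contra hcon
  push Not at hcon
  obtain ⟨ξ, hξ⟩ : ∃ ξ, ξ = xi S p k 1 := ⟨_, rfl⟩
  obtain ⟨c, hc⟩ : ∃ c, c = FF S p k 1 := ⟨_, rfl⟩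
  have hq : ∀ a, c * (ξ + eta p (g a)) ^ 2 = 4 * (1 + ξ * eta p (g a)) := by
    intro a
    have h1 := hcon (g a) (g1 a) (g2 a)
    have h2 := xi_add_eta_ne hS hp k (D7_UU h4 hN (g1 a))
    rw [← hc] at h1
    unfold FF at h1
    rw [hx, ← hξ] at h1
    rw [hx, ← hξ] at h2
    rw [div_eq_iff (pow_ne_zero 2 h2)] at h1
    exact h1.symm
  have d1 : eta p (g 1) - eta p (g 0) ≠ 0 := sub_ne_zero.mpr (g4 1 0 (by decide))
  have d2 : eta p (g 2) - eta p (g 0) ≠ 0 := sub_ne_zero.mpr (g4 2 0 (by decide))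
  have d3 : eta p (g 2) - eta p (g 1) ≠ 0 := sub_ne_zero.mpr (g4 2 1 (by decide))
  have q0 := hq 0
  have q1 := hq 1
  have q2 := hq 2
  generalize eta p (g 0) = x at *
  generalize eta p (g 1) = y at *
  generalize eta p (g 2) = z at *
  have e1 : (y - x) * (c * (y + x + 2 * ξ) - 4 * ξ) = 0 := by linear_combination q1 - q0
  have e2 : (z - x) * (c * (z + x + 2 * ξ) - 4 * ξ) = 0 := by linear_combination q2 - q0
  have e3 := (mul_eq_zero.mp e1).resolve_left d1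
  have e4 := (mul_eq_zero.mp e2).resolve_left d2
  have e5 : (z - y) * c = 0 := by linear_combination e4 - e3
  have e6 := (mul_eq_zero.mp e5).resolve_left d3
  rw [e6] at e3 q0
  have e7 : ξ = 0 := by linear_combination -e3 / 4
  rw [e7] at q0
  norm_num at q0

end Pool.Agent.GSP
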