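import Pool.Agent.GSP.Defs
import Pool.Agent.GSP.D2


set_option autoImplicit false

open Finset

namespace Pool.Agent.GSP

variable {N : ℕ} [NeZero N]

private theorem N4_dvd_pow {N e p : ℕ} (hN : N ≠ 0) (hp : p ≠ 0) (he : e ∣ N)
    (h : ∀ r : ℕ, r.Prime → r ∣ e → r ∣ p) : e ∣ p ^ N := by
  have he0 : e ≠ 0 := ne_zero_of_dvd_ne_zero hN he
  rw [← Nat.factorization_le_iff_dvd he0 (pow_ne_zero _ hp)]
  intro r
  by_cases hr : r.Prime
  · by_cases hre : r ∣ e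
    · have h1 : e.factorization r ≤ N.factorization r :=
        (Nat.factorization_le_iff_dvd he0 hN).mpr he r
      have h2 : N.factorization r < N := Nat.factorization_lt r hN
      have h3 : 1 ≤ p.factorization r :=
        (hr.dvd_iff_one_le_factorization hp).mp (h r hr hre)
      rw [Nat.factorization_pow]
      simp only [Finsupp.smul_apply, smul_eq_mul]
      nlinarith
    · rw [Nat.factorization_eq_zero_of_not_dvd hre]
      exact Nat.zero_le _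
  · rw [Nat.factorization_eq_zero_of_not_prime _ hr]
    exact Nat.zero_le _

private theorem N4_split {N p : ℕ} (hN : N ≠ 0) (hp : p ≠ 0) : ∃ m n : ℕ, N = m * n ∧
    Nat.Coprime n p ∧ m ∣ p ^ N := by
  refine ⟨N.gcd (p ^ N), N / N.gcd (p ^ N), (Nat.mul_div_cancel' (Nat.gcd_dvd_left _ _)).symm, ?_,
    Nat.gcd_dvd_right _ _⟩
  set m := N.gcd (p ^ N) with hm
  have hm0 : 0 < m := Nat.gcd_pos_of_pos_left _ (Nat.pos_of_ne_zero hN)
  have hmn : m * (N / m) = N := Nat.mul_div_cancel' (Nat.gcd_dvd_left _ _)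
  rw [Nat.coprime_iff_gcd_eq_one, ← Nat.coprime_iff_gcd_eq_one]
  apply Nat.Coprime.symm
  by_contra hc
  obtain ⟨l, hl, hlp, hln⟩ := Nat.Prime.not_coprime_iff_dvd.mp hc
  have h1 : m * l ∣ N := by
    rw [← hmn]
    exact Nat.mul_dvd_mul_left _ hln
  have h2 : m * l ∣ p ^ N := by
    apply N4_dvd_pow hN hp h1
    intro r hr hrd
    rcases (hr.dvd_mul).mp hrd with h3 | h3
    · exact hr.dvd_of_dvd_pow (h3.trans (Nat.gcd_dvd_right _ _))
    · rw [(Nat.prime_dvd_prime_iff_eq hr hl).mp h3]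
      exact hlp
  have h3 : m * l ∣ m := Nat.dvd_gcd h1 h2
  have h4 := Nat.le_of_dvd hm0 h3
  have := hl.two_le
  nlinarith

/-- the units -/
private theorem N4_unit {N p m n : ℕ} (hN : N = m * n) (hn : Nat.Coprime n p) (hm : m ∣ p ^ N)
    {a : ℤ} (ha : IsCoprime a (m : ℤ)) : ∃ u : ℤ, IsCoprime u (N : ℤ) ∧ (m : ℤ) ∣ u - a ∧
      (n : ℤ) ∣ u - 1 := by
  have hmn : Nat.Coprime m n := Nat.Coprime.coprime_dvd_left hm (Nat.Coprime.pow_left _ hn.symm)
  obtain ⟨x, y, hxy⟩ : IsCoprime (m : ℤ) (n : ℤ) := Nat.isCoprime_iff_coprime.mpr hmn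
  refine ⟨1 + (a - 1) * (y * n), ?_, ?_, ?_⟩
  · rw [hN]
    push_cast
    refine IsCoprime.mul_right ?_ ?_
    · obtain ⟨s, t, hst⟩ := ha
      -- u = a - (a - 1) * x * m
      refine ⟨s, t + s * (a - 1) * x, ?_⟩
      linear_combination hst + s * (a - 1) * hxy
    · exact ⟨1, -((a - 1) * y), by ring⟩
  · exact ⟨-((a - 1) * x), by linear_combination (a - 1) * hxy⟩
  · exact ⟨(a - 1) * y, by ring⟩

private theorem N4_odd {N : ℕ} (h2 : 2 ∣ N) {u : ℤ} (hu : IsCoprime u (N : ℤ)) :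
    (2 : ℤ) ∣ u - 1 ∧ (2 : ℤ) ∣ u + 1 := by
  have h3 : IsCoprime u 2 := by
    have : (2 : ℤ) ∣ (N : ℤ) := by exact_mod_cast h2
    exact hu.of_isCoprime_of_dvd_right this
  have h4 : ¬ (2 : ℤ) ∣ u := by
    intro h
    have := h3.isUnit_of_dvd' h dvd_rfl
    rw [Int.isUnit_iff] at this
    omega
  constructor <;> omega

/-- `2 q` divides if `q` divides and the number is even, for odd `q` -/
private theorem N4_two {q : ℕ} (hq : ¬ 2 ∣ q) {x : ℤ} (h1 : (q : ℤ) ∣ x) (h2 : (2 : ℤ) ∣ x) :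
    (2 * q : ℤ) ∣ x := by
  have h3 : IsCoprime (2 : ℤ) (q : ℤ) := by
    have : Nat.Coprime 2 q := (Nat.Prime.coprime_iff_not_dvd Nat.prime_two).mpr hq
    exact_mod_cast Nat.isCoprime_iff_coprime.mpr this
  exact h3.mul_dvd h2 h1

/-- the part of `N` at the primes of `p` -/
private theorem N4_in {N p m n e : ℕ} (hN : N = m * n) (hn : Nat.Coprime n p) (he : e ∣ N)
    (h : ∀ r : ℕ, r.Prime → r ∣ e → r ∣ p) : e ∣ m := by
  have h1 : Nat.Coprime e n := by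
    by_contra hc
    obtain ⟨l, hl, hle, hln⟩ := Nat.Prime.not_coprime_iff_dvd.mp hc
    have h2 := Nat.dvd_gcd hln (h l hl hle)
    rw [hn] at h2
    exact hl.one_lt.ne' (Nat.dvd_one.mp h2)
  rw [hN] at he
  exact h1.dvd_of_dvd_mul_right he

private theorem N4_out {N p m n e : ℕ} (hN : N = m * n) (hm : m ∣ p ^ N) (he : e ∣ N)
    (h : Nat.Coprime e p) : e ∣ n := by
  have h1 : Nat.Coprime e m := Nat.Coprime.coprime_dvd_right hm (Nat.Coprime.pow_right _ h)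
  rw [hN] at he
  exact h1.dvd_of_dvd_mul_left he

/-- the membership in the group -/
private theorem N4_KK {N p m n : ℕ} (h4 : 4 ∣ N) (hN : N = m * n) (hn : Nat.Coprime n p)
    (hm : m ∣ p ^ N) {S : Finset ℕ} (hS : IsLeaf S) (hNS : ∀ p ∈ S, 2 * p ∣ N) (hp : p ∈ S)
    {u b : ℤ} (hb : b = 1 ∨ b = -1) (hu : IsCoprime u (N : ℤ)) (hn1 : (n : ℤ) ∣ u - 1)
    (hpp : ∀ e : ℕ, e ∣ m → e ∣ 2 * p → (e : ℤ) ∣ u - b) : KK S u := by
  have h2N : 2 ∣ N := Dvd.dvd.trans (by norm_num) h4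
  have hodd := N4_odd h2N hu
  have hb2 : (2 : ℤ) ∣ u - b := by
    rcases hb with rfl | rfl
    · exact hodd.1
    · have := hodd.2; rwa [sub_neg_eq_add]
  intro q hq
  by_cases hqp : q = p
  · subst hqp
    have hqN : q ∣ N := (Dvd.intro_left 2 rfl).trans (hNS q hq)
    have hkey : (2 * q : ℤ) ∣ u - b := by
      by_cases h2 : 2 ∣ q
      · have h1 : 2 * q ∣ m := by
          refine N4_in hN hn (hNS q hq) fun r hr hrd => ?_
          rcases (hr.dvd_mul).mp hrd with h3 | h3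
          · exact h3.trans h2
          · exact h3
        have := hpp (2 * q) h1 dvd_rfl
        push_cast at this
        exact this
      · have h1 : q ∣ m := N4_in hN hn hqN fun r _ hrd => hrd
        exact N4_two h2 (hpp q h1 (Dvd.intro_left 2 rfl)) hb2
    rcases hb with rfl | rfl
    · left; exact hkey
    · right; rwa [sub_neg_eq_add] at hkey
  · left
    have hc : Nat.Coprime q p := hS.coprime q hq p hp hqp
    have hqN : q ∣ N := (Dvd.intro_left 2 rfl).trans (hNS q hq)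
    by_cases h2 : 2 ∣ q
    · have h2p : Nat.Coprime 2 p := Nat.Coprime.coprime_dvd_left h2 hc
      have h1 : 2 * q ∣ n := N4_out hN hm (hNS q hq) (Nat.Coprime.mul_left h2p hc)
      have h3 : ((2 * q : ℕ) : ℤ) ∣ (n : ℤ) := by exact_mod_cast h1
      push_cast at h3
      exact h3.trans hn1
    · have h1 : q ∣ n := N4_out hN hm hqN hc
      have h3 : (q : ℤ) ∣ (n : ℤ) := by exact_mod_cast h1
      exact N4_two h2 (h3.trans hn1) hodd.1

private theorem N4_contra {l : ℕ} (hl : l.Prime) {u : ℤ} (h1 : (l : ℤ) ∣ u - 1 ∧ (l = 2 → (4 : ℤ) ∣ u - 1))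
    (h2 : (l : ℤ) ∣ u + 1 ∧ (l = 2 → (4 : ℤ) ∣ u + 1)) : False := by
  have hl3 : (l : ℤ) ∣ 2 := by
    have := dvd_sub h2.1 h1.1
    have e : u + 1 - (u - 1) = 2 := by ring
    rwa [e] at this
  have hl4 : l ∣ 2 := by exact_mod_cast hl3
  have hl5 : l = 2 := (Nat.prime_dvd_prime_iff_eq hl Nat.prime_two).mp hl4
  have h5 := h1.2 hl5
  have h6 := h2.2 hl5
  omega

private theorem N4_at_in {N m n p l : ℕ} (h4 : 4 ∣ N) (hN : N = m * n) (hn : Nat.Coprime n p)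
    (hl : l.Prime) (hlp : l ∣ p) (hlN : l ∣ N) {u a : ℤ} (hum : (m : ℤ) ∣ u - a) :
    (l : ℤ) ∣ u - a ∧ (l = 2 → (4 : ℤ) ∣ u - a) := by
  constructor
  · refine (Int.natCast_dvd_natCast.mpr (N4_in hN hn hlN fun r hr hrd => ?_)).trans hum
    rw [(Nat.prime_dvd_prime_iff_eq hr hl).mp hrd]
    exact hlp
  · rintro rfl
    have h5 : 4 ∣ m := N4_in hN hn h4 fun r hr hrd => by
      have h6 : r ∣ 2 ^ 2 := hrd
      rw [(Nat.prime_dvd_prime_iff_eq hr Nat.prime_two).mp (hr.dvd_of_dvd_pow h6)]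
      exact hlp
    exact (Int.natCast_dvd_natCast.mpr h5).trans hum

private theorem N4_at_out {N m n p l : ℕ} (h4 : 4 ∣ N) (hN : N = m * n) (hm : m ∣ p ^ N)
    (hl : l.Prime) (hlp : ¬ l ∣ p) (hlN : l ∣ N) {u : ℤ} (hun : (n : ℤ) ∣ u - 1) :
    (l : ℤ) ∣ u - 1 ∧ (l = 2 → (4 : ℤ) ∣ u - 1) := by
  have hcop : Nat.Coprime l p := (Nat.Prime.coprime_iff_not_dvd hl).mpr hlp
  constructor
  · exact (Int.natCast_dvd_natCast.mpr (N4_out hN hm hlN hcop)).trans hun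
  · rintro rfl
    have : 4 ∣ n := N4_out hN hm h4 (by
      have : (4 : ℕ) = 2 ^ 2 := by norm_num
      rw [this]
      exact Nat.Coprime.pow_left _ hcop)
    exact (Int.natCast_dvd_natCast.mpr this).trans hun

private theorem N4_of_dvd {q l : ℕ} (hlq : l ∣ q) {x : ℤ} (h : (2 * q : ℤ) ∣ x) :
    (l : ℤ) ∣ x ∧ (l = 2 → (4 : ℤ) ∣ x) := by
  constructor
  · exact ((Int.natCast_dvd_natCast.mpr hlq).trans (Dvd.intro_left 2 rfl)).trans h
  · rintro rfl
    obtain ⟨c, hc⟩ := hlq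
    refine Dvd.dvd.trans ⟨(c : ℤ), ?_⟩ h
    rw [hc]
    push_cast
    ring

/-- The prime factors of a member of `S'` which has a common prime factor with `p ∈ S` divide `p`. -/
private theorem N4_half {N : ℕ} [NeZero N] (h4 : 4 ∣ N) {S S' : Finset ℕ} (hS : IsLeaf S)
    (hN : ∀ p ∈ S, 2 * p ∣ N) (hN' : ∀ p ∈ S', 2 * p ∣ N)
    (h : ∀ s : ℤ, IsCoprime s (N : ℤ) → KK S s → KK S' s) {l : ℕ} (hl : l.Prime)
    {p p' : ℕ} (hp : p ∈ S) (hlp : l ∣ p) (hp' : p' ∈ S') (hlp' : l ∣ p') :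
    ∀ r : ℕ, r.Prime → r ∣ p' → r ∣ p := by
  have hp0 : p ≠ 0 := by have := hS.two_le p hp; omega
  obtain ⟨m, n, hmn, hnp, hm⟩ := N4_split (NeZero.ne N) hp0
  obtain ⟨u, hu, hum, hun⟩ := N4_unit hmn hnp hm (a := -1) (isCoprime_one_left.neg_left)
  have hKK : KK S u := N4_KK h4 hmn hnp hm hS hN hp (Or.inr rfl) hu hun fun e he _ =>
    (Int.natCast_dvd_natCast.mpr he).trans hum
  have hpN : p ∣ N := (Dvd.intro_left 2 rfl).trans (hN p hp)
  have hp'N : p' ∣ N := (Dvd.intro_left 2 rfl).trans (hN' p' hp')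
  have hlu := N4_at_in h4 hmn hnp hl hlp (hlp.trans hpN) hum
  rw [sub_neg_eq_add] at hlu
  have h2 : (2 * p' : ℤ) ∣ u + 1 := by
    rcases h u hu hKK p' hp' with h1 | h1
    · exact (N4_contra hl (N4_of_dvd hlp' h1) hlu).elim
    · exact h1
  intro r hr hrp'
  by_contra hc
  exact N4_contra hr (N4_at_out h4 hmn hm hr hc (hrp'.trans hp'N) hun) (N4_of_dvd hrp' h2)

/-- Divisibility for members with the same prime factors. -/
private theorem N4_dvd {N : ℕ} [NeZero N] (h4 : 4 ∣ N) {S S' : Finset ℕ} (hS : IsLeaf S)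
    (hN : ∀ p ∈ S, 2 * p ∣ N) (hN' : ∀ p ∈ S', 2 * p ∣ N)
    (h : ∀ s : ℤ, IsCoprime s (N : ℤ) → KK S s → KK S' s) {l : ℕ} (hl : l.Prime)
    {p p' : ℕ} (hp : p ∈ S) (hlp : l ∣ p) (hp' : p' ∈ S') (hlp' : l ∣ p')
    (hpr : ∀ l : ℕ, l.Prime → l ∣ p' → l ∣ p) : p' ∣ p := by
  have hp0 : p ≠ 0 := by have := hS.two_le p hp; omega
  obtain ⟨m, n, hmn, hnp, hm⟩ := N4_split (NeZero.ne N) hp0
  have hcop : IsCoprime (1 + 2 * (p : ℤ)) (m : ℤ) := by
    have h1 : IsCoprime (1 + 2 * (p : ℤ)) (p : ℤ) := ⟨1, -2, by ring⟩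
    have h2 : IsCoprime (1 + 2 * (p : ℤ)) ((p : ℤ) ^ N) := h1.pow_right
    refine h2.of_isCoprime_of_dvd_right ?_
    exact_mod_cast hm
  obtain ⟨u, hu, hum, hun⟩ := N4_unit hmn hnp hm (a := 1 + 2 * (p : ℤ)) hcop
  have hKK : KK S u := N4_KK h4 hmn hnp hm hS hN hp (Or.inl rfl) hu hun fun e he he2 => by
    have h1 : (e : ℤ) ∣ 2 * (p : ℤ) := by exact_mod_cast he2
    have h2 : (e : ℤ) ∣ u - (1 + 2 * (p : ℤ)) := (Int.natCast_dvd_natCast.mpr he).trans hum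
    have h3 := dvd_add h2 h1
    have e1 : u - (1 + 2 * (p : ℤ)) + 2 * (p : ℤ) = u - 1 := by ring
    rwa [e1] at h3
  have hpN : p ∣ N := (Dvd.intro_left 2 rfl).trans (hN p hp)
  have hp'N : p' ∣ N := (Dvd.intro_left 2 rfl).trans (hN' p' hp')
  have hlu : (l : ℤ) ∣ u - 1 ∧ (l = 2 → (4 : ℤ) ∣ u - 1) := by
    have h1 := N4_at_in h4 hmn hnp hl hlp (hlp.trans hpN) hum
    have h2 := N4_of_dvd (x := 2 * (p : ℤ)) hlp dvd_rfl
    have e1 : u - (1 + 2 * (p : ℤ)) + 2 * (p : ℤ) = u - 1 := by ring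
    constructor
    · have h3 := dvd_add h1.1 h2.1
      rwa [e1] at h3
    · intro hl2
      have h3 := dvd_add (h1.2 hl2) (h2.2 hl2)
      rwa [e1] at h3
  have h1 := h u hu hKK p' hp'
  have h2 : (2 * p' : ℤ) ∣ u - 1 := by
    rcases h1 with h1 | h1
    · exact h1
    · exact (N4_contra hl hlu (N4_of_dvd hlp' h1)).elim
  by_cases h2p : 2 ∣ p'
  · have h3 : 2 * p' ∣ m := by
      refine N4_in hmn hnp (hN' p' hp') fun r hr hrd => ?_
      rcases (hr.dvd_mul).mp hrd with h4 | h4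
      · exact h4.trans (hpr 2 Nat.prime_two h2p)
      · exact hpr r hr h4
    have h5 : ((2 * p' : ℕ) : ℤ) ∣ u - (1 + 2 * (p : ℤ)) :=
      (Int.natCast_dvd_natCast.mpr h3).trans hum
    have h6 : ((2 * p' : ℕ) : ℤ) ∣ u - 1 := by push_cast; exact h2
    have h7 := dvd_sub h6 h5
    have e1 : u - 1 - (u - (1 + 2 * (p : ℤ))) = ((2 * p : ℕ) : ℤ) := by push_cast; ring
    rw [e1] at h7
    have h8 : 2 * p' ∣ 2 * p := Int.natCast_dvd_natCast.mp h7
    exact Nat.dvd_of_mul_dvd_mul_left (by norm_num) h8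
  · have h3 : p' ∣ m := N4_in hmn hnp hp'N hpr
    have h5 : (p' : ℤ) ∣ u - (1 + 2 * (p : ℤ)) := (Int.natCast_dvd_natCast.mpr h3).trans hum
    have h6 : (p' : ℤ) ∣ u - 1 := (Dvd.intro_left 2 rfl).trans h2
    have h7 := dvd_sub h6 h5
    have e1 : u - 1 - (u - (1 + 2 * (p : ℤ))) = ((2 * p : ℕ) : ℤ) := by push_cast; ring
    rw [e1] at h7
    have h8 : p' ∣ 2 * p := Int.natCast_dvd_natCast.mp h7
    have h9 : Nat.Coprime p' 2 := ((Nat.Prime.coprime_iff_not_dvd Nat.prime_two).mpr h2p).symm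
    exact h9.dvd_of_dvd_mul_left h8

/-- Some member of `S'` has a common prime factor with `p`. -/
private theorem N4_exists {N : ℕ} [NeZero N] (h4 : 4 ∣ N) {S S' : Finset ℕ}
    (hN : ∀ p ∈ S, 2 * p ∣ N) (hN' : ∀ p ∈ S', 2 * p ∣ N)
    (h : ∀ s : ℤ, IsCoprime s (N : ℤ) → KK S' s → KK S s) {p : ℕ} (hp : p ∈ S) (hp4 : 4 ≤ p) :
    ∃ p' ∈ S', ∃ l : ℕ, l.Prime ∧ l ∣ p ∧ l ∣ p' := by
  by_contra hcon
  push Not at hcon
  have hcop : ∀ q ∈ S', Nat.Coprime q p := by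
    intro q hq
    by_contra hc
    obtain ⟨l, hl, hlq, hlp⟩ := Nat.Prime.not_coprime_iff_dvd.mp hc
    exact hcon q hq l hl hlp hlq
  have h2N : 2 ∣ N := Dvd.dvd.trans (by norm_num) h4
  have hp0 : p ≠ 0 := by omega
  obtain ⟨m, n, hmn, hnp, hm⟩ := N4_split (NeZero.ne N) hp0
  have hpN : p ∣ N := (Dvd.intro_left 2 rfl).trans (hN p hp)
  have hpm : p ∣ m := N4_in hmn hnp hpN fun r _ hrd => hrd
  have key : ∀ a : ℤ, IsCoprime a (m : ℤ) → ∃ u : ℤ, (m : ℤ) ∣ u - a ∧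
      ((2 * p : ℤ) ∣ u - 1 ∨ (2 * p : ℤ) ∣ u + 1) := by
    intro a ha
    obtain ⟨u, hu, hum, hun⟩ := N4_unit hmn hnp hm ha
    refine ⟨u, hum, h u hu ?_ p hp⟩
    intro q hq
    left
    have hqN : q ∣ N := (Dvd.intro_left 2 rfl).trans (hN' q hq)
    by_cases h2 : 2 ∣ q
    · have h2p : Nat.Coprime 2 p := Nat.Coprime.coprime_dvd_left h2 (hcop q hq)
      have h1 : 2 * q ∣ n := N4_out hmn hm (hN' q hq) (Nat.Coprime.mul_left h2p (hcop q hq))
      have h3 : ((2 * q : ℕ) : ℤ) ∣ (n : ℤ) := by exact_mod_cast h1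
      push_cast at h3
      exact h3.trans hun
    · have h1 : q ∣ n := N4_out hmn hm hqN (hcop q hq)
      have h3 : (q : ℤ) ∣ (n : ℤ) := by exact_mod_cast h1
      exact N4_two h2 (h3.trans hun) (N4_odd h2N hu).1
  by_cases h2 : 2 ∣ p
  · have h2pm : 2 * p ∣ m := by
      refine N4_in hmn hnp (hN p hp) fun r hr hrd => ?_
      rcases (hr.dvd_mul).mp hrd with h3 | h3
      · exact h3.trans h2
      · exact h3
    have hcop1 : IsCoprime ((p : ℤ) + 1) (m : ℤ) := by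
      have h1 : IsCoprime ((p : ℤ) + 1) (p : ℤ) := ⟨1, -1, by ring⟩
      have h3 : IsCoprime ((p : ℤ) + 1) ((p : ℤ) ^ N) := h1.pow_right
      refine h3.of_isCoprime_of_dvd_right ?_
      exact_mod_cast hm
    obtain ⟨u, hum, hor⟩ := key _ hcop1
    have h5 : (2 * p : ℤ) ∣ u - ((p : ℤ) + 1) := by
      have : ((2 * p : ℕ) : ℤ) ∣ u - ((p : ℤ) + 1) := (Int.natCast_dvd_natCast.mpr h2pm).trans hum
      push_cast at this
      exact this
    rcases hor with h6 | h6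
    · have h7 := dvd_sub h6 h5
      have e1 : u - 1 - (u - ((p : ℤ) + 1)) = p := by ring
      rw [e1] at h7
      have h8 := Int.le_of_dvd (by omega) h7
      omega
    · have h7 := dvd_sub h6 h5
      have e1 : u + 1 - (u - ((p : ℤ) + 1)) = p + 2 := by ring
      rw [e1] at h7
      have h8 := Int.le_of_dvd (by omega) h7
      omega
  · have hcop2 : IsCoprime (2 : ℤ) (m : ℤ) := by
      have h1 : IsCoprime (2 : ℤ) (p : ℤ) := by
        have : Nat.Coprime 2 p := (Nat.Prime.coprime_iff_not_dvd Nat.prime_two).mpr h2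
        exact_mod_cast Nat.isCoprime_iff_coprime.mpr this
      have h3 : IsCoprime (2 : ℤ) ((p : ℤ) ^ N) := h1.pow_right
      refine h3.of_isCoprime_of_dvd_right ?_
      exact_mod_cast hm
    obtain ⟨u, hum, hor⟩ := key _ hcop2
    have h5 : (p : ℤ) ∣ u - 2 := (Int.natCast_dvd_natCast.mpr hpm).trans hum
    rcases hor with h6 | h6
    · have h6' : (p : ℤ) ∣ u - 1 := (Dvd.intro_left 2 rfl).trans h6
      have h7 := dvd_sub h6' h5
      have e1 : u - 1 - (u - 2) = 1 := by ring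
      rw [e1] at h7
      have h8 := Int.le_of_dvd (by omega) h7
      omega
    · have h6' : (p : ℤ) ∣ u + 1 := (Dvd.intro_left 2 rfl).trans h6
      have h7 := dvd_sub h6' h5
      have e1 : u + 1 - (u - 2) = 3 := by ring
      rw [e1] at h7
      have h8 := Int.le_of_dvd (by omega) h7
      omega

theorem leaf_mem (h4 : 4 ∣ N) {S S' : Finset ℕ} (hS : IsLeaf S) (hS' : IsLeaf S')
    (hN : ∀ p ∈ S, 2 * p ∣ N) (hN' : ∀ p ∈ S', 2 * p ∣ N)
    (h : ∀ s : ℤ, IsCoprime s (N : ℤ) → (KK S s ↔ KK S' s)) {p : ℕ} (hp : p ∈ S) (hp4 : 4 ≤ p) :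
    p ∈ S' := by
  have h1 : ∀ s : ℤ, IsCoprime s (N : ℤ) → KK S s → KK S' s := fun s hs => (h s hs).mp
  have h2 : ∀ s : ℤ, IsCoprime s (N : ℤ) → KK S' s → KK S s := fun s hs => (h s hs).mpr
  obtain ⟨p', hp', l, hl, hlp, hlp'⟩ := N4_exists h4 hN hN' h2 hp hp4
  have a1 := N4_half h4 hS hN hN' h1 hl hp hlp hp' hlp'
  have a2 := N4_half h4 hS' hN' hN h2 hl hp' hlp' hp hlp
  have h3 : p = p' := Nat.dvd_antisymm (N4_dvd h4 hS' hN' hN h2 hl hp' hlp' hp hlp a2)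
    (N4_dvd h4 hS hN hN' h1 hl hp hlp hp' hlp' a1)
  rw [h3]
  exact hp'

end Pool.Agent.GSP
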