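import Pool.Agent.GSP.Defs
import Pool.Agent.GSP.D4
import Pool.Agent.GSP.D7
import Pool.Agent.GSP.N4

set_option autoImplicit false

open Finset

namespace Pool.Agent.GSP

variable {N : ℕ} [NeZero N] {I I' : Type} [Fintype I] [Fintype I']

omit [NeZero N] in
private theorem d8_uu (h4 : 4 ∣ N) {S : Finset ℕ} (hS : ∀ p ∈ S, 2 * p ∣ N) {s : ℤ}
    (hs : IsCoprime s (N : ℤ)) : UU S s := by
  have h2 : IsCoprime s (2 : ℤ) := by
    refine hs.of_isCoprime_of_dvd_right ?_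
    have : (2 : ℕ) ∣ N := Dvd.dvd.trans (by norm_num) h4
    exact_mod_cast this
  refine ⟨?_, fun p hp => ?_⟩
  · rw [← Int.not_even_iff_odd]
    intro he
    have h3 : (2 : ℤ) ∣ 1 := by
      obtain ⟨a, b, hab⟩ := h2
      rw [← hab]
      exact dvd_add (he.two_dvd.mul_left a) (dvd_mul_left 2 b)
    norm_num at h3
  · refine hs.of_isCoprime_of_dvd_right ?_
    have : p ∣ N := (dvd_mul_left p 2).trans (hS p hp)
    exact_mod_cast this

omit [NeZero N] in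
/-- all units are `± 1` modulo `4` and modulo `6` -/
theorem KK_small (h4 : 4 ∣ N) {q : ℕ} (hq : 2 ≤ q) (hq4 : q < 4) (hN : 2 * q ∣ N) {g : ℤ}
    (hg : IsCoprime g (N : ℤ)) : (2 * q : ℤ) ∣ g - 1 ∨ (2 * q : ℤ) ∣ g + 1 := by
  have h2 : ¬ (2 : ℤ) ∣ g := by
    intro h
    have h5 : (2 : ℤ) ∣ (N : ℤ) := by
      have : (2 : ℕ) ∣ N := Dvd.dvd.trans (by norm_num) h4
      exact_mod_cast this
    have := hg.isUnit_of_dvd' h h5
    rw [Int.isUnit_iff] at this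
    omega
  interval_cases q
  · push_cast
    omega
  · have h3 : ¬ (3 : ℤ) ∣ g := by
      intro h
      have h5 : (3 : ℤ) ∣ (N : ℤ) := by
        have : (3 : ℕ) ∣ N := Dvd.dvd.trans (by norm_num) hN
        exact_mod_cast this
      have := hg.isUnit_of_dvd' h h5
      rw [Int.isUnit_iff] at this
      omega
    have e1 : g % 2 = 1 := by omega
    have e2 : g % 3 ≠ 0 := fun h => h3 (Int.dvd_of_emod_eq_zero h)
    have e3 : g % 6 = 1 ∨ g % 6 = 5 := by omega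
    have e4 : (2 : ℤ) * ((3 : ℕ) : ℤ) = 6 := by norm_num
    rw [e4]
    rcases e3 with e | e
    · left
      omega
    · right
      omega

omit [NeZero N] in
theorem Trip.four (h4 : 4 ∣ N) {p : ℕ} {Q : Finset ℕ} (h : Trip N p Q) (hp : 2 ≤ p)
    (hN : 2 * p ∣ N) : 4 ≤ p := by
  by_contra hc
  obtain ⟨g, g1, g2, g3, g4⟩ := h
  have h1 := KK_small h4 hp (by omega) hN (g1 1)
  have h2 := g4 1 0 (by decide)
  rw [g3] at h2
  rcases h1 with h1 | h1
  · exact h2.1 h1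
  · exact h2.2 h1

/-- the decoding of the nodes with leaves -/
theorem fam_decode (h4 : 4 ∣ N) (F : Fam N I) (F' : Fam N I') {C G G' : ℝ} (hG : 0 < G)
    (hG' : 0 < G')
    (h : ∀ s : ℤ, IsCoprime s (N : ℤ) → ∑ i, F.c i * F.f i s = ∑ i, F'.c i * F'.f i s + C)
    (h' : ∀ s : ℤ, IsCoprime s (N : ℤ) → G * ∏ i, HH (F.S i) (F.p i) (F.k i) s =
      G' * ∏ i, HH (F'.S i) (F'.p i) (F'.k i) s) :
    ∃ τ : I ≃ I', ∀ i, F'.S (τ i) = F.S i ∧ F'.c (τ i) = F.c i ∧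
      ∀ s : ℤ, IsCoprime s (N : ℤ) → F'.f (τ i) s = F.f i s := by
  classical
  obtain ⟨τ, hτ⟩ := fam_match h4 F F' h
  refine ⟨τ, fun i => ?_⟩
  obtain ⟨hK, hpr, hh⟩ := hτ i
  have hp4 : 4 ≤ F.p i := (F.three i).four h4 ((F.leaf i).two_le _ (F.mem i)) (F.dvdN i _ (F.mem i))
  have hp' : F.p i ∈ F'.S (τ i) :=
    leaf_mem h4 (F.leaf i) (F'.leaf (τ i)) (F.dvdN i) (F'.dvdN (τ i)) hK (F.mem i) hp4
  have hQ : ∀ g : ℤ, IsCoprime g (N : ℤ) → KK (F.Q i) g →
      KK ((F.S i).erase (F.p i)) g ∧ KK ((F'.S (τ i)).erase (F.p i)) g := by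
    intro g hg hgQ
    refine ⟨fun q hq => ?_, fun q hq => ?_⟩
    · obtain ⟨hq1, hq2⟩ := mem_erase.1 hq
      exact hgQ q (F.own i q hq2 hq1)
    · obtain ⟨hq1, hq2⟩ := mem_erase.1 hq
      rcases Nat.lt_or_ge q 4 with h5 | h5
      · exact KK_small h4 ((F'.leaf (τ i)).two_le q hq2) h5 (F'.dvdN (τ i) q hq2) hg
      · have h6 : q ∈ F.S i := leaf_mem h4 (F'.leaf (τ i)) (F.leaf i) (F'.dvdN (τ i)) (F.dvdN i)
          (fun s hs => (hK s hs).symm) hq2 h5
        exact hgQ q (F.own i q h6 hq1)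
  have hset := set_eq h4 (F.leaf i) (F'.leaf (τ i)) (F.dvdN i) (F'.dvdN (τ i)) (F.mem i) hp'
    (F.three i) hQ (k := F.k i) (k' := F'.k (τ i)) (by
      intro s g hs hg hgd
      have A := h' s hs
      have B := h' (g * s) (hg.mul_left hs)
      rw [← mul_prod_erase univ _ (mem_univ i), ← mul_prod_erase univ _ (mem_univ (τ i))] at A B
      have e1 : ∏ j ∈ univ.erase i, HH (F.S j) (F.p j) (F.k j) (g * s) =
          ∏ j ∈ univ.erase i, HH (F.S j) (F.p j) (F.k j) s :=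
        prod_congr rfl fun j hj => HH_inv (fun q hq => by
          have := (F.leaf j).two_le q hq
          omega) (F.mem j) (fun q hq => hgd q (F.priv i j (ne_of_mem_erase hj) q hq)) _ s
      have e2 : ∏ j ∈ univ.erase (τ i), HH (F'.S j) (F'.p j) (F'.k j) (g * s) =
          ∏ j ∈ univ.erase (τ i), HH (F'.S j) (F'.p j) (F'.k j) s :=
        prod_congr rfl fun j hj => HH_inv (fun q hq => by
          have := (F'.leaf j).two_le q hq
          omega) (F'.mem j) (hpr j (ne_of_mem_erase hj) g hg hgd) _ s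
      rw [e1, e2] at B
      rw [HH_symm (F'.leaf (τ i)) (F'.mem (τ i)) hp'] at A B
      have R : 0 < ∏ j ∈ univ.erase i, HH (F.S j) (F.p j) (F.k j) s :=
        prod_pos fun j _ => HH_pos (F.leaf j) (F.mem j) _ (d8_uu h4 (F.dvdN j) hs)
      have hGR : G * ∏ j ∈ univ.erase i, HH (F.S j) (F.p j) (F.k j) s ≠ 0 := (mul_pos hG R).ne'
      refine mul_left_cancel₀ hGR ?_
      linear_combination (HH (F'.S (τ i)) (F.p i) (F'.k (τ i)) s) * B -
        (HH (F'.S (τ i)) (F.p i) (F'.k (τ i)) (g * s)) * A)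
  obtain ⟨hS, hF⟩ := hset
  have hff : ∀ s : ℤ, IsCoprime s (N : ℤ) → F'.f (τ i) s = F.f i s := by
    intro s hs
    unfold Fam.f
    rw [FF_symm (F'.leaf (τ i)) (F'.mem (τ i)) hp']
    exact (hF s hs).symm
  refine ⟨hS.symm, ?_, hff⟩
  obtain ⟨χ, c1, c2⟩ := exists_chi F i
  have h5 := hh χ c2
  rw [hat_congr χ hff] at h5
  have h6 : hat χ (F.f i) ≠ 0 := (hat_f_ne h4 F).2 c1
  have h9 := mul_right_cancel₀ h6 h5
  exact_mod_cast h9.symm

end Pool.Agent.GSP
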