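import Pool.Agent.GSP.Defs
import Pool.Agent.GSP.D4
import Pool.Agent.GSP.D7

set_option autoImplicit false

open Finset

namespace Pool.Agent.GSP

variable {N : ℕ} [NeZero N] {I I' : Type} [Fintype I] [Fintype I']

private theorem D9_pos {ξ : ℝ} (hξ : |ξ| ≤ 1) {x y : ℝ} (hy : |y| < 1)
    (hu : 0 < ξ + x) (hv : 0 < ξ + y)
    (h : (1 - x ^ 2) * (ξ + y) ^ 4 = (1 - y ^ 2) * (ξ + x) ^ 4) : x = y := by
  obtain ⟨u, hu'⟩ : ∃ u, u = ξ + x := ⟨_, rfl⟩
  obtain ⟨v, hv'⟩ : ∃ v, v = ξ + y := ⟨_, rfl⟩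
  rw [← hu'] at hu h
  rw [← hv'] at hv h
  have hx' : x = u - ξ := by rw [hu']; ring
  have hy' : y = v - ξ := by rw [hv']; ring
  have e : (v - u) * ((u + v) * (u ^ 2 + v ^ 2) * (1 - ξ ^ 2) - u ^ 2 * v ^ 2 * (u + v) +
      2 * ξ * (u * v) * (u ^ 2 + u * v + v ^ 2)) = 0 := by
    rw [hx', hy'] at h
    linear_combination h
  have hξ2 : ξ ^ 2 ≤ 1 := by
    rw [← sq_abs]
    nlinarith [abs_nonneg ξ]
  have hG : 0 < (u + v) * (u ^ 2 + v ^ 2) * (1 - ξ ^ 2) - u ^ 2 * v ^ 2 * (u + v) +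
      2 * ξ * (u * v) * (u ^ 2 + u * v + v ^ 2) := by
    rcases le_or_gt 0 (x + y) with hxy | hxy
    · have h1 : 0 < 1 - y ^ 2 := by
        rw [← sq_abs]
        nlinarith [abs_nonneg y]
      have h2 : 0 < (u + v) * (u ^ 2 + v ^ 2) * (1 - y ^ 2) := by positivity
      have h3 : 0 ≤ v ^ 4 * (x + y) := by positivity
      have h4 : (u + v) * (u ^ 2 + v ^ 2) * (1 - ξ ^ 2) - u ^ 2 * v ^ 2 * (u + v) +
          2 * ξ * (u * v) * (u ^ 2 + u * v + v ^ 2) =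
          (u + v) * (u ^ 2 + v ^ 2) * (1 - y ^ 2) + v ^ 4 * (x + y) := by
        rw [hx', hy']
        ring
      rw [h4]
      linarith
    · have h1 : u + v < 2 * ξ := by
        rw [hx', hy'] at hxy
        linarith
      have h2 : 0 < (2 * ξ - (u + v)) * ((u * v) * (u ^ 2 + u * v + v ^ 2)) := by
        have : 0 < 2 * ξ - (u + v) := by linarith
        positivity
      have h3 : 0 ≤ (u + v) * (u ^ 2 + v ^ 2) * (1 - ξ ^ 2) := by
        have : 0 ≤ 1 - ξ ^ 2 := by linarith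
        positivity
      have h4 : 0 < (u + v) * (u * v) * (u ^ 2 + v ^ 2) := by positivity
      nlinarith
  rcases mul_eq_zero.mp e with h5 | h5
  · rw [hx', hy']
    linarith
  · exact absurd h5 hG.ne'

/-- the function is injective on both sides of the pole -/
private theorem D9_inj {ξ : ℝ} (hξ : |ξ| ≤ 1) {x y : ℝ} (hy : |y| < 1)
    (hs : 0 < (ξ + x) * (ξ + y))
    (h : (1 - x ^ 2) * (ξ + y) ^ 4 = (1 - y ^ 2) * (ξ + x) ^ 4) : x = y := by
  rcases pos_and_pos_or_neg_and_neg_of_mul_pos hs with ⟨h1, h2⟩ | ⟨h1, h2⟩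
  · exact D9_pos hξ hy h1 h2 h
  · refine neg_injective (D9_pos (ξ := -ξ) (by rwa [abs_neg]) (x := -x) (y := -y)
      (by rwa [abs_neg]) (by linarith) (by linarith) ?_)
    linear_combination h

/-- three different values of `η` give two different values of `(1 - η ^ 2) / (ξ + η) ^ 4` -/
private theorem D9_three {ξ : ℝ} (hξ : |ξ| ≤ 1) {η : Fin 3 → ℝ} (hη : ∀ a b, a ≠ b → η a ≠ η b)
    (h1 : ∀ a, |η a| < 1) (h2 : ∀ a, ξ + η a ≠ 0)
    (h : ∀ a b, (1 - η a ^ 2) * (ξ + η b) ^ 4 = (1 - η b ^ 2) * (ξ + η a) ^ 4) : False := by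
  have key : ∀ a b, a ≠ b → ¬ 0 < (ξ + η a) * (ξ + η b) := fun a b hab hp =>
    hη a b hab (D9_inj hξ (h1 b) hp (h a b))
  have h01 := key 0 1 (by decide)
  have h02 := key 0 2 (by decide)
  have h12 := key 1 2 (by decide)
  rcases lt_or_gt_of_ne (h2 0) with a0 | a0 <;> rcases lt_or_gt_of_ne (h2 1) with a1 | a1 <;>
    rcases lt_or_gt_of_ne (h2 2) with a2 | a2
  · exact h01 (mul_pos_of_neg_of_neg a0 a1)
  · exact h01 (mul_pos_of_neg_of_neg a0 a1)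
  · exact h02 (mul_pos_of_neg_of_neg a0 a2)
  · exact h12 (mul_pos a1 a2)
  · exact h12 (mul_pos_of_neg_of_neg a1 a2)
  · exact h02 (mul_pos a0 a2)
  · exact h01 (mul_pos a0 a1)
  · exact h01 (mul_pos a0 a1)

private theorem D9_uu (h4 : 4 ∣ N) {S : Finset ℕ} (hS : ∀ p ∈ S, 2 * p ∣ N) {s : ℤ}
    (hs : IsCoprime s (N : ℤ)) : UU S s := by
  have h2 : IsCoprime s (2 : ℤ) := by
    refine hs.of_isCoprime_of_dvd_right ?_
    have : (2 : ℕ) ∣ N := Dvd.dvd.trans (by norm_num) h4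
    exact_mod_cast this
  refine ⟨?_, fun p hp => ?_⟩
  · rw [← Int.not_even_iff_odd]
    intro he
    have h3 : (2 : ℤ) ∣ 1 := by
      obtain ⟨a, b, hab⟩ := h2
      rw [← hab]
      exact dvd_add (he.two_dvd.mul_left a) (dvd_mul_left 2 b)
    norm_num at h3
  · refine hs.of_isCoprime_of_dvd_right ?_
    have : p ∣ N := (dvd_mul_left p 2).trans (hS p hp)
    exact_mod_cast this

/-- `HH` is not constant -/
theorem exists_HH_ne (h4 : 4 ∣ N) {S : Finset ℕ} (hS : IsLeaf S) (hN : ∀ p ∈ S, 2 * p ∣ N)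
    {p : ℕ} (hp : p ∈ S) {Q : Finset ℕ} (ht : Trip N p Q)
    (hQ : ∀ g : ℤ, KK Q g → KK (S.erase p) g)
    (k : ℕ) : ∃ g : ℤ, IsCoprime g (N : ℤ) ∧ KK Q g ∧
      HH S p k g ≠ HH S p k 1 := by
  have hS0 : ∀ q ∈ S, 0 < q := fun q hq => by have := hS.two_le q hq; omega
  obtain ⟨g, g1, g2, g3, g4⟩ := three_eta ht (hN p hp)
    (isCoprime_one_left : IsCoprime (1 : ℤ) (N : ℤ))
  simp only [mul_one] at g4
  by_contra hcon
  push Not at hcon
  have hx : ∀ a, xi S p k (g a) = xi S p k 1 := by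
    intro a
    have h1 := (xi_inv hS0 (hQ _ fun q hq => Or.inl (g2 a q hq)) k 1).1
    rwa [mul_one] at h1
  have hsn : ∀ a, ∏ q ∈ S.erase p, Real.sin (Real.pi * ((g a : ℤ) : ℝ) / q) ^ 2 =
      ∏ q ∈ S.erase p, Real.sin (Real.pi * ((1 : ℤ) : ℝ) / q) ^ 2 := by
    intro a
    have h1 := (xi_inv hS0 (hQ _ fun q hq => Or.inl (g2 a q hq)) k 1).2
    rwa [mul_one] at h1
  have hpos : ∀ s : ℤ, IsCoprime s (N : ℤ) → 0 < HH S p k s := fun s hs =>
    HH_pos hS hp k (D9_uu h4 hN hs)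
  have hsin : ∀ a, Real.sin (Real.pi * ((g a : ℤ) : ℝ) / p) ^ 2 = 1 - eta p (g a) ^ 2 := by
    intro a
    unfold eta
    rw [Real.sin_sq]
  have hη1 : ∀ a, |eta p (g a)| < 1 := by
    intro a
    have h1 := hpos (g a) (g1 a)
    have h2 : 0 < 1 - eta p (g a) ^ 2 := by
      rw [← hsin]
      rcases (sq_nonneg (Real.sin (Real.pi * ((g a : ℤ) : ℝ) / p))).eq_or_lt with h3 | h3
      · unfold HH at h1
        rw [← h3] at h1
        simp at h1
      · exact h3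
    rw [abs_lt]
    constructor <;> nlinarith
  have hξ1 : |xi S p k 1| ≤ 1 := by
    unfold xi
    rw [abs_mul, abs_pow, abs_neg, abs_one, one_pow, one_mul, Finset.abs_prod]
    exact Finset.prod_le_one (fun _ _ => abs_nonneg _) fun _ _ => Real.abs_cos_le_one _
  have hne : ∀ a, xi S p k 1 + eta p (g a) ≠ 0 := fun a => by
    have h1 := xi_add_eta_ne hS hp k (D9_uu h4 hN (g1 a))
    rwa [hx] at h1
  refine D9_three hξ1 g4 hη1 hne fun a b => ?_
  have ha := hcon (g a) (g1 a) fun q hq => Or.inl (g2 a q hq)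
  have hb := hcon (g b) (g1 b) fun q hq => Or.inl (g2 b q hq)
  have hP : 0 < ∏ q ∈ S.erase p, Real.sin (Real.pi * ((1 : ℤ) : ℝ) / q) ^ 2 := by
    have h1 := hpos 1 isCoprime_one_left
    rcases (Finset.prod_nonneg fun (q : ℕ) (_ : q ∈ S.erase p) =>
      sq_nonneg (Real.sin (Real.pi * ((1 : ℤ) : ℝ) / q))).eq_or_lt with h3 | h3
    · unfold HH at h1
      rw [← h3] at h1
      simp at h1
    · exact h3
  have hab : HH S p k (g a) = HH S p k (g b) := ha.trans hb.symm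
  unfold HH at hab
  rw [hx, hx, hsn, hsn, hsin, hsin, div_eq_div_iff (pow_ne_zero 4 (hne a))
    (pow_ne_zero 4 (hne b))] at hab
  refine mul_left_cancel₀ hP.ne' ?_
  linear_combination hab

/-- a node with `q = 0` is impossible -/
theorem no_zero (h4 : 4 ∣ N) (F : Fam N I) (F' : Fam N I') {C G G' : ℝ} (hG : 0 < G)
    (hG' : 0 < G')
    (h : ∀ s : ℤ, IsCoprime s (N : ℤ) → ∑ i, F.c i * F.f i s = ∑ i, F'.c i * F'.f i s + C)
    {S : Finset ℕ} (hS : IsLeaf S) (hN : ∀ q ∈ S, 2 * q ∣ N) {p k : ℕ} (hp : p ∈ S)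
    {Q : Finset ℕ} (ht : Trip N p Q) (hQ : ∀ q ∈ S, q ≠ p → q ∈ Q)
    (hpr : ∀ j, ∀ q ∈ F'.S j, q ∈ Q) {R : ℤ → ℝ}
    (hR : 0 < R 1) (hRg : ∀ g : ℤ, IsCoprime g (N : ℤ) → KK Q g → R g = R 1)
    (h' : ∀ s : ℤ, IsCoprime s (N : ℤ) → G * ∏ i, HH (F.S i) (F.p i) (F.k i) s =
      G' * (∏ i, HH (F'.S i) (F'.p i) (F'.k i) s) * (HH S p k s * R s)) : False := by
  obtain ⟨τ, hτ⟩ := fam_match h4 F F' h
  have hno' : ∀ j g, KK Q g → KK (F'.S j) g := fun j g hg q hq => hg q (hpr j q hq)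
  have hno : ∀ i g, IsCoprime g (N : ℤ) → KK Q g → KK (F.S i) g := fun i g hg hK =>
    ((hτ i).1 g hg).2 (hno' (τ i) g hK)
  have inv : ∀ {J : Type} [Fintype J] (E : Fam N J) (g : ℤ), (∀ j, KK (E.S j) g) →
      ∏ j, HH (E.S j) (E.p j) (E.k j) g = ∏ j, HH (E.S j) (E.p j) (E.k j) 1 := by
    intro J _ E g hg
    refine prod_congr rfl fun j _ => ?_
    have h1 := HH_inv (fun q hq => by
      have := (E.leaf j).two_le q hq
      omega) (E.mem j) (hg j) (E.k j) 1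
    rwa [mul_one] at h1
  obtain ⟨g, g1, g2, g3⟩ := exists_HH_ne h4 hS hN hp ht (fun g hg q hq =>
    hg q (hQ q (mem_of_mem_erase hq) (ne_of_mem_erase hq))) k
  have e1 := h' g g1
  have e2 := h' 1 isCoprime_one_left
  rw [inv F g (fun j => hno j g g1 g2), inv F' g (fun j => hno' j g g2), hRg g g1 g2] at e1
  have hP : 0 < ∏ i, HH (F'.S i) (F'.p i) (F'.k i) 1 :=
    prod_pos fun j _ => HH_pos (F'.leaf j) (F'.mem j) _ (D9_uu h4 (F'.dvdN j) isCoprime_one_left)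
  rw [e1] at e2
  have e3 := mul_left_cancel₀ (mul_pos hG' hP).ne' e2
  exact g3 (mul_right_cancel₀ hR.ne' e3)

end Pool.Agent.GSP
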