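import Pool.Agent.GSP.Defs
import Pool.Agent.GSP.A5
import Pool.Agent.GSP.A8
import Pool.Agent.GSP.B6
import Pool.Agent.GSP.C1
import Pool.Agent.GSP.C4
import Pool.Agent.GSP.D8
import Pool.Agent.GSP.E1
import Pool.Agent.GSP.E2

set_option autoImplicit false

open Finset

namespace Pool.Agent.GSP

variable {V V' : Type} [Fintype V] [DecidableEq V] [Fintype V'] [DecidableEq V']

/-- the conjugate formal integral -/
noncomputable def Zs (D : Dat V) (s : ℤ) : PowerSeries (RatFunc ℂ) :=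
  D.Z fun v j => mm (D.S v) (D.k v) j s

theorem Dat.Ok.one_le {D : Dat V} (hD : D.Ok) (v : V) : 1 ≤ D.k v := by
  have := hD.three_le v
  unfold Dat.k
  omega

/-- The number `N` is divisible by `4` and by `2 p` for all leaves. -/
structure Nice (D : Dat V) (N : ℕ) : Prop where
  four : 4 ∣ N
  dvd : ∀ v, ∀ p ∈ D.S v, 2 * p ∣ N

theorem Nice.uu {D : Dat V} {N : ℕ} (h : Nice D N) {s : ℤ} (hs : IsCoprime s (N : ℤ)) (v : V) :
    UU (D.S v) s := by
  have h2 : IsCoprime s (2 : ℤ) := by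
    refine hs.of_isCoprime_of_dvd_right ?_
    have : (2 : ℕ) ∣ N := Dvd.dvd.trans (by norm_num) h.four
    exact_mod_cast this
  refine ⟨?_, fun p hp => ?_⟩
  · rw [← Int.not_even_iff_odd]
    intro he
    have h3 : (2 : ℤ) ∣ 1 := by
      obtain ⟨a, b, hab⟩ := h2
      rw [← hab]
      exact dvd_add (he.two_dvd.mul_left a) (dvd_mul_left 2 b)
    norm_num at h3
  · refine hs.of_isCoprime_of_dvd_right ?_
    have : p ∣ N := (dvd_mul_left p 2).trans (h.dvd v p hp)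
    exact_mod_cast this

private theorem f1_nm {D : Dat V} (hD : D.Ok) {N : ℕ} (hN : 0 < N)
    (hn : Nice D N) {s : ℤ} (hs : IsCoprime s (N : ℤ)) (v : V) (j : ℕ) :
    Gal N s ((nm (D.S v) (D.k v) j : ℝ) : ℂ) (mm (D.S v) (D.k v) j s) := by
  unfold nm mm
  rw [Complex.ofReal_div]
  exact Gal.div hN hs (gal_mu hN hn.four hs (hD.leaf v) (hn.dvd v) (hD.one_le v) j)
    (gal_mu hN hn.four hs (hD.leaf v) (hn.dvd v) (hD.one_le v) 0)

private theorem f1_cast (D : Dat V) (m : V → ℕ → ℝ) (n : ℕ) :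
    ((PowerSeries.coeff n (D.Z m) : ℝ) : ℂ) =
      PowerSeries.coeff n (D.Z fun v j => ((m v j : ℝ) : ℂ)) := by
  have h := congrArg (PowerSeries.coeff n) (ZZ_map Complex.ofRealHom (eds D.G)
    (fun v => (D.q v : ℝ)) (fun e => (D.w e : ℝ)) m)
  rw [PowerSeries.coeff_map] at h
  have e1 : ∀ x : ℚ, Complex.ofRealHom (x : ℝ) = (x : ℂ) := fun x => by
    simp
  simp only [e1] at h
  exact h

/-- the conjugates of the formal integral and of the mass -/
theorem conj_eq {D : Dat V} {D' : Dat V'} (hD : D.Ok) (hD' : D'.Ok) {N : ℕ} (hN : 0 < N)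
    (hn : Nice D N) (hn' : Nice D' N)
    (hZ : D.Z (fun v j => nm (D.S v) (D.k v) j) = D'.Z (fun v j => nm (D'.S v) (D'.k v) j))
    {a b : ℚ} (hm : (a : ℝ) * (∏ v, mu (D.S v) (D.k v) 0) ^ 2 =
      b * (∏ v, mu (D'.S v) (D'.k v) 0) ^ 2) {s : ℤ} (hs : IsCoprime s (N : ℤ)) :
    Zs D s = Zs D' s ∧
      (a : RatFunc ℂ) * (∏ v, toC (YY (D.S v) (D.k v) 0 s)) ^ 2 =
        (b : RatFunc ℂ) * (∏ v, toC (YY (D'.S v) (D'.k v) 0 s)) ^ 2 := by
  constructor
  · ext n
    have h1 := ZZ_gal hN hs D (fun v j => f1_nm hD hN hn hs v j) n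
    have h2 := ZZ_gal hN hs D' (fun v j => f1_nm hD' hN hn' hs v j) n
    rw [← f1_cast] at h1 h2
    rw [hZ] at h1
    exact Gal.unique hN hs h1 h2
  · have h1 := Gal.mul hN hs (Gal.rat hN hs a) (Gal.pow hN hs (Gal.prod hN hs univ
      fun v _ => gal_mu hN hn.four hs (hD.leaf v) (hn.dvd v) (hD.one_le v) 0) 2)
    have h2 := Gal.mul hN hs (Gal.rat hN hs b) (Gal.pow hN hs (Gal.prod hN hs univ
      fun v _ => gal_mu hN hn'.four hs (hD'.leaf v) (hn'.dvd v) (hD'.one_le v) 0) 2)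
    have h3 := congrArg (fun x : ℝ => (x : ℂ)) hm
    simp only [Complex.ofReal_mul, Complex.ofReal_pow, Complex.ofReal_prod,
      Complex.ofReal_ratCast] at h3
    rw [h3] at h1
    exact Gal.unique hN hs h1 h2

/-- the variances do not vanish -/
theorem va_ne {D : Dat V} (hD : D.Ok) {N : ℕ} (hN : 0 < N) (hn : Nice D N) {s : ℤ}
    (hs : IsCoprime s (N : ℤ)) (v : V) : va (fun j => mm (D.S v) (D.k v) j s) ≠ 0 := by
  intro h0
  have h1 : Gal N s (((va fun j => nm (D.S v) (D.k v) j : ℝ)) : ℂ)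
      (va fun j => mm (D.S v) (D.k v) j s) := by
    unfold va
    rw [Complex.ofReal_sub, Complex.ofReal_pow]
    exact Gal.sub hN hs (f1_nm hD hN hn hs v 2) (Gal.pow hN hs (f1_nm hD hN hn hs v 1) 2)
  rw [h0] at h1
  have h2 := Gal.rat hN hs 0
  rw [Rat.cast_zero, Rat.cast_zero] at h2
  have h3 := Gal.inj hN hs h1 h2
  rw [Complex.ofReal_eq_zero] at h3
  exact (va_nm_pos (hD.leaf v) (hD.one_le v)).ne' h3

end Pool.Agent.GSP
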