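import Mathlib


set_option autoImplicit false

namespace Pool.Agent.GSP

/-- There are three units modulo `N`, congruent to `1` modulo `M`, which are different up to the
sign modulo `2 p`. -/
def Three (N p M : ℕ) : Prop :=
  ∃ g : Fin 3 → ℤ, (∀ a, IsCoprime (g a) (N : ℤ)) ∧ (∀ a, (M : ℤ) ∣ g a - 1) ∧ g 0 = 1 ∧
    ∀ a b, a ≠ b → ¬ (2 * p : ℤ) ∣ g a - g b ∧ ¬ (2 * p : ℤ) ∣ g a + g b

private theorem N2_gcd_lcm (a x y : ℕ) : Nat.gcd a (Nat.lcm x y) ∣ Nat.lcm (Nat.gcd a x) (Nat.gcd a y) := by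
  rcases Nat.eq_zero_or_pos a with rfl | ha
  · simp
  rcases Nat.eq_zero_or_pos x with rfl | hx
  · rw [Nat.lcm_zero_left, Nat.gcd_zero_right]
    exact Nat.dvd_lcm_left _ _
  rcases Nat.eq_zero_or_pos y with rfl | hy
  · rw [Nat.lcm_zero_right, Nat.gcd_zero_right]
    exact Nat.dvd_lcm_right _ _
  have hl : Nat.lcm x y ≠ 0 := Nat.lcm_ne_zero hx.ne' hy.ne'
  have h1 : Nat.gcd a x ≠ 0 := (Nat.gcd_pos_of_pos_left _ ha).ne'
  have h2 : Nat.gcd a y ≠ 0 := (Nat.gcd_pos_of_pos_left _ ha).ne'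
  have h3 : Nat.gcd a (Nat.lcm x y) ≠ 0 := (Nat.gcd_pos_of_pos_left _ ha).ne'
  rw [← Nat.factorization_le_iff_dvd h3 (Nat.lcm_ne_zero h1 h2), Nat.factorization_gcd ha.ne' hl,
    Nat.factorization_lcm hx.ne' hy.ne', Nat.factorization_lcm h1 h2, Nat.factorization_gcd ha.ne' hx.ne',
    Nat.factorization_gcd ha.ne' hy.ne']
  intro q
  simp only [Finsupp.inf_apply, Finsupp.sup_apply]
  rw [inf_sup_left]

theorem gcd_lcm_dvd {a b : ℕ} (Q : Finset ℕ) (f : ℕ → ℕ) (h : ∀ q ∈ Q, Nat.gcd a (f q) ∣ b) :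
    Nat.gcd a (Q.lcm f) ∣ b := by
  classical
  induction Q using Finset.induction_on with
  | empty => simp
  | insert q Q _ ih =>
    rw [Finset.lcm_insert]
    refine (N2_gcd_lcm a (f q) (Q.lcm f)).trans ?_
    exact Nat.lcm_dvd (h q (Finset.mem_insert_self _ _))
      (ih fun r hr => h r (Finset.mem_insert_of_mem hr))

private theorem N2_lift {N L : ℕ} (hN : 0 < N) (hL : L ∣ N) (w₀ : ℤ) (h : IsCoprime w₀ (L : ℤ)) :
    ∃ w : ℤ, IsCoprime w (N : ℤ) ∧ (L : ℤ) ∣ w - w₀ := by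
  have : NeZero N := ⟨hN.ne'⟩
  have h1 : IsUnit ((w₀ : ℤ) : ZMod L) := (ZMod.coe_int_isUnit_iff_isCoprime w₀ L).2 h.symm
  obtain ⟨ω, hω⟩ := ZMod.unitsMap_surjective hL h1.unit
  refine ⟨((ω : ZMod N).val : ℤ), ?_, ?_⟩
  · exact Nat.isCoprime_iff_coprime.2 (ZMod.val_coe_unit_coprime ω)
  · rw [← ZMod.intCast_eq_intCast_iff_dvd_sub]
    have h2 : ((ZMod.unitsMap hL ω : (ZMod L)ˣ) : ZMod L) = (w₀ : ZMod L) := by
      rw [hω]
      rfl
    rw [← h2, ZMod.unitsMap_val, Int.cast_natCast, ZMod.natCast_val]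

private theorem N2_key {N p g M : ℕ} (hN : 0 < N) (hp : 0 < p) (hpN : 2 * p ∣ N) (hd : 2 * g ∣ 2 * p)
    (hM : M ∣ N) (hMg : Nat.gcd (2 * p) M ∣ 2 * g) (u : (ZMod (2 * p))ˣ) (hu : ZMod.unitsMap hd u = 1) :
    ∃ w : ℤ, IsCoprime w (N : ℤ) ∧ (M : ℤ) ∣ w - 1 ∧ (w : ZMod (2 * p)) = u := by
  have : NeZero (2 * p) := ⟨by omega⟩
  obtain ⟨u', hu'⟩ : ∃ u' : ℤ, u' = ((u : ZMod (2 * p)).val : ℤ) := ⟨_, rfl⟩
  have h1 : (u' : ZMod (2 * p)) = u := by
    rw [hu', Int.cast_natCast, ZMod.natCast_zmod_val]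
  have h2 : IsCoprime u' ((2 * p : ℕ) : ℤ) := by
    rw [hu']
    exact Nat.isCoprime_iff_coprime.2 (ZMod.val_coe_unit_coprime u)
  have h3 : ((2 * g : ℕ) : ℤ) ∣ u' - 1 := by
    rw [← ZMod.intCast_eq_intCast_iff_dvd_sub]
    have h4 : ((ZMod.unitsMap hd u : (ZMod (2 * g))ˣ) : ZMod (2 * g)) = 1 := by
      rw [hu]
      rfl
    rw [ZMod.unitsMap_val] at h4
    rw [hu', Int.cast_natCast, ZMod.natCast_val, h4, Int.cast_one]
  have h4 : ((Nat.gcd (2 * p) M : ℕ) : ℤ) ∣ u' - 1 := (Int.natCast_dvd_natCast.2 hMg).trans h3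
  obtain ⟨t, ht⟩ := h4
  have h5 := Nat.gcd_eq_gcd_ab (2 * p) M
  rw [h5] at ht
  obtain ⟨w₀, hw₀⟩ : ∃ w₀ : ℤ, w₀ = 1 + (M : ℤ) * (Nat.gcdB (2 * p) M * t) := ⟨_, rfl⟩
  have h6 : w₀ = u' + ((2 * p : ℕ) : ℤ) * (-(Nat.gcdA (2 * p) M * t)) := by
    rw [hw₀]
    have : u' = 1 + (((2 * p : ℕ) : ℤ) * Nat.gcdA (2 * p) M + (M : ℤ) * Nat.gcdB (2 * p) M) * t := by
      linarith
    rw [this]
    ring
  have h7 : IsCoprime w₀ ((2 * p : ℕ) : ℤ) := by
    rw [h6]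
    exact h2.add_mul_left_left _
  have h8 : IsCoprime w₀ (M : ℤ) := by
    rw [hw₀]
    exact isCoprime_one_left.add_mul_left_left _
  have h9 : IsCoprime w₀ ((Nat.lcm (2 * p) M : ℕ) : ℤ) := by
    refine IsCoprime.of_isCoprime_of_dvd_right (h7.mul_right h8) ?_
    rw [← Nat.cast_mul]
    exact Int.natCast_dvd_natCast.2 (Nat.lcm_dvd_mul _ _)
  obtain ⟨w, hw1, hw2⟩ := N2_lift hN (Nat.lcm_dvd hpN hM) w₀ h9
  refine ⟨w, hw1, ?_, ?_⟩
  · have e1 : (M : ℤ) ∣ w - w₀ := (Int.natCast_dvd_natCast.2 (Nat.dvd_lcm_right _ _)).trans hw2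
    have e2 : (M : ℤ) ∣ w₀ - 1 := by
      rw [hw₀, add_sub_cancel_left]
      exact dvd_mul_right _ _
    have := dvd_add e1 e2
    rwa [sub_add_sub_cancel] at this
  · rw [← h1]
    have e1 : ((2 * p : ℕ) : ℤ) ∣ w - w₀ := (Int.natCast_dvd_natCast.2 (Nat.dvd_lcm_left _ _)).trans hw2
    have e2 : ((2 * p : ℕ) : ℤ) ∣ w₀ - u' := by
      rw [h6, add_sub_cancel_left]
      exact dvd_mul_right _ _
    have e3 := dvd_add e1 e2
    rw [sub_add_sub_cancel] at e3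
    exact ((ZMod.intCast_eq_intCast_iff_dvd_sub u' w (2 * p)).2 e3).symm

private theorem N2_units {p g : ℕ} (hp : 0 < p) (hg : g ∣ p) (hd : 2 * g ∣ 2 * p)
    (h3 : 3 * Nat.totient (2 * g) ≤ Nat.totient (2 * p)) (h6 : 6 ≤ Nat.totient (2 * p)) :
    ∃ u v : (ZMod (2 * p))ˣ, ZMod.unitsMap hd u = 1 ∧ ZMod.unitsMap hd v = 1 ∧
      u ≠ 1 ∧ u ≠ -1 ∧ v ≠ 1 ∧ v ≠ -1 ∧ v ≠ u ∧ v ≠ -u := by
  classical
  have : NeZero (2 * p) := ⟨by omega⟩
  have hgpos : 0 < g := Nat.pos_of_dvd_of_pos hg hp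
  have : NeZero (2 * g) := ⟨by omega⟩
  have hsurj := ZMod.unitsMap_surjective hd
  have hcard : Nat.card (ZMod (2 * p))ˣ =
      Nat.card (ZMod (2 * g))ˣ * Nat.card (ZMod.unitsMap hd).ker := by
    rw [Subgroup.card_eq_card_quotient_mul_card_subgroup (ZMod.unitsMap hd).ker,
      Nat.card_congr (QuotientGroup.quotientKerEquivOfSurjective _ hsurj).toEquiv]
  rw [Nat.card_eq_fintype_card, Nat.card_eq_fintype_card, ZMod.card_units_eq_totient,
    ZMod.card_units_eq_totient] at hcard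
  have hpos : 0 < Nat.totient (2 * g) := Nat.totient_pos.2 (by omega)
  obtain ⟨K, hK⟩ : ∃ K : Finset (ZMod (2 * p))ˣ, ∀ u, u ∈ K ↔ ZMod.unitsMap hd u = 1 :=
    ⟨Finset.univ.filter fun u => ZMod.unitsMap hd u = 1, fun u => by simp⟩
  have hKc : Nat.card (ZMod.unitsMap hd).ker = K.card := by
    rw [Nat.card_eq_fintype_card]
    exact Fintype.card_of_subtype K fun u => by rw [hK, MonoidHom.mem_ker]
  rw [hKc] at hcard
  have hK3 : 3 ≤ K.card := by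
    refine Nat.le_of_mul_le_mul_left ?_ hpos
    rw [← hcard]
    linarith
  rcases Nat.lt_or_ge 1 g with hg2 | hg1
  · have hneg1 : ∀ u, ZMod.unitsMap hd u = 1 → ZMod.unitsMap hd (-u) ≠ 1 := by
      intro u hu h
      have : Fact (2 < 2 * g) := ⟨by omega⟩
      have e1 : ((ZMod.unitsMap hd (-u) : (ZMod (2 * g))ˣ) : ZMod (2 * g)) =
          -((ZMod.unitsMap hd u : (ZMod (2 * g))ˣ) : ZMod (2 * g)) := by
        rw [ZMod.unitsMap_val, ZMod.unitsMap_val, Units.val_neg, ZMod.cast_neg hd]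
      rw [h, hu, Units.val_one] at e1
      exact ZMod.neg_one_ne_one e1.symm
    obtain ⟨u, huK, hu⟩ := Finset.exists_mem_notMem_of_card_lt_card (s := {1}) (t := K) (by
      rw [Finset.card_singleton]
      omega)
    obtain ⟨v, hvK, hv⟩ := Finset.exists_mem_notMem_of_card_lt_card (s := {1, u}) (t := K)
      (lt_of_le_of_lt Finset.card_le_two (by omega))
    rw [hK] at huK hvK
    simp only [Finset.mem_singleton, Finset.mem_insert, not_or] at hu hv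
    refine ⟨u, v, huK, hvK, hu, ?_, hv.1, ?_, hv.2, ?_⟩
    · rintro rfl
      exact hneg1 1 (map_one _) huK
    · rintro rfl
      exact hneg1 1 (map_one _) hvK
    · rintro rfl
      exact hneg1 u huK hvK
  · have hg' : g = 1 := by omega
    have hK6 : 6 ≤ K.card := by
      rw [hg', mul_one, Nat.totient_two, one_mul] at hcard
      rw [← hcard]
      exact h6
    obtain ⟨u, huK, hu⟩ := Finset.exists_mem_notMem_of_card_lt_card (s := {1, -1}) (t := K)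
      (lt_of_le_of_lt Finset.card_le_two (by omega))
    obtain ⟨v, hvK, hv⟩ := Finset.exists_mem_notMem_of_card_lt_card (s := {1, -1, u, -u}) (t := K)
      (lt_of_le_of_lt Finset.card_le_four (by omega))
    rw [hK] at huK hvK
    simp only [Finset.mem_singleton, Finset.mem_insert, not_or] at hu hv
    exact ⟨u, v, huK, hvK, hu.1, hu.2, hv.1, hv.2.1, hv.2.2.1, hv.2.2.2⟩

theorem three_of {N p g M : ℕ} (hN : 0 < N) (hp : 0 < p) (hpN : 2 * p ∣ N) (hg : g ∣ p)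
    (h3 : 3 * Nat.totient (2 * g) ≤ Nat.totient (2 * p)) (h6 : 6 ≤ Nat.totient (2 * p))
    (hM : M ∣ N) (hMg : Nat.gcd (2 * p) M ∣ 2 * g) : Three N p M := by
  have hd : 2 * g ∣ 2 * p := Nat.mul_dvd_mul_left 2 hg
  obtain ⟨u, v, hu, hv, h1, h2, h4, h5, h7, h8⟩ := N2_units hp hg hd h3 h6
  obtain ⟨a, ha1, ha2, ha3⟩ := N2_key hN hp hpN hd hM hMg u hu
  obtain ⟨b, hb1, hb2, hb3⟩ := N2_key hN hp hpN hd hM hMg v hv
  have hz : ∀ z : ℤ, (2 * p : ℤ) ∣ z ↔ (z : ZMod (2 * p)) = 0 := by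
    intro z
    rw [ZMod.intCast_zmod_eq_zero_iff_dvd]
    push_cast
    rfl
  have key : ∀ (x y : ℤ) (ux uy : (ZMod (2 * p))ˣ), (x : ZMod (2 * p)) = ux → (y : ZMod (2 * p)) = uy →
      ux ≠ uy → ux ≠ -uy → ¬ (2 * p : ℤ) ∣ x - y ∧ ¬ (2 * p : ℤ) ∣ x + y := by
    intro x y ux uy hx hy hne hne'
    constructor
    · rw [hz, Int.cast_sub, hx, hy, sub_eq_zero]
      exact fun h => hne (Units.ext h)
    · rw [hz, Int.cast_add, hx, hy, add_eq_zero_iff_eq_neg]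
      exact fun h => hne' (Units.ext (by rw [h, Units.val_neg]))
  have hone : ((1 : ℤ) : ZMod (2 * p)) = ((1 : (ZMod (2 * p))ˣ) : ZMod (2 * p)) := by simp
  have hneg : ∀ x y : (ZMod (2 * p))ˣ, x ≠ -y → y ≠ -x := by
    intro x y h h'
    exact h (by rw [h', neg_neg])
  refine ⟨![1, a, b], ?_, ?_, rfl, ?_⟩
  · intro i
    fin_cases i
    · exact isCoprime_one_left
    · exact ha1
    · exact hb1
  · intro i
    fin_cases i
    · simp
    · exact ha2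
    · exact hb2
  · intro i j hij
    fin_cases i <;> fin_cases j
    · exact absurd rfl hij
    · exact key 1 a 1 u hone ha3 h1.symm (hneg _ _ h2)
    · exact key 1 b 1 v hone hb3 h4.symm (hneg _ _ h5)
    · exact key a 1 u 1 ha3 hone h1 h2
    · exact absurd rfl hij
    · exact key a b u v ha3 hb3 h7.symm (hneg _ _ h8)
    · exact key b 1 v 1 hb3 hone h4 h5
    · exact key b a v u hb3 ha3 h7 h8
    · exact absurd rfl hij

end Pool.Agent.GSP
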