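import Pool.Agent.GSP.Defs
import Pool.Agent.GSP.D4
import Pool.Agent.GSP.N2

set_option autoImplicit false

open Finset

namespace Pool.Agent.GSP

theorem trip_of_big {N p : ℕ} (hN : 0 < N) (hp : 0 < p) (hpN : 2 * p ∣ N) {Q : Finset ℕ}
    {Q' : Set ℕ} (hQN : ∀ q ∈ Q, 2 * q ∣ N) (h : Big p Q')
    (hQ : ∀ q ∈ Q, q ∈ Q' ∨ Nat.Coprime p q) : Trip N p Q := by
  obtain ⟨h6, g, hg, h3, hgcd⟩ := h
  have hM : Q.lcm (fun q => 2 * q) ∣ N := Finset.lcm_dvd hQN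
  have hMg : Nat.gcd (2 * p) (Q.lcm fun q => 2 * q) ∣ 2 * g := by
    refine gcd_lcm_dvd Q _ fun q hq => ?_
    rw [Nat.gcd_mul_left]
    refine Nat.mul_dvd_mul_left 2 ?_
    rcases hQ q hq with h | h
    · exact hgcd q h
    · have h1 : Nat.gcd p q = 1 := h
      rw [h1]
      exact one_dvd _
  obtain ⟨f, f1, f2, f3, f4⟩ := three_of hN hp hpN hg h3 h6 hM hMg
  refine ⟨f, f1, fun a q hq => ?_, f3, f4⟩
  have h1 : ((2 * q : ℕ) : ℤ) ∣ ((Q.lcm fun q => 2 * q : ℕ) : ℤ) :=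
    Int.natCast_dvd_natCast.2 (Finset.dvd_lcm (f := fun q => 2 * q) hq)
  have h2 := h1.trans (f2 a)
  push_cast at h2
  exact h2

end Pool.Agent.GSP
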