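import Pool.Agent.GSP.Defs
import Pool.Agent.GSP.F1
import Pool.Agent.GSP.N7

set_option autoImplicit false

open Finset

namespace Pool.Agent.GSP

variable {V : Type} [Fintype V] [DecidableEq V]

/-- the leaves but the leaf `p` of the node `v` -/
def oth (D : Dat V) (v : V) (p : ℕ) : Finset ℕ := (D.S v).erase p ∪ (univ.erase v).biUnion D.S

theorem mem_oth_own {D : Dat V} {v : V} {p q : ℕ} (hq : q ∈ D.S v) (h : q ≠ p) :
    q ∈ oth D v p := mem_union_left _ (mem_erase.2 ⟨h, hq⟩)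

theorem mem_oth {D : Dat V} {v x : V} (p : ℕ) {q : ℕ} (hx : x ≠ v) (hq : q ∈ D.S x) :
    q ∈ oth D v p :=
  mem_union_right _ (mem_biUnion.2 ⟨x, mem_erase.2 ⟨hx, mem_univ _⟩, hq⟩)

theorem dvd_of_oth {D : Dat V} {N : ℕ} (hn : Nice D N) {v : V} {p q : ℕ} (hq : q ∈ oth D v p) :
    2 * q ∣ N := by
  rcases mem_union.1 hq with h | h
  · exact hn.dvd v q (mem_of_mem_erase h)
  · obtain ⟨x, -, hx⟩ := mem_biUnion.1 h
    exact hn.dvd x q hx

/-- the big leaf -/
noncomputable def pv {D : Dat V} (hD : D.Ok) (v : {v // (D.S v).Nonempty}) : ℕ :=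
  (hD.priv v.1 v.2).choose

omit [Fintype V] [DecidableEq V] in
theorem pv_mem {D : Dat V} (hD : D.Ok) (v : {v // (D.S v).Nonempty}) : pv hD v ∈ D.S v.1 :=
  (hD.priv v.1 v.2).choose_spec.1

theorem pv_trip {D : Dat V} (hD : D.Ok) {N : ℕ} (hN : 0 < N) (hn : Nice D N)
    (v : {v // (D.S v).Nonempty}) : Trip N (pv hD v) (oth D v.1 (pv hD v)) := by
  have hm := pv_mem hD v
  have h2 := (hD.leaf v.1).two_le _ hm
  refine trip_of_big hN (by omega) (hn.dvd v.1 _ hm) (fun q hq => dvd_of_oth hn hq)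
    (hD.priv v.1 v.2).choose_spec.2 fun q hq => ?_
  rcases mem_union.1 hq with h | h
  · right
    exact (hD.leaf v.1).coprime _ hm _ (mem_of_mem_erase h) (ne_of_mem_erase h).symm
  · left
    obtain ⟨x, hx, hqx⟩ := mem_biUnion.1 h
    exact ⟨x, (mem_erase.1 hx).1, hqx⟩

end Pool.Agent.GSP
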