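import Pool.Agent.GSP.Defs
import Pool.Agent.GSP.F1
import Pool.Agent.GSP.F1b

set_option autoImplicit false

open Finset

namespace Pool.Agent.GSP

variable {V V' : Type} [Fintype V] [DecidableEq V] [Fintype V'] [DecidableEq V']

omit [Fintype V] [DecidableEq V] in
private lemma F2_be (S : Finset ℕ) (k : ℕ) : be S k ≠ 0 := by
  unfold be
  split_ifs
  · positivity
  · positivity

/-- the family of the nodes with leaves -/
private noncomputable def F2_F {D : Dat V} (hD : D.Ok) (hq0 : D.NZ) {N : ℕ} (hN : 0 < N)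
    (hn : Nice D N) : Fam N {v // (D.S v).Nonempty} where
  S i := D.S i.1
  p i := pv hD i
  Q i := oth D i.1 (pv hD i)
  k i := D.k i.1
  c i := ((D.q i.1 * be (D.S i.1) (D.k i.1) : ℚ) : ℝ)
  leaf i := hD.leaf i.1
  mem i := pv_mem hD i
  three i := pv_trip hD hN hn i
  own i q hq hne := mem_oth_own hq hne
  priv i j hji q hq := mem_oth _ (fun h => hji (Subtype.ext h)) hq
  c_ne i := by
    have h : (D.q i.1 * be (D.S i.1) (D.k i.1) : ℚ) ≠ 0 :=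
      mul_ne_zero (hq0 i.1 i.2) (F2_be _ _)
    exact_mod_cast h
  dvdN i q hq := hn.dvd i.1 q hq
  dvdQ i q hq := dvd_of_oth hn hq

private lemma F2_bb_ne {S : Finset ℕ} (hS : IsLeaf S) {p : ℕ} (hp : p ∈ S) {k : ℕ} (hk : 1 ≤ k)
    {s : ℤ} (hs : UU S s) : bb S k 0 s ≠ 0 := by
  obtain ⟨c, hc, h⟩ := bb_zero_sq hS hp hk
  intro h0
  have h1 := h s hs
  rw [h0] at h1
  have h2 := mul_pos hc (HH_pos hS hp k hs)
  rw [← h1] at h2
  norm_num at h2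

private lemma F2_bb_empty (k j : ℕ) (s : ℤ) : bb ∅ k j s = bb ∅ k j 1 := by
  unfold bb
  rw [YY_empty k j s 1]

omit [DecidableEq V] in
private lemma F2_split_sum (P : V → Prop) [Fintype {v // P v}] [Fintype {v // ¬ P v}]
    (g : V → ℝ) : ∑ v, g v = ∑ i : {v // P v}, g i.1 + ∑ j : {v // ¬ P v}, g j.1 := by
  classical
  have h := Fintype.sum_subtype_add_sum_subtype (M := ℝ) P g
  rw [← h]
  congr 1
  · exact Finset.sum_congr (Finset.ext fun x => by simp) fun _ _ => rfl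
  · exact Finset.sum_congr (Finset.ext fun x => by simp) fun _ _ => rfl

omit [DecidableEq V] in
private lemma F2_split_prod (P : V → Prop) [Fintype {v // P v}] [Fintype {v // ¬ P v}]
    (g : V → ℝ) : ∏ v, g v = (∏ i : {v // P v}, g i.1) * ∏ j : {v // ¬ P v}, g j.1 := by
  classical
  have h := Fintype.prod_subtype_mul_prod_subtype (M := ℝ) P g
  rw [← h]
  congr 1
  · exact Finset.prod_congr (Finset.ext fun x => by simp) fun _ _ => rfl
  · exact Finset.prod_congr (Finset.ext fun x => by simp) fun _ _ => rfl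

private lemma F2_sum {D : Dat V} (hD : D.Ok) (hq0 : D.NZ) {N : ℕ} (hN : 0 < N) (hn : Nice D N)
    [Fintype {v // (D.S v).Nonempty}] :
    ∃ C : ℝ, ∀ s : ℤ, IsCoprime s (N : ℤ) →
      ∑ v, (D.q v : ℝ) * (bb (D.S v) (D.k v) 1 s / bb (D.S v) (D.k v) 0 s) =
        ∑ i, (F2_F hD hq0 hN hn).c i * (F2_F hD hq0 hN hn).f i s + C := by
  classical
  refine ⟨∑ i, (-(2 / 3) * (F2_F hD hq0 hN hn).c i) + ∑ j : {v // ¬ (D.S v).Nonempty},
    (D.q j.1 : ℝ) * (bb ∅ (D.k j.1) 1 1 / bb ∅ (D.k j.1) 0 1), ?_⟩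
  intro s hs
  rw [F2_split_sum (fun v => (D.S v).Nonempty)
    (fun v => (D.q v : ℝ) * (bb (D.S v) (D.k v) 1 s / bb (D.S v) (D.k v) 0 s)), ← add_assoc,
    ← Finset.sum_add_distrib]
  congr 1
  · refine Fintype.sum_congr _ _ fun i => ?_
    have hp := (F2_F hD hq0 hN hn).mem i
    have hu : UU (D.S i.1) s := hn.uu hs i.1
    have hk := hD.one_le i.1
    have h1 := bb_one (hD.leaf i.1) hp hk hu
    have h2 := F2_bb_ne (hD.leaf i.1) hp hk hu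
    rw [h1, mul_div_assoc, div_self h2, mul_one]
    show _ = ((D.q i.1 * be (D.S i.1) (D.k i.1) : ℚ) : ℝ) *
      FF (D.S i.1) ((F2_F hD hq0 hN hn).p i) (D.k i.1) s +
        -(2 / 3) * ((D.q i.1 * be (D.S i.1) (D.k i.1) : ℚ) : ℝ)
    push_cast
    ring
  · refine Fintype.sum_congr _ _ fun j => ?_
    have hj : D.S j.1 = ∅ := Finset.not_nonempty_iff_eq_empty.1 j.2
    show (D.q j.1 : ℝ) * (bb (D.S j.1) (D.k j.1) 1 s / bb (D.S j.1) (D.k j.1) 0 s) = _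
    rw [hj, F2_bb_empty _ 1 s, F2_bb_empty _ 0 s]

private lemma F2_prod {D : Dat V} (hD : D.Ok) (hq0 : D.NZ) {N : ℕ} (hN : 0 < N) (hn : Nice D N)
    [Fintype {v // (D.S v).Nonempty}] :
    ∃ G : ℝ, 0 < G ∧ ∀ s : ℤ, IsCoprime s (N : ℤ) →
      (∏ v, bb (D.S v) (D.k v) 0 s) ^ 2 =
        G * ∏ i, HH ((F2_F hD hq0 hN hn).S i) ((F2_F hD hq0 hN hn).p i) ((F2_F hD hq0 hN hn).k i) s := by
  classical
  have h1 : ∀ i : {v // (D.S v).Nonempty}, ∃ c : ℝ, 0 < c ∧ ∀ s : ℤ, UU (D.S i.1) s →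
      bb (D.S i.1) (D.k i.1) 0 s ^ 2 = c * HH (D.S i.1) ((F2_F hD hq0 hN hn).p i) (D.k i.1) s :=
    fun i => bb_zero_sq (hD.leaf i.1) ((F2_F hD hq0 hN hn).mem i) (hD.one_le i.1)
  choose c hc hc2 using h1
  refine ⟨(∏ i, c i) * ∏ j : {v // ¬ (D.S v).Nonempty}, (bb ∅ (D.k j.1) 0 1) ^ 2, ?_, ?_⟩
  · refine mul_pos (Finset.prod_pos fun i _ => hc i) (Finset.prod_pos fun j _ => ?_)
    exact pow_pos (bb_empty_pos (hD.one_le j.1) 1) 2
  · intro s hs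
    rw [← Finset.prod_pow, F2_split_prod (fun v => (D.S v).Nonempty)
      (fun v => bb (D.S v) (D.k v) 0 s ^ 2)]
    have h2 : ∏ i : {v // (D.S v).Nonempty}, bb (D.S i.1) (D.k i.1) 0 s ^ 2 =
        (∏ i, c i) * ∏ i, HH ((F2_F hD hq0 hN hn).S i) ((F2_F hD hq0 hN hn).p i) ((F2_F hD hq0 hN hn).k i) s := by
      rw [← Finset.prod_mul_distrib]
      refine Fintype.prod_congr _ _ fun i => ?_
      exact hc2 i s (hn.uu hs i.1)
    have h3 : ∏ j : {v // ¬ (D.S v).Nonempty}, bb (D.S j.1) (D.k j.1) 0 s ^ 2 =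
        ∏ j : {v // ¬ (D.S v).Nonempty}, (bb ∅ (D.k j.1) 0 1) ^ 2 := by
      refine Fintype.prod_congr _ _ fun j => ?_
      have hj : D.S j.1 = ∅ := Finset.not_nonempty_iff_eq_empty.1 j.2
      rw [hj, F2_bb_empty _ 0 s]
    rw [h2, h3]
    ring

private lemma F2_coeff {D : Dat V} (hD : D.Ok) {N : ℕ} (hn : Nice D N) {s : ℤ}
    (hs : IsCoprime s (N : ℤ)) : PowerSeries.coeff 1 (Zs D s) =
      ∑ v, (D.q v : RatFunc ℂ) * mm (D.S v) (D.k v) 1 s := by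
  unfold Zs Dat.Z
  exact ZZ_one _ _ _ fun v => mm_zero (hD.leaf v) (hD.one_le v) (hn.uu hs v)

/-- the bijection of the nodes with leaves -/
theorem leafy {D : Dat V} {D' : Dat V'} (hD : D.Ok) (hD' : D'.Ok) (hq0 : D.NZ) (hq0' : D'.NZ)
    {N : ℕ} (hN : 0 < N)
    (hn : Nice D N) (hn' : Nice D' N) {a b : ℚ} (ha : 0 < a) (hb : 0 < b)
    (hZ : ∀ s : ℤ, IsCoprime s (N : ℤ) → Zs D s = Zs D' s)
    (hm : ∀ s : ℤ, IsCoprime s (N : ℤ) →
      (a : RatFunc ℂ) * (∏ v, toC (YY (D.S v) (D.k v) 0 s)) ^ 2 =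
        (b : RatFunc ℂ) * (∏ v, toC (YY (D'.S v) (D'.k v) 0 s)) ^ 2) :
    ∃ τ : {v // (D.S v).Nonempty} ≃ {v // (D'.S v).Nonempty}, ∀ v,
      D'.S (τ v) = D.S v ∧ (D'.q (τ v) * be (D'.S (τ v)) (D'.k (τ v)) =
        D.q v * be (D.S v) (D.k v)) ∧
      ∀ p ∈ D.S v, ∀ s : ℤ, IsCoprime s (N : ℤ) →
        FF (D'.S (τ v)) p (D'.k (τ v)) s = FF (D.S v) p (D.k v) s := by
  classical
  have : NeZero N := ⟨hN.ne'⟩
  let f1 : Fintype {v // (D.S v).Nonempty} := Fintype.ofFinite _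
  let f2 : Fintype {v // (D'.S v).Nonempty} := Fintype.ofFinite _
  obtain ⟨C, hC⟩ := F2_sum hD hq0 hN hn
  obtain ⟨C', hC'⟩ := F2_sum hD' hq0' hN hn'
  obtain ⟨G, hG, hG1⟩ := F2_prod hD hq0 hN hn
  obtain ⟨G', hG', hG1'⟩ := F2_prod hD' hq0' hN hn'
  obtain ⟨τ, hτ⟩ := fam_decode hn.four (F2_F hD hq0 hN hn) (F2_F hD' hq0' hN hn') (C := C' - C)
    (G := (a : ℝ) * G) (G' := (b : ℝ) * G')
    (mul_pos (by exact_mod_cast ha) hG) (mul_pos (by exact_mod_cast hb) hG')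
    (fun s hs => by
      have h1 : ∑ v, (D.q v : RatFunc ℂ) * mm (D.S v) (D.k v) 1 s =
          ∑ v, (D'.q v : RatFunc ℂ) * mm (D'.S v) (D'.k v) 1 s := by
        rw [← F2_coeff hD hn hs, ← F2_coeff hD' hn' hs, hZ s hs]
      have h2 := low_sum D.S D.k D.q D'.S D'.k D'.q hD.leaf hD.one_le hD'.leaf hD'.one_le
        (fun v => hn.uu hs v) (fun v => hn'.uu hs v) h1
      rw [hC s hs, hC' s hs] at h2
      linarith)
    (fun s hs => by
      have h1 := low_prod D.S D.k D'.S D'.k hD.leaf hD.one_le hD'.leaf hD'.one_le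
        (fun v => hn.uu hs v) (fun v => hn'.uu hs v) ha.ne' hb.ne' (hm s hs)
      rw [hG1 s hs, hG1' s hs] at h1
      rw [mul_assoc, mul_assoc]
      exact h1)
  refine ⟨τ, fun v => ?_⟩
  obtain ⟨h1, h2, h3⟩ := hτ v
  have h1' : D'.S (τ v) = D.S v := h1
  refine ⟨h1', ?_, ?_⟩
  · have h2' : ((D'.q (τ v) * be (D'.S (τ v)) (D'.k (τ v)) : ℚ) : ℝ) =
        ((D.q v * be (D.S v) (D.k v) : ℚ) : ℝ) := h2
    exact_mod_cast h2'
  · intro p hp s hs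
    have h4 : FF (D'.S (τ v)) ((F2_F hD' hq0' hN hn').p (τ v)) (D'.k (τ v)) s =
        FF (D.S v) ((F2_F hD hq0 hN hn).p v) (D.k v) s := h3 s hs
    have hp' : p ∈ D'.S (τ v) := by
      rw [h1']
      exact hp
    rw [FF_symm (hD'.leaf (τ v)) hp' ((F2_F hD' hq0' hN hn').mem (τ v)) (D'.k (τ v)) s, h4,
      FF_symm (hD.leaf v) ((F2_F hD hq0 hN hn).mem v) hp (D.k v) s]

/-- the unit which changes only the node `v` -/
theorem exists_unit {D : Dat V} (hD : D.Ok) {N : ℕ} (hN : 0 < N) (hn : Nice D N) (v : V)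
    (hv : (D.S v).Nonempty) : ∃ g : ℤ, IsCoprime g (N : ℤ) ∧
      (∀ u, u ≠ v → ∀ p ∈ D.S u, (2 * p : ℤ) ∣ g - 1) ∧
      ∃ p ∈ D.S v, FF (D.S v) p (D.k v) g ≠ FF (D.S v) p (D.k v) 1 := by
  have : NeZero N := ⟨hN.ne'⟩
  obtain ⟨g, hg1, hg2, hg3⟩ := exists_FF_ne hn.four (hD.leaf v) (fun q hq => hn.dvd v q hq)
    (pv_mem hD ⟨v, hv⟩) (pv_trip hD hN hn ⟨v, hv⟩)
    (fun g hg q hq => hg q (mem_oth_own (mem_of_mem_erase hq) (ne_of_mem_erase hq))) (D.k v)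
  exact ⟨g, hg1, fun u hu q hq => hg2 q (mem_oth _ hu hq), _, pv_mem hD ⟨v, hv⟩, hg3⟩

end Pool.Agent.GSP
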