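import Pool.Agent.GSP.Defs
import Pool.Agent.GSP.F1
import Pool.Agent.GSP.F1b
import Pool.Agent.GSP.D9

set_option autoImplicit false

open Finset

namespace Pool.Agent.GSP

variable {V V' : Type} [Fintype V] [DecidableEq V] [Fintype V'] [DecidableEq V']

private theorem F2z_mem {α : Type} (i : Fintype α) (x : α) : x ∈ @Finset.univ α i :=
  @Finset.mem_univ α i x

omit [Fintype V] [DecidableEq V] in
private lemma F2z_be (S : Finset ℕ) (k : ℕ) : be S k ≠ 0 := by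
  unfold be
  split_ifs
  · positivity
  · positivity

/-- the nodes with leaves and `q ≠ 0` -/
private def TT (D : Dat V) : Type := {v : {v // (D.S v).Nonempty} // D.q v.1 ≠ 0}

private noncomputable instance (D : Dat V) : Fintype (TT D) := by
  classical
  exact inferInstanceAs (Fintype {v : {v // (D.S v).Nonempty} // D.q v.1 ≠ 0})

/-- the family of the nodes with leaves and `q ≠ 0` -/
private noncomputable def FT {D : Dat V} (hD : D.Ok) {N : ℕ} (hN : 0 < N) (hn : Nice D N) :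
    Fam N (TT D) where
  S i := D.S i.1.1
  p i := pv hD i.1
  Q i := oth D i.1.1 (pv hD i.1)
  k i := D.k i.1.1
  c i := ((D.q i.1.1 * be (D.S i.1.1) (D.k i.1.1) : ℚ) : ℝ)
  leaf i := hD.leaf i.1.1
  mem i := pv_mem hD i.1
  three i := pv_trip hD hN hn i.1
  own i q hq hne := mem_oth_own hq hne
  priv i j hji q hq := mem_oth _ (fun h => hji (Subtype.ext (Subtype.ext h))) hq
  c_ne i := by
    have h : (D.q i.1.1 * be (D.S i.1.1) (D.k i.1.1) : ℚ) ≠ 0 :=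
      mul_ne_zero i.2 (F2z_be _ _)
    exact_mod_cast h
  dvdN i q hq := hn.dvd i.1.1 q hq
  dvdQ i q hq := dvd_of_oth hn hq

private lemma F2z_bb_ne {S : Finset ℕ} (hS : IsLeaf S) {p : ℕ} (hp : p ∈ S) {k : ℕ} (hk : 1 ≤ k)
    {s : ℤ} (hs : UU S s) : bb S k 0 s ≠ 0 := by
  obtain ⟨c, hc, h⟩ := bb_zero_sq hS hp hk
  intro h0
  have h1 := h s hs
  rw [h0] at h1
  have h2 := mul_pos hc (HH_pos hS hp k hs)
  rw [← h1] at h2
  norm_num at h2

private lemma F2z_bb_empty (k j : ℕ) (s : ℤ) : bb ∅ k j s = bb ∅ k j 1 := by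
  unfold bb
  rw [YY_empty k j s 1]

private lemma F2z_sum {D : Dat V} (hD : D.Ok) {N : ℕ} (hN : 0 < N) (hn : Nice D N) :
    ∃ C : ℝ, ∀ s : ℤ, IsCoprime s (N : ℤ) →
      ∑ v, (D.q v : ℝ) * (bb (D.S v) (D.k v) 1 s / bb (D.S v) (D.k v) 0 s) =
        ∑ i, (FT hD hN hn).c i * (FT hD hN hn).f i s + C := by
  classical
  let f1 : Fintype {v // (D.S v).Nonempty} := Fintype.ofFinite _
  let f0 : Fintype {v // ¬ (D.S v).Nonempty} := Fintype.ofFinite _
  refine ⟨∑ i, (-(2 / 3) * (FT hD hN hn).c i) + ∑ j : {v // ¬ (D.S v).Nonempty},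
    (D.q j.1 : ℝ) * (bb ∅ (D.k j.1) 1 1 / bb ∅ (D.k j.1) 0 1), ?_⟩
  intro s hs
  have hsplit : ∑ v, (D.q v : ℝ) * (bb (D.S v) (D.k v) 1 s / bb (D.S v) (D.k v) 0 s) =
      (∑ v : {v // (D.S v).Nonempty},
        (D.q v.1 : ℝ) * (bb (D.S v.1) (D.k v.1) 1 s / bb (D.S v.1) (D.k v.1) 0 s)) +
      ∑ v : {v // ¬ (D.S v).Nonempty},
        (D.q v.1 : ℝ) * (bb (D.S v.1) (D.k v.1) 1 s / bb (D.S v.1) (D.k v.1) 0 s) := by
    have h := Fintype.sum_subtype_add_sum_subtype (fun v => (D.S v).Nonempty)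
      (fun v => (D.q v : ℝ) * (bb (D.S v) (D.k v) 1 s / bb (D.S v) (D.k v) 0 s))
    rw [← h]
    congr 1
    · exact Finset.sum_congr (Finset.ext fun x =>
        iff_of_true (F2z_mem _ x) (F2z_mem _ x)) fun _ _ => rfl
    · exact Finset.sum_congr (Finset.ext fun x =>
        iff_of_true (F2z_mem _ x) (F2z_mem _ x)) fun _ _ => rfl
  have hz : (∑ v : {v // (D.S v).Nonempty},
        (D.q v.1 : ℝ) * (bb (D.S v.1) (D.k v.1) 1 s / bb (D.S v.1) (D.k v.1) 0 s)) =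
      ∑ v : TT D, (D.q v.1.1 : ℝ) *
        (bb (D.S v.1.1) (D.k v.1.1) 1 s / bb (D.S v.1.1) (D.k v.1.1) 0 s) := by
    have h := Fintype.sum_subtype_add_sum_subtype
      (fun v : {v // (D.S v).Nonempty} => D.q v.1 ≠ 0)
      (fun v => (D.q v.1 : ℝ) * (bb (D.S v.1) (D.k v.1) 1 s / bb (D.S v.1) (D.k v.1) 0 s))
    rw [← h]
    have h2 : ∑ v : {v : {v // (D.S v).Nonempty} // ¬ D.q v.1 ≠ 0}, (D.q v.1.1 : ℝ) *
        (bb (D.S v.1.1) (D.k v.1.1) 1 s / bb (D.S v.1.1) (D.k v.1.1) 0 s) = 0 := by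
      refine Finset.sum_eq_zero fun v _ => ?_
      have h3 : D.q v.1.1 = 0 := not_not.1 v.2
      rw [h3, Rat.cast_zero, zero_mul]
    rw [h2, add_zero]
    exact Finset.sum_congr (Finset.ext fun x =>
        iff_of_true (F2z_mem _ x) (F2z_mem _ x)) fun _ _ => rfl
  rw [hsplit, hz, ← add_assoc, ← Finset.sum_add_distrib]
  congr 1
  · refine Fintype.sum_congr _ _ fun i => ?_
    have hp := pv_mem hD i.1
    have hu : UU (D.S i.1.1) s := hn.uu hs i.1.1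
    have hk := hD.one_le i.1.1
    have h1 := bb_one (hD.leaf i.1.1) hp hk hu
    have h2 := F2z_bb_ne (hD.leaf i.1.1) hp hk hu
    rw [h1, mul_div_assoc, div_self h2, mul_one]
    show _ = ((D.q i.1.1 * be (D.S i.1.1) (D.k i.1.1) : ℚ) : ℝ) *
      FF (D.S i.1.1) (pv hD i.1) (D.k i.1.1) s +
        -(2 / 3) * ((D.q i.1.1 * be (D.S i.1.1) (D.k i.1.1) : ℚ) : ℝ)
    push_cast
    ring
  · refine Fintype.sum_congr _ _ fun j => ?_
    have hj : D.S j.1 = ∅ := Finset.not_nonempty_iff_eq_empty.1 j.2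
    show (D.q j.1 : ℝ) * (bb (D.S j.1) (D.k j.1) 1 s / bb (D.S j.1) (D.k j.1) 0 s) = _
    rw [hj, F2z_bb_empty _ 1 s, F2z_bb_empty _ 0 s]

private lemma F2z_prod {D : Dat V} (hD : D.Ok) {N : ℕ} (hn : Nice D N)
    [Fintype {v // (D.S v).Nonempty}] :
    ∃ G : ℝ, 0 < G ∧ ∀ s : ℤ, IsCoprime s (N : ℤ) →
      (∏ v, bb (D.S v) (D.k v) 0 s) ^ 2 =
        G * ∏ i : {v // (D.S v).Nonempty}, HH (D.S i.1) (pv hD i) (D.k i.1) s := by
  classical
  let f0 : Fintype {v // ¬ (D.S v).Nonempty} := Fintype.ofFinite _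
  have h1 : ∀ i : {v // (D.S v).Nonempty}, ∃ c : ℝ, 0 < c ∧ ∀ s : ℤ, UU (D.S i.1) s →
      bb (D.S i.1) (D.k i.1) 0 s ^ 2 = c * HH (D.S i.1) (pv hD i) (D.k i.1) s :=
    fun i => bb_zero_sq (hD.leaf i.1) (pv_mem hD i) (hD.one_le i.1)
  choose c hc hc2 using h1
  refine ⟨(∏ i, c i) * ∏ j : {v // ¬ (D.S v).Nonempty}, (bb ∅ (D.k j.1) 0 1) ^ 2, ?_, ?_⟩
  · refine mul_pos (Finset.prod_pos fun i _ => hc i) (Finset.prod_pos fun j _ => ?_)
    exact pow_pos (bb_empty_pos (hD.one_le j.1) 1) 2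
  · intro s hs
    have hsplit : ∏ v, bb (D.S v) (D.k v) 0 s ^ 2 =
        (∏ v : {v // (D.S v).Nonempty}, bb (D.S v.1) (D.k v.1) 0 s ^ 2) *
          ∏ v : {v // ¬ (D.S v).Nonempty}, bb (D.S v.1) (D.k v.1) 0 s ^ 2 := by
      have h := Fintype.prod_subtype_mul_prod_subtype (fun v => (D.S v).Nonempty)
        (fun v => bb (D.S v) (D.k v) 0 s ^ 2)
      rw [← h]
      congr 1
      · exact Finset.prod_congr (Finset.ext fun x =>
        iff_of_true (F2z_mem _ x) (F2z_mem _ x)) fun _ _ => rfl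
      · exact Finset.prod_congr (Finset.ext fun x =>
        iff_of_true (F2z_mem _ x) (F2z_mem _ x)) fun _ _ => rfl
    rw [← Finset.prod_pow, hsplit]
    have h2 : ∏ i : {v // (D.S v).Nonempty}, bb (D.S i.1) (D.k i.1) 0 s ^ 2 =
        (∏ i, c i) * ∏ i : {v // (D.S v).Nonempty}, HH (D.S i.1) (pv hD i) (D.k i.1) s := by
      rw [← Finset.prod_mul_distrib]
      exact Fintype.prod_congr _ _ fun i => hc2 i s (hn.uu hs i.1)
    have h3 : ∏ j : {v // ¬ (D.S v).Nonempty}, bb (D.S j.1) (D.k j.1) 0 s ^ 2 =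
        ∏ j : {v // ¬ (D.S v).Nonempty}, (bb ∅ (D.k j.1) 0 1) ^ 2 := by
      refine Fintype.prod_congr _ _ fun j => ?_
      have hj : D.S j.1 = ∅ := Finset.not_nonempty_iff_eq_empty.1 j.2
      rw [hj, F2z_bb_empty _ 0 s]
    rw [h2, h3]
    ring

private lemma F2z_coeff {D : Dat V} (hD : D.Ok) {N : ℕ} (hn : Nice D N) {s : ℤ}
    (hs : IsCoprime s (N : ℤ)) : PowerSeries.coeff 1 (Zs D s) =
      ∑ v, (D.q v : RatFunc ℂ) * mm (D.S v) (D.k v) 1 s := by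
  unfold Zs Dat.Z
  exact ZZ_one _ _ _ fun v => mm_zero (hD.leaf v) (hD.one_le v) (hn.uu hs v)

/-- the product over the nodes with leaves and `q ≠ 0` and the others -/
private lemma F2z_split (D : Dat V) [Fintype {v // (D.S v).Nonempty}]
    [Fintype {v : {v // (D.S v).Nonempty} // ¬ D.q v.1 ≠ 0}]
    (g : {v // (D.S v).Nonempty} → ℝ) : ∏ v, g v = (∏ v : TT D, g v.1) *
      ∏ v : {v : {v // (D.S v).Nonempty} // ¬ D.q v.1 ≠ 0}, g v.1 := by
  classical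
  have h := Fintype.prod_subtype_mul_prod_subtype
    (fun v : {v // (D.S v).Nonempty} => D.q v.1 ≠ 0) g
  rw [← h]
  congr 1
  · exact Finset.prod_congr (Finset.ext fun x =>
        iff_of_true (F2z_mem _ x) (F2z_mem _ x)) fun _ _ => rfl
  · exact Finset.prod_congr (Finset.ext fun x =>
        iff_of_true (F2z_mem _ x) (F2z_mem _ x)) fun _ _ => rfl

/-- if the diagonal entries at the nodes with leaves are not `0` for the first forest then they are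
not `0` for the second -/
theorem nz_of {D : Dat V} {D' : Dat V'} (hD : D.Ok) (hD' : D'.Ok) (hq : D.NZ) {N : ℕ} (hN : 0 < N)
    (hn : Nice D N) (hn' : Nice D' N) {a b : ℚ} (ha : 0 < a) (hb : 0 < b)
    (hZ : ∀ s : ℤ, IsCoprime s (N : ℤ) → Zs D s = Zs D' s)
    (hm : ∀ s : ℤ, IsCoprime s (N : ℤ) →
      (a : RatFunc ℂ) * (∏ v, toC (YY (D.S v) (D.k v) 0 s)) ^ 2 =
        (b : RatFunc ℂ) * (∏ v, toC (YY (D'.S v) (D'.k v) 0 s)) ^ 2) : D'.NZ := by
  classical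
  have : NeZero N := ⟨hN.ne'⟩
  intro v0 hv0 hq0
  let f1 : Fintype {v // (D.S v).Nonempty} := Fintype.ofFinite _
  let f2 : Fintype {v // (D'.S v).Nonempty} := Fintype.ofFinite _
  let f3 : Fintype {v : {v // (D.S v).Nonempty} // ¬ D.q v.1 ≠ 0} := Fintype.ofFinite _
  let f4 : Fintype {v : {v // (D'.S v).Nonempty} // ¬ D'.q v.1 ≠ 0} := Fintype.ofFinite _
  obtain ⟨C, hC⟩ := F2z_sum hD hN hn
  obtain ⟨C', hC'⟩ := F2z_sum hD' hN hn'
  obtain ⟨G, hG, hG1⟩ := F2z_prod hD hn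
  obtain ⟨G', hG', hG1'⟩ := F2z_prod hD' hn'
  have hz0 : ¬ D'.q (⟨v0, hv0⟩ : {v // (D'.S v).Nonempty}).1 ≠ 0 := not_not.2 hq0
  refine no_zero hn.four (FT hD hN hn) (FT hD' hN hn') (C := C' - C) (G := (a : ℝ) * G)
    (G' := (b : ℝ) * G') (mul_pos (by exact_mod_cast ha) hG) (mul_pos (by exact_mod_cast hb) hG')
    (fun s hs => ?_) (hD'.leaf v0) (fun q hq => hn'.dvd v0 q hq) (k := D'.k v0)
    (pv_mem hD' ⟨v0, hv0⟩) (pv_trip hD' hN hn' ⟨v0, hv0⟩) (fun q hq hne => mem_oth_own hq hne)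
    (fun j q hq => mem_oth _ (fun h => j.2 (by rw [h]; exact hq0)) hq)
    (R := fun s => ∏ v ∈ (univ : Finset {v : {v // (D'.S v).Nonempty} // ¬ D'.q v.1 ≠ 0}).erase
      ⟨⟨v0, hv0⟩, hz0⟩, HH (D'.S v.1.1) (pv hD' v.1) (D'.k v.1.1) s) ?_ ?_ (fun s hs => ?_)
  · have h1 : ∑ v, (D.q v : RatFunc ℂ) * mm (D.S v) (D.k v) 1 s =
        ∑ v, (D'.q v : RatFunc ℂ) * mm (D'.S v) (D'.k v) 1 s := by
      rw [← F2z_coeff hD hn hs, ← F2z_coeff hD' hn' hs, hZ s hs]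
    have h2 := low_sum D.S D.k D.q D'.S D'.k D'.q hD.leaf hD.one_le hD'.leaf hD'.one_le
      (fun v => hn.uu hs v) (fun v => hn'.uu hs v) h1
    rw [hC s hs, hC' s hs] at h2
    linarith
  · exact prod_pos fun v _ => HH_pos (hD'.leaf v.1.1) (pv_mem hD' v.1) _
      (hn'.uu isCoprime_one_left v.1.1)
  · intro g _ hg
    refine prod_congr rfl fun v hv => ?_
    have hne : v.1.1 ≠ v0 := fun h => (mem_erase.1 hv).1 (Subtype.ext (Subtype.ext h))
    have h1 := HH_inv (fun q hq => by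
      have := (hD'.leaf v.1.1).two_le q hq
      omega) (pv_mem hD' v.1) (fun q hq => hg q (mem_oth _ hne hq)) (D'.k v.1.1) 1
    rwa [mul_one] at h1
  · have h1 := low_prod D.S D.k D'.S D'.k hD.leaf hD.one_le hD'.leaf hD'.one_le
      (fun v => hn.uu hs v) (fun v => hn'.uu hs v) ha.ne' hb.ne' (hm s hs)
    rw [hG1 s hs, hG1' s hs, F2z_split D, F2z_split D'] at h1
    have h2 : ∏ v : {v : {v // (D.S v).Nonempty} // ¬ D.q v.1 ≠ 0},
        HH (D.S v.1.1) (pv hD v.1) (D.k v.1.1) s = 1 :=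
      Finset.prod_eq_one fun v _ => absurd (hq v.1.1 v.1.2) v.2
    have h3 := mul_prod_erase (univ : Finset {v : {v // (D'.S v).Nonempty} // ¬ D'.q v.1 ≠ 0})
      (fun v => HH (D'.S v.1.1) (pv hD' v.1) (D'.k v.1.1) s) (mem_univ ⟨⟨v0, hv0⟩, hz0⟩)
    rw [h2, mul_one, ← h3] at h1
    have h4 : (a : ℝ) * G * ∏ i, HH ((FT hD hN hn).S i) ((FT hD hN hn).p i) ((FT hD hN hn).k i) s =
        (a : ℝ) * (G * ∏ v : TT D, HH (D.S v.1.1) (pv hD v.1) (D.k v.1.1) s) := by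
      rw [mul_assoc]
      rfl
    rw [h4, h1]
    show _ = (b : ℝ) * G' * (∏ v : TT D', HH (D'.S v.1.1) (pv hD' v.1) (D'.k v.1.1) s) * _
    ring

end Pool.Agent.GSP
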