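import Pool.Agent.GSP.Defs
import Pool.Agent.GSP.F1

set_option autoImplicit false

open Finset

namespace Pool.Agent.GSP

variable {V V' : Type} [Fintype V] [DecidableEq V] [Fintype V'] [DecidableEq V']

private theorem f3_mm {S : Finset ℕ} (hS : IsLeaf S) (k j : ℕ) {s s' : ℤ}
    (h : ∀ p ∈ S, (2 * p : ℤ) ∣ s - s') : mm S k j s = mm S k j s' := by
  unfold mm
  rw [YY_congr hS k j h, YY_congr hS k 0 h]

/-- the defect of two units which change only one node -/
theorem Zs_defect {D : Dat V} (hD : D.Ok) {N : ℕ} (hN : 0 < N) (hn : Nice D N) {v w : V}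
    (hvw : v ≠ w) {g h : ℤ} (hg : IsCoprime g (N : ℤ)) (hh : IsCoprime h (N : ℤ))
    (h1 : ∀ u, u ≠ v → ∀ p ∈ D.S u, (2 * p : ℤ) ∣ g - 1)
    (h2 : ∀ u, u ≠ w → ∀ p ∈ D.S u, (2 * p : ℤ) ∣ h - 1) :
    Zs D (g * h) * Zs D 1 - Zs D g * Zs D h =
      MM (eds D.G) (fun v => (D.q v : RatFunc ℂ)) (fun e => (D.w e : RatFunc ℂ))
        (fun v j => mm (D.S v) (D.k v) j 1) v w (fun j => mm (D.S v) (D.k v) j g)
        (fun j => mm (D.S w) (D.k w) j h) := by
  have e1 : (fun u j => mm (D.S u) (D.k u) j (g * h)) =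
      Function.update (Function.update (fun u j => mm (D.S u) (D.k u) j 1) v
        (fun j => mm (D.S v) (D.k v) j g)) w (fun j => mm (D.S w) (D.k w) j h) := by
    funext u
    by_cases huw : u = w
    · subst huw
      rw [Function.update_self]
      funext j
      refine f3_mm (hD.leaf u) _ j fun p hp => ?_
      have : g * h - h = (g - 1) * h := by ring
      rw [this]
      exact (h1 u (Ne.symm hvw) p hp).mul_right h
    · rw [Function.update_of_ne huw]
      by_cases huv : u = v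
      · subst huv
        rw [Function.update_self]
        funext j
        refine f3_mm (hD.leaf u) _ j fun p hp => ?_
        have : g * h - g = g * (h - 1) := by ring
        rw [this]
        exact (h2 u hvw p hp).mul_left g
      · rw [Function.update_of_ne huv]
        funext j
        refine f3_mm (hD.leaf u) _ j fun p hp => ?_
        have : g * h - 1 = (g - 1) * h + (h - 1) := by ring
        rw [this]
        exact dvd_add ((h1 u huv p hp).mul_right h) (h2 u huw p hp)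
  have e2 : (fun u j => mm (D.S u) (D.k u) j g) =
      Function.update (fun u j => mm (D.S u) (D.k u) j 1) v
        (fun j => mm (D.S v) (D.k v) j g) := by
    funext u
    by_cases huv : u = v
    · subst huv
      rw [Function.update_self]
    · rw [Function.update_of_ne huv]
      funext j
      exact f3_mm (hD.leaf u) _ j (h1 u huv)
  have e3 : (fun u j => mm (D.S u) (D.k u) j h) =
      Function.update (fun u j => mm (D.S u) (D.k u) j 1) w
        (fun j => mm (D.S w) (D.k w) j h) := by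
    funext u
    by_cases huv : u = w
    · subst huv
      rw [Function.update_self]
    · rw [Function.update_of_ne huv]
      funext j
      exact f3_mm (hD.leaf u) _ j (h2 u huv)
  unfold Zs MM
  rw [e1, e2, e3]
  rfl

private theorem f3_m0 {D : Dat V} (hD : D.Ok) {N : ℕ} (hn : Nice D N) {s : ℤ}
    (hs : IsCoprime s (N : ℤ)) (v : V) : mm (D.S v) (D.k v) 0 s = 1 :=
  mm_zero (hD.leaf v) (hD.one_le v) (hn.uu hs v)

/-- the lowest coefficients of the defect -/
theorem defect_path {D : Dat V} (hD : D.Ok) {N : ℕ} (hN : 0 < N) (hn : Nice D N) {v w : V}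
    (hvw : v ≠ w) {g h : ℤ} (hg : IsCoprime g (N : ℤ)) (hh : IsCoprime h (N : ℤ))
    (h1 : ∀ u, u ≠ v → ∀ p ∈ D.S u, (2 * p : ℤ) ∣ g - 1)
    (h2 : ∀ u, u ≠ w → ∀ p ∈ D.S u, (2 * p : ℤ) ∣ h - 1)
    (h3 : ∃ p ∈ D.S v, FF (D.S v) p (D.k v) g ≠ FF (D.S v) p (D.k v) 1)
    (h4 : ∃ p ∈ D.S w, FF (D.S w) p (D.k w) h ≠ FF (D.S w) p (D.k w) 1)
    (p : D.G.Walk v w) (hp : p.IsPath) :
    (∀ n < 2 * p.length, PowerSeries.coeff n (Zs D (g * h) * Zs D 1 - Zs D g * Zs D h) = 0) ∧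
    PowerSeries.coeff (2 * p.length) (Zs D (g * h) * Zs D 1 - Zs D g * Zs D h) ≠ 0 ∧
    PowerSeries.coeff (2 * p.length) (Zs D (g * h) * Zs D 1 - Zs D g * Zs D h) =
      (p.edges.map fun e => 2 / 3 * (D.w e : RatFunc ℂ)).prod *
        (p.support.tail.dropLast.map fun z => va fun j => mm (D.S z) (D.k z) j 1).prod *
        ((mm (D.S v) (D.k v) 1 g - mm (D.S v) (D.k v) 1 1) *
          (mm (D.S w) (D.k w) 1 h - mm (D.S w) (D.k w) 1 1)) ∧
    PowerSeries.coeff (2 * p.length + 1) (Zs D (g * h) * Zs D 1 - Zs D g * Zs D h) =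
      PowerSeries.coeff (2 * p.length) (Zs D (g * h) * Zs D 1 - Zs D g * Zs D h) *
        ((D.q v : RatFunc ℂ) * ((mm (D.S v) (D.k v) 2 g - mm (D.S v) (D.k v) 2 1) /
            (mm (D.S v) (D.k v) 1 g - mm (D.S v) (D.k v) 1 1) - 2 * mm (D.S v) (D.k v) 1 1) +
          (D.q w : RatFunc ℂ) * ((mm (D.S w) (D.k w) 2 h - mm (D.S w) (D.k w) 2 1) /
            (mm (D.S w) (D.k w) 1 h - mm (D.S w) (D.k w) 1 1) - 2 * mm (D.S w) (D.k w) 1 1) +
          (p.support.tail.dropLast.map fun z => (D.q z : RatFunc ℂ) *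
            (cu (fun j => mm (D.S z) (D.k z) j 1) / va fun j => mm (D.S z) (D.k z) j 1)).sum +
          2 * PowerSeries.coeff 1 (Zs D 1)) := by
  have hone : IsCoprime (1 : ℤ) (N : ℤ) := isCoprime_one_left
  rw [Zs_defect hD hN hn hvw hg hh h1 h2]
  obtain ⟨c1, c2, c3⟩ := MM_path hD.acyclic p hp hvw (fun v => (D.q v : RatFunc ℂ))
    (fun e => (D.w e : RatFunc ℂ)) (m := fun v j => mm (D.S v) (D.k v) j 1)
    (fun u => f3_m0 hD hn hone u) (a := fun j => mm (D.S v) (D.k v) j g)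
    (b := fun j => mm (D.S w) (D.k w) j h) (f3_m0 hD hn hg v) (f3_m0 hD hn hh w)
  have n1 : mm (D.S v) (D.k v) 1 g ≠ mm (D.S v) (D.k v) 1 1 := by
    obtain ⟨r, hr, hr'⟩ := h3
    exact mm_one_ne (S' := ∅) (hD.leaf v) hr (hD.one_le v) (hn.uu hg v) (hn.uu hone v) hr'
  have n2 : mm (D.S w) (D.k w) 1 h ≠ mm (D.S w) (D.k w) 1 1 := by
    obtain ⟨r, hr, hr'⟩ := h4
    exact mm_one_ne (S' := ∅) (hD.leaf w) hr (hD.one_le w) (hn.uu hh w) (hn.uu hone w) hr'
  have n3 : ∀ z, va (fun j => mm (D.S z) (D.k z) j 1) ≠ 0 := fun z => va_ne hD hN hn hone z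
  refine ⟨c1, ?_, c2, ?_⟩
  · rw [c2]
    refine mul_ne_zero (mul_ne_zero ?_ ?_) (mul_ne_zero (sub_ne_zero.2 n1) (sub_ne_zero.2 n2))
    · rw [Ne, List.prod_eq_zero_iff, List.mem_map]
      rintro ⟨e, he, h0⟩
      have h5 := hD.w_pos e (p.edges_subset_edgeSet he)
      have h6 : (D.w e : RatFunc ℂ) ≠ 0 := by
        exact_mod_cast h5.ne'
      rcases mul_eq_zero.1 h0 with h7 | h7
      · norm_num at h7
      · exact h6 h7
    · rw [Ne, List.prod_eq_zero_iff, List.mem_map]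
      rintro ⟨z, _, h0⟩
      exact n3 z h0
  · rw [c3 n1 n2 fun z _ => n3 z]
    congr 2
    unfold Zs Dat.Z
    rw [ZZ_one _ _ _ fun u => f3_m0 hD hn hone u]

theorem defect_unreachable {D : Dat V} (hD : D.Ok) {N : ℕ} (hN : 0 < N) (hn : Nice D N) {v w : V}
    (hvw : ¬ D.G.Reachable v w) {g h : ℤ} (hg : IsCoprime g (N : ℤ)) (hh : IsCoprime h (N : ℤ))
    (h1 : ∀ u, u ≠ v → ∀ p ∈ D.S u, (2 * p : ℤ) ∣ g - 1)
    (h2 : ∀ u, u ≠ w → ∀ p ∈ D.S u, (2 * p : ℤ) ∣ h - 1) :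
    Zs D (g * h) * Zs D 1 - Zs D g * Zs D h = 0 := by
  have hne : v ≠ w := fun e => hvw (e ▸ SimpleGraph.Reachable.refl v)
  rw [Zs_defect hD hN hn hne hg hh h1 h2]
  exact MM_unreachable hvw _ _ (fun u => f3_m0 hD hn isCoprime_one_left u) (f3_m0 hD hn hg v)
    (f3_m0 hD hn hh w)

end Pool.Agent.GSP
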