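import Pool.Agent.GSP.Defs
import Pool.Agent.GSP.F2
import Pool.Agent.GSP.F3

set_option autoImplicit false

open Finset

namespace Pool.Agent.GSP

variable {V V' : Type} [Fintype V] [DecidableEq V] [Fintype V'] [DecidableEq V']

/-- the defect determines reachability and distance -/
private theorem f4_dist {D : Dat V} (hD : D.Ok) {N : ℕ} (hN : 0 < N) (hn : Nice D N) {v w : V}
    (hvw : v ≠ w) {g h : ℤ} (hg : IsCoprime g (N : ℤ)) (hh : IsCoprime h (N : ℤ))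
    (h1 : ∀ u, u ≠ v → ∀ p ∈ D.S u, (2 * p : ℤ) ∣ g - 1)
    (h2 : ∀ u, u ≠ w → ∀ p ∈ D.S u, (2 * p : ℤ) ∣ h - 1)
    (h3 : ∃ p ∈ D.S v, FF (D.S v) p (D.k v) g ≠ FF (D.S v) p (D.k v) 1)
    (h4 : ∃ p ∈ D.S w, FF (D.S w) p (D.k w) h ≠ FF (D.S w) p (D.k w) 1)
    (hr : D.G.Reachable v w) :
    (∀ n < 2 * D.G.dist v w,
      PowerSeries.coeff n (Zs D (g * h) * Zs D 1 - Zs D g * Zs D h) = 0) ∧
    PowerSeries.coeff (2 * D.G.dist v w) (Zs D (g * h) * Zs D 1 - Zs D g * Zs D h) ≠ 0 := by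
  obtain ⟨p, hp, hl⟩ := hr.exists_path_of_dist
  obtain ⟨c1, c2, -, -⟩ := defect_path hD hN hn hvw hg hh h1 h2 h3 h4 p hp
  rw [hl] at c1 c2
  exact ⟨c1, c2⟩

/-- the isomorphism of the forests -/
theorem iso_forest {D : Dat V} {D' : Dat V'} (hD : D.Ok) (hD' : D'.Ok) {N : ℕ} (hN : 0 < N)
    (hn : Nice D N) (hn' : Nice D' N)
    (hZ : ∀ s : ℤ, IsCoprime s (N : ℤ) → Zs D s = Zs D' s)
    (τ : {v // (D.S v).Nonempty} ≃ {v // (D'.S v).Nonempty})
    (hτ : ∀ v, D'.S (τ v) = D.S v)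
    (hf : ∀ v : {v // (D.S v).Nonempty}, ∀ p ∈ D.S v, ∀ s : ℤ, IsCoprime s (N : ℤ) →
      FF (D'.S (τ v)) p (D'.k (τ v)) s = FF (D.S v) p (D.k v) s) :
    ∃ σ : V ≃ V', (∀ u v, D'.G.Adj (σ u) (σ v) ↔ D.G.Adj u v) ∧ (∀ v, D'.S (σ v) = D.S v) ∧
      ∀ v : {v // (D.S v).Nonempty}, σ v = (τ v : V') := by
  have key : ∀ a b : {v // (D.S v).Nonempty},
      (D.G.Reachable a b ↔ D'.G.Reachable (τ a) (τ b)) ∧
      (D.G.Reachable a b → D.G.dist (a : V) b = D'.G.dist (τ a : V') (τ b)) := by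
    intro a b
    by_cases hab : a = b
    · subst hab
      exact ⟨⟨fun _ => SimpleGraph.Reachable.refl _, fun _ => SimpleGraph.Reachable.refl _⟩,
        fun _ => by rw [SimpleGraph.dist_self, SimpleGraph.dist_self]⟩
    have hab' : (a : V) ≠ b := fun e => hab (Subtype.ext e)
    have hab2 : (τ a : V') ≠ τ b := fun e => hab (τ.injective (Subtype.ext e))
    obtain ⟨g, hg, g1, g2⟩ := exists_unit hD hN hn a a.2
    obtain ⟨h, hh, k1, k2⟩ := exists_unit hD hN hn b b.2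
    have tr : ∀ (x : {v // (D.S v).Nonempty}) (r : ℤ),
        (∀ u, u ≠ (x : V) → ∀ p ∈ D.S u, (2 * p : ℤ) ∣ r - 1) →
        ∀ u, u ≠ (τ x : V') → ∀ p ∈ D'.S u, (2 * p : ℤ) ∣ r - 1 := by
      intro x r hx u hu p hp
      have hu1 : (D'.S u).Nonempty := ⟨p, hp⟩
      have hu2 : τ (τ.symm ⟨u, hu1⟩) = ⟨u, hu1⟩ := τ.apply_symm_apply _
      have hu3 : D'.S u = D.S (τ.symm ⟨u, hu1⟩ : {v // (D.S v).Nonempty}) := by
        rw [← hτ, hu2]
      rw [hu3] at hp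
      refine hx _ (fun e => hu ?_) p hp
      have hu4 : τ.symm ⟨u, hu1⟩ = x := Subtype.ext e
      rw [← hu4, hu2]
    have tf : ∀ (x : {v // (D.S v).Nonempty}) (r : ℤ), IsCoprime r (N : ℤ) →
        (∃ p ∈ D.S x, FF (D.S x) p (D.k x) r ≠ FF (D.S x) p (D.k x) 1) →
        ∃ p ∈ D'.S (τ x), FF (D'.S (τ x)) p (D'.k (τ x)) r ≠ FF (D'.S (τ x)) p (D'.k (τ x)) 1 := by
      rintro x r hr ⟨p, hp, hne⟩
      refine ⟨p, by rw [hτ]; exact hp, ?_⟩
      rw [hf x p hp r hr, hf x p hp 1 isCoprime_one_left]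
      exact hne
    have hdef : Zs D' (g * h) * Zs D' 1 - Zs D' g * Zs D' h =
        Zs D (g * h) * Zs D 1 - Zs D g * Zs D h := by
      rw [hZ _ (hg.mul_left hh), hZ _ isCoprime_one_left, hZ _ hg, hZ _ hh]
    have A := f4_dist hD hN hn hab' hg hh g1 k1 g2 k2
    have B := f4_dist hD' hN hn' hab2 hg hh (tr a g g1) (tr b h k1) (tf a g hg g2) (tf b h hh k2)
    rw [hdef] at B
    have hR : D.G.Reachable (a : V) b ↔ D'.G.Reachable (τ a : V') (τ b) := by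
      constructor
      · intro hr
        by_contra hc
        have h0 := defect_unreachable hD' hN hn' hc hg hh (tr a g g1) (tr b h k1)
        rw [hdef] at h0
        refine (A hr).2 ?_
        rw [h0, map_zero]
      · intro hr
        by_contra hc
        have h0 := defect_unreachable hD hN hn hc hg hh g1 k1
        refine (B hr).2 ?_
        rw [h0, map_zero]
    refine ⟨hR, fun hr => ?_⟩
    obtain ⟨A1, A2⟩ := A hr
    obtain ⟨B1, B2⟩ := B (hR.1 hr)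
    rcases lt_trichotomy (D.G.dist (a : V) b) (D'.G.dist (τ a : V') (τ b)) with hlt | heq | hgt
    · exact absurd (B1 _ (by omega)) A2
    · exact heq
    · exact absurd (A1 _ (by omega)) B2
  have hW : ∀ v, v ∉ {v | (D.S v).Nonempty} → 2 ≤ dg D.G v := by
    intro v hv
    have h3 := hD.three_le v
    have h4 : D.S v = ∅ := Finset.not_nonempty_iff_eq_empty.1 hv
    rw [h4, Finset.card_empty] at h3
    omega
  have hW' : ∀ v, v ∉ {v | (D'.S v).Nonempty} → 2 ≤ dg D'.G v := by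
    intro v hv
    have h3 := hD'.three_le v
    have h4 : D'.S v = ∅ := Finset.not_nonempty_iff_eq_empty.1 hv
    rw [h4, Finset.card_empty] at h3
    omega
  obtain ⟨σ, h1, h2⟩ := forest_iso (W := {v | (D.S v).Nonempty}) (W' := {v | (D'.S v).Nonempty})
    hD.acyclic hD'.acyclic hW hW' τ (fun a b => (key a b).1) fun a b => (key a b).2
  refine ⟨σ, h1, fun v => ?_, h2⟩
  by_cases hv : (D.S v).Nonempty
  · have := h2 ⟨v, hv⟩
    rw [show σ v = (τ ⟨v, hv⟩ : V') from this]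
    exact hτ ⟨v, hv⟩
  · rw [Finset.not_nonempty_iff_eq_empty.1 hv]
    by_contra hc
    have hc1 : (D'.S (σ v)).Nonempty := Finset.nonempty_iff_ne_empty.2 hc
    have hc2 : τ (τ.symm ⟨σ v, hc1⟩) = ⟨σ v, hc1⟩ := τ.apply_symm_apply _
    have hc3 := h2 (τ.symm ⟨σ v, hc1⟩)
    rw [hc2] at hc3
    have hc4 := σ.injective hc3
    exact hv (hc4 ▸ (τ.symm ⟨σ v, hc1⟩).2)

end Pool.Agent.GSP
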