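import Pool.Agent.GSP.Defs
import Pool.Agent.GSP.F2
import Pool.Agent.GSP.F3

set_option autoImplicit false

open Finset

namespace Pool.Agent.GSP

variable {V V' : Type} [Fintype V] [DecidableEq V] [Fintype V'] [DecidableEq V']

theorem k_iso {D : Dat V} {D' : Dat V'} (σ : V ≃ V')
    (h1 : ∀ u v, D'.G.Adj (σ u) (σ v) ↔ D.G.Adj u v) (h2 : ∀ v, D'.S (σ v) = D.S v) (v : V) :
    D'.k (σ v) = D.k v := by
  have h3 : dg D'.G (σ v) = dg D.G v := by
    unfold dg
    have h4 : D'.G.neighborSet (σ v) = σ '' D.G.neighborSet v := by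
      ext u
      constructor
      · intro hu
        refine ⟨σ.symm u, ?_, σ.apply_symm_apply u⟩
        rw [SimpleGraph.mem_neighborSet, ← h1, σ.apply_symm_apply]
        exact hu
      · rintro ⟨u, hu, rfl⟩
        rw [SimpleGraph.mem_neighborSet, h1]
        exact hu
    rw [h4, Set.ncard_image_of_injective _ σ.injective]
  unfold Dat.k
  rw [h2, h3]

/-- the formulas for a path and its image -/
private theorem f5_pair {D : Dat V} {D' : Dat V'} (hD : D.Ok) (hD' : D'.Ok) {N : ℕ} (hN : 0 < N)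
    (hn : Nice D N) (hn' : Nice D' N)
    (hZ : ∀ s : ℤ, IsCoprime s (N : ℤ) → Zs D s = Zs D' s) (σ : V ≃ V')
    (h1 : ∀ u v, D'.G.Adj (σ u) (σ v) ↔ D.G.Adj u v) (h2 : ∀ v, D'.S (σ v) = D.S v) {a b : V}
    (ha : (D.S a).Nonempty) (hb : (D.S b).Nonempty) (hab : a ≠ b) (p : D.G.Walk a b)
    (hp : p.IsPath) :
    (p.edges.map fun e => 2 / 3 * (D.w e : RatFunc ℂ)).prod =
      (p.edges.map fun e => 2 / 3 * (D'.w (Sym2.map σ e) : RatFunc ℂ)).prod ∧
    ∃ x y : RatFunc ℂ, (D.q a : RatFunc ℂ) * x + (D.q b : RatFunc ℂ) * y +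
        (p.support.tail.dropLast.map fun z => (D.q z : RatFunc ℂ) *
          (cu (fun j => mm (D.S z) (D.k z) j 1) / va fun j => mm (D.S z) (D.k z) j 1)).sum =
      (D'.q (σ a) : RatFunc ℂ) * x + (D'.q (σ b) : RatFunc ℂ) * y +
        (p.support.tail.dropLast.map fun z => (D'.q (σ z) : RatFunc ℂ) *
          (cu (fun j => mm (D.S z) (D.k z) j 1) / va fun j => mm (D.S z) (D.k z) j 1)).sum := by
  obtain ⟨g, hg, g1, g2⟩ := exists_unit hD hN hn a ha
  obtain ⟨h, hh, k1, k2⟩ := exists_unit hD hN hn b hb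
  have hab2 : σ a ≠ σ b := fun e => hab (σ.injective e)
  have hk := k_iso σ h1 h2
  have tr : ∀ (x : V) (r : ℤ),
      (∀ u, u ≠ x → ∀ p ∈ D.S u, (2 * p : ℤ) ∣ r - 1) →
      ∀ u, u ≠ σ x → ∀ p ∈ D'.S u, (2 * p : ℤ) ∣ r - 1 := by
    intro x r hx u hu p hp
    have hu2 : σ (σ.symm u) = u := σ.apply_symm_apply _
    rw [← hu2, h2] at hp
    refine hx _ (fun e => hu ?_) p hp
    rw [← e, hu2]
  have tf : ∀ (x : V) (r : ℤ),
      (∃ p ∈ D.S x, FF (D.S x) p (D.k x) r ≠ FF (D.S x) p (D.k x) 1) →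
      ∃ p ∈ D'.S (σ x), FF (D'.S (σ x)) p (D'.k (σ x)) r ≠ FF (D'.S (σ x)) p (D'.k (σ x)) 1 := by
    intro x r hx
    rw [h2, hk]
    exact hx
  have hdef : Zs D' (g * h) * Zs D' 1 - Zs D' g * Zs D' h =
      Zs D (g * h) * Zs D 1 - Zs D g * Zs D h := by
    rw [hZ _ (hg.mul_left hh), hZ _ isCoprime_one_left, hZ _ hg, hZ _ hh]
  let φ : D.G →g D'.G := ⟨σ, fun {u v} huv => (h1 u v).2 huv⟩
  have hp' : (p.map φ).IsPath := SimpleGraph.Walk.map_isPath_of_injective σ.injective hp
  obtain ⟨-, A2, A3, A4⟩ := defect_path hD hN hn hab hg hh g1 k1 g2 k2 p hp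
  obtain ⟨-, -, B3, B4⟩ := defect_path hD' hN hn' hab2 hg hh (tr a g g1) (tr b h k1) (tf a g g2)
    (tf b h k2) (p.map φ) hp'
  rw [hdef, SimpleGraph.Walk.length_map] at B3 B4
  have s1 : (p.map φ).support.tail.dropLast = p.support.tail.dropLast.map σ := by
    rw [SimpleGraph.Walk.support_map, ← List.map_tail, ← List.map_dropLast]
    rfl
  have s2 : (p.map φ).edges = p.edges.map (Sym2.map σ) := by
    rw [SimpleGraph.Walk.edges_map]
    rfl
  rw [s1, s2, List.map_map, List.map_map] at B3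
  rw [s1, List.map_map] at B4
  have e1 : ∀ z : V, (fun j => mm (D'.S (σ z)) (D'.k (σ z)) j 1) =
      fun j => mm (D.S z) (D.k z) j 1 := fun z => by rw [h2, hk]
  have e2 : ((fun z => va fun j => mm (D'.S z) (D'.k z) j 1) ∘ σ) =
      fun z => va fun j => mm (D.S z) (D.k z) j 1 := by
    funext z
    show va (fun j => mm (D'.S (σ z)) (D'.k (σ z)) j 1) = _
    rw [e1]
  have e3 : ((fun z => (D'.q z : RatFunc ℂ) * (cu (fun j => mm (D'.S z) (D'.k z) j 1) /
      va fun j => mm (D'.S z) (D'.k z) j 1)) ∘ σ) =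
      fun z => (D'.q (σ z) : RatFunc ℂ) * (cu (fun j => mm (D.S z) (D.k z) j 1) /
        va fun j => mm (D.S z) (D.k z) j 1) := by
    funext z
    show (D'.q (σ z) : RatFunc ℂ) * (cu (fun j => mm (D'.S (σ z)) (D'.k (σ z)) j 1) /
      va fun j => mm (D'.S (σ z)) (D'.k (σ z)) j 1) = _
    rw [e1]
  rw [e2, h2, h2, hk, hk] at B3
  rw [e3, h2, h2, hk, hk, ← hZ _ isCoprime_one_left] at B4
  constructor
  · have h5 := A3.symm.trans B3
    have h6 := A2
    rw [A3] at h6
    have h7 := right_ne_zero_of_mul h6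
    have h8 := right_ne_zero_of_mul (left_ne_zero_of_mul h6)
    exact mul_right_cancel₀ h8 (mul_right_cancel₀ h7 h5)
  · have h5 := mul_left_cancel₀ A2 (A4.symm.trans B4)
    refine ⟨_, _, add_right_cancel h5⟩

private theorem f5_prod {α : Type} (l : List α) {a b : α → ℚ} (ha : ∀ x ∈ l, a x ≠ 0)
    (h : (l.map fun x => 2 / 3 * (a x : RatFunc ℂ)).prod =
      (l.map fun x => 2 / 3 * (b x : RatFunc ℂ)).prod) :
    (l.map fun x => ((b x : ℝ) / (a x : ℝ))).prod = 1 := by
  have h1 : (l.map fun x => 2 / 3 * a x).prod = (l.map fun x => 2 / 3 * b x).prod := by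
    have h2 : ∀ c : α → ℚ, (((l.map fun x => 2 / 3 * c x).prod : ℚ) : RatFunc ℂ) =
        (l.map fun x => 2 / 3 * (c x : RatFunc ℂ)).prod := by
      intro c
      rw [← Rat.coe_castHom, map_list_prod, List.map_map]
      congr 2
      funext x
      simp
    have h3 := (h2 a).trans (h.trans (h2 b).symm)
    exact_mod_cast h3
  have h4 : (l.map fun x => 2 / 3 * a x).prod ≠ 0 := by
    rw [Ne, List.prod_eq_zero_iff, List.mem_map]
    rintro ⟨x, hx, h0⟩
    exact mul_ne_zero (by norm_num) (ha x hx) h0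
  have h5 : (l.map fun x => b x / a x).prod * (l.map fun x => 2 / 3 * a x).prod =
      (l.map fun x => 2 / 3 * b x).prod := by
    rw [← List.prod_map_mul]
    congr 1
    refine List.map_congr_left fun x hx => ?_
    have := ha x hx
    field_simp
  rw [← h1] at h5
  have h6 : (l.map fun x => b x / a x).prod = 1 := by
    refine mul_right_cancel₀ h4 ?_
    rw [h5, one_mul]
  have h7 : (((l.map fun x => b x / a x).prod : ℚ) : ℝ) =
      (l.map fun x => ((b x : ℝ) / (a x : ℝ))).prod := by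
    rw [← Rat.coe_castHom, map_list_prod, List.map_map]
    congr 2
    funext x
    simp
  rw [← h7, h6, Rat.cast_one]

private theorem f5_three {D : Dat V} (hD : D.Ok) (v : V) (hv : v ∉ {v | (D.S v).Nonempty}) :
    3 ≤ dg D.G v := by
  have h3 := hD.three_le v
  have h4 : D.S v = ∅ := Finset.not_nonempty_iff_eq_empty.1 hv
  rw [h4, Finset.card_empty] at h3
  omega

/-- the squares of the entries for the edges -/
theorem w_eq {D : Dat V} {D' : Dat V'} (hD : D.Ok) (hD' : D'.Ok) {N : ℕ} (hN : 0 < N)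
    (hn : Nice D N) (hn' : Nice D' N)
    (hZ : ∀ s : ℤ, IsCoprime s (N : ℤ) → Zs D s = Zs D' s) (σ : V ≃ V')
    (h1 : ∀ u v, D'.G.Adj (σ u) (σ v) ↔ D.G.Adj u v) (h2 : ∀ v, D'.S (σ v) = D.S v) :
    ∀ u v, D.G.Adj u v → D'.w s(σ u, σ v) = D.w s(u, v) := by
  have hmem : ∀ e ∈ D.G.edgeSet, Sym2.map σ e ∈ D'.G.edgeSet := by
    intro e
    induction e using Sym2.ind with
    | _ x y =>
      intro he
      rw [Sym2.map_mk, SimpleGraph.mem_edgeSet] at *
      exact (h1 x y).2 he
  have key := edge_one hD.acyclic (W := {v | (D.S v).Nonempty}) (f5_three hD)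
    (f := fun e => ((D'.w (Sym2.map σ e) : ℝ) / (D.w e : ℝ))) (fun e he => by
      have q1 := hD.w_pos e he
      have q2 := hD'.w_pos _ (hmem e he)
      have q3 : (0 : ℝ) < D.w e := by exact_mod_cast q1
      have q4 : (0 : ℝ) < D'.w (Sym2.map σ e) := by exact_mod_cast q2
      exact div_pos q4 q3) (by
      intro a ha b hb p hp
      by_cases hab : a = b
      · subst hab
        rw [SimpleGraph.Walk.isPath_iff_eq_nil.1 hp]
        simp
      · exact f5_prod p.edges (fun e he => (hD.w_pos e (p.edges_subset_edgeSet he)).ne')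
          (f5_pair hD hD' hN hn hn' hZ σ h1 h2 ha hb hab p hp).1)
  intro u v huv
  have h3 := key s(u, v) huv
  have h4 : (0 : ℝ) < D.w s(u, v) := by exact_mod_cast hD.w_pos _ huv
  simp only [Sym2.map_mk] at h3
  rw [div_eq_one_iff_eq h4.ne'] at h3
  exact_mod_cast h3

private theorem f5_sum {K : Type} [AddCommMonoid K] {G : SimpleGraph V} (y : V → K) {a b : V}
    (hab : a ≠ b) (p : G.Walk a b) :
    (p.support.map y).sum = y a + ((p.support.tail.dropLast.map y).sum + y b) := by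
  cases p with
  | nil => exact absurd rfl hab
  | cons h p' =>
    rw [SimpleGraph.Walk.support_cons, List.map_cons, List.sum_cons, List.tail_cons]
    congr 1
    conv_lhs => rw [← List.dropLast_append_getLast (SimpleGraph.Walk.support_ne_nil p')]
    rw [SimpleGraph.Walk.getLast_support, List.map_append, List.sum_append, List.map_singleton,
      List.sum_singleton]

private theorem f5_sub {α K : Type} [AddCommGroup K] (l : List α) (A B : α → K) :
    (l.map fun z => A z - B z).sum = (l.map A).sum - (l.map B).sum := by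
  induction l with
  | nil => simp
  | cons a l ih =>
    rw [List.map_cons, List.map_cons, List.map_cons, List.sum_cons, List.sum_cons, List.sum_cons,
      ih]
    abel

/-- the diagonal entries -/
theorem q_eq {D : Dat V} {D' : Dat V'} (hD : D.Ok) (hD' : D'.Ok) {N : ℕ} (hN : 0 < N)
    (hn : Nice D N) (hn' : Nice D' N)
    (hZ : ∀ s : ℤ, IsCoprime s (N : ℤ) → Zs D s = Zs D' s) (σ : V ≃ V')
    (h1 : ∀ u v, D'.G.Adj (σ u) (σ v) ↔ D.G.Adj u v) (h2 : ∀ v, D'.S (σ v) = D.S v)
    (h3 : ∀ v, (D.S v).Nonempty → D'.q (σ v) = D.q v) : ∀ v, D'.q (σ v) = D.q v := by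
  have key := vert_zero hD.acyclic (W := {v | (D.S v).Nonempty}) (f5_three hD) (K := RatFunc ℂ)
    (y := fun z => ((D.q z : RatFunc ℂ) - (D'.q (σ z) : RatFunc ℂ)) *
      (cu (fun j => mm (D.S z) (D.k z) j 1) / va fun j => mm (D.S z) (D.k z) j 1)) (by
      intro a ha b hb p hp
      by_cases hab : a = b
      · subst hab
        rw [SimpleGraph.Walk.isPath_iff_eq_nil.1 hp]
        simp [h3 a ha]
      · obtain ⟨-, x, y, hxy⟩ := f5_pair hD hD' hN hn hn' hZ σ h1 h2 ha hb hab p hp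
        rw [h3 a ha, h3 b hb] at hxy
        have h5 := add_left_cancel hxy
        rw [f5_sum _ hab, h3 a ha, h3 b hb, sub_self, sub_self, zero_mul, zero_mul, zero_add,
          add_zero]
        simp only [sub_mul]
        rw [f5_sub, h5, sub_self])
  intro v
  by_cases hv : (D.S v).Nonempty
  · exact h3 v hv
  · have h4 := key v
    have h5 : D.S v = ∅ := Finset.not_nonempty_iff_eq_empty.1 hv
    rcases mul_eq_zero.1 h4 with h6 | h6
    · have h7 := sub_eq_zero.1 h6
      exact_mod_cast h7.symm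
    · exfalso
      rcases div_eq_zero_iff.1 h6 with h7 | h7
      · rw [h5] at h7
        exact mm_cu (hD.one_le v) 1 h7
      · exact va_ne hD hN hn isCoprime_one_left v h7

end Pool.Agent.GSP
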