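import Pool.Agent.GSP.Defs
import Pool.Agent.GSP.F2z
import Pool.Agent.GSP.F4
import Pool.Agent.GSP.F5

set_option autoImplicit false

open Finset

namespace Pool.Agent.GSP

variable {V V' : Type} [Fintype V] [DecidableEq V] [Fintype V'] [DecidableEq V']

/-- the decoding of the forest -/
theorem decode {D : Dat V} {D' : Dat V'} (hD : D.Ok) (hD' : D'.Ok) (hq : D.NZ)
    (hZ : D.Z (fun v j => nm (D.S v) (D.k v) j) = D'.Z (fun v j => nm (D'.S v) (D'.k v) j))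
    {a b : ℚ} (ha : 0 < a) (hb : 0 < b) (hm : (a : ℝ) * (∏ v, mu (D.S v) (D.k v) 0) ^ 2 =
      b * (∏ v, mu (D'.S v) (D'.k v) 0) ^ 2) :
    ∃ σ : V ≃ V', (∀ u v, D'.G.Adj (σ u) (σ v) ↔ D.G.Adj u v) ∧ (∀ v, D'.S (σ v) = D.S v) ∧
      (∀ v, D'.q (σ v) = D.q v) ∧ ∀ u v, D.G.Adj u v → D'.w s(σ u, σ v) = D.w s(u, v) := by
  classical
  let N : ℕ := 4 * ((∏ v, ∏ p ∈ D.S v, p) * ∏ v, ∏ p ∈ D'.S v, p)
  have hpos : ∀ v, ∀ p ∈ D.S v, 0 < p := fun v p hp => by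
    have := (hD.leaf v).two_le p hp
    omega
  have hpos' : ∀ v, ∀ p ∈ D'.S v, 0 < p := fun v p hp => by
    have := (hD'.leaf v).two_le p hp
    omega
  have hN : 0 < N := Nat.mul_pos (by norm_num) (Nat.mul_pos
    (prod_pos fun v _ => prod_pos (hpos v)) (prod_pos fun v _ => prod_pos (hpos' v)))
  have hn : Nice D N := ⟨Dvd.intro _ rfl, fun v p hp => Nat.mul_dvd_mul (by norm_num)
    (((dvd_prod_of_mem _ hp).trans (dvd_prod_of_mem (fun v => ∏ p ∈ D.S v, p)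
      (mem_univ v))).mul_right _)⟩
  have hn' : Nice D' N := ⟨Dvd.intro _ rfl, fun v p hp => Nat.mul_dvd_mul (by norm_num)
    (((dvd_prod_of_mem _ hp).trans (dvd_prod_of_mem (fun v => ∏ p ∈ D'.S v, p)
      (mem_univ v))).mul_left _)⟩
  have hc := fun s (hs : IsCoprime s (N : ℤ)) => conj_eq hD hD' hN hn hn' hZ hm hs
  have hq' : D'.NZ := nz_of hD hD' hq hN hn hn' ha hb (fun s hs => (hc s hs).1)
    fun s hs => (hc s hs).2
  obtain ⟨τ, hτ⟩ := leafy hD hD' hq hq' hN hn hn' ha hb (fun s hs => (hc s hs).1) fun s hs => (hc s hs).2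
  obtain ⟨σ, h1, h2, h3⟩ := iso_forest hD hD' hN hn hn' (fun s hs => (hc s hs).1) τ
    (fun v => (hτ v).1) fun v => (hτ v).2.2
  refine ⟨σ, h1, h2, ?_, w_eq hD hD' hN hn hn' (fun s hs => (hc s hs).1) σ h1 h2⟩
  refine q_eq hD hD' hN hn hn' (fun s hs => (hc s hs).1) σ h1 h2 fun v hv => ?_
  have h4 := (hτ ⟨v, hv⟩).2.1
  have h5 : ((τ ⟨v, hv⟩ : {v // (D'.S v).Nonempty}) : V') = σ v := (h3 ⟨v, hv⟩).symm
  rw [h5, h2, k_iso σ h1 h2] at h4
  refine mul_right_cancel₀ ?_ h4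
  unfold be
  split_ifs
  · positivity
  · positivity

end Pool.Agent.GSP
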