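import Pool.Agent.GSP.Defs
import Pool.Agent.GSP.H1
import Pool.Agent.GSP.B5
import Pool.Agent.GSP.C1b
import Pool.Agent.GSP.F6
import Pool.Agent.GSP.H2
import Pool.Agent.GSP.H3
import Pool.Agent.GSP.H4

set_option autoImplicit false

open Finset

namespace Pool.Agent.GSP

open Pool.Agent.OHG Pool.Agent.GPC

private theorem i1_dg {ι : Type} {P : ι → Prime} (i : ι) (v : Fin ((P i).n + 1)) :
    dg (sigG fun i => (P i).D.graph) ⟨i, v⟩ = ((P i).D.nbr v).card := by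
  unfold dg
  have h1 : (sigG fun i => (P i).D.graph).neighborSet ⟨i, v⟩ =
      Sigma.mk i '' ((P i).D.nbr v : Set (Fin ((P i).n + 1))) := by
    ext ⟨j, w⟩
    rw [SimpleGraph.mem_neighborSet, Set.mem_image]
    constructor
    · rintro ⟨k, a, b, h1, h2, h3⟩
      rw [Sigma.mk.injEq] at h1 h2
      obtain ⟨rfl, h1⟩ := h1
      obtain ⟨rfl, h2⟩ := h2
      rw [heq_eq_eq] at h1 h2
      subst h1 h2
      exact ⟨_, mem_coe.2 (mem_nbr.2 h3), rfl⟩
    · rintro ⟨a, h1, h2⟩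
      rw [← h2]
      exact sigG_adj.2 (mem_nbr.1 (mem_coe.1 h1))
  rw [h1, Set.ncard_image_of_injective _ sigma_mk_injective, Set.ncard_coe_finset]

private theorem i1_pos {V : Type} [Fintype V] [DecidableEq V] {D : Data V} (h : D.IsGraph)
    {a b : V} (hab : D.graph.Adj a b) : 0 < (lkq D)⁻¹ a b * (lkq D)⁻¹ b a := by
  rw [inv_adj h hab, inv_adj h hab.symm, lk_comm D b a, mul_comm (D.wt b a)]
  have h1 := h.edge_det a b (mem_nbr.2 hab)
  have h2 : ((D.wt a b * D.wt b a - D.lk a b : ℤ) : ℚ) ≠ 0 := by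
    intro h3
    rw [Int.cast_eq_zero] at h3
    exact h1 (by omega)
  exact mul_self_pos.2 (div_ne_zero (by norm_num) h2)

/-- the data of a family are admissible -/
theorem fam_ok {ι : Type} [Fintype ι] [DecidableEq ι] {P : ι → Prime} (hP : Cls P) :
    (famOf P).Ok where
  acyclic := sigG_acyclic fun i => (P i).isGraph.tree.isAcyclic
  leaf := fun ⟨i, v⟩ => ⟨(P i).isGraph.two_le v, (P i).isGraph.coprime_leaf v, hP.card_le i v⟩
  three_le := fun ⟨i, v⟩ => by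
    have h1 := (P i).isGraph.three_le v
    have h2 := i1_dg (P := P) i v
    show 3 ≤ ((P i).D.leaf v).card + dg (sigG fun i => (P i).D.graph) ⟨i, v⟩
    rw [h2]
    exact h1
  w_pos := by
    intro e
    induction e with
    | _ x y =>
      intro h
      rw [SimpleGraph.mem_edgeSet] at h
      obtain ⟨i, a, b, h1, h2, h3⟩ := h
      subst h1 h2
      show 0 < Matrix.blockDiagonal' (fun i => (lkq (P i).D)⁻¹) ⟨i, a⟩ ⟨i, b⟩ *
        Matrix.blockDiagonal' (fun i => (lkq (P i).D)⁻¹) ⟨i, b⟩ ⟨i, a⟩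
      rw [Matrix.blockDiagonal'_apply_eq, Matrix.blockDiagonal'_apply_eq]
      exact i1_pos (P i).isGraph h3
  priv := fun ⟨i, v⟩ hv => by
    obtain ⟨p, hp, h6, g, hg, h3, h⟩ := hP.priv i v hv
    exact ⟨p, hp, h6, g, hg, h3, fun q ⟨⟨j, x⟩, hx, hq⟩ => h q ⟨j, x, hx, hq⟩⟩

/-- the diagonal entries -/
theorem fam_nz {ι : Type} [Fintype ι] [DecidableEq ι] {P : ι → Prime} (hP : ∀ i, Reg (P i)) :
    (famOf P).NZ := fun ⟨i, v⟩ hv => by
  have h1 := hP i v hv
  rw [lkm_inv (P i).isGraph] at h1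
  show (lkq (P i).D)⁻¹ v v ≠ 0
  exact_mod_cast h1

/-- the diagrams with the same data -/
theorem iso_of_dat {P P' : Prime} (hn : ∀ v, (P.D.nbr v).Nonempty)
    (f : Fin (P.n + 1) ≃ Fin (P'.n + 1))
    (hf : ∀ v w, P'.D.graph.Adj (f v) (f w) ↔ P.D.graph.Adj v w)
    (hl : ∀ v, P'.D.leaf (f v) = P.D.leaf v)
    (hq : ∀ v, (lkq P'.D)⁻¹ (f v) (f v) = (lkq P.D)⁻¹ v v)
    (hw : ∀ v w, P.D.graph.Adj v w → ((lkq P'.D)⁻¹ (f v) (f w)) ^ 2 = ((lkq P.D)⁻¹ v w) ^ 2) :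
    Iso P P' := by
  obtain ⟨ε, h1, h2, h3⟩ := signs P.isGraph P'.isGraph f hf hq hw
  have habs : ∀ v w, |ε v * ε w| = 1 := by
    intro v w
    rcases h1 v with h | h <;> rcases h1 w with h' | h' <;> rw [h, h'] <;> norm_num
  have h4 := weights P.isGraph P'.isGraph f hf hl (fun v w => by rw [h2, abs_mul, habs, one_mul])
    fun v w h => by rw [h3 v w h, abs_mul, habs, one_mul]
  obtain ⟨η, h5, h6, h7⟩ := choose_signs P.isGraph P'.isGraph f hf hl (fun v => by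
    rw [h2]
    rcases h1 v with h | h <;> rw [h] <;> ring) h4 hn
  exact ⟨f, η, hf, hl, h5, h6, h7⟩

end Pool.Agent.GSP
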