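import Pool.Agent.GSP.Defs
import Mathlib


set_option autoImplicit false

namespace Pool.Agent.GSP

private theorem N5_le_of_dvd {a n : ℕ} (hn : 0 < n) (h : a ∣ n) : Nat.totient a ≤ Nat.totient n :=
  Nat.le_of_dvd (Nat.totient_pos.2 hn) (Nat.totient_dvd_of_dvd h)

private theorem N5_prime_cases {r : ℕ} (hr : r.Prime) : r = 2 ∨ r = 3 ∨ r = 5 ∨ 7 ≤ r := by
  by_contra hcon
  have h1 := hr.two_le
  have h2 : r = 4 ∨ r = 6 := by omega
  rcases h2 with rfl | rfl
  · exact absurd hr (by norm_num)
  · exact absurd hr (by norm_num)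

theorem totient_ge {p : ℕ} (hp : 7 ≤ p) : 6 ≤ Nat.totient (2 * p) := by
  have hn : 0 < 2 * p := by omega
  by_cases h7 : ∃ r, r.Prime ∧ r ∣ 2 * p ∧ 7 ≤ r
  · obtain ⟨r, hr, hd, h⟩ := h7
    have h1 := N5_le_of_dvd hn hd
    rw [Nat.totient_prime hr] at h1
    omega
  by_cases h16 : 16 ∣ 2 * p
  · have h1 := N5_le_of_dvd hn h16
    have h2 : Nat.totient 16 = 8 := by decide
    omega
  by_cases h9 : 9 ∣ 2 * p
  · have h1 := N5_le_of_dvd hn h9
    have h2 : Nat.totient 9 = 6 := by decide
    omega
  by_cases h25 : 25 ∣ 2 * p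
  · have h1 := N5_le_of_dvd hn h25
    have h2 : Nat.totient 25 = 20 := by decide
    omega
  have h120 : 2 * p ∣ 120 := by
    rw [← Nat.factorization_prime_le_iff_dvd (by omega) (by norm_num)]
    intro q hq
    by_contra hcon
    rw [not_le] at hcon
    have hpos : 0 < (2 * p).factorization q := by omega
    have hqd : q ∣ 2 * p := Nat.dvd_of_factorization_pos (by omega)
    have hpow : ∀ k, k ≤ (2 * p).factorization q → q ^ k ∣ 2 * p := fun k hk =>
      (Nat.Prime.pow_dvd_iff_le_factorization hq (by omega)).2 hk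
    have hlow : ∀ k, q ^ k ∣ 120 → k ≤ Nat.factorization 120 q := fun k hk =>
      (Nat.Prime.pow_dvd_iff_le_factorization hq (by norm_num)).1 hk
    rcases N5_prime_cases hq with rfl | rfl | rfl | h
    · have h1 := hlow 3 (by norm_num)
      exact h16 (hpow 4 (by omega))
    · have h1 := hlow 1 (by norm_num)
      exact h9 (hpow 2 (by omega))
    · have h1 := hlow 1 (by norm_num)
      exact h25 (hpow 2 (by omega))
    · exact h7 ⟨q, hq, hqd, h⟩
  have hp60 : p ∣ 60 := by
    have : 2 * p ∣ 2 * 60 := h120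
    exact Nat.dvd_of_mul_dvd_mul_left (by norm_num) this
  have hple : p ≤ 60 := Nat.le_of_dvd (by norm_num) hp60
  clear h120 h25 h9 h16 h7 hn
  interval_cases p <;> first | (exfalso; revert hp60; decide) | decide

theorem big_of_gcd {p : ℕ} {Q : Set ℕ} (hp : 7 ≤ p) (hp12 : p ≠ 12)
    (h : ∀ q ∈ Q, Nat.gcd p q ≤ 3) : Big p Q := by
  refine ⟨totient_ge hp, Nat.gcd p 6, Nat.gcd_dvd_left _ _, ?_, ?_⟩
  · have h6 := totient_ge hp
    have hg6 : Nat.gcd p 6 ∣ 6 := Nat.gcd_dvd_right _ _
    have hgle : Nat.gcd p 6 ≤ 6 := Nat.le_of_dvd (by norm_num) hg6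
    have hgpos : 0 < Nat.gcd p 6 := Nat.gcd_pos_of_pos_right _ (by norm_num)
    have hcase : Nat.gcd p 6 = 1 ∨ Nat.gcd p 6 = 2 ∨ Nat.gcd p 6 = 3 ∨ Nat.gcd p 6 = 6 := by
      generalize Nat.gcd p 6 = g at *
      interval_cases g <;> omega
    rcases hcase with e | e | e | e
    · rw [e]
      have : Nat.totient (2 * 1) = 1 := by decide
      omega
    · rw [e]
      have : Nat.totient (2 * 2) = 2 := by decide
      omega
    · rw [e]
      have : Nat.totient (2 * 3) = 2 := by decide
      omega
    · rw [e]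
      have h4 : Nat.totient (2 * 6) = 4 := by decide
      have hd : 6 ∣ p := by rw [← e]; exact Nat.gcd_dvd_left _ _
      obtain ⟨m, rfl⟩ := hd
      have hm : 3 ≤ m := by omega
      have hn : 0 < 2 * (6 * m) := by omega
      have key : 12 ≤ Nat.totient (2 * (6 * m)) := by
        by_cases h5 : ∃ r, r.Prime ∧ r ∣ m ∧ 5 ≤ r
        · obtain ⟨r, hr, hrd, hr5⟩ := h5
          have h1 : 12 * r ∣ 2 * (6 * m) := by
            obtain ⟨t, rfl⟩ := hrd
            exact ⟨t, by ring⟩
          have h2 := N5_le_of_dvd hn h1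
          have h3 : Nat.Coprime 12 r := by
            rw [Nat.coprime_comm, hr.coprime_iff_not_dvd]
            intro hdv
            have h3 : r ∣ 2 ^ 2 * 3 := hdv
            rcases (hr.dvd_mul).1 h3 with h3 | h3
            · have := Nat.le_of_dvd (by norm_num) (hr.dvd_of_dvd_pow h3)
              omega
            · have := Nat.le_of_dvd (by norm_num) h3
              omega
          rw [Nat.totient_mul h3, Nat.totient_prime hr] at h2
          have h4' : Nat.totient 12 = 4 := by decide
          rw [h4'] at h2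
          omega
        by_cases h3 : 3 ∣ m
        · have h1 : 36 ∣ 2 * (6 * m) := by
            obtain ⟨t, rfl⟩ := h3
            exact ⟨t, by ring⟩
          have h2 := N5_le_of_dvd hn h1
          have h4' : Nat.totient 36 = 12 := by decide
          omega
        · have hpow : m = 2 ^ m.primeFactorsList.length := by
            refine Nat.eq_prime_pow_of_unique_prime_dvd (by omega) ?_
            intro q hq hqd
            rcases N5_prime_cases hq with rfl | rfl | rfl | h7
            · rfl
            · exact absurd hqd h3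
            · exact absurd ⟨5, hq, hqd, le_rfl⟩ h5
            · exact absurd ⟨q, hq, hqd, by omega⟩ h5
          have hlen : 2 ≤ m.primeFactorsList.length := by
            by_contra hcon
            have : m.primeFactorsList.length = 0 ∨ m.primeFactorsList.length = 1 := by omega
            rcases this with h8 | h8 <;> rw [h8] at hpow <;> omega
          have h4d : 4 ∣ m := by
            rw [hpow]
            exact pow_dvd_pow 2 hlen
          have h1 : 48 ∣ 2 * (6 * m) := by
            obtain ⟨t, rfl⟩ := h4d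
            exact ⟨t, by ring⟩
          have h2 := N5_le_of_dvd hn h1
          have h4' : Nat.totient 48 = 16 := by decide
          omega
      omega
  · intro q hq
    have h1 := h q hq
    have h0 : 0 < Nat.gcd p q := Nat.gcd_pos_of_pos_left _ (by omega)
    refine Nat.dvd_gcd (Nat.gcd_dvd_left _ _) ?_
    generalize Nat.gcd p q = c at *
    interval_cases c <;> decide

theorem big_of_pp {p d : ℕ} {Q : Set ℕ} (hd : IsPrimePow d) (ho : Odd d) (h5 : 5 ≤ d)
    (hp : 0 < p) (hp5 : p ≠ 5) (hdp : d ∣ p) (h : ∀ q ∈ Q, ¬ d ∣ q) : Big p Q := by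
  obtain ⟨r, e, hr, he, rfl⟩ := hd
  have hrp : r.Prime := Nat.prime_iff.2 hr
  have hp7 : 7 ≤ p := by
    have h1 := Nat.le_of_dvd hp hdp
    by_contra hcon
    have h2 : p = 6 := by omega
    subst h2
    obtain ⟨t, ht⟩ := hdp
    have h3 : t = 1 := by
      have : t < 2 := by
        by_contra h4
        rw [not_lt] at h4
        nlinarith
      have : 0 < t := by
        rcases Nat.eq_zero_or_pos t with h5 | h5
        · subst h5; omega
        · exact h5
      omega
    rw [h3, mul_one] at ht
    rw [← ht] at ho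
    exact absurd ho (by decide)
  have hrodd : Odd r := by
    rcases hrp.eq_two_or_odd' with h2 | h2
    · exfalso
      rw [h2] at ho
      exact (Nat.not_odd_iff_even.2 ((Nat.even_pow.2 ⟨even_two, by omega⟩))) ho
    · exact h2
  have hr3 : 3 ≤ r := by
    have h1 := hrp.two_le
    rcases Nat.lt_or_ge 2 r with h2 | h2
    · omega
    · have h3 : r = 2 := by omega
      rw [h3] at hrodd
      exact absurd hrodd (by decide)
  obtain ⟨v, hv⟩ : ∃ v, v = p.factorization r := ⟨_, rfl⟩
  obtain ⟨m, hm⟩ : ∃ m, m = p / r ^ v := ⟨_, rfl⟩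
  have hpm : r ^ v * m = p := by
    rw [hm, hv]
    exact Nat.ordProj_mul_ordCompl_eq_self p r
  have hrm : ¬ r ∣ m := by
    rw [hm, hv]
    exact Nat.not_dvd_ordCompl hrp (by omega)
  have hev : e ≤ v := by
    rw [hv]
    exact (Nat.Prime.pow_dvd_iff_le_factorization hrp (by omega)).1 hdp
  have hr2m : Nat.Coprime r (2 * m) := by
    rw [hrp.coprime_iff_not_dvd]
    intro hdv
    rcases (hrp.dvd_mul).1 hdv with h1 | h1
    · have := Nat.le_of_dvd (by norm_num) h1
      omega
    · exact hrm h1
  refine ⟨totient_ge hp7, r ^ (e - 1) * m, ?_, ?_, ?_⟩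
  · rw [← hpm]
    exact Nat.mul_dvd_mul (pow_dvd_pow r (by omega)) dvd_rfl
  · have e1 : 2 * (r ^ (e - 1) * m) = r ^ (e - 1) * (2 * m) := by ring
    have e2 : 2 * p = r ^ v * (2 * m) := by rw [← hpm]; ring
    rw [e1, e2, Nat.totient_mul (hr2m.pow_left _), Nat.totient_mul (hr2m.pow_left _), ← mul_assoc]
    refine Nat.mul_le_mul_right _ ?_
    have hv0 : 0 < v := by omega
    rw [Nat.totient_prime_pow hrp hv0]
    rcases Nat.lt_or_ge 1 e with h1 | h1
    · have he0 : 0 < e - 1 := by omega
      rw [Nat.totient_prime_pow hrp he0, ← mul_assoc]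
      refine Nat.mul_le_mul_right _ ?_
      have h2 : r * r ^ (e - 1 - 1) = r ^ (e - 1) := by
        rw [← pow_succ']
        congr 1
        omega
      have h3 : r ^ (e - 1) ≤ r ^ (v - 1) := Nat.pow_le_pow_right (by omega) (by omega)
      calc 3 * r ^ (e - 1 - 1) ≤ r * r ^ (e - 1 - 1) := Nat.mul_le_mul_right _ hr3
        _ = r ^ (e - 1) := h2
        _ ≤ r ^ (v - 1) := h3
    · have h2 : e = 1 := by omega
      subst h2
      rw [pow_one] at h5
      have h3 : 1 ≤ r ^ (v - 1) := Nat.one_le_pow _ _ (by omega)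
      rw [Nat.sub_self, pow_zero, Nat.totient_one]
      calc 3 * 1 ≤ 1 * (r - 1) := by omega
        _ ≤ r ^ (v - 1) * (r - 1) := Nat.mul_le_mul_right _ h3
  · intro q hq
    have h1 : Nat.gcd p q ∣ r ^ v * m := by rw [hpm]; exact Nat.gcd_dvd_left _ _
    obtain ⟨c1, c2, hc1, hc2, hc⟩ := (Nat.dvd_mul).1 h1
    obtain ⟨j, hj, rfl⟩ := (Nat.dvd_prime_pow hrp).1 hc1
    rw [← hc]
    refine Nat.mul_dvd_mul (pow_dvd_pow r ?_) hc2
    by_contra hcon
    apply h q hq
    have h2 : r ^ e ∣ r ^ j := pow_dvd_pow r (by omega)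
    exact (h2.trans (Dvd.intro _ hc)).trans (Nat.gcd_dvd_right p q)

end Pool.Agent.GSP
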